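import Mathlib

-- part Pool.Agent.Lib.MP_10be03_gt.ASys
section

/-! The system of equations with solution ring generated by a primitive root of unity. -/

set_option autoImplicit false

namespace Pool.Agent.Lib.MP_10be03_gt.A

open Finset

variable {B B' : Type*} [CommRing B] [CommRing B']

/-- The geometric sum. -/
def br (x : B) (n : ℕ) : B := ∑ i ∈ range n, x ^ i

theorem br_succ (x : B) (n : ℕ) : br x (n + 1) = br x n + x ^ n := sum_range_succ _ _

theorem br_one (x : B) : br x 1 = 1 := by simp [br]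

theorem br_geo (x : B) (n : ℕ) : (x - 1) * br x n = x ^ n - 1 := mul_geom_sum x n

theorem map_br (ψ : B →+* B') (x : B) (n : ℕ) : ψ (br x n) = br (ψ x) n := by simp [br]

theorem br_mul (x : B) (a b : ℕ) : br x (a * b) = br x a * br (x ^ a) b := by
  induction b with
  | zero => simp [br]
  | succ b ih =>
    rw [br_succ, mul_add _ (br _ b), ← ih, mul_add_one, br, sum_range_add, ← pow_mul, br, br, sum_mul]
    simp only [pow_add, mul_comm]

theorem br_unit {p : ℕ} (hp : p.Prime) {x : B} (hx : br x p = 0) {j : ℕ} (h0 : 0 < j) (hj : j < p) :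
    IsUnit (br x j) := by
  obtain ⟨k, -, hk⟩ := Nat.exists_mul_mod_eq_one_of_coprime
    (Nat.coprime_of_lt_prime h0.ne' hj hp).symm hp.one_lt
  have h1 : br x (j * k) = 1 := by
    rw [← Nat.div_add_mod (j * k) p, hk, br_succ, br_mul, hx, zero_mul, zero_add, pow_mul,
      show x ^ p = 1 by linear_combination (x - 1) * hx - br_geo x p, one_pow]
  exact IsUnit.of_mul_eq_one _ (by rw [← br_mul, h1])

/-- The partial products. -/
def Xi (U : ℕ → Bˣ) : ℕ → Bˣ
  | 0 => U 0
  | i + 1 => (U (2 * i + 1) * U (2 * i + 2))⁻¹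

/-- The unit factor of the `c`-th function. -/
def gg (U : ℕ → Bˣ) (c : ℕ) : Bˣ :=
  if c = 0 then -(U 0 * U 1) else if c % 2 = 1 then -(Xi U (c / 2) * U c * U (c + 1) * (U (c + 2))⁻¹)
    else U (c - 1) * (U (c + 1))⁻¹

/-- The `c`-th function. -/
def ff (U : ℕ → Bˣ) (c : ℕ) : B := gg U c * if c = 0 then 1 else 1 - (U c : B)

theorem ff_zero (U : ℕ → Bˣ) : ff U 0 = -(U 0 * U 1) := by simp [ff, gg]

theorem ff_odd (U : ℕ → Bˣ) (i : ℕ) : ff U (2 * i + 1) =
    -(Xi U i * U (2 * i + 1) * U (2 * i + 2) * ((U (2 * i + 3))⁻¹ : Bˣ)) * (1 - U (2 * i + 1)) := by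
  rw [ff, gg, if_neg (by omega), if_pos (by omega), if_neg (by omega),
    show (2 * i + 1) / 2 = i by omega]
  simp

theorem ff_even (U : ℕ → Bˣ) (i : ℕ) : ff U (2 * i + 2) =
    U (2 * i + 1) * ((U (2 * i + 3))⁻¹ : Bˣ) * (1 - U (2 * i + 2)) := by
  rw [ff, gg, if_neg (by omega), if_neg (by omega), if_neg (by omega)]
  simp

theorem cases3 {P : ℕ → Prop} (h0 : P 0) (h1 : ∀ i, P (2 * i + 1)) (h2 : ∀ i, P (2 * i + 2))
    (c : ℕ) : P c := by
  rcases c with _ | c
  · exact h0
  · rcases Nat.even_or_odd' c with ⟨i, rfl | rfl⟩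
    exacts [h1 i, h2 i]

theorem map_ff (ψ : B →+* B') (U : ℕ → Bˣ) (c : ℕ) :
    ψ (ff U c) = ff (fun n => Units.map (ψ : B →* B') (U n)) c := by
  induction c using cases3 with
  | h0 => simp [ff_zero]
  | h1 i => rw [ff_odd, ff_odd]; rcases i with _ | i <;> simp [Xi]
  | h2 i => simp [ff_even]

theorem ff_odd_iff (U : ℕ → Bˣ) (i : ℕ) : ff U (2 * i + 1) = 1 ↔
    (U (2 * i + 3) : B) = -(Xi U i * U (2 * i + 1) * U (2 * i + 2)) * (1 - U (2 * i + 1)) := by
  have hi := (U (2 * i + 3)).inv_mul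
  rw [ff_odd]
  constructor <;> intro h
  · linear_combination (-(U (2 * i + 3) : B)) * h -
      (Xi U i * U (2 * i + 1) * U (2 * i + 2) * (1 - U (2 * i + 1)) : B) * hi
  · linear_combination (-((U (2 * i + 3))⁻¹ : Bˣ) : B) * h + hi

theorem ff_even_iff (U : ℕ → Bˣ) (i : ℕ) : ff U (2 * i + 2) = 1 ↔
    (U (2 * i + 3) : B) = U (2 * i + 1) * (1 - U (2 * i + 2)) := by
  have hi := (U (2 * i + 3)).inv_mul
  rw [ff_even]
  constructor <;> intro h
  · linear_combination (-(U (2 * i + 3) : B)) * h +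
      (U (2 * i + 1) * (1 - U (2 * i + 2)) : B) * hi
  · linear_combination (-((U (2 * i + 3))⁻¹ : Bˣ) : B) * h + hi

theorem solve {U : ℕ → Bˣ} (i : ℕ) (h : ∀ c ≤ 2 * i, ff U c = 1) :
    Xi U i = U 0 ^ (i + 1) ∧ (U (2 * i + 1) : B) * U 0 ^ (i + 1) = -br (U 0 : B) (i + 1) := by
  induction i with
  | zero =>
    have := h 0 le_rfl
    rw [ff_zero] at this
    refine ⟨by simp [Xi], ?_⟩
    rw [br_one]
    linear_combination -this
  | succ i ih =>
    obtain ⟨hX, ha⟩ := ih fun c hc => h c (by omega)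
    have e1 := (ff_odd_iff U i).1 (h _ (by omega))
    have e2 := (ff_even_iff U i).1 (h _ (by omega))
    have hg := br_geo (U 0 : B) (i + 1)
    rw [hX, Units.val_pow_eq_pow_val] at e1
    have h3 : (1 - U (2 * i + 2) : B) =
        -((U 0 : B) ^ (i + 1) * U (2 * i + 2)) * (1 - U (2 * i + 1)) :=
      (U (2 * i + 1)).mul_right_inj.1 (by linear_combination e1 - e2)
    have h4 : (U (2 * i + 1) * U (2 * i + 2) : B) * U 0 ^ (i + 1 + 1) = 1 := by
      linear_combination ((U (2 * i + 2) : B) * U 0 - U (2 * i + 2)) * ha - h3 -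
        (U (2 * i + 2) : B) * hg
    refine ⟨inv_eq_of_mul_eq_one_right (Units.ext (by simpa using h4)), ?_⟩
    rw [br_succ, show 2 * (i + 1) + 1 = 2 * i + 3 from rfl, e1]
    linear_combination (-(U 0 : B) ^ (i + 1) * (1 - U (2 * i + 1))) * h4 + ha

variable {t : ℕ}

/-- All equations but the last one. -/
structure Sol (t : ℕ) (U : ℕ → Bˣ) : Prop where
  one : ∀ n, 2 * t + 3 ≤ n → U n = 1
  eq : ∀ c < 2 * t + 2, ff U c = 1

theorem Sol.solve {U : ℕ → Bˣ} (h : Sol t U) {i : ℕ} (hi : i ≤ t) :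
    Xi U i = U 0 ^ (i + 1) ∧ (U (2 * i + 1) : B) * U 0 ^ (i + 1) = -br (U 0 : B) (i + 1) :=
  A.solve i fun c hc => h.eq c (by omega)

theorem Sol.top {U : ℕ → Bˣ} (h : Sol t U) :
    (U (2 * t + 1) : B) * U (2 * t + 2) * br (U 0 : B) (t + 2) = -1 := by
  have e1 := (ff_odd_iff U t).1 (h.eq _ (by omega))
  obtain ⟨hX, ha⟩ := h.solve le_rfl
  rw [h.one _ le_rfl, hX, Units.val_pow_eq_pow_val, Units.val_one] at e1
  rw [br_succ]
  linear_combination e1 + (U (2 * t + 1) * U (2 * t + 2) : B) * ha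

theorem Sol.unit {U : ℕ → Bˣ} (h : Sol t U) {i : ℕ} (hi : i ≤ t + 1) :
    IsUnit (br (U 0 : B) (i + 1)) := by
  rcases hi.eq_or_lt with rfl | hi
  · exact IsUnit.of_mul_eq_one (-(U (2 * t + 1) * U (2 * t + 2))) (by linear_combination -h.top)
  · rw [← IsUnit.neg_iff, ← (h.solve (Nat.lt_succ_iff.1 hi)).2]
    exact (Units.isUnit _).mul ((Units.isUnit _).pow _)

theorem Sol.last {U : ℕ → Bˣ} (h : Sol t U) :
    Associated (1 - ff U (2 * t + 2)) (br (U 0 : B) (t + 3)) := by
  have e1 := h.top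
  have ha := (h.solve le_rfl).2
  have hg := br_geo (U 0 : B) (t + 1)
  have key : (1 - ff U (2 * t + 2)) * (br (U 0 : B) (t + 2) * U 0 ^ (t + 1)) =
      br (U 0 : B) (t + 3) * br (U 0 : B) (t + 1) := by
    rw [ff_even, h.one _ le_rfl, br_succ _ (t + 2)]
    rw [br_succ] at e1 ⊢
    simp only [inv_one, Units.val_one, mul_one]
    linear_combination ((U 0 : B) ^ (t + 1)) * e1 -
      (br (U 0 : B) (t + 1) + U 0 ^ (t + 1)) * ha - (U 0 : B) ^ (t + 1) * hg
  exact ((associated_mul_unit_right _ _ ((h.unit le_rfl).mul ((Units.isUnit _).pow _))).trans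
    (Associated.of_eq key)).trans (associated_mul_unit_left _ _ (h.unit t.le_succ))

theorem Sol.uniq {U U' : ℕ → Bˣ} (h : Sol t U) (h' : Sol t U') (h0 : U 0 = U' 0) : U = U' := by
  have odd : ∀ i ≤ t, U (2 * i + 1) = U' (2 * i + 1) := fun i hi => Units.ext <|
    (U 0 ^ (i + 1)).mul_left_inj.1 <| by
      rw [Units.val_pow_eq_pow_val, (h.solve hi).2, h0, (h'.solve hi).2]
  funext n
  rcases le_or_gt (2 * t + 3) n with hn | hn
  · rw [h.one n hn, h'.one n hn]
  induction n using cases3 with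
  | h0 => exact h0
  | h1 i => exact odd i (by omega)
  | h2 i =>
    rcases (show i ≤ t by omega).eq_or_lt with rfl | hi
    · have e1 := h.top
      have e2 := h'.top
      rw [← h0, ← odd i le_rfl, ← e1] at e2
      exact Units.ext ((U (2 * i + 1)).mul_right_inj.1 ((h.unit le_rfl).mul_left_inj.1 e2)).symm
    · have e1 := (h.solve hi).1
      rw [h0, ← (h'.solve hi).1, Xi, Xi, inv_inj, odd i hi.le] at e1
      exact mul_left_cancel e1

theorem exists_sol (t : ℕ) (x : Bˣ) (hx : ∀ i ≤ t + 1, IsUnit (br (x : B) (i + 1))) :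
    ∃ U : ℕ → Bˣ, U 0 = x ∧ Sol t U := by
  classical
  let γ : ℕ → Bˣ := fun i => if h : i ≤ t + 1 then (hx i h).unit else 1
  have hγ : ∀ i ≤ t + 1, (γ i : B) = br (x : B) (i + 1) := fun i hi => by simp [γ, hi]
  let U : ℕ → Bˣ := fun n => if n = 0 then x else if 2 * t + 3 ≤ n then 1 else
    if n % 2 = 1 then -γ (n / 2) * (x ^ (n / 2 + 1))⁻¹ else
      if n = 2 * t + 2 then x ^ (t + 1) * (γ t * γ (t + 1))⁻¹ else -(γ (n / 2 - 1) * x)⁻¹
  have ua : ∀ i ≤ t, U (2 * i + 1) = -γ i * (x ^ (i + 1))⁻¹ := fun i hi => by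
    simp only [U]
    rw [if_neg (by omega), if_neg (by omega), if_pos (by omega), show (2 * i + 1) / 2 = i by omega]
  have ub : ∀ i < t, U (2 * i + 2) = -(γ i * x)⁻¹ := fun i hi => by
    simp only [U]
    rw [if_neg (by omega), if_neg (by omega), if_neg (by omega), if_neg (by omega),
      show (2 * i + 2) / 2 - 1 = i by omega]
  have uc : U (2 * t + 2) = x ^ (t + 1) * (γ t * γ (t + 1))⁻¹ := by
    simp only [U]
    rw [if_neg (by omega), if_neg (by omega), if_neg (by omega), if_pos trivial]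
  have u1 : ∀ n, 2 * t + 3 ≤ n → U n = 1 := fun n hn => by
    simp only [U]
    rw [if_neg (by omega), if_pos hn]
  have ha : ∀ i ≤ t, (U (2 * i + 1) : B) * x ^ (i + 1) = -br (x : B) (i + 1) := fun i hi => by
    rw [← hγ i (by omega), ← Units.val_pow_eq_pow_val, ← Units.val_mul, ua i hi,
      inv_mul_cancel_right, Units.val_neg]
  have hb : ∀ i < t, (U (2 * i + 2) : B) * (br (x : B) (i + 1) * x) = -1 := fun i hi => by
    rw [← hγ i (by omega), ← Units.val_mul, ← Units.val_mul, ub i hi, neg_mul, inv_mul_cancel]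
    simp
  have hc : (U (2 * t + 2) : B) * (br (x : B) (t + 1) * br (x : B) (t + 2)) = x ^ (t + 1) := by
    rw [← hγ t (by omega), ← hγ (t + 1) le_rfl, ← Units.val_mul, ← Units.val_mul, uc,
      inv_mul_cancel_right, Units.val_pow_eq_pow_val]
  have hX : ∀ i ≤ t, Xi U i = x ^ (i + 1) := fun i hi => by
    rcases i with _ | i
    · simp [Xi, U]
    · rw [Xi, ua i (by omega), ub i (by omega), pow_succ x (i + 1)]
      simp only [neg_mul, mul_neg, neg_neg, mul_inv_rev, inv_inv]
      rw [mul_comm (γ i) x, mul_assoc, mul_left_comm (γ i), mul_inv_cancel, mul_one, mul_comm]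
  refine ⟨U, by simp [U], u1, fun c hc' => ?_⟩
  induction c using cases3 with
  | h0 =>
    have := ha 0 t.zero_le
    rw [br_one] at this
    rw [ff_zero, show U 0 = x by simp [U]]
    linear_combination -this
  | h1 i =>
    rw [ff_odd_iff, hX i (by omega), Units.val_pow_eq_pow_val]
    have a1 := ha i (by omega)
    rcases (show i ≤ t by omega).eq_or_lt with rfl | hi
    · rw [u1 _ le_rfl, Units.val_one]
      refine (x ^ (i + 1)).mul_left_inj.1 ?_
      rw [br_succ _ (i + 1)] at hc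
      rw [Units.val_pow_eq_pow_val]
      linear_combination -hc + (U (2 * i + 2) : B) *
        ((x : B) ^ (i + 1) - U (2 * i + 1) * x ^ (i + 1) + br (x : B) (i + 1)) * a1
    · have a2 := ha (i + 1) hi
      have b1 := hb i hi
      refine (x ^ (i + 1 + 1)).mul_left_inj.1 ?_
      rw [br_succ] at a2
      rw [Units.val_pow_eq_pow_val, show 2 * i + 3 = 2 * (i + 1) + 1 from rfl, a2]
      linear_combination (-(br (x : B) (i + 1) + x ^ (i + 1))) * b1 + (U (2 * i + 2) : B) * x *
        ((x : B) ^ (i + 1) - U (2 * i + 1) * x ^ (i + 1) + br (x : B) (i + 1)) * a1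
  | h2 i =>
    have hi : i < t := by omega
    have a1 := ha i hi.le
    have a2 := ha (i + 1) hi
    have b1 := hb i hi
    have hg := br_geo (x : B) (i + 1)
    rw [ff_even_iff]
    refine (x ^ (i + 1 + 1)).mul_left_inj.1 ?_
    rw [br_succ] at a2
    rw [Units.val_pow_eq_pow_val, show 2 * i + 3 = 2 * (i + 1) + 1 from rfl, a2]
    linear_combination (-(x : B) * (1 - U (2 * i + 2))) * a1 - b1 + hg

end Pool.Agent.Lib.MP_10be03_gt.A
end

-- part Pool.Agent.Lib.MP_10be03_gt.AReg
section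

/-! Regularity of all equations but the last one, by gradings. -/

set_option autoImplicit false

namespace Pool.Agent.Lib.MP_10be03_gt.A

open Finset TensorProduct

section grad

variable {A N : Type*} [CommRing A] [AddCommGroup N] [Module A N] (P : ℤ → N →+ N)

/-- Homogeneous ring elements for a family of projections. -/
def Hom (k : ℤ) (a : A) : Prop := ∀ d n, P d (a • n) = a • P (d - k) n

variable {P}

theorem Hom.one : Hom P 0 (1 : A) := fun d n => by simp

theorem Hom.mul {k l : ℤ} {a b : A} (h : Hom P k a) (h' : Hom P l b) : Hom P (k + l) (a * b) :=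
  fun d n => by rw [mul_smul, h, h', mul_smul, sub_sub]

theorem Hom.add {k : ℤ} {a b : A} (h : Hom P k a) (h' : Hom P k b) : Hom P k (a + b) :=
  fun d n => by rw [add_smul, map_add, h, h', add_smul]

theorem Hom.neg {k : ℤ} {a : A} (h : Hom P k a) : Hom P k (-a) :=
  fun d n => by rw [neg_smul, map_neg, h, neg_smul]

theorem Hom.sub {k : ℤ} {a b : A} (h : Hom P k a) (h' : Hom P k b) : Hom P k (a - b) :=
  sub_eq_add_neg a b ▸ h.add h'.neg

theorem Hom.inv {k : ℤ} {a : Aˣ} (h : Hom P k (a : A)) : Hom P (-k) ((a⁻¹ : Aˣ) : A) := fun d n => by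
  have := h (d - -k) (((a⁻¹ : Aˣ) : A) • n)
  rw [smul_smul, a.mul_inv, one_smul] at this
  rw [this, smul_smul, a.inv_mul, one_smul, sub_neg_eq_add, add_sub_cancel_right]

theorem Hom.cast {k l : ℤ} {a : A} (h : Hom P k a) (e : k = l) : Hom P l a := e ▸ h

theorem reg_of_hom (hP : ∀ n : N, ∃ s : Finset ℤ, (∀ d ∉ s, P d n = 0) ∧ ∑ d ∈ s, P d n = n)
    {S : Set A} (hS : ∀ a ∈ S, Hom P 0 a) {k : ℤ} {u h : A} (hu : IsUnit u) (h1 : Hom P k u)
    (h2 : Hom P (k + 1) h) {n : N} (hn : (u + h) • n ∈ Ideal.span S • (⊤ : Submodule A N)) :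
    n ∈ Ideal.span S • (⊤ : Submodule A N) := by
  classical
  set J := Ideal.span S • (⊤ : Submodule A N)
  have st : ∀ x ∈ J, ∀ d, P d x ∈ J := fun x hx d => by
    refine Submodule.smul_induction_on hx (fun a ha x _ => ?_) fun x y hx hy => ?_
    · induction ha using Submodule.span_induction generalizing x with
      | mem a ha =>
        rw [hS a ha]
        exact Submodule.smul_mem_smul (Ideal.subset_span ha) trivial
      | zero => simp
      | add a b _ _ ha hb => rw [add_smul, map_add]; exact J.add_mem (ha x trivial) (hb x trivial)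
      | smul c a _ ha => rw [smul_eq_mul, mul_comm, mul_smul]; exact ha _ trivial
    · rw [map_add]; exact J.add_mem hx hy
  obtain ⟨s, h3, h4⟩ := hP n
  rw [← h4]
  refine J.sum_mem fun d hd => ?_
  by_contra hc
  obtain ⟨d, hd, hm⟩ := (s.filter fun d => P d n ∉ J).exists_min_image id ⟨d, mem_filter.2 ⟨hd, hc⟩⟩
  have h5 := st _ hn (d + k)
  have h6 : P (d - 1) n ∈ J := by
    by_contra h7
    have := hm (d - 1) (mem_filter.2 ⟨by_contra fun h8 => h7 (h3 _ h8 ▸ J.zero_mem), h7⟩)
    simp only [id] at this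
    omega
  rw [add_smul, map_add, h1, h2, add_sub_cancel_right, show d + k - (k + 1) = d - 1 by ring,
    J.add_mem_iff_left (J.smul_mem _ h6), J.smul_mem_iff_of_isUnit hu] at h5
  exact (mem_filter.1 hd).2 h5

variable {V : ℕ → Aˣ} {w : ℕ → ℤ}

theorem hom_Xi (hV : ∀ n, Hom P (w n) (V n : A)) {i : ℕ} (hw : ∀ n ≤ 2 * i, w n = 0) :
    Hom P 0 (Xi V i : A) := by
  rcases i with _ | i
  · exact (hV 0).cast (hw 0 le_rfl)
  · exact (Hom.inv (a := V _ * V _) ((hV _).mul (hV _))).cast
      (by rw [hw _ (by omega), hw _ (by omega)]; rfl)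

theorem hom_odd (hV : ∀ n, Hom P (w n) (V n : A)) {i : ℕ} (hw : ∀ n ≤ 2 * i + 1, w n = 0) :
    Hom P (w (2 * i + 2) - w (2 * i + 3)) (ff V (2 * i + 1)) := by
  rw [ff_odd]
  exact (((((hom_Xi hV fun n hn => hw n (by omega)).mul (hV _)).mul (hV _)).mul (hV _).inv).neg.mul
    (Hom.one.sub ((hV _).cast (hw _ le_rfl)))).cast (by rw [hw _ le_rfl]; ring)

theorem hom_low (hV : ∀ n, Hom P (w n) (V n : A)) {i : ℕ} (hw : ∀ n ≤ 2 * i + 1, w n = 0) (c : ℕ)
    (hc : c ≤ 2 * i) : Hom P 0 (ff V c) := by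
  induction c using cases3 with
  | h0 =>
    rw [ff_zero]
    exact ((hV 0).mul (hV 1)).neg.cast (by rw [hw 0 (by omega), hw 1 (by omega)]; rfl)
  | h1 j =>
    exact (hom_odd hV fun n hn => hw n (by omega)).cast
      (by rw [hw _ (by omega), hw _ (by omega)]; rfl)
  | h2 j =>
    rw [ff_even]
    exact (((hV _).mul (hV _).inv).mul (Hom.one.sub ((hV _).cast (hw _ (by omega))))).cast
      (by rw [hw _ (by omega), hw _ (by omega)]; rfl)

end grad

/-- The Laurent polynomial ring. -/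
abbrev Lau (r : ℕ) : Type := AddMonoidAlgebra ℤ (Fin r → ℤ)

variable {r : ℕ}

/-- Monomials. -/
noncomputable def mon (m : Fin r → ℤ) : (Lau r)ˣ :=
  ⟨.single m 1, .single (-m) 1, by simp [AddMonoidAlgebra.single_mul_single, AddMonoidAlgebra.one_def],
    by simp [AddMonoidAlgebra.single_mul_single, AddMonoidAlgebra.one_def]⟩

theorem mon_add (m m' : Fin r → ℤ) : mon (m + m') = mon m * mon m' :=
  Units.ext (by simp [mon, AddMonoidAlgebra.single_mul_single])

theorem mon_zero : mon (0 : Fin r → ℤ) = 1 := Units.ext rfl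

theorem mon_neg (m : Fin r → ℤ) : mon (-m) = (mon m)⁻¹ := Units.ext rfl

/-- The basis vectors, indexed by natural numbers. -/
def eps (r n : ℕ) : Fin r → ℤ := fun c => if (c : ℕ) = n then 1 else 0

/-- The variables. -/
noncomputable def var (r n : ℕ) : (Lau r)ˣ := mon (eps r n)

theorem var_one {n : ℕ} (h : r ≤ n) : var r n = 1 := by
  rw [var, ← mon_zero]
  exact congrArg mon (funext fun c => if_neg (by omega))

variable {Q : Type*} [AddCommGroup Q]

theorem lau_ind {motive : Lau r ⊗[ℤ] Q → Prop} (h0 : motive 0)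
    (h1 : ∀ (m : Fin r → ℤ) (q : Q), motive ((mon m : Lau r) ⊗ₜ q)) (h2 : ∀ x y, motive x → motive y → motive (x + y))
    (x : Lau r ⊗[ℤ] Q) : motive x := by
  induction x with
  | zero => exact h0
  | add x y hx hy => exact h2 x y hx hy
  | tmul a q =>
    induction a using AddMonoidAlgebra.induction_linear with
    | zero => rwa [zero_tmul]
    | add a b ha hb => rw [add_tmul]; exact h2 _ _ ha hb
    | single m c =>
      have := h1 m (c • q)
      rwa [← smul_tmul, mon, AddMonoidAlgebra.smul_single, smul_eq_mul, mul_one] at this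

theorem exists_grad (w : ℕ → ℤ) : ∃ P : ℤ → Lau r ⊗[ℤ] Q →+ Lau r ⊗[ℤ] Q,
    (∀ n, ∃ s : Finset ℤ, (∀ d ∉ s, P d n = 0) ∧ ∑ d ∈ s, P d n = n) ∧
      ∀ n, Hom P (if n < r then w n else 0) (var r n : Lau r) := by
  classical
  let l : (Fin r → ℤ) → ℤ := fun m => ∑ c, m c * w c
  let pr : ℤ → Lau r →ₗ[ℤ] Lau r := fun d => (AddMonoidAlgebra.basis (Fin r → ℤ) ℤ).constr ℤ
    fun m => if l m = d then (mon m : Lau r) else 0
  have hpr : ∀ d m (q : Q), (pr d).rTensor Q ((mon m : Lau r) ⊗ₜ q) =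
      if l m = d then (mon m : Lau r) ⊗ₜ q else 0 := fun d m q => by
    have := (AddMonoidAlgebra.basis (Fin r → ℤ) ℤ).constr_basis ℤ
      (fun m => if l m = d then (mon m : Lau r) else 0) m
    rw [LinearMap.rTensor_tmul, show pr d (mon m : Lau r) = _ from this]
    split_ifs <;> simp
  refine ⟨fun d => ((pr d).rTensor Q).toAddMonoidHom, fun n => ?_, fun n d x => ?_⟩
  · induction n using lau_ind with
    | h0 => exact ⟨∅, by simp, by simp⟩
    | h1 m q =>
      refine ⟨{l m}, fun d hd => (hpr d m q).trans (if_neg fun h => hd (by simp [h])), ?_⟩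
      rw [sum_singleton]
      exact (hpr _ m q).trans (if_pos rfl)
    | h2 x y hx hy =>
      obtain ⟨s, h1, h2⟩ := hx
      obtain ⟨s', h1', h2'⟩ := hy
      refine ⟨s ∪ s', fun d hd => ?_, ?_⟩
      · rw [map_add, h1 d fun h => hd (mem_union_left _ h), h1' d fun h => hd (mem_union_right _ h),
          add_zero]
      · simp only [map_add, sum_add_distrib]
        rw [← sum_subset subset_union_left fun d _ hd => h1 d hd,
          ← sum_subset subset_union_right fun d _ hd => h1' d hd, h2, h2']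
  · have hl : ∀ m, l (eps r n + m) = (if n < r then w n else 0) + l m := fun m => by
      simp only [l, Pi.add_apply, add_mul, sum_add_distrib, eps, ite_mul, one_mul, zero_mul]
      congr 1
      split_ifs with h
      · rw [sum_eq_single ⟨n, h⟩ (fun c _ hc => if_neg fun e => hc (Fin.ext e)) (by simp), if_pos rfl]
      · exact sum_eq_zero fun c _ => if_neg (by omega)
    induction x using lau_ind with
    | h0 => simp
    | h1 m q =>
      simp only [LinearMap.toAddMonoidHom_coe]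
      rw [smul_tmul', smul_eq_mul, var, ← Units.val_mul, ← mon_add, hpr, hpr, hl,
        if_congr eq_sub_iff_add_eq'.symm rfl rfl]
      split_ifs
      all_goals first | rw [smul_zero] | rw [smul_tmul', smul_eq_mul, mon_add, Units.val_mul]
    | h2 x y hx hy => rw [smul_add, map_add, hx, hy, map_add, smul_add]

/-- The ideal of the first `c` equations. -/
noncomputable def idl (r c : ℕ) : Ideal (Lau r) :=
  Ideal.span ((fun d => 1 - ff (var r) d) '' Set.Iio c)

theorem reg_lt {t c : ℕ} (hc : c < 2 * t + 2) {n : Lau (2 * t + 3) ⊗[ℤ] Q}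
    (hn : (1 - ff (var (2 * t + 3)) c) • n ∈
      idl (2 * t + 3) c • (⊤ : Submodule (Lau (2 * t + 3)) (Lau (2 * t + 3) ⊗[ℤ] Q))) :
    n ∈ idl (2 * t + 3) c • (⊤ : Submodule (Lau (2 * t + 3)) (Lau (2 * t + 3) ⊗[ℤ] Q)) := by
  induction c using cases3 with
  | h0 =>
    obtain ⟨P, h1, h2⟩ := exists_grad (r := 2 * t + 3) (Q := Q) fun n => if n = 1 then 1 else 0
    refine reg_of_hom h1 (by simp) isUnit_one Hom.one ?_ (by rwa [sub_eq_add_neg] at hn)
    rw [ff_zero]
    exact ((h2 0).mul (h2 1)).neg.neg.cast (by simp)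
  | h1 i =>
    obtain ⟨P, h1, h2⟩ := exists_grad (r := 2 * t + 3) (Q := Q) fun n =>
      if n = 2 * t + 2 ∧ i = t then 1 else if n = 2 * i + 3 then -1 else 0
    have hw : ∀ n ≤ 2 * i + 1, (if n < 2 * t + 3 then
        (if n = 2 * t + 2 ∧ i = t then 1 else if n = 2 * i + 3 then -1 else 0) else 0 : ℤ) = 0 :=
      fun n hn => by split_ifs <;> omega
    refine reg_of_hom h1 ?_ isUnit_one Hom.one ?_ (by rwa [sub_eq_add_neg] at hn)
    · rintro _ ⟨d, hd, rfl⟩
      exact Hom.one.sub (hom_low h2 hw d (Nat.lt_succ_iff.1 hd))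
    · exact (hom_odd h2 hw).neg.cast (by split_ifs <;> omega)
  | h2 i =>
    obtain ⟨P, h1, h2⟩ := exists_grad (r := 2 * t + 3) (Q := Q) fun n =>
      if n = 2 * i + 2 ∨ n = 2 * i + 3 then 1 else 0
    have hw : ∀ n ≤ 2 * i + 1, (if n < 2 * t + 3 then
        (if n = 2 * i + 2 ∨ n = 2 * i + 3 then 1 else 0) else 0 : ℤ) = 0 :=
      fun n hn => by split_ifs <;> omega
    have h3 := (h2 (2 * i + 1)).mul (h2 (2 * i + 3)).inv
    refine reg_of_hom h1 ?_ (k := -1) ((Units.isUnit _).mul (Units.isUnit _)).neg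
      (h3.neg.cast (by split_ifs <;> omega))
      (Hom.one.add ((h3.mul (h2 (2 * i + 2))).cast (by split_ifs <;> omega))) ?_
    · rintro _ ⟨d, hd, rfl⟩
      refine Hom.one.sub ?_
      rcases (Nat.lt_succ_iff.1 hd).eq_or_lt with rfl | hd
      · exact (hom_odd h2 hw).cast (by split_ifs <;> omega)
      · exact hom_low h2 hw d (Nat.lt_succ_iff.1 hd)
    · rw [ff_even] at hn
      rwa [show ∀ a b : Lau (2 * t + 3), 1 - a * (1 - b) = -a + (1 + a * b) from fun a b => by ring]
        at hn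

end Pool.Agent.Lib.MP_10be03_gt.A
end

-- part Pool.Agent.Lib.MP_10be03_gt.ATor
section

/-! Vanishing of higher torsion for a regular sequence. -/

set_option autoImplicit false

namespace Pool.Agent.Lib.MP_10be03_gt.A

open TensorProduct Function

universe v

variable {R : Type} [CommRing R] (u : ℕ → R)

/-- The ideal of the first `c` elements. -/
def ida (c : ℕ) : Ideal R := Ideal.span (u '' Set.Iio c)

/-- The first `r` elements form a weakly regular sequence on `N`. -/
def Reg (r : ℕ) (N : Type*) [AddCommGroup N] [Module R N] : Prop :=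
  ∀ c < r, ∀ n : N, u c • n ∈ ida u c • (⊤ : Submodule R N) → n ∈ ida u c • (⊤ : Submodule R N)

variable {u} {r : ℕ} {K F N : Type*} [AddCommGroup K] [Module R K] [AddCommGroup F] [Module R F]
  [AddCommGroup N] [Module R N]

theorem ida_succ (c : ℕ) : ida u (c + 1) = Ideal.span {u c} ⊔ ida u c := by
  rw [ida, ida, ← Ideal.span_union, Set.singleton_union, ← Set.image_insert_eq, Set.Iio_insert]
  congr 2
  ext d
  simp

theorem mem_ida_succ {c : ℕ} {n : N} : n ∈ ida u (c + 1) • (⊤ : Submodule R N) ↔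
    ∃ m : N, n - u c • m ∈ ida u c • (⊤ : Submodule R N) := by
  rw [ida_succ, Submodule.sup_smul, Submodule.ideal_span_singleton_smul, Submodule.mem_sup]
  constructor
  · rintro ⟨y, hy, z, hz, rfl⟩
    obtain ⟨m, -, rfl⟩ := (Submodule.mem_smul_pointwise_iff_exists _ _ _).1 hy
    exact ⟨m, by simpa using hz⟩
  · rintro ⟨m, hm⟩
    exact ⟨_, Submodule.smul_mem_pointwise_smul m _ _ trivial, _, hm, add_sub_cancel _ _⟩

theorem map_mem_smul {I : Ideal R} (φ : F →ₗ[R] N) {x : F} (h : x ∈ I • (⊤ : Submodule R F)) :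
    φ x ∈ I • (⊤ : Submodule R N) := Submodule.smul_top_le_comap_smul_top I φ h

theorem syz {i : K →ₗ[R] F} {p : F →ₗ[R] N} (hi : Injective i) (hp : Surjective p) (he : Exact i p)
    (hF : Reg u r F) (hN : Reg u r N) : (∀ c ≤ r, ∀ k, i k ∈ ida u c • (⊤ : Submodule R F) →
      k ∈ ida u c • (⊤ : Submodule R K)) ∧ Reg u r K := by
  have key : ∀ c ≤ r, ∀ k, i k ∈ ida u c • (⊤ : Submodule R F) →
      k ∈ ida u c • (⊤ : Submodule R K) := fun c => by
    induction c with
    | zero =>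
      intro _ k hk
      have h0 : ida u 0 = ⊥ := by simp [ida]
      rw [h0, Submodule.bot_smul, Submodule.mem_bot] at hk ⊢
      exact hi (hk.trans (map_zero i).symm)
    | succ c ih =>
      intro hc k hk
      obtain ⟨f, hf⟩ := mem_ida_succ.1 hk
      have h1 := map_mem_smul p hf
      rw [map_sub, he.apply_apply_eq_zero, zero_sub, neg_mem_iff, map_smul] at h1
      have h2 := hN c hc _ h1
      rw [← LinearMap.range_eq_top.2 hp, LinearMap.range_eq_map, ← Submodule.map_smul''] at h2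
      obtain ⟨g, hg, e⟩ := h2
      obtain ⟨k', hk'⟩ := (he (f - g)).1 (by rw [map_sub, e, sub_self])
      refine mem_ida_succ.2 ⟨k', ih (by omega) _ ?_⟩
      rw [map_sub, map_smul, hk', smul_sub, ← sub_add]
      exact Submodule.add_mem _ hf (Submodule.smul_mem _ _ hg)
  exact ⟨key, fun c hc k hk => key c hc.le k (hF c hc _ (map_smul i _ k ▸ map_mem_smul i hk))⟩

theorem mem_smul_finsupp {ι : Type*} {I : Ideal R} {x : ι →₀ R} :
    x ∈ I • (⊤ : Submodule R (ι →₀ R)) ↔ ∀ a, x a ∈ I := by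
  constructor
  · intro h a
    simpa using map_mem_smul (Finsupp.lapply a) h
  · intro h
    rw [← x.sum_single]
    refine Submodule.sum_mem _ fun a _ => ?_
    rw [← Finsupp.smul_single_one]
    exact Submodule.smul_mem_smul (h a) trivial

theorem tens_comm {B B' : Type*} [AddCommGroup B] [Module R B] [AddCommGroup B'] [Module R B']
    (D : B →ₗ[R] B') (φ : F →ₗ[R] N) (z : B ⊗[R] F) :
    D.rTensor N (φ.lTensor B z) = φ.lTensor B' (D.rTensor F z) := by
  rw [← LinearMap.comp_apply, ← LinearMap.comp_apply, LinearMap.rTensor_comp_lTensor,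
    LinearMap.lTensor_comp_rTensor]

theorem range_rT {B B' : Type*} [AddCommGroup B] [Module R B] [AddCommGroup B'] [Module R B']
    {D : B →ₗ[R] B'} {I : Ideal R} (h : LinearMap.range D = I • ⊤) :
    LinearMap.range (D.rTensor N) = I • ⊤ := by
  refine le_antisymm ?_ (Submodule.smul_le.2 fun a ha z _ => ?_)
  · rintro _ ⟨z, rfl⟩
    induction z with
    | zero => simp
    | tmul b n => exact map_mem_smul ((TensorProduct.mk R B' N).flip n) (h ▸ ⟨b, rfl⟩)
    | add x y hx hy => rw [map_add]; exact Submodule.add_mem _ hx hy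
  · induction z with
    | zero => simp
    | tmul b n =>
      obtain ⟨b', hb⟩ : a • b ∈ LinearMap.range D := h ▸ Submodule.smul_mem_smul ha trivial
      exact ⟨b' ⊗ₜ n, by rw [LinearMap.rTensor_tmul, hb, smul_tmul']⟩
    | add x y hx hy => rw [smul_add]; exact Submodule.add_mem _ (hx trivial) (hy trivial)

theorem tor_vanish {B : ℕ → Type} [∀ n, AddCommGroup (B n)] [∀ n, Module R (B n)]
    [∀ n, Module.Flat R (B n)] (D : ∀ n, B (n + 1) →ₗ[R] B n) (hD : ∀ n, Exact (D (n + 1)) (D n))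
    (e : B 0 ≃ₗ[R] R) (h0 : LinearMap.range (D 0) = ida u r • ⊤)
    (hR : ∀ c < r, ∀ a, u c * a ∈ ida u c → a ∈ ida u c) (n : ℕ) (N : Type v) [AddCommGroup N]
    [Module R N] (hN : Reg u r N) : Exact ((D (n + 1)).rTensor N) ((D n).rTensor N) := by
  have dd : ∀ (n : ℕ) (M : Type v) [AddCommGroup M] [Module R M] (z : B (n + 2) ⊗[R] M),
      (D n).rTensor M ((D (n + 1)).rTensor M z) = 0 := fun n M _ _ z => by
    rw [← LinearMap.comp_apply, ← LinearMap.rTensor_comp, (hD n).linearMap_comp_eq_zero,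
      LinearMap.rTensor_zero, LinearMap.zero_apply]
  induction n using Nat.strong_induction_on generalizing N with
  | _ n ih => ?_
  refine fun x => ⟨fun hx => ?_, fun ⟨y, hy⟩ => hy ▸ dd n N y⟩
  let p : (N →₀ R) →ₗ[R] N := Finsupp.linearCombination R id
  have hp : Surjective p := Finsupp.linearCombination_id_surjective R N
  obtain ⟨K, _, _, i, hi, he⟩ : ∃ (K : Type v) (_ : AddCommGroup K) (_ : Module R K)
      (i : K →ₗ[R] N →₀ R), Injective i ∧ Exact i p := ⟨LinearMap.ker p, inferInstance, inferInstance,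
    _, (LinearMap.ker p).injective_subtype, LinearMap.exact_subtype_ker_map p⟩
  have hF : Reg u r (N →₀ R) := fun c hc z hz =>
    mem_smul_finsupp.2 fun a => hR c hc _ (mem_smul_finsupp.1 hz a)
  obtain ⟨s1, s2⟩ := syz hi hp he hF hN
  obtain ⟨x, rfl⟩ := LinearMap.lTensor_surjective (B (n + 1)) hp x
  rw [tens_comm] at hx
  obtain ⟨k, hk⟩ := (lTensor_exact (B n) he hp _).1 hx
  obtain ⟨k', rfl⟩ : k ∈ LinearMap.range ((D n).rTensor K) := by
    rcases n with _ | n
    · let E := fun (M : Type v) [AddCommGroup M] [Module R M] => e.rTensor M ≪≫ₗ TensorProduct.lid R M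
      have h1 : E (N →₀ R) (i.lTensor (B 0) k) = i (E K k) := by
        clear hk
        induction k with
        | zero => simp
        | tmul b m => simp [E]
        | add x y hx hy => simp only [map_add, hx, hy]
      have h2 : (D 0).rTensor (N →₀ R) x ∈ ida u r • (⊤ : Submodule R _) :=
        (range_rT (N := N →₀ R) h0).le ⟨x, rfl⟩
      have h3 := map_mem_smul (E (N →₀ R)).toLinearMap h2
      rw [← hk, LinearEquiv.coe_coe, h1] at h3
      rw [range_rT h0]
      simpa using map_mem_smul (E K).symm.toLinearMap (s1 r le_rfl _ h3)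
    · refine (ih n n.lt_succ_self _ s2 k).1
        (Module.Flat.lTensor_preserves_injective_linearMap (M := B n) _ hi ?_)
      rw [← tens_comm, hk, dd, map_zero]
  obtain ⟨w, hw⟩ := (Module.Flat.rTensor_exact (N →₀ R) (hD n)
    (x - i.lTensor _ k')).1 (by rw [map_sub, tens_comm, hk, sub_self])
  refine ⟨p.lTensor _ w, ?_⟩
  rw [tens_comm, hw, map_sub, (lTensor_exact (B (n + 1)) he hp).apply_apply_eq_zero, sub_zero]

end Pool.Agent.Lib.MP_10be03_gt.A
end

-- part Pool.Agent.Lib.MP_10be03_gt.ABar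
section

/-! The bar complex of a free commutative monoid. -/

set_option autoImplicit false

namespace Pool.Agent.Lib.MP_10be03_gt.A

open TensorProduct Function Finset

variable {Γ : Type} [AddCommMonoid Γ]

/-- The faces: drop the first entry, or add two neighbours, or drop the last entry. -/
def pull {n : ℕ} (i : Fin (n + 2)) (g : Fin (n + 1) → Γ) : Fin n → Γ :=
  Fin.cases (Fin.tail g) (fun j => Fin.contractNth j (· + ·) g) i

/-- The acting element: the first entry for the first face. -/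
def wt {n : ℕ} (i : Fin (n + 2)) (g : Fin (n + 1) → Γ) : Γ := Fin.cases (g 0) (fun _ => 0) i

theorem pull_cons {n : ℕ} (i : Fin (n + 2)) (γ : Γ) (g : Fin (n + 1) → Γ) :
    pull i.succ (Fin.cons γ g : Fin (n + 2) → Γ) = Fin.cons (γ + wt i g) (pull i g) := by
  funext k
  rw [pull, Fin.cases_succ]
  induction i using Fin.cases with
  | zero =>
    induction k using Fin.cases with
    | zero => rw [Fin.contractNth_apply_of_eq _ _ _ _ rfl]; rfl
    | succ k => rw [Fin.contractNth_apply_of_gt _ _ _ _ (by simp)]; rfl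
  | succ i =>
    induction k using Fin.cases with
    | zero => rw [Fin.contractNth_apply_of_lt _ _ _ _ (by simp)]; simp [wt]
    | succ k =>
      simp only [pull, Fin.cases_succ, Fin.cons_succ, Fin.contractNth, Fin.val_succ,
        add_lt_add_iff_right, add_left_inj, ← Fin.succ_castSucc]

/-- The monoid ring. -/
abbrev Mr (Γ : Type) : Type := AddMonoidAlgebra ℤ Γ

/-- The basis elements of the monoid ring. -/
noncomputable def tau (γ : Γ) : Mr Γ := .single γ 1

theorem tau_add (γ δ : Γ) : tau (γ + δ) = tau γ * tau δ := by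
  simp [tau, AddMonoidAlgebra.single_mul_single]

theorem tau_zero : tau (0 : Γ) = 1 := rfl

/-- The differential of the bar resolution. -/
noncomputable def barD (Γ : Type) [AddCommMonoid Γ] (n : ℕ) :
    ((Fin (n + 1) → Γ) →₀ Mr Γ) →ₗ[Mr Γ] (Fin n → Γ) →₀ Mr Γ :=
  Finsupp.linearCombination _ fun g =>
    ∑ i : Fin (n + 2), (-1 : ℤ) ^ (i : ℕ) • Finsupp.single (pull i g) (tau (wt i g))

theorem barD_single {n : ℕ} (g : Fin (n + 1) → Γ) (a : Mr Γ) : barD Γ n (Finsupp.single g a) =
    ∑ i : Fin (n + 2), (-1 : ℤ) ^ (i : ℕ) • Finsupp.single (pull i g) (a * tau (wt i g)) := by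
  rw [barD, Finsupp.linearCombination_single, smul_sum]
  exact sum_congr rfl fun i _ => by rw [smul_comm, Finsupp.smul_single, smul_eq_mul]

/-- The contraction. -/
noncomputable def barS (Γ : Type) [AddCommMonoid Γ] (n : ℕ) :
    ((Fin n → Γ) →₀ Mr Γ) →ₗ[ℤ] (Fin (n + 1) → Γ) →₀ Mr Γ :=
  Finsupp.lsum ℤ fun g => (AddMonoidAlgebra.basis Γ ℤ).constr ℤ fun γ =>
    Finsupp.single (Fin.cons γ g) 1

theorem barS_single {n : ℕ} (g : Fin n → Γ) (γ : Γ) :
    barS Γ n (Finsupp.single g (tau γ)) = Finsupp.single (Fin.cons γ g) 1 := by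
  rw [barS, Finsupp.lsum_single]
  exact (AddMonoidAlgebra.basis Γ ℤ).constr_basis ℤ _ γ

theorem bar_ext {I M : Type} [AddCommGroup M] {φ ψ : (I →₀ Mr Γ) →ₗ[ℤ] M}
    (h : ∀ g γ, φ (Finsupp.single g (tau γ)) = ψ (Finsupp.single g (tau γ))) : φ = ψ :=
  Finsupp.lhom_ext' fun g => (AddMonoidAlgebra.basis Γ ℤ).ext fun γ => h g γ

theorem barD_barS {n : ℕ} (x : (Fin (n + 1) → Γ) →₀ Mr Γ) :
    barD Γ (n + 1) (barS Γ (n + 1) x) = x - barS Γ n (barD Γ n x) := by
  refine DFunLike.congr_fun (bar_ext (φ := ((barD Γ (n + 1)).restrictScalars ℤ).comp (barS Γ (n + 1)))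
    (ψ := LinearMap.id - (barS Γ n).comp ((barD Γ n).restrictScalars ℤ)) fun g γ => ?_) x
  simp only [LinearMap.comp_apply, LinearMap.restrictScalars_apply, LinearMap.sub_apply,
    LinearMap.id_apply, barS_single, barD_single, map_sum, map_zsmul, ← tau_add]
  rw [Fin.sum_univ_succ, sub_eq_add_neg, ← sum_neg_distrib]
  congr 1
  · simp [pull, wt]
  · exact sum_congr rfl fun i _ => by simp [pull_cons, wt, tau_zero, pow_succ]

theorem barD_zero (g : Fin 1 → Γ) (a : Mr Γ) :
    barD Γ 0 (Finsupp.single g a) = Finsupp.single default (a * (tau (g 0) - 1)) := by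
  rw [barD_single, Fin.sum_univ_two, Subsingleton.elim (pull 0 g) default,
    Subsingleton.elim (pull 1 g) default, mul_sub, Finsupp.single_sub, sub_eq_add_neg]
  simp [show wt 0 g = g 0 from rfl, show wt 1 g = 0 from rfl, tau_zero]

theorem barD_barD (n : ℕ) (x : (Fin (n + 2) → Γ) →₀ Mr Γ) : barD Γ n (barD Γ (n + 1) x) = 0 := by
  induction n using Nat.strong_induction_on with
  | _ n ih => ?_
  refine DFunLike.congr_fun (Finsupp.lhom_ext' (φ := (barD Γ n).comp (barD Γ (n + 1))) (ψ := 0)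
    fun g => LinearMap.ext_ring ?_) x
  change barD Γ n (barD Γ (n + 1) (Finsupp.single g 1)) = 0
  rw [← Fin.cons_self_tail g, ← barS_single, barD_barS, map_sub, sub_eq_zero]
  generalize Fin.tail g = h
  rcases n with _ | n
  · have k : ∀ γ : Γ, barD Γ 0 (barS Γ 0 (Finsupp.single default (tau γ))) =
        Finsupp.single default (tau γ - 1) := fun γ => by rw [barS_single, barD_zero, one_mul]; rfl
    rw [barD_zero, mul_sub, mul_one, ← tau_add, Finsupp.single_sub, map_sub, map_sub, k, k,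
      ← Finsupp.single_sub, ← Finsupp.single_sub, sub_sub_sub_cancel_right]
  · rw [barD_barS, ih n n.lt_succ_self, map_zero, sub_zero]

theorem bar_exact (n : ℕ) : Exact (barD Γ (n + 1)) (barD Γ n) := fun x =>
  ⟨fun hx => ⟨barS Γ (n + 1) x, by rw [barD_barS, hx, map_zero, sub_zero]⟩,
    fun ⟨y, hy⟩ => hy ▸ barD_barD n y⟩

theorem bar_range {I : Ideal (Mr Γ)} (hI : I = Ideal.span (Set.range fun γ => tau γ - 1)) :
    LinearMap.range (barD Γ 0) = I • ⊤ := by
  refine le_antisymm ?_ ?_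
  · rintro _ ⟨x, rfl⟩
    induction x using Finsupp.induction_linear with
    | zero => simp
    | add x y hx hy => rw [map_add]; exact Submodule.add_mem _ hx hy
    | single g a =>
      rw [barD_zero, ← Finsupp.smul_single_one]
      exact Submodule.smul_mem_smul (I.mul_mem_left a (hI.ge (Ideal.subset_span ⟨_, rfl⟩))) trivial
  · rw [hI, Ideal.span, Submodule.span_smul_eq, Submodule.set_smul_le_iff]
    rintro _ x ⟨γ, rfl⟩ -
    refine ⟨Finsupp.single (fun _ => γ) (x default), ?_⟩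
    rw [barD_zero, mul_comm, ← smul_eq_mul, ← Finsupp.smul_single, ← Finsupp.unique_single]

variable {r : ℕ}

/-- The generators of the free commutative monoid, indexed by natural numbers. -/
def epn (r n : ℕ) : Fin r → ℕ := fun c => if (c : ℕ) = n then 1 else 0

theorem ida_epn : ida (fun c => 1 - tau (epn r c)) r =
    Ideal.span (Set.range fun γ : Fin r → ℕ => tau γ - 1) := by
  refine le_antisymm (Ideal.span_le.2 ?_) (Ideal.span_le.2 ?_)
  · rintro _ ⟨c, -, rfl⟩
    rw [SetLike.mem_coe, ← neg_mem_iff, neg_sub]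
    exact Ideal.subset_span ⟨_, rfl⟩
  · rintro _ ⟨γ, rfl⟩
    change tau γ - 1 ∈ ida _ r
    induction γ using Pi.single_induction with
    | zero => simp [tau_zero]
    | add γ δ h1 h2 =>
      have := Ideal.add_mem _ (Ideal.mul_mem_right (tau δ) _ h1) h2
      rwa [show (tau γ - 1) * tau δ + (tau δ - 1) = tau (γ + δ) - 1 by rw [tau_add]; ring] at this
    | single c k =>
      have e : Pi.single c k = k • epn r c := funext fun d => by
        simp [epn, Pi.single_apply, Fin.ext_iff]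
      have t : ∀ k : ℕ, tau (k • epn r c) = tau (epn r c) ^ k := fun k => by
        induction k with
        | zero => simp [tau_zero]
        | succ k ih => rw [succ_nsmul, tau_add, ih, pow_succ]
      rw [e, t]
      refine Ideal.mem_of_dvd _ (by simpa using sub_dvd_pow_sub_pow (tau (epn r c)) 1 k) ?_
      rw [← neg_mem_iff, neg_sub]
      exact Ideal.subset_span ⟨c, c.2, rfl⟩

theorem reg_epn (c : ℕ) (hc : c < r) (a : Mr (Fin r → ℕ))
    (h : (1 - tau (epn r c)) * a ∈ ida (fun c => 1 - tau (epn r c)) c) :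
    a ∈ ida (fun c => 1 - tau (epn r c)) c := by
  classical
  let b := AddMonoidAlgebra.basis (Fin r → ℕ) ℤ
  let P : ℤ → Mr (Fin r → ℕ) →ₗ[ℤ] Mr (Fin r → ℕ) := fun d =>
    b.constr ℤ fun m => if (m ⟨c, hc⟩ : ℤ) = d then tau m else 0
  have hP : ∀ d m, P d (tau m) = if (m ⟨c, hc⟩ : ℤ) = d then tau m else 0 := fun d m =>
    b.constr_basis ℤ _ m
  have h1 : ∀ γ : Fin r → ℕ, Hom (fun d => (P d).toAddMonoidHom) (γ ⟨c, hc⟩) (tau γ) :=
    fun γ d x => by
      refine DFunLike.congr_fun (b.ext (f₁ := (P d).comp (LinearMap.mulLeft ℤ (tau γ)))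
        (f₂ := (LinearMap.mulLeft ℤ (tau γ)).comp (P (d - γ ⟨c, hc⟩))) fun m => ?_) x
      change P d (tau γ * tau m) = tau γ * P _ (tau m)
      rw [← tau_add, hP, hP, Pi.add_apply, Nat.cast_add, if_congr eq_sub_iff_add_eq'.symm rfl rfl,
        mul_ite, mul_zero, tau_add]
  have h2 := reg_of_hom (P := fun d => (P d).toAddMonoidHom) (fun x => ?_)
    (S := (fun c => 1 - tau (epn r c)) '' Set.Iio c) ?_ isUnit_one Hom.one
    ((h1 (epn r c)).neg.cast (by simp [epn])) (n := a)
    (by simpa only [smul_eq_mul, Ideal.mul_top, sub_eq_add_neg, ida] using h)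
  · simpa only [smul_eq_mul, Ideal.mul_top, ida] using h2
  · refine ⟨(b.repr x).support.image fun m => (m ⟨c, hc⟩ : ℤ), fun d hd => ?_, ?_⟩
    · change P d x = 0
      rw [Module.Basis.constr_apply]
      exact sum_eq_zero fun m hm => by
        simp only [if_neg fun e => hd (mem_image.2 ⟨m, hm, e⟩), smul_zero]
    · change ∑ d ∈ _, P d x = x
      simp only [P, Module.Basis.constr_apply, Finsupp.sum]
      rw [sum_comm]
      refine Eq.trans (sum_congr rfl fun m hm => ?_) (b.linearCombination_repr x)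
      rw [← smul_sum, sum_ite_eq, if_pos (mem_image_of_mem (fun m => (m ⟨c, hc⟩ : ℤ)) hm)]
      rfl
  · rintro _ ⟨d, hd, rfl⟩
    exact Hom.one.sub ((h1 _).cast (by simp [epn, (Set.mem_Iio.1 hd).ne']))

/-- Exactness of the bar complex with coefficients in a module on which the elements `1 - t`
form a regular sequence. -/
theorem bar_tensor_exact (N : Type*) [AddCommGroup N] [Module (Mr (Fin r → ℕ)) N]
    (hN : Reg (fun c => 1 - tau (epn r c)) r N) (n : ℕ) :
    Exact ((barD (Fin r → ℕ) (n + 1)).rTensor N) ((barD (Fin r → ℕ) n).rTensor N) :=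
  tor_vanish (R := Mr (Fin r → ℕ)) (u := fun c => 1 - tau (epn r c)) (r := r)
    (B := fun n => (Fin n → Fin r → ℕ) →₀ Mr (Fin r → ℕ)) (barD (Fin r → ℕ)) bar_exact
    (Finsupp.uniqueLinearEquiv _ _ default) (bar_range ida_epn) reg_epn n N hN

end Pool.Agent.Lib.MP_10be03_gt.A
end

-- part Pool.Agent.Lib.MP_10be03_gt.ARing
section

/-! The last equation and the quotient ring. -/

set_option autoImplicit false

namespace Pool.Agent.Lib.MP_10be03_gt.A

open Finset TensorProduct Polynomial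

variable {B B' : Type*} [CommRing B] [CommRing B'] {Q : Type*} [AddCommGroup Q] {r t : ℕ}

/-- A ring map, tensored with an abelian group. -/
noncomputable def tq (Q : Type*) [AddCommGroup Q] (φ : B →+* B') : B ⊗[ℤ] Q →ₗ[ℤ] B' ⊗[ℤ] Q :=
  φ.toAddMonoidHom.toIntLinearMap.rTensor Q

theorem tq_tmul (φ : B →+* B') (a : B) (q : Q) : tq Q φ (a ⊗ₜ q) = φ a ⊗ₜ q := rfl

theorem tq_smul (φ : B →+* B') (a : B) (n : B ⊗[ℤ] Q) : tq Q φ (a • n) = φ a • tq Q φ n := by
  induction n with
  | zero => simp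
  | tmul b q => rw [smul_tmul', tq_tmul, tq_tmul, smul_tmul', smul_eq_mul, smul_eq_mul, map_mul]
  | add x y hx hy => rw [smul_add, map_add, hx, hy, map_add, smul_add]

theorem tq_surj {φ : B →+* B'} (h : Function.Surjective φ) : Function.Surjective (tq Q φ) :=
  LinearMap.rTensor_surjective Q h

theorem tq_ker {φ : B →+* B'} (h : Function.Surjective φ) (n : B ⊗[ℤ] Q) :
    tq Q φ n = 0 ↔ n ∈ RingHom.ker φ • (⊤ : Submodule B (B ⊗[ℤ] Q)) := by
  constructor
  · intro hn
    obtain ⟨y, rfl⟩ := (rTensor_exact Q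
      (LinearMap.exact_subtype_ker_map φ.toAddMonoidHom.toIntLinearMap) h n).1 hn
    clear hn
    induction y with
    | zero => rw [map_zero]; exact Submodule.zero_mem _
    | tmul a q =>
      have : (a.1 ⊗ₜ[ℤ] q : B ⊗[ℤ] Q) = a.1 • ((1 : B) ⊗ₜ[ℤ] q) := by simp [smul_tmul']
      rw [LinearMap.rTensor_tmul, Submodule.subtype_apply, this]
      exact Submodule.smul_mem_smul a.2 trivial
    | add x y hx hy => rw [map_add]; exact Submodule.add_mem _ hx hy
  · intro hn
    refine Submodule.smul_induction_on hn (fun a ha x _ => ?_) fun x y hx hy => ?_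
    · rw [tq_smul, RingHom.mem_ker.1 ha, zero_smul]
    · rw [map_add, hx, hy, add_zero]

/-- The images of the variables. -/
noncomputable def img (ψ : Lau r →+* B) (n : ℕ) : Bˣ := Units.map (ψ : Lau r →* B) (var r n)

theorem img_ff (ψ : Lau r →+* B) (c : ℕ) : ψ (ff (var r) c) = ff (img ψ) c := map_ff ψ _ c

theorem eps_eq (c : Fin r) : eps r c = Pi.single c 1 :=
  funext fun d => by simp [eps, Pi.single_apply, Fin.ext_iff]

theorem lau_ext {ψ ψ' : Lau r →+* B} (h : img ψ = img ψ') : ψ = ψ' := by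
  let F : (Lau r →+* B) → (Fin r → ℤ) →+ Additive Bˣ := fun ψ =>
    { toFun := fun m => .ofMul (Units.map (ψ : Lau r →* B) (mon m))
      map_zero' := by rw [mon_zero, map_one]; rfl
      map_add' := fun m m' => by rw [mon_add, map_mul]; rfl }
  have hF : F ψ = F ψ' := AddMonoidHom.functions_ext' _ _ _ fun c => AddMonoidHom.ext_int <| by
    have := congrFun h c
    rw [img, img, var, eps_eq] at this
    exact congrArg Additive.ofMul this
  refine AddMonoidAlgebra.ringHom_ext (fun k => ?_) fun m => ?_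
  · exact RingHom.congr_fun (Subsingleton.elim (ψ.comp AddMonoidAlgebra.singleZeroRingHom)
      (ψ'.comp AddMonoidAlgebra.singleZeroRingHom)) k
  · exact congrArg (fun u : Additive Bˣ => (u.toMul : B)) (DFunLike.congr_fun hF m)

theorem exists_hom {U : ℕ → Bˣ} (h : ∀ n, r ≤ n → U n = 1) : ∃ ψ : Lau r →+* B, img ψ = U := by
  let F : Multiplicative (Fin r → ℤ) →* Bˣ :=
    { toFun := fun m => ∏ c : Fin r, U c ^ m.toAdd c
      map_one' := by simp
      map_mul' := fun m m' => by simp [zpow_add, prod_mul_distrib] }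
  refine ⟨(AddMonoidAlgebra.lift ℤ B (Fin r → ℤ) ((Units.coeHom B).comp F)).toRingHom,
    funext fun n => ?_⟩
  rcases le_or_gt r n with hn | hn
  · rw [img, var_one hn, map_one, h n hn]
  · refine Units.ext ?_
    have : F (.ofAdd (eps r n)) = U n := by
      change ∏ c : Fin r, U c ^ eps r n c = U n
      rw [prod_eq_single (⟨n, hn⟩ : Fin r) (fun c _ hc => ?_) (by simp)]
      · simp [eps]
      · simp [eps, show (c : ℕ) ≠ n from fun e => hc (Fin.ext e)]
    simp [img, var, mon, this]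

theorem idl_le_ker (ψ : Lau r →+* B) (c : ℕ) :
    idl r c ≤ RingHom.ker ψ ↔ ∀ d < c, ff (img ψ) d = 1 := by
  rw [idl, Ideal.span_le, Set.image_subset_iff]
  refine forall₂_congr fun d _ => ?_
  rw [Set.mem_preimage, SetLike.mem_coe, RingHom.mem_ker, map_sub, map_one, img_ff, sub_eq_zero,
    eq_comm]

theorem sol_img {ψ : Lau (2 * t + 3) →+* B} (h : idl (2 * t + 3) (2 * t + 2) ≤ RingHom.ker ψ) :
    Sol t (img ψ) :=
  ⟨fun n hn => by rw [img, var_one hn, map_one], (idl_le_ker ψ _).1 h⟩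

theorem hom_uniq {ψ ψ' : Lau (2 * t + 3) →+* B} (h : idl (2 * t + 3) (2 * t + 2) ≤ RingHom.ker ψ)
    (h' : idl (2 * t + 3) (2 * t + 2) ≤ RingHom.ker ψ')
    (h0 : ψ (var (2 * t + 3) 0 : (Lau _)ˣ) = ψ' (var (2 * t + 3) 0 : (Lau _)ˣ)) : ψ = ψ' :=
  lau_ext ((sol_img h).uniq (sol_img h') (Units.ext h0))

theorem idl_mono {c d : ℕ} (h : c ≤ d) : idl r c ≤ idl r d :=
  Ideal.span_mono (Set.image_mono (Set.Iio_subset_Iio h))

theorem idl_succ (c : ℕ) : idl r (c + 1) = Ideal.span {1 - ff (var r) c} ⊔ idl r c := by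
  rw [idl, idl, ← Ideal.span_union, Set.singleton_union, ← Set.image_insert_eq
    (f := fun d => 1 - ff (var r) d), Set.Iio_insert]
  congr 2
  ext d
  simp

/-- The element that is inverted. -/
noncomputable def gx (x : B) (t : ℕ) : B := x * ∏ i ∈ range (t + 2), br x (i + 1)

theorem gx_unit {x : B} : IsUnit (gx x t) ↔ IsUnit x ∧ ∀ i ≤ t + 1, IsUnit (br x (i + 1)) := by
  simp only [gx, IsUnit.mul_iff, IsUnit.prod_iff, mem_range, Nat.lt_succ_iff]

theorem map_gx (ψ : B →+* B') (x : B) : ψ (gx x t) = gx (ψ x) t := by simp [gx, map_br]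

theorem br_monic (n : ℕ) : (br (X : ℤ[X]) (n + 1)).Monic := monic_geom_sum_X n.succ_ne_zero

theorem br_deg (n : ℕ) : (br (X : ℤ[X]) (n + 1)).natDegree = n := by
  have := congrArg natDegree (br_geo (X : ℤ[X]) (n + 1))
  rw [← C_1, (monic_X_sub_C 1).natDegree_mul (br_monic n), natDegree_X_sub_C,
    natDegree_X_pow_sub_C] at this
  omega

/-- The quotient ring. -/
abbrev Cyc (t : ℕ) : Type := AdjoinRoot (br (X : ℤ[X]) (t + 3))

theorem cyc_root : br (AdjoinRoot.root _ : Cyc t) (t + 3) = 0 := by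
  rw [← AdjoinRoot.mk_X, ← map_br, AdjoinRoot.mk_self]

theorem structure_thm (hp : (t + 3).Prime) : ∃ (φ : Lau (2 * t + 3) →+* Localization.Away (gx (X : ℤ[X]) t))
    (θ : Localization.Away (gx (X : ℤ[X]) t) →+* Cyc t), Function.Surjective φ ∧
      RingHom.ker φ = idl (2 * t + 3) (2 * t + 2) ∧ Function.Surjective θ ∧
      RingHom.ker (θ.comp φ) = idl (2 * t + 3) (2 * t + 3) ∧
      φ (var (2 * t + 3) 0 : (Lau _)ˣ) = algebraMap ℤ[X] _ X ∧
      θ (algebraMap ℤ[X] _ X) = AdjoinRoot.root _ := by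
  set L := Localization.Away (gx (X : ℤ[X]) t)
  have hg : IsUnit (gx (algebraMap ℤ[X] L X) t) :=
    map_gx (algebraMap ℤ[X] L) X ▸ IsLocalization.Away.algebraMap_isUnit _
  obtain ⟨U, U0, hU⟩ := exists_sol t (gx_unit.1 hg).1.unit (gx_unit.1 hg).2
  obtain ⟨φ, rfl⟩ := exists_hom hU.one
  have φ0 : φ (var (2 * t + 3) 0 : (Lau _)ˣ) = algebraMap ℤ[X] L X := congrArg Units.val U0
  have k1 : idl (2 * t + 3) (2 * t + 2) ≤ RingHom.ker φ := (idl_le_ker φ _).2 hU.eq
  have hθ : IsUnit (AdjoinRoot.mk (br (X : ℤ[X]) (t + 3)) (gx X t)) := by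
    rw [map_gx, AdjoinRoot.mk_X]
    refine gx_unit.2 ⟨IsUnit.of_mul_eq_one (AdjoinRoot.root _ ^ (t + 2)) ?_, fun i hi =>
      br_unit hp cyc_root i.succ_pos (by omega)⟩
    linear_combination (AdjoinRoot.root _ - 1 : Cyc t) * cyc_root -
      br_geo (AdjoinRoot.root _ : Cyc t) (t + 3)
  let θ : L →+* Cyc t := IsLocalization.Away.lift _ hθ
  have θ0 : ∀ f, θ (algebraMap ℤ[X] L f) = AdjoinRoot.mk _ f := IsLocalization.Away.lift_eq _ hθ
  have inv : ∀ I, idl (2 * t + 3) (2 * t + 2) ≤ I → ∃ χ : L →+* Lau (2 * t + 3) ⧸ I,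
      χ.comp φ = Ideal.Quotient.mk I := fun I hI => by
    have h1 : idl (2 * t + 3) (2 * t + 2) ≤ RingHom.ker (Ideal.Quotient.mk I) := by
      rwa [Ideal.mk_ker]
    have h2 : IsUnit (eval₂RingHom (Int.castRingHom _)
        (img (Ideal.Quotient.mk I) 0 : Lau (2 * t + 3) ⧸ I) (gx X t)) := by
      rw [map_gx, coe_eval₂RingHom, eval₂_X]
      exact gx_unit.2 ⟨Units.isUnit _, fun i hi => (sol_img h1).unit hi⟩
    refine ⟨IsLocalization.Away.lift _ h2, hom_uniq (fun a ha => ?_) h1 ?_⟩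
    · rw [RingHom.mem_ker, RingHom.comp_apply, RingHom.mem_ker.1 (k1 ha), map_zero]
    · rw [RingHom.comp_apply, φ0, IsLocalization.Away.lift_eq, coe_eval₂RingHom, eval₂_X]
      rfl
  have kk : RingHom.ker φ = idl (2 * t + 3) (2 * t + 2) := by
    obtain ⟨χ, hχ⟩ := inv _ le_rfl
    refine le_antisymm (fun a ha => ?_) k1
    rw [← Ideal.Quotient.eq_zero_iff_mem, ← hχ, RingHom.comp_apply, RingHom.mem_ker.1 ha, map_zero]
  have last : Associated (φ (1 - ff (var (2 * t + 3)) (2 * t + 2)))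
      (br (algebraMap ℤ[X] L X) (t + 3)) := by
    have := hU.last
    rwa [U0, IsUnit.unit_spec, ← img_ff, ← map_one φ, ← map_sub] at this
  refine ⟨φ, θ, fun y => ?_, kk, fun y => ?_, le_antisymm (fun a ha => ?_) ?_, φ0, θ0 X⟩
  · obtain ⟨χ, hχ⟩ := inv _ le_rfl
    have : (Ideal.Quotient.lift _ φ fun a ha => k1 ha).comp χ = RingHom.id L :=
      IsLocalization.ringHom_ext (Submonoid.powers (gx (X : ℤ[X]) t)) <| Polynomial.ringHom_ext'
        (Subsingleton.elim _ _) <| by
          rw [RingHom.comp_apply, RingHom.comp_apply, RingHom.comp_apply, ← φ0,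
            ← RingHom.comp_apply χ, hχ]
          rfl
    obtain ⟨a, ha⟩ := Ideal.Quotient.mk_surjective (χ y)
    exact ⟨a, by rw [← RingHom.id_apply y, ← this, RingHom.comp_apply, ← ha]; rfl⟩
  · obtain ⟨f, rfl⟩ := AdjoinRoot.mk_surjective y
    exact ⟨_, θ0 f⟩
  · obtain ⟨χ, hχ⟩ := inv _ (idl_mono (r := 2 * t + 3) (2 * t + 2).le_succ)
    have h1 : χ (br (algebraMap ℤ[X] L X) (t + 3)) = 0 := by
      rw [← (last.map χ).eq_zero_iff, ← RingHom.comp_apply, hχ, Ideal.Quotient.eq_zero_iff_mem]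
      exact Ideal.subset_span ⟨_, Nat.lt_succ_self _, rfl⟩
    let χ' : Cyc t →+* Lau (2 * t + 3) ⧸ idl (2 * t + 3) (2 * t + 2 + 1) :=
      Ideal.Quotient.lift _ (χ.comp (algebraMap ℤ[X] L)) fun f hf => by
        obtain ⟨g, rfl⟩ := Ideal.mem_span_singleton.1 hf
        rw [map_mul, RingHom.comp_apply, map_br, h1, zero_mul]
    have h2 : χ'.comp θ = χ := IsLocalization.ringHom_ext (Submonoid.powers (gx (X : ℤ[X]) t)) <|
      RingHom.ext fun f => by rw [RingHom.comp_apply, RingHom.comp_apply, θ0]; rfl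
    rw [← Ideal.Quotient.eq_zero_iff_mem, ← hχ, ← h2, RingHom.comp_assoc, RingHom.comp_apply,
      RingHom.mem_ker.1 ha, map_zero]
  · rw [idl_succ, sup_le_iff, Ideal.span_singleton_le_iff_mem, RingHom.mem_ker, RingHom.comp_apply,
      (last.map θ).eq_zero_iff, map_br, θ0, AdjoinRoot.mk_X]
    exact ⟨cyc_root, fun a ha => by
      rw [RingHom.mem_ker, RingHom.comp_apply, RingHom.mem_ker.1 (k1 ha), map_zero]⟩

/-- The sequence is regular on the tensor product with any abelian group. -/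
theorem reg (hp : (t + 3).Prime) {c : ℕ} (hc : c < 2 * t + 3) {n : Lau (2 * t + 3) ⊗[ℤ] Q}
    (hn : (1 - ff (var (2 * t + 3)) c) • n ∈
      idl (2 * t + 3) c • (⊤ : Submodule (Lau (2 * t + 3)) (Lau (2 * t + 3) ⊗[ℤ] Q))) :
    n ∈ idl (2 * t + 3) c • (⊤ : Submodule (Lau (2 * t + 3)) (Lau (2 * t + 3) ⊗[ℤ] Q)) := by
  rcases (Nat.lt_succ_iff.1 hc).eq_or_lt with rfl | hc
  swap
  · exact reg_lt hc hn
  obtain ⟨φ, θ, h1, h2, h3, h4, h5, h6⟩ := structure_thm hp
  set L := Localization.Away (gx (X : ℤ[X]) t)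
  set e := φ (1 - ff (var (2 * t + 3)) (2 * t + 2)) with he
  rw [← h2, ← tq_ker h1] at hn ⊢
  rw [tq_smul] at hn
  have g0 : gx (X : ℤ[X]) t ≠ 0 :=
    mul_ne_zero X_ne_zero (prod_ne_zero_iff.2 fun i _ => (br_monic i).ne_zero)
  have := Localization.Away.isDomain g0
  have e0 : e ≠ 0 := by
    have := (sol_img h2.ge).last
    rw [← img_ff, ← map_one φ, ← map_sub, show (img φ 0 : L) = _ from h5, ← map_br] at this
    rw [Ne, this.eq_zero_iff]
    exact fun h => (br_monic _).ne_zero (IsLocalization.injective L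
      (powers_le_nonZeroDivisors_of_noZeroDivisors g0) (h.trans (map_zero _).symm))
  have := (br_monic (t + 2)).free_adjoinRoot
  have inj := LinearMap.lTensor_injective_of_exact_of_flat θ.toAddMonoidHom.toIntLinearMap h3
    (LinearMap.mulLeft ℤ e) (mul_right_injective₀ e0) (fun y => ⟨fun hy => ?_, ?_⟩) Q
  · rw [LinearMap.lTensor_inj_iff_rTensor_inj] at inj
    refine inj (Eq.trans ?_ (hn.trans (map_zero _).symm))
    generalize tq Q φ n = z
    induction z with
    | zero => simp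
    | tmul a q => rfl
    | add x y hx hy => rw [map_add, hx, hy, smul_add]
  · obtain ⟨a, rfl⟩ := h1 y
    have : a ∈ RingHom.ker (θ.comp φ) := hy
    rw [h4, idl_succ, Ideal.mem_span_singleton_sup] at this
    obtain ⟨b, a', ha', rfl⟩ := this
    exact ⟨φ b, by
      rw [map_add, RingHom.mem_ker.1 (h2.ge ha'), add_zero, map_mul, mul_comm (φ b)]; rfl⟩
  · rintro ⟨y, rfl⟩
    have : 1 - ff (var (2 * t + 3)) (2 * t + 2) ∈ RingHom.ker (θ.comp φ) :=
      h4.ge (Ideal.subset_span ⟨_, Nat.lt_succ_self _, rfl⟩)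
    change θ (e * y) = 0
    rw [map_mul, show θ e = 0 from this, zero_mul]

/-- The cyclotomic relation. -/
theorem phi_mem (hp : (t + 3).Prime) :
    br (var (2 * t + 3) 0 : Lau (2 * t + 3)) (t + 3) ∈ idl (2 * t + 3) (2 * t + 3) := by
  obtain ⟨φ, θ, -, -, -, h4, h5, h6⟩ := structure_thm hp
  rw [← h4, RingHom.mem_ker, map_br, RingHom.comp_apply, h5, h6, cyc_root]

/-- The powers of the first variable form a basis of the quotient. -/
theorem quot_bij (hp : (t + 3).Prime) : Function.Bijective fun a : Fin (t + 2) → Q =>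
    (idl (2 * t + 3) (2 * t + 3) • (⊤ : Submodule (Lau (2 * t + 3)) (Lau (2 * t + 3) ⊗[ℤ] Q))).mkQ
      (∑ i : Fin (t + 2), ((var (2 * t + 3) 0 : Lau (2 * t + 3)) ^ (i : ℕ)) ⊗ₜ[ℤ] a i) := by
  obtain ⟨φ, θ, h1, -, h3, h4, h5, h6⟩ := structure_thm hp
  have hs : Function.Surjective (θ.comp φ) := h3.comp h1
  let b := (AdjoinRoot.powerBasis' (br_monic (t + 2))).basis.reindex (finCongr (br_deg (t + 2)))
  have hb : ∀ i, b i = AdjoinRoot.root _ ^ (i : ℕ) := fun i => by
    simp only [b, Module.Basis.coe_reindex, PowerBasis.coe_basis, Function.comp]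
    rfl
  let E := (Finsupp.linearEquivFunOnFinite ℤ Q (Fin (t + 2))).symm ≪≫ₗ
    (TensorProduct.equivFinsuppOfBasisLeft (N := Q) b).symm
  have hE : ∀ a : Fin (t + 2) → Q, tq Q (θ.comp φ)
      (∑ i : Fin (t + 2), ((var (2 * t + 3) 0 : Lau (2 * t + 3)) ^ (i : ℕ)) ⊗ₜ[ℤ] a i) = E a := fun a => by
    simp only [E, LinearEquiv.trans_apply, TensorProduct.equivFinsuppOfBasisLeft_symm_apply, map_sum,
      tq_tmul, map_pow, RingHom.comp_apply, h5, h6]
    rw [Finsupp.sum_fintype _ _ (by simp)]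
    simp [hb]
  rw [← h4]
  refine ⟨fun a a' h => E.injective ?_, fun y => ?_⟩
  · rw [← hE, ← hE, ← sub_eq_zero, ← map_sub, tq_ker hs]
    exact (Submodule.Quotient.eq _).1 h
  · obtain ⟨y, rfl⟩ := Submodule.mkQ_surjective _ y
    refine ⟨E.symm (tq Q (θ.comp φ) y), (Submodule.Quotient.eq _).2 ?_⟩
    rw [← tq_ker hs, map_sub, hE, E.apply_symm_apply, sub_self]

end Pool.Agent.Lib.MP_10be03_gt.A
end

-- part Pool.Agent.Lib.MP_10be03_gt.AFin
section

/-! The bar complex with coefficients in a module over a ring with chosen elements. -/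

set_option autoImplicit false

namespace Pool.Agent.Lib.MP_10be03_gt.A

open TensorProduct Function Finset

theorem mem_ida_comp {R A N : Type} [CommRing R] [CommRing A] [AddCommGroup N] [Module R N]
    [Module A N] {u : ℕ → R} {v : ℕ → A} {c : ℕ} (h : ∀ d < c, ∀ n : N, u d • n = v d • n) (n : N) :
    n ∈ ida u c • (⊤ : Submodule R N) ↔ n ∈ ida v c • (⊤ : Submodule A N) := by
  induction c generalizing n with
  | zero => simp [ida]
  | succ c ih =>
    simp only [mem_ida_succ, h c c.lt_succ_self, ih fun d hd => h d (hd.trans c.lt_succ_self)]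

variable {A N : Type} [CommRing A] [AddCommGroup N] [Module A N] {r : ℕ}

/-- The product of the chosen elements with multiplicities. -/
def act (f : ℕ → A) (γ : Fin r → ℕ) : A := ∏ c : Fin r, f c ^ γ c

theorem act_zero (f : ℕ → A) : act f (0 : Fin r → ℕ) = 1 := by simp [act]

theorem act_add (f : ℕ → A) (γ δ : Fin r → ℕ) : act f (γ + δ) = act f γ * act f δ := by
  simp [act, pow_add, prod_mul_distrib]

theorem act_epn (f : ℕ → A) {c : ℕ} (hc : c < r) : act f (epn r c) = f c := by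
  rw [act, prod_eq_single (⟨c, hc⟩ : Fin r) (fun d _ hd => ?_) (by simp)]
  · simp [epn]
  · simp [epn, show (d : ℕ) ≠ c from fun e => hd (Fin.ext e)]

/-- The bar complex is exact in positive degrees, and its image in degree zero is the product of
the ideal with the module. -/
theorem bar_final (f : ℕ → A) (hN : Reg (fun c => 1 - f c) r N)
    (d : ∀ n, ((Fin (n + 1) → Fin r → ℕ) →₀ N) →+ (Fin n → Fin r → ℕ) →₀ N)
    (hd : ∀ n g x, d n (Finsupp.single g x) = ∑ i : Fin (n + 2),
      (-1 : ℤ) ^ (i : ℕ) • Finsupp.single (pull i g) (act f (wt i g) • x)) :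
    (∀ n, Exact (d (n + 1)) (d n)) ∧ ∀ x : N, Finsupp.single default x ∈ (d 0).range ↔
      x ∈ ida (fun c => 1 - f c) r • (⊤ : Submodule A N) := by
  classical
  let ρ : Mr (Fin r → ℕ) →+* A := (AddMonoidAlgebra.lift ℤ A (Fin r → ℕ)
    { toFun := fun γ => act f γ.toAdd
      map_one' := act_zero f
      map_mul' := fun γ δ => act_add f _ _ }).toRingHom
  let _ : Module (Mr (Fin r → ℕ)) N := Module.compHom N ρ
  have hρ : ∀ γ (x : N), tau γ • x = act f γ • x := fun γ x => by
    change ρ (tau γ) • x = _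
    simp [ρ, tau]
  have hu : ∀ c < r, ∀ x : N, (1 - tau (epn r c)) • x = (1 - f c) • x := fun c hc x => by
    rw [sub_smul, sub_smul, one_smul, one_smul, hρ, act_epn f hc]
  have hR : Reg (fun c => 1 - tau (epn r c)) r N := fun c hc x hx => by
    have k := fun y => mem_ida_comp (N := N) (u := fun c => 1 - tau (epn r c))
      (v := fun c => 1 - f c) (c := c) (fun d hd => hu d (hd.trans hc)) y
    rw [k] at hx ⊢
    exact hN c hc x (hu c hc x ▸ hx)
  let E := fun n => TensorProduct.finsuppScalarLeft (Mr (Fin r → ℕ)) N (Fin n → Fin r → ℕ)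
  have hE : ∀ n z, d n z = E n ((barD _ n).rTensor N ((E (n + 1)).symm z)) := fun n z => by
    induction z using Finsupp.induction_linear with
    | zero => simp
    | add x y hx hy => simp only [map_add, hx, hy]
    | single g x =>
      rw [hd, finsuppScalarLeft_symm_apply_single, LinearMap.rTensor_tmul, barD_single, sum_tmul,
        map_sum]
      refine sum_congr rfl fun i _ => ?_
      rw [finsuppScalarLeft_apply_tmul, Finsupp.smul_single _ _ (1 * _),
        Finsupp.sum_single_index (by simp), one_mul, smul_assoc, hρ, Finsupp.smul_single]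
  refine ⟨fun n z => ?_, fun x => ?_⟩
  · rw [hE, (E n).map_eq_zero_iff, bar_tensor_exact N hR n]
    refine ⟨fun ⟨y, hy⟩ => ⟨E _ y, ?_⟩, fun ⟨y, hy⟩ => ⟨(E _).symm y, ?_⟩⟩
    · rw [hE, LinearEquiv.symm_apply_apply, hy, LinearEquiv.apply_symm_apply]
    · rw [← hy, hE, LinearEquiv.symm_apply_apply]
  · rw [← mem_ida_comp (u := fun c => 1 - tau (epn r c)) hu]
    have h0 := range_rT (N := N) (bar_range (ida_epn (r := r)))
    constructor
    · rintro ⟨z, hz⟩
      have h1 := h0.le (LinearMap.mem_range_self _ ((E (0 + 1)).symm z))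
      have h2 := Submodule.smul_top_le_comap_smul_top _ (E 0).toLinearMap h1
      rw [Submodule.mem_comap, LinearEquiv.coe_coe, ← hE, hz] at h2
      have h3 := map_mem_smul (R := Mr (Fin r → ℕ)) (F := (Fin 0 → Fin r → ℕ) →₀ N) (N := N)
        (Finsupp.lapply default) h2
      rwa [Finsupp.lapply_apply, Finsupp.single_eq_same] at h3
    · intro hx
      have h1 := map_mem_smul (R := Mr (Fin r → ℕ)) (F := N) (N := (Fin 0 → Fin r → ℕ) →₀ N)
        (Finsupp.lsingle default) hx
      obtain ⟨z, hz⟩ := h0.ge (Submodule.mem_comap.1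
        (Submodule.smul_top_le_comap_smul_top _ (E 0).symm.toLinearMap h1))
      refine ⟨E (0 + 1) z, ?_⟩
      rw [hE, LinearEquiv.symm_apply_apply, hz, LinearEquiv.coe_coe, LinearEquiv.apply_symm_apply,
        Finsupp.lsingle_apply]

theorem reg_lau {t : ℕ} (hp : (t + 3).Prime) (Q : Type) [AddCommGroup Q] :
    Reg (fun c => 1 - ff (var (2 * t + 3)) c) (2 * t + 3) (Lau (2 * t + 3) ⊗[ℤ] Q) :=
  fun _ hc _ hn => reg hp hc hn

end Pool.Agent.Lib.MP_10be03_gt.A
end

-- part Pool.Agent.Lib.MP_10be03_gt.AOps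
section

/-! The bar complex of a family of commuting operators. -/

set_option autoImplicit false

namespace Pool.Agent.Lib.MP_10be03_gt.A

open Function Finset

theorem act_tau {k : ℕ} (γ : Fin k → ℕ) : act (fun c => tau (epn k c)) γ = tau γ := by
  have h : ∀ s : Finset (Fin k), ∏ c ∈ s, tau (epn k c) ^ γ c = tau (∑ c ∈ s, γ c • epn k c) :=
    fun s => by
      induction s using Finset.induction_on with
      | empty => rfl
      | insert c s hc ih =>
        rw [prod_insert hc, sum_insert hc, ih, tau_add, tau, AddMonoidAlgebra.single_pow, one_pow]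
        rfl
  refine (h _).trans (congrArg tau (funext fun d => ?_))
  simp [epn, Fin.val_inj]

theorem bar_ops {M : Type} [AddCommGroup M] {k : ℕ} (T : (Fin k → ℕ) → M →+ M)
    (h0 : ∀ x, T 0 x = x) (ha : ∀ γ δ x, T (γ + δ) x = T γ (T δ x)) (J : ℕ → M → Prop)
    (hJ0 : ∀ x, J 0 x ↔ x = 0)
    (hJ : ∀ c < k, ∀ x, J (c + 1) x ↔ ∃ m, J c (x - (m - T (epn k c) m)))
    (hR : ∀ c < k, ∀ x, J c (x - T (epn k c) x) → J c x)
    (d : ∀ n, ((Fin (n + 1) → Fin k → ℕ) →₀ M) →+ (Fin n → Fin k → ℕ) →₀ M)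
    (hd : ∀ n g x, d n (Finsupp.single g x) = ∑ i : Fin (n + 2),
      (-1 : ℤ) ^ (i : ℕ) • Finsupp.single (pull i g) (T (wt i g) x)) :
    (∀ n, Exact (d (n + 1)) (d n)) ∧ ∀ x : M, Finsupp.single default x ∈ (d 0).range ↔ J k x := by
  let ρ : Mr (Fin k → ℕ) →+* Module.End ℤ M :=
    (AddMonoidAlgebra.lift ℤ (Module.End ℤ M) (Fin k → ℕ)
      { toFun := fun γ => (T γ.toAdd).toIntLinearMap
        map_one' := LinearMap.ext h0
        map_mul' := fun γ δ => LinearMap.ext (ha _ _) }).toRingHom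
  let _ : Module (Mr (Fin k → ℕ)) M := Module.compHom M ρ
  have hρ : ∀ γ (x : M), tau γ • x = T γ x := fun γ x => by
    change ρ (tau γ) x = _
    simp [ρ, tau]
  have hu : ∀ c (x : M), (1 - tau (epn k c)) • x = x - T (epn k c) x := fun c x => by
    rw [sub_smul, one_smul, hρ]
  have hI : ∀ c ≤ k, ∀ x : M, x ∈ ida (fun c => 1 - tau (epn k c)) c •
      (⊤ : Submodule (Mr (Fin k → ℕ)) M) ↔ J c x := fun c hc => by
    induction c with
    | zero => simp [ida, hJ0]
    | succ c ih => simp only [mem_ida_succ, hu, ih (Nat.le_of_succ_le hc), hJ c hc, implies_true]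
  obtain ⟨h1, h2⟩ := bar_final (fun c => tau (epn k c)) (N := M) (fun c hc x hx => by
    rw [hI c hc.le] at hx ⊢
    exact hR c hc x (hu c x ▸ hx)) d fun n g x => by simp only [hd, act_tau, hρ]
  exact ⟨h1, fun x => (h2 x).trans (hI k le_rfl x)⟩

theorem pull_comp {Γ Γ' : Type} [AddCommMonoid Γ] [AddCommMonoid Γ'] (φ : Γ →+ Γ') {n : ℕ}
    (i : Fin (n + 2)) (g : Fin (n + 1) → Γ) : pull i (φ ∘ g) = φ ∘ pull i g := by
  funext j
  induction i using Fin.cases with
  | zero => rfl
  | succ i =>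
    simp only [pull, Fin.cases_succ, Fin.contractNth, comp_apply]
    split_ifs <;> simp

theorem wt_comp {Γ Γ' : Type} [AddCommMonoid Γ] [AddCommMonoid Γ'] (φ : Γ →+ Γ') {n : ℕ}
    (i : Fin (n + 2)) (g : Fin (n + 1) → Γ) : wt i (φ ∘ g) = φ (wt i g) := by
  induction i using Fin.cases with
  | zero => rfl
  | succ i => exact (map_zero φ).symm

theorem shift_zero {r : ℕ} {L : Type} [AddCommGroup L] {c : ℕ} (hc : c < r)
    {y : (Fin r → ℕ) →₀ L} (h : y = y.mapDomain (· + epn r c)) : y = 0 := by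
  ext n
  induction hn : n ⟨c, hc⟩ generalizing n with
  | zero =>
    rw [h]
    refine Finsupp.mapDomain_of_notMem_range _ _ ?_
    rintro ⟨m, rfl⟩
    simp [epn] at hn
  | succ k ih =>
    obtain ⟨m, rfl⟩ : ∃ m, n = m + epn r c := ⟨n - epn r c, funext fun d => by
      simp only [Pi.add_apply, Pi.sub_apply, epn]
      split_ifs with e
      · obtain rfl : d = ⟨c, hc⟩ := Fin.ext e
        omega
      · rfl⟩
    rw [h, Finsupp.mapDomain_apply (add_left_injective _)]
    exact ih m (by simpa [epn] using hn)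

end Pool.Agent.Lib.MP_10be03_gt.A
end
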