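import Pool.Agent.Lib.MP_10be03_gt.Sp

/-!
Orthogonal spectra, operads, the little discs, algebras over an operad in orthogonal spectra.
-/

noncomputable section
open scoped unitInterval Topology OnePoint

namespace Pool.Agent.Lib.E2

/-- Euclidean space. -/
abbrev E (n : ℕ) : Type := EuclideanSpace ℝ (Fin n)

instance instNormedE (n : ℕ) : NormedAddCommGroup (E n) := PiLp.normedAddCommGroup 2 _

instance instInnerE (n : ℕ) : InnerProductSpace ℝ (E n) := PiLp.innerProductSpace _

instance instFiniteE (n : ℕ) : FiniteDimensional ℝ (E n) := inferInstance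

section Generic

variable (V W : Type) [NormedAddCommGroup V] [InnerProductSpace ℝ V] [NormedAddCommGroup W]
  [InnerProductSpace ℝ W]

/-- Linear isometric embeddings. -/
abbrev Isom : Type := V →ₗᵢ[ℝ] W

/-- Continuous linear maps. -/
abbrev CLM : Type := V →L[ℝ] W

/-- `φ` is isometric and `p` is `∞` or orthogonal to the image of `φ`. -/
def IsThom (p : CLM V W × OnePoint W) : Prop :=
  (∀ v, ‖p.1 v‖ = ‖v‖) ∧ ∀ w : W, p.2 = w → ∀ v, inner ℝ w (p.1 v) = 0

/-- Pairs of a linear isometric embedding `φ : V → W` and a point `w` of the one point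
compactification of the orthogonal complement of its image (the Thom space of the orthogonal
complement bundle is obtained by collapsing the points with `w = ∞`). -/
def ThomG : Type := {p : CLM V W × OnePoint W // IsThom V W p}

instance instTopThomG : TopologicalSpace (ThomG V W) := instTopologicalSpaceSubtype

variable {V W}

/-- The isometry of a morphism. -/
def ThomG.iso (t : ThomG V W) : Isom V W := ⟨t.1.1.toLinearMap, t.2.1⟩

/-- The isometry of a morphism as a function. -/
def ThomG.map (t : ThomG V W) (v : V) : W := t.1.1 v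

/-- The point of a morphism. -/
def ThomG.pt (t : ThomG V W) : OnePoint W := t.1.2

variable {S : Type} {Vs : S → Type} [∀ s, NormedAddCommGroup (Vs s)]
  [∀ s, InnerProductSpace ℝ (Vs s)]

/-- An isometry as a function. -/
def Isom.ap (φ : Isom V W) (v : V) : W := φ v

/-- The images of the isometries are pairwise orthogonal and span. -/
def IsDec (φ : ∀ s, Isom (Vs s) W) : Prop :=
  (∀ s t, s ≠ t → ∀ v w, inner ℝ ((φ s).ap v) ((φ t).ap w) = 0) ∧
    ∀ w : W, (∀ s v, inner ℝ w ((φ s).ap v) = 0) → w = 0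

end Generic

/-- The morphisms from `ℝ^n` to `ℝ^N`. -/
def Thom (n N : ℕ) : Type := ThomG (E n) (E N)

instance instTopThom (n N : ℕ) : TopologicalSpace (Thom n N) := instTopThomG _ _

/-- The isometry of a morphism. -/
def Thom.iso {n N : ℕ} (t : Thom n N) : Isom (E n) (E N) := ThomG.iso t

/-- The isometry of a morphism as a function. -/
def Thom.map {n N : ℕ} (t : Thom n N) : E n → E N := ThomG.map t

/-- The point of a morphism. -/
def Thom.pt {n N : ℕ} (t : Thom n N) : OnePoint (E N) := ThomG.pt t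

/-- Orthogonal decompositions of `ℝ^N` into isometric copies of the `ℝ^(n s)`. -/
def Dec {S : Type} (n : S → ℕ) (N : ℕ) : Type :=
  {φ : ∀ s, Isom (E (n s)) (E N) // IsDec φ}

/-- The isometries of a decomposition. -/
def Dec.iso {S : Type} {n : S → ℕ} {N : ℕ} (φ : Dec n N) (s : S) : Isom (E (n s)) (E N) := φ.1 s

/-- The isometries of a decomposition as functions. -/
def Dec.map {S : Type} {n : S → ℕ} {N : ℕ} (φ : Dec n N) (s : S) : E (n s) → E N :=
  (φ.iso s).ap

/-- The data of an orthogonal spectrum. -/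
structure PreO where
  X : ℕ → Type
  [top : ∀ n, TopologicalSpace (X n)]
  pt : ∀ n, X n
  act : ∀ {n N : ℕ}, Thom n N → X n → X N

attribute [instance] PreO.top

/-- The axioms of an orthogonal spectrum: a based continuous functor on the category whose
objects are the `ℝ^n` and whose morphism spaces are the Thom spaces. -/
structure IsO (R : PreO) : Prop where
  cont : ∀ n N, Continuous fun p : Thom n N × R.X n => R.act p.1 p.2
  act_pt : ∀ {n N} (t : Thom n N), R.act t (R.pt n) = R.pt N
  act_inf : ∀ {n N} (t : Thom n N) (x : R.X n), t.pt = ∞ → R.act t x = R.pt N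
  act_id : ∀ {n} (t : Thom n n) (x : R.X n), (∀ v, t.map v = v) → t.pt = (0 : E n) →
    R.act t x = x
  act_comp : ∀ {n N M} (t : Thom n N) (t' : Thom N M) (t'' : Thom n M) (w : E N) (w' : E M)
    (x : R.X n), t.pt = w → t'.pt = w' → (∀ v, t''.map v = t'.map (t.map v)) →
    t''.pt = (w' + t'.map w : E M) → R.act t' (R.act t x) = R.act t'' x

/-- An orthogonal spectrum. -/
structure OSp extends PreO where
  isO : IsO toPreO

/-- The standard inclusion `ℝ^n → ℝ^(n+1)` on the first `n` coordinates. -/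
def incl (n : ℕ) : CLM (E n) (E (n + 1)) :=
  ∑ i : Fin n, (EuclideanSpace.proj i : E n →L[ℝ] ℝ).smulRight
    (EuclideanSpace.single (Fin.castSucc i) (1 : ℝ))

theorem incl_castSucc (n : ℕ) (v : E n) (i : Fin n) : incl n v (Fin.castSucc i) = v i := by
  simp [incl, Pi.single_apply]

theorem incl_last (n : ℕ) (v : E n) : incl n v (Fin.last n) = 0 := by
  simp [incl, (Fin.castSucc_lt_last _).ne']

theorem norm_incl (n : ℕ) (v : E n) : ‖incl n v‖ = ‖v‖ := by
  simp [EuclideanSpace.norm_eq, Fin.sum_univ_castSucc, incl_castSucc, incl_last]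

open Classical in
/-- The identification of `I / ∂I` with the one point compactification of the last coordinate
axis: `u ↦ (1 / (1 - u) - 1 / u) e_last` for `0 < u < 1`, and `0, 1 ↦ ∞`. -/
def axis (n : ℕ) (u : I) : OnePoint (E (n + 1)) :=
  if u = 0 ∨ u = 1 then ∞
  else ((EuclideanSpace.single (Fin.last n) (1 / (1 - (u : ℝ)) - 1 / (u : ℝ)) : E (n + 1)) :
    OnePoint (E (n + 1)))

theorem continuous_axis (n : ℕ) : Continuous (axis n) := by
  rw [continuous_iff_continuousAt]
  intro u
  by_cases hu : u = 0 ∨ u = 1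
  · have h0 : axis n u = ∞ := if_pos hu
    rw [ContinuousAt, h0, OnePoint.hasBasis_nhds_infty.tendsto_right_iff]
    rintro K ⟨-, hK⟩
    obtain ⟨C, hC⟩ := hK.isBounded.exists_norm_le
    have hc : Continuous fun v : I => (C + 1) * ((v : ℝ) * (1 - v)) - |2 * (v : ℝ) - 1| := by
      fun_prop
    have hneg : (C + 1) * ((u : ℝ) * (1 - u)) - |2 * (u : ℝ) - 1| < 0 := by
      rcases hu with h | h <;> subst h <;> norm_num
    filter_upwards [hc.continuousAt.eventually (gt_mem_nhds hneg)] with v hv
    by_cases hv' : v = 0 ∨ v = 1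
    · exact Or.inr (if_pos hv')
    · refine Or.inl ⟨_, fun hmem => ?_, (if_neg hv').symm⟩
      have h1 := hC _ hmem
      rw [not_or] at hv'
      have ha : (0 : ℝ) < v := lt_of_le_of_ne v.2.1 fun h => hv'.1 (Subtype.ext h.symm)
      have hb : (0 : ℝ) < 1 - v := sub_pos.2 (lt_of_le_of_ne v.2.2 fun h => hv'.2 (Subtype.ext h))
      have h2 : 1 / (1 - (v : ℝ)) - 1 / (v : ℝ) = (2 * v - 1) / (v * (1 - v)) := by
        field_simp; ring
      rw [PiLp.norm_single, h2, Real.norm_eq_abs, abs_div, abs_of_pos (mul_pos ha hb),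
        div_le_iff₀ (mul_pos ha hb)] at h1
      nlinarith [mul_pos ha hb]
  · have hu' := not_or.1 hu
    have ha : (u : ℝ) ≠ 0 := fun h => hu'.1 (Subtype.ext h)
    have hb : 1 - (u : ℝ) ≠ 0 := fun h => hu'.2 (Subtype.ext (sub_eq_zero.1 h).symm)
    have hc : ContinuousAt (fun v : I => ((EuclideanSpace.single (Fin.last n)
        (1 / (1 - (v : ℝ)) - 1 / (v : ℝ)) : E (n + 1)) : OnePoint (E (n + 1)))) u := by
      refine OnePoint.continuous_coe.continuousAt.comp ?_
      have h1 : Continuous fun r : ℝ => (EuclideanSpace.single (Fin.last n) r : E (n + 1)) := by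
        exact (PiLp.continuous_toLp 2 (fun _ : Fin (n + 1) => ℝ)).comp
          (continuous_single (A := fun _ : Fin (n + 1) => ℝ) (Fin.last n))
      exact h1.continuousAt.comp (by fun_prop (disch := assumption))
    refine hc.congr ?_
    filter_upwards [isOpen_ne.mem_nhds hu'.1, isOpen_ne.mem_nhds hu'.2] with v h0 h1
    exact (if_neg (not_or.2 ⟨h0, h1⟩)).symm

theorem isThom_axis (n : ℕ) (u : I) : IsThom (E n) (E (n + 1)) (incl n, axis n u) :=
  ⟨norm_incl n, fun w hw v => by
    have hw' : axis n u = w := hw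
    unfold axis at hw'
    split_ifs at hw' with h
    · exact absurd hw' (OnePoint.infty_ne_coe w)
    · rw [← OnePoint.coe_injective hw', EuclideanSpace.inner_single_left]
      simp [incl_last]⟩

/-- The morphism `ℝ^n → ℝ^(n+1)` given by a point of the suspension coordinate. -/
def sThom (n : ℕ) (u : I) : Thom n (n + 1) := ⟨(incl n, axis n u), isThom_axis n u⟩

theorem continuous_sThom (n : ℕ) : Continuous (sThom n) :=
  (continuous_const.prodMk (continuous_axis n)).subtype_mk _

/-- The underlying sequential spectrum of an orthogonal spectrum. -/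
def OSp.toS (R : OSp) : SSp where
  X := R.X
  pt := R.pt
  sg n x u := R.act (sThom n u) x
  cont n := (R.isO.cont n (n + 1)).comp
    (((continuous_sThom n).comp continuous_snd).prodMk continuous_fst)
  sg_pt n u := R.isO.act_pt _
  sg_zero n x := R.isO.act_inf _ _ (by simp [sThom, axis, Thom.pt, ThomG.pt])
  sg_one n x := R.isO.act_inf _ _ (by simp [sThom, axis, Thom.pt, ThomG.pt])

/-- A map of orthogonal spectra. -/
structure OMap (R R' : OSp) where
  f : ∀ n, R.X n → R'.X n
  cont : ∀ n, Continuous (f n)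
  f_pt : ∀ n, f n (R.pt n) = R'.pt n
  f_act : ∀ {n N} (t : Thom n N) (x : R.X n), f N (R.act t x) = R'.act t (f n x)

/-- The underlying map of sequential spectra. -/
def OMap.toS {R R' : OSp} (φ : OMap R R') : SMap R.toS R'.toS where
  f := φ.f
  cont := φ.cont
  f_pt := φ.f_pt
  f_sg n x u := φ.f_act (sThom n u) x

/-- A topological operad, with operations indexed by finite types. -/
structure Operad where
  O : ∀ (S : Type) [Finite S], Type
  [top : ∀ (S : Type) [Finite S], TopologicalSpace (O S)]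
  rel : ∀ {S T : Type} [Finite S] [Finite T], S ≃ T → O S → O T
  one : O Unit
  comp : ∀ {S : Type} [Finite S] {T : S → Type} [∀ s, Finite (T s)],
    O S → (∀ s, O (T s)) → O (Σ s, T s)
  cont_rel : ∀ {S T : Type} [Finite S] [Finite T] (e : S ≃ T), Continuous (rel e)
  cont_comp : ∀ {S : Type} [Finite S] {T : S → Type} [∀ s, Finite (T s)],
    Continuous fun p : O S × (∀ s, O (T s)) => comp p.1 p.2
  rel_refl : ∀ {S : Type} [Finite S] (c : O S), rel (Equiv.refl S) c = c
  rel_trans : ∀ {S T U : Type} [Finite S] [Finite T] [Finite U] (e : S ≃ T) (e' : T ≃ U)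
    (c : O S), rel e' (rel e c) = rel (e.trans e') c
  comp_one : ∀ {S : Type} [Finite S] (c : O S),
    rel (Equiv.sigmaPUnit S) (comp c fun _ => one) = c
  one_comp : ∀ {T : Unit → Type} [∀ s, Finite (T s)] (d : ∀ s, O (T s)),
    rel (Equiv.uniqueSigma T) (comp one d) = d ()
  comp_assoc : ∀ {S : Type} [Finite S] {T : S → Type} [∀ s, Finite (T s)]
    {U : ∀ s, T s → Type} [∀ s t, Finite (U s t)] (c : O S) (d : ∀ s, O (T s))
    (f : ∀ s t, O (U s t)),
    rel (Equiv.sigmaAssoc U) (comp (comp c d) fun p => f p.1 p.2) =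
      comp c fun s => comp (d s) (f s)
  comp_rel : ∀ {S S' : Type} [Finite S] [Finite S'] {T : S → Type} [∀ s, Finite (T s)]
    {T' : S' → Type} [∀ s, Finite (T' s)] (e : S ≃ S') (f : ∀ s, T s ≃ T' (e s)) (c : O S)
    (d : ∀ s, O (T s)) (d' : ∀ s, O (T' s)), (∀ s, d' (e s) = rel (f s) (d s)) →
    rel (Equiv.sigmaCongr e f) (comp c d) = comp (rel e c) d'

attribute [instance] Operad.top

/-- The space of families of little discs (centre, radius) in the unit disc of `ℂ` with disjoint
interiors. -/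
def D2 (S : Type) : Type :=
  {p : S → ℂ × ℝ // (∀ s, 0 < (p s).2 ∧ ‖(p s).1‖ + (p s).2 ≤ 1) ∧
    ∀ s t, s ≠ t → (p s).2 + (p t).2 ≤ ‖(p s).1 - (p t).1‖}

instance instTopD2 (S : Type) : TopologicalSpace (D2 S) :=
  instTopologicalSpaceSubtype

/-- `π` is a map of operads from `O` to the little discs operad that is a homotopy equivalence
in every arity. -/
structure IsE2 (O : Operad) (π : ∀ (S : Type) [Finite S], O.O S → D2 S) : Prop where
  equiv : ∀ (S : Type) [Finite S], ∃ h : ContinuousMap.HomotopyEquiv (O.O S) (D2 S),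
    ∀ c, h.toFun c = π S c
  rel : ∀ {S T : Type} [Finite S] [Finite T] (e : S ≃ T) (c : O.O S) (s : S),
    (π T (O.rel e c)).1 (e s) = (π S c).1 s
  one : (π Unit O.one).1 () = (0, 1)
  comp : ∀ {S : Type} [Finite S] {T : S → Type} [∀ s, Finite (T s)] (c : O.O S)
    (d : ∀ s, O.O (T s)) (s : S) (t : T s), (π _ (O.comp c d)).1 ⟨s, t⟩ =
      (((π S c).1 s).1 + ((π S c).1 s).2 * ((π _ (d s)).1 t).1,
        ((π S c).1 s).2 * ((π _ (d s)).1 t).2)

/-- Continuity in the compactly generated sense: continuity on all compact Hausdorff test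
spaces. -/
def KCont {A B : Type} [TopologicalSpace A] [TopologicalSpace B] (f : A → B) : Prop :=
  ∀ (K : Type) [TopologicalSpace K] [CompactSpace K] [T2Space K] (g : K → A),
    Continuous g → Continuous (f ∘ g)

/-- Structure maps `O(S) × R(n_1) × ... × R(n_k) → R(n_1 + ... + n_k)`. -/
structure MulData (O : Operad) (R : PreO) where
  ap : ∀ {S : Type} [Finite S] {n : S → ℕ} {N : ℕ},
    O.O S → Dec n N → (∀ s, R.X (n s)) → R.X N

/-- The axioms of an algebra over the operad `O` in orthogonal spectra, the maps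
`O(S)₊ ∧ R ∧ ... ∧ R → R` being given as multimorphisms. -/
structure IsAlg (O : Operad) (R : PreO) (μ : MulData O R) : Prop where
  kcont : ∀ {S : Type} [Finite S] {n : S → ℕ} {N : ℕ} (φ : Dec n N),
    KCont fun p : O.O S × (∀ s, R.X (n s)) => μ.ap p.1 φ p.2
  base : ∀ {S : Type} [Finite S] {n : S → ℕ} {N : ℕ} (c : O.O S) (φ : Dec n N)
    (x : ∀ s, R.X (n s)) (s : S), x s = R.pt (n s) → μ.ap c φ x = R.pt N
  lin : ∀ {S : Type} [Finite S] {n n' : S → ℕ} {N N' : ℕ} (c : O.O S) (φ : Dec n N)
    (φ' : Dec n' N') (t : ∀ s, Thom (n s) (n' s)) (w : ∀ s, E (n' s)) (T : Thom N N')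
    (x : ∀ s, R.X (n s)), (∀ s, (t s).pt = w s) →
    (∀ s v, T.map (φ.map s v) = φ'.map s ((t s).map v)) →
    T.pt = (∑ᶠ s, φ'.map s (w s) : E N') →
    μ.ap c φ' (fun s => R.act (t s) (x s)) = R.act T (μ.ap c φ x)
  one : ∀ {N : ℕ} (φ : Dec (fun _ : Unit => N) N) (x : R.X N), (∀ v, φ.map () v = v) →
    μ.ap O.one φ (fun _ => x) = x
  assoc : ∀ {S : Type} [Finite S] {T : S → Type} [∀ s, Finite (T s)]
    {n : (Σ s, T s) → ℕ} {m : S → ℕ} {N : ℕ} (c : O.O S) (d : ∀ s, O.O (T s)) (φ : Dec m N)
    (ψ : ∀ s, Dec (fun t => n ⟨s, t⟩) (m s)) (χ : Dec n N) (x : ∀ p, R.X (n p)),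
    (∀ s t v, χ.map ⟨s, t⟩ v = φ.map s ((ψ s).map t v)) →
    μ.ap (O.comp c d) χ x = μ.ap c φ fun s => μ.ap (d s) (ψ s) fun t => x ⟨s, t⟩
  rel : ∀ {S T : Type} [Finite S] [Finite T] (e : S ≃ T) {n : T → ℕ} {N : ℕ} (c : O.O S)
    (φ : Dec (fun s => n (e s)) N) (φ' : Dec n N) (x : ∀ t, R.X (n t)),
    (∀ s v, φ.map s v = φ'.map (e s) v) → μ.ap (O.rel e c) φ' x = μ.ap c φ fun s => x (e s)

end Pool.Agent.Lib.E2
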