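import Mathlib

/-!
Sequential spectra and their stable homotopy groups.
-/

noncomputable section
open scoped unitInterval Topology

namespace Pool.Agent.Lib.E2

section Generic

variable (N X : Type) [TopologicalSpace X] (x : X)

/-- Maps from the cube `I^N` to `X` sending the boundary to `x`. -/
abbrev Loop : Type := GenLoop N X x

/-- The homotopy group, written additively. -/
def HG : Type := Additive (HomotopyGroup N X x)

instance instAddCommGroupHG [DecidableEq N] [Nontrivial N] : AddCommGroup (HG N X x) :=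
  Additive.addCommGroup

variable {N X x}

/-- The value of a cube map. -/
def Loop.ap (f : Loop N X x) (t : N → I) : X := f t

/-- The class of a cube map. -/
def HG.mk (f : Loop N X x) : HG N X x := Additive.ofMul (Quotient.mk _ f)

variable {N' X' : Type} [TopologicalSpace X'] {x' : X'}

/-- `F` preserves homotopies and the concatenation of cube maps. -/
def IsLoopHom [DecidableEq N] [DecidableEq N'] (F : Loop N X x → Loop N' X' x') : Prop :=
  (∀ f g, GenLoop.Homotopic f g → GenLoop.Homotopic (F f) (F g)) ∧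
    ∃ (i : N) (i' : N'), ∀ f g, F (GenLoop.transAt i f g) = GenLoop.transAt i' (F f) (F g)

/-- The homomorphism of homotopy groups induced by an operation on cube maps. -/
def HG.lift [DecidableEq N] [Nontrivial N] [DecidableEq N'] [Nontrivial N']
    (F : Loop N X x → Loop N' X' x') (h : IsLoopHom F) : HG N X x →+ HG N' X' x' :=
  AddMonoidHom.mk' (Quotient.map F h.1) (by
    obtain ⟨-, i, i', h2⟩ := h
    rintro ⟨f⟩ ⟨g⟩
    have e1 := HomotopyGroup.mul_spec (i := i) (p := f) (q := g)
    have e2 := HomotopyGroup.mul_spec (i := i') (p := F f) (q := F g)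
    refine (congrArg _ e1).trans (Eq.trans ?_ e2.symm)
    exact congrArg _ (h2 g f))

theorem HG.lift_mk [DecidableEq N] [Nontrivial N] [DecidableEq N'] [Nontrivial N']
    (F : Loop N X x → Loop N' X' x') (h : IsLoopHom F) (f : Loop N X x) :
    HG.lift F h (HG.mk f) = HG.mk (F f) := rfl

/-- A cube map from a continuous function sending the boundary to the base point. -/
def Loop.mk (f : (N → I) → X) (h : Continuous f ∧ ∀ t ∈ Cube.boundary N, f t = x) :
    Loop N X x := ⟨⟨f, h.1⟩, h.2⟩

/-- Iteration of the homomorphisms of a sequence of abelian groups. -/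
def iter {G : ℕ → Type} [∀ j, AddCommGroup (G j)] (s : ∀ j, G j →+ G (j + 1)) (i j : ℕ)
    (h : i ≤ j) : G i →+ G j :=
  Nat.leRec (motive := fun j _ => G i →+ G j) (AddMonoidHom.id _) (fun k _ ih => (s k).comp ih) h

end Generic

/-- A sequential spectrum: based spaces `X n` with based structure maps
`X n ∧ (I / ∂I) → X (n + 1)`. -/
structure SSp where
  X : ℕ → Type
  [top : ∀ n, TopologicalSpace (X n)]
  pt : ∀ n, X n
  sg : ∀ n, X n → I → X (n + 1)
  cont : ∀ n, Continuous fun p : X n × I => sg n p.1 p.2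
  sg_pt : ∀ n u, sg n (pt n) u = pt (n + 1)
  sg_zero : ∀ n x, sg n x 0 = pt (n + 1)
  sg_one : ∀ n x, sg n x 1 = pt (n + 1)

attribute [instance] SSp.top

/-- Index set of the cube coordinates at stage `j`. -/
abbrev Cb (a j : ℕ) : Type := Fin a ⊕ Fin (j + 2)

instance instNontrivialCb (a j : ℕ) : Nontrivial (Cb a j) :=
  ⟨⟨Sum.inr 0, Sum.inr 1, by simp⟩⟩

/-- Forget the last cube coordinate. -/
def cbInit {a j : ℕ} (t : Cb a (j + 1) → I) : Cb a j → I :=
  fun i => t (Sum.map id Fin.castSucc i)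

theorem continuous_cbInit {a j : ℕ} : Continuous (cbInit (a := a) (j := j)) :=
  continuous_pi fun i => continuous_apply (Sum.map id Fin.castSucc i)

namespace SSp

theorem suspLoop_aux (X : SSp) {a j n : ℕ} (f : Loop (Cb a j) (X.X n) (X.pt n)) :
    Continuous (fun t : Cb a (j + 1) → I =>
      X.sg n (f.ap (cbInit t)) (t (Sum.inr (Fin.last (j + 2))))) ∧
    ∀ t ∈ Cube.boundary (Cb a (j + 1)),
      X.sg n (f.ap (cbInit t)) (t (Sum.inr (Fin.last (j + 2)))) = X.pt (n + 1) := by
  refine ⟨(X.cont n).comp ((f.1.continuous.comp continuous_cbInit).prodMk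
      (continuous_apply (Sum.inr (Fin.last (j + 2))))), ?_⟩
  rintro t ⟨i, hi⟩
  change X.sg n (f (cbInit t)) (t (Sum.inr (Fin.last (j + 2)))) = _
  have key : ∀ i' : Cb a j, (cbInit t i' = 0 ∨ cbInit t i' = 1) →
      X.sg n (f (cbInit t)) (t (Sum.inr (Fin.last (j + 2)))) = X.pt (n + 1) := fun i' h => by
    rw [GenLoop.boundary f _ ⟨i', h⟩, X.sg_pt]
  rcases i with i | i
  · exact key (Sum.inl i) hi
  · induction i using Fin.lastCases with
    | last => rcases hi with h | h <;> rw [h] <;> simp [X.sg_zero, X.sg_one]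
    | cast i => exact key (Sum.inr i) hi

/-- Suspension of a cube map along the structure map (the new coordinate is the last one). -/
def suspLoop (X : SSp) {a j n : ℕ} (f : Loop (Cb a j) (X.X n) (X.pt n)) :
    Loop (Cb a (j + 1)) (X.X (n + 1)) (X.pt (n + 1)) :=
  Loop.mk (fun t => X.sg n (f.ap (cbInit t)) (t (Sum.inr (Fin.last (j + 2)))))
    (X.suspLoop_aux f)

theorem suspLoop_apply (X : SSp) {a j n : ℕ} (f : GenLoop (Cb a j) (X.X n) (X.pt n))
    (t : Cb a (j + 1) → I) :
    X.suspLoop f t = X.sg n (f (cbInit t)) (t (Sum.inr (Fin.last (j + 2)))) := rfl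

theorem suspLoop_homotopic (X : SSp) {a j n : ℕ} {f g : GenLoop (Cb a j) (X.X n) (X.pt n)}
    (h : GenLoop.Homotopic f g) : GenLoop.Homotopic (X.suspLoop f) (X.suspLoop g) := by
  obtain ⟨H⟩ := h
  refine ⟨⟨⟨⟨fun p => X.sg n (H (p.1, cbInit p.2)) (p.2 (Sum.inr (Fin.last (j + 2)))),
    (X.cont n).comp ((H.continuous.comp (continuous_fst.prodMk
      (continuous_cbInit.comp continuous_snd))).prodMk
      ((continuous_apply (Sum.inr (Fin.last (j + 2)))).comp continuous_snd))⟩, fun t => ?_, fun t => ?_⟩, ?_⟩⟩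
  · change X.sg n (H (0, cbInit t)) _ = _
    rw [H.apply_zero]; rfl
  · change X.sg n (H (1, cbInit t)) _ = _
    rw [H.apply_one]; rfl
  · rintro s t ⟨i, hi⟩
    change X.sg n (H (s, cbInit t)) (t (Sum.inr (Fin.last (j + 2)))) = X.suspLoop f t
    rw [GenLoop.boundary (X.suspLoop f) t ⟨i, hi⟩]
    have key : ∀ i' : Cb a j, (cbInit t i' = 0 ∨ cbInit t i' = 1) →
        X.sg n (H (s, cbInit t)) (t (Sum.inr (Fin.last (j + 2)))) = X.pt (n + 1) := fun i' h => by
      rw [H.eq_fst s ⟨i', h⟩]
      change X.sg n (f (cbInit t)) _ = _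
      rw [GenLoop.boundary f _ ⟨i', h⟩, X.sg_pt]
    rcases i with i | i
    · exact key (Sum.inl i) hi
    · induction i using Fin.lastCases with
      | last => rcases hi with h | h <;> rw [h] <;> simp [X.sg_zero, X.sg_one]
      | cast i => exact key (Sum.inr i) hi

theorem suspLoop_transAt (X : SSp) {a j n : ℕ} (f g : GenLoop (Cb a j) (X.X n) (X.pt n)) :
    X.suspLoop (GenLoop.transAt (Sum.inr 0) f g) =
      GenLoop.transAt (Sum.inr 0) (X.suspLoop f) (X.suspLoop g) := by
  ext t
  have h1 : ∀ u : I, cbInit (Function.update t (Sum.inr 0) u) =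
      Function.update (cbInit t) (Sum.inr 0) u := fun u => by
    funext i
    by_cases hi : i = Sum.inr 0
    · subst hi; simp [cbInit]
    · rw [Function.update_of_ne hi]
      refine Function.update_of_ne ?_ _ _
      rcases i with i | i
      · simp
      · simpa using hi
  have h2 : ∀ u : I, Function.update t (Sum.inr 0) u (Sum.inr (Fin.last (j + 2))) =
      t (Sum.inr (Fin.last (j + 2))) := fun u =>
    Function.update_of_ne (by simp [Fin.ext_iff]) _ _
  have h3 : cbInit t (Sum.inr 0) = t (Sum.inr 0) := by simp [cbInit]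
  simp only [suspLoop_apply, GenLoop.transAt, GenLoop.coe_copy, h1, h2, h3]
  split_ifs <;> rfl

theorem isLoopHom_susp (X : SSp) (a j n : ℕ) :
    IsLoopHom (X.suspLoop (a := a) (j := j) (n := n)) :=
  ⟨fun _ _ h => X.suspLoop_homotopic h, Sum.inr 0, Sum.inr 0, X.suspLoop_transAt⟩

/-- The unstable group at stage `j`: the homotopy group of `X (b + j)` of dimension
`a + j + 2`. -/
def G (X : SSp) (a b j : ℕ) : Type := HG (Cb a j) (X.X (b + j)) (X.pt (b + j))

instance instAddCommGroupG (X : SSp) (a b j : ℕ) : AddCommGroup (X.G a b j) :=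
  instAddCommGroupHG _ _ _

/-- The stabilisation homomorphism. -/
def susp (X : SSp) (a b j : ℕ) : X.G a b j →+ X.G a b (j + 1) :=
  HG.lift X.suspLoop (X.isLoopHom_susp a j (b + j))

/-- Iterated stabilisation. -/
def trans (X : SSp) (a b : ℕ) (i j : ℕ) (h : i ≤ j) : X.G a b i →+ X.G a b j :=
  iter (X.susp a b) i j h

/-- The stable homotopy group of degree `a + 2 - b`: the colimit over `j` of the homotopy groups
of dimension `a + j + 2` of `X (b + j)`. -/
def Pi (X : SSp) (a b : ℕ) : Type := AddCommGroup.DirectLimit (X.G a b) (X.trans a b)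

instance instAddCommGroupPi (X : SSp) (a b : ℕ) : AddCommGroup (X.Pi a b) :=
  AddCommGroup.DirectLimit.addCommGroup (X.G a b) (X.trans a b)

/-- The stable class of a cube map. -/
def cls (X : SSp) (a b j : ℕ) (f : Loop (Cb a j) (X.X (b + j)) (X.pt (b + j))) : X.Pi a b :=
  AddCommGroup.DirectLimit.of (X.G a b) (X.trans a b) j (HG.mk f)

end SSp

/-- A map of sequential spectra. -/
structure SMap (X Y : SSp) where
  f : ∀ n, X.X n → Y.X n
  cont : ∀ n, Continuous (f n)
  f_pt : ∀ n, f n (X.pt n) = Y.pt n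
  f_sg : ∀ n x u, f (n + 1) (X.sg n x u) = Y.sg n (f n x) u

namespace SMap

variable {X Y : SSp}

theorem loop_aux (φ : SMap X Y) {N : Type} {n : ℕ} (g : Loop N (X.X n) (X.pt n)) :
    Continuous (fun t : N → I => φ.f n (g.ap t)) ∧
      ∀ t ∈ Cube.boundary N, φ.f n (g.ap t) = Y.pt n :=
  ⟨(φ.cont n).comp g.1.continuous, fun t ht => by
    change φ.f n (g t) = _
    rw [GenLoop.boundary g t ht, φ.f_pt]⟩

/-- Composition of a cube map with a map of spectra. -/
def loop (φ : SMap X Y) {N : Type} {n : ℕ} (g : Loop N (X.X n) (X.pt n)) :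
    Loop N (Y.X n) (Y.pt n) :=
  Loop.mk (fun t => φ.f n (g.ap t)) (φ.loop_aux g)

theorem loop_apply (φ : SMap X Y) {N : Type} {n : ℕ} (g : GenLoop N (X.X n) (X.pt n))
    (t : N → I) : φ.loop g t = φ.f n (g t) := rfl

theorem loop_homotopic (φ : SMap X Y) {N : Type} {n : ℕ} {g h : GenLoop N (X.X n) (X.pt n)}
    (H : GenLoop.Homotopic g h) : GenLoop.Homotopic (φ.loop g) (φ.loop h) :=
  ContinuousMap.HomotopicRel.comp_continuousMap H ⟨φ.f n, φ.cont n⟩

theorem isLoopHom_loop (φ : SMap X Y) (a j n : ℕ) : IsLoopHom (φ.loop (N := Cb a j) (n := n)) :=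
  ⟨fun _ _ h => φ.loop_homotopic h, Sum.inr 0, Sum.inr 0, fun f g => GenLoop.ext _ _ fun t => by
    simp only [loop_apply, GenLoop.transAt, GenLoop.coe_copy]
    split_ifs <;> rfl⟩

/-- The induced homomorphism of unstable groups. -/
def gmap (φ : SMap X Y) (a b j : ℕ) : X.G a b j →+ Y.G a b j :=
  HG.lift φ.loop (φ.isLoopHom_loop a j (b + j))

theorem gmap_susp (φ : SMap X Y) (a b j : ℕ) :
    (φ.gmap a b (j + 1)).comp (X.susp a b j) = (Y.susp a b j).comp (φ.gmap a b j) := by
  ext x
  obtain ⟨f⟩ := x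
  exact congrArg HG.mk (GenLoop.ext _ _ fun t => φ.f_sg _ _ _)

theorem gmap_trans (φ : SMap X Y) (a b i j : ℕ) (h : i ≤ j) :
    (φ.gmap a b j).comp (X.trans a b i j h) = (Y.trans a b i j h).comp (φ.gmap a b i) := by
  induction j, h using Nat.le_induction with
  | base => simp [SSp.trans, iter]
  | succ k hk ih =>
    simp only [SSp.trans, iter] at ih ⊢
    rw [Nat.leRec_succ (h1 := hk), Nat.leRec_succ (h1 := hk), ← AddMonoidHom.comp_assoc,
      gmap_susp, AddMonoidHom.comp_assoc, ih, AddMonoidHom.comp_assoc]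

/-- The induced homomorphism of stable homotopy groups. -/
def pi (φ : SMap X Y) (a b : ℕ) : X.Pi a b →+ Y.Pi a b :=
  AddCommGroup.DirectLimit.map (φ.gmap a b) (φ.gmap_trans a b)

end SMap

end Pool.Agent.Lib.E2
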