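import Mathlib
import Pool.Agent.Lib.MP_10be03_gt.Sp

-- part Pool.Agent.Lib.MP_10be03_gt.Modes
section

/-!
Raw matrices indexed by natural numbers (no casts), morphisms of mode spaces, block
decompositions, weights and characters.
-/

noncomputable section
open scoped Matrix

namespace Pool.Agent.Lib.E2

/-- One raw matrix for every species. -/
abbrev RM (σ : Type) : Type := σ → ℕ → ℕ → ℂ

instance instTopRM (σ : Type) : TopologicalSpace (RM σ) := Pi.topologicalSpace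

/-- The upper left corner of a raw matrix. -/
def mat (f : ℕ → ℕ → ℂ) (a b : ℕ) : Matrix (Fin a) (Fin b) ℂ := Matrix.of fun i j => f i j

/-- A raw morphism: an isometry and two projections for every species. -/
abbrev Raw (σ : Type) : Type := RM σ × RM σ × RM σ

variable {σ ι : Type}

/-- An isometry from `ν` modes to `ν'` modes and two orthogonal projections on the complement. -/
structure Valid (ν ν' : σ → ℕ) (q : Raw σ) : Prop where
  iso : ∀ a, (mat (q.1 a) (ν' a) (ν a))ᴴ * mat (q.1 a) (ν' a) (ν a) = 1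
  p1 : ∀ a, IsStarProjection (mat (q.2.1 a) (ν' a) (ν' a))
  p2 : ∀ a, IsStarProjection (mat (q.2.2 a) (ν' a) (ν' a))
  p12 : ∀ a, mat (q.2.1 a) (ν' a) (ν' a) * mat (q.2.2 a) (ν' a) (ν' a) = 0
  p1φ : ∀ a, mat (q.2.1 a) (ν' a) (ν' a) * mat (q.1 a) (ν' a) (ν a) = 0
  p2φ : ∀ a, mat (q.2.2 a) (ν' a) (ν' a) * mat (q.1 a) (ν' a) (ν a) = 0

/-- The identity morphism. -/
structure IsId (ν : σ → ℕ) (q : Raw σ) : Prop where
  φ : ∀ a, mat (q.1 a) (ν a) (ν a) = 1
  p1 : ∀ a, mat (q.2.1 a) (ν a) (ν a) = 0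
  p2 : ∀ a, mat (q.2.2 a) (ν a) (ν a) = 0

/-- `q''` is `q` followed by `q'`. -/
structure IsComp (ν ν' ν'' : σ → ℕ) (q q' q'' : Raw σ) : Prop where
  φ : ∀ a, mat (q''.1 a) (ν'' a) (ν a) = mat (q'.1 a) (ν'' a) (ν' a) * mat (q.1 a) (ν' a) (ν a)
  p1 : ∀ a, mat (q''.2.1 a) (ν'' a) (ν'' a) = mat (q'.2.1 a) (ν'' a) (ν'' a) +
    mat (q'.1 a) (ν'' a) (ν' a) * mat (q.2.1 a) (ν' a) (ν' a) * (mat (q'.1 a) (ν'' a) (ν' a))ᴴ
  p2 : ∀ a, mat (q''.2.2 a) (ν'' a) (ν'' a) = mat (q'.2.2 a) (ν'' a) (ν'' a) +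
    mat (q'.1 a) (ν'' a) (ν' a) * mat (q.2.2 a) (ν' a) (ν' a) * (mat (q'.1 a) (ν'' a) (ν' a))ᴴ

/-- An orthogonal decomposition of the `ν` modes into copies of the `νs s` modes. -/
structure IsBlk {S : Type} (νs : S → σ → ℕ) (ν : σ → ℕ) (β : S → RM σ) : Prop where
  iso : ∀ s a, (mat (β s a) (ν a) (νs s a))ᴴ * mat (β s a) (ν a) (νs s a) = 1
  orth : ∀ s t, s ≠ t → ∀ a, (mat (β s a) (ν a) (νs s a))ᴴ * mat (β t a) (ν a) (νs t a) = 0
  sum : ∀ a, ∑ᶠ s, mat (β s a) (ν a) (νs s a) * (mat (β s a) (ν a) (νs s a))ᴴ = 1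

/-- The character of weight `w` of the torus. -/
def phase [Fintype ι] (t : ι → Circle) (w : ι → ℤ) : ℂ := ∏ i, (t i : ℂ) ^ w i

/-- The morphism `q` is the block sum of the `qs s` up to torus phases. -/
structure Compat [Fintype ι] (wt : σ → ι → ℤ) {S : Type} (νs νs' : S → σ → ℕ) (ν ν' : σ → ℕ)
    (β β' : S → RM σ) (qs : S → Raw σ) (q : Raw σ) : Prop where
  φ : ∃ t : S → ι → Circle, ∀ s a, mat (q.1 a) (ν' a) (ν a) * mat (β s a) (ν a) (νs s a) =
    phase (t s) (wt a) • (mat (β' s a) (ν' a) (νs' s a) * mat ((qs s).1 a) (νs' s a) (νs s a))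
  p1 : ∀ a, mat (q.2.1 a) (ν' a) (ν' a) = ∑ᶠ s, mat (β' s a) (ν' a) (νs' s a) *
    mat ((qs s).2.1 a) (νs' s a) (νs' s a) * (mat (β' s a) (ν' a) (νs' s a))ᴴ
  p2 : ∀ a, mat (q.2.2 a) (ν' a) (ν' a) = ∑ᶠ s, mat (β' s a) (ν' a) (νs' s a) *
    mat ((qs s).2.2 a) (νs' s a) (νs' s a) * (mat (β' s a) (ν' a) (νs' s a))ᴴ

/-- Laurent polynomials. -/
abbrev LauR (ι : Type) : Type := AddMonoidAlgebra ℤ (ι → ℤ)

/-- A monomial. -/
def mono (w : ι → ℤ) : LauR ι := AddMonoidAlgebra.single w 1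

/-- The weights of the exterior algebra on `ν a` modes of weight `wt a`. -/
def wts [Fintype σ] (wt : σ → ι → ℤ) (ν : σ → ℕ) : Set (ι → ℤ) :=
  {w | ∃ k : σ → ℕ, (∀ a, k a ≤ ν a) ∧ w = ∑ a, k a • wt a}

/-- The three ways to fill new modes. -/
inductive Ty : Type
  | free
  | vac
  | top
  deriving DecidableEq

/-- The character of one mode of weight `w`. -/
def Ty.ch (w : ι → ℤ) : Ty → LauR ι
  | .free => 1 - mono w
  | .vac => 1
  | .top => -mono w

/-- The weight of a species: the indicator function of its set of colours. -/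
def wtOf [DecidableEq ι] (pos : σ → Finset ι) (a : σ) (i : ι) : ℤ := if i ∈ pos a then 1 else 0

/-- The number of modes of each species for a divisor of multidegree `n`. -/
def nuOf (pos : σ → Finset ι) (n : ι → ℕ) (a : σ) : ℕ := ∑ i ∈ pos a, n i

/-- The index of a chain of length `m`: the degree of the first object and the degrees `(a, b)`
of the successive morphisms. -/
abbrev Idx (ι : Type) (m : ℕ) : Type := (ι → ℕ) × (Fin m → (ι → ℕ) × (ι → ℕ))

/-- The degree acting in the `i`-th face. -/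
def Idx.act {m : ℕ} (i : Fin (m + 2)) (δ : Idx ι (m + 1)) : (ι → ℕ) × (ι → ℕ) :=
  Fin.cases (δ.2 0) (fun _ => 0) i

/-- The index of the `i`-th face. -/
def Idx.pull {m : ℕ} (i : Fin (m + 2)) (δ : Idx ι (m + 1)) : Idx ι m :=
  (δ.1 + (δ.act i).1 + (δ.act i).2,
    Fin.cases (Fin.tail δ.2) (fun j => Fin.contractNth j (· + ·) δ.2) i)

end Pool.Agent.Lib.E2
end
end

-- part Pool.Agent.Lib.MP_10be03_gt.Simp
section

/-!
Semi-simplicial spaces with base sets, their fat realisation with all base points collapsed,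
semi-simplicial sequential spectra, cell data and the statement of the cellular theorem.
-/

noncomputable section
open scoped unitInterval Topology

namespace Pool.Agent.Lib.E2

/-- The topological simplex. -/
abbrev Dl (m : ℕ) : Type := stdSimplex ℝ (Fin (m + 1))

/-- A semi-simplicial space with closed base sets `Z m` and one chosen base vertex. -/
structure SSpace where
  X : ℕ → Type
  [top : ∀ m, TopologicalSpace (X m)]
  [t2 : ∀ m, T2Space (X m)]
  Z : ∀ m, Set (X m)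
  closed_Z : ∀ m, IsClosed (Z m)
  pt : X 0
  pt_mem : pt ∈ Z 0
  face : ∀ {m m' : ℕ}, (Fin (m + 1) ↪o Fin (m' + 1)) → X m' → X m
  cont_face : ∀ {m m' : ℕ} (ψ : Fin (m + 1) ↪o Fin (m' + 1)), Continuous (face ψ)
  face_id : ∀ {m : ℕ} (ψ : Fin (m + 1) ↪o Fin (m + 1)) (x : X m), (∀ i, ψ i = i) → face ψ x = x
  face_comp : ∀ {m m' m'' : ℕ} (ψ : Fin (m + 1) ↪o Fin (m' + 1))
    (χ : Fin (m' + 1) ↪o Fin (m'' + 1)) (x : X m''), face ψ (face χ x) = face (ψ.trans χ) x
  face_Z : ∀ {m m' : ℕ} (ψ : Fin (m + 1) ↪o Fin (m' + 1)) (x : X m'), x ∈ Z m' → face ψ x ∈ Z m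

attribute [instance] SSpace.top SSpace.t2

namespace SSpace

/-- The disjoint union of the spaces `X m × Δ^m`. -/
abbrev Tot (A : SSpace) : Type := Σ m, A.X m × Dl m

/-- The generating relation of the fat realisation with collapsed base sets. -/
inductive Rel (A : SSpace) : A.Tot → A.Tot → Prop
  | face {m m' : ℕ} (ψ : Fin (m + 1) ↪o Fin (m' + 1)) (x : A.X m') (t : Dl m) :
      Rel A ⟨m, A.face ψ x, t⟩ ⟨m', x, stdSimplex.map ψ t⟩
  | base {m : ℕ} (x : A.X m) (t : Dl m) (hx : x ∈ A.Z m) :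
      Rel A ⟨m, x, t⟩ ⟨0, A.pt, stdSimplex.vertex 0⟩

/-- The fat realisation with all base points collapsed to one point. -/
def Re (A : SSpace) : Type := Quot A.Rel

instance instTopRe (A : SSpace) : TopologicalSpace A.Re :=
  inferInstanceAs (TopologicalSpace (Quot A.Rel))

/-- The class of `(x, t)`. -/
def mk' (A : SSpace) (m : ℕ) (x : A.X m) (t : Dl m) : A.Re := Quot.mk _ ⟨m, x, t⟩

/-- The base point of the realisation. -/
def base (A : SSpace) : A.Re := A.mk' 0 A.pt (stdSimplex.vertex 0)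

theorem mk'_of_mem (A : SSpace) {m : ℕ} {x : A.X m} (hx : x ∈ A.Z m) (t : Dl m) :
    A.mk' m x t = A.base := Quot.sound (Rel.base x t hx)

theorem mk'_face (A : SSpace) {m m' : ℕ} (ψ : Fin (m + 1) ↪o Fin (m' + 1)) (x : A.X m')
    (t : Dl m) : A.mk' m (A.face ψ x) t = A.mk' m' x (stdSimplex.map ψ t) :=
  Quot.sound (Rel.face ψ x t)

theorem continuous_mk' (A : SSpace) (m : ℕ) :
    Continuous fun p : A.X m × Dl m => A.mk' m p.1 p.2 :=
  continuous_quot_mk.comp (@continuous_sigmaMk ℕ (fun m => A.X m × Dl m) _ m)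

/-- The map of realisations induced by a levelwise map compatible with faces and base sets. -/
def map (A A' : SSpace) (f : ∀ m, A.X m → A'.X m)
    (hf : ∀ {m m' : ℕ} (ψ : Fin (m + 1) ↪o Fin (m' + 1)) (x : A.X m'),
      f m (A.face ψ x) = A'.face ψ (f m' x))
    (hZ : ∀ m x, x ∈ A.Z m → f m x ∈ A'.Z m) : A.Re → A'.Re :=
  Quot.lift (fun p => A'.mk' p.1 (f p.1 p.2.1) p.2.2) (by
    rintro _ _ (⟨ψ, x, t⟩ | ⟨x, t, hx⟩)
    · change A'.mk' _ (f _ (A.face ψ x)) t = _
      rw [hf, mk'_face]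
    · exact (A'.mk'_of_mem (hZ _ _ hx) _).trans (A'.mk'_of_mem (hZ _ _ A.pt_mem) _).symm)

theorem map_mk' (A A' : SSpace) (f : ∀ m, A.X m → A'.X m) (hf) (hZ) (m : ℕ) (x : A.X m)
    (t : Dl m) : A.map A' f hf hZ (A.mk' m x t) = A'.mk' m (f m x) t := rfl

/-- Joint continuity of a family of induced maps over a locally compact parameter space. -/
theorem continuous_map (A A' : SSpace) {P : Type} [TopologicalSpace P] [LocallyCompactSpace P]
    (f : P → ∀ m, A.X m → A'.X m)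
    (hf : ∀ p {m m' : ℕ} (ψ : Fin (m + 1) ↪o Fin (m' + 1)) (x : A.X m'),
      f p m (A.face ψ x) = A'.face ψ (f p m' x))
    (hZ : ∀ p m x, x ∈ A.Z m → f p m x ∈ A'.Z m)
    (hc : ∀ m, Continuous fun q : P × A.X m => f q.1 m q.2) :
    Continuous fun q : P × A.Re => A.map A' (f q.1) (hf q.1) (hZ q.1) q.2 := by
  refine (isQuotientMap_quot_mk (r := A.Rel)).continuous_lift_prod_right ?_
  have h : Continuous fun q : Σ m, (A.X m × Dl m) × P =>
      A'.mk' q.1 (f q.2.2 q.1 q.2.1.1) q.2.1.2 :=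
    continuous_sigma fun m => (A'.continuous_mk' m).comp
      (((hc m).comp (continuous_snd.prodMk (continuous_fst.comp continuous_fst))).prodMk
        (continuous_snd.comp continuous_fst))
  exact (h.comp (Homeomorph.sigmaProdDistrib (X := fun m => A.X m × Dl m)
    (Y := P)).continuous).comp continuous_swap

end SSpace

/-- A semi-simplicial sequential spectrum with base sets. -/
structure SimpSp where
  A : ℕ → SSpace
  sg : ∀ n m, (A n).X m → I → (A (n + 1)).X m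
  cont : ∀ n m, Continuous fun p : (A n).X m × I => sg n m p.1 p.2
  sg_face : ∀ n {m m' : ℕ} (ψ : Fin (m + 1) ↪o Fin (m' + 1)) (x : (A n).X m') (u : I),
    sg n m ((A n).face ψ x) u = (A (n + 1)).face ψ (sg n m' x u)
  sg_Z : ∀ n m x u, x ∈ (A n).Z m → sg n m x u ∈ (A (n + 1)).Z m
  sg_zero : ∀ n m x, sg n m x 0 ∈ (A (n + 1)).Z m
  sg_one : ∀ n m x, sg n m x 1 ∈ (A (n + 1)).Z m

namespace SimpSp

/-- The realisation of a semi-simplicial sequential spectrum. -/
def Real (B : SimpSp) : SSp where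
  X n := (B.A n).Re
  pt n := (B.A n).base
  sg n x u := (B.A n).map (B.A (n + 1)) (fun m y => B.sg n m y u)
    (fun ψ y => B.sg_face n ψ y u) (fun m y hy => B.sg_Z n m y u hy) x
  cont n := ((B.A n).continuous_map (B.A (n + 1)) (P := I) (fun u m y => B.sg n m y u)
    (fun u _ _ ψ y => B.sg_face n ψ y u) (fun u m y hy => B.sg_Z n m y u hy)
    (fun m => (B.cont n m).comp continuous_swap)).comp continuous_swap
  sg_pt n u := (B.A (n + 1)).mk'_of_mem (B.sg_Z n 0 _ u (B.A n).pt_mem) _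
  sg_zero n := by
    rintro ⟨m, x, t⟩
    exact (B.A (n + 1)).mk'_of_mem (B.sg_zero n m x) t
  sg_one n := by
    rintro ⟨m, x, t⟩
    exact (B.A (n + 1)).mk'_of_mem (B.sg_one n m x) t

end SimpSp

/-- Cell data: every simplicial level deforms onto a disjoint union of based spectra. -/
structure Cells (B : SimpSp) where
  idx : ℕ → Type
  Y : ∀ m, idx m → SSp
  pullD : ∀ m, Fin (m + 2) → idx (m + 1) → idx m
  g : ∀ m (i : Fin (m + 2)) (δ : idx (m + 1)), SMap (Y (m + 1) δ) (Y m (pullD m i δ))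
  s : ∀ m δ n, (Y m δ).X n → (B.A n).X m
  cont_s : ∀ m δ n, Continuous (s m δ n)
  s_pt : ∀ m δ n, s m δ n ((Y m δ).pt n) ∈ (B.A n).Z m
  s_sg : ∀ m δ n x u, s m δ (n + 1) ((Y m δ).sg n x u) = B.sg n m (s m δ n x) u
  r : ∀ m n, (B.A n).X m → Σ δ, (Y m δ).X n
  cont_r : ∀ m n, Continuous (r m n)
  r_Z : ∀ m n x, x ∈ (B.A n).Z m → (r m n x).2 = (Y m (r m n x).1).pt n
  r_sg : ∀ m n x u, r m (n + 1) (B.sg n m x u) =
    ⟨(r m n x).1, (Y m (r m n x).1).sg n (r m n x).2 u⟩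
  r_s : ∀ m δ n x, r m n (s m δ n x) = ⟨δ, x⟩
  hom : ∀ m n, (B.A n).X m → I → (B.A n).X m
  cont_hom : ∀ m n, Continuous fun p : (B.A n).X m × I => hom m n p.1 p.2
  hom_zero : ∀ m n x, hom m n x 0 = x
  hom_one : ∀ m n x, hom m n x 1 = s m (r m n x).1 n (r m n x).2
  hom_Z : ∀ m n x u, x ∈ (B.A n).Z m → hom m n x u ∈ (B.A n).Z m
  hom_sg : ∀ m n x u v, hom m (n + 1) (B.sg n m x u) v = B.sg n m (hom m n x v) u
  r_face_s : ∀ m (i : Fin (m + 2)) δ n x,
    r m n ((B.A n).face (Fin.succAboveOrderEmb i) (s (m + 1) δ n x)) =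
      ⟨pullD m i δ, (g m i δ).f n x⟩

namespace Cells

variable {B : SimpSp} (C : Cells B)

open Classical in
/-- The chain groups of the cellular complex. -/
abbrev Ch (a b m : ℕ) : Type := Π₀ δ : C.idx m, (C.Y m δ).Pi a b

open Classical in
/-- The alternating sum of the face maps. -/
def d (a b m : ℕ) : C.Ch a b (m + 1) →+ C.Ch a b m :=
  ∑ i : Fin (m + 2), ((-1 : ℤ) ^ (i : ℕ)) • DFinsupp.sumAddHom fun δ =>
    (DFinsupp.singleAddHom (fun δ => (C.Y m δ).Pi a b) (C.pullD m i δ)).comp ((C.g m i δ).pi a b)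

/-- The inclusion of a vertex cell in the realisation. -/
def vtx (δ : C.idx 0) : SMap (C.Y 0 δ) B.Real where
  f n x := (B.A n).mk' 0 (C.s 0 δ n x) (stdSimplex.vertex 0)
  cont n := ((B.A n).continuous_mk' 0).comp ((C.cont_s 0 δ n).prodMk continuous_const)
  f_pt n := (B.A n).mk'_of_mem (C.s_pt 0 δ n) _
  f_sg n x u := by rw [C.s_sg]; rfl

open Classical in
/-- The augmentation. -/
def aug (a b : ℕ) : C.Ch a b 0 →+ B.Real.Pi a b :=
  DFinsupp.sumAddHom fun δ => (C.vtx δ).pi a b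

end Cells

/-- The cellular theorem (layer H). -/
def CellMain : Prop :=
  ∀ (B : SimpSp) (C : Cells B), (∀ a b m, Function.Exact (C.d a b (m + 1)) (C.d a b m)) →
    ∀ a b, Function.Surjective (C.aug a b) ∧ Function.Exact (C.d a b 0) (C.aug a b)

end Pool.Agent.Lib.E2
end
end
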