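import Mathlib
import Pool.Agent.Lib.MP_10be03_gt.Simp
import Pool.Agent.Lib.MP_10be03_gt.Orth

-- part Pool.Agent.Lib.MP_10be03_gt.KDiag
section

/-!
Diagonalisation of two orthogonal projections along a path of unitary matrices.
-/

noncomputable section
open scoped Matrix

namespace Pool.Agent.Lib.E2

variable {m : Type} [Fintype m] [DecidableEq m]

/-- The coordinate projection of a set of modes. -/
def dgm (Z : Finset m) : Matrix m m ℂ := Matrix.diagonal fun i => if i ∈ Z then 1 else 0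

theorem isStarProjection_dgm (Z : Finset m) : IsStarProjection (dgm Z) := by
  refine ⟨?_, ?_⟩
  · rw [IsIdempotentElem, dgm, Matrix.diagonal_mul_diagonal]
    refine congrArg _ (funext fun i => ?_)
    split_ifs <;> simp
  · rw [IsSelfAdjoint, Matrix.star_eq_conjTranspose, dgm, Matrix.diagonal_conjTranspose]
    refine congrArg _ (funext fun i => ?_)
    rw [Pi.star_apply]
    split_ifs <;> simp

theorem dgm_mul (Z Z' : Finset m) : dgm Z * dgm Z' = dgm (Z ∩ Z') := by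
  rw [dgm, dgm, dgm, Matrix.diagonal_mul_diagonal]
  refine congrArg _ (funext fun i => ?_)
  by_cases h : i ∈ Z <;> by_cases h' : i ∈ Z' <;> simp [h, h']

omit [Fintype m] in
theorem dgm_empty : dgm (∅ : Finset m) = 0 := by
  simp [dgm]

omit [Fintype m] in
theorem dgm_union {Z Z' : Finset m} (h : Disjoint Z Z') : dgm (Z ∪ Z') = dgm Z + dgm Z' := by
  rw [dgm, dgm, dgm, Matrix.diagonal_add]
  refine congrArg _ (funext fun i => ?_)
  by_cases h1 : i ∈ Z
  · simp [h1, Finset.disjoint_left.1 h h1]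
  · simp [h1]

theorem trace_dgm (Z : Finset m) : (dgm Z).trace = Z.card := by
  simp [dgm, Matrix.trace_diagonal]

/-- A real combination of the identity and a matrix. -/
def kdF (v : Matrix m m ℂ) (a b : ℝ) : Matrix m m ℂ := (a : ℂ) • 1 + (b : ℂ) • v

theorem kd_swap {v : Matrix m m ℂ} (hv : vᴴ * v = 1) (a b : ℝ) :
    (kdF v a b)ᴴ * kdF v a b = (kdF v b a)ᴴ * kdF v b a := by
  simp only [kdF, Matrix.conjTranspose_add, Matrix.conjTranspose_smul, Matrix.conjTranspose_one,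
    add_mul, mul_add, smul_mul_assoc, mul_smul_comm, hv, one_mul, mul_one, Complex.star_def,
    Complex.conj_ofReal]
  module

open scoped ComplexOrder in
theorem kd_det {v : Matrix m m ℂ} (hv : vᴴ * v = 1) (h : (1 + v).det ≠ 0) (t : ℝ) :
    (kdF v (1 + t) (1 - t)).det ≠ 0 := by
  intro h0
  obtain ⟨x, hx, e⟩ := Matrix.exists_mulVec_eq_zero_iff.2 h0
  have e1 : ((1 + t : ℝ) : ℂ) • x = -((1 - t : ℝ) : ℂ) • (v *ᵥ x) := by
    rw [kdF, Matrix.add_mulVec, Matrix.smul_mulVec, Matrix.smul_mulVec, Matrix.one_mulVec] at e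
    rw [neg_smul]
    exact eq_neg_of_add_eq_zero_left e
  have e2 : star (v *ᵥ x) ⬝ᵥ (v *ᵥ x) = star x ⬝ᵥ x := by
    rw [Matrix.star_mulVec, Matrix.dotProduct_mulVec, Matrix.vecMul_vecMul, hv,
      Matrix.vecMul_one]
  have e3 := congrArg (fun y => star y ⬝ᵥ y) e1
  simp only [star_smul, smul_dotProduct, dotProduct_smul, e2, star_neg, Complex.star_def,
    Complex.conj_ofReal, smul_eq_mul] at e3
  have e4 : star x ⬝ᵥ x ≠ 0 := fun h => hx (dotProduct_star_self_eq_zero.1 h)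
  have e5 : (t : ℂ) = 0 := by
    have : (4 * (t : ℂ)) * (star x ⬝ᵥ x) = 0 := by
      push_cast at e3
      linear_combination e3
    simpa using (mul_eq_zero.1 this).resolve_right e4
  have e6 : t = 0 := Complex.ofReal_eq_zero.1 e5
  subst e6
  apply h
  simpa [kdF] using h0

theorem kd_path {v : Matrix m m ℂ} (hv : vᴴ * v = 1) (h : (1 + v).det ≠ 0) :
    ∃ γ : ℝ → Matrix m m ℂ, Continuous γ ∧ γ 0 = 1 ∧ γ 1 = v ∧ ∀ t, (γ t)ᴴ * γ t = 1 := by
  have hu : ∀ t, IsUnit (kdF v (1 + t) (1 - t)).det := fun t => (kd_det hv h t).isUnit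
  have c1 : Continuous fun t : ℝ => kdF v (1 - t) (1 + t) := by
    unfold kdF
    fun_prop
  have c2 : Continuous fun t : ℝ => kdF v (1 + t) (1 - t) := by
    unfold kdF
    fun_prop
  refine ⟨fun t => kdF v (1 - t) (1 + t) * (kdF v (1 + t) (1 - t))⁻¹, c1.matrix_mul ?_, ?_, ?_,
    fun t => ?_⟩
  · simp only [Matrix.inv_def, Ring.inverse_eq_inv']
    exact (c2.matrix_det.inv₀ (kd_det hv h)).smul c2.matrix_adjugate
  · have := Matrix.mul_nonsing_inv _ (hu 0)
    rw [add_zero, sub_zero] at this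
    simp only [add_zero, sub_zero, this]
  · have e : kdF v (1 - 1) (1 + 1) = v * kdF v (1 + 1) (1 - 1) := by
      simp [kdF]
    dsimp only
    rw [e, Matrix.mul_nonsing_inv_cancel_right _ _ (hu 1)]
  · rw [Matrix.conjTranspose_mul, Matrix.mul_assoc, ← Matrix.mul_assoc _ (kdF v (1 - t) (1 + t)),
      kd_swap hv, Matrix.mul_nonsing_inv_cancel_right _ _ (hu t), ← Matrix.conjTranspose_mul,
      Matrix.mul_nonsing_inv _ (hu t), Matrix.conjTranspose_one]

theorem exists_unitary_path {u : Matrix m m ℂ} (hu : uᴴ * u = 1) :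
    ∃ γ : ℝ → Matrix m m ℂ, Continuous γ ∧ γ 0 = 1 ∧ γ 1 = u ∧ ∀ t, (γ t)ᴴ * γ t = 1 := by
  obtain ⟨θ, h1, h2⟩ := (Set.Ioc_infinite (neg_lt_self Real.pi_pos)).exists_notMem_finite
    (u.finite_spectrum.image fun z => Complex.arg (-z))
  have h3 : -(Circle.exp θ : ℂ) ∉ spectrum ℂ u := fun h =>
    h2 ⟨_, h, (congrArg Complex.arg (neg_neg _)).trans (Circle.arg_exp h1.1 h1.2)⟩
  have hc : ∀ x : ℝ, star (Circle.exp x : ℂ) * Circle.exp x = 1 := fun x => by
    rw [Complex.star_def, ← Circle.coe_inv_eq_conj, ← Circle.coe_mul, inv_mul_cancel,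
      Circle.coe_one]
  have hs : ∀ (x : ℝ) (w : Matrix m m ℂ), wᴴ * w = 1 →
      ((Circle.exp x : ℂ) • w)ᴴ * ((Circle.exp x : ℂ) • w) = 1 := fun x w hw => by
    rw [Matrix.conjTranspose_smul, smul_mul_assoc, mul_smul_comm, smul_smul, hc, one_smul, hw]
  have h4 : (Circle.exp θ : ℂ) * Circle.exp (-θ) = 1 := by
    rw [← Circle.coe_mul, ← Circle.exp_add, add_neg_cancel, Circle.exp_zero, Circle.coe_one]
  have h5 : (1 + (Circle.exp (-θ) : ℂ) • u).det ≠ 0 := by
    have h6 := spectrum.notMem_iff.1 h3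
    have e : algebraMap ℂ (Matrix m m ℂ) (-(Circle.exp θ : ℂ)) - u =
        (-(Circle.exp θ : ℂ)) • (1 + (Circle.exp (-θ) : ℂ) • u) := by
      rw [Algebra.algebraMap_eq_smul_one, smul_add, smul_smul, neg_mul, h4, neg_smul (1 : ℂ),
        one_smul, sub_eq_add_neg]
    rw [e, Matrix.isUnit_iff_isUnit_det, Matrix.det_smul] at h6
    exact right_ne_zero_of_mul h6.ne_zero
  obtain ⟨γ, g1, g2, g3, g4⟩ := kd_path (hs (-θ) u hu) h5
  refine ⟨fun t => (Circle.exp (t * θ) : ℂ) • γ t, ?_, ?_, ?_, fun t => hs _ _ (g4 t)⟩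
  · exact (continuous_subtype_val.comp
      (Circle.exp.continuous.comp (continuous_id.mul continuous_const))).smul g1
  · simp only [zero_mul, Circle.exp_zero, Circle.coe_one, one_smul, g2]
  · simp only [one_mul, g3, smul_smul, h4, one_smul]

theorem exists_diag_pair {p q : Matrix m m ℂ} (hp : IsStarProjection p) (hq : IsStarProjection q)
    (h : p * q = 0) : ∃ (u : Matrix m m ℂ) (Z Z' : Finset m), uᴴ * u = 1 ∧ Disjoint Z Z' ∧
      p = u * dgm Z * uᴴ ∧ q = u * dgm Z' * uᴴ := by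
  have hp1 : p * p = p := hp.isIdempotentElem
  have hq1 : q * q = q := hq.isIdempotentElem
  have hp2 : pᴴ = p := hp.isSelfAdjoint
  have hq2 : qᴴ = q := hq.isSelfAdjoint
  have h' : q * p = 0 := by
    have := congrArg Matrix.conjTranspose h
    rwa [Matrix.conjTranspose_mul, hp2, hq2, Matrix.conjTranspose_zero] at this
  have hA : (p + q + q).IsHermitian := by
    rw [Matrix.IsHermitian, Matrix.conjTranspose_add, Matrix.conjTranspose_add, hp2, hq2]
  obtain ⟨u, d, hu, hu', e⟩ : ∃ (u : Matrix m m ℂ) (d : m → ℂ), uᴴ * u = 1 ∧ u * uᴴ = 1 ∧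
      p + q + q = u * Matrix.diagonal d * uᴴ :=
    ⟨hA.eigenvectorUnitary, _, Unitary.coe_star_mul_self _, Unitary.coe_mul_star_self _,
      hA.spectral_theorem⟩
  have mul : ∀ a b : m → ℂ, u * Matrix.diagonal a * uᴴ * (u * Matrix.diagonal b * uᴴ) =
      u * Matrix.diagonal (fun i => a i * b i) * uᴴ := fun a b => by
    rw [← Matrix.diagonal_mul_diagonal]
    simp only [Matrix.mul_assoc]
    rw [← Matrix.mul_assoc uᴴ, hu, Matrix.one_mul]
  have lin : ∀ (a b c : m → ℂ) (x y : ℂ), (∀ i, c i = x * a i + y * b i) →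
      u * Matrix.diagonal c * uᴴ =
        x • (u * Matrix.diagonal a * uᴴ) + y • (u * Matrix.diagonal b * uᴴ) := fun a b c x y k => by
    have : Matrix.diagonal c = x • Matrix.diagonal a + y • Matrix.diagonal b := by
      rw [← Matrix.diagonal_smul, ← Matrix.diagonal_smul, Matrix.diagonal_add]
      exact congrArg _ (funext k)
    rw [this, Matrix.mul_add, Matrix.add_mul, Matrix.mul_smul, Matrix.mul_smul, Matrix.smul_mul,
      Matrix.smul_mul]
  have e2 : u * Matrix.diagonal (fun i => d i * d i) * uᴴ = p + (4 : ℂ) • q := by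
    rw [← mul, ← e]
    simp only [add_mul, mul_add, hp1, hq1, h, h']
    module
  have e3 : u * Matrix.diagonal (fun i => d i * d i * d i) * uᴴ = p + (8 : ℂ) • q := by
    rw [← mul (fun i => d i * d i), e2, ← e]
    simp only [add_mul, mul_add, smul_mul_assoc, hp1, hq1, h, h']
    module
  have e4 : ∀ i, d i * d i * d i = 3 * (d i * d i) + (-2) * d i := by
    have e5 : u * Matrix.diagonal (fun i => d i * d i * d i) * uᴴ =
        u * Matrix.diagonal (fun i => 3 * (d i * d i) + (-2) * d i) * uᴴ := by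
      rw [lin (fun i => d i * d i) d _ 3 (-2) fun _ => rfl, e3, e2, ← e]
      module
    have e6 := congrArg (fun x => uᴴ * x * u) e5
    simp only [Matrix.mul_assoc, hu, Matrix.mul_one] at e6
    simp only [← Matrix.mul_assoc, hu, Matrix.one_mul] at e6
    exact Matrix.diagonal_eq_diagonal_iff.1 e6
  have e5 : ∀ i, d i = 0 ∨ d i = 1 ∨ d i = 2 := fun i => by
    have : d i * ((d i - 1) * (d i - 2)) = 0 := by linear_combination e4 i
    simpa only [mul_eq_zero, sub_eq_zero] using this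
  refine ⟨u, Finset.univ.filter fun i => d i = 1, Finset.univ.filter fun i => d i = 2, hu,
    Finset.disjoint_filter.2 fun i _ h1 h2 => ?_, ?_, ?_⟩
  · rw [h1] at h2
    norm_num at h2
  · rw [dgm, lin (fun i => d i * d i) d _ (-1) 2 fun i => ?_, e2, ← e]
    · module
    · rcases e5 i with k | k | k <;> norm_num [k]
  · rw [dgm, lin (fun i => d i * d i) d _ (1 / 2) (-1 / 2) fun i => ?_, e2, ← e]
    · module
    · rcases e5 i with k | k | k <;> norm_num [k]

/-- A projection is a sum of rank one projections of an orthonormal list in its range. -/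
theorem exists_on_list {p : Matrix m m ℂ} (hp : IsStarProjection p) :
    ∃ l : List (EuclideanSpace ℂ m), (∀ f ∈ l, inner ℂ f f = 1) ∧
      (l.Pairwise fun f g => inner ℂ f g = 0) ∧ (∀ f ∈ l, p *ᵥ WithLp.ofLp f = WithLp.ofLp f) ∧
      l.length ≤ Fintype.card m ∧
      p = (l.map fun f => Matrix.vecMulVec (WithLp.ofLp f) (star (WithLp.ofLp f))).sum := by
  obtain ⟨u, Z, -, hu, -, e, -⟩ := exists_diag_pair hp (IsStarProjection.zero _) (mul_zero p)
  have hi : ∀ j k, inner ℂ (WithLp.toLp 2 fun i => u i j : EuclideanSpace ℂ m)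
      (WithLp.toLp 2 fun i => u i k) = if j = k then 1 else 0 := fun j k => by
    rw [← Matrix.one_apply, ← hu, EuclideanSpace.inner_toLp_toLp, Matrix.mul_apply, dotProduct]
    exact Finset.sum_congr rfl fun i _ => mul_comm _ _
  have hpu : p * u = u * dgm Z := by rw [e, Matrix.mul_assoc, hu, Matrix.mul_one]
  refine ⟨Z.toList.map fun j => WithLp.toLp 2 fun i => u i j, fun f hf => ?_, ?_, fun f hf => ?_,
    ?_, ?_⟩
  · obtain ⟨j, -, rfl⟩ := List.mem_map.1 hf
    rw [hi, if_pos rfl]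
  · exact List.pairwise_map.2 (Z.nodup_toList.imp fun h => by rw [hi, if_neg h])
  · obtain ⟨j, hj, rfl⟩ := List.mem_map.1 hf
    funext i
    have := congrFun (congrFun hpu i) j
    rw [dgm, Matrix.mul_diagonal, if_pos (Finset.mem_toList.1 hj), mul_one] at this
    exact this
  · rw [List.length_map, Finset.length_toList]
    exact Z.card_le_univ
  · rw [List.map_map, Finset.sum_map_toList, e]
    ext a b
    rw [Matrix.sum_apply, Matrix.mul_apply]
    simp only [dgm, Matrix.mul_diagonal, mul_ite, mul_one, mul_zero, ite_mul, zero_mul,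
      Finset.sum_ite_mem, Finset.univ_inter]
    rfl

omit [DecidableEq m] in
theorem length_le_of_on {l : List (EuclideanSpace ℂ m)} (h1 : ∀ f ∈ l, inner ℂ f f = 1)
    (h2 : l.Pairwise fun f g => inner ℂ f g = 0) : l.length ≤ Fintype.card m := by
  have h : Orthonormal ℂ l.get := by
    rw [orthonormal_iff_ite]
    intro i j
    rcases lt_trichotomy i j with k | rfl | k
    · rw [if_neg k.ne, h2.rel_get_of_lt k]
    · rw [if_pos rfl, h1 _ (List.get_mem l i)]
    · rw [if_neg k.ne', inner_eq_zero_symm, h2.rel_get_of_lt k]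
  have := h.linearIndependent.fintype_card_le_finrank
  rwa [Fintype.card_fin, finrank_euclideanSpace] at this

end Pool.Agent.Lib.E2
end
end

-- part Pool.Agent.Lib.MP_10be03_gt.KXAlg
section

/-!
The algebra of characters.
-/

noncomputable section
open scoped TensorProduct

namespace Pool.Agent.Lib.E2

variable {ι m σ : Type}

/-- The weight of a set of modes. -/
def wJ (w : m → ι → ℤ) (J : Finset m) : ι → ℤ := ∑ k ∈ J, w k

/-- The signed monomial of a set of modes. -/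
def chJ (w : m → ι → ℤ) (J : Finset m) : LauR ι := (-1) ^ J.card * mono (wJ w J)

open Classical in
/-- The set of all weights. -/
def wAll [Fintype m] (w : m → ι → ℤ) : Finset (ι → ℤ) := Finset.univ.image (wJ w)

open Classical in
/-- The sets of modes containing `Zt` and disjoint from `Zv`. -/
def btw [Fintype m] (Zv Zt : Finset m) : Finset (Finset m) :=
  Finset.univ.filter fun K => Zt ⊆ K ∧ Disjoint K Zv

theorem kx_tmul {M : Type} [AddCommGroup M] (w : m → ι → ℤ) (J : Finset m) (y : M) :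
    chJ w J ⊗ₜ[ℤ] y = mono (wJ w J) ⊗ₜ[ℤ] ((-1 : ℤ) ^ J.card • y) := by
  rw [← TensorProduct.smul_tmul, chJ, zsmul_eq_mul, Int.cast_pow, Int.cast_neg, Int.cast_one]

theorem kx_sq {M : Type} [AddCommGroup M] (n : ℕ) (y : M) :
    (-1 : ℤ) ^ n • (-1 : ℤ) ^ n • y = y := by
  rw [smul_smul, ← mul_pow, neg_mul_neg, mul_one, one_pow, one_smul]

open Classical in
theorem kx_proj (M : Type) [AddCommGroup M] (l : ι → ℤ) : ∃ π : LauR ι ⊗[ℤ] M →ₗ[ℤ] M,
    ∀ l' y, π (mono l' ⊗ₜ[ℤ] y) = if l' = l then y else 0 := by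
  refine ⟨(TensorProduct.lid ℤ M).toLinearMap ∘ₗ LinearMap.rTensor M
    (Finsupp.lapply l ∘ₗ (AddMonoidAlgebra.coeffLinearEquiv ℤ).toLinearMap), fun l' y => ?_⟩
  change (Finsupp.single l' (1 : ℤ) l) • y = _
  rw [Finsupp.single_apply]
  split_ifs
  · exact one_smul _ _
  · exact zero_smul _ _

open Classical in
theorem exists_chi {M N : Type} [Fintype m] [AddCommGroup M] [AddCommGroup N] (w : m → ι → ℤ)
    (i : Finset m → M →+ N) (c : (ι → ℤ) → N →+ N)
    (hrel : ∀ I J, wJ w I = wJ w J → ∀ y, i J y = (-1 : ℤ) ^ (I.card + J.card) • i I y)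
    (hinj : ∀ I, Function.Injective (i I)) (hrng : ∀ I x, c (wJ w I) x ∈ (i I).range)
    (hsum : ∀ x, x = ∑ l ∈ wAll w, c l x)
    (hci : ∀ l J y, c l (i J y) = if wJ w J = l then i J y else 0) :
    ∃ χ : N →+ LauR ι ⊗[ℤ] M, Function.Injective χ ∧
      (∀ J y, χ (i J y) = chJ w J ⊗ₜ[ℤ] y) ∧
      (∀ x, x ∈ AddSubgroup.closure {z | ∃ J y, z = i J y}) ∧
      χ.range = AddSubgroup.closure {z | ∃ J y, z = mono (wJ w J) ⊗ₜ[ℤ] y} := by
  let I : (ι → ℤ) → Finset m := Function.invFun (wJ w)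
  have hI : ∀ l ∈ wAll w, wJ w (I l) = l := fun l hl => by
    obtain ⟨J, -, hJ⟩ := Finset.mem_image.1 hl
    exact Function.invFun_eq ⟨J, hJ⟩
  have hm : ∀ J, wJ w J ∈ wAll w := fun J => Finset.mem_image_of_mem _ (Finset.mem_univ J)
  choose r hr using fun l x => hrng (I l) x
  let R : (ι → ℤ) → N →+ M := fun l => AddMonoidHom.mk' (r l) fun x y => hinj (I l) (by
    rw [map_add, hr, hr, hr, map_add])
  let χ : N →+ LauR ι ⊗[ℤ] M := ∑ l ∈ wAll w,
    (TensorProduct.mk ℤ (LauR ι) M (chJ w (I l))).toAddMonoidHom.comp (R l)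
  have hχ : ∀ x, χ x = ∑ l ∈ wAll w, mono l ⊗ₜ[ℤ] ((-1 : ℤ) ^ (I l).card • r l x) := fun x => by
    rw [AddMonoidHom.finsetSum_apply]
    refine Finset.sum_congr rfl fun l hl => ?_
    exact (kx_tmul w (I l) (r l x)).trans (by rw [hI l hl])
  have h1 : ∀ J y, χ (i J y) = chJ w J ⊗ₜ[ℤ] y := fun J y => by
    rw [hχ, Finset.sum_eq_single_of_mem _ (hm J) fun l hl hne => ?_, kx_tmul]
    · have e : r (wJ w J) (i J y) = (-1 : ℤ) ^ ((I (wJ w J)).card + J.card) • y :=
        hinj (I (wJ w J)) (by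
          rw [hr, hI _ (hm J), hci, if_pos rfl, map_zsmul, ← hrel _ J (hI _ (hm J))])
      rw [e, pow_add, mul_smul, kx_sq]
    · have e : r l (i J y) = 0 := hinj (I l) (by
        rw [hr, hI l hl, hci, if_neg hne.symm, map_zero])
      rw [e, smul_zero, TensorProduct.tmul_zero]
  refine ⟨χ, (injective_iff_map_eq_zero χ).2 fun x hx => ?_, h1, fun x => ?_,
    le_antisymm ?_ ((AddSubgroup.closure_le _).2 ?_)⟩
  · rw [hsum x]
    refine Finset.sum_eq_zero fun l hl => ?_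
    obtain ⟨π, hπ⟩ := kx_proj M l
    have e := congrArg π hx
    rw [hχ, map_sum, map_zero, Finset.sum_eq_single_of_mem l hl fun l' _ hne => by
      rw [hπ, if_neg hne], hπ, if_pos rfl] at e
    rw [← hI l hl, ← hr, ← kx_sq (I l).card (r l x), e, smul_zero, map_zero]
  · rw [hsum x]
    exact sum_mem fun l hl => AddSubgroup.subset_closure ⟨I l, r l x, by rw [hr, hI l hl]⟩
  · rintro _ ⟨x, rfl⟩
    rw [hχ]
    exact sum_mem fun l hl => AddSubgroup.subset_closure ⟨I l, _, by rw [hI l hl]⟩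
  · rintro _ ⟨J, y, rfl⟩
    exact ⟨i J ((-1 : ℤ) ^ J.card • y), by rw [h1, kx_tmul, kx_sq]⟩

theorem kx_zero : mono (0 : ι → ℤ) = 1 := rfl

theorem kx_add (a b : ι → ℤ) : mono (a + b) = mono a * mono b := by
  rw [mono, mono, mono, AddMonoidAlgebra.single_mul_single, mul_one]

theorem chJ_empty (w : m → ι → ℤ) : chJ w ∅ = 1 := by
  rw [chJ, wJ, Finset.card_empty, pow_zero, Finset.sum_empty, kx_zero, mul_one]

theorem kx_chJ (w : m → ι → ℤ) (J : Finset m) : chJ w J = ∏ k ∈ J, -mono (w k) := by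
  induction J using Finset.cons_induction with
  | empty => exact chJ_empty w
  | cons a J ha ih =>
    rw [Finset.prod_cons, ← ih, chJ, chJ, wJ, wJ, Finset.sum_cons, Finset.card_cons, kx_add]
    ring

/-- The modes of a dimension vector. -/
abbrev Md (ν : σ → ℕ) : Type := Σ a, Fin (ν a)

/-- The part of a set of modes in one species. -/
def fib [DecidableEq σ] {ν : σ → ℕ} (J : Finset (Md ν)) (a : σ) : Finset (Fin (ν a)) :=
  Finset.univ.filter fun k => (⟨a, k⟩ : Md ν) ∈ J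

theorem kx_sigma [Fintype σ] [DecidableEq σ] {ν : σ → ℕ} (J : Finset (Md ν)) :
    Finset.univ.sigma (fib J) = J := by
  ext ⟨a, k⟩
  simp [fib]

theorem kx_prod [Fintype σ] [DecidableEq σ] {ν : σ → ℕ} {A : Type} [CommMonoid A] (f : σ → A)
    (J : Finset (Md ν)) : ∏ k ∈ J, f k.1 = ∏ a, f a ^ (fib J a).card := by
  conv_lhs => rw [← kx_sigma J, Finset.prod_sigma]
  simp only [Finset.prod_const]

theorem mem_wts_iff [Fintype σ] (wt : σ → ι → ℤ) (ν : σ → ℕ) (l : ι → ℤ) :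
    l ∈ wts wt ν ↔ ∃ J : Finset (Md ν), l = wJ (fun k : Md ν => wt k.1) J := by
  classical
  constructor
  · rintro ⟨k, hk, rfl⟩
    refine ⟨Finset.univ.sigma fun a => Finset.univ.filter fun j : Fin (ν a) => j.val < k a, ?_⟩
    rw [wJ, Finset.sum_sigma]
    refine Finset.sum_congr rfl fun a _ => ?_
    simp only [Finset.sum_const]
    rw [Fin.card_filter_val_lt, min_eq_right (hk a)]
  · rintro ⟨J, rfl⟩
    refine ⟨fun a => (fib J a).card, fun a => (Finset.card_le_univ _).trans_eq (Fintype.card_fin _),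
      ?_⟩
    conv_lhs => rw [wJ, ← kx_sigma J, Finset.sum_sigma]
    simp only [Finset.sum_const]

theorem sum_btw [Fintype σ] [DecidableEq σ] (wt : σ → ι → ℤ) (ν ν' nv nt nf : σ → ℕ)
    (J : Finset (Md ν)) (Zv Zt : Finset (Md ν')) (hd : Disjoint Zv Zt)
    (hv : ∀ a, (fib Zv a).card + (fib J a).card = nv a + ν a)
    (ht : ∀ a, (fib Zt a).card = nt a + (fib J a).card)
    (hν : ∀ a, ν' a = ν a + nv a + nt a + nf a) :
    ∑ K ∈ btw Zv Zt, chJ (fun k : Md ν' => wt k.1) K =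
      (∏ s, (-mono (wt s)) ^ nt s * (1 - mono (wt s)) ^ nf s) *
        chJ (fun k : Md ν => wt k.1) J := by
  have h1 : ∑ K ∈ btw Zv Zt, chJ (fun k : Md ν' => wt k.1) K =
      ∑ T ∈ (Zv ∪ Zt)ᶜ.powerset, (∏ k ∈ Zt, -mono (wt k.1)) * ∏ k ∈ T, -mono (wt k.1) := by
    refine Finset.sum_nbij' (fun K => K \ Zt) (fun T => Zt ∪ T) (fun K hK => ?_) (fun T hT => ?_)
      (fun K hK => ?_) (fun T hT => ?_) fun K hK => ?_
    · simp only [btw, Finset.mem_filter, Finset.mem_univ, true_and] at hK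
      refine Finset.mem_powerset.2 fun k hk => ?_
      rw [Finset.mem_sdiff] at hk
      rw [Finset.mem_compl, Finset.mem_union]
      exact fun h => h.elim (Finset.disjoint_left.1 hK.2 hk.1) hk.2
    · simp only [btw, Finset.mem_filter, Finset.mem_univ, true_and]
      exact ⟨Finset.subset_union_left, Finset.disjoint_union_left.2 ⟨hd.symm,
        Finset.disjoint_left.2 fun k hk h => Finset.mem_compl.1 (Finset.mem_powerset.1 hT hk)
          (Finset.mem_union_left _ h)⟩⟩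
    · simp only [btw, Finset.mem_filter, Finset.mem_univ, true_and] at hK
      exact Finset.union_sdiff_of_subset hK.1
    · exact Finset.union_sdiff_cancel_left (Finset.disjoint_left.2 fun k hk h =>
        Finset.mem_compl.1 (Finset.mem_powerset.1 hT h) (Finset.mem_union_right _ hk))
    · simp only [btw, Finset.mem_filter, Finset.mem_univ, true_and] at hK
      rw [kx_chJ, mul_comm, Finset.prod_sdiff hK.1]
  have h2 : ∀ a, (fib (Zv ∪ Zt)ᶜ a).card = nf a := fun a => by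
    have e : fib (Zv ∪ Zt)ᶜ a = (fib Zv a ∪ fib Zt a)ᶜ := by
      ext k
      simp [fib]
    have e2 : Disjoint (fib Zv a) (fib Zt a) := Finset.disjoint_left.2 fun k hk h =>
      Finset.disjoint_left.1 hd (Finset.mem_filter.1 hk).2 (Finset.mem_filter.1 h).2
    rw [e, Finset.card_compl, Finset.card_union_of_disjoint e2, Fintype.card_fin]
    have := hv a
    have := ht a
    have := hν a
    omega
  rw [h1, ← Finset.mul_sum, ← Finset.prod_one_add, kx_chJ, kx_prod fun a => -mono (wt a),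
    kx_prod fun a => -mono (wt a), kx_prod fun a => 1 + -mono (wt a), ← Finset.prod_mul_distrib,
    ← Finset.prod_mul_distrib]
  refine Finset.prod_congr rfl fun a _ => ?_
  rw [h2, ht, pow_add, sub_eq_add_neg, mul_right_comm]

end Pool.Agent.Lib.E2
end
end

-- part Pool.Agent.Lib.MP_10be03_gt.KXU
section

/-!
A pair of orthogonal projections is joined to a diagonal pair by a path.
-/

noncomputable section
open scoped Matrix unitInterval

namespace Pool.Agent.Lib.E2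

variable {n : Type} [Fintype n] [DecidableEq n]

theorem kx_dgm_disj {Z Z' : Finset n} (h : Disjoint Z Z') : dgm Z * dgm Z' = 0 := by
  rw [dgm_mul, Finset.disjoint_iff_inter_eq_empty.1 h, dgm_empty]

theorem exists_proj_path (p q : Matrix n n ℂ) (hp : IsStarProjection p) (hq : IsStarProjection q)
    (hpq : p * q = 0) : ∃ (Zv Zt : Finset n) (P Q : I → Matrix n n ℂ), Disjoint Zv Zt ∧
      Continuous P ∧ Continuous Q ∧ (∀ s, IsStarProjection (P s)) ∧
      (∀ s, IsStarProjection (Q s)) ∧ (∀ s, P s * Q s = 0) ∧ P 0 = dgm Zv ∧ Q 0 = dgm Zt ∧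
      P 1 = p ∧ Q 1 = q ∧ p.trace = Zv.card ∧ q.trace = Zt.card := by
  obtain ⟨U, Zv, Zt, hU, hd, rfl, rfl⟩ := exists_diag_pair hp hq hpq
  obtain ⟨γ, hγ, h0', h1', hu'⟩ := exists_unitary_path hU
  obtain ⟨u, hc, hu, h0, rfl⟩ : ∃ u : I → Matrix n n ℂ, Continuous u ∧ (∀ s, (u s)ᴴ * u s = 1) ∧
      u 0 = 1 ∧ u 1 = U := ⟨fun s => γ s, hγ.comp continuous_subtype_val, fun s => hu' s, h0', h1'⟩
  have hm : ∀ s (x y : Matrix n n ℂ), u s * x * (u s)ᴴ * (u s * y * (u s)ᴴ) =
      u s * (x * y) * (u s)ᴴ := fun s x y => by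
    simp only [mul_assoc]
    rw [← mul_assoc (u s)ᴴ, hu, one_mul]
  have hs : ∀ s (Z : Finset n), IsStarProjection (u s * dgm Z * (u s)ᴴ) := fun s Z =>
    ⟨by rw [IsIdempotentElem, hm, (isStarProjection_dgm Z).isIdempotentElem.eq],
      (isStarProjection_dgm Z).isSelfAdjoint.conjugate _⟩
  have ht : ∀ Z : Finset n, (u 1 * dgm Z * (u 1)ᴴ).trace = Z.card := fun Z => by
    rw [Matrix.trace_mul_cycle, hu, one_mul, trace_dgm]
  exact ⟨Zv, Zt, fun s => u s * dgm Zv * (u s)ᴴ, fun s => u s * dgm Zt * (u s)ᴴ, hd,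
    (hc.mul continuous_const).mul hc.matrix_conjTranspose,
    (hc.mul continuous_const).mul hc.matrix_conjTranspose, fun s => hs s _, fun s => hs s _,
    fun s => by rw [hm, kx_dgm_disj hd, mul_zero, zero_mul], by simp [h0], by simp [h0],
    rfl, rfl, ht _, ht _⟩

end Pool.Agent.Lib.E2
end
end

-- part Pool.Agent.Lib.MP_10be03_gt.IfD
section

/-!
The interface of layer D: chains in the category of coloured divisors in the disc.
-/

noncomputable section
open scoped Matrix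

namespace Pool.Agent.Lib.E2

/-- The nerve `Ch` of the divisor category with the mode morphisms `mor`, the deformation onto
standard chains, and the action of the operad with its block decompositions `blk`. -/
structure DData (O : Operad) {ι σ : Type} [Fintype ι] [DecidableEq ι] (pos : σ → Finset ι) where
  Ch : ℕ → Type
  [top : ∀ m, TopologicalSpace (Ch m)]
  t2 : ∀ m, T2Space (Ch m)
  fc : ∀ m, FirstCountableTopology (Ch m)
  pull : ∀ {m m' : ℕ}, (Fin (m + 1) →o Fin (m' + 1)) → Ch m' → Ch m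
  cont_pull : ∀ {m m' : ℕ} (ψ : Fin (m + 1) →o Fin (m' + 1)), Continuous (pull ψ)
  pull_id : ∀ {m : ℕ} (ψ : Fin (m + 1) →o Fin (m + 1)) (x : Ch m), (∀ i, ψ i = i) → pull ψ x = x
  pull_comp : ∀ {m m' m'' : ℕ} (ψ : Fin (m + 1) →o Fin (m' + 1))
    (χ : Fin (m' + 1) →o Fin (m'' + 1)) (x : Ch m''), pull ψ (pull χ x) = pull (χ.comp ψ) x
  deg : ∀ {m : ℕ}, Ch m → Fin (m + 1) → ι → ℕ
  dg : ∀ {m : ℕ}, Ch m → Fin (m + 1) → Fin (m + 1) → (ι → ℕ) × (ι → ℕ)
  lc_deg : ∀ m (i : Fin (m + 1)), IsLocallyConstant fun x : Ch m => deg x i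
  lc_dg : ∀ m (i j : Fin (m + 1)), i ≤ j → IsLocallyConstant fun x : Ch m => dg x i j
  deg_pull : ∀ {m m' : ℕ} (ψ : Fin (m + 1) →o Fin (m' + 1)) (x : Ch m') (i : Fin (m + 1)),
    deg (pull ψ x) i = deg x (ψ i)
  dg_pull : ∀ {m m' : ℕ} (ψ : Fin (m + 1) →o Fin (m' + 1)) (x : Ch m') (i j : Fin (m + 1)),
    i ≤ j → dg (pull ψ x) i j = dg x (ψ i) (ψ j)
  dg_self : ∀ {m : ℕ} (x : Ch m) (i : Fin (m + 1)), dg x i i = 0
  dg_add : ∀ {m : ℕ} (x : Ch m) (i j k : Fin (m + 1)), i ≤ j → j ≤ k →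
    dg x i k = dg x i j + dg x j k
  deg_add : ∀ {m : ℕ} (x : Ch m) (i j : Fin (m + 1)), i ≤ j →
    deg x j = deg x i + (dg x i j).1 + (dg x i j).2
  mor : ∀ {m : ℕ}, Ch m → Fin (m + 1) → Fin (m + 1) → Raw σ
  cont_mor : ∀ m (i j : Fin (m + 1)), i ≤ j → Continuous fun x : Ch m => mor x i j
  valid_mor : ∀ {m : ℕ} (x : Ch m) (i j : Fin (m + 1)), i ≤ j →
    Valid (nuOf pos (deg x i)) (nuOf pos (deg x j)) (mor x i j)
  mor_pull : ∀ {m m' : ℕ} (ψ : Fin (m + 1) →o Fin (m' + 1)) (x : Ch m') (i j : Fin (m + 1)),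
    i ≤ j → mor (pull ψ x) i j = mor x (ψ i) (ψ j)
  mor_self : ∀ {m : ℕ} (x : Ch m) (i : Fin (m + 1)), IsId (nuOf pos (deg x i)) (mor x i i)
  mor_comp : ∀ {m : ℕ} (x : Ch m) (i j k : Fin (m + 1)), i ≤ j → j ≤ k →
    IsComp (nuOf pos (deg x i)) (nuOf pos (deg x j)) (nuOf pos (deg x k))
      (mor x i j) (mor x j k) (mor x i k)
  tr_a : ∀ {m : ℕ} (x : Ch m) (i j : Fin (m + 1)), i ≤ j → ∀ a,
    (mat ((mor x i j).2.1 a) (nuOf pos (deg x j) a) (nuOf pos (deg x j) a)).trace =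
      nuOf pos (dg x i j).1 a
  tr_b : ∀ {m : ℕ} (x : Ch m) (i j : Fin (m + 1)), i ≤ j → ∀ a,
    (mat ((mor x i j).2.2 a) (nuOf pos (deg x j) a) (nuOf pos (deg x j) a)).trace =
      nuOf pos (dg x i j).2 a
  std : ∀ m, Idx ι m → Ch m
  deg_std : ∀ m (δ : Idx ι m), deg (std m δ) 0 = δ.1
  dg_std : ∀ m (δ : Idx ι m) (k : Fin m), dg (std m δ) k.castSucc k.succ = δ.2 k
  hom : ∀ m, Ch m → unitInterval → Ch m
  cont_hom : ∀ m, Continuous fun p : Ch m × unitInterval => hom m p.1 p.2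
  hom_zero : ∀ m x, hom m x 0 = x
  hom_one : ∀ m x, hom m x 1 = std m (deg x 0, fun k => dg x k.castSucc k.succ)
  deg_hom : ∀ m x u, deg (hom m x u) 0 = deg x 0
  mul : ∀ m {S : Type} [Finite S], O.O S → (S → Ch m) → Ch m
  kcont_mul : ∀ m {S : Type} [Finite S], KCont fun p : O.O S × (S → Ch m) => mul m p.1 p.2
  mul_pull : ∀ {m m' : ℕ} (ψ : Fin (m + 1) →o Fin (m' + 1)) {S : Type} [Finite S] (c : O.O S)
    (x : S → Ch m'), mul m c (fun s => pull ψ (x s)) = pull ψ (mul m' c x)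
  deg_mul : ∀ m {S : Type} [Finite S] (c : O.O S) (x : S → Ch m) (j : Fin (m + 1)),
    deg (mul m c x) j = ∑ᶠ s, deg (x s) j
  mul_one : ∀ m (x : Ch m), mul m O.one (fun _ => x) = x
  mul_assoc : ∀ m {S : Type} [Finite S] {T : S → Type} [∀ s, Finite (T s)] (c : O.O S)
    (d : ∀ s, O.O (T s)) (x : (Σ s, T s) → Ch m),
    mul m (O.comp c d) x = mul m c fun s => mul m (d s) fun t => x ⟨s, t⟩
  mul_rel : ∀ m {S T : Type} [Finite S] [Finite T] (e : S ≃ T) (c : O.O S) (x : T → Ch m),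
    mul m (O.rel e c) x = mul m c fun s => x (e s)
  eq_of_deg_zero : ∀ x y : Ch 0, deg x 0 = 0 → deg y 0 = 0 → x = y
  blk : ∀ {m : ℕ} {S : Type} [Finite S], O.O S → (S → Ch m) → Fin (m + 1) → S → RM σ
  kcont_blk : ∀ m {S : Type} [Finite S] (j : Fin (m + 1)),
    KCont fun p : O.O S × (S → Ch m) => blk p.1 p.2 j
  isBlk : ∀ {m : ℕ} {S : Type} [Finite S] (c : O.O S) (x : S → Ch m) (j : Fin (m + 1)),
    IsBlk (fun s => nuOf pos (deg (x s) j)) (nuOf pos (deg (mul m c x) j)) (blk c x j)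
  blk_pull : ∀ {m m' : ℕ} (ψ : Fin (m + 1) →o Fin (m' + 1)) {S : Type} [Finite S] (c : O.O S)
    (x : S → Ch m') (j : Fin (m + 1)), blk c (fun s => pull ψ (x s)) j = blk c x (ψ j)
  blk_one : ∀ {m : ℕ} (x : Ch m) (j : Fin (m + 1)) (a : σ),
    mat (blk O.one (fun _ => x) j () a) (nuOf pos (deg x j) a) (nuOf pos (deg x j) a) = 1
  blk_assoc : ∀ {m : ℕ} {S : Type} [Finite S] {T : S → Type} [∀ s, Finite (T s)] (c : O.O S)
    (d : ∀ s, O.O (T s)) (x : (Σ s, T s) → Ch m) (j : Fin (m + 1)) (s : S) (t : T s) (a : σ),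
    mat (blk (O.comp c d) x j ⟨s, t⟩ a) (nuOf pos (deg (mul m (O.comp c d) x) j) a)
        (nuOf pos (deg (x ⟨s, t⟩) j) a) =
      mat (blk c (fun s => mul m (d s) fun t => x ⟨s, t⟩) j s a)
          (nuOf pos (deg (mul m (O.comp c d) x) j) a)
          (nuOf pos (deg (mul m (d s) fun t => x ⟨s, t⟩) j) a) *
        mat (blk (d s) (fun t => x ⟨s, t⟩) j t a)
          (nuOf pos (deg (mul m (d s) fun t => x ⟨s, t⟩) j) a) (nuOf pos (deg (x ⟨s, t⟩) j) a)
  blk_rel : ∀ {m : ℕ} {S T : Type} [Finite S] [Finite T] (e : S ≃ T) (c : O.O S) (x : T → Ch m)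
    (j : Fin (m + 1)) (s : S), blk (O.rel e c) x j (e s) = blk c (fun s => x (e s)) j s
  compat : ∀ {m : ℕ} {S : Type} [Finite S] (c : O.O S) (x : S → Ch m) (i j : Fin (m + 1)),
    i ≤ j → Compat (wtOf pos) (fun s => nuOf pos (deg (x s) i)) (fun s => nuOf pos (deg (x s) j))
      (nuOf pos (deg (mul m c x) i)) (nuOf pos (deg (mul m c x) j)) (blk c x i) (blk c x j)
      (fun s => mor (x s) i j) (mor (mul m c x) i j)

attribute [instance] DData.top

/-- Layer D. -/
def DStmt : Prop :=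
  ∃ (O : Operad) (π : ∀ (S : Type) [Finite S], O.O S → D2 S), IsE2 O π ∧
    ∀ {ι σ : Type} [Fintype ι] [DecidableEq ι] [Fintype σ] (pos : σ → Finset ι),
      Nonempty (DData O pos)

end Pool.Agent.Lib.E2
end
end

-- part Pool.Agent.Lib.MP_10be03_gt.IfA
section

/-!
The interface of layer A: the system of species and the homological algebra.
-/

noncomputable section
open scoped TensorProduct

namespace Pool.Agent.Lib.E2

/-- The character of filling `nuOf pos n a` modes of each species `a` with type `ty a`. -/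
def chOf {ι σ : Type} [DecidableEq ι] [Fintype σ] (pos : σ → Finset ι) (ty : σ → Ty)
    (n : ι → ℕ) : LauR ι :=
  ∏ a, (ty a).ch (wtOf pos a) ^ nuOf pos n a

/-- The algebraic properties of a system of species for the prime `p`. -/
def IsSys (p : ℕ) {ι σ : Type} [Fintype ι] [DecidableEq ι] [Fintype σ] (pos : σ → Finset ι)
    (ta tb tz : σ → Ty) (nz : ι → ℕ) : Prop :=
  ∀ (Q : Type) [AddCommGroup Q] (G : (ι → ℕ) → Type) [∀ n, AddCommGroup (G n)]
    (χ : ∀ n, G n →+ LauR ι ⊗[ℤ] Q), (∀ n, Function.Injective (χ n)) →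
    (∀ n, (χ n).range = AddSubgroup.closure
      {z | ∃ w ∈ wts (wtOf pos) (nuOf pos n), ∃ y, z = mono w ⊗ₜ[ℤ] y}) →
    ∀ (g : ∀ m (i : Fin (m + 2)) (δ : Idx ι (m + 1)), G δ.1 → G (δ.pull i).1),
    (∀ m i δ x, χ _ (g m i δ x) =
      (chOf pos ta (δ.act i).1 * chOf pos tb (δ.act i).2) • χ _ x) →
    ∀ [∀ m, DecidableEq (Idx ι m)]
      (d : ∀ m, (Π₀ δ : Idx ι (m + 1), G δ.1) →+ Π₀ δ : Idx ι m, G δ.1),
    (∀ m δ x, d m (DFinsupp.single δ x) = ∑ i : Fin (m + 2),
      (-1 : ℤ) ^ (i : ℕ) • DFinsupp.single (δ.pull i) (g m i δ x)) →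
    (∀ m, Function.Exact (d (m + 1)) (d m)) ∧
    ∀ (δ : ℕ → Idx ι 0) (j : ∀ i, Q → G (δ i).1), (∀ i, (δ i).1 = i • nz) →
      (∀ i y, χ _ (j i y) = (chOf pos tz nz ^ i) ⊗ₜ[ℤ] y) →
      (∀ y, ∑ i ∈ Finset.range p, DFinsupp.single (δ i) (j i y) ∈ (d 0).range) ∧
      (∀ c, ∃ y : Fin (p - 1) → Q,
        c - ∑ i : Fin (p - 1), (DFinsupp.single (δ i) (j i (y i)) : Π₀ δ : Idx ι 0, G δ.1) ∈
          (d 0).range) ∧
      ∀ y : Fin (p - 1) → Q,
        ∑ i : Fin (p - 1), DFinsupp.single (δ i) (j i (y i)) ∈ (d 0).range → y = 0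

/-- Layer A. -/
def AStmt : Prop :=
  ∀ p : ℕ, p.Prime → p ≠ 2 → ∃ (r k : ℕ) (pos : Fin k → Finset (Fin r)) (ta tb tz : Fin k → Ty)
    (nz : Fin r → ℕ), IsSys p pos ta tb tz nz

end Pool.Agent.Lib.E2
end
end

-- part Pool.Agent.Lib.MP_10be03_gt.NTyp
section

/-!
Typed morphisms of mode spaces and the unit morphisms.
-/

noncomputable section
open scoped Matrix

namespace Pool.Agent.Lib.E2

variable {σ ι : Type}

/-- The indicator of a type. -/
def nInd (s t : Ty) : ℂ := if s = t then 1 else 0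

/-- The projection on the new modes of type `ty`. -/
def nPr (ta tb : σ → Ty) (ty : Ty) (q : Raw σ) : RM σ :=
  fun a i j => nInd (ta a) ty * q.2.1 a i j + nInd (tb a) ty * q.2.2 a i j

/-- The typed morphism. -/
def typed (ta tb : σ → Ty) (q : Raw σ) : Raw σ := (q.1, nPr ta tb .vac q, nPr ta tb .top q)

/-- The number of new modes of type `ty`. -/
def nCnt (ta : σ → Ty) (ty : Ty) (ν : σ → ℕ) (a : σ) : ℕ := if ta a = ty then ν a else 0

variable {ta tb : σ → Ty} {ν ν' ν'' : σ → ℕ} {q q' q'' : Raw σ}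

theorem mat_nPr (ty : Ty) (q : Raw σ) (a : σ) (m n : ℕ) : mat (nPr ta tb ty q a) m n =
    nInd (ta a) ty • mat (q.2.1 a) m n + nInd (tb a) ty • mat (q.2.2 a) m n := rfl

theorem continuous_typed : Continuous (typed ta tb) := by
  unfold typed nPr
  fun_prop

theorem nInd_mul (s : Ty) : nInd s .vac * nInd s .top = 0 := by
  cases s <;> simp [nInd]

theorem Valid.p21 (h : Valid ν ν' q) (a : σ) :
    mat (q.2.2 a) (ν' a) (ν' a) * mat (q.2.1 a) (ν' a) (ν' a) = 0 := by
  have := congrArg star (h.p12 a)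
  rwa [star_mul, (h.p1 a).isSelfAdjoint.star_eq, (h.p2 a).isSelfAdjoint.star_eq, star_zero] at this

theorem Valid.nPr (h : Valid ν ν' q) (ty : Ty) (a : σ) :
    IsStarProjection (mat (nPr ta tb ty q a) (ν' a) (ν' a)) := by
  rw [mat_nPr, nInd, nInd]
  split_ifs <;> simp only [one_smul, zero_smul, add_zero, zero_add]
  exacts [(h.p1 a).add (h.p2 a) (h.p12 a), h.p1 a, h.p2 a, .zero _]

theorem Valid.typed (h : Valid ν ν' q) : Valid ν ν' (typed ta tb q) where
  iso := h.iso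
  p1 := h.nPr _
  p2 := h.nPr _
  p12 a := by
    simp only [E2.typed, mat_nPr, add_mul, mul_add, smul_mul_smul_comm, h.p12, h.p21, nInd_mul,
      smul_zero, zero_smul, add_zero]
  p1φ a := by
    simp only [E2.typed, mat_nPr, Matrix.add_mul, Matrix.smul_mul, h.p1φ, h.p2φ, smul_zero, add_zero]
  p2φ a := by
    simp only [E2.typed, mat_nPr, Matrix.add_mul, Matrix.smul_mul, h.p1φ, h.p2φ, smul_zero, add_zero]

theorem IsId.typed (h : IsId ν q) : IsId ν (typed ta tb q) where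
  φ := h.φ
  p1 a := by simp only [E2.typed, mat_nPr, h.p1, h.p2, smul_zero, add_zero]
  p2 a := by simp only [E2.typed, mat_nPr, h.p1, h.p2, smul_zero, add_zero]

theorem IsId.valid (h : IsId ν q) : Valid ν ν q where
  iso a := by simp [h.φ]
  p1 a := h.p1 a ▸ .zero _
  p2 a := h.p2 a ▸ .zero _
  p12 a := by simp [h.p1]
  p1φ a := by simp [h.p1]
  p2φ a := by simp [h.p2]

theorem IsComp.typed (h : IsComp ν ν' ν'' q q' q'') :
    IsComp ν ν' ν'' (typed ta tb q) (typed ta tb q') (typed ta tb q'') := by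
  refine ⟨h.φ, fun a => ?_, fun a => ?_⟩ <;>
  · simp only [E2.typed, mat_nPr, h.p1, h.p2, smul_add, Matrix.mul_add, Matrix.add_mul,
      Matrix.mul_smul, Matrix.smul_mul]
    abel

theorem Compat.typed [Fintype ι] {wt : σ → ι → ℤ} {S : Type} [Finite S] {νs νs' : S → σ → ℕ}
    {β β' : S → RM σ} {qs : S → Raw σ} (h : Compat wt νs νs' ν ν' β β' qs q) :
    Compat wt νs νs' ν ν' β β' (fun s => typed ta tb (qs s)) (typed ta tb q) := by
  cases nonempty_fintype S
  refine ⟨h.φ, fun a => ?_, fun a => ?_⟩ <;>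
    simp only [E2.typed, mat_nPr, h.p1, h.p2, finsum_eq_sum_of_fintype, Finset.smul_sum,
      Matrix.mul_add, Matrix.add_mul, Matrix.mul_smul, Matrix.smul_mul, Finset.sum_add_distrib]

theorem nInd_cast (ty : Ty) (ν : σ → ℕ) (a : σ) : nInd (ta a) ty * ν a = nCnt ta ty ν a := by
  unfold nInd nCnt
  split_ifs <;> simp

theorem trace_nPr (ty : Ty) {A B : σ → ℕ} {a : σ} {m : ℕ} (hA : (mat (q.2.1 a) m m).trace = A a)
    (hB : (mat (q.2.2 a) m m).trace = B a) :
    (mat (nPr ta tb ty q a) m m).trace = (nCnt ta ty A a + nCnt tb ty B a : ℕ) := by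
  rw [mat_nPr, Matrix.trace_add, Matrix.trace_smul, Matrix.trace_smul, hA, hB, smul_eq_mul,
    smul_eq_mul, nInd_cast, nInd_cast, Nat.cast_add]

theorem nCnt_sum (ta : σ → Ty) (ν : σ → ℕ) (a : σ) :
    nCnt ta .vac ν a + nCnt ta .top ν a + nCnt ta .free ν a = ν a := by
  unfold nCnt
  cases ta a <;> simp

theorem prod_nCnt [DecidableEq ι] [Fintype σ] (pos : σ → Finset ι) (ta : σ → Ty) (n : ι → ℕ) :
    ∏ s, (-mono (wtOf pos s)) ^ nCnt ta .top (nuOf pos n) s *
      (1 - mono (wtOf pos s)) ^ nCnt ta .free (nuOf pos n) s = chOf pos ta n :=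
  Finset.prod_congr rfl fun s _ => by
    unfold nCnt
    cases ta s <;> simp [Ty.ch]

theorem nuOf_add (pos : σ → Finset ι) (m n : ι → ℕ) (a : σ) :
    nuOf pos (m + n) a = nuOf pos m a + nuOf pos n a := Finset.sum_add_distrib

theorem nuOf_zero (pos : σ → Finset ι) : nuOf pos 0 = 0 := funext fun _ => Finset.sum_const_zero

/-- The raw identity matrices. -/
def nOne (σ : Type) : RM σ := fun _ i j => if i = j then 1 else 0

theorem mat_nOne (a : σ) (m : ℕ) : mat (nOne σ a) m m = 1 := by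
  ext i j
  simp [mat, nOne, Matrix.one_apply, Fin.ext_iff]

theorem mat_zero (m n : ℕ) : mat 0 m n = 0 := rfl

theorem isId_one (ν : σ → ℕ) : IsId ν (nOne σ, 0, 0) := ⟨fun a => mat_nOne a _, fun _ => rfl, fun _ => rfl⟩

theorem valid_fill (ν : σ → ℕ) : Valid 0 ν (0, nOne σ, 0) where
  iso _ := Matrix.ext fun i => i.elim0
  p1 a := (mat_nOne a _).symm ▸ .one _
  p2 _ := .zero _
  p12 _ := mul_zero _
  p1φ _ := Matrix.ext fun _ j => j.elim0
  p2φ _ := Matrix.ext fun _ j => j.elim0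

theorem exists_raw {m n : σ → ℕ} (M : ∀ a, Matrix (Fin (m a)) (Fin (n a)) ℂ) :
    ∃ f : RM σ, ∀ a, mat (f a) (m a) (n a) = M a :=
  ⟨fun a i j => if h : i < m a ∧ j < n a then M a ⟨i, h.1⟩ ⟨j, h.2⟩ else 0,
    fun _ => Matrix.ext fun i j => dif_pos ⟨i.2, j.2⟩⟩

theorem isBlk_unit (ν : σ → ℕ) : IsBlk (fun b => cond b 0 ν) ν fun _ => nOne σ where
  iso
    | true, _ => Matrix.ext fun i => i.elim0
    | false, a => by simp [mat_nOne]
  orth
    | true, _, _, _ => Matrix.ext fun i => i.elim0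
    | false, true, _, _ => Matrix.ext fun _ j => j.elim0
    | false, false, h, _ => absurd rfl h
  sum a := by
    rw [finsum_eq_sum_of_fintype, Fintype.sum_bool]
    simp [mat_nOne]

theorem isStarProjection_conj {m n : ℕ} {B : Matrix (Fin m) (Fin n) ℂ} (hB : Bᴴ * B = 1)
    {P : Matrix (Fin n) (Fin n) ℂ} (hP : IsStarProjection P) : IsStarProjection (B * P * Bᴴ) := by
  refine ⟨?_, ?_⟩
  · calc B * P * Bᴴ * (B * P * Bᴴ) = B * (P * (Bᴴ * B) * P) * Bᴴ := by
          simp only [Matrix.mul_assoc]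
      _ = _ := by rw [hB, Matrix.mul_one, hP.isIdempotentElem.eq]
  · have : Pᴴ = P := hP.isSelfAdjoint
    simp [IsSelfAdjoint, Matrix.star_eq_conjTranspose, this, Matrix.mul_assoc]

/-- The morphism that adds a filled block. -/
theorem exists_addBlk [Fintype ι] (wt : σ → ι → ℤ) {νz : σ → ℕ} {β : Bool → RM σ} {qz : Raw σ}
    (hβ : IsBlk (fun b => cond b νz ν) ν' β) (hz : Valid 0 νz qz) : ∃ q, Valid ν ν' q ∧
      Compat wt (fun b => cond b 0 ν) (fun b => cond b νz ν) ν ν' (fun _ => nOne σ) β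
        (fun b => cond b qz (nOne σ, 0, 0)) q ∧
      (∀ a, (mat (q.2.1 a) (ν' a) (ν' a)).trace = (mat (qz.2.1 a) (νz a) (νz a)).trace) ∧
      ∀ a, (mat (q.2.2 a) (ν' a) (ν' a)).trace = (mat (qz.2.2 a) (νz a) (νz a)).trace := by
  obtain ⟨f, hf⟩ := exists_raw fun a => mat (β true a) (ν' a) (νz a) *
    mat (qz.2.1 a) (νz a) (νz a) * (mat (β true a) (ν' a) (νz a))ᴴ
  obtain ⟨g, hg⟩ := exists_raw fun a => mat (β true a) (ν' a) (νz a) *
    mat (qz.2.2 a) (νz a) (νz a) * (mat (β true a) (ν' a) (νz a))ᴴ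
  have h1 : ∀ a, (mat (β true a) (ν' a) (νz a))ᴴ * mat (β true a) (ν' a) (νz a) = 1 := hβ.iso true
  have h2 : ∀ a, (mat (β true a) (ν' a) (νz a))ᴴ * mat (β false a) (ν' a) (ν a) = 0 :=
    hβ.orth true false (by simp)
  refine ⟨(β false, f, g), ⟨hβ.iso false, fun a => hf a ▸ isStarProjection_conj (h1 a) (hz.p1 a),
    fun a => hg a ▸ isStarProjection_conj (h1 a) (hz.p2 a), fun a => ?_, fun a => ?_, fun a => ?_⟩,
    ⟨⟨fun _ => 1, ?_⟩, fun a => ?_, fun a => ?_⟩, fun a => ?_, fun a => ?_⟩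
  · rw [hf, hg]
    simp only [Matrix.mul_assoc]
    rw [← Matrix.mul_assoc (mat (β true a) _ _)ᴴ, h1, Matrix.one_mul,
      ← Matrix.mul_assoc (mat (qz.2.1 a) _ _), hz.p12, Matrix.zero_mul, Matrix.mul_zero]
  · rw [hf, Matrix.mul_assoc, h2, Matrix.mul_zero]
  · rw [hg, Matrix.mul_assoc, h2, Matrix.mul_zero]
  · rintro (_ | _) a
    · simp [phase]
    · exact Matrix.ext fun _ j => j.elim0
  · rw [hf, finsum_eq_sum_of_fintype, Fintype.sum_bool]
    simp [mat_zero]
  · rw [hg, finsum_eq_sum_of_fintype, Fintype.sum_bool]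
    simp [mat_zero]
  · rw [hf, Matrix.trace_mul_cycle, h1, Matrix.one_mul]
  · rw [hg, Matrix.trace_mul_cycle, h1, Matrix.one_mul]

end Pool.Agent.Lib.E2
end
end
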