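import Pool.Agent.Lib.MP_10be03_gt.HBase
import Pool.Agent.Lib.MP_10be03_gt.AOps
import Pool.Agent.Lib.MP_10be03_gt.Simp
import Pool.Agent.Lib.MP_10be03_gt.NTyp

-- part Pool.Agent.Lib.MP_10be03_gt.HShift
section

/-! The shift isomorphism of stable homotopy groups. -/

noncomputable section
open scoped unitInterval Topology

namespace Pool.Agent.Lib.E2

namespace SSp
variable (X : SSp)

/-- Transport along an equality of levels. -/
def cst {m n : ℕ} (h : m = n) (x : X.X m) : X.X n := h ▸ x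

theorem continuous_cst {m n : ℕ} (h : m = n) : Continuous (X.cst h) := by
  subst h; exact continuous_id

theorem cst_pt {m n : ℕ} (h : m = n) : X.cst h (X.pt m) = X.pt n := by subst h; rfl

theorem cst_sg {m n : ℕ} (h : m = n) (h' : m + 1 = n + 1) (x : X.X m) (u : I) :
    X.cst h' (X.sg m x u) = X.sg n (X.cst h x) u := by subst h; rfl

theorem cst_cst {m n : ℕ} (h : m = n) (h' : n = m) (x : X.X m) : X.cst h' (X.cst h x) = x := by
  subst h; rfl

theorem map_cst {X Y : SSp} (φ : SMap X Y) {m n : ℕ} (h : m = n) (x : X.X m) :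
    φ.f n (X.cst h x) = Y.cst h (φ.f m x) := by subst h; rfl

/-- Renaming of the cube coordinates together with transport of the level. -/
def shOp {N M : Type} (e : N ≃ M) {m n : ℕ} (h : m = n) : HC.Op N M (X.pt m) (X.pt n) where
  e t i := t (e i)
  Φ x _ := X.cst h x
  ce := continuous_pi fun i => continuous_apply (e i)
  cΦ := (X.continuous_cst h).comp continuous_fst
  base _ := X.cst_pt h
  bd t ht := Or.inl (by
    obtain ⟨i, hi⟩ := ht
    exact ⟨e.symm i, by simpa using hi⟩)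

theorem shOp_apply {N M : Type} (e : N ≃ M) {m n : ℕ} (h : m = n)
    (f : GenLoop N (X.X m) (X.pt m)) (t : M → I) :
    (X.shOp e h).app f t = X.cst h (f fun i => t (e i)) := rfl

theorem shOp_symm {N M : Type} (e : N ≃ M) {m n : ℕ} (h : m = n) (h' : n = m)
    (f : GenLoop N (X.X m) (X.pt m)) : (X.shOp e.symm h').app ((X.shOp e h).app f) = f :=
  GenLoop.ext _ _ fun t => by
    rw [shOp_apply, shOp_apply, cst_cst]
    simp

theorem shOp_transAt {N M : Type} [DecidableEq N] [DecidableEq M] (e : N ≃ M) {m n : ℕ}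
    (h : m = n) (i : N) (f g : GenLoop N (X.X m) (X.pt m)) :
    (X.shOp e h).app (GenLoop.transAt i f g) =
      GenLoop.transAt (e i) ((X.shOp e h).app f) ((X.shOp e h).app g) :=
  GenLoop.ext _ _ fun t => by
    have k : ∀ s, (fun l => Function.update t (e i) s (e l)) =
        Function.update (fun l => t (e l)) i s := fun s =>
      Function.update_comp_eq_of_injective t e.injective i s
    simp only [shOp_apply, HC.transAt_apply, k]
    split_ifs <;> rfl

end SSp

/-- The first free coordinate becomes the first suspension coordinate. -/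
def shE (a j : ℕ) : Cb (a + 1) j ≃ Cb a (j + 1) where
  toFun := Sum.elim (Fin.cases (Sum.inr 0) Sum.inl) fun i => Sum.inr i.succ
  invFun := Sum.elim (fun i => Sum.inl i.succ) (Fin.cases (Sum.inl 0) Sum.inr)
  left_inv := by
    rintro (i | i)
    · induction i using Fin.cases <;> rfl
    · rfl
  right_inv := by
    rintro (i | i)
    · rfl
    · induction i using Fin.cases <;> rfl

namespace SSp
variable {X : SSp} {a b j : ℕ}

/-- The shift of representatives. -/
def shUp (f : X.L (a + 1) (b + 1) j) : X.L a b (j + 1) :=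
  (X.shOp (shE a j) (Nat.add_right_comm b 1 j)).app f

/-- The inverse shift of representatives. -/
def shDn (g : X.L a b (j + 1)) : X.L (a + 1) (b + 1) j :=
  (X.shOp (shE a j).symm (Nat.add_right_comm b 1 j).symm).app g

theorem shDn_shUp (f : X.L (a + 1) (b + 1) j) : shDn (shUp f) = f := X.shOp_symm _ _ _ f

theorem shUp_shDn (g : X.L a b (j + 1)) : shUp (shDn g) = g := X.shOp_symm (shE a j).symm _ _ g

theorem shUp_sl (f : X.L (a + 1) (b + 1) j) : shUp (sl f) = sl (shUp f) :=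
  GenLoop.ext _ _ fun t => by
    have e : cbInit (fun i => t (shE a (j + 1) i)) = fun i => cbInit t (shE a j i) := by
      funext i
      rcases i with i | i
      · induction i using Fin.cases <;> rfl
      · rfl
    refine (X.cst_sg (Nat.add_right_comm b 1 j) _ _ _).trans ?_
    change X.sg _ (X.cst _ (f (cbInit fun i => t (shE a (j + 1) i)))) _ = _
    rw [e]
    rfl

theorem shDn_sl (g : X.L a b (j + 1)) : shDn (sl g) = sl (shDn g) := by
  conv_lhs => rw [← shUp_shDn g, ← shUp_sl, shDn_shUp]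

variable (X a b)

/-- The shift homomorphism. -/
def piUp : X.Pi (a + 1) (b + 1) →+ X.Pi a b :=
  piLift (fun j f => X.cls a b (j + 1) (shUp f))
    (fun _ _ _ h => cls_homotopic (HC.Op.app_homotopic _ h))
    (fun j f g => (congrArg _ (X.shOp_transAt (shE a j) _ _ f g)).trans (cls_transAt _ _ _))
    fun _ f => by rw [shUp_sl, cls_susp]

/-- The inverse shift homomorphism. -/
def piDn : X.Pi a b →+ X.Pi (a + 1) (b + 1) :=
  piLift (fun j g => X.cls (a + 1) (b + 1) j (shDn (sl g)))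
    (fun _ _ _ h => cls_homotopic (HC.Op.app_homotopic _ (X.suspLoop_homotopic h)))
    (fun j f g => by
      have e : sl (GenLoop.transAt (Sum.inr 0) f g) = GenLoop.transAt (Sum.inr 0) (sl f) (sl g) :=
        X.suspLoop_transAt f g
      rw [e]
      exact (congrArg _ (X.shOp_transAt (shE a j).symm _ _ _ _)).trans (cls_transAt _ _ _))
    fun _ g => by rw [shDn_sl, cls_susp]

theorem piUp_cls (f : X.L (a + 1) (b + 1) j) :
    X.piUp a b (X.cls (a + 1) (b + 1) j f) = X.cls a b (j + 1) (shUp f) :=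
  piLift_cls _ _ _ _ _ _

theorem piDn_cls (g : X.L a b j) :
    X.piDn a b (X.cls a b j g) = X.cls (a + 1) (b + 1) j (shDn (sl g)) :=
  piLift_cls _ _ _ _ _ _

end SSp

/-- Natural isomorphisms `Pi (a + 1) (b + 1) ≃ Pi a b`. -/
theorem exists_shift (a b : ℕ) : ∃ e : ∀ X : SSp, X.Pi (a + 1) (b + 1) ≃+ X.Pi a b,
    ∀ (X Y : SSp) (φ : SMap X Y) (x : X.Pi (a + 1) (b + 1)),
      e Y (φ.pi (a + 1) (b + 1) x) = φ.pi a b (e X x) := by
  refine ⟨fun X => AddEquiv.ofBijective (X.piUp a b)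
    (Function.bijective_iff_has_inverse.2 ⟨X.piDn a b, fun x => ?_, fun x => ?_⟩),
    fun X Y φ x => ?_⟩
  · obtain ⟨j, f, rfl⟩ := SSp.cls_surj x
    rw [SSp.piUp_cls, SSp.piDn_cls, ← SSp.shUp_sl, SSp.shDn_shUp, SSp.cls_susp]
  · obtain ⟨j, g, rfl⟩ := SSp.cls_surj x
    rw [SSp.piDn_cls, SSp.piUp_cls, SSp.shUp_shDn, SSp.cls_susp]
  · obtain ⟨j, f, rfl⟩ := SSp.cls_surj x
    change Y.piUp a b _ = φ.pi a b (X.piUp a b _)
    rw [SMap.pi_cls, SSp.piUp_cls, SSp.piUp_cls, SMap.pi_cls]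
    exact SSp.cls_congr fun t => (SSp.map_cst φ _ _).symm

/-- Exactness can be checked after shifting. -/
theorem exact_of_shift {X Y Z : SSp} (φ : SMap X Y) (ψ : SMap Y Z) (k a b : ℕ)
    (h : ∀ y, ψ.pi (a + k) (b + k) y = 0 → y ∈ Set.range (φ.pi (a + k) (b + k))) :
    ∀ y, ψ.pi a b y = 0 → y ∈ Set.range (φ.pi a b) := by
  have key : ∀ P : ℕ → ℕ → Prop, (∀ a b, P (a + 1) (b + 1) → P a b) →
      ∀ k, P (a + k) (b + k) → P a b := fun P hP k => by
    induction k with
    | zero => exact fun h => h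
    | succ k ih => exact fun h => ih (hP _ _ h)
  refine key (fun a b => ∀ y, ψ.pi a b y = 0 → y ∈ Set.range (φ.pi a b)) ?_ k h
  intro a b h y hy
  obtain ⟨e, he⟩ := exists_shift a b
  obtain ⟨y', rfl⟩ := (e Y).surjective y
  rw [← he, map_eq_zero_iff _ (e Z).injective] at hy
  obtain ⟨x, rfl⟩ := h y' hy
  exact ⟨e X x, (he X Y φ x).symm⟩

end Pool.Agent.Lib.E2
end
end

-- part Pool.Agent.Lib.MP_10be03_gt.AGr
section

/-! The bar complex of a filtered module. -/

set_option autoImplicit false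

namespace Pool.Agent.Lib.MP_10be03_gt.A

open Function Finset Pool.Agent.Lib.E2

variable {B L : Type} [CommRing B] [AddCommGroup L] [Module B L] {r : ℕ}

/-- Forget the first `c` coordinates. -/
def trunc (c : ℕ) (n : Fin r → ℕ) : Fin r → ℕ := fun j => if (j : ℕ) < c then 0 else n j

/-- The two halves of a multidegree. -/
def spl (r : ℕ) : (Fin (r + r) → ℕ) →+ (Fin r → ℕ) × (Fin r → ℕ) where
  toFun γ := (fun c => γ (Fin.natAdd r c), fun c => γ (Fin.castAdd r c))
  map_zero' := rfl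
  map_add' _ _ := rfl

theorem spl_bij : Bijective (spl r) :=
  ⟨fun _ _ h => funext fun c => Fin.addCases (fun c => congrFun (congrArg Prod.snd h) c)
    (fun c => congrFun (congrArg Prod.fst h) c) c,
    fun γ => ⟨Fin.append γ.2 γ.1, Prod.ext (funext fun c => Fin.append_right _ _ c)
      (funext fun c => Fin.append_left _ _ c)⟩⟩

theorem spl_lo {c : ℕ} (hc : c < r) : spl r (epn (r + r) c) = (0, epn r c) :=
  Prod.ext (funext fun d => if_neg (by simp; omega)) rfl

theorem spl_hi (c : ℕ) : spl r (epn (r + r) (r + c)) = (epn r c, 0) :=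
  Prod.ext (funext fun d => if_congr (by simp; omega) rfl rfl)
    (funext fun d => if_neg (by have := d.2; simp; omega))

/-- The shift operators. -/
noncomputable def shf (f : ℕ → B) (γ : (Fin r → ℕ) × (Fin r → ℕ)) :
    ((Fin r → ℕ) →₀ L) →ₗ[B] (Fin r → ℕ) →₀ L :=
  act f γ.1 • Finsupp.lmapDomain L B (· + γ.1 + γ.2)

theorem shf_single (f : ℕ → B) (γ : (Fin r → ℕ) × (Fin r → ℕ)) (n : Fin r → ℕ) (z : L) :
    shf f γ (Finsupp.single n z) = Finsupp.single (n + γ.1 + γ.2) (act f γ.1 • z) := by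
  simp [shf, Finsupp.mapDomain_single]

theorem shf_lo (f : ℕ → B) (b : Fin r → ℕ) (x : (Fin r → ℕ) →₀ L) :
    shf f (0, b) x = x.mapDomain (· + b) := by
  simp [shf, act_zero]

/-- The sum of all components. -/
noncomputable def tot (B : Type) [CommRing B] [Module B L] : ((Fin r → ℕ) →₀ L) →ₗ[B] L :=
  Finsupp.lsum ℕ fun _ => LinearMap.id

theorem tot_single (n : Fin r → ℕ) (z : L) : tot B (Finsupp.single n z) = z := by simp [tot]

theorem tot_shf (f : ℕ → B) (γ : (Fin r → ℕ) × (Fin r → ℕ)) (x : (Fin r → ℕ) →₀ L) :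
    tot B (shf f γ x) = act f γ.1 • tot B x := by
  induction x using Finsupp.induction_linear with
  | zero => simp
  | add x y hx hy => simp only [map_add, hx, hy, smul_add]
  | single n z => rw [shf_single, tot_single, tot_single]

theorem trunc_hi (c : ℕ) (I : Ideal B) (x : (Fin r → ℕ) →₀ L) :
    x.mapDomain (trunc (r + c)) ∈ I • (⊤ : Submodule B _) ↔ tot B x ∈ I • (⊤ : Submodule B L) := by
  have h : x.mapDomain (trunc (r + c)) = Finsupp.single 0 (tot B x) := by
    induction x using Finsupp.induction_linear with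
    | zero => simp
    | add x y hx hy => rw [Finsupp.mapDomain_add, hx, hy, map_add, Finsupp.single_add]
    | single n z =>
      rw [Finsupp.mapDomain_single, tot_single]
      exact congrArg (Finsupp.single · z) (funext fun d => if_pos (by omega))
  rw [h]
  exact ⟨fun h => by simpa using map_mem_smul (Finsupp.lapply (0 : Fin r → ℕ)) h,
    fun h => map_mem_smul (Finsupp.lsingle 0) h⟩

variable {f : ℕ → B} {M : AddSubgroup ((Fin r → ℕ) →₀ L)}

theorem exists_push (hst : ∀ γ, ∀ x ∈ M, shf f γ x ∈ M) (c : Fin r) {n : Fin r → ℕ} {z : L}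
    (h : Finsupp.single n z ∈ M) {N : ℕ} (hN : n c ≤ N) :
    Finsupp.single (update n c N) z ∈ M ∧ ∃ m ∈ M, Finsupp.single n z -
      (m - m.mapDomain (· + epn r c)) = Finsupp.single (update n c N) z := by
  induction N, hN using Nat.le_induction with
  | base => exact ⟨by simpa using h, 0, M.zero_mem, by simp⟩
  | succ N _ ih =>
    obtain ⟨h1, m, h2, h3⟩ := ih
    have e : update n c N + epn r c = update n c (N + 1) := funext fun d => by
      by_cases hd : d = c
      · simp [hd, epn]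
      · simp [hd, epn, Fin.val_inj]
    refine ⟨?_, m + Finsupp.single (update n c N) z, M.add_mem h2 h1, ?_⟩
    · have := hst (0, epn r c) _ h1
      rwa [shf_lo, Finsupp.mapDomain_single, e] at this
    · rw [Finsupp.mapDomain_add, Finsupp.mapDomain_single, e, ← h3]
      abel

theorem gr_ops (hL : Reg (fun c => 1 - f c) r L) (hst : ∀ γ, ∀ x ∈ M, shf f γ x ∈ M)
    (hind : ∀ P : ((Fin r → ℕ) →₀ L) → Prop, P 0 →
      (∀ n z, Finsupp.single n z ∈ M → P (Finsupp.single n z)) →
      (∀ x y, P x → P y → P (x + y)) → ∀ x ∈ M, P x)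
    (hex : ∀ z, ∃ x ∈ M, tot B x = z) (T : (Fin (r + r) → ℕ) → M →+ M)
    (hT : ∀ γ x, (T γ x).1 = shf f (spl r γ) x.1)
    (d : ∀ n, ((Fin (n + 1) → Fin (r + r) → ℕ) →₀ M) →+ (Fin n → Fin (r + r) → ℕ) →₀ M)
    (hd : ∀ n g (x : M), d n (Finsupp.single g x) = ∑ i : Fin (n + 2), (-1 : ℤ) ^ (i : ℕ) •
      Finsupp.single (pull i g) (T (wt i g) x)) :
    (∀ n, Exact (d (n + 1)) (d n)) ∧ ∀ x : M, Finsupp.single default x ∈ (d 0).range ↔
      tot B x.1 ∈ ida (fun c => 1 - f c) r • (⊤ : Submodule B L) := by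
  have hlo : ∀ c ≤ r, ∀ y : (Fin r → ℕ) →₀ L,
      y ∈ ida (fun c => 1 - f c) (c - r) • (⊤ : Submodule B _) ↔ y = 0 := fun c hc y => by
    simp [Nat.sub_eq_zero_of_le hc, ida]
  have hsub : ∀ (φ : (Fin r → ℕ) → Fin r → ℕ) (x y : (Fin r → ℕ) →₀ L),
      (x - y).mapDomain φ = x.mapDomain φ - y.mapDomain φ := fun φ =>
    map_sub (Finsupp.lmapDomain L B φ)
  have k := bar_ops T (fun x => Subtype.ext ((hT 0 x).trans
    ((shf_lo f 0 x.1).trans Finsupp.mapDomain_id))) (fun γ δ x => Subtype.ext ?_)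
    (fun c x => x.1.mapDomain (trunc c) ∈ ida (fun c => 1 - f c) (c - r) • (⊤ : Submodule B _))
    (fun x => ?_) (fun c hc x => ?_) (fun c hc x => ?_) d hd
  · refine ⟨k.1, fun x => (k.2 x).trans ?_⟩
    rw [trunc_hi, Nat.add_sub_cancel]
  · rw [hT, hT, hT, map_add]
    induction x.1 using Finsupp.induction_linear with
    | zero => simp
    | add x y hx hy => simp only [map_add, hx, hy]
    | single n z =>
      simp only [shf_single, Prod.fst_add, Prod.snd_add, act_add, mul_smul]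
      congr 1
      abel
  · rw [hlo 0 r.zero_le, show trunc 0 = id from rfl, Finsupp.mapDomain_id]
    exact ZeroMemClass.coe_eq_zero
  · simp only [AddSubgroup.coe_sub, hT]
    rcases lt_or_ge c r with h | h
    · simp only [hlo c h.le, hlo (c + 1) h, spl_lo h, shf_lo]
      constructor
      · intro hx
        obtain ⟨N, hN⟩ := hind (fun x => ∃ N₀, ∀ N, N₀ ≤ N → ∃ m ∈ M,
            x - (m - m.mapDomain (· + epn r c)) = x.mapDomain (update · ⟨c, h⟩ N))
          ⟨0, fun N _ => ⟨0, M.zero_mem, by simp⟩⟩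
          (fun n z hz => ⟨n ⟨c, h⟩, fun N hN => by
            rw [Finsupp.mapDomain_single]
            exact (exists_push hst ⟨c, h⟩ hz hN).2⟩)
          (fun x y ⟨N₁, h1⟩ ⟨N₂, h2⟩ => ⟨max N₁ N₂, fun N hN => by
            obtain ⟨m, h3, h4⟩ := h1 N (le_of_max_le_left hN)
            obtain ⟨m', h5, h6⟩ := h2 N (le_of_max_le_right hN)
            refine ⟨m + m', M.add_mem h3 h5, ?_⟩
            rw [Finsupp.mapDomain_add, Finsupp.mapDomain_add, ← h4, ← h6]
            abel⟩) x.1 x.2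
        obtain ⟨m, h1, h2⟩ := hN N le_rfl
        refine ⟨⟨m, h1⟩, ?_⟩
        rw [h2, ← Finsupp.mapDomain_comp, show trunc c ∘ (update · ⟨c, h⟩ N) =
          (update · ⟨c, h⟩ N) ∘ trunc (c + 1) from funext fun n => funext fun j => ?_,
          Finsupp.mapDomain_comp, hx, Finsupp.mapDomain_zero]
        by_cases e : j = ⟨c, h⟩
        · simp [e, trunc]
        · have : (j : ℕ) ≠ c := fun e' => e (Fin.ext e')
          simp only [trunc, comp_apply, update_of_ne e]
          split_ifs <;> first | rfl | omega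
      · rintro ⟨m, hm⟩
        have h1 := congrArg (Finsupp.mapDomain (trunc (c + 1))) hm
        rw [← Finsupp.mapDomain_comp, show trunc (c + 1) ∘ trunc c = trunc (r := r) (c + 1) from
          funext fun n => funext fun j => ?_, hsub, hsub, ← Finsupp.mapDomain_comp,
          show trunc (c + 1) ∘ (· + epn r c) = trunc (r := r) (c + 1) from
          funext fun n => funext fun j => ?_] at h1
        · simpa using h1
        all_goals
          simp only [trunc, comp_apply, Pi.add_apply, epn]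
          split_ifs <;> first | rfl | omega
    · obtain ⟨c, rfl⟩ := Nat.exists_eq_add_of_le h
      rw [add_assoc, trunc_hi]
      simp only [trunc_hi, Nat.add_sub_cancel_left, mem_ida_succ, spl_hi, map_sub, tot_shf,
        act_epn f (Nat.lt_of_add_lt_add_left hc), sub_smul, one_smul]
      refine ⟨fun ⟨z, hz⟩ => ?_, fun ⟨m, hm⟩ => ⟨_, hm⟩⟩
      obtain ⟨m, h1, rfl⟩ := hex z
      exact ⟨⟨m, h1⟩, hz⟩
  · simp only [AddSubgroup.coe_sub, hT]
    rcases lt_or_ge c r with h | h
    · simp only [hlo c h.le, spl_lo h, shf_lo, hsub, sub_eq_zero]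
      refine fun hx => shift_zero h (hx.trans ?_)
      rw [← Finsupp.mapDomain_comp, ← Finsupp.mapDomain_comp]
      refine congrArg (Finsupp.mapDomain · x.1) (funext fun n => funext fun j => ?_)
      simp only [trunc, comp_apply, Pi.add_apply, epn]
      split_ifs <;> first | rfl | omega
    · obtain ⟨c, rfl⟩ := Nat.exists_eq_add_of_le h
      have hc' := Nat.lt_of_add_lt_add_left hc
      simp only [trunc_hi, Nat.add_sub_cancel_left, spl_hi, map_sub, tot_shf, act_epn f hc']
      exact fun hx => hL c hc' _ (by rwa [sub_smul, one_smul])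

end Pool.Agent.Lib.MP_10be03_gt.A
end

-- part Pool.Agent.Lib.MP_10be03_gt.ADep
section

/-! The bar complex of a filtered module in dependent form. -/

set_option autoImplicit false

namespace Pool.Agent.Lib.MP_10be03_gt.A

open Function Finset Pool.Agent.Lib.E2

variable {B L : Type} [CommRing B] [AddCommGroup L] [Module B L] {r : ℕ}

theorem gr_final {f : ℕ → B} (hL : Reg (fun c => 1 - f c) r L) (G : (Fin r → ℕ) → Type)
    [∀ n, AddCommGroup (G n)] (χ : ∀ n, G n →+ L) (hi : ∀ n, Injective (χ n))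
    (hex : ∀ H : AddSubgroup L, (∀ n x, χ n x ∈ H) → ∀ z, z ∈ H)
    (g : ∀ m (i : Fin (m + 2)) (δ : Idx (Fin r) (m + 1)), G δ.1 → G (δ.pull i).1)
    (hg : ∀ m i δ x, χ _ (g m i δ x) = act f (δ.act i).1 • χ _ x)
    [∀ m, DecidableEq (Idx (Fin r) m)]
    (d : ∀ m, (Π₀ δ : Idx (Fin r) (m + 1), G δ.1) →+ Π₀ δ : Idx (Fin r) m, G δ.1)
    (hd : ∀ m δ x, d m (DFinsupp.single δ x) = ∑ i : Fin (m + 2),
      (-1 : ℤ) ^ (i : ℕ) • DFinsupp.single (δ.pull i) (g m i δ x)) :
    (∀ m, Exact (d (m + 1)) (d m)) ∧ ∃ s : (Π₀ δ : Idx (Fin r) 0, G δ.1) →+ L,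
      (∀ δ x, s (DFinsupp.single δ x) = χ _ x) ∧ ∀ c, c ∈ (d 0).range ↔
        s c ∈ ida (fun c => 1 - f c) r • (⊤ : Submodule B L) := by
  classical
  let Φ : (Π₀ n, G n) →+ (Fin r → ℕ) →₀ L :=
    DFinsupp.sumAddHom fun n => (Finsupp.singleAddHom n).comp (χ n)
  have hΦ : ∀ n x, Φ (DFinsupp.single n x) = Finsupp.single n (χ n x) := fun n x => by simp [Φ]
  let sg : ∀ n, G n →+ Φ.range := fun n => Φ.rangeRestrict.comp (DFinsupp.singleAddHom G n)
  have hsg : ∀ n x, (sg n x).1 = Finsupp.single n (χ n x) := hΦ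
  have ind : ∀ (P : Φ.range → Prop) (h0 : P 0) (h1 : ∀ n x, P (sg n x))
      (h2 : ∀ x y, P x → P y → P (x + y)) (x : Φ.range), P x := fun P h0 h1 h2 x => by
    obtain ⟨y, rfl⟩ := Φ.rangeRestrict_surjective x
    induction y using DFinsupp.induction with
    | h0 => rwa [map_zero]
    | ha n x y _ _ ih => rw [map_add]; exact h2 _ _ (h1 n x) ih
  have hst : ∀ γ, ∀ x ∈ Φ.range, shf f γ x ∈ Φ.range := fun γ x hx =>
    ind (fun x => shf f γ x.1 ∈ Φ.range) (by simp)
      (fun n x => ⟨DFinsupp.single _ (g 0 0 (n, fun _ => γ) x), by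
        rw [hΦ, hg, hsg, shf_single]; rfl⟩)
      (fun x y hx hy => by rw [AddSubgroup.coe_add, map_add]; exact add_mem hx hy) ⟨x, hx⟩
  let e := (AddEquiv.ofBijective (spl r) spl_bij).symm
  have he : ∀ γ, spl r (e γ) = γ := e.symm_apply_apply
  let Ψ : ∀ m, (Π₀ δ : Idx (Fin r) m, G δ.1) →+ (Fin m → Fin (r + r) → ℕ) →₀ Φ.range := fun m =>
    DFinsupp.sumAddHom fun δ => (Finsupp.singleAddHom (e ∘ δ.2)).comp (sg δ.1)
  have hΨ : ∀ m δ x, Ψ m (DFinsupp.single δ x) = Finsupp.single (e ∘ δ.2) (sg δ.1 x) :=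
    fun m δ x => by simp [Ψ]
  have hb : ∀ m, Bijective (Ψ m) := fun m => by
    have hv : ∀ z (δ : Idx (Fin r) m), (Ψ m z (e ∘ δ.2)).1 δ.1 = χ _ (z δ) := fun z δ => by
      induction z using DFinsupp.induction with
      | h0 => simp
      | ha δ' x y _ _ ih =>
        rw [map_add, Finsupp.add_apply, AddSubgroup.coe_add, Finsupp.add_apply, ih,
          DFinsupp.add_apply, map_add, hΨ, add_left_inj]
        by_cases h : δ' = δ
        · subst h
          simp [hsg]
        · rw [DFinsupp.single_eq_of_ne (Ne.symm h), map_zero]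
          by_cases h2 : δ'.2 = δ.2
          · rw [h2, Finsupp.single_eq_same, hsg]
            exact Finsupp.single_eq_of_ne fun h1 => h (Prod.ext h1.symm h2)
          · rw [Finsupp.single_eq_of_ne fun h1 => h2 (e.injective.comp_left h1).symm]
            rfl
    refine ⟨fun z z' h => DFinsupp.ext fun δ => hi _ (by rw [← hv, ← hv, h]), fun y => ?_⟩
    change y ∈ (Ψ m).range
    induction y using Finsupp.induction_linear with
    | zero => exact zero_mem _
    | add x y hx hy => exact add_mem hx hy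
    | single γ y =>
      refine ind (fun y => Finsupp.single γ y ∈ (Ψ m).range) (by simp) (fun n x => ?_)
        (fun x y hx hy => by rw [Finsupp.single_add]; exact add_mem hx hy) y
      exact ⟨DFinsupp.single (n, e.symm ∘ γ) x, (hΨ _ _ _).trans
        (congrArg (Finsupp.single · _) (funext fun j => e.apply_symm_apply _))⟩
  let E := fun m => AddEquiv.ofBijective (Ψ m) (hb m)
  let d' : ∀ n, ((Fin (n + 1) → Fin (r + r) → ℕ) →₀ Φ.range) →+
      (Fin n → Fin (r + r) → ℕ) →₀ Φ.range := fun n =>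
    (Ψ n).comp ((d n).comp (E (n + 1)).symm.toAddMonoidHom)
  have hd' : ∀ n z, d' n (Ψ (n + 1) z) = Ψ n (d n z) := fun n z =>
    congrArg (fun z => Ψ n (d n z)) ((E (n + 1)).symm_apply_apply z)
  obtain ⟨h1, h2⟩ := gr_ops hL hst
    (fun P h0 h1 h2 x hx => ind (fun x => P x.1) h0
      (fun n x => hsg n x ▸ h1 _ _ (hsg n x ▸ (sg n x).2)) (fun x y => h2 _ _) ⟨x, hx⟩)
    (fun z => by
      obtain ⟨x, hx⟩ := hex (((tot B).toAddMonoidHom.comp Φ.range.subtype).range)
        (fun n x => ⟨sg n x, (congrArg (tot B) (hsg n x)).trans (tot_single _ _)⟩) z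
      exact ⟨x.1, x.2, hx⟩) (fun γ => ((shf f (spl r γ)).toAddMonoidHom.comp
      Φ.range.subtype).codRestrict _ fun x => hst _ _ x.2) (fun _ _ => rfl) d' fun n γ y => by
    obtain ⟨γ, rfl⟩ := e.surjective.comp_left γ
    induction y using ind with
    | h0 => simp only [map_zero, Finsupp.single_zero, smul_zero, sum_const_zero]
    | h1 k x =>
      rw [← hΨ _ (k, γ), hd', hd, map_sum]
      refine sum_congr rfl fun i _ => ?_
      rw [map_zsmul, hΨ]
      refine congrArg _ (congrArg₂ _ (pull_comp e.toAddMonoidHom i γ).symm (Subtype.ext ?_))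
      change _ = shf f (spl r (wt i (e ∘ γ))) (sg k x).1
      rw [hsg, hg, hsg, shf_single, show wt i (e ∘ γ) = e (wt i γ) from
        wt_comp e.toAddMonoidHom i γ, he]
      rfl
    | h2 x y hx hy =>
      simp only [Finsupp.single_add, map_add, hx, hy, smul_add, sum_add_distrib]
  refine ⟨fun m z => ⟨fun hz => ?_, ?_⟩, (tot B).toAddMonoidHom.comp (Φ.range.subtype.comp
    ((Finsupp.applyAddHom default).comp (Ψ 0))), fun δ x => ?_, fun c => ?_⟩
  · obtain ⟨y, hy⟩ := (h1 m (Ψ _ z)).1 (by rw [hd', hz, map_zero])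
    obtain ⟨w, rfl⟩ := (hb _).2 y
    exact ⟨w, (hb _).1 (by rw [← hd', hy])⟩
  · rintro ⟨w, rfl⟩
    exact (hb _).1 (by rw [← hd', ← hd', (h1 m _).2 ⟨_, rfl⟩, map_zero])
  · change tot B (Ψ 0 (DFinsupp.single δ x) default).1 = _
    rw [hΨ, Subsingleton.elim (e ∘ δ.2) default, Finsupp.single_eq_same, hsg, tot_single]
  · refine Iff.trans ?_ (h2 (Ψ 0 c default))
    rw [show Finsupp.single default (Ψ 0 c default) = Ψ 0 c from Finsupp.ext fun a => by
      rw [Subsingleton.elim a default, Finsupp.single_eq_same]]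
    refine ⟨fun ⟨w, hw⟩ => ⟨Ψ _ w, by rw [hd', hw]⟩, fun ⟨y, hy⟩ => ?_⟩
    obtain ⟨w, rfl⟩ := (hb _).2 y
    exact ⟨w, (hb _).1 (by rw [← hd', hy])⟩

end Pool.Agent.Lib.MP_10be03_gt.A
end

-- part Pool.Agent.Lib.MP_10be03_gt.ACell
section

/-! The cellular complex of a bar-type cell structure: exactness and the homotopy groups of the
realisation. -/

set_option autoImplicit false

namespace Pool.Agent.Lib.MP_10be03_gt.A

open Function Finset Pool.Agent.Lib.E2

variable {A N : Type} [CommRing A] [AddCommGroup N] [Module A N] {r : ℕ}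

theorem exists_dequiv {ι κ : Type} [DecidableEq ι] {G : ι → Type} [∀ δ, AddCommGroup (G δ)]
    (e : ι ≃ κ) (φ : ∀ δ, G δ ≃+ N) : ∃ E : (Π₀ δ, G δ) ≃+ (κ →₀ N),
      ∀ δ x, E (DFinsupp.single δ x) = Finsupp.single (e δ) (φ δ x) := by
  have key : ∀ δ' δ, δ' = δ → ∀ x : G δ,
      DFinsupp.single δ' ((φ δ').symm (φ δ x)) = DFinsupp.single δ x := by
    rintro _ δ rfl x
    rw [AddEquiv.symm_apply_apply]
  refine ⟨AddMonoidHom.toAddEquiv
    (DFinsupp.sumAddHom fun δ => (Finsupp.singleAddHom (e δ)).comp (φ δ).toAddMonoidHom)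
    (Finsupp.liftAddHom fun γ =>
      (DFinsupp.singleAddHom G (e.symm γ)).comp (φ (e.symm γ)).symm.toAddMonoidHom) ?_ ?_,
    fun δ x => by simp⟩
  · refine DFinsupp.addHom_ext fun δ x => ?_
    simpa using key _ δ (e.symm_apply_apply δ) x
  · refine Finsupp.addHom_ext fun γ x => ?_
    simp

/-- The bar complex in dependent form; the faces may be renumbered by `κ`. -/
theorem dbar_final (f : ℕ → A) (hN : Reg (fun c => 1 - f c) r N) {idx : ℕ → Type}
    [∀ m, DecidableEq (idx m)] {G : ∀ m, idx m → Type} [∀ m δ, AddCommGroup (G m δ)]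
    (e : ∀ m, idx m ≃ (Fin m → Fin r → ℕ)) (φ : ∀ m δ, G m δ ≃+ N)
    (d : ∀ m, (Π₀ δ, G (m + 1) δ) →+ Π₀ δ, G m δ) (pl : ∀ m, Fin (m + 2) → idx (m + 1) → idx m)
    (g : ∀ m i δ, G (m + 1) δ → G m (pl m i δ))
    (hd : ∀ m δ x, d m (DFinsupp.single δ x) = ∑ i : Fin (m + 2),
      (-1 : ℤ) ^ (i : ℕ) • DFinsupp.single (pl m i δ) (g m i δ x))
    (κ : ∀ m, Equiv.Perm (Fin (m + 2))) (ε : ℕ → ℕ)
    (hκ : ∀ m (i : Fin (m + 2)), (-1 : ℤ) ^ ε m * (-1) ^ (i : ℕ) = (-1) ^ (κ m i : ℕ))
    (hp : ∀ m i δ, e m (pl m i δ) = pull (κ m i) (e (m + 1) δ))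
    (hg : ∀ m i δ x, φ m _ (g m i δ x) = act f (wt (κ m i) (e (m + 1) δ)) • φ (m + 1) δ x) :
    (∀ m, Exact (d (m + 1)) (d m)) ∧ ∀ δ x, DFinsupp.single δ x ∈ (d 0).range ↔
      φ 0 δ x ∈ ida (fun c => 1 - f c) r • (⊤ : Submodule A N) := by
  choose E hE using fun m => exists_dequiv (e m) (φ m)
  have hu : ∀ m {M : Type} [AddCommGroup M] (y : M), (-1 : ℤ) ^ ε m • (-1 : ℤ) ^ ε m • y = y :=
    fun m M _ y => by rw [smul_smul, ← mul_pow]; simp
  let d' : ∀ n, ((Fin (n + 1) → Fin r → ℕ) →₀ N) →+ (Fin n → Fin r → ℕ) →₀ N := fun n =>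
    (-1 : ℤ) ^ ε n • (E n).toAddMonoidHom.comp ((d n).comp (E (n + 1)).symm.toAddMonoidHom)
  have hd' : ∀ n z, d' n (E (n + 1) z) = E n ((-1 : ℤ) ^ ε n • d n z) := fun n z => by
    simp [d']
  obtain ⟨h1, h2⟩ := bar_final f hN d' fun n γ y => by
    obtain ⟨δ, rfl⟩ := (e (n + 1)).surjective γ
    obtain ⟨x, rfl⟩ := (φ (n + 1) δ).surjective y
    rw [← hE, hd', hd, smul_sum, map_sum]
    refine Fintype.sum_equiv (κ n) _ _ fun i => ?_
    rw [smul_smul, hκ, map_zsmul, hE, hp, hg]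
  refine ⟨fun m z => ⟨fun hz => ?_, ?_⟩, fun δ x => ?_⟩
  · obtain ⟨y, hy⟩ := (h1 m (E _ z)).1 (by rw [hd', hz, smul_zero, map_zero])
    obtain ⟨w, rfl⟩ := (E _).surjective y
    exact ⟨(-1 : ℤ) ^ ε (m + 1) • w, by rw [map_zsmul, ← (E _).apply_eq_iff_eq, ← hd', hy]⟩
  · rintro ⟨w, rfl⟩
    have := (h1 m _).2 ⟨E _ ((-1 : ℤ) ^ ε (m + 1) • w), rfl⟩
    rw [hd', map_zsmul (d _), hu, hd', (E _).map_eq_zero_iff] at this
    rw [← hu m (d m _), this, smul_zero]
  · rw [← h2, ← Subsingleton.elim (e 0 δ) default, ← hE]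
    constructor
    · rintro ⟨w, hw⟩
      exact ⟨E _ ((-1 : ℤ) ^ ε 0 • w), by rw [hd', map_zsmul (d _), hu, hw]⟩
    · rintro ⟨y, hy⟩
      obtain ⟨w, rfl⟩ := (E _).surjective y
      exact ⟨(-1 : ℤ) ^ ε 0 • w, by rw [map_zsmul, ← (E _).apply_eq_iff_eq, ← hd', hy]⟩

theorem sign_rev (m : ℕ) (i : Fin (m + 2)) :
    (-1 : ℤ) ^ (m + 1) * (-1) ^ (i : ℕ) = (-1) ^ ((Fin.revPerm i : Fin (m + 2)) : ℕ) := by
  have : m + 1 = (Fin.revPerm i : Fin (m + 2)) + (i : ℕ) := by
    simp only [Fin.revPerm_apply, Fin.val_rev]; omega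
  rw [this, pow_add, mul_assoc, ← mul_pow]
  simp

open Classical in
theorem cells_d_single {B : SimpSp} (C : Cells B) (a b m : ℕ) (δ : C.idx (m + 1))
    (x : (C.Y (m + 1) δ).Pi a b) : C.d a b m (DFinsupp.single δ x) = ∑ i : Fin (m + 2),
      (-1 : ℤ) ^ (i : ℕ) • DFinsupp.single (C.pullD m i δ) ((C.g m i δ).pi a b x) := by
  simp [Cells.d, AddMonoidHom.finsetSum_apply]

/-- The homotopy groups of the realisation of a bar-type cell structure: the vertex inclusion is
onto, with kernel the product of the ideal with the module. -/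
theorem cells_final (hH : CellMain) {B : SimpSp} (C : Cells B) (f : ℕ → A) (N : ℕ → ℕ → Type)
    [∀ a b, AddCommGroup (N a b)] [∀ a b, Module A (N a b)]
    (hN : ∀ a b, Reg (fun c => 1 - f c) r (N a b))
    (e : ∀ m, C.idx m ≃ (Fin m → Fin r → ℕ)) (φ : ∀ a b m δ, (C.Y m δ).Pi a b ≃+ N a b)
    (κ : ∀ m, Equiv.Perm (Fin (m + 2))) (ε : ℕ → ℕ)
    (hκ : ∀ m (i : Fin (m + 2)), (-1 : ℤ) ^ ε m * (-1) ^ (i : ℕ) = (-1) ^ (κ m i : ℕ))
    (hp : ∀ m i δ, e m (C.pullD m i δ) = pull (κ m i) (e (m + 1) δ))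
    (hg : ∀ a b m i δ x, φ a b m _ ((C.g m i δ).pi a b x) =
      act f (wt (κ m i) (e (m + 1) δ)) • φ a b (m + 1) δ x) (a b : ℕ) (δ : C.idx 0) :
    Surjective ((C.vtx δ).pi a b) ∧ ∀ x, (C.vtx δ).pi a b x = 0 ↔
      φ a b 0 δ x ∈ ida (fun c => 1 - f c) r • (⊤ : Submodule A (N a b)) := by
  classical
  have k := fun a b => dbar_final f (hN a b) e (φ a b) (C.d a b) C.pullD
    (fun m i δ => (C.g m i δ).pi a b) (cells_d_single C a b) κ ε hκ hp (hg a b)
  obtain ⟨h1, h2⟩ := hH B C (fun a b => (k a b).1) a b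
  have ha : ∀ x, C.aug a b (DFinsupp.single δ x) = (C.vtx δ).pi a b x := fun x => by
    simp [Cells.aug]
  refine ⟨fun y => ?_, fun x => by rw [← ha, h2, ← (k a b).2]; rfl⟩
  obtain ⟨z, rfl⟩ := h1 y
  refine ⟨z δ, (ha _).symm.trans (congrArg _ (DFinsupp.ext fun δ' => ?_))⟩
  obtain rfl : δ = δ' := (e 0).injective (Subsingleton.elim _ _)
  simp

open TensorProduct

/-- Finitely supported families over the weight lattice as a module over the Laurent ring. -/
noncomputable def lauEquiv (r : ℕ) (Q : Type) [AddCommGroup Q] :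
    ((Fin r → ℤ) →₀ Q) ≃+ Lau r ⊗[ℤ] Q := by
  classical
  exact ((finsuppScalarLeft ℤ Q (Fin r → ℤ)).symm.trans
    (LinearEquiv.rTensor Q (AddMonoidAlgebra.basis (Fin r → ℤ) ℤ).repr.symm)).toAddEquiv

theorem lauEquiv_single {Q : Type} [AddCommGroup Q] (μ : Fin r → ℤ) (q : Q) :
    lauEquiv r Q (Finsupp.single μ q) = (mon μ : Lau r) ⊗ₜ q := by
  simp [lauEquiv, mon]

theorem mon_smul {Q : Type} [AddCommGroup Q] (ν μ : Fin r → ℤ) (q : Q) :
    (mon ν : Lau r) • ((mon μ : Lau r) ⊗ₜ[ℤ] q) = (mon (ν + μ) : Lau r) ⊗ₜ q := by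
  rw [smul_tmul', smul_eq_mul, mon_add, Units.val_mul]

/-- A quotient `P` of the Laurent module by the system is free over the first `p - 1` powers of
an operator `L` acting as the first variable, and the cyclotomic sum of `L` vanishes. -/
theorem quot_final {t : ℕ} (hp : (t + 3).Prime) {Q M P : Type} [AddCommGroup Q] [AddCommGroup M]
    [AddCommGroup P] (φ : M ≃+ Lau (2 * t + 3) ⊗[ℤ] Q) (v : M →+ P) (hv : Surjective v)
    (hk : ∀ x, v x = 0 ↔ φ x ∈ ida (fun c => 1 - ff (var (2 * t + 3)) c) (2 * t + 3) •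
      (⊤ : Submodule (Lau (2 * t + 3)) (Lau (2 * t + 3) ⊗[ℤ] Q)))
    (η : Q → P) (hη : ∀ q, η q = v (φ.symm (1 ⊗ₜ q))) (L : P → P)
    (hL : ∀ x, L (v x) = v (φ.symm ((var (2 * t + 3) 0 : Lau (2 * t + 3)) • φ x))) :
    (∀ y, ∑ i ∈ range (t + 3), L^[i] y = 0) ∧
      Bijective fun x : Fin (t + 2) → Q => ∑ i : Fin (t + 2), L^[i] (η (x i)) := by
  have hi : ∀ (i : ℕ) x, L^[i] (v x) =
      v (φ.symm ((var (2 * t + 3) 0 : Lau (2 * t + 3)) ^ i • φ x)) := fun i x => by
    induction i with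
    | zero => simp
    | succ i ih => rw [iterate_succ_apply', ih, hL, φ.apply_symm_apply, smul_smul, pow_succ']
  refine ⟨fun y => ?_, ?_⟩
  · obtain ⟨x, rfl⟩ := hv y
    simp only [hi]
    rw [← map_sum, ← map_sum, ← sum_smul, hk, φ.apply_symm_apply]
    exact Submodule.smul_mem_smul (phi_mem hp) trivial
  · have e : ∀ x : Fin (t + 2) → Q, ∑ i : Fin (t + 2), L^[i] (η (x i)) = v (φ.symm
        (∑ i : Fin (t + 2), ((var (2 * t + 3) 0 : Lau (2 * t + 3)) ^ (i : ℕ)) ⊗ₜ[ℤ] x i)) :=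
      fun x => by
        simp only [hη, hi, φ.apply_symm_apply, smul_tmul', smul_eq_mul, mul_one, map_sum]
    have k : ∀ y z, v (φ.symm y) = v (φ.symm z) ↔
        (idl (2 * t + 3) (2 * t + 3) • (⊤ : Submodule (Lau (2 * t + 3)) _)).mkQ y =
          (idl (2 * t + 3) (2 * t + 3) • (⊤ : Submodule (Lau (2 * t + 3)) _)).mkQ z := fun y z => by
      rw [← sub_eq_zero, ← map_sub, ← map_sub, hk, φ.apply_symm_apply]
      exact (Submodule.Quotient.eq _).symm
    obtain ⟨h1, h2⟩ := quot_bij (Q := Q) hp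
    refine ⟨fun x y h => h1 ((k _ _).1 (by simpa only [e] using h)), fun y => ?_⟩
    obtain ⟨x, rfl⟩ := hv y
    obtain ⟨z, hz⟩ := h2 (Submodule.mkQ _ (φ x))
    exact ⟨z, (e z).trans (((k _ _).2 hz).trans (by rw [φ.symm_apply_apply]))⟩

/-- The symmetric integer matrix of the system. -/
def Km (c d : ℕ) : ℤ :=
  if c = d then (if c = 0 ∨ c % 2 = 1 then 1 else 0)
  else if c + 1 = d ∨ d + 1 = c then (if min c d = 0 ∨ min c d % 2 = 1 then 1 else -1)
  else if (c + 2 = d ∨ d + 2 = c) ∧ c % 2 = 1 then -1 else 0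

theorem Km_symm (c d : ℕ) : Km c d = Km d c := by
  unfold Km
  split_ifs <;> omega

theorem gg_var (r c : ℕ) :
    gg (var r) c = (-1) ^ (Km c c).natAbs * mon fun d : Fin r => Km c d := by
  induction c using cases3 with
  | h0 =>
    rw [gg, if_pos rfl, show Km 0 0 = 1 from rfl]
    simp only [var, ← mon_add, Int.natAbs_one, pow_one, neg_one_mul]
    refine congrArg (fun m => -mon m) (funext fun d => ?_)
    simp only [Pi.add_apply, eps]
    unfold Km
    split_ifs <;> first | omega | (simp only [or_false, false_or, and_false] at *; omega) | tauto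
  | h1 i =>
    rw [gg, if_neg (by omega), if_pos (by omega), show (2 * i + 1) / 2 = i by omega,
      show Km (2 * i + 1) (2 * i + 1) = 1 by rw [Km, if_pos rfl, if_pos (by omega)]]
    cases i <;>
    · simp only [Xi, var, ← mon_add, ← mon_neg, Int.natAbs_one, pow_one, neg_one_mul]
      refine congrArg (fun m => -mon m) (funext fun d => ?_)
      simp only [Pi.add_apply, Pi.neg_apply, eps]
      unfold Km
      split_ifs <;> omega
  | h2 j =>
    rw [gg, if_neg (by omega), if_neg (by omega),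
      show Km (2 * j + 2) (2 * j + 2) = 0 by rw [Km, if_pos rfl, if_neg (by omega)]]
    simp only [var, ← mon_add, ← mon_neg, Int.natAbs_zero, pow_zero, one_mul]
    refine congrArg mon (funext fun d => ?_)
    simp only [Pi.add_apply, Pi.neg_apply, eps]
    unfold Km
    split_ifs <;> first | omega | (simp only [or_false, false_or, and_false] at *; omega) | tauto

end Pool.Agent.Lib.MP_10be03_gt.A
end

-- part Pool.Agent.Lib.MP_10be03_gt.AIs
section

/-! A system of species with the right characters has the required algebraic properties. -/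

set_option autoImplicit false

namespace Pool.Agent.Lib.E2

open Function Finset Pool.Agent.Lib.MP_10be03_gt.A
open scoped TensorProduct

variable {r : ℕ} {σ : Type} [Fintype σ] {pos : σ → Finset (Fin r)}

theorem a_chOf_add (ty : σ → Ty) (n n' : Fin r → ℕ) :
    chOf pos ty (n + n') = chOf pos ty n * chOf pos ty n' := by
  simp [chOf, nuOf, sum_add_distrib, pow_add, prod_mul_distrib]

theorem a_chOf_smul (ty : σ → Ty) (n : Fin r → ℕ) (i : ℕ) :
    chOf pos ty (i • n) = chOf pos ty n ^ i := by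
  induction i with
  | zero => simp [chOf, nuOf]
  | succ i ih => rw [succ_nsmul, a_chOf_add, ih, pow_succ]

theorem a_mon_sum (w : σ → Fin r → ℤ) (k : σ → ℕ) :
    mon (∑ a, k a • w a) = ∏ a, mon (w a) ^ k a := by
  classical
  have h : ∀ (x : Fin r → ℤ) (i : ℕ), mon (i • x) = mon x ^ i := fun x i => by
    induction i with
    | zero => rw [zero_smul, mon_zero, pow_zero]
    | succ i ih => rw [succ_nsmul, mon_add, ih, pow_succ]
  induction (univ : Finset σ) using Finset.induction_on with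
  | empty => exact mon_zero
  | insert a s ha ih => rw [sum_insert ha, prod_insert ha, mon_add, ih, h]

theorem a_chOf_eq {tb : σ → Ty} (h : ∀ a, tb a ≠ .free) (n : Fin r → ℕ) : ∃ N : ℕ,
    chOf pos tb n = (((-1) ^ N * mon (∑ a, (if tb a = .top then nuOf pos n a else 0) •
      wtOf pos a) : (Lau r)ˣ) : Lau r) := by
  refine ⟨∑ a, if tb a = .top then nuOf pos n a else 0, ?_⟩
  rw [a_mon_sum, ← prod_pow_eq_pow_sum, ← prod_mul_distrib, Units.coe_prod]
  refine prod_congr rfl fun a _ => ?_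
  have := h a
  rcases e : tb a with _ | _ | _
  · exact absurd e this
  · simp [Ty.ch]
  · rw [if_pos rfl, ← mul_pow, neg_one_mul]
    rfl

theorem a_fiber [DecidableEq σ] {v : Fin r → σ} (hv : ∀ c, pos (v c) = {c}) (m : Fin r → ℕ) :
    ∑ a, (∑ c with v c = a, m c) • wtOf pos a = fun c => (m c : ℤ) := by
  rw [sum_congr rfl fun a _ => sum_smul.trans (sum_congr rfl fun c hc =>
    congrArg (fun a => m c • wtOf pos a) (mem_filter.1 hc).2.symm), sum_fiberwise]
  funext d
  simp [wtOf, hv]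

omit [Fintype σ] in
theorem a_fiber_le [DecidableEq σ] {v : Fin r → σ} (hv : ∀ c, pos (v c) = {c}) {m n : Fin r → ℕ}
    (h : ∀ c, m c ≤ n c) (a : σ) : ∑ c with v c = a, m c ≤ nuOf pos n a :=
  (sum_le_sum fun c _ => h c).trans (sum_le_sum_of_subset fun c hc => by
    rw [← (mem_filter.1 hc).2, hv]
    exact mem_singleton_self c)

theorem a_mem_wts {tb : σ → Ty} (h1 : ∀ c, ∃ a, pos a = {c} ∧ tb a = .vac)
    (h2 : ∀ c, ∃ a, pos a = {c} ∧ tb a = .top) (w : Fin r → ℤ) : ∃ n,
    (∑ a, (if tb a = .top then nuOf pos n a else 0) • wtOf pos a) + w ∈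
      wts (wtOf pos) (nuOf pos n) := by
  classical
  choose v hv hv' using h1
  choose t ht ht' using h2
  let n : Fin r → ℕ := fun c => (w c).natAbs
  have k1 := a_fiber_le hv (m := fun c => (w c).toNat) (n := n) fun c => by simp only [n]; omega
  have k2 := a_fiber_le ht (m := fun c => (-w c).toNat) (n := n) fun c => by simp only [n]; omega
  refine ⟨n, fun a => if tb a = .top then nuOf pos n a - ∑ c with t c = a, (-w c).toNat
    else ∑ c with v c = a, (w c).toNat, fun a => ?_, ?_⟩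
  · dsimp only
    split_ifs
    exacts [Nat.sub_le _ _, k1 a]
  · have e : w = (fun c => ((w c).toNat : ℤ)) - fun c => ((-w c).toNat : ℤ) :=
      funext fun c => (Int.toNat_sub_toNat_neg _).symm
    refine (congrArg _ e).trans ?_
    rw [← a_fiber hv, ← a_fiber ht, ← add_sub_assoc, sub_eq_iff_eq_add, ← sum_add_distrib,
      ← sum_add_distrib]
    refine sum_congr rfl fun a _ => ?_
    rw [← add_smul, ← add_smul]
    congr 1
    dsimp only
    split_ifs with h
    · rw [Nat.sub_add_cancel (k2 a), sum_eq_zero fun c hc => ?_, add_zero]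
      have := hv' c
      rw [(mem_filter.1 hc).2, h] at this
      cases this
    · rw [sum_eq_zero (s := filter (t · = a) _) fun c hc =>
        absurd ((mem_filter.1 hc).2 ▸ ht' c) h, zero_add, add_zero]

theorem isSys_of {t : ℕ} (hp : (t + 3).Prime) {pos : σ → Finset (Fin (2 * t + 3))}
    {ta tb tz : σ → Ty} {nz : Fin (2 * t + 3) → ℕ} (h0 : ∀ a, tb a ≠ .free)
    (ha : ∀ n, chOf pos ta n = act (ff (var (2 * t + 3))) n * chOf pos tb n)
    (h1 : ∀ c, ∃ a, pos a = {c} ∧ tb a = .vac) (h2 : ∀ c, ∃ a, pos a = {c} ∧ tb a = .top)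
    (hz : chOf pos tz nz = (var (2 * t + 3) 0 : Lau (2 * t + 3)) * chOf pos tb nz) :
    IsSys (t + 3) pos ta tb tz nz := by
  intro Q _ G _ χ hi hr g hg _ d hd
  choose N hN using a_chOf_eq (pos := pos) h0
  obtain ⟨u, hu, hu'⟩ : ∃ u : (Fin (2 * t + 3) → ℕ) → (Lau (2 * t + 3))ˣ,
      (∀ n, chOf pos tb n = u n) ∧ ∀ n, u n = (-1) ^ N n * mon (∑ a,
        (if tb a = .top then nuOf pos n a else 0) • wtOf pos a) := ⟨_, hN, fun _ => rfl⟩
  have hadd : ∀ n n', u (n + n') = u n * u n' := fun n n' =>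
    Units.ext (by rw [Units.val_mul, ← hu, ← hu, ← hu, a_chOf_add])
  let χ' : ∀ n, G n →+ Lau (2 * t + 3) ⊗[ℤ] Q := fun n =>
    (DistribSMul.toAddMonoidHom _ (((u n)⁻¹ : (Lau (2 * t + 3))ˣ) : Lau (2 * t + 3))).comp (χ n)
  have hχ : ∀ n x, χ' n x = (((u n)⁻¹ : (Lau (2 * t + 3))ˣ) : Lau (2 * t + 3)) • χ n x :=
    fun _ _ => rfl
  obtain ⟨k1, s, k2, k3⟩ := gr_final (reg_lau hp Q) G χ'
    (fun n x y h => hi n ((Units.isUnit (u n)⁻¹).smul_left_cancel.1 h))
    (fun H hH z => by
      induction z using lau_ind with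
      | h0 => exact zero_mem _
      | h2 x y hx hy => exact add_mem hx hy
      | h1 w q =>
        obtain ⟨n, hn⟩ := a_mem_wts h1 h2 w
        obtain ⟨x, hx⟩ := (hr n).ge (AddSubgroup.subset_closure ⟨_, hn, q, rfl⟩)
        have := hH n x
        rw [hχ, hx, hu', mul_inv, Units.val_mul, mul_smul, ← mon_neg,
          show ∀ w, mono w = (mon w : Lau (2 * t + 3)) from fun _ => rfl, mon_smul,
          neg_add_cancel_left] at this
        rcases neg_one_pow_eq_or (Lau (2 * t + 3))ˣ (N n) with e | e <;> simpa [e] using this)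
    g (fun m i δ x => by
      rw [hχ, hχ, hg, ha, hu, hu, smul_smul, smul_smul]
      congr 1
      change ((u (δ.1 + (δ.act i).1 + (δ.act i).2))⁻¹ : (Lau (2 * t + 3))ˣ).1 * _ = _
      rw [hadd, hadd, Units.inv_mul_eq_iff_eq_mul, Units.val_mul, Units.val_mul]
      linear_combination (-(act (ff (var (2 * t + 3))) (δ.act i).1 * u (δ.act i).1 *
        u (δ.act i).2)) * (u δ.1).mul_inv) d hd
  refine ⟨k1, fun δ j hδ hj => ?_⟩
  have k4 : ∀ i y, s (DFinsupp.single (δ i) (j i y)) =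
      ((var (2 * t + 3) 0 : Lau (2 * t + 3)) ^ i) ⊗ₜ[ℤ] y := fun i y => by
    rw [k2, hχ, hj, hz, mul_pow, ← a_chOf_smul, ← hδ, hu, TensorProduct.smul_tmul', smul_eq_mul,
      mul_left_comm, Units.inv_mul, mul_one]
  obtain ⟨k5, k6⟩ := quot_bij (Q := Q) hp
  refine ⟨fun y => (k3 _).2 ?_, fun c => ?_, fun y hy => k5 ?_⟩
  · have := Submodule.smul_mem_smul (phi_mem hp)
      (Submodule.mem_top (x := (1 : Lau (2 * t + 3)) ⊗ₜ[ℤ] y))
    rw [TensorProduct.smul_tmul', smul_eq_mul, mul_one, br, TensorProduct.sum_tmul] at this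
    simp only [map_sum, k4]
    exact this
  · obtain ⟨y, hy⟩ := k6 (Submodule.mkQ _ (s c))
    refine ⟨y, (k3 _).2 ?_⟩
    simp only [map_sub, map_sum, k4]
    exact (Submodule.Quotient.eq _).1 hy.symm
  · have := (k3 _).1 hy
    simp only [map_sum, k4] at this
    refine (Submodule.Quotient.eq _).2 ?_
    simp only [Pi.zero_apply, TensorProduct.tmul_zero, sum_const_zero, sub_zero]
    exact this

end Pool.Agent.Lib.E2
end

-- part Pool.Agent.Lib.MP_10be03_gt.ASpec
section

/-!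
The concrete system of species.
-/

noncomputable section

namespace Pool.Agent.Lib.E2

open Pool.Agent.Lib.MP_10be03_gt.A Finset

section Generic

variable {ι σ : Type} [Fintype ι] [DecidableEq ι] [Fintype σ]

/-- The character of one unit of degree in colour `c`. -/
def colCh (pos : σ → Finset ι) (ty : σ → Ty) (c : ι) : LauR ι :=
  ∏ a, if c ∈ pos a then (ty a).ch (wtOf pos a) else 1

theorem chOf_eq_col (pos : σ → Finset ι) (ty : σ → Ty) (n : ι → ℕ) :
    chOf pos ty n = ∏ c, colCh pos ty c ^ n c := by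
  simp only [chOf, colCh, nuOf, ← prod_pow_eq_pow_sum, ← prod_pow, ite_pow, one_pow]
  rw [prod_comm]
  exact prod_congr rfl fun a _ => by rw [prod_ite_mem, univ_inter]

omit [Fintype ι] in
theorem colCh_ratio (pos : σ → Finset ι) {ty ty' : σ → Ty} (ρ : σ → LauR ι)
    (h : ∀ a, (ty a).ch (wtOf pos a) = ρ a * (ty' a).ch (wtOf pos a)) (c : ι) :
    colCh pos ty c = (∏ a, if c ∈ pos a then ρ a else 1) * colCh pos ty' c := by
  rw [colCh, colCh, ← prod_mul_distrib]
  refine prod_congr rfl fun a _ => ?_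
  split_ifs
  · exact h a
  · rw [one_mul]

end Generic

variable {r : ℕ}

/-- The first type of a species of sign `e`. -/
def tyA (e : ℤ) : Ty := if e = 1 then .top else .vac

/-- The second type of a species of sign `e`. -/
def tyB (e : ℤ) : Ty := if e = -1 then .top else .vac

theorem ch_tyA {e : ℤ} (he : e = 1 ∨ e = 0 ∨ e = -1) (w : Fin r → ℤ) :
    (tyA e).ch w = (((-mon w) ^ e : (Lau r)ˣ) : Lau r) * (tyB e).ch w := by
  have h : mono w = (mon w : Lau r) := rfl
  rcases he with rfl | rfl | rfl <;> simp [tyA, tyB, Ty.ch, h]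

theorem Km_mem (c d : ℕ) : Km c d = 1 ∨ Km c d = 0 ∨ Km c d = -1 := by
  unfold Km
  split_ifs <;> simp

/-- The upper triangular part of the matrix of the system. -/
def spL (x y : Fin r) : ℤ := if x < y then Km x y else 0

theorem spL_mem (x y : Fin r) : spL x y = 1 ∨ spL x y = 0 ∨ spL x y = -1 := by
  unfold spL
  split_ifs
  · exact Km_mem _ _
  · simp

theorem spL_neg_mem (x y : Fin r) : -spL x y = 1 ∨ -spL x y = 0 ∨ -spL x y = -1 := by
  have := spL_mem x y
  omega

theorem mon_zsmul (k : ℤ) (m : Fin r → ℤ) : mon (k • m) = mon m ^ k :=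
  map_zpow (MonoidHom.mk' (fun m : Multiplicative (Fin r → ℤ) => mon m.toAdd)
    fun _ _ => mon_add _ _) (Multiplicative.ofAdd m) k

theorem mon_sum {κ : Type} (s : Finset κ) (m : κ → Fin r → ℤ) :
    mon (∑ i ∈ s, m i) = ∏ i ∈ s, mon (m i) := by
  classical
  induction s using Finset.induction_on with
  | empty => simp [mon_zero]
  | insert a s h ih => rw [sum_insert h, prod_insert h, mon_add, ih]

/-- The species. -/
abbrev Spc (r : ℕ) : Type :=
  (Fin r × Fin r) ⊕ (Fin r × Fin r) ⊕ (Fin r × Fin r) ⊕ Fin r ⊕ Fin r ⊕ Fin r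

/-- The colours of a species. -/
def sPos : Spc r → Finset (Fin r)
  | .inl p => {p.1, p.2}
  | .inr (.inl p) => {p.1}
  | .inr (.inr (.inl p)) => {p.2}
  | .inr (.inr (.inr (.inl c))) => {c}
  | .inr (.inr (.inr (.inr (.inl c)))) => {c}
  | .inr (.inr (.inr (.inr (.inr c)))) => {c}

/-- The first types. -/
def sA : Spc r → Ty
  | .inl p => tyA (spL p.1 p.2)
  | .inr (.inl p) => tyA (-spL p.1 p.2)
  | .inr (.inr (.inl p)) => tyA (-spL p.1 p.2)
  | .inr (.inr (.inr (.inl c))) => tyA (Km c c)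
  | .inr (.inr (.inr (.inr (.inl c)))) => if (c : ℕ) = 0 then .vac else .free
  | .inr (.inr (.inr (.inr (.inr _)))) => .top

/-- The second types. -/
def sB : Spc r → Ty
  | .inl p => tyB (spL p.1 p.2)
  | .inr (.inl p) => tyB (-spL p.1 p.2)
  | .inr (.inr (.inl p)) => tyB (-spL p.1 p.2)
  | .inr (.inr (.inr (.inl c))) => tyB (Km c c)
  | .inr (.inr (.inr (.inr (.inl _)))) => .vac
  | .inr (.inr (.inr (.inr (.inr _)))) => .top

/-- The ratio of the two characters. -/
def sR : Spc r → Lau r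
  | .inl p => ((-mon (wtOf sPos (.inl p))) ^ spL p.1 p.2 : (Lau r)ˣ)
  | .inr (.inl p) => ((-mon (eps r p.1)) ^ (-spL p.1 p.2) : (Lau r)ˣ)
  | .inr (.inr (.inl p)) => ((-mon (eps r p.2)) ^ (-spL p.1 p.2) : (Lau r)ˣ)
  | .inr (.inr (.inr (.inl c))) => ((-mon (eps r c)) ^ Km c c : (Lau r)ˣ)
  | .inr (.inr (.inr (.inr (.inl c)))) => if (c : ℕ) = 0 then 1 else 1 - (var r c : Lau r)
  | .inr (.inr (.inr (.inr (.inr _)))) => 1

theorem wt_single (a : Spc r) (c : Fin r) (h : sPos a = {c}) :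
    wtOf sPos a = eps r c := funext fun d => by simp [wtOf, h, eps, Fin.ext_iff]

theorem wt_pair {x y : Fin r} (h : x ≠ y) :
    wtOf sPos (.inl (x, y) : Spc r) = eps r x + eps r y := funext fun d => by
  have h' : (x : ℕ) ≠ y := fun e => h (Fin.ext e)
  simp only [wtOf, sPos, mem_insert, mem_singleton, Pi.add_apply, eps, Fin.ext_iff]
  split_ifs <;> omega

theorem ch_sA (a : Spc r) : (sA a).ch (wtOf sPos a) = sR a * (sB a).ch (wtOf sPos a) := by
  rcases a with p | p | p | c | c | c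
  · exact ch_tyA (spL_mem _ _) _
  · rw [wt_single (.inr (.inl p)) p.1 rfl]; exact ch_tyA (spL_neg_mem _ _) _
  · rw [wt_single (.inr (.inr (.inl p))) p.2 rfl]; exact ch_tyA (spL_neg_mem _ _) _
  · rw [wt_single (.inr (.inr (.inr (.inl c)))) c rfl]; exact ch_tyA (Km_mem _ _) _
  · rw [wt_single (.inr (.inr (.inr (.inr (.inl c))))) c rfl, sA, sB, sR]
    split_ifs
    · exact (one_mul _).symm
    · exact (mul_one _).symm
  · exact (one_mul _).symm

theorem pair_ratio (c x y : Fin r) :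
    (if c ∈ ({x, y} : Finset (Fin r)) then sR (.inl (x, y) : Spc r) else 1) *
      (if c ∈ ({x} : Finset (Fin r)) then sR (.inr (.inl (x, y)) : Spc r) else 1) *
        (if c ∈ ({y} : Finset (Fin r)) then sR (.inr (.inr (.inl (x, y))) : Spc r) else 1) =
      (mon (spL x y • ((if c = x then eps r y else 0) + if c = y then eps r x else 0)) : Lau r) := by
  by_cases h : x = y
  · subst h
    simp [sR, spL, mon_zero]
  · simp only [sR, wt_pair h, mem_insert, mem_singleton, mon_zsmul, mon_add, mul_assoc]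
    by_cases hx : c = x
    · subst hx
      rw [if_pos (Or.inl rfl), if_pos rfl, if_neg h, if_pos rfl, if_neg h, mon_zero, mul_one,
        mul_one, ← Units.val_mul, zpow_neg, ← neg_mul, mul_zpow, mul_inv_cancel_comm]
    · by_cases hy : c = y
      · subst hy
        rw [if_pos (Or.inr rfl), if_neg hx, if_pos rfl, if_neg hx, if_pos rfl, mon_zero, one_mul,
          one_mul, ← Units.val_mul, zpow_neg, ← mul_neg, mul_zpow, mul_inv_cancel_right]
      · simp [hx, hy, mon_zero]

theorem sum_spL (c : Fin r) : (∑ p : Fin r × Fin r, spL p.1 p.2 •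
    ((if c = p.1 then eps r p.2 else 0) + if c = p.2 then eps r p.1 else 0)) + Km c c • eps r c =
      fun d : Fin r => Km c d := by
  funext d
  simp only [Pi.add_apply, Finset.sum_apply, Pi.smul_apply, smul_eq_mul, mul_add, sum_add_distrib,
    Fintype.sum_prod_type, ite_apply, Pi.zero_apply, mul_ite, mul_zero, eps, Fin.val_inj, mul_one]
  rw [sum_comm (f := fun x y : Fin r => if c = x then if d = y then spL x y else 0 else 0)]
  simp only [sum_ite_eq, mem_univ, if_true, spL]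
  rcases lt_trichotomy c d with h | h | h
  · simp [h, h.not_gt, h.ne']
  · simp [h]
  · simp [h, h.not_gt, h.ne, Km_symm d c]

theorem ratio_eq (c : Fin r) : (∏ a : Spc r, if c ∈ sPos a then sR a else 1) = ff (var r) c := by
  have e : ∀ f : Fin r → Lau r, (∏ x, if c ∈ ({x} : Finset (Fin r)) then f x else 1) = f c :=
    fun f => by simp
  have hk : ((-mon (eps r c)) ^ Km c c : (Lau r)ˣ) =
      (-1) ^ (Km c c).natAbs * mon (Km c c • eps r c) := by
    rw [mon_zsmul]
    rcases Km_mem c c with h | h | h <;> simp [h]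
  simp only [Fintype.prod_sum_type]
  change (∏ p : Fin r × Fin r, if c ∈ ({p.1, p.2} : Finset (Fin r)) then _ else 1) *
    ((∏ p : Fin r × Fin r, if c ∈ ({p.1} : Finset (Fin r)) then _ else 1) *
    ((∏ p : Fin r × Fin r, if c ∈ ({p.2} : Finset (Fin r)) then _ else 1) *
    ((∏ x : Fin r, if c ∈ ({x} : Finset (Fin r)) then _ else 1) *
    ((∏ x : Fin r, if c ∈ ({x} : Finset (Fin r)) then _ else 1) *
    ∏ x : Fin r, if c ∈ ({x} : Finset (Fin r)) then _ else 1)))) = _
  rw [e, e, e, ← mul_assoc (∏ _, _) (∏ _, _), ← mul_assoc, ← prod_mul_distrib, ← prod_mul_distrib,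
    prod_congr rfl fun p _ => pair_ratio c p.1 p.2, ← Units.coe_prod, ← mon_sum, ff, gg_var,
    ← sum_spL, mon_add, sR, sR, sR, hk]
  simp only [Units.val_mul]
  ring

/-- The types of the root. -/
def sZ (x y : Fin r) (a : Spc r) : Ty :=
  if a = .inl (y, x) then .top else if a = .inr (.inr (.inr (.inr (.inr y)))) then .vac else sB a

theorem col_sZ {x y : Fin r} (h : x < y) :
    colCh sPos (sZ x y) y = (var r x : Lau r) * colCh sPos sB y := by
  rw [colCh_ratio sPos (ty' := sB) (fun a => if a = .inl (y, x) then -(mon (eps r y + eps r x) : Lau r)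
    else if a = .inr (.inr (.inr (.inr (.inr y)))) then -(mon (-eps r y) : Lau r) else 1)]
  · congr 1
    rw [prod_eq_mul (.inl (y, x)) (.inr (.inr (.inr (.inr (.inr y))))) (by simp)]
    · simp only [sPos, mem_insert, mem_singleton, true_or, if_true, reduceCtorEq, if_false,
        neg_mul_neg]
      rw [← Units.val_mul, ← mon_add, var]
      congr 2
      abel
    · intro a _ ha
      rw [if_neg ha.1, if_neg ha.2, ite_self]
    · simp
    · simp
  · intro a
    unfold sZ
    split_ifs with h1 h2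
    · subst h1
      rw [wt_pair h.ne', sB, spL, if_neg h.not_gt]
      exact (mul_one _).symm
    · subst h2
      rw [wt_single (.inr (.inr (.inr (.inr (.inr y))))) y rfl, sB, Ty.ch, Ty.ch, neg_mul_neg,
        show mono (eps r y) = (mon (eps r y) : Lau r) from rfl, ← Units.val_mul, ← mon_add,
        neg_add_cancel, mon_zero, Units.val_one]
    · exact (one_mul _).symm

theorem exists_species (r : Nat) (hr : 1 < r) : ∃ (k : Nat) (pos : Fin k → Finset (Fin r))
    (ta tb tz : Fin k → Ty) (nz : Fin r → Nat), (∀ a, tb a ≠ Ty.free) ∧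
    (∀ n, chOf pos ta n = act (ff (var r)) n * chOf pos tb n) ∧
    (∀ c, ∃ a, pos a = {c} ∧ tb a = Ty.vac) ∧ (∀ c, ∃ a, pos a = {c} ∧ tb a = Ty.top) ∧
    chOf pos tz nz = (var r 0 : Lau r) * chOf pos tb nz := by
  let e := Fintype.equivFin (Spc r)
  have he : ∀ (ty : Spc r → Ty) n, chOf (sPos ∘ e.symm) (ty ∘ e.symm) n = chOf sPos ty n :=
    fun ty n => Equiv.prod_comp e.symm fun a => (ty a).ch (wtOf sPos a) ^ nuOf sPos n a
  refine ⟨_, sPos ∘ e.symm, sA ∘ e.symm, sB ∘ e.symm,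
    sZ ⟨0, by omega⟩ ⟨1, hr⟩ ∘ e.symm, Pi.single ⟨1, hr⟩ 1, fun a => ?_, fun n => ?_,
    fun c => ⟨e (.inr (.inr (.inr (.inr (.inl c))))), by simp [sPos], by simp [sB]⟩,
    fun c => ⟨e (.inr (.inr (.inr (.inr (.inr c))))), by simp [sPos], by simp [sB]⟩, ?_⟩
  · change sB (e.symm a) ≠ _
    rcases e.symm a with p | p | p | c | c | c <;> simp only [sB, tyB] <;>
      first | (split_ifs <;> simp) | simp
  · rw [he, he, chOf_eq_col, chOf_eq_col, act, ← prod_mul_distrib]
    exact prod_congr rfl fun c _ => by rw [colCh_ratio sPos sR ch_sA, ratio_eq, mul_pow]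
  · have h1 : ∀ ty : Spc r → Ty, chOf sPos ty (Pi.single ⟨1, hr⟩ 1) = colCh sPos ty ⟨1, hr⟩ :=
      fun ty => by
        rw [chOf_eq_col, prod_eq_single ⟨1, hr⟩ (fun c _ hc => by simp [hc]) (by simp)]
        simp
    rw [he, he, h1, h1, col_sZ (by simp [Fin.lt_def])]

end Pool.Agent.Lib.E2
end
end

-- part Pool.Agent.Lib.MP_10be03_gt.A
section

/-! Layer A. -/

set_option autoImplicit false

namespace Pool.Agent.Lib.E2

theorem a_holds : AStmt := fun p hp h2 => by
  obtain ⟨t, rfl⟩ : ∃ t, p = t + 3 := ⟨p - 3, by have := hp.two_le; omega⟩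
  obtain ⟨k, pos, ta, tb, tz, nz, h0, ha, h3, h4, hz⟩ := exists_species (2 * t + 3) (by omega)
  exact ⟨_, k, pos, ta, tb, tz, nz, isSys_of hp h0 ha h3 h4 hz⟩

end Pool.Agent.Lib.E2
end
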