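import Mathlib

/-!
The complex Clifford algebra of a real inner product space and its normalised trace.
-/

noncomputable section
open scoped TensorProduct

namespace Pool.Agent.Lib.E2

variable (U : Type) [NormedAddCommGroup U] [InnerProductSpace ℝ U]

/-- The quadratic form `v ↦ -‖v‖²`. -/
def qf : QuadraticForm ℝ U := -LinearMap.BilinMap.toQuadraticMap (innerₗ U)

theorem qf_apply (v : U) : qf U v = -inner ℝ v v := rfl

instance instStarModuleClifford : StarModule ℝ (CliffordAlgebra (qf U)) :=
  ⟨fun r x => CliffordAlgebra.star_smul r x⟩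

/-- The complex Clifford algebra of `U`. -/
def Cl : Type := ℂ ⊗[ℝ] CliffordAlgebra (qf U)

set_option warn.classDefReducibility false in
/-- The ring structure of the tensor product. -/
def ringCl : Ring (Cl U) :=
  (Algebra.TensorProduct.instRing : Ring (ℂ ⊗[ℝ] CliffordAlgebra (qf U)))

instance instRingCl : Ring (Cl U) := ringCl U

set_option warn.classDefReducibility false in
/-- The complex algebra structure of the tensor product. -/
def algebraCl : Algebra ℂ (Cl U) :=
  (Algebra.TensorProduct.leftAlgebra : Algebra ℂ (ℂ ⊗[ℝ] CliffordAlgebra (qf U)))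

instance instAlgebraCl : Algebra ℂ (Cl U) := algebraCl U

set_option warn.classDefReducibility false in
/-- The star structure of the tensor product: complex conjugation on `ℂ`, and the Clifford
conjugation, which sends each generator to its negative. -/
def starRingCl : StarRing (Cl U) := (inferInstance : StarRing (ℂ ⊗[ℝ] CliffordAlgebra (qf U)))

instance instStarRingCl : StarRing (Cl U) := starRingCl U

variable {U}

/-- The self-adjoint generator of a vector: `cl v * cl v = ‖v‖²`. -/
def cl (v : U) : Cl U := Complex.I ⊗ₜ[ℝ] CliffordAlgebra.ι (qf U) v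

/-- The algebra map induced by a linear isometry. -/
def clMap {U' : Type} [NormedAddCommGroup U'] [InnerProductSpace ℝ U'] (k : U →ₗᵢ[ℝ] U') :
    Cl U →ₐ[ℂ] Cl U' :=
  Algebra.TensorProduct.map (AlgHom.id ℂ ℂ)
    (CliffordAlgebra.map ⟨k.toLinearMap, fun v => by simp [qf_apply]⟩)

/-- The product of the image of `c` under an isometry with `d`. -/
def clMul {U' : Type} [NormedAddCommGroup U'] [InnerProductSpace ℝ U'] (k : U →ₗᵢ[ℝ] U')
    (c : Cl U) (d : Cl U') : Cl U' := clMap k c * d

/-- The normalised trace of the left regular representation of an algebra. -/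
def regTrace (A : Type) [Ring A] [Algebra ℂ A] (x : A) : ℂ :=
  LinearMap.trace ℂ A (LinearMap.mulLeft ℂ x) / (Module.finrank ℂ A : ℂ)

/-- The normalised trace of the Clifford algebra. -/
def tr (x : Cl U) : ℂ := regTrace (Cl U) x

end Pool.Agent.Lib.E2
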