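import Pool.Agent.Lib.MP_10be03_gt.ClDef

/-!
Finite dimensionality of the Clifford algebra and positivity of the trace form.
-/

noncomputable section
open scoped TensorProduct ComplexConjugate

namespace Pool.Agent.Lib.E2

variable {U : Type} [NormedAddCommGroup U] [InnerProductSpace ℝ U]
variable {U' : Type} [NormedAddCommGroup U'] [InnerProductSpace ℝ U']
variable {U'' : Type} [NormedAddCommGroup U''] [InnerProductSpace ℝ U'']

theorem cl_star_smul (r : ℂ) (x : Cl U) : star (r • x) = star r • star x := by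
  induction x using TensorProduct.induction_on with
  | zero =>
    change star (r • (0 : Cl U)) = star r • star (0 : Cl U)
    rw [smul_zero, star_zero, smul_zero]
  | tmul a b =>
    change star ((r * a) ⊗ₜ[ℝ] b) = (star r * star a) ⊗ₜ[ℝ] star b
    rw [TensorProduct.star_tmul, star_mul']
  | add x y hx hy =>
    have h : ∀ x y : Cl U, star (r • x) = star r • star x → star (r • y) = star r • star y →
        star (r • (x + y)) = star r • star (x + y) := fun x y hx hy => by
      rw [smul_add, star_add, hx, hy, star_add, smul_add]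
    exact h x y hx hy

instance instStarModuleCl : StarModule ℂ (Cl U) := ⟨cl_star_smul⟩

theorem tr_add (x y : Cl U) : tr (x + y) = tr x + tr y := by
  have h : LinearMap.mulLeft ℂ (x + y) = LinearMap.mulLeft ℂ x + LinearMap.mulLeft ℂ y := by
    ext z; simp [add_mul]
  simp only [tr, regTrace, h, map_add, add_div]

theorem tr_smul (r : ℂ) (x : Cl U) : tr (r • x) = r * tr x := by
  have h : LinearMap.mulLeft ℂ (r • x) = r • LinearMap.mulLeft ℂ x := by
    ext z; simp
  simp only [tr, regTrace, h, map_smul, smul_eq_mul, mul_div_assoc]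

/-- The normalised trace as a linear map. -/
def trL : Cl U →ₗ[ℂ] ℂ where
  toFun := tr
  map_add' := tr_add
  map_smul' := tr_smul

theorem trL_apply (x : Cl U) : trL x = tr x := rfl

theorem tr_zero : tr (0 : Cl U) = 0 := map_zero trL

theorem tr_neg (x : Cl U) : tr (-x) = -tr x := map_neg trL x

theorem tr_sum {ι : Type} (s : Finset ι) (f : ι → Cl U) :
    tr (∑ i ∈ s, f i) = ∑ i ∈ s, tr (f i) := map_sum trL f s

theorem tr_mul_comm (x y : Cl U) : tr (x * y) = tr (y * x) := by
  simp only [tr, regTrace, LinearMap.mulLeft_mul]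
  rw [← Module.End.mul_eq_comp, ← Module.End.mul_eq_comp, LinearMap.trace_mul_comm]

theorem cl_add (v w : U) : cl (v + w) = cl v + cl w := by
  unfold cl
  rw [map_add]
  exact TensorProduct.tmul_add _ _ _

theorem cl_smul (r : ℝ) (v : U) : cl (r • v) = (r : ℂ) • cl v := by
  unfold cl
  rw [map_smul]
  change _ = ((r : ℂ) * Complex.I) ⊗ₜ[ℝ] _
  rw [TensorProduct.tmul_smul, TensorProduct.smul_tmul']
  rfl

theorem cl_zero : cl (0 : U) = 0 := by simpa using cl_smul 0 (0 : U)

theorem cl_neg (v : U) : cl (-v) = -cl v := by simpa using cl_smul (-1) v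

theorem cl_sub (v w : U) : cl (v - w) = cl v - cl w := by
  rw [sub_eq_add_neg, cl_add, cl_neg, sub_eq_add_neg]

theorem cl_sum {ι : Type} (s : Finset ι) (f : ι → U) : cl (∑ i ∈ s, f i) = ∑ i ∈ s, cl (f i) :=
  map_sum (AddMonoidHom.mk' (cl (U := U)) cl_add) f s

theorem cl_mul_self (v : U) : cl v * cl v = ((inner ℝ v v : ℝ) : ℂ) • (1 : Cl U) := by
  change (Complex.I ⊗ₜ[ℝ] CliffordAlgebra.ι (qf U) v) *
    (Complex.I ⊗ₜ[ℝ] CliffordAlgebra.ι (qf U) v) =
      (((inner ℝ v v : ℝ) : ℂ) * 1) ⊗ₜ[ℝ] (1 : CliffordAlgebra (qf U))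
  rw [Algebra.TensorProduct.tmul_mul_tmul, CliffordAlgebra.ι_sq_scalar, Complex.I_mul_I,
    Algebra.algebraMap_eq_smul_one, TensorProduct.tmul_smul, TensorProduct.smul_tmul', qf_apply]
  simp

theorem cl_mul_add_swap (v w : U) :
    cl v * cl w + cl w * cl v = ((2 * inner ℝ v w : ℝ) : ℂ) • (1 : Cl U) := by
  have h := cl_mul_self (v + w)
  rw [cl_add, add_mul, mul_add, mul_add, cl_mul_self, cl_mul_self, inner_add_left,
    inner_add_right, inner_add_right, real_inner_comm v w] at h
  push_cast at h ⊢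
  linear_combination (norm := module) h

theorem cl_anticomm {v w : U} (h : inner ℝ v w = 0) : cl v * cl w = -(cl w * cl v) := by
  have h1 := cl_mul_add_swap v w
  rw [h] at h1
  exact eq_neg_of_add_eq_zero_left (by simpa using h1)

theorem star_cl (v : U) : star (cl v) = cl v := by
  change star (Complex.I ⊗ₜ[ℝ] CliffordAlgebra.ι (qf U) v) =
    Complex.I ⊗ₜ[ℝ] CliffordAlgebra.ι (qf U) v
  rw [TensorProduct.star_tmul, CliffordAlgebra.star_ι, TensorProduct.tmul_neg,
    ← TensorProduct.neg_tmul]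
  simp

theorem clMap_cl (k : U →ₗᵢ[ℝ] U') (v : U) : clMap k (cl v) = cl (k v) := by
  change Algebra.TensorProduct.map _ _ (Complex.I ⊗ₜ[ℝ] CliffordAlgebra.ι (qf U) v) = _
  rw [Algebra.TensorProduct.map_tmul, CliffordAlgebra.map_apply_ι]
  rfl

/-- The generators generate. -/
theorem cl_induction {P : Cl U → Prop} (h1 : P 1) (hcl : ∀ v x, P x → P (cl v * x))
    (hadd : ∀ x y, P x → P y → P (x + y)) (hsmul : ∀ (r : ℂ) x, P x → P (r • x)) (x : Cl U) :
    P x := by
  have key : ∀ b : CliffordAlgebra (qf U), P ((1 : ℂ) ⊗ₜ[ℝ] b) := by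
    intro b
    induction b using CliffordAlgebra.left_induction with
    | algebraMap r =>
      have h : ((1 : ℂ) ⊗ₜ[ℝ] algebraMap ℝ (CliffordAlgebra (qf U)) r : Cl U) =
          (r : ℂ) • (1 : Cl U) := by
        change _ = ((r : ℂ) * 1) ⊗ₜ[ℝ] (1 : CliffordAlgebra (qf U))
        rw [Algebra.algebraMap_eq_smul_one, TensorProduct.tmul_smul, TensorProduct.smul_tmul']
        simp
      exact h ▸ hsmul r 1 h1
    | add x y hx hy => exact (TensorProduct.tmul_add (R := ℝ) (1 : ℂ) x y) ▸ hadd _ _ hx hy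
    | ι_mul x m hx =>
      have h : ((1 : ℂ) ⊗ₜ[ℝ] (CliffordAlgebra.ι (qf U) m * x) : Cl U) =
          (-Complex.I) • (cl m * (show Cl U from (1 : ℂ) ⊗ₜ[ℝ] x)) := by
        change _ = (-Complex.I) • ((Complex.I ⊗ₜ[ℝ] CliffordAlgebra.ι (qf U) m) *
          ((1 : ℂ) ⊗ₜ[ℝ] x))
        rw [Algebra.TensorProduct.tmul_mul_tmul, TensorProduct.smul_tmul']
        simp
      exact h ▸ hsmul _ _ (hcl m _ hx)
  induction x using TensorProduct.induction_on with
  | zero => exact (zero_smul ℂ (1 : Cl U)) ▸ hsmul 0 1 h1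
  | tmul a b =>
    have h : (a ⊗ₜ[ℝ] b : Cl U) = a • (show Cl U from (1 : ℂ) ⊗ₜ[ℝ] b) := by
      change _ = (a * 1) ⊗ₜ[ℝ] b
      rw [mul_one]
    exact h ▸ hsmul a _ (key b)
  | add x y hx hy => exact hadd _ _ hx hy

theorem clHom_ext {A : Type} [Ring A] [Algebra ℂ A] {f g : Cl U →ₐ[ℂ] A}
    (h : ∀ v, f (cl v) = g (cl v)) : f = g := by
  ext x
  induction x using cl_induction with
  | h1 => simp
  | hcl v x hx => rw [map_mul, map_mul, h, hx]
  | hadd x y hx hy => rw [map_add, map_add, hx, hy]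
  | hsmul r x hx => rw [map_smul, map_smul, hx]

theorem clMap_clMap (k : U →ₗᵢ[ℝ] U') (k' : U' →ₗᵢ[ℝ] U'') (x : Cl U) :
    clMap k' (clMap k x) = clMap (k'.comp k) x :=
  DFunLike.congr_fun (clHom_ext (f := (clMap k').comp (clMap k)) (g := clMap (k'.comp k))
    fun v => by simp [clMap_cl]) x

theorem clMap_congr {k k' : U →ₗᵢ[ℝ] U'} (h : ∀ v, k v = k' v) : clMap k = clMap k' :=
  clHom_ext fun v => by simp [clMap_cl, h]

theorem clMap_of_id {k : U →ₗᵢ[ℝ] U} (h : ∀ v, k v = v) (x : Cl U) : clMap k x = x :=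
  DFunLike.congr_fun (clHom_ext (f := clMap k) (g := AlgHom.id ℂ _)
    fun v => by simp [clMap_cl, h]) x

theorem clMap_star (k : U →ₗᵢ[ℝ] U') (x : Cl U) : clMap k (star x) = star (clMap k x) := by
  induction x using cl_induction with
  | h1 => simp
  | hcl v x hx => rw [star_mul, map_mul, map_mul, star_mul, hx, star_cl, clMap_cl, star_cl]
  | hadd x y hx hy => rw [star_add, map_add, map_add, star_add, hx, hy]
  | hsmul r x hx => rw [star_smul, map_smul, map_smul, star_smul, hx]

/-- The trace is invariant under isometric isomorphisms. -/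
theorem tr_clMap_equiv (k : U ≃ₗᵢ[ℝ] U') (x : Cl U) : tr (clMap k.toLinearIsometry x) = tr x := by
  let e : Cl U ≃ₐ[ℂ] Cl U' := AlgEquiv.ofAlgHom (clMap k.toLinearIsometry)
    (clMap k.symm.toLinearIsometry) (clHom_ext fun v => by simp [clMap_cl])
    (clHom_ext fun v => by simp [clMap_cl])
  have h : LinearMap.mulLeft ℂ (e x) = e.toLinearEquiv.conj (LinearMap.mulLeft ℂ x) := by
    ext z; simp [LinearEquiv.conj_apply]
  change LinearMap.trace ℂ _ (LinearMap.mulLeft ℂ (e x)) / _ = _
  rw [h, LinearMap.trace_conj', ← e.toLinearEquiv.finrank_eq]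
  rfl

/-- The product of the generators of a list of vectors. -/
def mon (l : List U) : Cl U := (l.map cl).prod

@[simp] theorem mon_nil : mon ([] : List U) = 1 := rfl

@[simp] theorem mon_cons (v : U) (l : List U) : mon (v :: l) = cl v * mon l := rfl

theorem clMap_mon (k : U →ₗᵢ[ℝ] U') (l : List U) : clMap k (mon l) = mon (l.map k) := by
  induction l with
  | nil => simp
  | cons v l ih => simp [clMap_cl, ih]

theorem star_mon_mul_self {l : List U} (h : ∀ v ∈ l, inner ℝ v v = 1) :
    star (mon l) * mon l = 1 := by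
  induction l with
  | nil => simp
  | cons v l ih =>
    rw [mon_cons, star_mul, star_cl, mul_assoc, ← mul_assoc (cl v), cl_mul_self,
      h v List.mem_cons_self]
    simpa using ih fun w hw => h w (List.mem_cons_of_mem _ hw)

/-- The span of the monomials in the sublists of `L`. -/
def monSpan (L : List U) : Submodule ℂ (Cl U) := Submodule.span ℂ (mon '' {l | l.Sublist L})

theorem monSpan_le_cons (a : U) (L : List U) : monSpan L ≤ monSpan (a :: L) :=
  Submodule.span_mono (Set.image_mono fun _ h => List.Sublist.cons a h)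

theorem cl_mul_mem_cons (a : U) (L : List U) {x : Cl U} (hx : x ∈ monSpan L) :
    cl a * x ∈ monSpan (a :: L) := by
  induction hx using Submodule.span_induction with
  | mem x hx =>
    obtain ⟨l, hl, rfl⟩ := hx
    exact Submodule.subset_span ⟨a :: l, List.Sublist.cons_cons a hl, rfl⟩
  | zero => simp
  | add x y _ _ hx hy => rw [mul_add]; exact add_mem hx hy
  | smul r x _ hx => rw [mul_smul_comm]; exact Submodule.smul_mem _ r hx

theorem cl_mul_mem_monSpan {L : List U} {v : U} (hv : v ∈ L) {x : Cl U} (hx : x ∈ monSpan L) :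
    cl v * x ∈ monSpan L := by
  induction L generalizing x with
  | nil => simp at hv
  | cons a L ih =>
    induction hx using Submodule.span_induction with
    | mem x hx =>
      obtain ⟨l, hl, rfl⟩ := hx
      rcases List.sublist_cons_iff.1 hl with hl | ⟨l, rfl, hl'⟩
      · have hm : mon l ∈ monSpan L := Submodule.subset_span ⟨l, hl, rfl⟩
        rcases List.mem_cons.1 hv with rfl | hv
        · exact cl_mul_mem_cons _ _ hm
        · exact monSpan_le_cons _ _ (ih hv hm)
      · have hm : mon l ∈ monSpan L := Submodule.subset_span ⟨l, hl', rfl⟩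
        rcases List.mem_cons.1 hv with rfl | hv
        · rw [mon_cons, ← mul_assoc, cl_mul_self, smul_mul_assoc, one_mul]
          exact Submodule.smul_mem _ _ (monSpan_le_cons _ _ hm)
        · rw [mon_cons, ← mul_assoc, eq_sub_of_add_eq (cl_mul_add_swap v a), sub_mul,
            smul_mul_assoc, one_mul, mul_assoc]
          exact sub_mem (Submodule.smul_mem _ _ (monSpan_le_cons _ _ hm))
            (cl_mul_mem_cons _ _ (ih hv hm))
    | zero => simp
    | add x y _ _ hx hy => rw [mul_add]; exact add_mem hx hy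
    | smul r x _ hx => rw [mul_smul_comm]; exact Submodule.smul_mem _ r hx

theorem monSpan_eq_top {L : List U} (hL : Submodule.span ℝ {v | v ∈ L} = ⊤) : monSpan L = ⊤ := by
  refine eq_top_iff.2 fun x _ => ?_
  induction x using cl_induction with
  | h1 => exact Submodule.subset_span ⟨[], List.nil_sublist L, rfl⟩
  | hcl v x hx =>
    have hv : v ∈ Submodule.span ℝ {v | v ∈ L} := hL ▸ Submodule.mem_top
    induction hv using Submodule.span_induction with
    | mem v hv => exact cl_mul_mem_monSpan hv (hx trivial)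
    | zero => simp [cl_zero]
    | add v w _ _ hv hw => rw [cl_add, add_mul]; exact add_mem (hv trivial) (hw trivial)
    | smul r v _ hv => rw [cl_smul, smul_mul_assoc]; exact Submodule.smul_mem _ _ (hv trivial)
  | hadd x y hx hy => exact add_mem (hx trivial) (hy trivial)
  | hsmul r x hx => exact Submodule.smul_mem _ r (hx trivial)

/-- The reflection in the hyperplane orthogonal to `a`. -/
def refl (a : U) : U ≃ₗᵢ[ℝ] U := Submodule.reflection (ℝ ∙ a)ᗮ

theorem refl_self (a : U) : refl a a = -a :=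
  Submodule.reflection_orthogonalComplement_singleton_eq_neg a

theorem refl_of_inner {a v : U} (h : inner ℝ a v = 0) : refl a v = v :=
  Submodule.reflection_mem_subspace_eq_self
    (Submodule.mem_orthogonal_singleton_iff_inner_right.2 h)

theorem clMap_refl_mon {a : U} {l : List U} (h : ∀ v ∈ l, inner ℝ a v = 0) :
    clMap (refl a).toLinearIsometry (mon l) = mon l := by
  rw [clMap_mon]
  congr 1
  conv_rhs => rw [← List.map_id l]
  exact List.map_congr_left fun v hv => refl_of_inner (h v hv)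

theorem clMap_refl_mon_of_mem {a : U} {l : List U}
    (h : l.Pairwise fun v w => inner ℝ v w = 0) (ha : a ∈ l) :
    clMap (refl a).toLinearIsometry (mon l) = -mon l := by
  induction l with
  | nil => simp at ha
  | cons b l ih =>
    rw [List.pairwise_cons] at h
    rw [mon_cons, map_mul, clMap_cl]
    rcases List.mem_cons.1 ha with rfl | ha
    · rw [clMap_refl_mon h.1]
      exact (congrArg (fun u => cl u * mon l) (refl_self a)).trans (by rw [cl_neg, neg_mul])
    · rw [ih h.2 ha, mul_neg]
      exact congrArg (fun u => -(cl u * mon l))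
        (refl_of_inner (by rw [real_inner_comm]; exact h.1 a ha))

theorem tr_eq_zero_of_odd (k : U ≃ₗᵢ[ℝ] U) {x : Cl U} (h : clMap k.toLinearIsometry x = -x) :
    tr x = 0 := by
  have h1 := tr_clMap_equiv k x
  rw [h, tr_neg] at h1
  linear_combination (-1 / 2 : ℂ) * h1

/-- `L` is a list of pairwise orthogonal unit vectors. -/
def IsON (L : List U) : Prop :=
  (∀ v ∈ L, inner ℝ v v = 1) ∧ L.Pairwise fun v w => inner ℝ v w = 0

theorem IsON.sublist {L l : List U} (h : IsON L) (hl : l.Sublist L) : IsON l :=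
  ⟨fun v hv => h.1 v (hl.subset hv), h.2.sublist hl⟩

theorem IsON.nodup {L : List U} (h : IsON L) : L.Nodup :=
  h.2.imp_of_mem fun {v w} hv _ hvw e => by
    have := h.1 v hv
    rw [← e, this] at hvw
    exact one_ne_zero hvw

theorem IsON.inner_of_ne {L : List U} (h : IsON L) {v w : U} (hv : v ∈ L) (hw : w ∈ L)
    (hne : v ≠ w) : inner ℝ v w = 0 :=
  haveI : Std.Symm fun v w : U => inner ℝ v w = 0 :=
    ⟨fun a b hab => by rw [real_inner_comm]; exact hab⟩
  h.2.forall hv hw hne

theorem eq_of_sublist_of_mem_iff {α : Type} {L l l' : List α} (hL : L.Nodup) (hl : l.Sublist L)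
    (hl' : l'.Sublist L) (h : ∀ a, a ∈ l ↔ a ∈ l') : l = l' := by
  induction L generalizing l l' with
  | nil => rw [List.sublist_nil.1 hl, List.sublist_nil.1 hl']
  | cons a L ih =>
    rw [List.nodup_cons] at hL
    rcases List.sublist_cons_iff.1 hl with h1 | ⟨r, rfl, h1⟩ <;>
      rcases List.sublist_cons_iff.1 hl' with h2 | ⟨r', rfl, h2⟩
    · exact ih hL.2 h1 h2 h
    · exact absurd (h1.subset ((h a).2 List.mem_cons_self)) hL.1
    · exact absurd (h2.subset ((h a).1 List.mem_cons_self)) hL.1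
    · refine congrArg _ (ih hL.2 h1 h2 fun b => ⟨fun hb => ?_, fun hb => ?_⟩)
      · exact (List.mem_cons.1 ((h b).1 (List.mem_cons_of_mem _ hb))).resolve_left
          fun e => hL.1 (e ▸ h1.subset hb)
      · exact (List.mem_cons.1 ((h b).2 (List.mem_cons_of_mem _ hb))).resolve_left
          fun e => hL.1 (e ▸ h2.subset hb)

theorem IsON.tr_of_ne {L l l' : List U} (h : IsON L) (hl : l.Sublist L) (hl' : l'.Sublist L)
    (hne : l ≠ l') : tr (star (mon l) * mon l') = 0 := by
  have key : ∀ {l l' : List U}, l.Sublist L → l'.Sublist L → ∀ a ∈ l, a ∉ l' →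
      clMap (refl a).toLinearIsometry (mon l) = -mon l ∧
        clMap (refl a).toLinearIsometry (mon l') = mon l' := fun hl hl' a ha ha' =>
    ⟨clMap_refl_mon_of_mem (h.sublist hl).2 ha, clMap_refl_mon fun v hv =>
      h.inner_of_ne (hl.subset ha) (hl'.subset hv) fun e => ha' (e ▸ hv)⟩
  by_contra hc
  refine hne (eq_of_sublist_of_mem_iff h.nodup hl hl' fun a => ⟨fun ha => ?_, fun ha => ?_⟩)
  · by_contra ha'
    obtain ⟨h1, h2⟩ := key hl hl' a ha ha'
    exact hc (tr_eq_zero_of_odd (refl a) (by rw [map_mul, clMap_star, h1, h2, star_neg, neg_mul]))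
  · by_contra ha'
    obtain ⟨h1, h2⟩ := key hl' hl a ha ha'
    exact hc (tr_eq_zero_of_odd (refl a) (by rw [map_mul, clMap_star, h1, h2, mul_neg]))

variable [FiniteDimensional ℝ U]

variable (U) in
theorem exists_isON : ∃ L : List U, IsON L ∧ Submodule.span ℝ {v | v ∈ L} = ⊤ := by
  let b := stdOrthonormalBasis ℝ U
  refine ⟨List.ofFn b, ⟨fun v hv => ?_, ?_⟩, ?_⟩
  · obtain ⟨i, rfl⟩ := List.mem_ofFn.1 hv
    simp
  · exact List.pairwise_ofFn.2 fun i j hij => b.orthonormal.2 hij.ne
  · have h : {v | v ∈ List.ofFn b} = Set.range b.toBasis := by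
      ext v; simp [List.mem_ofFn]
    rw [h, b.toBasis.span_eq]

theorem cl_finite : Module.Finite ℂ (Cl U) := by
  obtain ⟨L, -, hL⟩ := exists_isON U
  refine ⟨monSpan_eq_top hL ▸ Submodule.fg_span (Set.Finite.image _ ?_)⟩
  exact (List.finite_toSet L.sublists).subset fun l hl => List.mem_sublists.2 hl

instance instNontrivialCl : Nontrivial (Cl U) :=
  (inferInstance : Nontrivial (ℂ ⊗[ℝ] CliffordAlgebra (qf U)))

theorem tr_one : tr (1 : Cl U) = 1 := by
  have := cl_finite (U := U)
  have h : (Module.finrank ℂ (Cl U) : ℂ) ≠ 0 := by exact_mod_cast Module.finrank_pos.ne'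
  simp only [tr, regTrace, LinearMap.mulLeft_one, LinearMap.trace_id]
  exact div_self h

theorem exists_comb (x : Cl U) : ∃ (L : List U) (c : List U →₀ ℂ), IsON L ∧
    (∀ l ∈ c.support, l.Sublist L) ∧ x = c.sum fun l a => a • mon l := by
  obtain ⟨L, hL, hs⟩ := exists_isON U
  have hx : x ∈ monSpan L := monSpan_eq_top hs ▸ Submodule.mem_top
  obtain ⟨c, hc, rfl⟩ := (Finsupp.mem_span_image_iff_linearCombination ℂ).1 hx
  exact ⟨L, c, hL, fun l hl => hc hl, Finsupp.linearCombination_apply _ _⟩

theorem tr_star_mul_comb {L : List U} (hL : IsON L) (c : List U →₀ ℂ)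
    (hc : ∀ l ∈ c.support, l.Sublist L) :
    tr (star (c.sum fun l a => a • mon l) * c.sum fun l a => a • mon l) =
      ∑ l ∈ c.support, ((‖c l‖ ^ 2 : ℝ) : ℂ) := by
  simp only [Finsupp.sum, star_sum, Finset.sum_mul, Finset.mul_sum, tr_sum, star_smul,
    smul_mul_assoc, mul_smul_comm, tr_smul]
  refine Finset.sum_congr rfl fun l hl => ?_
  rw [Finset.sum_eq_single l]
  · rw [star_mon_mul_self (hL.sublist (hc l hl)).1, tr_one, mul_one, RCLike.star_def,
      Complex.mul_conj, Complex.normSq_eq_norm_sq]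
  · intro l' hl' hne
    rw [hL.tr_of_ne (hc l' hl') (hc l hl) hne, mul_zero, mul_zero]
  · intro h
    exact absurd hl h

theorem tr_star (x : Cl U) : tr (star x) = conj (tr x) := by
  obtain ⟨L, c, hL, hc, rfl⟩ := exists_comb x
  simp only [Finsupp.sum, star_sum, tr_sum, star_smul, tr_smul, map_sum, map_mul]
  refine Finset.sum_congr rfl fun l hl => ?_
  by_cases h : l = []
  · subst h
    simp [tr_one]
  · have h1 := hL.tr_of_ne (hc l hl) (List.nil_sublist L) h
    have h2 := hL.tr_of_ne (List.nil_sublist L) (hc l hl) (Ne.symm h)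
    rw [mon_nil, mul_one] at h1
    rw [mon_nil, star_one, one_mul] at h2
    simp [h1, h2]

theorem tr_star_mul_nonneg (x : Cl U) : 0 ≤ (tr (star x * x)).re := by
  obtain ⟨L, c, hL, hc, rfl⟩ := exists_comb x
  rw [tr_star_mul_comb hL c hc, ← Complex.ofReal_sum, Complex.ofReal_re]
  positivity

theorem tr_star_mul_eq_zero (x : Cl U) (h : tr (star x * x) = 0) : x = 0 := by
  obtain ⟨L, c, hL, hc, rfl⟩ := exists_comb x
  rw [tr_star_mul_comb hL c hc, ← Complex.ofReal_sum, Complex.ofReal_eq_zero,
    Finset.sum_eq_zero_iff_of_nonneg fun _ _ => by positivity] at h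
  refine Finset.sum_eq_zero fun l hl => ?_
  have h1 : c l = 0 := by simpa using h l hl
  simp [h1]

end Pool.Agent.Lib.E2
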