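import Mathlib

/-! Cube calculus for generalized loops (layer H of MP_10be03_gt). -/

open unitInterval Topology

noncomputable section

namespace Pool.Agent.Lib.E2.HC

variable {M N : Type*} {X Y Z : Type*} [TopologicalSpace X] [TopologicalSpace Y]
  [TopologicalSpace Z] {x : X} {y : Y} {z : Z}

/-- A loop from a continuous function. -/
def mkL (f : (N → I) → X) (hf : Continuous f) (hb : ∀ t ∈ Cube.boundary N, f t = x) :
    GenLoop N X x := ⟨⟨f, hf⟩, hb⟩

@[simp] theorem mkL_apply (f : (N → I) → X) (hf : Continuous f)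
    (hb : ∀ t ∈ Cube.boundary N, f t = x) (t : N → I) : mkL f hf hb t = f t := rfl

theorem cont (f : GenLoop N X x) : Continuous (fun t => f t) := f.1.continuous

theorem homotopic_of {f g : GenLoop N X x} (H : I × (N → I) → X) (hH : Continuous H)
    (h0 : ∀ t, H (0, t) = f t) (h1 : ∀ t, H (1, t) = g t)
    (hb : ∀ s, ∀ t ∈ Cube.boundary N, H (s, t) = x) : GenLoop.Homotopic f g :=
  ⟨⟨⟨⟨H, hH⟩, h0, h1⟩, fun s t ht => by
    change H (s, t) = f t
    rw [hb s t ht, GenLoop.boundary f t ht]⟩⟩

theorem exists_of_homotopic {f g : GenLoop N X x} (h : GenLoop.Homotopic f g) :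
    ∃ H : I × (N → I) → X, Continuous H ∧ (∀ t, H (0, t) = f t) ∧ (∀ t, H (1, t) = g t) ∧
      ∀ s, ∀ t ∈ Cube.boundary N, H (s, t) = x := by
  obtain ⟨H⟩ := h
  refine ⟨H, H.continuous, fun t => H.apply_zero t, fun t => H.apply_one t, fun s t ht => ?_⟩
  rw [H.eq_fst s ht]
  exact f.2 t ht

/-- The class of a loop. -/
def cls (f : GenLoop N X x) : HomotopyGroup N X x := Quotient.mk _ f

theorem cls_eq {f g : GenLoop N X x} : cls f = cls g ↔ GenLoop.Homotopic f g := Quotient.eq

theorem cls_surj (a : HomotopyGroup N X x) : ∃ f, cls f = a := Quotient.exists_rep a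

theorem cls_of {f g : GenLoop N X x} (H : I × (N → I) → X) (hH : Continuous H)
    (h0 : ∀ t, H (0, t) = f t) (h1 : ∀ t, H (1, t) = g t)
    (hb : ∀ s, ∀ t ∈ Cube.boundary N, H (s, t) = x) : cls f = cls g :=
  cls_eq.2 (homotopic_of H hH h0 h1 hb)

theorem cls_congr {f g : GenLoop N X x} (h : ∀ t, f t = g t) : cls f = cls g := by
  rw [GenLoop.ext f g h]

section group
variable [DecidableEq N] [Nonempty N]

theorem cls_const : cls (GenLoop.const : GenLoop N X x) = 1 := rfl

theorem cls_mul (i : N) (f g : GenLoop N X x) :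
    cls f * cls g = cls (GenLoop.transAt i g f) := HomotopyGroup.mul_spec

theorem cls_inv (i : N) (f : GenLoop N X x) : (cls f)⁻¹ = cls (GenLoop.symmAt i f) :=
  HomotopyGroup.inv_spec

theorem cls_eq_one_of {f : GenLoop N X x} (H : I × (N → I) → X) (hH : Continuous H)
    (h0 : ∀ t, H (0, t) = f t) (h1 : ∀ t, H (1, t) = x)
    (hb : ∀ s, ∀ t ∈ Cube.boundary N, H (s, t) = x) : cls f = 1 :=
  cls_of (g := GenLoop.const) H hH h0 h1 hb

theorem exists_of_eq_one {f : GenLoop N X x} (h : cls f = 1) :
    ∃ H : I × (N → I) → X, Continuous H ∧ (∀ t, H (0, t) = f t) ∧ (∀ t, H (1, t) = x) ∧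
      ∀ s, ∀ t ∈ Cube.boundary N, H (s, t) = x :=
  exists_of_homotopic (g := GenLoop.const) (cls_eq.1 h)

end group

theorem transAt_apply [DecidableEq N] (i : N) (f g : GenLoop N X x) (t : N → I) :
    GenLoop.transAt i f g t = if (t i : ℝ) ≤ 1 / 2
      then f (Function.update t i <| Set.projIcc 0 1 zero_le_one (2 * t i))
      else g (Function.update t i <| Set.projIcc 0 1 zero_le_one (2 * t i - 1)) := rfl

theorem symmAt_apply [DecidableEq N] (i : N) (f : GenLoop N X x) (t : N → I) :
    GenLoop.symmAt i f t = f (Function.update t i (σ (t i))) := by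
  change f _ = f _
  congr 1
  funext j
  by_cases h : j = i
  · subst h; simp
  · simp [h]

/-- Data of a natural operation on loops: `γ ↦ (t ↦ Φ (γ (e t)) t)`. -/
structure Op (N M : Type*) {X Y : Type*} [TopologicalSpace X] [TopologicalSpace Y]
    (x : X) (y : Y) where
  e : (M → I) → (N → I)
  Φ : X → (M → I) → Y
  ce : Continuous e
  cΦ : Continuous fun p : X × (M → I) => Φ p.1 p.2
  base : ∀ t, Φ x t = y
  bd : ∀ t ∈ Cube.boundary M, e t ∈ Cube.boundary N ∨ ∀ a, Φ a t = y

namespace Op
variable (T : Op N M x y)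

/-- The operation on loops. -/
def app (f : GenLoop N X x) : GenLoop M Y y :=
  mkL (fun t => T.Φ (f (T.e t)) t)
    (T.cΦ.comp (((cont f).comp T.ce).prodMk continuous_id)) (fun t ht => by
      rcases T.bd t ht with h | h
      · rw [GenLoop.boundary f _ h, T.base]
      · exact h _)

@[simp] theorem app_apply (f : GenLoop N X x) (t : M → I) :
    T.app f t = T.Φ (f (T.e t)) t := rfl

theorem app_homotopic {f g : GenLoop N X x} (h : GenLoop.Homotopic f g) :
    GenLoop.Homotopic (T.app f) (T.app g) := by
  obtain ⟨H, hH, h0, h1, hb⟩ := exists_of_homotopic h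
  refine homotopic_of (fun p => T.Φ (H (p.1, T.e p.2)) p.2) ?_ (fun t => by simp [h0])
    (fun t => by simp [h1]) (fun s t ht => ?_)
  · exact T.cΦ.comp ((hH.comp (continuous_fst.prodMk (T.ce.comp continuous_snd))).prodMk
      continuous_snd)
  · rcases T.bd t ht with h | h
    · simp [hb s _ h, T.base]
    · exact h _

/-- The operation on classes. -/
def map : HomotopyGroup N X x → HomotopyGroup M Y y :=
  Quotient.map T.app fun _ _ h => T.app_homotopic h

@[simp] theorem map_cls (f : GenLoop N X x) : T.map (cls f) = cls (T.app f) := rfl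

/-- The operation is additive when coordinate `k` of the source cube is passed on as
coordinate `i`. -/
def Add [DecidableEq N] [DecidableEq M] (i : N) (k : M) : Prop :=
  (∀ t s, T.e (Function.update t k s) = Function.update (T.e t) i s) ∧ (∀ t, T.e t i = t k) ∧
    ∀ a t s, T.Φ a (Function.update t k s) = T.Φ a t

theorem map_mul [DecidableEq N] [DecidableEq M] [Nonempty N] [Nonempty M] {i : N} {k : M}
    (h : T.Add i k) (a b : HomotopyGroup N X x) : T.map (a * b) = T.map a * T.map b := by
  obtain ⟨f, rfl⟩ := cls_surj a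
  obtain ⟨g, rfl⟩ := cls_surj b
  rw [cls_mul i, map_cls, map_cls, map_cls, cls_mul k]
  refine cls_congr fun t => ?_
  simp only [app_apply, transAt_apply, h.1, h.2.1, h.2.2]
  split_ifs <;> rfl

/-- The operation as a group homomorphism. -/
def hom [DecidableEq N] [DecidableEq M] [Nonempty N] [Nonempty M] {i : N} {k : M}
    (h : T.Add i k) : HomotopyGroup N X x →* HomotopyGroup M Y y :=
  MonoidHom.mk' T.map (T.map_mul h)

@[simp] theorem hom_cls [DecidableEq N] [DecidableEq M] [Nonempty N] [Nonempty M] {i : N} {k : M}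
    (h : T.Add i k) (f : GenLoop N X x) : T.hom h (cls f) = cls (T.app f) := rfl

end Op

/-- Clamp a real number to the unit interval. -/
def cl (r : ℝ) : I := Set.projIcc 0 1 zero_le_one r

@[fun_prop] theorem continuous_cl : Continuous cl := continuous_projIcc (h := zero_le_one)

theorem cl_of_le {r : ℝ} (h : r ≤ 0) : cl r = 0 := Set.projIcc_of_le_left _ h

theorem cl_of_ge {r : ℝ} (h : 1 ≤ r) : cl r = 1 := Set.projIcc_of_right_le _ h

@[simp] theorem cl_coe (t : I) : cl t = t := Set.projIcc_val _ t

theorem coe_cl (r : ℝ) : (cl r : ℝ) = max 0 (min 1 r) := rfl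

theorem cl_eq_of {r : ℝ} {t : I} (h : r = t) : cl r = t := by rw [h, cl_coe]

theorem mem_bd_update [DecidableEq N] {t : N → I} {i : N} {s : I} (h : s = 0 ∨ s = 1) :
    Function.update t i s ∈ Cube.boundary N := ⟨i, by simpa using h⟩

theorem mem_bd_update_ne [DecidableEq N] {t : N → I} {i j : N} (hij : j ≠ i) {s : I}
    (h : t j = 0 ∨ t j = 1) : Function.update t i s ∈ Cube.boundary N :=
  ⟨j, by simpa [hij] using h⟩

theorem continuous_piece {P : Type*} [TopologicalSpace P] {A B : Set P} [DecidablePred (· ∈ A)]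
    (hA : IsClosed A) (hB : IsClosed B) (hAB : ∀ p, p ∈ A ∨ p ∈ B) {F G : P → X}
    (hF : ContinuousOn F A) (hG : ContinuousOn G B) (h : ∀ p ∈ A, p ∈ B → F p = G p) :
    Continuous fun p => if p ∈ A then F p else G p := by
  have hu : A ∪ B = Set.univ := Set.eq_univ_of_forall hAB
  rw [← continuousOn_univ, ← hu]
  refine ContinuousOn.union_of_isClosed ?_ ?_ hA hB
  · exact hF.congr fun p hp => if_pos hp
  · refine hG.congr fun p hp => ?_
    by_cases hp' : p ∈ A
    · simp [hp', h p hp' hp]
    · simp [hp']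

/-- Two loops with complementary supports add. -/
theorem cls_wedge [DecidableEq N] [Nonempty N] (i : N) {A B : Set (N → I)} (hA : IsClosed A)
    (hB : IsClosed B) (hAB : ∀ t, t ∈ A ∨ t ∈ B)
    (iA : ∀ t s, t ∈ A → Function.update t i s ∈ A)
    (iB : ∀ t s, t ∈ B → Function.update t i s ∈ B) {f g h : GenLoop N X x}
    (hf : ∀ t ∈ A, h t = f t) (hg : ∀ t ∈ B, h t = g t) (fB : ∀ t ∈ B, f t = x)
    (gA : ∀ t ∈ A, g t = x) : cls h = cls g * cls f := by
  classical
  rw [cls_mul i]
  refine cls_of (fun p => if p ∈ {p : I × (N → I) | p.2 ∈ A} then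
      f (Function.update p.2 i (cl ((1 + p.1) * p.2 i)))
    else g (Function.update p.2 i (cl ((1 + p.1) * p.2 i - p.1)))) ?_ (fun t => ?_)
    (fun t => ?_) (fun s t ht => ?_)
  · refine continuous_piece (B := {p : I × (N → I) | p.2 ∈ B}) (hA.preimage continuous_snd)
      (hB.preimage continuous_snd) (fun p => hAB p.2) ?_ ?_ fun p h1 h2 => ?_
    · exact ((cont f).comp (continuous_snd.update i (by fun_prop))).continuousOn
    · exact ((cont g).comp (continuous_snd.update i (by fun_prop))).continuousOn
    · rw [fB _ (iB _ _ h2), gA _ (iA _ _ h1)]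
  · by_cases h : t ∈ A
    · simp [h, hf t h]
    · simp [h, hg t ((hAB t).resolve_left h)]
  · rw [transAt_apply]
    have e2 : (1 : ℝ) + 1 = 2 := by norm_num
    by_cases h : t ∈ A
    · simp only [Set.mem_ofPred_eq, h, if_true, Set.Icc.coe_one, e2]
      split_ifs with h2
      · rfl
      · rw [gA _ (iA _ _ h), cl_of_ge (by linarith)]
        exact GenLoop.boundary f _ (mem_bd_update (Or.inr rfl))
    · simp only [Set.mem_ofPred_eq, h, if_false, Set.Icc.coe_one, e2]
      split_ifs with h2
      · rw [fB _ (iB _ _ ((hAB t).resolve_left h)), cl_of_le (by linarith)]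
        exact GenLoop.boundary g _ (mem_bd_update (Or.inl rfl))
      · rfl
  · obtain ⟨j, hj⟩ := ht
    have hs0 := s.2.1
    have hs1 := s.2.2
    by_cases hji : j = i
    · subst hji
      dsimp only
      split_ifs
      · refine GenLoop.boundary f _ (mem_bd_update ?_)
        rcases hj with hj | hj
        · left; rw [hj]; exact cl_of_le (by simp)
        · right; rw [hj]; exact cl_of_ge (by simpa using hs0)
      · refine GenLoop.boundary g _ (mem_bd_update ?_)
        rcases hj with hj | hj
        · left; rw [hj]; exact cl_of_le (by simpa using hs0)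
        · right; rw [hj]; exact cl_of_ge (by simp)
    · dsimp only
      split_ifs
      · exact GenLoop.boundary f _ (mem_bd_update_ne hji hj)
      · exact GenLoop.boundary g _ (mem_bd_update_ne hji hj)

/-- Finitely many loops with complementary supports add. -/
theorem cls_wedge_prod [DecidableEq N] [Nontrivial N] (i : N) {K : Type*} [Fintype K]
    (A : K → Set (N → I)) (hA : ∀ k, IsClosed (A k)) (hc : ∀ t, ∃ k, t ∈ A k)
    (iA : ∀ k t s, t ∈ A k → Function.update t i s ∈ A k) (f : K → GenLoop N X x)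
    (fA : ∀ k l, k ≠ l → ∀ t ∈ A l, f k t = x) (h : GenLoop N X x)
    (hf : ∀ k, ∀ t ∈ A k, h t = f k t) : cls h = ∏ k, cls (f k) := by
  classical
  have key : ∀ S : Finset K, ∀ h : GenLoop N X x, (∀ k ∈ S, ∀ t ∈ A k, h t = f k t) →
      (∀ k, k ∉ S → ∀ t ∈ A k, h t = x) → cls h = ∏ k ∈ S, cls (f k) := by
    intro S
    induction S using Finset.induction_on with
    | empty =>
      intro h _ h2
      rw [Finset.prod_empty, ← cls_const]
      refine cls_congr fun t => ?_
      obtain ⟨k, hk⟩ := hc t
      exact h2 k (by simp) t hk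
    | insert k S hk ih =>
      intro h h1 h2
      let B : Set (N → I) := ⋃ l : {l // l ≠ k}, A l
      have hB : IsClosed B := isClosed_iUnion_of_finite fun l => hA l
      have hAB : ∀ t, t ∈ A k ∨ t ∈ B := fun t => by
        obtain ⟨l, hl⟩ := hc t
        by_cases e : l = k
        · exact Or.inl (e ▸ hl)
        · exact Or.inr (Set.mem_iUnion.2 ⟨⟨l, e⟩, hl⟩)
      have hx : ∀ t ∈ A k, t ∈ B → h t = x := fun t ht hb => by
        obtain ⟨l, hl⟩ := Set.mem_iUnion.1 hb
        rw [h1 k (by simp) t ht]
        exact fA k l l.2.symm t hl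
      let h' : GenLoop N X x := mkL (fun t => if t ∈ A k then x else h t)
        (continuous_piece (hA k) hB hAB continuousOn_const (cont h).continuousOn
          fun t a b => (hx t a b).symm)
        (fun t ht => by
          split_ifs
          · rfl
          · exact GenLoop.boundary h t ht)
      have hh' : ∀ t ∈ B, h t = h' t := fun t hb => by
        change h t = if t ∈ A k then x else h t
        split_ifs with a
        · exact hx t a hb
        · rfl
      rw [Finset.prod_insert hk, ← ih h', mul_comm]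
      · refine cls_wedge i (hA k) hB hAB (iA k) (fun t s ht => ?_) (h1 k (by simp)) hh'
          (fun t ht => ?_) (fun t ht => if_pos ht)
        · obtain ⟨l, hl⟩ := Set.mem_iUnion.1 ht
          exact Set.mem_iUnion.2 ⟨l, iA l t s hl⟩
        · obtain ⟨l, hl⟩ := Set.mem_iUnion.1 ht
          exact fA k l l.2.symm t hl
      · intro l hl t ht
        have e : l ≠ k := fun e => hk (e ▸ hl)
        rw [← hh' t (Set.mem_iUnion.2 ⟨⟨l, e⟩, ht⟩)]
        exact h1 l (by simp [hl]) t ht
      · intro l hl t ht
        by_cases e : l = k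
        · subst e; exact if_pos ht
        · rw [← hh' t (Set.mem_iUnion.2 ⟨⟨l, e⟩, ht⟩)]
          exact h2 l (by simp [e, hl]) t ht
  exact key Finset.univ h (fun k _ => hf k) (fun k hk => (hk (Finset.mem_univ k)).elim)

/-- Rotation of the square by a quarter turn, as a homotopy of self maps of the pair. -/
def rot (s u v : I) : I × I :=
  (cl ((((1 - s) * (2 * u - 1) + s * (2 * v - 1)) / (s ^ 2 + (1 - s) ^ 2) + 1) / 2),
    cl ((((1 - s) * (2 * v - 1) - s * (2 * u - 1)) / (s ^ 2 + (1 - s) ^ 2) + 1) / 2))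

theorem rot_den_pos (s : ℝ) : 0 < s ^ 2 + (1 - s) ^ 2 := by nlinarith [sq_nonneg (2 * s - 1)]

theorem continuous_rot : Continuous fun p : I × I × I => rot p.1 p.2.1 p.2.2 := by
  unfold rot
  refine Continuous.prodMk (continuous_cl.comp ?_) (continuous_cl.comp ?_)
  · refine Continuous.div_const (Continuous.add (Continuous.div (by fun_prop) (by fun_prop)
      fun p => (rot_den_pos _).ne') continuous_const) _
  · refine Continuous.div_const (Continuous.add (Continuous.div (by fun_prop) (by fun_prop)
      fun p => (rot_den_pos _).ne') continuous_const) _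

@[fun_prop] theorem continuous_rot' {P : Type*} [TopologicalSpace P] {s u v : P → I}
    (hs : Continuous s) (hu : Continuous u) (hv : Continuous v) :
    Continuous fun p => rot (s p) (u p) (v p) := by
  have := continuous_rot.comp (hs.prodMk (hu.prodMk hv))
  simpa only [Function.comp_def] using this

@[simp] theorem rot_zero (u v : I) : rot 0 u v = (u, v) := by
  unfold rot
  refine Prod.ext (cl_eq_of ?_) (cl_eq_of ?_) <;> simp

@[simp] theorem rot_one (u v : I) : rot 1 u v = (v, σ u) := by
  unfold rot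
  refine Prod.ext (cl_eq_of ?_) (cl_eq_of ?_)
  · simp
  · simp; ring

theorem cl_half_bd {r : ℝ} (h : 1 ≤ |r|) : cl ((r + 1) / 2) = 0 ∨ cl ((r + 1) / 2) = 1 := by
  rcases le_abs'.1 h with h | h
  · exact Or.inl (cl_of_le (by linarith))
  · exact Or.inr (cl_of_ge (by linarith))

theorem rot_bd (s : I) {u v : I} (h : (u = 0 ∨ u = 1) ∨ (v = 0 ∨ v = 1)) :
    ((rot s u v).1 = 0 ∨ (rot s u v).1 = 1) ∨ ((rot s u v).2 = 0 ∨ (rot s u v).2 = 1) := by
  have hd := rot_den_pos (s : ℝ)
  have hs0 := s.2.1
  have hs1 := s.2.2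
  set a : ℝ := ((1 - s) * (2 * u - 1) + s * (2 * v - 1)) / (s ^ 2 + (1 - s) ^ 2) with ha
  set b : ℝ := ((1 - s) * (2 * v - 1) - s * (2 * u - 1)) / (s ^ 2 + (1 - s) ^ 2) with hb
  have e1 : (1 - s) * a - s * b = 2 * u - 1 := by rw [ha, hb]; field_simp; ring
  have e2 : s * a + (1 - s) * b = 2 * v - 1 := by rw [ha, hb]; field_simp; ring
  by_cases h1 : 1 ≤ |a|
  · exact Or.inl (cl_half_bd h1)
  by_cases h2 : 1 ≤ |b|
  · exact Or.inr (cl_half_bd h2)
  exfalso
  rw [not_le, abs_lt] at h1 h2
  obtain ⟨a1, a2⟩ := h1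
  obtain ⟨b1, b2⟩ := h2
  have k1 : ∀ c d : ℝ, c < 1 → d < 1 → (1 - s) * c + s * d < 1 := fun c d hc hd => by
    rcases eq_or_lt_of_le hs0 with e | e
    · rw [← e]; linarith
    · nlinarith [mul_nonneg (sub_nonneg.2 hs1) (sub_nonneg.2 hc.le), mul_pos e (sub_pos.2 hd)]
  clear_value a b
  rcases h with (h | h) | (h | h)
  · have := k1 (-a) b (by linarith) b2
    rw [h, Set.Icc.coe_zero] at e1
    linarith
  · have := k1 a (-b) a2 (by linarith)
    rw [h, Set.Icc.coe_one] at e1
    linarith
  · have := k1 (-b) (-a) (by linarith) (by linarith)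
    rw [h, Set.Icc.coe_zero] at e2
    linarith
  · have := k1 b a b2 a2
    rw [h, Set.Icc.coe_one] at e2
    linarith

/-- Precomposing with a quarter turn in two coordinates does not change the class. -/
theorem cls_rot [DecidableEq N] {p q : N} (hpq : p ≠ q) {f g : GenLoop N X x}
    (h : ∀ t, g t = f (Function.update (Function.update t p (t q)) q (σ (t p)))) :
    cls g = cls f := by
  symm
  refine cls_of (fun w => f (Function.update (Function.update w.2 p (rot w.1 (w.2 p) (w.2 q)).1) q
    (rot w.1 (w.2 p) (w.2 q)).2)) ?_ (fun t => by simp) (fun t => by simp [h]) fun s t ht => ?_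
  · have : Continuous fun w : I × (N → I) => rot w.1 (w.2 p) (w.2 q) :=
      continuous_rot' continuous_fst (by fun_prop) (by fun_prop)
    exact (cont f).comp ((continuous_snd.update p this.fst).update q this.snd)
  · refine GenLoop.boundary f _ ?_
    obtain ⟨j, hj⟩ := ht
    by_cases h1 : j = p ∨ j = q
    · have : (t p = 0 ∨ t p = 1) ∨ (t q = 0 ∨ t q = 1) := by
        rcases h1 with rfl | rfl
        · exact Or.inl hj
        · exact Or.inr hj
      rcases rot_bd s this with h2 | h2
      · exact ⟨p, by simpa [hpq] using h2⟩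
      · exact ⟨q, by simpa using h2⟩
    · rw [not_or] at h1
      exact ⟨j, by simpa [h1.1, h1.2] using hj⟩

/-- Precomposing with a reflection inverts the class. -/
theorem cls_refl [DecidableEq N] [Nonempty N] (p : N) {f g : GenLoop N X x}
    (h : ∀ t, g t = f (Function.update t p (σ (t p)))) : cls g = (cls f)⁻¹ := by
  rw [cls_inv p]
  exact cls_congr fun t => by rw [h, symmAt_apply]

/-- Precomposing with a transposition of coordinates inverts the class. -/
theorem cls_swap [DecidableEq N] [Nonempty N] {p q : N} (hpq : p ≠ q) {f g : GenLoop N X x}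
    (h : ∀ t, g t = f (Function.update (Function.update t p (t q)) q (t p))) :
    cls g = (cls f)⁻¹ := by
  rw [cls_inv q]
  refine cls_rot hpq fun t => ?_
  rw [h, symmAt_apply]
  simp

end Pool.Agent.Lib.E2.HC
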