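import Pool.Agent.Lib.MP_10be03_gt.Simp
import Pool.Agent.Lib.MP_10be03_gt.HCube

-- part Pool.Agent.Lib.MP_10be03_gt.HGeo
section

/-! Geometry of the simplex: gauge, radial retraction, comparison with cubes (definitions and
basic facts). -/

noncomputable section
open scoped unitInterval Topology

namespace Pool.Agent.Lib.E2.Geo
open HC

variable {n : ℕ}

/-- The smallest coordinate. -/
def mn (v : Fin (n + 1) → ℝ) : ℝ := Finset.univ.inf' Finset.univ_nonempty v

theorem mn_le (v : Fin (n + 1) → ℝ) (i : Fin (n + 1)) : mn v ≤ v i :=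
  Finset.inf'_le _ (Finset.mem_univ i)

theorem exists_mn (v : Fin (n + 1) → ℝ) : ∃ i, v i = mn v := by
  obtain ⟨i, _, h⟩ := Finset.exists_mem_eq_inf' Finset.univ_nonempty v
  exact ⟨i, h.symm⟩

theorem mn_eq {v : Fin (n + 1) → ℝ} {i : Fin (n + 1)} (h : ∀ k, v i ≤ v k) : mn v = v i :=
  le_antisymm (mn_le v i) (Finset.le_inf' _ _ fun k _ => h k)

/-- The gauge of the simplex seen from its barycentre (invariant under adding constants). -/
def gauge (v : Fin (n + 1) → ℝ) : ℝ := ∑ i, v i - (n + 1) * mn v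

theorem rt_nonneg (v : Fin (n + 1) → ℝ) (i : Fin (n + 1)) :
    0 ≤ 1 / ((n : ℝ) + 1) + (v i - (∑ k, v k) / (n + 1)) / max 1 (gauge v) := by
  have hn : (0 : ℝ) < n + 1 := by positivity
  have hm : (0 : ℝ) < max 1 (gauge v) := lt_of_lt_of_le one_pos (le_max_left _ _)
  have h1 := mn_le v i
  have h2 : gauge v ≤ max 1 (gauge v) := le_max_right _ _
  have h3 : ∑ k, v k = gauge v + (n + 1) * mn v := by rw [gauge]; ring
  have : 1 / ((n : ℝ) + 1) + (v i - (∑ k, v k) / (n + 1)) / max 1 (gauge v) =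
      (max 1 (gauge v) - gauge v + (n + 1) * (v i - mn v)) / ((n + 1) * max 1 (gauge v)) := by
    rw [h3]; field_simp; ring
  rw [this]
  exact div_nonneg (add_nonneg (sub_nonneg.2 h2) (mul_nonneg hn.le (sub_nonneg.2 h1)))
    (mul_pos hn hm).le

theorem rt_sum (v : Fin (n + 1) → ℝ) :
    ∑ i, (1 / ((n : ℝ) + 1) + (v i - (∑ k, v k) / (n + 1)) / max 1 (gauge v)) = 1 := by
  have hn : (n : ℝ) + 1 ≠ 0 := by positivity
  rw [Finset.sum_add_distrib, ← Finset.sum_div, ← Finset.sum_div, Finset.sum_sub_distrib]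
  simp only [Finset.sum_const, Finset.card_univ, Fintype.card_fin, nsmul_eq_mul, Nat.cast_add,
    Nat.cast_one]
  field_simp
  simp

/-- Project to the affine hyperplane of the simplex, then retract radially onto the simplex. -/
def rt (v : Fin (n + 1) → ℝ) : Dl n :=
  ⟨fun i => 1 / ((n : ℝ) + 1) + (v i - (∑ k, v k) / (n + 1)) / max 1 (gauge v),
    rt_nonneg v, rt_sum v⟩

theorem rt_apply (v : Fin (n + 1) → ℝ) (i : Fin (n + 1)) :
    rt v i = 1 / ((n : ℝ) + 1) + (v i - (∑ k, v k) / (n + 1)) / max 1 (gauge v) := rfl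

/-- The boundary of the simplex. -/
def bdry (n : ℕ) : Set (Dl n) := {w | ∃ i, w i = 0}

/-- Radial stretching from the barycentre. -/
def str (μ : ℝ) (w : Dl n) : Dl n := rt fun i => μ * w i

/-- The gauge of a point of the simplex. -/
def rho (w : Dl n) : ℝ := gauge fun i => w i

/-- Comparison map from the cube to the simplex. -/
def lam (n : ℕ) (z : Fin n → I) : Dl n :=
  rt (Fin.cons 0 fun k => 4 * ((z k : ℝ) - 1 / 2) : Fin (n + 1) → ℝ)

/-- Comparison map from the simplex to the cube. -/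
def kap (n : ℕ) (w : Dl n) : Fin n → I := fun k => cl ((n + 1) * (w k.succ - w 0) + 1 / 2)

/-- Polar coordinates in the cone over the face `i`. -/
def eF (i : Fin (n + 2)) (w : Dl (n + 1)) : Dl n × I :=
  (rt fun k => (w (i.succAbove k) - w i) / max (1 - (n + 2) * w i) (1 / 2),
    cl (2 * (1 - (n + 2) * w i) - 1))

/-- The boundary of the prism. -/
def pbd (n : ℕ) : Set (Dl n × I) := {p | p.1 ∈ bdry n ∨ p.2 = 0 ∨ p.2 = 1}

/-- The cone over the face `i`. -/
def cone (i : Fin (n + 1)) : Set (Dl n) := {w | ∀ k, w i ≤ w k}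

theorem continuous_mn : Continuous (mn (n := n)) :=
  Continuous.finset_inf'_apply Finset.univ_nonempty fun i _ => continuous_apply i

theorem continuous_gauge : Continuous (gauge (n := n)) :=
  (continuous_finsetSum _ fun i _ => continuous_apply i).sub (continuous_const.mul continuous_mn)

theorem continuous_rt : Continuous (rt (n := n)) := by
  refine Continuous.subtype_mk (continuous_pi fun i => continuous_const.add ?_) _
  refine Continuous.div ((continuous_apply i).sub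
    ((continuous_finsetSum _ fun k _ => continuous_apply k).div_const _))
    (continuous_const.max continuous_gauge) fun v => ?_
  exact (lt_of_lt_of_le one_pos (le_max_left _ _)).ne'

theorem continuous_coord (i : Fin (n + 1)) : Continuous fun w : Dl n => w i :=
  (continuous_apply i).comp continuous_subtype_val

theorem continuous_str : Continuous fun p : ℝ × Dl n => str p.1 p.2 :=
  continuous_rt.comp (continuous_pi fun i =>
    continuous_fst.mul ((continuous_coord i).comp continuous_snd))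

theorem continuous_rho : Continuous (rho (n := n)) :=
  continuous_gauge.comp (continuous_pi fun i => continuous_coord i)

theorem continuous_lam : Continuous (lam n) := by
  refine continuous_rt.comp (continuous_pi fun i => ?_)
  refine Fin.cases ?_ (fun k => ?_) i
  · exact continuous_const
  · exact continuous_const.mul
      ((continuous_subtype_val.comp (continuous_apply k)).sub continuous_const)

theorem continuous_kap : Continuous (kap n) :=
  continuous_pi fun k => continuous_cl.comp ((continuous_const.mul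
    ((continuous_coord k.succ).sub (continuous_coord 0))).add continuous_const)

theorem continuous_eF (i : Fin (n + 2)) : Continuous (eF i) := by
  have h1 : Continuous fun w : Dl (n + 1) => 1 - ((n : ℝ) + 2) * w i :=
    continuous_const.sub (continuous_const.mul (continuous_coord i))
  refine Continuous.prodMk (continuous_rt.comp (continuous_pi fun k => ?_))
    (continuous_cl.comp ((continuous_const.mul h1).sub continuous_const))
  refine Continuous.div ((continuous_coord _).sub (continuous_coord i))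
    (h1.max continuous_const) fun w => ?_
  exact (lt_of_lt_of_le (by norm_num) (le_max_right _ _)).ne'

theorem isClosed_bdry : IsClosed (bdry n) := by
  rw [bdry, Set.ofPred_exists]
  exact isClosed_iUnion_of_finite fun i => isClosed_eq (continuous_coord i) continuous_const

theorem isClosed_cone (i : Fin (n + 1)) : IsClosed (cone i) := by
  rw [cone, Set.ofPred_forall]
  exact isClosed_iInter fun k => isClosed_le (continuous_coord i) (continuous_coord k)

theorem exists_cone (w : Dl n) : ∃ i, w ∈ cone i := by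
  obtain ⟨i, hi⟩ := exists_mn fun k => w k
  exact ⟨i, fun k => hi.le.trans (mn_le (fun k => w k) k)⟩

theorem gauge_eq_sum (v : Fin (n + 1) → ℝ) : gauge v = ∑ i, (v i - mn v) := by
  rw [gauge, Finset.sum_sub_distrib]
  simp only [Finset.sum_const, Finset.card_univ, Fintype.card_fin, nsmul_eq_mul, Nat.cast_add,
    Nat.cast_one]

theorem gauge_nonneg (v : Fin (n + 1) → ℝ) : 0 ≤ gauge v := by
  rw [gauge_eq_sum]
  exact Finset.sum_nonneg fun i _ => sub_nonneg.2 (mn_le v i)

theorem sub_le_gauge (v : Fin (n + 1) → ℝ) (i k : Fin (n + 1)) : v i - v k ≤ gauge v := by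
  rw [gauge_eq_sum]
  have h := Finset.single_le_sum (f := fun j => v j - mn v)
    (fun j _ => sub_nonneg.2 (mn_le v j)) (Finset.mem_univ i)
  have h2 := mn_le v k
  linarith

theorem gauge_mul {μ : ℝ} (h : 0 ≤ μ) (v : Fin (n + 1) → ℝ) :
    gauge (fun i => μ * v i) = μ * gauge v := by
  obtain ⟨i, hi⟩ := exists_mn v
  have h1 : mn (fun i => μ * v i) = μ * v i :=
    mn_eq fun k => mul_le_mul_of_nonneg_left (hi.le.trans (mn_le v k)) h
  rw [gauge, gauge, h1, hi, ← Finset.mul_sum]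
  ring

theorem gauge_add_const (v : Fin (n + 1) → ℝ) (c : ℝ) : gauge (fun i => v i + c) = gauge v := by
  obtain ⟨i, hi⟩ := exists_mn v
  have h1 : mn (fun i => v i + c) = v i + c :=
    mn_eq fun k => add_le_add_left (hi.le.trans (mn_le v k)) c
  rw [gauge_eq_sum, gauge_eq_sum, h1, hi]
  exact Finset.sum_congr rfl fun k _ => by ring

theorem rt_add_const (v : Fin (n + 1) → ℝ) (c : ℝ) : rt (fun i => v i + c) = rt v := by
  refine stdSimplex.ext (funext fun i => ?_)
  have hn : (n : ℝ) + 1 ≠ 0 := by positivity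
  have h1 : v i + c - (∑ k, (v k + c)) / ((n : ℝ) + 1) = v i - (∑ k, v k) / (n + 1) := by
    rw [Finset.sum_add_distrib]
    simp only [Finset.sum_const, Finset.card_univ, Fintype.card_fin, nsmul_eq_mul, Nat.cast_add,
      Nat.cast_one]
    field_simp
    ring
  rw [rt_apply, rt_apply, gauge_add_const, h1]

theorem gauge_comp_perm (v : Fin (n + 1) → ℝ) (π : Equiv.Perm (Fin (n + 1))) :
    gauge (fun i => v (π i)) = gauge v := by
  obtain ⟨i, hi⟩ := exists_mn v
  have h1 : mn (fun k => v (π k)) = v (π (π.symm i)) :=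
    mn_eq (v := fun k => v (π k)) fun k => by
      rw [π.apply_symm_apply]
      exact hi.le.trans (mn_le v _)
  rw [gauge, gauge, h1, π.apply_symm_apply, hi, Equiv.sum_comp π v]

theorem rt_comp_perm (v : Fin (n + 1) → ℝ) (π : Equiv.Perm (Fin (n + 1))) (i : Fin (n + 1)) :
    rt (fun k => v (π k)) i = rt v (π i) := by
  rw [rt_apply, rt_apply, gauge_comp_perm, Equiv.sum_comp π v]

theorem hg1_gauge_le (w : Dl n) : gauge (fun i => w i) ≤ 1 := by
  obtain ⟨i, hi⟩ := exists_mn fun k => w k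
  have h1 : 0 ≤ ((n : ℝ) + 1) * mn fun k => w k :=
    mul_nonneg (by positivity) (hi ▸ stdSimplex.zero_le w i)
  rw [gauge, stdSimplex.sum_eq_one]
  linarith

theorem rt_coe (w : Dl n) : rt (fun i => w i) = w := by
  refine stdSimplex.ext (funext fun i => ?_)
  rw [rt_apply, max_eq_left (hg1_gauge_le w), stdSimplex.sum_eq_one]
  ring

theorem hg1_rt_apply {v : Fin (n + 1) → ℝ} (h0 : ∀ i, 0 ≤ v i) (h1 : ∑ i, v i = 1)
    (i : Fin (n + 1)) : rt v i = v i :=
  congrArg (fun w : Dl n => w i) (rt_coe ⟨v, h0, h1⟩)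

theorem rt_mem_bdry {v : Fin (n + 1) → ℝ} (h : 1 ≤ gauge v) : rt v ∈ bdry n := by
  obtain ⟨i, hi⟩ := exists_mn v
  refine ⟨i, ?_⟩
  have hn : (n : ℝ) + 1 ≠ 0 := by positivity
  have hg : gauge v ≠ 0 := (lt_of_lt_of_le one_pos h).ne'
  have h3 : ∑ k, v k = gauge v + (n + 1) * mn v := by rw [gauge]; ring
  rw [rt_apply, max_eq_right h, hi, h3]
  field_simp
  ring

theorem rho_nonneg (w : Dl n) : 0 ≤ rho w := gauge_nonneg _

theorem rho_le_one (w : Dl n) : rho w ≤ 1 := hg1_gauge_le w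

theorem rho_eq_one {w : Dl n} (h : w ∈ bdry n) : rho w = 1 := by
  obtain ⟨i, hi⟩ := h
  have h1 : mn (fun k => w k) = w i := mn_eq fun k => hi.le.trans (stdSimplex.zero_le w k)
  rw [rho, gauge, h1, hi, stdSimplex.sum_eq_one]
  ring

theorem rho_of_cone {i : Fin (n + 1)} {w : Dl n} (h : w ∈ cone i) :
    rho w = 1 - (n + 1) * w i := by
  have h1 : mn (fun k => w k) = w i := mn_eq h
  rw [rho, gauge, h1, stdSimplex.sum_eq_one]

theorem hg1_rho_cone {i : Fin (n + 2)} {w : Dl (n + 1)} (h : w ∈ cone i) :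
    rho w = 1 - (n + 2) * w i := by
  rw [rho_of_cone h]
  push_cast
  ring

theorem hg1_str_apply {μ : ℝ} (hμ : 0 ≤ μ) (w : Dl n) (i : Fin (n + 1)) :
    str μ w i = 1 / ((n : ℝ) + 1) + (μ * w i - μ / (n + 1)) / max 1 (μ * rho w) := by
  rw [str, rt_apply, gauge_mul hμ, ← Finset.mul_sum, stdSimplex.sum_eq_one, mul_one, rho]

theorem str_one (w : Dl n) : str 1 w = w := by
  simp only [str, one_mul]
  exact rt_coe w

theorem str_of_bdry {μ : ℝ} (hμ : 1 ≤ μ) {w : Dl n} (h : w ∈ bdry n) : str μ w = w := by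
  refine stdSimplex.ext (funext fun i => ?_)
  have hn : (n : ℝ) + 1 ≠ 0 := by positivity
  have h0 : μ ≠ 0 := (lt_of_lt_of_le one_pos hμ).ne'
  rw [hg1_str_apply (zero_le_one.trans hμ), rho_eq_one h, mul_one, max_eq_right hμ]
  field_simp
  ring

theorem str_mem_bdry {μ : ℝ} (hμ : 0 ≤ μ) {w : Dl n} (h : 1 ≤ μ * rho w) : str μ w ∈ bdry n :=
  rt_mem_bdry (by rw [gauge_mul hμ]; exact h)

theorem lam_bd (z : Fin n → I) (h : z ∈ Cube.boundary (Fin n)) : lam n z ∈ bdry n := by
  obtain ⟨k, hk | hk⟩ := h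
  · refine rt_mem_bdry (le_trans ?_ (sub_le_gauge _ 0 k.succ))
    rw [Fin.cons_zero, Fin.cons_succ, hk]
    norm_num
  · refine rt_mem_bdry (le_trans ?_ (sub_le_gauge _ k.succ 0))
    rw [Fin.cons_zero, Fin.cons_succ, hk]
    norm_num

theorem kap_bd (w : Dl n) (h : w ∈ bdry n) : kap n w ∈ Cube.boundary (Fin n) := by
  obtain ⟨i, hi⟩ := h
  by_contra hc
  have h1 : ∀ l : Fin (n + 1), -(1 / 2) < ((n : ℝ) + 1) * (w l - w 0) ∧
      ((n : ℝ) + 1) * (w l - w 0) < 1 / 2 := by
    intro l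
    refine Fin.cases ?_ (fun k => ?_) l
    · rw [sub_self, mul_zero]
      norm_num
    · constructor
      · by_contra h2
        exact hc ⟨k, Or.inl (cl_of_le (by linarith))⟩
      · by_contra h2
        exact hc ⟨k, Or.inr (cl_of_ge (by linarith))⟩
  have h2 := (h1 i).1
  rw [hi] at h2
  have h3 : ∑ l, ((n : ℝ) + 1) * w l < ∑ _l : Fin (n + 1), (1 : ℝ) :=
    Finset.sum_lt_sum_of_nonempty Finset.univ_nonempty fun l _ => by
      have := (h1 l).2
      linarith
  rw [← Finset.mul_sum, stdSimplex.sum_eq_one] at h3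
  simp at h3

theorem hg1_face_self (i : Fin (n + 2)) (t : Dl n) :
    stdSimplex.map (Fin.succAboveOrderEmb i) t i = 0 := by
  rw [stdSimplex.map_coe, FunOnFinite.linearMap_apply_apply]
  exact Finset.sum_eq_zero fun k hk => absurd (Finset.mem_filter.1 hk).2 (Fin.succAbove_ne i k)

theorem hg1_face_succ (i : Fin (n + 2)) (t : Dl n) (k : Fin (n + 1)) :
    stdSimplex.map (Fin.succAboveOrderEmb i) t (i.succAbove k) = t k := by
  rw [stdSimplex.map_coe, FunOnFinite.linearMap_apply_apply]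
  refine Finset.sum_eq_single_of_mem k (Finset.mem_filter.2 ⟨Finset.mem_univ _, rfl⟩)
    fun j hj hjk => ?_
  exact absurd (Fin.succAbove_right_injective (Finset.mem_filter.1 hj).2) hjk

theorem hg1_sum_sub (i : Fin (n + 2)) (w : Dl (n + 1)) :
    ∑ k, (w (i.succAbove k) - w i) = 1 - ((n : ℝ) + 2) * w i := by
  have h := stdSimplex.sum_eq_one w
  rw [Fin.sum_univ_succAbove _ i] at h
  rw [Finset.sum_sub_distrib]
  simp only [Finset.sum_const, Finset.card_univ, Fintype.card_fin, nsmul_eq_mul, Nat.cast_add,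
    Nat.cast_one]
  linarith

/-- On the cone over face `i`, outside the half size simplex, `eF i` gives the radial
projection. -/
theorem map_eF {i : Fin (n + 2)} {w : Dl (n + 1)} (h : w ∈ cone i) (h2 : 1 / 2 ≤ rho w) :
    stdSimplex.map (Fin.succAboveOrderEmb i) (eF i w).1 = str 2 w := by
  have hr : rho w = 1 - ((n : ℝ) + 2) * w i := hg1_rho_cone h
  have hp : 0 < rho w := lt_of_lt_of_le (by norm_num) h2
  have hn : (n : ℝ) + 2 ≠ 0 := by positivity
  have hs : ∀ l, str 2 w l = (w l - w i) / rho w := by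
    intro l
    have h3 : w i = (1 - rho w) / ((n : ℝ) + 2) := by
      rw [hr]
      field_simp
      ring
    have h4 : ((n + 1 : ℕ) : ℝ) + 1 = n + 2 := by
      push_cast
      ring
    rw [hg1_str_apply (by norm_num), max_eq_right (by linarith), h3, h4]
    field_simp
    ring
  have he : ∀ k, (eF i w).1 k = (w (i.succAbove k) - w i) / rho w := by
    intro k
    have h3 : (eF i w).1 = rt fun k => (w (i.succAbove k) - w i) / rho w := by
      rw [eF, ← hr, max_eq_left h2]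
    rw [h3]
    refine hg1_rt_apply (fun k => div_nonneg (sub_nonneg.2 (h _)) hp.le) ?_ k
    rw [← Finset.sum_div, hg1_sum_sub, ← hr, div_self hp.ne']
  refine stdSimplex.ext (funext fun l => ?_)
  rw [hs]
  refine Fin.succAboveCases i ?_ (fun k => ?_) l
  · rw [hg1_face_self, sub_self, zero_div]
  · rw [hg1_face_succ, he]

theorem eF_snd {i : Fin (n + 2)} {w : Dl (n + 1)} (h : w ∈ cone i) :
    (eF i w).2 = cl (2 * rho w - 1) := by
  rw [hg1_rho_cone h]
  rfl

/-- If another coordinate is at most the `i`-th one then `eF i w` is on the boundary. -/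
theorem eF_mem_pbd_of_le {i l : Fin (n + 2)} (hil : l ≠ i) {w : Dl (n + 1)} (h : w l ≤ w i) :
    eF i w ∈ pbd n := by
  rcases le_total (1 - ((n : ℝ) + 2) * w i) (1 / 2) with h1 | h1
  · exact Or.inr (Or.inl (cl_of_le (by linarith)))
  · refine Or.inl (rt_mem_bdry ?_)
    obtain ⟨k, hk⟩ := Fin.exists_succAbove_eq hil
    have hp : 0 < 1 - ((n : ℝ) + 2) * w i := lt_of_lt_of_le (by norm_num) h1
    rw [max_eq_left h1, gauge, ← Finset.sum_div, hg1_sum_sub, div_self hp.ne']
    have h3 := mn_le (fun k => (w (i.succAbove k) - w i) / (1 - ((n : ℝ) + 2) * w i)) k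
    have h4 : (w (i.succAbove k) - w i) / (1 - ((n : ℝ) + 2) * w i) ≤ 0 :=
      div_nonpos_of_nonpos_of_nonneg (by rw [hk]; linarith) hp.le
    have h5 := mul_nonpos_of_nonneg_of_nonpos (show (0 : ℝ) ≤ n + 1 by positivity) (h3.trans h4)
    linarith

theorem eF_mem_pbd (i : Fin (n + 2)) {w : Dl (n + 1)} (h : w ∈ bdry (n + 1)) :
    eF i w ∈ pbd n := by
  obtain ⟨j, hj⟩ := h
  by_cases hji : j = i
  · rw [hji] at hj
    refine Or.inr (Or.inr (cl_of_ge ?_))
    rw [hj]
    norm_num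
  · exact eF_mem_pbd_of_le hji (hj.le.trans (stdSimplex.zero_le w i))

end Pool.Agent.Lib.E2.Geo
end
end

-- part Pool.Agent.Lib.MP_10be03_gt.HNf
section

/-! Normal forms in the fat realisation, skeleta, closedness and compactness. -/

noncomputable section
open scoped unitInterval Topology

namespace Pool.Agent.Lib.E2
open Geo

theorem hnf_map_apply {k m : ℕ} (ψ : Fin (k + 1) ↪o Fin (m + 1)) (t : Dl k) (l : Fin (m + 1)) :
    stdSimplex.map ψ t l = ∑ i ∈ Finset.univ.filter (fun i => ψ i = l), t i :=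
  FunOnFinite.linearMap_apply_apply ℝ ℝ ψ t l

theorem hnf_map_emb {k m : ℕ} (ψ : Fin (k + 1) ↪o Fin (m + 1)) (t : Dl k) (i : Fin (k + 1)) :
    stdSimplex.map ψ t (ψ i) = t i := by
  rw [hnf_map_apply]
  refine Finset.sum_eq_single_of_mem i (Finset.mem_filter.2 ⟨Finset.mem_univ _, rfl⟩) ?_
  intro j hj hne
  exact absurd (ψ.injective (Finset.mem_filter.1 hj).2) hne

theorem hnf_map_not {k m : ℕ} (ψ : Fin (k + 1) ↪o Fin (m + 1)) (t : Dl k)
    {l : Fin (m + 1)} (h : l ∉ Set.range ψ) : stdSimplex.map ψ t l = 0 := by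
  rw [hnf_map_apply]
  exact Finset.sum_eq_zero fun j hj => absurd ⟨j, (Finset.mem_filter.1 hj).2⟩ h

theorem hnf_pre {k m : ℕ} (ψ : Fin (k + 1) ↪o Fin (m + 1)) (t : Dl m)
    (h : ∀ l ∉ Set.range ψ, t l = 0) : ∃ t' : Dl k, stdSimplex.map ψ t' = t := by
  refine ⟨⟨fun i => t (ψ i), fun i => stdSimplex.zero_le t _, ?_⟩, ?_⟩
  · exact (Fintype.sum_of_injective ψ ψ.injective _ t h fun _ => rfl).trans
      (stdSimplex.sum_eq_one t)
  · refine stdSimplex.ext (funext fun l => ?_)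
    by_cases hl : l ∈ Set.range ψ
    · obtain ⟨i, rfl⟩ := hl
      exact hnf_map_emb ψ _ i
    · rw [hnf_map_not ψ _ hl, h l hl]

theorem hnf_le {k m : ℕ} (ψ : Fin (k + 1) ↪o Fin (m + 1)) : k ≤ m := by
  simpa using Fintype.card_le_of_injective ψ ψ.injective

theorem hnf_range {k m : ℕ} (ψ : Fin (k + 1) ↪o Fin (m + 1)) {t : Dl k} (ht : t ∉ bdry k) :
    Set.range ψ = {l | stdSimplex.map ψ t l ≠ 0} := by
  ext l
  constructor
  · rintro ⟨i, rfl⟩ h
    exact ht ⟨i, (hnf_map_emb ψ t i).symm.trans h⟩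
  · intro h
    by_contra hl
    exact h (hnf_map_not ψ t hl)

/-- Every point of a simplex lies in the interior of a face. -/
theorem exists_interior {m : ℕ} (t : Dl m) :
    ∃ (k : ℕ) (ψ : Fin (k + 1) ↪o Fin (m + 1)) (t' : Dl k), t' ∉ bdry k ∧
      stdSimplex.map ψ t' = t := by
  classical
  have hne : (Finset.univ.filter fun l => t l ≠ 0).card ≠ 0 := by
    intro h0
    have h1 := stdSimplex.sum_eq_one t
    rw [Finset.sum_eq_zero fun l _ => by_contra fun hl => by
      have h2 : l ∈ Finset.univ.filter fun l => t l ≠ 0 :=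
        Finset.mem_filter.2 ⟨Finset.mem_univ _, hl⟩
      rw [Finset.card_eq_zero.1 h0] at h2
      exact Finset.notMem_empty _ h2] at h1
    exact zero_ne_one h1
  obtain ⟨k, hk⟩ := Nat.exists_eq_add_one_of_ne_zero hne
  obtain ⟨t', ht'⟩ := hnf_pre (Finset.orderEmbOfFin _ hk) t (fun l hl => by_contra fun h => hl (by
    rw [Finset.range_orderEmbOfFin]
    exact Finset.mem_coe.2 (Finset.mem_filter.2 ⟨Finset.mem_univ _, h⟩)))
  refine ⟨k, _, t', ?_, ht'⟩
  rintro ⟨i, hi⟩
  have h1 := hnf_map_emb (Finset.orderEmbOfFin _ hk) t' i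
  rw [ht', hi] at h1
  exact (Finset.mem_filter.1 (Finset.orderEmbOfFin_mem _ hk i)).2 h1

theorem map_apply_emb {k m : ℕ} (ψ : Fin (k + 1) ↪o Fin (m + 1)) (t : Dl k) (i : Fin (k + 1)) :
    stdSimplex.map ψ t (ψ i) = t i := hnf_map_emb ψ t i

theorem map_apply_of_notMem {k m : ℕ} (ψ : Fin (k + 1) ↪o Fin (m + 1)) (t : Dl k)
    {l : Fin (m + 1)} (h : l ∉ Set.range ψ) : stdSimplex.map ψ t l = 0 := hnf_map_not ψ t h

/-- The face is unique. -/
theorem interior_unique {k k' m : ℕ} {ψ : Fin (k + 1) ↪o Fin (m + 1)}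
    {ψ' : Fin (k' + 1) ↪o Fin (m + 1)} {t : Dl k} {t' : Dl k'} (ht : t ∉ bdry k)
    (ht' : t' ∉ bdry k') (h : stdSimplex.map ψ t = stdSimplex.map ψ' t') :
    (⟨k, ψ, t⟩ : Σ k, (Fin (k + 1) ↪o Fin (m + 1)) × Dl k) = ⟨k', ψ', t'⟩ := by
  have h1 : Set.range ψ = Set.range ψ' := by rw [hnf_range ψ ht, hnf_range ψ' ht', h]
  have h2 : k = k' := by
    have h3 := congrArg Set.ncard h1
    rw [Set.ncard_range_of_injective ψ.injective, Set.ncard_range_of_injective ψ'.injective] at h3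
    simpa using h3
  subst h2
  have h3 : ψ = ψ' := DFunLike.coe_injective ((ψ.strictMono.range_inj ψ'.strictMono).1 h1)
  subst h3
  have h4 : t = t' := stdSimplex.ext (funext fun i => by
    rw [← hnf_map_emb ψ t i, h, hnf_map_emb])
  rw [h4]

/-- A boundary point lies on a face of codimension one. -/
theorem exists_face {m : ℕ} {t : Dl (m + 1)} (h : t ∈ bdry (m + 1)) :
    ∃ (i : Fin (m + 2)) (t' : Dl m), stdSimplex.map (Fin.succAboveOrderEmb i) t' = t := by
  obtain ⟨i, hi⟩ := h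
  refine ⟨i, hnf_pre _ t fun l hl => ?_⟩
  by_cases e : l = i
  · rw [e, hi]
  · exact absurd (Fin.exists_succAbove_eq e) hl

namespace SSpace
variable (A : SSpace)

open Classical in
/-- Forget the points over the base set. -/
def hnfG (p : A.Tot) : Option A.Tot := if p.2.1 ∈ A.Z p.1 then none else some p

theorem hnf_ex {m : ℕ} (t : Dl m) : ∃ d : Σ k, (Fin (k + 1) ↪o Fin (m + 1)) × Dl k,
    d.2.2 ∉ bdry d.1 ∧ stdSimplex.map d.2.1 d.2.2 = t := by
  obtain ⟨k, ψ, t', h⟩ := exists_interior t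
  exact ⟨⟨k, ψ, t'⟩, h⟩

/-- Pull a point back to a face. -/
def hnfF {m : ℕ} (x : A.X m) (d : Σ k, (Fin (k + 1) ↪o Fin (m + 1)) × Dl k) : A.Tot :=
  ⟨d.1, A.face d.2.1 x, d.2.2⟩

/-- The normal form. -/
def hnfN (p : A.Tot) : Option A.Tot := A.hnfG (A.hnfF p.2.1 (Classical.choose (hnf_ex p.2.2)))

theorem hnfN_map {k m : ℕ} (ψ : Fin (k + 1) ↪o Fin (m + 1)) (x : A.X m) {t : Dl k}
    (ht : t ∉ bdry k) : A.hnfN ⟨m, x, stdSimplex.map ψ t⟩ = A.hnfG ⟨k, A.face ψ x, t⟩ := by
  have h := Classical.choose_spec (hnf_ex (stdSimplex.map ψ t))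
  have h2 : Classical.choose (hnf_ex (stdSimplex.map ψ t)) = ⟨k, ψ, t⟩ :=
    interior_unique h.1 ht h.2
  exact congrArg (fun d => A.hnfG (A.hnfF x d)) h2

theorem hnfN_Z {m : ℕ} {x : A.X m} (hx : x ∈ A.Z m) (t : Dl m) : A.hnfN ⟨m, x, t⟩ = none :=
  if_pos (A.face_Z _ x hx)

theorem hnfN_int {k : ℕ} (x : A.X k) {t : Dl k} (ht : t ∉ bdry k) :
    A.hnfN ⟨k, x, t⟩ = A.hnfG ⟨k, x, t⟩ := by
  have h := A.hnfN_map (OrderIso.refl _).toOrderEmbedding x ht
  rw [A.face_id _ x fun _ => rfl] at h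
  rw [← h]
  exact congrArg (fun s => A.hnfN ⟨k, x, s⟩) (stdSimplex.map_id_apply t).symm

/-- The normal form on the realisation. -/
def hnfQ : A.Re → Option A.Tot := Quot.lift A.hnfN (by
  rintro _ _ (⟨ψ, x, t⟩ | ⟨x, t, hx⟩)
  · obtain ⟨k, χ, t', ht', rfl⟩ := exists_interior t
    rw [A.hnfN_map χ _ ht', A.face_comp, stdSimplex.map_comp_apply]
    exact (A.hnfN_map (χ.trans ψ) x ht').symm
  · rw [A.hnfN_Z hx, A.hnfN_Z A.pt_mem])

theorem hnfQ_int {k : ℕ} (x : A.X k) {t : Dl k} (ht : t ∉ bdry k) :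
    A.hnfQ (A.mk' k x t) = A.hnfG ⟨k, x, t⟩ := A.hnfN_int x ht

/-- An interior point over a point outside the base set is not the base point. -/
theorem mk'_ne_base {k : ℕ} {x : A.X k} {t : Dl k} (hx : x ∉ A.Z k) (ht : t ∉ bdry k) :
    A.mk' k x t ≠ A.base := by
  intro h
  have h1 : A.hnfQ (A.mk' k x t) = some ⟨k, x, t⟩ := (A.hnfQ_int x ht).trans (if_neg hx)
  have h2 : A.hnfQ A.base = none := A.hnfN_Z A.pt_mem _
  rw [h, h2] at h1
  cases h1

/-- Uniqueness of normal forms. -/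
theorem mk'_inj {k k' : ℕ} {x : A.X k} {t : Dl k} {x' : A.X k'} {t' : Dl k'} (hx : x ∉ A.Z k)
    (ht : t ∉ bdry k) (ht' : t' ∉ bdry k') (h : A.mk' k x t = A.mk' k' x' t') :
    (⟨k, x, t⟩ : A.Tot) = ⟨k', x', t'⟩ := by
  have hx' : x' ∉ A.Z k' := fun h' => A.mk'_ne_base hx ht (h.trans (A.mk'_of_mem h' t'))
  have h1 : A.hnfQ (A.mk' k x t) = some ⟨k, x, t⟩ := (A.hnfQ_int x ht).trans (if_neg hx)
  have h2 : A.hnfQ (A.mk' k' x' t') = some ⟨k', x', t'⟩ := (A.hnfQ_int x' ht').trans (if_neg hx')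
  rw [h, h2] at h1
  exact (Option.some.inj h1).symm

/-- The skeleton of dimension `m`. -/
def skel (m : ℕ) : Set A.Re := {p | ∃ k, k ≤ m ∧ ∃ x t, p = A.mk' k x t}

theorem mk'_mem_skel {k m : ℕ} (h : k ≤ m) (x : A.X k) (t : Dl k) : A.mk' k x t ∈ A.skel m :=
  ⟨k, h, x, t, rfl⟩

theorem base_mem_skel (m : ℕ) : A.base ∈ A.skel m := A.mk'_mem_skel (Nat.zero_le m) _ _

theorem skel_mono {m m' : ℕ} (h : m ≤ m') : A.skel m ⊆ A.skel m' :=
  fun _ ⟨k, hk, e⟩ => ⟨k, hk.trans h, e⟩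

theorem exists_mem_skel (p : A.Re) : ∃ m, p ∈ A.skel m := by
  obtain ⟨m, x, t⟩ := p
  exact ⟨m, m, le_rfl, x, t, rfl⟩

theorem mem_skel_succ {m : ℕ} {p : A.Re} (h : p ∈ A.skel (m + 1)) :
    p ∈ A.skel m ∨ ∃ x t, p = A.mk' (m + 1) x t := by
  obtain ⟨k, hk, x, t, rfl⟩ := h
  rcases Nat.le_succ_iff.1 hk with h | rfl
  · exact Or.inl (A.mk'_mem_skel h x t)
  · exact Or.inr ⟨x, t, rfl⟩

theorem mem_skel_zero {p : A.Re} (h : p ∈ A.skel 0) :
    ∃ x, p = A.mk' 0 x (stdSimplex.vertex 0) := by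
  obtain ⟨k, hk, x, t, rfl⟩ := h
  obtain rfl := Nat.le_zero.1 hk
  exact ⟨x, by rw [Subsingleton.elim t (stdSimplex.vertex 0)]⟩

theorem mk'_mem_skel_of_bdry {m : ℕ} (x : A.X (m + 1)) {t : Dl (m + 1)} (h : t ∈ bdry (m + 1)) :
    A.mk' (m + 1) x t ∈ A.skel m := by
  obtain ⟨i, t', rfl⟩ := exists_face h
  rw [← A.mk'_face]
  exact A.mk'_mem_skel le_rfl _ _

theorem hnf_le_of_skel {k n : ℕ} {x : A.X k} {t : Dl k} (hx : x ∉ A.Z k) (ht : t ∉ bdry k)
    (h : A.mk' k x t ∈ A.skel n) : k ≤ n := by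
  obtain ⟨j, hj, y, s, e⟩ := h
  obtain ⟨i, χ, s', hs', rfl⟩ := exists_interior s
  rw [← A.mk'_face] at e
  have h1 : k = i := congrArg Sigma.fst (A.mk'_inj hx ht hs' e)
  exact h1.le.trans ((hnf_le χ).trans hj)

/-- A point of a top cell in the lower skeleton is on the boundary or over the base set. -/
theorem of_mk'_mem_skel {m : ℕ} {x : A.X (m + 1)} {t : Dl (m + 1)}
    (h : A.mk' (m + 1) x t ∈ A.skel m) : t ∈ bdry (m + 1) ∨ x ∈ A.Z (m + 1) := by
  by_contra hc
  exact Nat.not_succ_le_self m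
    (A.hnf_le_of_skel (fun h1 => hc (Or.inr h1)) (fun h1 => hc (Or.inl h1)) h)

theorem isClosed_iff {C : Set A.Re} :
    IsClosed C ↔ ∀ m, IsClosed {p : A.X m × Dl m | A.mk' m p.1 p.2 ∈ C} := 
  (isQuotientMap_quot_mk (r := A.Rel)).isClosed_preimage.symm.trans isClosed_sigma_iff

theorem hnf_closed_union {m : ℕ} (S : ∀ k, (Fin (k + 1) ↪o Fin (m + 1)) → Set (A.X m × Dl m))
    (h : ∀ k ψ, IsClosed (S k ψ)) : IsClosed {p | ∃ k ψ, p ∈ S k ψ} := by
  have hf : ∀ k : ℕ, Finite (Fin (k + 1) ↪o Fin (m + 1)) := fun k => DFunLike.finite _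
  have e : {p | ∃ k ψ, p ∈ S k ψ} = ⋃ k : Fin (m + 1), ⋃ ψ, S k ψ := by
    ext p
    simp only [Set.mem_iUnion]
    exact ⟨fun ⟨k, ψ, hp⟩ => ⟨⟨k, Nat.lt_succ_of_le (hnf_le ψ)⟩, ψ, hp⟩,
      fun ⟨k, ψ, hp⟩ => ⟨k, ψ, hp⟩⟩
  rw [e]
  exact isClosed_iUnion_of_finite fun k => isClosed_iUnion_of_finite fun ψ => h k ψ

theorem hnf_closed_range {k m : ℕ} (ψ : Fin (k + 1) ↪o Fin (m + 1)) :
    IsClosed (Set.range (stdSimplex.map ψ : Dl k → Dl m)) :=
  (isCompact_range (stdSimplex.continuous_map ψ)).isClosed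

theorem isClosed_base : IsClosed ({A.base} : Set A.Re) := by
  refine A.isClosed_iff.2 fun m => ?_
  have e : {p : A.X m × Dl m | A.mk' m p.1 p.2 ∈ ({A.base} : Set A.Re)} =
      {p | ∃ k ψ, p ∈ (A.face ψ ⁻¹' A.Z k) ×ˢ Set.range (stdSimplex.map ψ : Dl k → Dl m)} := by
    ext ⟨x, t⟩
    constructor
    · intro h
      obtain ⟨k, ψ, t', ht', rfl⟩ := exists_interior t
      refine ⟨k, ψ, by_contra fun hx => ?_, t', rfl⟩
      exact A.mk'_ne_base hx ht' ((A.mk'_face ψ x t').trans h)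
    · rintro ⟨k, ψ, hx, t', rfl⟩
      exact (A.mk'_face ψ x t').symm.trans (A.mk'_of_mem hx t')
  rw [e]
  exact A.hnf_closed_union _ fun k ψ =>
    ((A.closed_Z k).preimage (A.cont_face ψ)).prod (hnf_closed_range ψ)

theorem isClosed_singleton' (p : A.Re) : IsClosed ({p} : Set A.Re) := by
  obtain ⟨j, y, s⟩ := p
  obtain ⟨k, χ, t0, ht0, rfl⟩ := exists_interior s
  change IsClosed ({A.mk' j y (stdSimplex.map χ t0)} : Set A.Re)
  rw [← A.mk'_face]
  generalize A.face χ y = x0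
  by_cases hx0 : x0 ∈ A.Z k
  · rw [A.mk'_of_mem hx0]
    exact A.isClosed_base
  refine A.isClosed_iff.2 fun m => ?_
  have hf : Finite (Fin (k + 1) ↪o Fin (m + 1)) := DFunLike.finite _
  have e : {p : A.X m × Dl m | A.mk' m p.1 p.2 ∈ ({A.mk' k x0 t0} : Set A.Re)} =
      ⋃ ψ : Fin (k + 1) ↪o Fin (m + 1), (A.face ψ ⁻¹' {x0}) ×ˢ {stdSimplex.map ψ t0} := by
    ext ⟨x, t⟩
    rw [Set.mem_iUnion]
    constructor
    · intro h
      obtain ⟨k', ψ, t', ht', rfl⟩ := exists_interior t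
      have h1 := A.mk'_inj hx0 ht0 ht' ((A.mk'_face ψ x t').trans h).symm
      obtain rfl : k = k' := congrArg Sigma.fst h1
      have h2 := eq_of_heq (Sigma.mk.inj h1).2
      obtain rfl : t0 = t' := congrArg Prod.snd h2
      exact ⟨ψ, (congrArg Prod.fst h2).symm, rfl⟩
    · rintro ⟨ψ, hx, ht⟩
      have hx' : A.face ψ x = x0 := hx
      have ht' : t = stdSimplex.map ψ t0 := ht
      show A.mk' m x t = A.mk' k x0 t0
      rw [ht', ← A.mk'_face, hx']
  rw [e]
  exact isClosed_iUnion_of_finite fun ψ =>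
    (isClosed_singleton.preimage (A.cont_face ψ)).prod isClosed_singleton

theorem isClosed_skel (m : ℕ) : IsClosed (A.skel m) := by
  refine A.isClosed_iff.2 fun n => ?_
  have e : {p : A.X n × Dl n | A.mk' n p.1 p.2 ∈ A.skel m} =
      {p | ∃ k ψ, p ∈ ({_x | k ≤ m} ∪ A.face ψ ⁻¹' A.Z k) ×ˢ
        Set.range (stdSimplex.map ψ : Dl k → Dl n)} := by
    ext ⟨x, t⟩
    constructor
    · intro h
      obtain ⟨k, ψ, t', ht', rfl⟩ := exists_interior t
      refine ⟨k, ψ, ?_, t', rfl⟩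
      by_cases hx : A.face ψ x ∈ A.Z k
      · exact Or.inr hx
      · exact Or.inl (A.hnf_le_of_skel hx ht' ((A.mk'_face ψ x t').symm ▸ h))
    · rintro ⟨k, ψ, hx, t', rfl⟩
      show A.mk' n x (stdSimplex.map ψ t') ∈ A.skel m
      rw [← A.mk'_face]
      rcases hx with hx | hx
      · exact A.mk'_mem_skel hx _ _
      · rw [A.mk'_of_mem hx]
        exact A.base_mem_skel m
  rw [e]
  exact A.hnf_closed_union _ fun k ψ =>
    (isClosed_const.union ((A.closed_Z k).preimage (A.cont_face ψ))).prod (hnf_closed_range ψ)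

/-- Compact sets lie in a skeleton. -/
theorem exists_subset_skel {K : Set A.Re} (hK : IsCompact K) : ∃ m, K ⊆ A.skel m := by
  by_contra hc
  have h0 : ∀ n, ∃ q, q ∈ K ∧ q ∉ A.skel n := fun n => Set.not_subset.1 fun h => hc ⟨n, h⟩
  choose p hpK hp using h0
  have hT : T1Space A.Re := ⟨A.isClosed_singleton'⟩
  have hD : ∀ n, IsClosed (p '' Set.Ici n) := fun n => by
    refine A.isClosed_iff.2 fun m => ?_
    have hfin : (p '' Set.Ici n ∩ A.skel m).Finite := by
      refine ((Set.finite_Iio m).image p).subset ?_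
      rintro _ ⟨⟨j, -, rfl⟩, hj⟩
      exact ⟨j, not_le.1 fun h => hp j (A.skel_mono h hj), rfl⟩
    have e : {q : A.X m × Dl m | A.mk' m q.1 q.2 ∈ p '' Set.Ici n} =
        (fun q : A.X m × Dl m => A.mk' m q.1 q.2) ⁻¹' (p '' Set.Ici n ∩ A.skel m) :=
      Set.ext fun q => ⟨fun h => ⟨h, A.mk'_mem_skel le_rfl _ _⟩, fun h => h.1⟩
    rw [e]
    exact hfin.isClosed.preimage (A.continuous_mk' m)
  obtain ⟨F, hF⟩ := hK.elim_finite_subcover (fun n => (p '' Set.Ici n)ᶜ)
    (fun n => (hD n).isOpen_compl) (fun q _ => by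
      obtain ⟨m, hm⟩ := A.exists_mem_skel q
      refine Set.mem_iUnion.2 ⟨m, ?_⟩
      rintro ⟨j, hj, rfl⟩
      exact hp j (A.skel_mono hj hm))
  obtain ⟨n, hn, h⟩ := Set.mem_iUnion₂.1 (hF (hpK (F.sup id)))
  exact h ⟨F.sup id, Finset.le_sup (f := id) hn, rfl⟩

end SSpace

end Pool.Agent.Lib.E2
end
end

-- part Pool.Agent.Lib.MP_10be03_gt.HDesc
section

/-! Maps out of the skeleta: each skeleton is obtained from the previous one by attaching
the top cells. -/

noncomputable section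
open scoped unitInterval Topology

namespace Pool.Agent.Lib.E2
open Geo

namespace SSpace
variable (A : SSpace)

theorem hdesc_le {k m : ℕ} {x : A.X k} {t : Dl k} (hx : x ∉ A.Z k) (ht : t ∉ bdry k)
    (h : A.mk' k x t ∈ A.skel m) : k ≤ m := by
  obtain ⟨k0, hk, x0, t0, e⟩ := h
  obtain ⟨k1, ψ, t1, h1, rfl⟩ := exists_interior t0
  rw [← A.mk'_face] at e
  have e1 : k = k1 := congrArg Sigma.fst (A.mk'_inj hx ht h1 e)
  have := Fintype.card_le_of_injective ψ ψ.injective
  simp only [Fintype.card_fin] at this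
  omega

theorem hdesc_vertex (t : Dl 0) : t ∉ bdry 0 := fun ⟨i, hi⟩ => by
  have : t i = 1 := by
    have h := t.2.2
    rw [Fin.sum_univ_succ, Finset.univ_eq_empty, Finset.sum_empty, add_zero] at h
    rw [Fin.fin_one_eq_zero i]
    exact h
  exact zero_ne_one (hi.symm.trans this)

/-- A subset of a skeleton is closed when its traces on the cells of the skeleton are. -/
theorem isClosed_of_subset_skel {m : ℕ} {C : Set A.Re} (hC : C ⊆ A.skel m)
    (h : ∀ k, k ≤ m → IsClosed {p : A.X k × Dl k | A.mk' k p.1 p.2 ∈ C}) : IsClosed C := by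
  refine A.isClosed_iff.2 fun n => ?_
  have e : {p : A.X n × Dl n | A.mk' n p.1 p.2 ∈ C} =
      (⋃ k ∈ Set.Iic m, ⋃ ψ : Fin (k + 1) ↪o Fin (n + 1), Prod.map id (stdSimplex.map ψ) ''
        {p : A.X n × Dl k | A.mk' k (A.face ψ p.1) p.2 ∈ C}) ∪
      (fun p : A.X n × Dl n => A.mk' n p.1 p.2) ⁻¹' (C ∩ {A.base}) := by
    ext ⟨x, t⟩
    simp only [Set.mem_ofPred_eq, Set.mem_union, Set.mem_iUnion, Set.mem_preimage]
    constructor
    · intro hp
      obtain ⟨k, ψ, t', ht, rfl⟩ := exists_interior t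
      by_cases hx : A.face ψ x ∈ A.Z k
      · exact Or.inr ⟨hp, (A.mk'_face ψ x t').symm.trans (A.mk'_of_mem hx t')⟩
      · rw [← A.mk'_face] at hp
        exact Or.inl ⟨k, A.hdesc_le hx ht (hC hp), ψ, (x, t'), hp, rfl⟩
    · rintro (⟨k, -, ψ, ⟨y, s⟩, hp, e⟩ | hp)
      · obtain ⟨rfl, rfl⟩ := Prod.mk.inj e
        exact A.mk'_face ψ y s ▸ hp
      · exact hp.1
  rw [e]
  refine IsClosed.union ((Set.finite_Iic m).isClosed_biUnion fun k hk => ?_) ?_
  · have : Finite (Fin (k + 1) ↪o Fin (n + 1)) := DFunLike.finite _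
    refine isClosed_iUnion_of_finite fun ψ => ?_
    exact (isProperMap_id.prodMap (stdSimplex.continuous_map ψ).isProperMap).isClosedMap _
      ((h k hk).preimage ((A.cont_face ψ).prodMap continuous_id))
  · refine IsClosed.preimage (A.continuous_mk' n) ?_
    rcases (Set.subsingleton_singleton.anti
      (Set.inter_subset_right (s := C) (t := {A.base}))).eq_empty_or_singleton with h0 | ⟨q, h0⟩
    · rw [h0]; exact isClosed_empty
    · rw [h0]; exact A.isClosed_singleton' q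

theorem hdesc_closed {m : ℕ} {s : Set (A.skel m)}
    (h : ∀ k (hk : k ≤ m), IsClosed {p : A.X k × Dl k |
      (⟨A.mk' k p.1 p.2, A.mk'_mem_skel hk _ _⟩ : A.skel m) ∈ s}) : IsClosed s := by
  rw [← Set.preimage_image_eq s Subtype.val_injective]
  refine (A.isClosed_of_subset_skel (Subtype.coe_image_subset _ s) fun k hk => ?_).preimage
    continuous_subtype_val
  refine (congrArg IsClosed (Set.ext fun p => ?_)).mp (h k hk)
  exact ⟨fun h => ⟨_, h, rfl⟩, fun ⟨⟨_, _⟩, h, e⟩ => by subst e; exact h⟩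

/-- The skeleton is a quotient of the previous skeleton and the top cells. -/
theorem isQuotientMap_attach (m : ℕ) : Topology.IsQuotientMap
    (Sum.elim (fun q : A.skel m => (⟨q.1, A.skel_mono (Nat.le_succ m) q.2⟩ : A.skel (m + 1)))
      fun p : A.X (m + 1) × Dl (m + 1) =>
        (⟨A.mk' (m + 1) p.1 p.2, A.mk'_mem_skel le_rfl _ _⟩ : A.skel (m + 1))) := by
  refine Topology.isQuotientMap_iff_isClosed.2 ⟨fun ⟨q, hq⟩ => ?_, fun s => ⟨fun hs =>
    hs.preimage ((continuous_subtype_val.subtype_mk _).sumElim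
      ((A.continuous_mk' _).subtype_mk _)), fun hs => A.hdesc_closed fun k hk => ?_⟩⟩
  · rcases A.mem_skel_succ hq with h | ⟨x, t, rfl⟩
    · exact ⟨Sum.inl ⟨q, h⟩, rfl⟩
    · exact ⟨Sum.inr (x, t), rfl⟩
  · rcases Nat.le_succ_iff.1 hk with h | rfl
    · exact (isClosed_sum_iff.1 hs).1.preimage
        ((A.continuous_mk' k).subtype_mk fun p => A.mk'_mem_skel h p.1 p.2)
    · exact (isClosed_sum_iff.1 hs).2

theorem isQuotientMap_zero : Topology.IsQuotientMap
    fun x : A.X 0 => (⟨A.mk' 0 x (stdSimplex.vertex 0), A.mk'_mem_skel le_rfl _ _⟩ : A.skel 0) := by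
  refine Topology.isQuotientMap_iff_isClosed.2 ⟨fun ⟨q, hq⟩ => ?_, fun s => ⟨fun hs =>
    hs.preimage (((A.continuous_mk' 0).comp (continuous_id.prodMk continuous_const)).subtype_mk _),
    fun hs => A.hdesc_closed fun k hk => ?_⟩⟩
  · obtain ⟨x, rfl⟩ := A.mem_skel_zero hq
    exact ⟨x, rfl⟩
  · obtain rfl := Nat.le_zero.1 hk
    refine (congrArg IsClosed (Set.ext fun p => ?_)).mp
      (hs.preimage (continuous_fst (Y := Dl 0)))
    rw [Set.mem_ofPred_eq, Subsingleton.elim p.2 (stdSimplex.vertex 0)]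
    rfl

theorem desc_succ {m : ℕ} {P T : Type*} [TopologicalSpace P] [LocallyCompactSpace P]
    [TopologicalSpace T] (g : A.skel m → P → T)
    (hg : Continuous fun p : A.skel m × P => g p.1 p.2) (f : A.X (m + 1) → Dl (m + 1) → P → T)
    (hf : Continuous fun p : (A.X (m + 1) × Dl (m + 1)) × P => f p.1.1 p.1.2 p.2)
    (hfg : ∀ x t (h : A.mk' (m + 1) x t ∈ A.skel m) p, t ∈ bdry (m + 1) ∨ x ∈ A.Z (m + 1) →
      f x t p = g ⟨_, h⟩ p) :
    ∃ F : A.skel (m + 1) → P → T, Continuous (fun p : A.skel (m + 1) × P => F p.1 p.2) ∧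
      (∀ x t h p, F ⟨A.mk' (m + 1) x t, h⟩ p = f x t p) ∧
      ∀ q (hq : q ∈ A.skel m) h p, F ⟨q, h⟩ p = g ⟨q, hq⟩ p := by
  have hq := A.isQuotientMap_attach m
  have h1 : ∀ x t (h : A.mk' (m + 1) x t ∈ A.skel m), f x t = g ⟨_, h⟩ := fun x t h =>
    funext fun p => hfg x t h p (A.of_mk'_mem_skel h)
  have : Nonempty (P → T) := ⟨g ⟨_, A.base_mem_skel m⟩⟩
  obtain ⟨F, hF⟩ := (Function.factorsThrough_iff (f := Sum.elim (fun q : A.skel m =>
      (⟨q.1, A.skel_mono (Nat.le_succ m) q.2⟩ : A.skel (m + 1))) fun p : A.X (m + 1) × Dl (m + 1) =>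
        ⟨A.mk' (m + 1) p.1 p.2, A.mk'_mem_skel le_rfl _ _⟩)
      (Sum.elim g fun p => f p.1 p.2)).1 (by
    rintro (⟨q, hq⟩ | ⟨x, t⟩) (⟨q', hq'⟩ | ⟨x', t'⟩) e <;> have e' := congrArg Subtype.val e
    · obtain rfl : q = q' := e'
      rfl
    · obtain rfl : q = A.mk' _ x' t' := e'
      exact (h1 x' t' hq).symm
    · obtain rfl : A.mk' _ x t = q' := e'
      exact h1 x t hq'
    · change A.mk' _ x t = A.mk' _ x' t' at e'
      by_cases h : A.mk' (m + 1) x t ∈ A.skel m
      · exact (h1 x t h).trans ((congrArg g (Subtype.ext e')).trans (h1 x' t' (e' ▸ h)).symm)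
      · have := A.mk'_inj (fun hx => h (A.mk'_of_mem hx t ▸ A.base_mem_skel m))
          (fun ht => h (A.mk'_mem_skel_of_bdry x ht))
          (fun ht => h (e' ▸ A.mk'_mem_skel_of_bdry x' ht)) e'
        rw [eq_of_heq (Sigma.mk.inj this).2])
  refine ⟨F, hq.continuous_lift_prod_left ?_,
    fun x t _ p => (congrFun (congrFun hF (.inr (x, t))) p).symm,
    fun q h _ p => (congrFun (congrFun hF (.inl ⟨q, h⟩)) p).symm⟩
  refine ((hg.sumElim hf).comp (Homeomorph.sumProdDistrib (X := A.skel m)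
    (Y := A.X (m + 1) × Dl (m + 1)) (Z := P)).continuous).congr ?_
  rintro ⟨q | q, p⟩
  · exact congrFun (congrFun hF (.inl q)) p
  · exact congrFun (congrFun hF (.inr q)) p

theorem desc_zero {T : Type*} [TopologicalSpace T] (f : A.X 0 → T) (hf : Continuous f) (c : T)
    (hZ : ∀ x ∈ A.Z 0, f x = c) :
    ∃ F : A.skel 0 → T, Continuous F ∧ ∀ x t h, F ⟨A.mk' 0 x t, h⟩ = f x := by
  have key : ∀ x x' t, x ∉ A.Z 0 → A.mk' 0 x t = A.mk' 0 x' t → x = x' := fun x x' t hx e =>
    congrArg Prod.fst (eq_of_heq (Sigma.mk.inj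
      (A.mk'_inj hx (hdesc_vertex t) (hdesc_vertex t) e)).2)
  have : Nonempty T := ⟨c⟩
  obtain ⟨F, hF⟩ := (Function.factorsThrough_iff (f := fun x : A.X 0 =>
      (⟨A.mk' 0 x (stdSimplex.vertex 0), A.mk'_mem_skel le_rfl _ _⟩ : A.skel 0)) f).1
      fun x x' e => by
    have e' := congrArg Subtype.val e
    by_cases hx : x ∈ A.Z 0
    · by_cases hx' : x' ∈ A.Z 0
      · rw [hZ x hx, hZ x' hx']
      · rw [key x' x _ hx' e'.symm]
    · rw [key x x' _ hx e']
  refine ⟨F, A.isQuotientMap_zero.continuous_iff.2 (hF ▸ hf), fun x t h => ?_⟩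
  obtain rfl := Subsingleton.elim t (stdSimplex.vertex 0)
  exact (congrFun hF x).symm

end SSpace

end Pool.Agent.Lib.E2
end
end

-- part Pool.Agent.Lib.MP_10be03_gt.HGeo2
section

/-! Homotopies of maps of pairs between cubes, simplices and prisms. -/

noncomputable section
open scoped unitInterval Topology

namespace Pool.Agent.Lib.E2.Geo
open HC

variable {n : ℕ}

/-- The vector underlying `lam`. -/
def g2_lv (z : Fin n → I) : Fin (n + 1) → ℝ := Fin.cons 0 fun k => 4 * ((z k : ℝ) - 1 / 2)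

theorem g2_lv_zero (z : Fin n → I) : g2_lv z 0 = 0 := rfl

theorem g2_lv_succ (z : Fin n → I) (k : Fin n) : g2_lv z k.succ = 4 * ((z k : ℝ) - 1 / 2) := rfl

theorem g2_lam (z : Fin n → I) : lam n z = rt (g2_lv z) := rfl

theorem g2_lv_cont : Continuous (g2_lv : (Fin n → I) → Fin (n + 1) → ℝ) := by
  refine continuous_pi fun i => ?_
  induction i using Fin.cases with
  | zero => exact continuous_const
  | succ k =>
    simp only [g2_lv_succ]
    fun_prop

theorem g2_lv_abs (z : Fin n → I) (i : Fin (n + 1)) : -2 ≤ g2_lv z i ∧ g2_lv z i ≤ 2 := by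
  induction i using Fin.cases with
  | zero => rw [g2_lv_zero]; norm_num
  | succ k =>
    rw [g2_lv_succ]
    constructor <;> linarith [(z k).2.1, (z k).2.2]

theorem g2_gauge_le (z : Fin n → I) : gauge (g2_lv z) ≤ 4 * (n + 1) := by
  obtain ⟨i, hi⟩ := exists_mn (g2_lv z)
  rw [gauge_eq_sum, ← hi]
  refine (Finset.sum_le_sum (g := fun _ => (4 : ℝ)) fun l _ => ?_).trans_eq ?_
  · linarith [(g2_lv_abs z l).2, (g2_lv_abs z i).1]
  · simp [mul_comm]

theorem g2_sub (v : Fin (n + 1) → ℝ) (a b : Fin (n + 1)) :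
    rt v a - rt v b = (v a - v b) / max 1 (gauge v) := by
  rw [rt_apply, rt_apply]
  ring

theorem g2_max_pos (t : ℝ) : 0 < max 1 t := lt_of_lt_of_le one_pos (le_max_left _ _)

theorem kap_lam_homotopy (n : ℕ) : ∃ H : I → (Fin n → I) → (Fin n → I),
    Continuous (fun p : I × (Fin n → I) => H p.1 p.2) ∧ (∀ z, H 0 z = kap n (lam n z)) ∧
      (∀ z, H 1 z = z) ∧ ∀ s z, z ∈ Cube.boundary (Fin n) → H s z ∈ Cube.boundary (Fin n) := by
  obtain ⟨μ, hμ⟩ : ∃ μ : (Fin n → I) → ℝ, μ = fun z => 4 * (n + 1) / max 1 (gauge (g2_lv z)) :=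
    ⟨_, rfl⟩
  have hc : Continuous μ := hμ ▸ continuous_const.div
    (continuous_const.max (continuous_gauge.comp g2_lv_cont)) fun z => (g2_max_pos _).ne'
  have h1 : ∀ z, 1 ≤ μ z := fun z => by
    rw [hμ]
    refine (one_le_div (g2_max_pos _)).2 (max_le ?_ (g2_gauge_le z))
    linarith [Nat.cast_nonneg (α := ℝ) n]
  refine ⟨fun s z k => cl (((1 - s) * μ z + s) * ((z k : ℝ) - 1 / 2) + 1 / 2),
    continuous_pi fun k => continuous_cl.comp (by fun_prop), fun z => funext fun k => ?_,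
    fun z => funext fun k => cl_eq_of (by simp), fun s z ⟨k, hk⟩ => ⟨k, ?_⟩⟩
  · rw [kap, g2_lam, g2_sub, g2_lv_succ, g2_lv_zero, hμ]
    refine congrArg cl ?_
    simp only [Set.Icc.coe_zero]
    ring
  · have h2 : 1 ≤ (1 - (s : ℝ)) * μ z + s := by nlinarith [s.2.1, s.2.2, h1 z]
    rcases hk with hk | hk
    · refine Or.inl (cl_of_le ?_)
      rw [hk, Set.Icc.coe_zero]
      linarith
    · refine Or.inr (cl_of_ge ?_)
      rw [hk, Set.Icc.coe_one]
      linarith

theorem g2_kap (w : Dl n) (l : Fin (n + 1)) :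
    g2_lv (kap n w) l = 4 * ((cl ((n + 1) * (w l - w 0) + 1 / 2) : ℝ) - 1 / 2) := by
  induction l using Fin.cases with
  | zero =>
    rw [g2_lv_zero, sub_self, mul_zero, zero_add, coe_cl]
    norm_num
  | succ k => rfl

theorem g2_kap_mono (w : Dl n) {i l : Fin (n + 1)} (h : w i ≤ w l) :
    g2_lv (kap n w) i ≤ g2_lv (kap n w) l := by
  have hn : (0 : ℝ) ≤ n + 1 := by positivity
  have h1 : (n + 1) * (w i - w 0) + 1 / 2 ≤ (n + 1) * (w l - w 0) + 1 / 2 := by
    have := mul_le_mul_of_nonneg_left (sub_le_sub_right h (w 0)) hn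
    linarith
  have h2 : (cl ((n + 1) * (w i - w 0) + 1 / 2) : ℝ) ≤ cl ((n + 1) * (w l - w 0) + 1 / 2) := by
    rw [coe_cl, coe_cl]
    exact max_le_max_left _ (min_le_min_left _ h1)
  rw [g2_kap, g2_kap]
  linarith

theorem lam_kap_homotopy (n : ℕ) : ∃ H : I → Dl n → Dl n,
    Continuous (fun p : I × Dl n => H p.1 p.2) ∧ (∀ w, H 0 w = lam n (kap n w)) ∧
      (∀ w, H 1 w = w) ∧ ∀ s w, w ∈ bdry n → H s w ∈ bdry n := by
  refine ⟨fun s w => rt fun l => (1 - (s : ℝ)) * g2_lv (kap n w) l + s * w l,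
    continuous_rt.comp (continuous_pi fun l => ?_), fun w => ?_, fun w => ?_,
    fun s w hw => rt_mem_bdry ?_⟩
  · have h1 : Continuous fun w : Dl n => g2_lv (kap n w) l :=
      (continuous_apply l).comp (g2_lv_cont.comp continuous_kap)
    have h2 := continuous_coord (n := n) l
    exact ((continuous_const.sub (continuous_subtype_val.comp continuous_fst)).mul
      (h1.comp continuous_snd)).add
        ((continuous_subtype_val.comp continuous_fst).mul (h2.comp continuous_snd))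
  · exact congrArg rt (funext fun l => by simp [g2_lv])
  · exact (congrArg rt (funext fun l => by simp)).trans (rt_coe w)
  · obtain ⟨k, hk⟩ := kap_bd w hw
    obtain ⟨i, hi⟩ := hw
    have h0 : ∀ l, g2_lv (kap n w) i ≤ g2_lv (kap n w) l := fun l =>
      g2_kap_mono w (hi.trans_le (w.2.1 l))
    have h1 : ∀ p q, g2_lv (kap n w) p - g2_lv (kap n w) q ≤
        ∑ l, (g2_lv (kap n w) l - g2_lv (kap n w) i) := fun p q =>
      (sub_le_sub_left (h0 q) _).trans (Finset.single_le_sum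
        (f := fun l => g2_lv (kap n w) l - g2_lv (kap n w) i) (fun l _ => sub_nonneg.2 (h0 l))
        (Finset.mem_univ p))
    have h2 : 1 ≤ ∑ l, (g2_lv (kap n w) l - g2_lv (kap n w) i) := by
      rcases hk with hk | hk
      · have := h1 0 k.succ
        rw [g2_lv_zero, g2_lv_succ, hk, Set.Icc.coe_zero] at this
        linarith
      · have := h1 k.succ 0
        rw [g2_lv_zero, g2_lv_succ, hk, Set.Icc.coe_one] at this
        linarith
    have h3 : ∑ l, w l = 1 := w.2.2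
    have h4 : ∑ l, ((1 - (s : ℝ)) * (g2_lv (kap n w) l - g2_lv (kap n w) i) + s * w l) =
        (1 - (s : ℝ)) * ∑ l, (g2_lv (kap n w) l - g2_lv (kap n w) i) + s := by
      rw [Finset.sum_add_distrib, ← Finset.mul_sum, ← Finset.mul_sum, h3, mul_one]
    rw [gauge_eq_sum]
    refine le_trans ?_ (h4.symm.trans_le (Finset.sum_le_sum fun l _ => ?_))
    · nlinarith [s.2.1, s.2.2]
    · have := mn_le (fun l => (1 - (s : ℝ)) * g2_lv (kap n w) l + s * w l) i
      simp only [hi] at this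
      linarith

theorem g2_swap_succAbove (p k : Fin (n + 1)) :
    Equiv.swap p.castSucc p.succ (p.castSucc.succAbove k) = p.succ.succAbove k := by
  rcases lt_trichotomy k p with h | rfl | h
  · rw [Fin.succAbove_castSucc_of_lt _ _ h, Fin.succAbove_succ_of_le _ _ h.le]
    exact Equiv.swap_apply_of_ne_of_ne (Fin.castSucc_lt_castSucc_iff.2 h).ne
      (Fin.castSucc_lt_succ_iff.2 h.le).ne
  · rw [Fin.succAbove_castSucc_self, Fin.succAbove_succ_self, Equiv.swap_apply_right]
  · rw [Fin.succAbove_castSucc_of_le _ _ h.le, Fin.succAbove_succ_of_lt _ _ h]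
    exact Equiv.swap_apply_of_ne_of_ne (Fin.castSucc_lt_succ_iff.2 h.le).ne'
      (Fin.succ_lt_succ_iff.2 h).ne'

theorem g2_eF_swap (p : Fin (n + 1)) (v : Fin (n + 2) → ℝ) :
    eF p.succ (rt v) = eF p.castSucc (rt fun i => v (Equiv.swap p.castSucc p.succ i)) := by
  simp only [eF, rt_comp_perm, g2_swap_succAbove, Equiv.swap_apply_left]

/-- Consecutive faces `j + 1`, `j + 2` differ by a transposition of cube coordinates. -/
theorem eF_lam_swap (j : Fin n) (z : Fin (n + 1) → I) :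
    eF j.succ.succ (lam (n + 1) z) = eF j.succ.castSucc (lam (n + 1)
      (Function.update (Function.update z j.castSucc (z j.succ)) j.succ (z j.castSucc))) := by
  rw [g2_lam, g2_lam, g2_eF_swap]
  refine congrArg (eF j.succ.castSucc) (congrArg rt (funext fun i => ?_))
  rw [← Fin.succ_castSucc]
  induction i using Fin.cases with
  | zero =>
    rw [Equiv.swap_apply_of_ne_of_ne (Fin.succ_ne_zero _).symm (Fin.succ_ne_zero _).symm]
    rfl
  | succ k =>
    rw [← (Fin.succ_injective _).map_swap, g2_lv_succ, g2_lv_succ]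
    by_cases h1 : k = j.succ
    · rw [h1, Equiv.swap_apply_right, Function.update_self]
    · rw [Function.update_of_ne h1]
      by_cases h2 : k = j.castSucc
      · rw [h2, Equiv.swap_apply_left, Function.update_self]
      · rw [Function.update_of_ne h2, Equiv.swap_apply_of_ne_of_ne h2 h1]

/-- The shearing family. -/
def g2_u (s : ℝ) (z : Fin (n + 1) → I) : Fin (n + 2) → ℝ :=
  Fin.cons 0 (Fin.cons (-(4 * ((z 0 : ℝ) - 1 / 2)))
    fun k : Fin n => 4 * ((z k.succ : ℝ) - 1 / 2) - (1 - s) * (4 * ((z 0 : ℝ) - 1 / 2)))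

theorem g2_u0 (s : ℝ) (z : Fin (n + 1) → I) : g2_u s z 0 = 0 := rfl

theorem g2_u1 (s : ℝ) (z : Fin (n + 1) → I) :
    g2_u s z (Fin.succ 0) = -(4 * ((z 0 : ℝ) - 1 / 2)) := rfl

theorem g2_u2 (s : ℝ) (z : Fin (n + 1) → I) (k : Fin n) : g2_u s z k.succ.succ =
    4 * ((z k.succ : ℝ) - 1 / 2) - (1 - s) * (4 * ((z 0 : ℝ) - 1 / 2)) := rfl

theorem g2_cases {p : Fin (n + 2) → Prop} (h0 : p 0) (h1 : p (Fin.succ 0))
    (h2 : ∀ k : Fin n, p k.succ.succ) (i : Fin (n + 2)) : p i :=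
  Fin.cases h0 (fun k => Fin.cases (motive := fun k : Fin (n + 1) => p k.succ) h1 h2 k) i

theorem g2_abs_le (v : Fin (n + 1) → ℝ) (i k : Fin (n + 1)) : |v i - v k| ≤ gauge v :=
  abs_sub_le_iff.2 ⟨sub_le_gauge v i k, sub_le_gauge v k i⟩

/-- The faces `0` and `1` differ by a reflection, up to homotopy. -/
theorem eF_lam_refl (n : ℕ) : ∃ H : I → (Fin (n + 1) → I) → Dl n × I,
    Continuous (fun p : I × (Fin (n + 1) → I) => H p.1 p.2) ∧
      (∀ z, H 0 z = eF (Fin.succ 0) (lam (n + 1) z)) ∧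
      (∀ z, H 1 z = eF 0 (lam (n + 1) (Function.update z 0 (σ (z 0))))) ∧
      ∀ s z, z ∈ Cube.boundary (Fin (n + 1)) → H s z ∈ pbd n := by
  refine ⟨fun s z => eF 0 (rt (g2_u s z)),
    (continuous_eF 0).comp (continuous_rt.comp (continuous_pi fun i => ?_)), fun z => ?_,
    fun z => ?_, fun s z ⟨k, hk⟩ => eF_mem_pbd 0 (rt_mem_bdry ?_)⟩
  · induction i using g2_cases with
    | h0 => exact continuous_const
    | h1 =>
      simp only [g2_u1]
      fun_prop
    | h2 k =>
      simp only [g2_u2]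
      fun_prop
  · rw [g2_lam, g2_eF_swap, Fin.castSucc_zero]
    refine congrArg (eF 0) ((rt_add_const _ (4 * ((z 0 : ℝ) - 1 / 2))).symm.trans
      (congrArg rt (funext fun i => ?_)))
    induction i using g2_cases with
    | h0 => rw [Equiv.swap_apply_left, g2_u0, g2_lv_succ, zero_add]
    | h1 => rw [Equiv.swap_apply_right, g2_u1, g2_lv_zero, neg_add_cancel]
    | h2 k =>
      rw [Equiv.swap_apply_of_ne_of_ne (Fin.succ_ne_zero _)
        ((Fin.succ_injective _).ne (Fin.succ_ne_zero _)), g2_u2, g2_lv_succ, Set.Icc.coe_zero]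
      ring
  · rw [g2_lam]
    refine congrArg (eF 0) (congrArg rt (funext fun i => ?_))
    induction i using g2_cases with
    | h0 => rfl
    | h1 =>
      rw [g2_u1, g2_lv_succ, Function.update_self, unitInterval.coe_symm_eq]
      ring
    | h2 k =>
      rw [g2_u2, g2_lv_succ, Function.update_of_ne (Fin.succ_ne_zero _), Set.Icc.coe_one]
      ring
  · have h1 := g2_abs_le (g2_u s z) (Fin.succ 0) 0
    rw [g2_u0, g2_u1, sub_zero, abs_neg] at h1
    have h2 : |4 * ((z k : ℝ) - 1 / 2)| = 2 := by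
      rcases hk with hk | hk <;> rw [hk] <;> norm_num
    induction k using Fin.cases with
    | zero => linarith
    | succ k =>
      have h3 := g2_abs_le (g2_u s z) k.succ.succ 0
      rw [g2_u0, g2_u2, sub_zero] at h3
      have h4 := abs_sub_abs_le_abs_sub (4 * ((z k.succ : ℝ) - 1 / 2))
        ((1 - s) * (4 * ((z 0 : ℝ) - 1 / 2)))
      rw [h2, abs_mul, abs_of_nonneg (sub_nonneg.2 s.2.2)] at h4
      nlinarith [s.2.1, abs_nonneg (4 * ((z 0 : ℝ) - 1 / 2))]

end Pool.Agent.Lib.E2.Geo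
end
end

-- part Pool.Agent.Lib.MP_10be03_gt.HGeo3
section

/-! The polar coordinates of face `0` have degree one. -/

noncomputable section
open scoped unitInterval Topology

namespace Pool.Agent.Lib.E2.Geo
open HC

namespace G3

variable {n : ℕ}

/-- The line from an inner point through the section point. -/
def yy (μ : ℝ) (p : Dl n × I) : Fin (n + 2) → ℝ :=
  Fin.cons (((1 - μ) / 4 + μ * (1 - p.2) / 2) / (n + 2)) fun k =>
    ((1 - μ) / 4 + μ * (1 - p.2) / 2) / (n + 2) +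
      ((1 - μ) * 3 / (4 * (n + 1)) + μ * (1 + p.2) / 2 * p.1 k)

theorem yy_zero (μ : ℝ) (p : Dl n × I) :
    yy μ p 0 = ((1 - μ) / 4 + μ * (1 - p.2) / 2) / (n + 2) := rfl

theorem yy_succ (μ : ℝ) (p : Dl n × I) (k : Fin (n + 1)) : yy μ p k.succ =
    yy μ p 0 + ((1 - μ) * 3 / (4 * (n + 1)) + μ * (1 + p.2) / 2 * p.1 k) := rfl

theorem yy_sum (μ : ℝ) (p : Dl n × I) : ∑ i, yy μ p i = 1 := by
  have h : ∑ k, p.1 k = 1 := p.1.2.2
  rw [Fin.sum_univ_succ]
  simp only [yy_succ, Finset.sum_add_distrib, ← Finset.mul_sum, h, yy_zero, Finset.sum_const,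
    Finset.card_univ, Fintype.card_fin, nsmul_eq_mul, Nat.cast_add, Nat.cast_one]
  field_simp
  ring

theorem continuous_yy : Continuous fun q : ℝ × (Dl n × I) => yy q.1 q.2 := by
  refine continuous_pi fun i => ?_
  induction i using Fin.cases with
  | zero => simp only [yy_zero]; fun_prop
  | succ k =>
    have : Continuous fun q : ℝ × (Dl n × I) => q.2.1 k :=
      (continuous_coord k).comp (continuous_fst.comp continuous_snd)
    simp only [yy_succ, yy_zero]
    fun_prop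

theorem rt_yy (μ : ℝ) (p : Dl n × I) :
    rt (yy μ p) ∈ bdry (n + 1) ∨ ∀ i, rt (yy μ p) i = yy μ p i := by
  by_cases h : ∀ i, 0 ≤ yy μ p i
  · exact Or.inr fun i => by
      rw [show rt (yy μ p) = ⟨yy μ p, h, yy_sum μ p⟩ from rt_coe ⟨yy μ p, h, yy_sum μ p⟩]; rfl
  · push Not at h
    obtain ⟨i, hi⟩ := h
    refine Or.inl (rt_mem_bdry ?_)
    have h1 := mn_le (yy μ p) i
    have h2 : (0 : ℝ) ≤ ((n + 1 : ℕ) : ℝ) + 1 := by positivity
    rw [gauge, yy_sum]
    nlinarith

theorem eF_yy_one (p : Dl n × I) : eF 0 (rt (yy 1 p)) = p := by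
  have hu := p.2.2.1
  have hu' := p.2.2.2
  have h0 : 0 ≤ yy 1 p 0 := by
    rw [yy_zero]
    exact div_nonneg (by linarith) (by positivity)
  have h : ∀ i, 0 ≤ yy 1 p i := fun i => by
    induction i using Fin.cases with
    | zero => exact h0
    | succ k =>
      have : 0 ≤ p.1 k := p.1.2.1 k
      rw [yy_succ, sub_self, zero_mul, zero_div, zero_add]
      positivity
  have e : ∀ i, rt (yy 1 p) i = yy 1 p i := fun i => by
    rw [show rt (yy 1 p) = ⟨yy 1 p, h, yy_sum 1 p⟩ from rt_coe ⟨yy 1 p, h, yy_sum 1 p⟩]; rfl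
  have r : 1 - ((n : ℝ) + 2) * yy 1 p 0 = (1 + p.2) / 2 := by
    rw [yy_zero]
    field_simp
    ring
  refine Prod.ext ?_ (cl_eq_of ?_)
  · refine (congrArg rt (funext fun k => ?_)).trans (rt_coe p.1)
    rw [e, e, r, max_eq_left (by linarith), Fin.zero_succAbove, yy_succ]
    field_simp
    ring
  · rw [e, r]
    ring

theorem eF_yy {μ : ℝ} (hμ : 1 ≤ μ) {p : Dl n × I} (hp : p ∈ pbd n) :
    eF 0 (rt (yy μ p)) ∈ pbd n := by
  rcases rt_yy μ p with h | h
  · exact eF_mem_pbd 0 h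
  rcases hp with ⟨k, hk⟩ | hp | hp
  · refine eF_mem_pbd_of_le (Fin.succ_ne_zero k) ?_
    rw [h, h, yy_succ, hk, mul_zero, add_zero, add_le_iff_nonpos_right]
    exact div_nonpos_of_nonpos_of_nonneg (by linarith) (by positivity)
  · refine Or.inr (Or.inl (cl_of_le ?_))
    rw [h, yy_zero, hp, mul_div_cancel₀ _ (by positivity)]
    simp only [Set.Icc.coe_zero]
    linarith
  · refine eF_mem_pbd 0 ⟨0, le_antisymm ?_ ((rt _).2.1 0)⟩
    rw [h, yy_zero, hp]
    simp only [Set.Icc.coe_one]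
    exact div_nonpos_of_nonpos_of_nonneg (by linarith) (by positivity)

theorem yy_bd {p : Dl n × I} (hp : p ∈ pbd n) : rt (yy (4 * n + 9) p) ∈ bdry (n + 1) := by
  refine (rt_yy _ p).elim id fun h => ?_
  have h0 : ∀ i, 0 ≤ yy (4 * n + 9) p i := fun i => h i ▸ (rt _).2.1 i
  have h1 : yy (4 * n + 9) p 0 ≤ 1 := h 0 ▸ stdSimplex.le_one _ _
  have hn : (0 : ℝ) ≤ n := by positivity
  exfalso
  rcases hp with ⟨k, hk⟩ | hp | hp
  · have := h0 k.succ
    have e : (1 - (4 * (n : ℝ) + 9)) * 3 / (4 * (n + 1)) < -1 := by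
      rw [div_lt_iff₀ (by positivity)]
      linarith
    rw [yy_succ, hk] at this
    linarith
  · rw [yy_zero, hp, div_le_one (by positivity)] at h1
    simp only [Set.Icc.coe_zero] at h1
    linarith
  · have := h0 0
    rw [yy_zero, hp, le_div_iff₀ (by positivity)] at this
    simp only [Set.Icc.coe_one] at this
    linarith

theorem lam_one_zero (z : Fin 1 → I) {c : ℝ} (hc : c = 1 ∨ c = -1) (h : (z 0 : ℝ) = (1 + c) / 2) :
    lam 1 z 0 = (1 - c) / 2 := by
  have g : gauge (Fin.cons 0 fun k => 4 * ((z k : ℝ) - 1 / 2) : Fin 2 → ℝ) = 2 := by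
    rcases hc with rfl | rfl
    · rw [gauge, mn_eq (i := 0) fun k => by fin_cases k <;> norm_num [h]]
      simp [h]
      norm_num
    · rw [gauge, mn_eq (i := 1) fun k => by fin_cases k <;> simp [h]]
      simp [h]
      norm_num
  rw [lam, rt_apply, g, max_eq_right one_le_two]
  simp [h]
  ring

end G3

open G3

/-- A map of pairs from the prism to the simplex which is a section of `eF 0` up to homotopy. -/
theorem exists_section (n : ℕ) : ∃ ω : Dl n × I → Dl (n + 1), Continuous ω ∧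
    (∀ p ∈ pbd n, ω p ∈ bdry (n + 1)) ∧ ∃ H : I → Dl n × I → Dl n × I,
      Continuous (fun p : I × (Dl n × I) => H p.1 p.2) ∧ (∀ p, H 0 p = eF 0 (ω p)) ∧
        (∀ p, H 1 p = p) ∧ ∀ s, ∀ p ∈ pbd n, H s p ∈ pbd n := by
  refine ⟨fun p => rt (yy (4 * n + 9) p),
    continuous_rt.comp (continuous_yy.comp (continuous_const.prodMk continuous_id)),
    fun p => yy_bd, fun s p => eF 0 (rt (yy ((1 - s) * (4 * n + 9) + s) p)),
    (continuous_eF 0).comp (continuous_rt.comp (continuous_yy.comp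
      (Continuous.prodMk (by fun_prop) continuous_snd))), fun p => by simp,
    fun p => by simpa using eF_yy_one p, fun s p => eF_yy ?_⟩
  have hn : (0 : ℝ) ≤ n := by positivity
  nlinarith [mul_nonneg (sub_nonneg.2 s.2.2) hn, s.2.2]

theorem exists_eps (n : ℕ) : ∃ ε : (Fin (n + 1) → I) → (Fin (n + 1) → I), Continuous ε ∧
    (∀ z, z ∈ Cube.boundary (Fin (n + 1)) → ε z ∈ Cube.boundary (Fin (n + 1))) ∧
    ∃ H : I → (Fin (n + 1) → I) → Dl n × I,
      Continuous (fun p : I × (Fin (n + 1) → I) => H p.1 p.2) ∧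
      (∀ z, H 0 z = eF 0 (lam (n + 1) (ε z))) ∧
      (∀ z, H 1 z = (lam n (Fin.init z), z (Fin.last n))) ∧
      ∀ s z, z ∈ Cube.boundary (Fin (n + 1)) → H s z ∈ pbd n := by
  obtain ⟨ω, hω, hb, K, hK, K0, K1, Kb⟩ := exists_section n
  obtain ⟨G, hG, G0, G1, Gb⟩ := lam_kap_homotopy (n + 1)
  let P : (Fin (n + 1) → I) → Dl n × I := fun z => (lam n (Fin.init z), z (Fin.last n))
  have hP : Continuous P := (continuous_lam.comp (continuous_pi fun i =>
    continuous_apply (Fin.castSucc i))).prodMk (continuous_apply _)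
  have Pb : ∀ z ∈ Cube.boundary (Fin (n + 1)), P z ∈ pbd n := by
    rintro z ⟨i, hi⟩
    induction i using Fin.lastCases with
    | last => exact Or.inr hi
    | cast i => exact Or.inl (lam_bd _ ⟨i, hi⟩)
  refine ⟨fun z => kap (n + 1) (ω (P z)), continuous_kap.comp (hω.comp hP),
    fun z hz => kap_bd _ (hb _ (Pb z hz)), fun s z => if (s : ℝ) ≤ 1 / 2 then
      eF 0 (G (cl (2 * s)) (ω (P z))) else K (cl (2 * s - 1)) (P z), ?_, fun z => ?_, fun z => ?_,
    fun s z hz => ?_⟩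
  · refine Continuous.if_le ((continuous_eF 0).comp (hG.comp (Continuous.prodMk (by fun_prop)
      (hω.comp (hP.comp continuous_snd))))) (hK.comp (Continuous.prodMk (by fun_prop)
      (hP.comp continuous_snd))) (by fun_prop) continuous_const fun p hp => ?_
    rw [cl_of_ge (by linarith), cl_of_le (by linarith), G1, K0]
  · simp only [Set.Icc.coe_zero]
    rw [if_pos (by norm_num), cl_of_le (by norm_num), G0]
  · simp only [Set.Icc.coe_one]
    rw [if_neg (by norm_num), cl_of_ge (by norm_num), K1]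
  · dsimp only
    split_ifs
    · exact eF_mem_pbd 0 (Gb _ _ (hb _ (Pb z hz)))
    · exact Kb _ _ (Pb z hz)

/-- In the lowest dimension no correction is needed. -/
theorem eF_lam_zero : ∃ H : I → (Fin 1 → I) → Dl 0 × I,
    Continuous (fun p : I × (Fin 1 → I) => H p.1 p.2) ∧
      (∀ z, H 0 z = eF 0 (lam 1 z)) ∧
      (∀ z, H 1 z = (lam 0 (Fin.init z), z (Fin.last 0))) ∧
      ∀ s z, z ∈ Cube.boundary (Fin 1) → H s z ∈ pbd 0 := by
  have hc : Continuous fun p : I × (Fin 1 → I) => eF 0 (lam 1 p.2) :=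
    (continuous_eF 0).comp (continuous_lam.comp continuous_snd)
  have h2 := continuous_subtype_val.comp hc.snd
  refine ⟨fun s z => ((eF 0 (lam 1 z)).1, cl ((1 - s) * (eF 0 (lam 1 z)).2 + s * z 0)),
    hc.fst.prodMk (continuous_cl.comp ((Continuous.mul (by fun_prop) h2).add (by fun_prop))),
    fun z => by simp, fun z => Prod.ext (Subsingleton.elim _ _) (by simp), ?_⟩
  rintro s z ⟨i, hi⟩
  obtain rfl : i = 0 := Subsingleton.elim _ _
  rcases hi with h | h
  · have e : (eF 0 (lam 1 z)).2 = 0 := cl_of_le (by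
      rw [lam_one_zero z (Or.inr rfl) (by simp [h])]; norm_num)
    exact Or.inr (Or.inl (cl_of_le (by simp [e, h])))
  · have e : (eF 0 (lam 1 z)).2 = 1 := cl_of_ge (by
      rw [lam_one_zero z (Or.inl rfl) (by simp [h])]; norm_num)
    exact Or.inr (Or.inr (cl_of_ge (by simp [e, h])))

end Pool.Agent.Lib.E2.Geo
end
end
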