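import Pool.Agent.Lib.MP_10be03_gt.HBase

-- part Pool.Agent.Lib.MP_10be03_gt.HMap
section

/-! Parametrised maps of spectra, precomposition with cube maps, the square lemma. -/

noncomputable section
open scoped unitInterval Topology

namespace Pool.Agent.Lib.E2

section cb
variable {a k j : ℕ}

/-- The old coordinates. -/
def cbL (t : Cb (a + k) j → I) : Cb a j → I := fun i => t (Sum.map (Fin.castAdd k) id i)

/-- The new coordinates. -/
def cbR (t : Cb (a + k) j → I) : Fin k → I := fun i => t (Sum.inl (Fin.natAdd a i))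

/-- Join old and new coordinates. -/
def cbJ (y : Cb a j → I) (z : Fin k → I) : Cb (a + k) j → I :=
  Sum.elim (Fin.addCases (fun i => y (Sum.inl i)) z) fun i => y (Sum.inr i)

@[simp] theorem cbL_cbJ (y : Cb a j → I) (z : Fin k → I) : cbL (cbJ y z) = y := by
  funext i; rcases i with i | i <;> simp [cbL, cbJ]

@[simp] theorem cbR_cbJ (y : Cb a j → I) (z : Fin k → I) : cbR (cbJ y z) = z := by
  funext i; simp [cbR, cbJ]

@[simp] theorem cbJ_cbL_cbR (t : Cb (a + k) j → I) : cbJ (cbL t) (cbR t) = t := by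
  funext i
  rcases i with i | i
  · induction i using Fin.addCases <;> simp [cbL, cbR, cbJ]
  · simp [cbL, cbJ]

@[fun_prop] theorem continuous_cbL : Continuous (cbL (a := a) (k := k) (j := j)) :=
  continuous_pi fun _ => continuous_apply _

@[fun_prop] theorem continuous_cbR : Continuous (cbR (a := a) (k := k) (j := j)) :=
  continuous_pi fun _ => continuous_apply _

theorem continuous_cbJ {P : Type*} [TopologicalSpace P] {y : P → Cb a j → I} {z : P → Fin k → I}
    (hy : Continuous y) (hz : Continuous z) : Continuous fun p => cbJ (y p) (z p) := by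
  refine continuous_pi fun i => ?_
  rcases i with i | i
  · induction i using Fin.addCases with
    | left i => simpa [cbJ, Function.comp_def] using (continuous_apply (Sum.inl i)).comp hy
    | right i => simpa [cbJ, Function.comp_def] using (continuous_apply i).comp hz
  · simpa [cbJ, Function.comp_def] using (continuous_apply (Sum.inr i)).comp hy

theorem mem_bd_iff (t : Cb (a + k) j → I) : t ∈ Cube.boundary (Cb (a + k) j) ↔
    cbL t ∈ Cube.boundary (Cb a j) ∨ cbR t ∈ Cube.boundary (Fin k) := by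
  constructor
  · rintro ⟨i, hi⟩
    rcases i with i | i
    · induction i using Fin.addCases with
      | left i => exact Or.inl ⟨Sum.inl i, hi⟩
      | right i => exact Or.inr ⟨i, hi⟩
    · exact Or.inl ⟨Sum.inr i, hi⟩
  · rintro (⟨i, hi⟩ | ⟨i, hi⟩)
    · exact ⟨_, hi⟩
    · exact ⟨_, hi⟩

theorem cbJ_mem_bd_left {y : Cb a j → I} (z : Fin k → I) (h : y ∈ Cube.boundary (Cb a j)) :
    cbJ y z ∈ Cube.boundary (Cb (a + k) j) := (mem_bd_iff _).2 (Or.inl (by simpa using h))

theorem cbJ_mem_bd_right (y : Cb a j → I) {z : Fin k → I} (h : z ∈ Cube.boundary (Fin k)) :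
    cbJ y z ∈ Cube.boundary (Cb (a + k) j) := (mem_bd_iff _).2 (Or.inr (by simpa using h))

theorem cbL_update_inr (t : Cb (a + k) j → I) (i : Fin (j + 2)) (s : I) :
    cbL (Function.update t (Sum.inr i) s) = Function.update (cbL t) (Sum.inr i) s := by
  funext l
  rcases l with l | l
  · simp [cbL]
  · by_cases h : l = i
    · subst h; simp [cbL]
    · simp [cbL, h]

theorem cbR_update_inr (t : Cb (a + k) j → I) (i : Fin (j + 2)) (s : I) :
    cbR (Function.update t (Sum.inr i) s) = cbR t := by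
  funext l; simp [cbR]

theorem cbL_update_new (t : Cb (a + k) j → I) (i : Fin k) (s : I) :
    cbL (Function.update t (Sum.inl (Fin.natAdd a i)) s) = cbL t := by
  funext l
  refine Function.update_of_ne ?_ _ _
  rcases l with l | l
  · have := l.2
    simp [Fin.ext_iff]; omega
  · simp

theorem cbR_update_new (t : Cb (a + k) j → I) (i : Fin k) (s : I) :
    cbR (Function.update t (Sum.inl (Fin.natAdd a i)) s) = Function.update (cbR t) i s := by
  funext l
  by_cases h : l = i
  · subst h; simp [cbR]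
  · simp [cbR, h]

theorem cbL_cbInit (t : Cb (a + k) (j + 1) → I) : cbL (cbInit t) = cbInit (cbL t) := by
  funext i; rcases i with i | i <;> rfl

theorem cbR_cbInit (t : Cb (a + k) (j + 1) → I) : cbR (cbInit t) = cbR t := rfl

theorem cbInit_cbJ (y : Cb a (j + 1) → I) (z : Fin k → I) : cbInit (cbJ y z) = cbJ (cbInit y) z := by
  funext i; rcases i with i | i <;> rfl

theorem cbJ_update_inr (y : Cb a j → I) (z : Fin k → I) (i : Fin (j + 2)) (s : I) :
    cbJ (Function.update y (Sum.inr i) s) z = Function.update (cbJ y z) (Sum.inr i) s := by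
  conv_rhs => rw [← cbJ_cbL_cbR (Function.update (cbJ y z) (Sum.inr i) s)]
  rw [cbL_update_inr, cbR_update_inr, cbL_cbJ, cbR_cbJ]

end cb

namespace SSp
variable {Y : SSp} {a k b j : ℕ}

/-- A representative in degree `a + k` from a function of old and new coordinates. -/
def mkJ (F : (Cb a j → I) → (Fin k → I) → Y.X (b + j))
    (hF : Continuous fun p : (Cb a j → I) × (Fin k → I) => F p.1 p.2)
    (hl : ∀ y z, y ∈ Cube.boundary (Cb a j) → F y z = Y.pt (b + j))
    (hr : ∀ y z, z ∈ Cube.boundary (Fin k) → F y z = Y.pt (b + j)) : Y.L (a + k) b j :=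
  HC.mkL (fun t => F (cbL t) (cbR t)) (hF.comp (continuous_cbL.prodMk continuous_cbR))
    fun t ht => ((mem_bd_iff t).1 ht).elim (hl _ _) (hr _ _)

@[simp] theorem mkJ_apply (F : (Cb a j → I) → (Fin k → I) → Y.X (b + j)) (hF) (hl) (hr)
    (t : Cb (a + k) j → I) : mkJ F hF hl hr t = F (cbL t) (cbR t) := rfl

/-- Homotopies written in old and new coordinates. -/
theorem cls_ofJ {f g : Y.L (a + k) b j} (H : I → (Cb a j → I) → (Fin k → I) → Y.X (b + j))
    (hH : Continuous fun p : I × (Cb a j → I) × (Fin k → I) => H p.1 p.2.1 p.2.2)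
    (h0 : ∀ t, H 0 (cbL t) (cbR t) = f t) (h1 : ∀ t, H 1 (cbL t) (cbR t) = g t)
    (hl : ∀ s y z, y ∈ Cube.boundary (Cb a j) → H s y z = Y.pt (b + j))
    (hr : ∀ s y z, z ∈ Cube.boundary (Fin k) → H s y z = Y.pt (b + j)) :
    Y.cls (a + k) b j f = Y.cls (a + k) b j g :=
  cls_of (fun p => H p.1 (cbL p.2) (cbR p.2))
    (hH.comp (continuous_fst.prodMk ((continuous_cbL.comp continuous_snd).prodMk
      (continuous_cbR.comp continuous_snd)))) h0 h1
    fun _ t ht => ((mem_bd_iff t).1 ht).elim (hl _ _ _) (hr _ _ _)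

theorem mem_bd_one {z : Fin 1 → I} (h : z ∈ Cube.boundary (Fin 1)) : z 0 = 0 ∨ z 0 = 1 := by
  obtain ⟨i, hi⟩ := h
  rwa [Subsingleton.elim i 0] at hi

/-- The square lemma: the left edge of a square is the reversed top edge when the bottom and
right edges are constant. -/
theorem cls_square {f g : Y.L (a + 1) b j} (F : (Cb a j → I) → I → I → Y.X (b + j))
    (hF : Continuous fun p : (Cb a j → I) × I × I => F p.1 p.2.1 p.2.2)
    (hl : ∀ y s u, y ∈ Cube.boundary (Cb a j) → F y s u = Y.pt (b + j))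
    (h0 : ∀ y s, F y s 0 = Y.pt (b + j)) (h1 : ∀ y u, F y 1 u = Y.pt (b + j))
    (h01 : ∀ y, F y 0 1 = Y.pt (b + j)) (hf : ∀ t, f t = F (cbL t) 0 (cbR t 0))
    (hg : ∀ t, g t = F (cbL t) (σ (cbR t 0)) 1) : Y.cls (a + 1) b j f = Y.cls (a + 1) b j g := by
  let m : Y.L (a + 1) b j := mkJ (fun y z => F y (σ (z 0)) (z 0))
    (hF.comp (continuous_fst.prodMk (Continuous.prodMk (by fun_prop) (by fun_prop))))
    (fun y z hy => hl _ _ _ hy) (fun y z hz => by
      rcases mem_bd_one hz with h | h <;> rw [h]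
      · exact h0 _ _
      · rw [unitInterval.symm_one]; exact h01 _)
  have e1 : Y.cls (a + 1) b j f = Y.cls (a + 1) b j m := by
    refine cls_ofJ (fun s y z => F y (s * σ (z 0)) (z 0))
      (hF.comp (Continuous.prodMk (by fun_prop) (Continuous.prodMk (by fun_prop) (by fun_prop))))
      (fun t => by rw [hf, zero_mul]) (fun t => by rw [one_mul]; rfl)
      (fun s y z hy => hl _ _ _ hy) fun s y z hz => ?_
    rcases mem_bd_one hz with h | h <;> rw [h]
    · exact h0 _ _
    · rw [unitInterval.symm_one, mul_zero]; exact h01 _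
  have e2 : Y.cls (a + 1) b j g = Y.cls (a + 1) b j m := by
    refine cls_ofJ (fun s y z => F y (σ (z 0)) (σ (s * σ (z 0))))
      (hF.comp (Continuous.prodMk (by fun_prop) (Continuous.prodMk (by fun_prop) (by fun_prop))))
      (fun t => by rw [hg, zero_mul, unitInterval.symm_zero])
      (fun t => by rw [one_mul, unitInterval.symm_symm]; rfl)
      (fun s y z hy => hl _ _ _ hy) fun s y z hz => ?_
    rcases mem_bd_one hz with h | h <;> rw [h]
    · rw [unitInterval.symm_zero]; exact h1 _ _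
    · rw [unitInterval.symm_one, mul_zero, unitInterval.symm_zero]; exact h01 _
  rw [e1, e2]

end SSp

/-- A family of maps of spectra parametrised by a cube, trivial on the boundary of the cube. -/
structure CMap (k : ℕ) (X Y : SSp) where
  f : ∀ n, X.X n → (Fin k → I) → Y.X n
  cont : ∀ n, Continuous fun p : X.X n × (Fin k → I) => f n p.1 p.2
  f_pt : ∀ n z, f n (X.pt n) z = Y.pt n
  f_bd : ∀ n x z, z ∈ Cube.boundary (Fin k) → f n x z = Y.pt n
  f_sg : ∀ n x u z, f (n + 1) (X.sg n x u) z = Y.sg n (f n x z) u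

namespace CMap
variable {k : ℕ} {X Y Z : SSp} (Φ : CMap k X Y) {a b j : ℕ}

/-- The induced operation on representatives. -/
def loop (f : X.L a b j) : Y.L (a + k) b j :=
  SSp.mkJ (fun y z => Φ.f _ (f y) z)
    ((Φ.cont _).comp (((HC.cont f).comp continuous_fst).prodMk continuous_snd))
    (fun y z hy => by rw [GenLoop.boundary f y hy, Φ.f_pt]) fun y z hz => Φ.f_bd _ _ _ hz

@[simp] theorem loop_apply (f : X.L a b j) (t : Cb (a + k) j → I) :
    Φ.loop f t = Φ.f _ (f (cbL t)) (cbR t) := rfl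

theorem loop_sl (f : X.L a b j) : Φ.loop (SSp.sl f) = SSp.sl (Φ.loop f) :=
  GenLoop.ext _ _ fun t => by
    rw [loop_apply, SSp.sl_apply, SSp.sl_apply, loop_apply, cbL_cbInit, cbR_cbInit]
    exact Φ.f_sg _ _ _ _

/-- The induced homomorphism raising the degree by `k`. -/
def pi (a b : ℕ) : X.Pi a b →+ Y.Pi (a + k) b :=
  SSp.piLift (fun j f => Y.cls (a + k) b j (Φ.loop f))
    (fun j f g h => by
      obtain ⟨H, hH, h0, h1, hb⟩ := HC.exists_of_homotopic h
      exact SSp.cls_ofJ (fun s y z => Φ.f _ (H (s, y)) z)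
        ((Φ.cont _).comp ((hH.comp (continuous_fst.prodMk continuous_snd.fst)).prodMk
          continuous_snd.snd)) (fun t => by rw [h0]; rfl) (fun t => by rw [h1]; rfl)
        (fun s y z hy => by rw [hb s y hy, Φ.f_pt]) fun s y z hz => Φ.f_bd _ _ _ hz)
    (fun j f g => by
      rw [← SSp.cls_transAt (Sum.inr 0)]
      refine SSp.cls_congr fun t => ?_
      simp only [loop_apply, HC.transAt_apply, cbL_update_inr, cbR_update_inr]
      change Φ.f _ (if (t (Sum.inr 0) : ℝ) ≤ 1 / 2 then _ else _) _ = _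
      split_ifs <;> rfl)
    (fun j f => by rw [loop_sl, SSp.cls_susp])

theorem pi_cls (f : X.L a b j) : Φ.pi a b (X.cls a b j f) = Y.cls (a + k) b j (Φ.loop f) :=
  SSp.piLift_cls _ _ _ _ _ _

/-- Levelwise homotopic families induce the same homomorphism. -/
theorem pi_homotopy {Φ Ψ : CMap k X Y} (H : ∀ n, I → X.X n → (Fin k → I) → Y.X n)
    (hH : ∀ n, Continuous fun p : I × X.X n × (Fin k → I) => H n p.1 p.2.1 p.2.2)
    (h0 : ∀ n x z, H n 0 x z = Φ.f n x z) (h1 : ∀ n x z, H n 1 x z = Ψ.f n x z)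
    (hp : ∀ n s z, H n s (X.pt n) z = Y.pt n)
    (hb : ∀ n s x z, z ∈ Cube.boundary (Fin k) → H n s x z = Y.pt n) (a b : ℕ) :
    Φ.pi a b = Ψ.pi a b :=
  SSp.pi_hom_ext fun j f => by
    rw [pi_cls, pi_cls]
    exact SSp.cls_ofJ (fun s y z => H _ s (f y) z)
      ((hH _).comp (continuous_fst.prodMk (((HC.cont f).comp continuous_snd.fst).prodMk
        continuous_snd.snd))) (fun t => h0 _ _ _) (fun t => h1 _ _ _)
      (fun s y z hy => by rw [GenLoop.boundary f y hy, hp]) fun s y z hz => hb _ _ _ _ hz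

theorem pi_congr {Φ Ψ : CMap k X Y} (h : ∀ n x z, Φ.f n x z = Ψ.f n x z) (a b : ℕ) :
    Φ.pi a b = Ψ.pi a b :=
  SSp.pi_hom_ext fun j f => by
    rw [pi_cls, pi_cls]
    exact SSp.cls_congr fun t => h _ _ _

/-- Commuting squares of families and maps. -/
theorem pi_square {X' Y' : SSp} (Φ : CMap k X Y) (Ψ : CMap k X' Y') (φ : SMap X X')
    (ψ : SMap Y Y') (h : ∀ n x z, ψ.f n (Φ.f n x z) = Ψ.f n (φ.f n x) z) (x : X.Pi a b) :
    ψ.pi (a + k) b (Φ.pi a b x) = Ψ.pi a b (φ.pi a b x) := by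
  obtain ⟨j, f, rfl⟩ := SSp.cls_surj x
  rw [pi_cls, SMap.pi_cls, SMap.pi_cls, pi_cls]
  exact SSp.cls_congr fun t => h _ _ _

theorem pi_post (Φ : CMap k X Y) (Ψ : CMap k X Z) (ψ : SMap Y Z)
    (h : ∀ n x z, ψ.f n (Φ.f n x z) = Ψ.f n x z) (x : X.Pi a b) :
    ψ.pi (a + k) b (Φ.pi a b x) = Ψ.pi a b x := by
  rw [pi_square Φ Ψ (SMap.id X) ψ h, SMap.pi_id]

theorem pi_pre (Φ : CMap k X Z) (Ψ : CMap k Y Z) (φ : SMap X Y)
    (h : ∀ n x z, Φ.f n x z = Ψ.f n (φ.f n x) z) (x : X.Pi a b) :
    Φ.pi a b x = Ψ.pi a b (φ.pi a b x) := by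
  rw [← pi_square Φ Ψ φ (SMap.id Z) h, SMap.pi_id]

/-- A family followed by a one parameter family. -/
theorem pi_snoc (Φ : CMap k X Y) (Ψ : CMap 1 Y Z) (Θ : CMap (k + 1) X Z)
    (h : ∀ n x z, Θ.f n x z = Ψ.f n (Φ.f n x (Fin.init z)) fun _ => z (Fin.last k))
    (x : X.Pi a b) : Θ.pi a b x = Ψ.pi (a + k) b (Φ.pi a b x) := by
  obtain ⟨j, f, rfl⟩ := SSp.cls_surj x
  rw [pi_cls, pi_cls, pi_cls]
  refine SSp.cls_congr fun t => ?_
  rw [loop_apply, h]
  change _ = Ψ.f _ (Φ.f _ (f (cbL (cbL (a := a + k) (k := 1) t)))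
    (cbR (cbL (a := a + k) (k := 1) t))) (cbR (a := a + k) (k := 1) t)
  congr 1
  · congr 2
    funext i; rcases i with i | i <;> rfl
  · funext i
    rw [Subsingleton.elim i 0]
    rfl

/-- A family with no parameter is a map. -/
theorem pi_zero (Φ : CMap 0 X Y) (φ : SMap X Y) (h : ∀ n x z, Φ.f n x z = φ.f n x)
    (x : X.Pi a b) : Φ.pi a b x = φ.pi a b x := by
  obtain ⟨j, f, rfl⟩ := SSp.cls_surj x
  rw [pi_cls, SMap.pi_cls]
  refine SSp.cls_congr fun t => ?_
  rw [loop_apply, h, SMap.loop_apply]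
  congr 2
  funext i; rcases i with i | i <;> rfl

/-- Reflecting one parameter changes the sign. -/
theorem pi_refl (Φ Ψ : CMap k X Y) (p : Fin k)
    (h : ∀ n x z, Ψ.f n x z = Φ.f n x (Function.update z p (σ (z p)))) (x : X.Pi a b) :
    Ψ.pi a b x = -Φ.pi a b x := by
  obtain ⟨j, f, rfl⟩ := SSp.cls_surj x
  rw [pi_cls, pi_cls]
  refine SSp.cls_inv (HC.cls_refl (Sum.inl (Fin.natAdd a p)) fun t => ?_)
  rw [loop_apply, loop_apply, h, cbL_update_new, cbR_update_new]
  rfl

/-- Exchanging two parameters changes the sign. -/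
theorem pi_swap (Φ Ψ : CMap k X Y) {p q : Fin k} (hpq : p ≠ q)
    (h : ∀ n x z, Ψ.f n x z = Φ.f n x (Function.update (Function.update z p (z q)) q (z p)))
    (x : X.Pi a b) : Ψ.pi a b x = -Φ.pi a b x := by
  obtain ⟨j, f, rfl⟩ := SSp.cls_surj x
  rw [pi_cls, pi_cls]
  refine SSp.cls_inv (HC.cls_swap (p := Sum.inl (Fin.natAdd a p)) (q := Sum.inl (Fin.natAdd a q))
    (by simpa using hpq) fun t => ?_)
  rw [loop_apply, loop_apply, h, cbL_update_new, cbR_update_new, cbL_update_new, cbR_update_new]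
  rfl

/-- Families with complementary supports in the parameter cube add. -/
theorem pi_sum {K : Type*} [Fintype K] (Φ : CMap k X Y) (Ψ : K → CMap k X Y)
    (A : K → Set (Fin k → I)) (hA : ∀ i, IsClosed (A i)) (hc : ∀ z, ∃ i, z ∈ A i)
    (h1 : ∀ i n x, ∀ z ∈ A i, Φ.f n x z = (Ψ i).f n x z)
    (h2 : ∀ i l, i ≠ l → ∀ n x, ∀ z ∈ A l, (Ψ i).f n x z = Y.pt n) (x : X.Pi a b) :
    Φ.pi a b x = ∑ i, (Ψ i).pi a b x := by
  obtain ⟨j, f, rfl⟩ := SSp.cls_surj x
  simp only [pi_cls]
  exact SSp.cls_split_sum (fun i => cbR ⁻¹' A i) (fun i => (hA i).preimage continuous_cbR)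
    (fun t => hc (cbR t)) _ (fun i l hil t ht => h2 i l hil _ _ _ ht) _
    fun i t ht => h1 i _ _ _ ht

end CMap

/-- A self map of the pair (cube, boundary). -/
structure CubeMap (k : ℕ) where
  e : (Fin k → I) → (Fin k → I)
  cont : Continuous e
  bd : ∀ z, z ∈ Cube.boundary (Fin k) → e z ∈ Cube.boundary (Fin k)

namespace CubeMap
variable {k : ℕ} (E : CubeMap k) {X Y : SSp} {a b j : ℕ}

/-- Precomposition of a representative in the new coordinates. -/
def loop (f : X.L (a + k) b j) : X.L (a + k) b j :=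
  SSp.mkJ (fun y z => f (cbJ y (E.e z)))
    ((HC.cont f).comp (continuous_cbJ continuous_fst (E.cont.comp continuous_snd)))
    (fun _ _ hy => GenLoop.boundary f _ (cbJ_mem_bd_left _ hy))
    fun _ z hz => GenLoop.boundary f _ (cbJ_mem_bd_right _ (E.bd z hz))

@[simp] theorem loop_apply (f : X.L (a + k) b j) (t : Cb (a + k) j → I) :
    E.loop f t = f (cbJ (cbL t) (E.e (cbR t))) := rfl

/-- Precomposition as an endomorphism of the stable group. -/
def pi (X : SSp) (a b : ℕ) : X.Pi (a + k) b →+ X.Pi (a + k) b :=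
  SSp.piLift (fun j f => X.cls (a + k) b j (E.loop f))
    (fun j f g h => by
      obtain ⟨H, hH, h0, h1, hb⟩ := HC.exists_of_homotopic h
      exact SSp.cls_ofJ (fun s y z => H (s, cbJ y (E.e z)))
        (hH.comp (continuous_fst.prodMk (continuous_cbJ continuous_snd.fst
          (E.cont.comp continuous_snd.snd)))) (fun t => h0 _) (fun t => h1 _)
        (fun s y z hy => hb s _ (cbJ_mem_bd_left _ hy))
        fun s y z hz => hb s _ (cbJ_mem_bd_right _ (E.bd z hz)))
    (fun j f g => by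
      rw [← SSp.cls_transAt (Sum.inr 0)]
      refine SSp.cls_congr fun t => ?_
      simp only [loop_apply, HC.transAt_apply, cbL_update_inr, cbR_update_inr, cbJ_update_inr]
      rfl)
    (fun j f => by
      rw [← SSp.cls_susp (E.loop f)]
      refine SSp.cls_congr fun t => ?_
      rw [loop_apply, SSp.sl_apply, SSp.sl_apply, loop_apply, cbInit_cbJ, cbL_cbInit, cbR_cbInit]
      rfl)

theorem pi_cls (f : X.L (a + k) b j) :
    E.pi X a b (X.cls (a + k) b j f) = X.cls (a + k) b j (E.loop f) :=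
  SSp.piLift_cls _ _ _ _ _ _

theorem pi_natural (φ : SMap X Y) (x : X.Pi (a + k) b) :
    φ.pi (a + k) b (E.pi X a b x) = E.pi Y a b (φ.pi (a + k) b x) := by
  obtain ⟨j, f, rfl⟩ := SSp.cls_surj x
  rw [pi_cls, SMap.pi_cls, SMap.pi_cls, pi_cls]
  exact SSp.cls_congr fun t => rfl

theorem pi_cmap (Φ Ψ : CMap k X Y) (h : ∀ n x z, Ψ.f n x z = Φ.f n x (E.e z)) (x : X.Pi a b) :
    E.pi Y a b (Φ.pi a b x) = Ψ.pi a b x := by
  obtain ⟨j, f, rfl⟩ := SSp.cls_surj x
  rw [CMap.pi_cls, CMap.pi_cls, pi_cls]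
  refine SSp.cls_congr fun t => ?_
  rw [loop_apply, CMap.loop_apply, CMap.loop_apply, h, cbL_cbJ, cbR_cbJ]

end CubeMap

/-- Lifting a representative through a levelwise embedding. -/
theorem SMap.exists_lift {X Y : SSp} (φ : SMap X Y) (hφ : ∀ n, Topology.IsEmbedding (φ.f n))
    {a b j : ℕ} (g : Y.L a b j) (hg : ∀ t, g t ∈ Set.range (φ.f (b + j))) :
    Y.cls a b j g ∈ Set.range (φ.pi a b) := by
  choose f hf using hg
  have hc : Continuous f := (hφ _).continuous_iff.2 ((HC.cont g).congr fun t => (hf t).symm)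
  refine ⟨X.cls a b j (HC.mkL f hc fun t ht => (hφ _).injective ?_), ?_⟩
  · rw [hf, GenLoop.boundary g t ht, φ.f_pt]
  · rw [SMap.pi_cls]
    exact SSp.cls_congr fun t => hf t

end Pool.Agent.Lib.E2
end
end

-- part Pool.Agent.Lib.MP_10be03_gt.HCol
section

/-! Collapsing a subset to a base point, spectra of pairs, smash products with compact pairs. -/

noncomputable section
open scoped unitInterval Topology

namespace Pool.Agent.Lib.E2

/-- The space `T` with a base point added and the subset `S` collapsed to it. -/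
def Col (T : Type) (S : Set T) : Type :=
  Quot fun p q : T ⊕ Unit => ∃ s ∈ S, p = Sum.inl s ∧ q = Sum.inr ()

namespace Col
variable {T : Type} {S : Set T}

instance instTop [TopologicalSpace T] : TopologicalSpace (Col T S) :=
  inferInstanceAs (TopologicalSpace (Quot _))

/-- The class of a point. -/
def mk (S : Set T) (t : T) : Col T S := Quot.mk _ (Sum.inl t)

/-- The base point. -/
def pt (S : Set T) : Col T S := Quot.mk _ (Sum.inr ())

theorem mk_of_mem {t : T} (h : t ∈ S) : mk S t = pt S := Quot.sound ⟨t, h, rfl, rfl⟩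

theorem continuous_mk [TopologicalSpace T] : Continuous (mk S) :=
  continuous_quot_mk.comp continuous_inl

@[elab_as_elim]
theorem ind {p : Col T S → Prop} (h1 : ∀ t, p (mk S t)) (h2 : p (pt S)) (x : Col T S) : p x := by
  obtain ⟨t | t⟩ := x
  · exact h1 t
  · exact h2

/-- Maps out of the collapse. -/
def lift {Z : Sort*} (f : T → Z) (z : Z) (h : ∀ s ∈ S, f s = z) : Col T S → Z :=
  Quot.lift (fun p => match p with | Sum.inl t => f t | Sum.inr _ => z) (by
    rintro _ _ ⟨s, hs, rfl, rfl⟩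
    exact h s hs)

@[simp] theorem lift_mk {Z : Sort*} (f : T → Z) (z : Z) (h : ∀ s ∈ S, f s = z) (t : T) :
    lift f z h (mk S t) = f t := rfl

@[simp] theorem lift_pt {Z : Sort*} (f : T → Z) (z : Z) (h : ∀ s ∈ S, f s = z) :
    lift f z h (pt S) = z := rfl

theorem mk_eq_pt_iff {t : T} : mk S t = pt S ↔ t ∈ S :=
  ⟨fun h => by
    have := congrArg (lift (S := S) (fun t => t ∈ S) True fun s hs => eq_true hs) h
    simpa using this, mk_of_mem⟩

theorem mk_eq_mk_iff {t t' : T} : mk S t = mk S t' ↔ t = t' ∨ (t ∈ S ∧ t' ∈ S) := by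
  constructor
  · intro h
    by_cases ht : t ∈ S
    · exact Or.inr ⟨ht, mk_eq_pt_iff.1 (h.symm.trans (mk_of_mem ht))⟩
    · have := congrArg (lift (S := S) (fun u => u = t) False fun s hs =>
        eq_false fun e => ht (e ▸ hs)) h
      simp only [lift_mk, eq_iff_iff, true_iff] at this
      exact Or.inl this.symm
  · rintro (rfl | ⟨h, h'⟩)
    · rfl
    · rw [mk_of_mem h, mk_of_mem h']

variable [TopologicalSpace T]

theorem continuous_param {P Z : Type*} [TopologicalSpace P] [LocallyCompactSpace P]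
    [TopologicalSpace Z] {g : Col T S × P → Z} (h1 : Continuous fun p : T × P => g (mk S p.1, p.2))
    (h2 : Continuous fun p : P => g (pt S, p)) : Continuous g := by
  refine (isQuotientMap_quot_mk).continuous_lift_prod_left ?_
  have h : Continuous (Sum.elim (fun p : T × P => g (mk S p.1, p.2))
      fun p : Unit × P => g (pt S, p.2)) := h1.sumElim (h2.comp continuous_snd)
  refine (h.comp (Homeomorph.sumProdDistrib (X := T) (Y := Unit) (Z := P)).continuous).congr ?_
  rintro ⟨t | t, p⟩ <;> rfl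

theorem continuous_of {Z : Type*} [TopologicalSpace Z] {g : Col T S → Z}
    (h : Continuous fun t => g (mk S t)) : Continuous g := by
  refine (isQuotientMap_quot_mk).continuous_iff.2 ?_
  refine (h.sumElim (continuous_const (y := g (pt S)))).congr ?_
  rintro (t | t) <;> rfl

theorem isClosed_iff {C : Set (Col T S)} : IsClosed C ↔ IsClosed (mk S ⁻¹' C) := by
  refine ⟨fun h => h.preimage continuous_mk, fun h => ?_⟩
  refine (isQuotientMap_quot_mk).isClosed_preimage.1 ?_
  exact isClosed_sum_iff.2 ⟨h, isClosed_discrete _⟩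

theorem isClosed_pt (hS : IsClosed S) : IsClosed ({pt S} : Set (Col T S)) := by
  refine isClosed_iff.2 ?_
  convert hS using 1
  ext t
  exact mk_eq_pt_iff

end Col

/-- A sequential spectrum of pairs. -/
structure PSp where
  T : ℕ → Type
  [top : ∀ n, TopologicalSpace (T n)]
  S : ∀ n, Set (T n)
  sg : ∀ n, T n → I → T (n + 1)
  cont : ∀ n, Continuous fun p : T n × I => sg n p.1 p.2
  sg_S : ∀ n x u, x ∈ S n → sg n x u ∈ S (n + 1)
  sg_zero : ∀ n x, sg n x 0 ∈ S (n + 1)
  sg_one : ∀ n x, sg n x 1 ∈ S (n + 1)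

attribute [instance] PSp.top

namespace PSp
variable (P : PSp)

/-- The quotient spectrum. -/
def col : SSp where
  X n := Col (P.T n) (P.S n)
  pt _ := Col.pt _
  sg n x u := Col.lift (fun t => Col.mk (P.S (n + 1)) (P.sg n t u)) (Col.pt _)
    (fun s hs => Col.mk_of_mem (P.sg_S n s u hs)) x
  cont n := Col.continuous_param (Col.continuous_mk.comp (P.cont n)) continuous_const
  sg_pt _ _ := rfl
  sg_zero n := Col.ind (fun t => Col.mk_of_mem (P.sg_zero n t)) rfl
  sg_one n := Col.ind (fun t => Col.mk_of_mem (P.sg_one n t)) rfl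

/-- The class of a point in the quotient spectrum. -/
def cm (n : ℕ) (t : P.T n) : P.col.X n := Col.mk _ t

theorem mk_of_mem {n : ℕ} {t : P.T n} (h : t ∈ P.S n) : P.cm n t = P.col.pt n := Col.mk_of_mem h

theorem continuous_mk (n : ℕ) : Continuous (P.cm n) := Col.continuous_mk

theorem sg_mk (n : ℕ) (t : P.T n) (u : I) : P.col.sg n (P.cm n t) u = P.cm (n + 1) (P.sg n t u) :=
  rfl

@[elab_as_elim]
theorem ind {n : ℕ} {p : P.col.X n → Prop} (h1 : ∀ t, p (P.cm n t)) (h2 : p (P.col.pt n))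
    (x : P.col.X n) : p x := Col.ind h1 h2 x

theorem continuous_param {n : ℕ} {Q Z : Type*} [TopologicalSpace Q] [LocallyCompactSpace Q]
    [TopologicalSpace Z] {g : P.col.X n × Q → Z}
    (h1 : Continuous fun p : P.T n × Q => g (P.cm n p.1, p.2))
    (h2 : Continuous fun p : Q => g (P.col.pt n, p)) : Continuous g := Col.continuous_param h1 h2

/-- Levelwise maps with parameters out of the quotient spectrum. -/
theorem exists_param {n : ℕ} {Q Z : Type*} [TopologicalSpace Q] [LocallyCompactSpace Q]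
    [TopologicalSpace Z] (f : P.T n → Q → Z) (z : Z)
    (hf : Continuous fun p : P.T n × Q => f p.1 p.2) (hS : ∀ t ∈ P.S n, ∀ q, f t q = z) :
    ∃ F : P.col.X n → Q → Z, Continuous (fun p : P.col.X n × Q => F p.1 p.2) ∧
      (∀ t q, F (P.cm n t) q = f t q) ∧ ∀ q, F (P.col.pt n) q = z :=
  ⟨fun x q => Col.lift (fun t => f t q) z (fun s hs => hS s hs q) x,
    P.continuous_param hf continuous_const, fun _ _ => rfl, fun _ => rfl⟩

/-- Maps of spectra out of the quotient spectrum. -/
def lift {Y : SSp} (f : ∀ n, P.T n → Y.X n) (hf : ∀ n, Continuous (f n))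
    (hS : ∀ n, ∀ t ∈ P.S n, f n t = Y.pt n)
    (hsg : ∀ n t u, f (n + 1) (P.sg n t u) = Y.sg n (f n t) u) : SMap P.col Y where
  f n := Col.lift (f n) (Y.pt n) (hS n)
  cont n := Col.continuous_of (hf n)
  f_pt _ := rfl
  f_sg n x u := P.ind (fun t => hsg n t u) (Y.sg_pt n u).symm x

@[simp] theorem lift_mk {Y : SSp} (f : ∀ n, P.T n → Y.X n) (hf) (hS) (hsg) (n : ℕ) (t : P.T n) :
    (P.lift f hf hS hsg).f n (P.cm n t) = f n t := rfl

end PSp

namespace SSp
variable (X : SSp) (D : Type) [TopologicalSpace D] (E : Set D)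

/-- The pair `(X × D, pt × D ∪ X × E)`. -/
def smP : PSp where
  T n := X.X n × D
  S n := {p | p.1 = X.pt n ∨ p.2 ∈ E}
  sg n p u := (X.sg n p.1 u, p.2)
  cont n := ((X.cont n).comp (continuous_fst.fst.prodMk continuous_snd)).prodMk continuous_fst.snd
  sg_S n p u h := h.elim (fun h => Or.inl (by rw [h]; exact X.sg_pt n u)) Or.inr
  sg_zero n p := Or.inl (X.sg_zero n p.1)
  sg_one n p := Or.inl (X.sg_one n p.1)

/-- The smash product of a spectrum with the quotient `D / E`. -/
def sm : SSp := (X.smP D E).col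

variable {D}

/-- Points of the smash product. -/
def smk (n : ℕ) (x : X.X n) (d : D) : (X.sm D E).X n := (X.smP D E).cm n (x, d)

theorem smk_pt (n : ℕ) (d : D) : X.smk E n (X.pt n) d = (X.sm D E).pt n :=
  (X.smP D E).mk_of_mem (Or.inl rfl)

theorem smk_of_mem (n : ℕ) (x : X.X n) {d : D} (h : d ∈ E) : X.smk E n x d = (X.sm D E).pt n :=
  (X.smP D E).mk_of_mem (Or.inr h)

theorem smk_eq_pt_iff {n : ℕ} {x : X.X n} {d : D} :
    X.smk E n x d = (X.sm D E).pt n ↔ x = X.pt n ∨ d ∈ E := Col.mk_eq_pt_iff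

theorem continuous_smk {Q : Type*} [TopologicalSpace Q] (n : ℕ) {x : Q → X.X n} {d : Q → D}
    (hx : Continuous x) (hd : Continuous d) : Continuous fun q => X.smk E n (x q) (d q) :=
  ((X.smP D E).continuous_mk n).comp (hx.prodMk hd)

theorem sg_smk (n : ℕ) (x : X.X n) (d : D) (u : I) :
    (X.sm D E).sg n (X.smk E n x d) u = X.smk E (n + 1) (X.sg n x u) d := rfl

@[elab_as_elim]
theorem sm_ind {n : ℕ} {p : (X.sm D E).X n → Prop} (h1 : ∀ x d, p (X.smk E n x d))
    (h2 : p ((X.sm D E).pt n)) (y : (X.sm D E).X n) : p y :=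
  (X.smP D E).ind (fun t => h1 t.1 t.2) h2 y

/-- Levelwise maps with parameters out of a smash product. -/
theorem sm_exists_param {n : ℕ} {Q Z : Type*} [TopologicalSpace Q] [LocallyCompactSpace Q]
    [TopologicalSpace Z] (f : X.X n → D → Q → Z) (z : Z)
    (hf : Continuous fun p : (X.X n × D) × Q => f p.1.1 p.1.2 p.2)
    (h1 : ∀ d q, f (X.pt n) d q = z) (h2 : ∀ x, ∀ d ∈ E, ∀ q, f x d q = z) :
    ∃ F : (X.sm D E).X n → Q → Z, Continuous (fun p : (X.sm D E).X n × Q => F p.1 p.2) ∧
      (∀ x d q, F (X.smk E n x d) q = f x d q) ∧ ∀ q, F ((X.sm D E).pt n) q = z := by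
  obtain ⟨F, hF, e1, e2⟩ := (X.smP D E).exists_param (n := n) (fun t q => f t.1 t.2 q) z hf (by
    rintro ⟨x, d⟩ (h | h) q
    · change x = _ at h
      rw [h]; exact h1 d q
    · exact h2 x d h q)
  exact ⟨F, hF, fun x d q => e1 (x, d) q, e2⟩

/-- Maps of spectra out of a smash product. -/
def smLift {Y : SSp} (f : ∀ n, X.X n → D → Y.X n)
    (hf : ∀ n, Continuous fun p : X.X n × D => f n p.1 p.2)
    (h1 : ∀ n d, f n (X.pt n) d = Y.pt n) (h2 : ∀ n x, ∀ d ∈ E, f n x d = Y.pt n)
    (hsg : ∀ n x d u, f (n + 1) (X.sg n x u) d = Y.sg n (f n x d) u) : SMap (X.sm D E) Y :=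
  (X.smP D E).lift (fun n t => f n t.1 t.2) hf (by
    rintro n ⟨x, d⟩ (h | h)
    · change x = _ at h
      rw [h]; exact h1 n d
    · exact h2 n x d h) fun n t u => hsg n t.1 t.2 u

@[simp] theorem smLift_smk {Y : SSp} (f : ∀ n, X.X n → D → Y.X n) (hf) (h1) (h2) (hsg) (n : ℕ)
    (x : X.X n) (d : D) : (X.smLift E f hf h1 h2 hsg).f n (X.smk E n x d) = f n x d := rfl

/-- The family of maps `X → X ∧ D / E` given by a map of pairs from the cube. -/
def smC {k : ℕ} (e : (Fin k → I) → D) (he : Continuous e)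
    (hb : ∀ z, z ∈ Cube.boundary (Fin k) → e z ∈ E) : CMap k X (X.sm D E) where
  f n x z := X.smk E n x (e z)
  cont n := X.continuous_smk E n continuous_fst (he.comp continuous_snd)
  f_pt n _ := X.smk_pt E n _
  f_bd n x z hz := X.smk_of_mem E n x (hb z hz)
  f_sg _ _ _ _ := rfl

end SSp

/-- The two end points of the interval. -/
def ends : Set I := {u | u = 0 ∨ u = 1}

theorem isClosed_ends : IsClosed ends :=
  (isClosed_singleton (x := (0 : I))).union (isClosed_singleton (x := (1 : I)))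

/-- The suspension of a spectrum. -/
def SSp.sus (X : SSp) : SSp := X.sm I ends

/-- The suspension family `X → ΣX`. -/
def SSp.susC (X : SSp) : CMap 1 X X.sus :=
  X.smC ends (fun z => z 0) (continuous_apply 0) fun _ hz => SSp.mem_bd_one hz

theorem SSp.susC_f (X : SSp) (n : ℕ) (x : X.X n) (z : Fin 1 → I) :
    X.susC.f n x z = X.smk ends n x (z 0) := rfl

namespace SMap
variable {X Y : SSp} (φ : SMap X Y) (D : Type) [TopologicalSpace D] (E : Set D)

/-- Functoriality of the smash product in the spectrum. -/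
def sm : SMap (X.sm D E) (Y.sm D E) :=
  X.smLift E (fun n x d => Y.smk E n (φ.f n x) d)
    (fun n => Y.continuous_smk E n ((φ.cont n).comp continuous_fst) continuous_snd)
    (fun n d => by rw [φ.f_pt]; exact Y.smk_pt E n d) (fun n x d hd => Y.smk_of_mem E n _ hd)
    fun n x d u => by rw [φ.f_sg]; rfl

@[simp] theorem sm_smk (n : ℕ) (x : X.X n) (d : D) :
    (φ.sm D E).f n (X.smk E n x d) = Y.smk E n (φ.f n x) d := rfl

/-- The suspension of a map. -/
def sus : SMap X.sus Y.sus := φ.sm I ends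

@[simp] theorem sus_smk (n : ℕ) (x : X.X n) (u : I) :
    φ.sus.f n (X.smk ends n x u) = Y.smk ends n (φ.f n x) u := rfl

theorem sus_pi_susC {a b : ℕ} (x : X.Pi a b) :
    φ.sus.pi (a + 1) b (X.susC.pi a b x) = Y.susC.pi a b (φ.pi a b x) :=
  CMap.pi_square _ _ _ _ (fun _ _ _ => rfl) x

/-- The smash product of a closed embedding is an embedding. -/
theorem sm_isEmbedding (hE : IsClosed E) (n : ℕ) (h : Topology.IsClosedEmbedding (φ.f n))
    (hp : IsClosed ({Y.pt n} : Set (Y.X n))) : Topology.IsEmbedding ((φ.sm D E).f n) := by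
  have hpt : ∀ x, φ.f n x = Y.pt n → x = X.pt n := fun x hx =>
    h.injective (hx.trans (φ.f_pt n).symm)
  have hinj : Function.Injective ((φ.sm D E).f n) := by
    intro p q
    refine X.sm_ind E (fun x d => ?_) ?_ p <;> refine X.sm_ind E (fun x' d' => ?_) ?_ q <;> intro e
    · rcases Col.mk_eq_mk_iff.1 e with e | ⟨e1, e2⟩
      · obtain ⟨e1, e2⟩ := Prod.mk.inj e
        exact congrArg₂ (X.smk E n) (h.injective e1) e2
      · exact ((X.smk_eq_pt_iff E).2 (e1.imp (hpt x) fun h => h)).trans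
          ((X.smk_eq_pt_iff E).2 (e2.imp (hpt x') fun h => h)).symm
    · rw [(φ.sm D E).f_pt] at e
      exact (X.smk_eq_pt_iff E).2 (((Y.smk_eq_pt_iff E).1 e).imp (hpt x) fun h => h)
    · rw [(φ.sm D E).f_pt] at e
      exact ((X.smk_eq_pt_iff E).2 (((Y.smk_eq_pt_iff E).1 e.symm).imp (hpt x') fun h => h)).symm
    · rfl
  refine (Topology.IsClosedEmbedding.of_continuous_injective_isClosedMap ((φ.sm D E).cont n) hinj
    fun C hC => ?_).isEmbedding
  have hC' : IsClosed (Prod.map (φ.f n) (_root_.id : D → D) '' ((X.smP D E).cm n ⁻¹' C)) :=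
    (h.prodMap Topology.IsClosedEmbedding.id).isClosedMap _
      (hC.preimage ((X.smP D E).continuous_mk n))
  have hS : IsClosed ((Y.smP D E).S n) :=
    (hp.preimage continuous_fst).union (hE.preimage continuous_snd)
  refine Col.isClosed_iff.2 ?_
  by_cases hb : (X.sm D E).pt n ∈ C
  · refine (congrArg IsClosed (Set.ext ?_)).mp (hC'.union hS)
    rintro ⟨y, d⟩
    symm
    constructor
    · rintro ⟨p, hp, e⟩
      induction p using X.sm_ind E with
      | h1 x d' =>
        rcases Col.mk_eq_mk_iff.1 e with e | ⟨_, e2⟩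
        · exact Or.inl ⟨(x, d'), hp, e⟩
        · exact Or.inr e2
      | h2 =>
        rw [(φ.sm D E).f_pt] at e
        exact Or.inr (Col.mk_eq_pt_iff.1 e.symm)
    · rintro (⟨⟨x, d'⟩, hp, e⟩ | hs)
      · exact ⟨_, hp, congrArg (Col.mk _) e⟩
      · exact ⟨_, hb, ((φ.sm D E).f_pt n).trans (Col.mk_of_mem hs).symm⟩
  · refine (congrArg IsClosed (Set.ext ?_)).mp hC'
    rintro ⟨y, d⟩
    symm
    constructor
    · rintro ⟨p, hp, e⟩
      induction p using X.sm_ind E with
      | h1 x d' =>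
        rcases Col.mk_eq_mk_iff.1 e with e | ⟨e1, _⟩
        · exact ⟨(x, d'), hp, e⟩
        · exact (hb (((X.smk_eq_pt_iff E).2 (e1.imp (hpt x) fun h => h)) ▸ hp)).elim
      | h2 => exact (hb hp).elim
    · rintro ⟨⟨x, d'⟩, hp, e⟩
      exact ⟨_, hp, congrArg (Col.mk _) e⟩

end SMap

end Pool.Agent.Lib.E2
end
end

-- part Pool.Agent.Lib.MP_10be03_gt.HSusp
section

/-! The suspension isomorphism. -/

noncomputable section
open scoped unitInterval Topology

namespace Pool.Agent.Lib.E2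

namespace HSusp

variable {a j : ℕ}

theorem bd_succ {y : Cb a (j + 1) → I} (h : y ∈ Cube.boundary (Cb a (j + 1))) :
    cbInit y ∈ Cube.boundary (Cb a j) ∨ y (Sum.inr (Fin.last (j + 2))) ∈ ends := by
  obtain ⟨i, hi⟩ := h
  rcases i with i | i
  · exact Or.inl ⟨Sum.inl i, hi⟩
  · induction i using Fin.lastCases with
    | last => exact Or.inr hi
    | cast i => exact Or.inl ⟨Sum.inr i, hi⟩

/-- The last coordinate becomes the new one. -/
def rl (y : Cb a (j + 1) → I) : Cb (a + 1) j → I :=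
  cbJ (cbInit y) fun _ => y (Sum.inr (Fin.last (j + 2)))

theorem continuous_rl : Continuous (rl (a := a) (j := j)) :=
  continuous_cbJ continuous_cbInit (continuous_pi fun _ => continuous_apply _)

theorem rl_bd {y : Cb a (j + 1) → I} (h : y ∈ Cube.boundary (Cb a (j + 1))) :
    rl y ∈ Cube.boundary (Cb (a + 1) j) :=
  (bd_succ h).elim (cbJ_mem_bd_left _) fun h => cbJ_mem_bd_right _ ⟨0, h⟩

theorem sg_ends (X : SSp) (n : ℕ) (x : X.X n) {u : I} (h : u ∈ ends) :
    X.sg n x u = X.pt (n + 1) := by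
  rcases h with rfl | rfl
  exacts [X.sg_zero n x, X.sg_one n x]

theorem exists_st (X : SSp) (n : ℕ) : ∃ st : X.sus.X n → X.X (n + 1), Continuous st ∧
    (∀ x u, st (X.smk ends n x u) = X.sg n x u) ∧ st (X.sus.pt n) = X.pt (n + 1) := by
  obtain ⟨F, h1, h2, h3⟩ := X.sm_exists_param ends (n := n) (Q := Unit)
    (fun x u _ => X.sg n x u) (X.pt (n + 1)) ((X.cont n).comp continuous_fst)
    (fun u _ => X.sg_pt n u) fun x u hu _ => sg_ends X n x hu
  exact ⟨fun y => F y (), h1.comp (continuous_id.prodMk continuous_const), fun x u => h2 x u (),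
    h3 ()⟩

theorem rot_pt (X : SSp) (n : ℕ) (x : X.X n) (s : I) {u v : I} (h : u ∈ ends ∨ v ∈ ends) :
    X.smk ends (n + 1) (X.sg n x (HC.rot s u v).1) (HC.rot s u v).2 = X.sus.pt (n + 1) := by
  rcases HC.rot_bd s h with h | h
  · rw [sg_ends X n x h]
    exact X.smk_pt ends _ _
  · exact X.smk_of_mem ends _ _ h

/-- The map of spectra given by a family. -/
def toS {k : ℕ} {X Y : SSp} (Φ : CMap k X Y) :
    SMap (X.sm (Fin k → I) (Cube.boundary (Fin k))) Y :=
  X.smLift _ Φ.f Φ.cont Φ.f_pt (fun n x d h => Φ.f_bd n x d h) fun n x d u => Φ.f_sg n x u d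

theorem pi_eq_id (X : SSp) {D : Type} [TopologicalSpace D] (E : Set D)
    (χ : SMap (X.sm D E) (X.sm D E)) (K : I → D → D) (hK : Continuous fun p : I × D => K p.1 p.2)
    (K0 : ∀ n x w, χ.f n (X.smk E n x w) = X.smk E n x (K 0 w)) (K1 : ∀ w, K 1 w = w)
    (Kb : ∀ s w, w ∈ E → K s w ∈ E) (a b : ℕ) : χ.pi a b = (SMap.id _).pi a b := by
  choose F h1 h2 h3 using fun n => X.sm_exists_param E (n := n) (Q := I)
    (fun x w s => X.smk E n x (K s w)) ((X.sm D E).pt n)
    (X.continuous_smk E n continuous_fst.fst (hK.comp (continuous_snd.prodMk continuous_fst.snd)))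
    (fun w s => X.smk_pt E n _) fun x w hw s => X.smk_of_mem E n x (Kb s w hw)
  refine SMap.pi_homotopy F h1 (fun n y => ?_) (fun n y => ?_) h3 a b
  · exact X.sm_ind E (fun x w => (h2 n x w 0).trans (K0 n x w).symm)
      ((h3 n 0).trans (χ.f_pt n).symm) y
  · exact X.sm_ind E (fun x w => (h2 n x w 1).trans (by rw [K1]; rfl)) (h3 n 1) y

theorem bd_init {k : ℕ} {z : Fin (k + 1) → I} (h : z ∈ Cube.boundary (Fin (k + 1))) :
    Fin.init z ∈ Cube.boundary (Fin k) ∨ z (Fin.last k) ∈ ends := by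
  obtain ⟨i, hi⟩ := h
  induction i using Fin.lastCases with
  | last => exact Or.inr hi
  | cast i => exact Or.inl ⟨i, hi⟩

theorem bd_snoc {k : ℕ} {z : Fin k → I} {u : I} (h : z ∈ Cube.boundary (Fin k) ∨ u ∈ ends) :
    (Fin.snoc z u : Fin (k + 1) → I) ∈ Cube.boundary (Fin (k + 1)) := by
  rcases h with ⟨i, hi⟩ | h
  · exact ⟨i.castSucc, by simpa using hi⟩
  · exact ⟨Fin.last k, by rw [Fin.snoc_last]; exact h⟩

/-- A family followed by the suspension family. -/
def snocC {k : ℕ} {X Y : SSp} (Φ : CMap k X Y) : CMap (k + 1) X Y.sus where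
  f n x z := Y.smk ends n (Φ.f n x (Fin.init z)) (z (Fin.last k))
  cont n := Y.continuous_smk ends n ((Φ.cont n).comp (continuous_fst.prodMk
    (continuous_pi fun i => (continuous_apply i.castSucc).comp continuous_snd)))
    ((continuous_apply _).comp continuous_snd)
  f_pt n z := by rw [Φ.f_pt]; exact Y.smk_pt ends n _
  f_bd n x z hz := by
    rcases bd_init hz with h | h
    · rw [Φ.f_bd n x _ h]; exact Y.smk_pt ends n _
    · exact Y.smk_of_mem ends n _ h
  f_sg n x u z := by rw [Φ.f_sg]; rfl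

end HSusp

open HSusp

theorem SSp.susC_injective (X : SSp) (a b : ℕ) : Function.Injective (X.susC.pi a b) := by
  refine (injective_iff_map_eq_zero _).2 fun x hx => ?_
  obtain ⟨j, f, rfl⟩ := SSp.cls_surj x
  rw [CMap.pi_cls] at hx
  obtain ⟨j, f, e, h⟩ := SSp.exists_null (fun _ f => X.susC.loop f) (fun _ f => X.susC.loop_sl f)
    f hx
  obtain ⟨H, hH, h0, h1, hb⟩ := HC.exists_of_eq_one h
  obtain ⟨st, c, s1, s2⟩ := exists_st X (b + j)
  rw [← e, ← SSp.cls_susp]
  refine SSp.cls_null (fun p => st (H (p.1, rl p.2)))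
    (c.comp (hH.comp (continuous_fst.prodMk (continuous_rl.comp continuous_snd))))
    (fun t => ?_) (fun t => ?_) fun s t ht => ?_
  · dsimp only
    rw [h0, CMap.loop_apply, SSp.susC_f, s1, rl, cbL_cbJ, cbR_cbJ, SSp.sl_apply]
  · dsimp only
    rw [h1, s2]
    rfl
  · dsimp only
    rw [hb s _ (rl_bd ht), s2]
    rfl

theorem SSp.susC_surjective (X : SSp) (a b : ℕ) : Function.Surjective (X.susC.pi a b) := by
  intro y
  obtain ⟨j, d, rfl⟩ := SSp.cls_surj y
  obtain ⟨st, c, s1, s2⟩ := exists_st X (b + j)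
  obtain ⟨R, r0, r1, r2⟩ := X.sm_exists_param ends (n := b + j) (Q := I × I)
    (fun x v q => X.smk ends (b + j + 1) (X.sg (b + j) x (HC.rot q.1 q.2 v).1) (HC.rot q.1 q.2 v).2)
    (X.sus.pt (b + j + 1)) (by
      have : Continuous fun p : (X.X (b + j) × I) × I × I => HC.rot p.2.1 p.2.2 p.1.2 :=
        HC.continuous_rot' continuous_snd.fst continuous_snd.snd continuous_fst.snd
      exact X.continuous_smk ends _ ((X.cont _).comp (continuous_fst.fst.prodMk this.fst)) this.snd)
    (fun v q => by rw [X.sg_pt]; exact X.smk_pt ends _ _)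
    fun x v hv q => rot_pt X _ x _ (Or.inr hv)
  let g : X.L a b (j + 1) := HC.mkL (fun y => st (d (rl y))) (c.comp ((HC.cont d).comp continuous_rl))
    fun t ht => by rw [GenLoop.boundary d _ (rl_bd ht)]; exact s2
  have hb : ∀ s, ∀ t ∈ Cube.boundary (Cb (a + 1) (j + 1)),
      R (d (cbInit t)) (s, t (Sum.inr (Fin.last (j + 2)))) = X.sus.pt (b + j + 1) := by
    intro s t ht
    rcases bd_succ ht with h | h
    · rw [GenLoop.boundary d _ h]
      exact r2 _
    · exact X.sm_ind ends (fun x v => (r1 x v _).trans (rot_pt X _ x _ (Or.inl h))) (r2 _)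
        (d (cbInit t))
  have hc : Continuous fun p : I × (Cb (a + 1) (j + 1) → I) =>
      R (d (cbInit p.2)) (p.1, p.2 (Sum.inr (Fin.last (j + 2)))) :=
    r0.comp (((HC.cont d).comp (continuous_cbInit.comp continuous_snd)).prodMk
      (continuous_fst.prodMk ((continuous_apply (Sum.inr (Fin.last (j + 2)))).comp continuous_snd)))
  let m : X.sus.L (a + 1) b (j + 1) :=
    HC.mkL (fun t => R (d (cbInit t)) (1, t (Sum.inr (Fin.last (j + 2)))))
      (hc.comp (continuous_const.prodMk continuous_id)) (hb 1)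
  have e1 : X.sus.cls (a + 1) b (j + 1) (SSp.sl d) = X.sus.cls (a + 1) b (j + 1) m := by
    refine SSp.cls_of _ hc (fun t => ?_) (fun t => rfl) hb
    rw [SSp.sl_apply]
    refine X.sm_ind ends (fun x v => (r1 x v _).trans ?_) ((r2 _).trans (X.sus.sg_pt _ _).symm)
      (d (cbInit t))
    rw [HC.rot_zero]
    rfl
  have e2 : ∀ (y : X.sus.X (b + j)) (u : I),
      R y (1, u) = X.smk ends (b + j + 1) (st y) (unitInterval.symm u) := fun y u => by
    refine X.sm_ind ends (fun x v => (r1 x v _).trans ?_) ((r2 _).trans ?_) y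
    · rw [HC.rot_one, s1]
    · exact ((congrArg (X.smk ends _ · _) s2).trans (X.smk_pt ends _ _)).symm
  refine ⟨X.cls a b (j + 1) g, ?_⟩
  rw [CMap.pi_cls, ← SSp.cls_susp d, e1]
  refine SSp.cls_eq_of (HC.cls_rot (p := Sum.inl (Fin.natAdd a 0))
    (q := Sum.inr (Fin.last (j + 2))) (by simp) fun t => ?_)
  change X.smk ends _ (st (d (rl (cbL t)))) (cbR t 0) = R (d (cbInit _)) (1, _)
  rw [e2, SSp.cbInit_update_last, Function.update_self, unitInterval.symm_symm]
  congr 3
  rw [← cbJ_cbL_cbR (cbInit (Function.update t _ _)), cbL_cbInit, cbR_cbInit, cbL_update_new,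
    cbR_update_new, rl]
  congr 1
  funext i
  rw [Subsingleton.elim i 0, Function.update_self]
  rfl

/-- The tautological family into the smash product with a cube modulo its boundary. -/
def SSp.cubC (X : SSp) (k : ℕ) : CMap k X (X.sm (Fin k → I) (Cube.boundary (Fin k))) :=
  X.smC _ (fun z => z) continuous_id fun _ h => h

theorem SSp.cubC_bijective (X : SSp) (k a b : ℕ) : Function.Bijective ((X.cubC k).pi a b) := by
  induction k with
  | zero =>
    let φ : SMap X (X.sm (Fin 0 → I) (Cube.boundary (Fin 0))) :=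
      ⟨fun n x => X.smk _ n x default,
        fun n => X.continuous_smk _ n continuous_id continuous_const, fun n => X.smk_pt _ n _,
        fun _ _ _ => rfl⟩
    let ψ : SMap (X.sm (Fin 0 → I) (Cube.boundary (Fin 0))) X :=
      X.smLift _ (fun _ x _ => x) (fun _ => continuous_fst) (fun _ _ => rfl)
        (fun _ _ _ h => h.choose.elim0) fun _ _ _ _ => rfl
    have h := φ.pi_bijective ψ a b (SMap.pi_congr (fun _ _ => rfl) a b)
      (SMap.pi_congr (fun n y => X.sm_ind _ (fun x d => congrArg (X.smk _ n x)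
        (Subsingleton.elim _ _)) ((φ.comp ψ).f_pt n) y) a b)
    rwa [← show ⇑((X.cubC 0).pi a b) = φ.pi a b from funext ((X.cubC 0).pi_zero φ
      fun n x z => congrArg (X.smk _ n x) (Subsingleton.elim _ _))] at h
  | succ k ih =>
    choose F h1 h2 h3 using fun n => X.sm_exists_param (Cube.boundary (Fin k)) (n := n) (Q := I)
      (fun x z u => X.smk (Cube.boundary (Fin (k + 1))) n x (Fin.snoc z u : Fin (k + 1) → I))
      ((X.sm _ (Cube.boundary (Fin (k + 1)))).pt n)
      (X.continuous_smk _ n continuous_fst.fst 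
        (Continuous.finSnoc (A := fun _ => I) continuous_fst.snd continuous_snd))
      (fun z u => X.smk_pt _ n _) fun x z hz u => X.smk_of_mem _ n x (bd_snoc (Or.inl hz))
    let be : SMap (X.sm _ (Cube.boundary (Fin k))).sus (X.sm _ (Cube.boundary (Fin (k + 1)))) :=
      (X.sm _ (Cube.boundary (Fin k))).smLift ends F h1 h3
        (fun n y u hu => X.sm_ind _ (fun x z => (h2 n x z u).trans
          (X.smk_of_mem _ n x (bd_snoc (Or.inr hu)))) (h3 n u) y)
        fun n y u v => X.sm_ind _ (fun x z => by rw [X.sg_smk, h2, h2]; rfl)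
          (by rw [SSp.sg_pt, h3, h3, SSp.sg_pt]) y
    have hal := (toS (snocC (X.cubC k))).pi_bijective be (a + (k + 1)) b
      (SMap.pi_congr (fun n y => X.sm_ind _ (fun x z => (h2 n x _ _).trans
        (by rw [Fin.snoc_init_self]; rfl)) ((be.comp _).f_pt n) y) _ b)
      (SMap.pi_congr (fun n y => (X.sm _ (Cube.boundary (Fin k))).sm_ind ends (fun y u =>
        X.sm_ind _ (fun x z => by
          change (toS (snocC (X.cubC k))).f n (F n (X.smk _ n x z) u) = _
          rw [h2]
          change SSp.smk _ ends n (X.smk (Cube.boundary (Fin k)) n x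
            (Fin.init (Fin.snoc z u : Fin (k + 1) → I)))
            ((Fin.snoc z u : Fin (k + 1) → I) (Fin.last k)) = _
          rw [Fin.init_snoc, Fin.snoc_last]
          rfl) (by rw [SSp.smk_pt]; exact SMap.f_pt _ n) y) (SMap.f_pt _ n) y) _ b)
    refine (hal.of_comp_iff' _).1 ?_
    have e : (toS (snocC (X.cubC k))).pi (a + (k + 1)) b ∘ (X.cubC (k + 1)).pi a b =
        (X.sm _ (Cube.boundary (Fin k))).susC.pi (a + k) b ∘ (X.cubC k).pi a b := funext fun x =>
      (CMap.pi_post _ (snocC (X.cubC k)) _ (fun _ _ _ => rfl) x).trans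
        (CMap.pi_snoc _ _ _ (fun _ _ _ => rfl) x)
    rw [e]
    exact Function.Bijective.comp ⟨SSp.susC_injective _ _ _, SSp.susC_surjective _ _ _⟩ ih

/-- A map of pairs from the cube which is a homotopy equivalence of pairs gives a bijection. -/
theorem SSp.smC_bijective (X : SSp) {D : Type} [TopologicalSpace D] (E : Set D) {k : ℕ}
    (e : (Fin k → I) → D) (he : Continuous e) (hb : ∀ z, z ∈ Cube.boundary (Fin k) → e z ∈ E)
    (κ : D → (Fin k → I)) (hκ : Continuous κ) (hκb : ∀ d ∈ E, κ d ∈ Cube.boundary (Fin k))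
    (H : I → (Fin k → I) → (Fin k → I)) (hH : Continuous fun p : I × (Fin k → I) => H p.1 p.2)
    (H0 : ∀ z, H 0 z = κ (e z)) (H1 : ∀ z, H 1 z = z)
    (Hb : ∀ s z, z ∈ Cube.boundary (Fin k) → H s z ∈ Cube.boundary (Fin k))
    (K : I → D → D) (hK : Continuous fun p : I × D => K p.1 p.2) (K0 : ∀ w, K 0 w = e (κ w))
    (K1 : ∀ w, K 1 w = w) (Kb : ∀ s w, w ∈ E → K s w ∈ E) (a b : ℕ) :
    Function.Bijective ((X.smC E e he hb).pi a b) := by
  let ψ : SMap (X.sm D E) (X.sm (Fin k → I) (Cube.boundary (Fin k))) :=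
    X.smLift E (fun n x d => X.smk _ n x (κ d))
      (fun n => X.continuous_smk _ n continuous_fst (hκ.comp continuous_snd))
      (fun n d => X.smk_pt _ n _) (fun n x d hd => X.smk_of_mem _ n x (hκb d hd))
      fun _ _ _ _ => rfl
  have h := (toS (X.smC E e he hb)).pi_bijective ψ (a + k) b
    (pi_eq_id X _ _ H hH (fun n x z => by rw [H0]; rfl) H1 Hb _ b)
    (pi_eq_id X _ _ K hK (fun n x z => by rw [K0]; rfl) K1 Kb _ b)
  have e' : ⇑((X.smC E e he hb).pi a b) =
      (toS (X.smC E e he hb)).pi (a + k) b ∘ (X.cubC k).pi a b :=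
    funext fun x => (CMap.pi_post _ _ _ (fun _ _ _ => rfl) x).symm
  rw [e']
  exact h.comp (X.cubC_bijective k a b)

end Pool.Agent.Lib.E2
end
end
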