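import Pool.Agent.Lib.MP_10be03_gt.HCell
import Pool.Agent.Lib.MP_10be03_gt.HGeo3
import Pool.Agent.Lib.MP_10be03_gt.HSusp
import Pool.Agent.Lib.MP_10be03_gt.A

/-! The first differential is the alternating sum of the face maps. -/

noncomputable section
open scoped unitInterval Topology

namespace Pool.Agent.Lib.E2
open Geo HC

/-- A family followed by a map. -/
def CMap.hdPost {k : ℕ} {X Y Z : SSp} (Φ : CMap k X Y) (ψ : SMap Y Z) : CMap k X Z where
  f n x z := ψ.f n (Φ.f n x z)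
  cont n := (ψ.cont n).comp (Φ.cont n)
  f_pt n z := by rw [Φ.f_pt, ψ.f_pt]
  f_bd n x z hz := by rw [Φ.f_bd n x z hz, ψ.f_pt]
  f_sg n x u z := by rw [Φ.f_sg, ψ.f_sg]

/-- A map followed by a family. -/
def CMap.hdPre {k : ℕ} {X Y Z : SSp} (Ψ : CMap k Y Z) (φ : SMap X Y) : CMap k X Z where
  f n x z := Ψ.f n (φ.f n x) z
  cont n := (Ψ.cont n).comp (((φ.cont n).comp continuous_fst).prodMk continuous_snd)
  f_pt n z := by rw [φ.f_pt, Ψ.f_pt]
  f_bd n x z hz := Ψ.f_bd n _ z hz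
  f_sg n x u z := by rw [φ.f_sg, Ψ.f_sg]

namespace SimpSp
variable (B : SimpSp)

/-- The characteristic family of the cells. -/
def T (m : ℕ) : CMap m (B.W m) (B.Q m) :=
  (B.W m).smC (bdry m) (lam m) continuous_lam lam_bd

theorem T_bijective (m a b : ℕ) : Function.Bijective ((B.T m).pi a b) := by
  obtain ⟨H, hH, H0, H1, Hb⟩ := kap_lam_homotopy m
  obtain ⟨K, hK, K0, K1, Kb⟩ := lam_kap_homotopy m
  exact (B.W m).smC_bijective (bdry m) (lam m) continuous_lam lam_bd (kap m) continuous_kap kap_bd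
    H hH H0 H1 Hb K hK K0 K1 Kb a b

/-- The family into the suspended cells given by a map of pairs from the cube to the prism. -/
def G (m : ℕ) (e : (Fin (m + 1) → I) → Dl m × I) (he : Continuous e)
    (hb : ∀ z, z ∈ Cube.boundary (Fin (m + 1)) → e z ∈ pbd m) :
    CMap (m + 1) (B.W m) (B.Q m).sus where
  f n x z := (B.Q m).smk ends n ((B.W m).smk (bdry m) n x (e z).1) (e z).2
  cont n := (B.Q m).continuous_smk ends n
    ((B.W m).continuous_smk _ n continuous_fst (he.comp continuous_snd).fst)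
    (he.comp continuous_snd).snd
  f_pt n z := by rw [(B.W m).smk_pt]; exact (B.Q m).smk_pt _ n _
  f_bd n x z hz := by
    rcases hb z hz with h | h
    · rw [(B.W m).smk_of_mem _ n x h]; exact (B.Q m).smk_pt _ n _
    · exact (B.Q m).smk_of_mem ends n _ h
  f_sg _ _ _ _ := rfl

theorem hd_pbd (m n : ℕ) (x : (B.W m).X n) {p : Dl m × I} (hp : p ∈ pbd m) :
    (B.Q m).smk ends n ((B.W m).smk (bdry m) n x p.1) p.2 = (B.Q m).sus.pt n := by
  rcases hp with h | h
  · rw [(B.W m).smk_of_mem _ n x h]; exact (B.Q m).smk_pt _ n _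
  · exact (B.Q m).smk_of_mem ends n _ h

theorem G_homotopy (m : ℕ) {e e' : (Fin (m + 1) → I) → Dl m × I} (he) (hb) (he') (hb')
    (H : I → (Fin (m + 1) → I) → Dl m × I)
    (hH : Continuous fun p : I × (Fin (m + 1) → I) => H p.1 p.2) (H0 : ∀ z, H 0 z = e z)
    (H1 : ∀ z, H 1 z = e' z) (Hb : ∀ s z, z ∈ Cube.boundary (Fin (m + 1)) → H s z ∈ pbd m)
    (a b : ℕ) : (B.G m e he hb).pi a b = (B.G m e' he' hb').pi a b :=
  CMap.pi_homotopy
    (fun n s x z => (B.Q m).smk ends n ((B.W m).smk (bdry m) n x (H s z).1) (H s z).2)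
    (fun n => (B.Q m).continuous_smk ends n ((B.W m).continuous_smk _ n continuous_snd.fst
      (hH.comp (continuous_fst.prodMk continuous_snd.snd)).fst)
      (hH.comp (continuous_fst.prodMk continuous_snd.snd)).snd)
    (fun n x z => by rw [H0]; rfl) (fun n x z => by rw [H1]; rfl)
    (fun n s z => by rw [(B.W m).smk_pt]; exact (B.Q m).smk_pt _ n _)
    (fun n s x z hz => B.hd_pbd m n x (Hb s z hz)) a b

/-- The family given by a stage of a homotopy. -/
def hdG (m : ℕ) (H : I → (Fin (m + 1) → I) → Dl m × I)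
    (hH : Continuous fun p : I × (Fin (m + 1) → I) => H p.1 p.2)
    (Hb : ∀ s z, z ∈ Cube.boundary (Fin (m + 1)) → H s z ∈ pbd m) (s : I) :
    CMap (m + 1) (B.W m) (B.Q m).sus :=
  B.G m (H s) (hH.comp (continuous_const.prodMk continuous_id)) (Hb s)

theorem hdG_f (m : ℕ) (H : I → (Fin (m + 1) → I) → Dl m × I) (hH) (Hb) (s : I) (n : ℕ)
    (x : (B.W m).X n) (z : Fin (m + 1) → I) : (B.hdG m H hH Hb s).f n x z =
      (B.Q m).smk ends n ((B.W m).smk (bdry m) n x (H s z).1) (H s z).2 := rfl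

theorem hdG_pi (m : ℕ) (H : I → (Fin (m + 1) → I) → Dl m × I) (hH) (Hb) (a b : ℕ) :
    (B.hdG m H hH Hb 0).pi a b = (B.hdG m H hH Hb 1).pi a b :=
  B.G_homotopy m _ _ _ _ H hH (fun _ => rfl) (fun _ => rfl) Hb a b

/-- The family of face `i`. -/
def GF (m : ℕ) (i : Fin (m + 2)) : CMap (m + 1) (B.W m) (B.Q m).sus :=
  B.G m (fun z => eF i (lam (m + 1) z)) ((continuous_eF i).comp continuous_lam)
    fun z hz => eF_mem_pbd i (lam_bd z hz)

theorem hd_step (m : ℕ) (j : Fin (m + 1)) (a b : ℕ) (x : (B.W m).Pi a b) :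
    (B.GF m j.succ).pi a b x = -(B.GF m j.castSucc).pi a b x := by
  induction j using Fin.cases with
  | zero =>
    obtain ⟨H, hH, H0, H1, Hb⟩ := eF_lam_refl m
    rw [CMap.pi_congr (Ψ := B.hdG m H hH Hb 0) (fun n x z => by rw [hdG_f, H0]; rfl), hdG_pi]
    exact CMap.pi_refl _ _ 0 (fun n x z => by rw [hdG_f, H1]; rfl) x
  | succ j =>
    refine CMap.pi_swap _ _ (Fin.castSucc_lt_succ (i := j)).ne (fun n x z => ?_) x
    exact congrArg (fun p : Dl m × I => (B.Q m).smk ends n ((B.W m).smk (bdry m) n x p.1) p.2)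
      (eF_lam_swap j z)

theorem GF_sign (m : ℕ) (i : Fin (m + 2)) (a b : ℕ) (x : (B.W m).Pi a b) :
    (B.GF m i).pi a b x = ((-1 : ℤ) ^ (i : ℕ)) • (B.GF m 0).pi a b x := by
  induction i using Fin.induction with
  | zero => rw [Fin.val_zero, pow_zero, one_smul]
  | succ j ih =>
    rw [hd_step, ih, Fin.val_succ, Fin.val_castSucc, pow_succ, mul_neg_one, neg_smul]

/-- The first differential as a map of spectra. -/
def u (m : ℕ) : SMap (B.Q (m + 1)) (B.Q m).sus := (B.P m).sus.comp (B.D m)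

theorem u_qm (m n : ℕ) (i : Fin (m + 2)) (x : (B.A n).X (m + 1)) {t : Dl (m + 1)}
    (h : t ∈ cone i) : (B.u m).f n (B.qm (m + 1) n x t) =
      (B.Q m).smk ends n (B.qm m n ((B.A n).face (Fin.succAboveOrderEmb i) x) (eF i t).1)
        (eF i t).2 := by
  have h1 : (B.D m).f n (B.qm (m + 1) n x t) = (B.sk m).smk ends n
      (B.top m n ((B.A n).face (Fin.succAboveOrderEmb i) x) (eF i t).1) (cl (2 * rho t - 1)) := by
    refine (B.sus_inc_isEmbedding m n).injective ?_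
    rw [D_qm, SMap.sus_smk, inc_top]
    rcases le_total (1 / 2) (rho t) with h2 | h2
    · rw [map_eF h h2]
    · have h3 : cl (2 * rho t - 1) ∈ ends := Or.inl (cl_of_le (by linarith))
      rw [(B.sk (m + 1)).smk_of_mem ends n _ h3, (B.sk (m + 1)).smk_of_mem ends n _ h3]
  change (B.P m).sus.f n ((B.D m).f n (B.qm (m + 1) n x t)) = _
  rw [h1, SMap.sus_smk, P_top, eF_snd h]

theorem u_T (m a b : ℕ) (c : (B.W (m + 1)).Pi a b) :
    (B.u m).pi (a + (m + 1)) b ((B.T (m + 1)).pi a b c) = (B.GF m 0).pi a b (B.dd a b m c) := by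
  rw [CMap.pi_post _ ((B.T (m + 1)).hdPost (B.u m)) _ fun _ _ _ => rfl,
    CMap.pi_sum _ (fun i => (B.GF m i).hdPre (B.dW m i)) (fun i => lam (m + 1) ⁻¹' cone i)
      (fun i => (isClosed_cone i).preimage continuous_lam) (fun z => exists_cone _)
      (fun i n w z hz => B.W_ind (fun x => B.u_qm m n i x hz)
        ((CMap.f_pt _ n z).trans (CMap.f_pt _ n z).symm) w)
      fun i l hil n w z hz => B.hd_pbd m n _ (eF_mem_pbd_of_le hil.symm (hz i)),
    dd, AddMonoidHom.finsetSum_apply, map_sum]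
  refine Finset.sum_congr rfl fun i _ => ?_
  rw [CMap.pi_pre _ (B.GF m i) (B.dW m i) fun _ _ _ => rfl, GF_sign, AddMonoidHom.smul_apply,
    map_zsmul]

/-- The suspension of the characteristic family is `GF m 0` up to a self map of the cube. -/
theorem exists_cubeMap (m : ℕ) : ∃ E : CubeMap (m + 1), ∀ (a b : ℕ) (c : (B.W m).Pi a b),
    E.pi (B.Q m).sus a b ((B.GF m 0).pi a b c) =
      (B.Q m).susC.pi (a + m) b ((B.T m).pi a b c) := by
  obtain ⟨ε, hε, hb, H, hH, H0, H1, Hb⟩ := exists_eps m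
  refine ⟨⟨ε, hε, hb⟩, fun a b c => ?_⟩
  rw [CubeMap.pi_cmap _ _ (B.hdG m H hH Hb 0) fun n x z => by rw [hdG_f, H0]; rfl, hdG_pi]
  exact CMap.pi_snoc _ _ _ (fun n x z => by rw [hdG_f, H1]; rfl) c

theorem GF_zero (a b : ℕ) (c : (B.W 0).Pi a b) :
    (B.GF 0 0).pi a b c = (B.Q 0).susC.pi a b ((B.T 0).pi a b c) := by
  obtain ⟨H, hH, H0, H1, Hb⟩ := eF_lam_zero
  rw [CMap.pi_congr (Ψ := B.hdG 0 H hH Hb 0) (fun n x z => by rw [hdG_f, H0]; rfl), hdG_pi]
  exact CMap.pi_snoc (B.T 0) (B.Q 0).susC _ (fun n x z => by rw [hdG_f, H1]; rfl) c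

theorem GF_injective (m a b : ℕ) : Function.Injective ((B.GF m 0).pi a b) := by
  obtain ⟨E, hE⟩ := B.exists_cubeMap m
  refine (injective_iff_map_eq_zero _).2 fun c hc => ?_
  have h := hE a b c
  rw [hc, map_zero] at h
  exact (map_eq_zero_iff _ (B.T_bijective m a b).1).1
    ((map_eq_zero_iff _ ((B.Q m).susC_injective (a + m) b)).1 h.symm)

theorem hd_exact (h : ∀ a b m, Function.Exact (B.dd a b (m + 1)) (B.dd a b m)) (m a b : ℕ)
    (y : (B.Q (m + 1)).sus.Pi (a + (m + 1) + 1) b)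
    (hy : (B.u m).sus.pi (a + (m + 1) + 1) b y = 0) :
    y ∈ Set.range ((B.u (m + 1)).pi (a + (m + 1 + 1)) b) := by
  obtain ⟨δ, rfl⟩ := (B.Q (m + 1)).susC_surjective (a + (m + 1)) b y
  obtain ⟨c, rfl⟩ := (B.T_bijective (m + 1) a b).2 δ
  rw [(B.u m).sus_pi_susC, map_eq_zero_iff _ ((B.Q m).sus.susC_injective _ _), B.u_T,
    map_eq_zero_iff _ (B.GF_injective m a b)] at hy
  obtain ⟨c', rfl⟩ := (h a b m c).1 hy
  obtain ⟨E, hE⟩ := B.exists_cubeMap (m + 1)
  refine ⟨E.pi (B.Q (m + 1 + 1)) a b ((B.T (m + 1 + 1)).pi a b c'), ?_⟩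
  rw [E.pi_natural, B.u_T]
  exact hE a b _

/-- Exactness of the cell complex at the level of spectra. -/
theorem exact_u (h : ∀ a b m, Function.Exact (B.dd a b (m + 1)) (B.dd a b m)) (m a b : ℕ)
    (y : (B.Q (m + 1)).sus.Pi a b) (hy : (B.u m).sus.pi a b y = 0) :
    y ∈ Set.range ((B.u (m + 1)).pi a b) :=
  exact_of_shift (B.u (m + 1)) (B.u m).sus (m + 1 + 1) a b
    (fun y hy => B.hd_exact h m a _ y hy) y hy

end SimpSp

end Pool.Agent.Lib.E2
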