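import Pool.Agent.Lib.MP_10be03_gt.HSk

/-! The levels are wedges of the cell spectra. -/

noncomputable section
open scoped unitInterval Topology

namespace Pool.Agent.Lib.E2

namespace Cells
variable {B : SimpSp} (C : Cells B)

/-- Inclusion of a cell spectrum in its level. -/
def sW (m : ℕ) (δ : C.idx m) : SMap (C.Y m δ) (B.W m) where
  f n x := B.wm m n (C.s m δ n x)
  cont n := (B.continuous_wm m n).comp (C.cont_s m δ n)
  f_pt n := B.wm_of_mem (C.s_pt m δ n)
  f_sg n x u := by rw [C.s_sg]; rfl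

open Classical in
/-- The comparison map from the chain groups. -/
def Psi (a b m : ℕ) : C.Ch a b m →+ (B.W m).Pi a b :=
  DFinsupp.sumAddHom fun δ => (C.sW m δ).pi a b

open Classical in
theorem Psi_single (a b m : ℕ) (δ : C.idx m) (x : (C.Y m δ).Pi a b) :
    C.Psi a b m (DFinsupp.single δ x) = (C.sW m δ).pi a b x :=
  DFinsupp.sumAddHom_single _ _ _

open Classical in
/-- Projection of a disjoint union on one based summand. -/
def wedgePrj {ι : Type} {F : ι → Type} (δ : ι) (z : F δ) (p : Σ i, F i) : F δ :=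
  if h : p.1 = δ then h ▸ p.2 else z

theorem wedgePrj_self {ι : Type} {F : ι → Type} (δ : ι) (z y : F δ) :
    wedgePrj δ z ⟨δ, y⟩ = y := dif_pos rfl

theorem wedgePrj_ne {ι : Type} {F : ι → Type} {δ : ι} (z : F δ) {p : Σ i, F i} (h : p.1 ≠ δ) :
    wedgePrj δ z p = z := dif_neg h

theorem continuous_wedgePrj {ι : Type} {F : ι → Type} [∀ i, TopologicalSpace (F i)] (δ : ι)
    (z : F δ) : Continuous (wedgePrj δ z) := by
  refine continuous_sigma fun i => ?_
  by_cases h : i = δ
  · subst h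
    exact continuous_id.congr fun y => (wedgePrj_self i z y).symm
  · exact continuous_const.congr fun y => (wedgePrj_ne z (p := ⟨i, y⟩) h).symm

/-- Retraction of a level on a cell spectrum. -/
def rW (m : ℕ) (δ : C.idx m) : SMap (B.W m) (C.Y m δ) :=
  (B.WP m).lift (fun n x => wedgePrj (F := fun i => (C.Y m i).X n) δ ((C.Y m δ).pt n) (C.r m n x))
    (fun n => (continuous_wedgePrj (F := fun i => (C.Y m i).X n) δ ((C.Y m δ).pt n)).comp
      (C.cont_r m n))
    (fun n x hx => by
      have h := C.r_Z m n x hx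
      generalize C.r m n x = p at h ⊢
      obtain ⟨i, y⟩ := p
      by_cases e : i = δ
      · subst e
        exact (wedgePrj_self _ _ _).trans h
      · exact wedgePrj_ne _ e)
    fun n x u => by
      change wedgePrj δ _ (C.r m (n + 1) (B.sg n m x u)) = _
      rw [C.r_sg]
      generalize C.r m n x = p
      obtain ⟨i, y⟩ := p
      by_cases e : i = δ
      · subst e
        rw [wedgePrj_self, wedgePrj_self]
      · rw [wedgePrj_ne _ e, wedgePrj_ne _ e, SSp.sg_pt]

theorem rW_wm (m : ℕ) (δ : C.idx m) (n : ℕ) (x : (B.A n).X m) :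
    (C.rW m δ).f n (B.wm m n x) = wedgePrj δ ((C.Y m δ).pt n) (C.r m n x) := rfl

theorem rW_Psi (a b m : ℕ) (δ : C.idx m) (c : C.Ch a b m) :
    (C.rW m δ).pi a b (C.Psi a b m c) = c δ := by
  classical
  have h : ((C.rW m δ).pi a b).comp (C.Psi a b m) = DFinsupp.evalAddMonoidHom δ := by
    refine DFinsupp.addHom_ext fun i y => ?_
    rw [AddMonoidHom.comp_apply, Psi_single, ← SMap.pi_comp]
    change _ = (DFinsupp.single i y : C.Ch a b m) δ
    by_cases e : i = δ
    · subst e
      rw [DFinsupp.single_eq_same, SMap.pi_congr (ψ := SMap.id _) (fun n x => ?_), SMap.pi_id]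
      change (C.rW m i).f n (B.wm m n (C.s m i n x)) = x
      rw [rW_wm, C.r_s, wedgePrj_self]
    · rw [DFinsupp.single_eq_of_ne (Ne.symm e)]
      refine SMap.pi_eq_zero_of_pt (fun n x => ?_) _ _ _
      change (C.rW m δ).f n (B.wm m n (C.s m i n x)) = _
      rw [rW_wm, C.r_s, wedgePrj_ne _ e]
  exact DFunLike.congr_fun h c

theorem isOpen_piece (m n : ℕ) (S : Set (C.idx m)) : IsOpen {x | (C.r m n x).1 ∈ S} :=
  (isOpen_sigma_fst_preimage S).preimage (C.cont_r m n)

/-- A compact subset of a level meets finitely many cells. -/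
theorem finite_cells (m n : ℕ) {K : Set ((B.W m).X n)} (hK : IsCompact K) :
    {δ | ∃ x, x ∉ (B.A n).Z m ∧ B.wm m n x ∈ K ∧ (C.r m n x).1 = δ}.Finite := by
  set S := {δ | ∃ x, x ∉ (B.A n).Z m ∧ B.wm m n x ∈ K ∧ (C.r m n x).1 = δ}
  have hx : ∀ δ : S, ∃ x, x ∉ (B.A n).Z m ∧ B.wm m n x ∈ K ∧ (C.r m n x).1 = δ := fun δ => δ.2
  choose x h1 h2 h3 using hx
  have hw : ∀ δ y, B.wm m n (x δ) = B.wm m n y → x δ = y := fun δ y e =>
    (Col.mk_eq_mk_iff.1 e).resolve_right fun h => h1 δ h.1
  have hinj : Function.Injective fun δ => B.wm m n (x δ) := fun δ δ' e =>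
    Subtype.ext (by rw [← h3, ← h3, hw δ _ e])
  have lf : LocallyFinite fun δ : S => ({x δ} : Set ((B.A n).X m)) := fun y => by
    refine ⟨_, (C.isOpen_piece m n {(C.r m n y).1}).mem_nhds rfl, ?_⟩
    refine ((Set.finite_singleton (C.r m n y).1).preimage Subtype.val_injective.injOn).subset ?_
    rintro δ ⟨_, rfl, h⟩
    exact (h3 δ).symm.trans h
  have hcl : ∀ T : Set S, IsClosed ((fun δ => B.wm m n (x δ)) '' T) := fun T => by
    refine Col.isClosed_iff.2 ?_
    have h := (lf.comp_injective (Subtype.val_injective (p := (· ∈ T)))).isClosed_iUnion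
      fun _ => isClosed_singleton
    refine (congrArg IsClosed (Set.ext fun y => ?_)).mp h
    constructor
    · intro hy
      obtain ⟨δ, hδ⟩ := Set.mem_iUnion.1 hy
      exact ⟨δ.1, δ.2, congrArg (B.wm m n) hδ.symm⟩
    · rintro ⟨δ, hδ, e⟩
      exact Set.mem_iUnion.2 ⟨⟨δ, hδ⟩, (hw δ y e).symm⟩
  have lf2 : LocallyFinite fun δ : S => ({B.wm m n (x δ)} : Set ((B.W m).X n)) := fun p => by
    refine ⟨_, (hcl {δ | B.wm m n (x δ) ≠ p}).isOpen_compl.mem_nhds ?_, ?_⟩
    · rintro ⟨δ, h, e⟩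
      exact h e
    · refine ((Set.finite_singleton p).preimage hinj.injOn).subset ?_
      rintro δ ⟨_, rfl, h⟩
      by_contra e
      exact h ⟨δ, e, rfl⟩
  have hf := lf2.finite_nonempty_inter_compact hK
  exact Set.finite_coe_iff.1 (Set.finite_univ_iff.1 (hf.subset fun δ _ => ⟨_, rfl, h2 δ⟩))

theorem isClosed_cell (m n : ℕ) (δ : C.idx m) :
    IsClosed {p | p = (B.W m).pt n ∨ ∃ x, (C.r m n x).1 = δ ∧ B.wm m n x = p} := by
  refine Col.isClosed_iff.2 ?_
  have h := ((B.A n).closed_Z m).union (C.isOpen_piece m n {δ}ᶜ).isClosed_compl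
  refine (congrArg IsClosed (Set.ext fun y => ?_)).mp h
  constructor
  · rintro (h | h)
    · exact Or.inl (B.wm_of_mem h)
    · exact Or.inr ⟨y, not_not.1 h, rfl⟩
  · rintro (h | ⟨x, h, e⟩)
    · exact Or.inl (Col.mk_eq_pt_iff.1 h)
    · rcases Col.mk_eq_mk_iff.1 e with e | e
      · exact Or.inr (not_not.2 (e ▸ h))
      · exact Or.inl e.2

theorem hom_one_of {m n : ℕ} {x : (B.A n).X m} {δ : C.idx m} {y : (C.Y m δ).X n}
    (h : C.r m n x = ⟨δ, y⟩) : C.hom m n x 1 = C.s m δ n y := by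
  rw [C.hom_one, h]

theorem Psi_injective (a b m : ℕ) : Function.Injective (C.Psi a b m) :=
  fun c c' h => DFinsupp.ext fun δ => by rw [← C.rW_Psi a b m δ c, h, C.rW_Psi]

theorem Psi_surjective (a b m : ℕ) : Function.Surjective (C.Psi a b m) := by
  classical
  intro w
  obtain ⟨j, f, rfl⟩ := SSp.cls_surj w
  have hS := C.finite_cells m (b + j) (isCompact_range (HC.cont f))
  set S := {δ | ∃ x, x ∉ (B.A (b + j)).Z m ∧ B.wm m (b + j) x ∈ Set.range (fun t => f t) ∧
    (C.r m (b + j) x).1 = δ}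
  have : Fintype S := hS.fintype
  obtain ⟨F, hF, e1, e2⟩ := (B.WP m).exists_param (n := b + j) (Q := I)
    (fun x u => B.wm m (b + j) (C.hom m (b + j) x u)) ((B.W m).pt (b + j))
    ((B.continuous_wm m _).comp (C.cont_hom m _))
    fun x hx u => B.wm_of_mem (C.hom_Z m _ x u hx)
  have hb : ∀ s, ∀ t ∈ Cube.boundary (Cb a j), F (f t) s = (B.W m).pt (b + j) := fun s t ht => by
    rw [GenLoop.boundary f t ht]
    exact e2 s
  let g : (B.W m).L a b j := HC.mkL (fun t => F (f t) 1)
    (hF.comp ((HC.cont f).prodMk continuous_const)) (hb 1)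
  have h1 : (B.W m).cls a b j f = (B.W m).cls a b j g := by
    refine SSp.cls_of (fun p => F (f p.2) p.1)
      (hF.comp (((HC.cont f).comp continuous_snd).prodMk continuous_fst)) (fun t => ?_)
      (fun t => rfl) hb
    change F (f t) 0 = f t
    refine B.W_ind (p := fun y => F y 0 = y) (fun x => ?_) (e2 0) (f t)
    exact (e1 x 0).trans (congrArg _ (C.hom_zero m _ x))
  have h2 := SSp.cls_split_sum (K := Option S)
    (fun k => k.elim ((fun t => f t) ⁻¹' {(B.W m).pt (b + j)}) fun δ => (fun t => f t) ⁻¹'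
      {p | p = (B.W m).pt (b + j) ∨ ∃ x, (C.r m (b + j) x).1 = δ.1 ∧ B.wm m (b + j) x = p})
    (by
      rintro (_ | δ)
      · exact (Col.isClosed_pt ((B.A (b + j)).closed_Z m)).preimage (HC.cont f)
      · exact (C.isClosed_cell m _ δ.1).preimage (HC.cont f))
    (fun t => by
      by_cases h : f t = (B.W m).pt (b + j)
      · exact ⟨none, h⟩
      · have : ∃ x, B.wm m (b + j) x = f t := by
          revert h
          exact B.W_ind (p := fun y => ¬ y = (B.W m).pt (b + j) → ∃ x, B.wm m (b + j) x = y)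
            (fun x _ => ⟨x, rfl⟩) (fun h => (h rfl).elim) (f t)
        obtain ⟨x, hx⟩ := this
        exact ⟨some ⟨_, x, fun hz => h (hx ▸ B.wm_of_mem hz), ⟨t, hx.symm⟩, rfl⟩,
          Or.inr ⟨x, rfl, hx⟩⟩)
    (fun k => k.elim GenLoop.const fun δ => (C.sW m δ.1).loop ((C.rW m δ.1).loop f))
    (by
      rintro (_ | δ) l hl t ht
      · rfl
      · change (C.sW m δ.1).f _ ((C.rW m δ.1).f _ (f t)) = _
        have hp : f t = (B.W m).pt (b + j) →
            (C.sW m δ.1).f _ ((C.rW m δ.1).f _ (f t)) = (B.W m).pt (b + j) := fun h => by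
          rw [h, SMap.f_pt, SMap.f_pt]
        rcases l with _ | δ'
        · exact hp ht
        · rcases ht with ht | ⟨x, hx, e⟩
          · exact hp ht
          · change _ = f t at e
            rw [← e, rW_wm, wedgePrj_ne _ fun h => hl (congrArg some (Subtype.ext
              (h.symm.trans hx))), SMap.f_pt])
    g
    (by
      rintro (_ | δ) t ht
      · change F (f t) 1 = (B.W m).pt (b + j)
        rw [show f t = (B.W m).pt (b + j) from ht]
        exact e2 1
      · change F (f t) 1 = (C.sW m δ.1).f _ ((C.rW m δ.1).f _ (f t))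
        rcases ht with ht | ⟨x, hx, e⟩
        · rw [show f t = (B.W m).pt (b + j) from ht, SMap.f_pt, SMap.f_pt]
          exact e2 1
        · change _ = f t at e
          obtain ⟨y, hy⟩ : ∃ y, C.r m (b + j) x = ⟨δ.1, y⟩ := by
            rw [← hx]
            exact ⟨_, rfl⟩
          rw [← e, rW_wm, hy, wedgePrj_self]
          exact (e1 x 1).trans (congrArg _ (C.hom_one_of hy)))
  change _ ∈ (C.Psi a b m).range
  rw [h1, h2]
  refine sum_mem ?_
  rintro (_ | δ) -
  · exact ⟨0, (map_zero _).trans (SSp.cls_const j).symm⟩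
  · exact ⟨DFinsupp.single δ.1 ((C.Y m δ.1).cls a b j ((C.rW m δ.1).loop f)),
      (C.Psi_single a b m δ.1 _).trans (SMap.pi_cls _ _)⟩

theorem dW_sW (a b m : ℕ) (i : Fin (m + 2)) (δ : C.idx (m + 1)) (x : (C.Y (m + 1) δ).Pi a b) :
    (B.dW m i).pi a b ((C.sW (m + 1) δ).pi a b x) =
      (C.sW m (C.pullD m i δ)).pi a b ((C.g m i δ).pi a b x) := by
  rw [← SMap.pi_comp, ← SMap.pi_comp]
  refine DFunLike.congr_fun (SMap.pi_homotopy (fun n y u => B.wm m n (C.hom m n
    ((B.A n).face (Fin.succAboveOrderEmb i) (C.s (m + 1) δ n y)) u)) (fun n => ?_)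
    (fun n y => ?_) (fun n y => ?_) (fun n u => ?_) a b) x
  · exact (B.continuous_wm m n).comp ((C.cont_hom m n).comp (((((B.A n).cont_face _).comp
      (C.cont_s (m + 1) δ n)).comp continuous_fst).prodMk continuous_snd))
  · exact congrArg (B.wm m n) (C.hom_zero m n _)
  · exact congrArg (B.wm m n) (C.hom_one_of (C.r_face_s m i δ n y))
  · exact B.wm_of_mem (C.hom_Z m n _ u ((B.A n).face_Z _ _ (C.s_pt (m + 1) δ n)))

theorem Psi_d (a b m : ℕ) (c : C.Ch a b (m + 1)) :
    C.Psi a b m (C.d a b m c) = B.dd a b m (C.Psi a b (m + 1) c) := by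
  classical
  have h : (C.Psi a b m).comp (C.d a b m) = (B.dd a b m).comp (C.Psi a b (m + 1)) := by
    refine DFinsupp.addHom_ext fun δ y => ?_
    rw [AddMonoidHom.comp_apply, AddMonoidHom.comp_apply, Psi_single, d, SimpSp.dd,
      AddMonoidHom.finsetSum_apply, AddMonoidHom.finsetSum_apply, map_sum]
    refine Finset.sum_congr rfl fun i _ => ?_
    rw [AddMonoidHom.zsmul_apply, AddMonoidHom.zsmul_apply, map_zsmul, DFinsupp.sumAddHom_single,
      dW_sW, ← Psi_single]
    rfl
  exact DFunLike.congr_fun h c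

theorem aug_eq (a b : ℕ) (c : C.Ch a b 0) :
    C.aug a b c = (B.skTo 0).pi a b (B.vW.pi a b (C.Psi a b 0 c)) := by
  classical
  have h : C.aug a b = (((B.skTo 0).pi a b).comp (B.vW.pi a b)).comp (C.Psi a b 0) := by
    refine DFinsupp.addHom_ext fun δ y => ?_
    rw [AddMonoidHom.comp_apply, AddMonoidHom.comp_apply, Psi_single, aug,
      DFinsupp.sumAddHom_single, ← SMap.pi_comp, ← SMap.pi_comp]
    exact DFunLike.congr_fun (SMap.pi_congr (fun n x => rfl) a b) y
  exact DFunLike.congr_fun h c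

end Cells

end Pool.Agent.Lib.E2
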