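import Pool.Agent.Lib.MP_10be03_gt.DPrj
import Pool.Agent.Lib.MP_10be03_gt.HD1
import Pool.Agent.Lib.MP_10be03_gt.HWedge

-- part Pool.Agent.Lib.MP_10be03_gt.DCorr
section

/-!
Layer D: the correction factors along the paths.
-/

noncomputable section
open Polynomial

namespace Pool.Agent.Lib.E2

namespace OA

variable {S S' : Type} {T : S → Type}

open Classical in
/-- The factor on the disc `s` of a point `w` of the disc `t`, at time `τ`. -/
def fac (c : OA S) (τ : ℝ) (s t : S) (w : ℂ) : ℂ[X] :=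
  C ((‖c.θ s t‖ ^ τ : ℝ) : ℂ) *
    if s = t then 1 else C (1 - (τ : ℂ)) + C ((τ : ℂ) / c.θ s t) * c.rho s (X - C (c.ap t w))

/-- The product of the factors of all points. -/
def corr (c : OA S) (τ : ℝ) (A : S → Multiset ℂ) (s : S) : ℂ[X] :=
  ∏ᶠ t, ((A t).map (c.fac τ s t)).prod

/-- The direction as a point of the circle. -/
def dir (c : OA S) (s t : S) : Circle := Circle.exp (c.θ s t).arg

/-- The phase on the disc `s`. -/
def ph (c : OA S) (n : S → ℕ) (s : S) : Circle := ∏ᶠ t, c.dir s t ^ n t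

theorem dc_rho_C (c : OA S) (s : S) (a : ℂ) : c.rho s (C a) = C a := by simp [rho]

theorem dc_prod_sum {ι : Type} (I : Finset ι) (D : ι → Multiset ℂ) (f : ℂ → ℂ[X]) :
    ((∑ i ∈ I, D i).map f).prod = ∏ i ∈ I, ((D i).map f).prod := by
  classical
  induction I using Finset.induction_on with
  | empty => simp
  | insert i I hi ih =>
    rw [Finset.sum_insert hi, Finset.prod_insert hi, Multiset.map_add, Multiset.prod_add, ih]

theorem dc_fac_ne (c : OA S) {τ : ℝ} (h0 : 0 ≤ τ) (h1 : τ ≤ 1) (s t : S) {u w : ℂ}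
    (hu : ‖u‖ < 1) (hw : ‖w‖ < 1) : (c.fac τ s t w).eval u ≠ 0 := by
  rw [fac, eval_mul, eval_C]
  refine mul_ne_zero (Complex.ofReal_ne_zero.2
    (Real.rpow_pos_of_pos (norm_pos_iff.2 (c.θ_ne_zero s t)) τ).ne') ?_
  split_ifs with h
  · simp
  · have h2 := c.re_pos h hu hw
    rw [eval_add, eval_mul, eval_C, eval_C, eval_rho, eval_sub, eval_X, eval_C,
      div_mul_eq_mul_div, mul_div_assoc]
    intro e
    have h3 := congrArg Complex.re e
    rw [Complex.add_re, Complex.re_ofReal_mul, Complex.sub_re, Complex.one_re, Complex.ofReal_re,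
      Complex.zero_re] at h3
    rcases h0.eq_or_lt with rfl | h4
    · simp at h3
    · linarith [mul_pos h4 h2]

theorem dc_fac_other (c : OA S) (d : ∀ s, OA (T s)) (τ : ℝ) {s s' : S} (h : s ≠ s') (t : T s)
    (t' : T s') (w : ℂ) : (comp c d).fac τ ⟨s, t⟩ ⟨s', t'⟩ w =
      (d s).rho t (c.fac τ s s' ((d s').ap t' w)) := by
  rw [fac, fac, if_neg h, if_neg fun e => h (congrArg Sigma.fst e), comp_θ_ne c d h, comp_rho,
    comp_ap, map_mul, map_add, map_mul, dc_rho_C, dc_rho_C, dc_rho_C]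

theorem dc_fac_same (c : OA S) (d : ∀ s, OA (T s)) (τ : ℝ) (s : S) (t t' : T s) (w : ℂ) :
    (comp c d).fac τ ⟨s, t⟩ ⟨s, t'⟩ w =
      (d s).rho t (c.fac τ s s ((d s).ap t' w)) * (d s).fac τ t t' w := by
  have h0 : (c.r s : ℂ) ≠ 0 := Complex.ofReal_ne_zero.2 (c.r_pos s).ne'
  rw [fac, fac, fac, if_pos rfl, mul_one, dc_rho_C, comp_θ_same, θ_self, norm_mul,
    Real.mul_rpow (norm_nonneg _) (norm_nonneg _), Complex.ofReal_mul, C_mul, mul_assoc]
  congr 2
  by_cases h : t = t'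
  · rw [if_pos h, if_pos (by rw [h])]
  · rw [if_neg h, if_neg fun e => h (eq_of_heq (Sigma.mk.inj e).2), comp_rho, comp_ap, rho_X_sub,
      map_mul, dc_rho_C, ← mul_assoc, ← C_mul, mul_comm (c.r s : ℂ), div_mul_eq_mul_div,
      mul_div_mul_right _ _ h0]

open Classical in
theorem dc_fac_one (c : OA S) (s t : S) (w : ℂ) : c.rho s (X - C (c.ap t w)) =
    C (c.dir s t : ℂ) * ((if s = t then X - C w else 1) * c.fac 1 s t w) := by
  have h1 : (c.dir s t : ℂ) * (‖c.θ s t‖ : ℝ) = c.θ s t := by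
    rw [dir, Circle.coe_exp, mul_comm, Complex.norm_mul_exp_arg_mul_I]
  rw [fac, Real.rpow_one, mul_left_comm (ite _ _ _), ← mul_assoc, ← C_mul, h1]
  split_ifs with h
  · subst h
    rw [rho_X_sub, θ_self, mul_one]
  · rw [Complex.ofReal_one, sub_self, C_0, zero_add, one_mul, ← mul_assoc, ← C_mul,
      mul_one_div_cancel (c.θ_ne_zero s t), C_1, one_mul]

theorem corr_time_zero (c : OA S) (A : S → Multiset ℂ) (s : S) : c.corr 0 A s = 1 := by
  have h : ∀ t, c.fac 0 s t = fun _ => 1 := fun t => funext fun w => by simp [fac]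
  simp [corr, h]

theorem corr_zero (c : OA S) (τ : ℝ) (s : S) : c.corr τ (fun _ => 0) s = 1 := by
  simp [corr]

theorem one_corr (τ : ℝ) (A : Unit → Multiset ℂ) (s : Unit) : one.corr τ A s = 1 := by
  have h : ∀ t, one.fac τ s t = fun _ => 1 := fun t => funext fun w => by simp [fac]
  simp [corr, h]

variable [Finite S]

theorem corr_add (c : OA S) (τ : ℝ) (A A' : S → Multiset ℂ) (s : S) :
    c.corr τ (fun t => A t + A' t) s = c.corr τ A s * c.corr τ A' s := by
  cases nonempty_fintype S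
  simp only [corr, finprod_eq_prod_of_fintype, Multiset.map_add, Multiset.prod_add,
    Finset.prod_mul_distrib]

theorem corr_ne_zero (c : OA S) {τ : ℝ} (h0 : 0 ≤ τ) (h1 : τ ≤ 1) {A : S → Multiset ℂ}
    (hA : ∀ t, InD (A t)) (s : S) {u : ℂ} (hu : ‖u‖ < 1) : (c.corr τ A s).eval u ≠ 0 := by
  cases nonempty_fintype S
  rw [corr, finprod_eq_prod_of_fintype, eval_prod]
  refine Finset.prod_ne_zero_iff.2 fun t _ => ?_
  rw [eval_multiset_prod, Multiset.map_map]
  refine Multiset.prod_ne_zero fun h => ?_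
  obtain ⟨w, hw, h⟩ := Multiset.mem_map.1 h
  exact dc_fac_ne c h0 h1 s t hu (hA t w hw) h

theorem rel_corr (e : S ≃ S') (c : OA S) (τ : ℝ) (A : S' → Multiset ℂ) (s : S) :
    (rel e c).corr τ A (e s) = c.corr τ (fun t => A (e t)) s := by
  rw [corr, corr, ← finprod_comp_equiv e]
  refine finprod_congr fun t => ?_
  have h : (rel e c).fac τ (e s) (e t) = c.fac τ s t := funext fun w => by
    rw [fac, fac, rel_θ, rel_rho, rel_ap]
    by_cases h : s = t
    · rw [if_pos h, if_pos (congrArg e h)]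
    · rw [if_neg h, if_neg fun k => h (e.injective k)]
  rw [h]

theorem comp_corr [∀ s, Finite (T s)] (c : OA S) (d : ∀ s, OA (T s)) (τ : ℝ)
    (A : (Σ s, T s) → Multiset ℂ) (s : S) (t : T s) :
    (comp c d).corr τ A ⟨s, t⟩ =
      (d s).rho t (c.corr τ (fun s' => (d s').push fun t' => A ⟨s', t'⟩) s) *
        (d s).corr τ (fun t' => A ⟨s, t'⟩) t := by
  classical
  cases nonempty_fintype S
  have := fun s => Fintype.ofFinite (T s)
  simp only [corr, push, finprod_eq_prod_of_fintype, finsum_eq_sum_of_fintype, dc_prod_sum,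
    map_prod, map_multiset_prod, Multiset.map_map]
  rw [Fintype.prod_sigma, ← Finset.mul_prod_erase _ _ (Finset.mem_univ s),
    ← Finset.mul_prod_erase _ _ (Finset.mem_univ s), mul_right_comm, ← Finset.prod_mul_distrib]
  congr 1
  · refine Finset.prod_congr rfl fun t' _ => ?_
    rw [← Multiset.prod_map_mul]
    exact congrArg Multiset.prod (Multiset.map_congr rfl fun w _ => dc_fac_same c d τ s t t' w)
  · refine Finset.prod_congr rfl fun s' hs => Finset.prod_congr rfl fun t' _ => ?_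
    exact congrArg Multiset.prod (Multiset.map_congr rfl fun w _ =>
      dc_fac_other c d τ (Finset.ne_of_mem_erase hs).symm t t' w)

/-- At time one the correction is the restriction of the other factors, up to a phase. -/
theorem rho_pol_push (c : OA S) (A : S → Multiset ℂ) (s : S) :
    c.rho s (pol (c.push A)) =
      C (c.ph (fun t => (A t).card) s : ℂ) * (pol (A s) * c.corr 1 A s) := by
  classical
  cases nonempty_fintype S
  have h1 : (c.ph (fun t => (A t).card) s : ℂ) = ∏ t, (c.dir s t : ℂ) ^ (A t).card := by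
    rw [ph, finprod_eq_prod_of_fintype]
    exact (map_prod Circle.coeHom _ _).trans
      (Finset.prod_congr rfl fun t _ => map_pow Circle.coeHom _ _)
  have h2 : pol (A s) = ∏ t, ((A t).map fun w => if s = t then X - C w else 1).prod := by
    rw [Finset.prod_eq_single s (fun t _ ht => by simp [ht.symm]) (by simp)]
    simp [pol]
  rw [h1, h2, corr, push, finprod_eq_prod_of_fintype, finsum_eq_sum_of_fintype, pol, dc_prod_sum,
    map_prod, map_prod, ← Finset.prod_mul_distrib, ← Finset.prod_mul_distrib]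
  refine Finset.prod_congr rfl fun t _ => ?_
  rw [map_multiset_prod, Multiset.map_map, Multiset.map_map, ← Multiset.prod_map_mul, map_pow,
    ← Multiset.prod_replicate, ← Multiset.map_const', ← Multiset.prod_map_mul]
  exact congrArg Multiset.prod (Multiset.map_congr rfl fun w _ => dc_fac_one c s t w)

end OA

end Pool.Agent.Lib.E2
end
end

-- part Pool.Agent.Lib.MP_10be03_gt.DCP2
section

/-!
Layer D: continuity of the operations of the discs on families.
-/

noncomputable section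
open Polynomial

namespace Pool.Agent.Lib.E2

variable {T : Type} [TopologicalSpace T] {S : Type} {c : T → OA S}

theorem CP.rho (hc : Continuous c) (s : S) {F : T → ℂ[X]} (hF : CP F) :
    CP fun t => (c t).rho s (F t) := by
  exact hF.aeval' ((CP.C' ((OA.continuous_z s).comp hc)).add ((CP.C'
    (Complex.continuous_ofReal.comp ((OA.continuous_r s).comp hc))).mul (CP.const X)))

variable [Finite S]

theorem CD.push (hc : Continuous c) {D : T → S → Multiset ℂ} (hD : ∀ s, CD fun t => D t s) :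
    CD fun t => (c t).push (D t) := by
  have := Fintype.ofFinite S
  simp only [OA.push, finsum_eq_sum_of_fintype]
  exact CD.sum _ fun s _ => (hD s).map ((OA.continuous_z s).comp hc)
    (Complex.continuous_ofReal.comp ((OA.continuous_r s).comp hc))

theorem CP.corr (hc : Continuous c) {τ : T → ℝ} (hτ : Continuous τ) {A : T → S → Multiset ℂ}
    (hA : ∀ s, CD fun t => A t s) (s : S) : CP fun t => (c t).corr (τ t) (A t) s := by
  have := Fintype.ofFinite S
  simp only [OA.corr, finprod_eq_prod_of_fintype]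
  refine CP.prod _ fun s' _ => ?_
  have hθ : Continuous fun t => (c t).θ s s' := (OA.continuous_θ s s').comp hc
  have hτ' : Continuous fun t => (τ t : ℂ) := Complex.continuous_ofReal.comp hτ
  have ha : CP fun t => C ((‖(c t).θ s s'‖ ^ τ t : ℝ) : ℂ) :=
    CP.C' (Complex.continuous_ofReal.comp (hθ.norm.rpow hτ fun t =>
      Or.inl (norm_ne_zero_iff.2 ((c t).θ_ne_zero s s'))))
  have hq : CP fun t => C ((τ t : ℂ) / (c t).θ s s') :=
    CP.C' (hτ'.div hθ fun t => (c t).θ_ne_zero s s')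
  by_cases h : s = s'
  · convert (hA s').lin ha (CP.const 0) using 4 with t w
    rw [OA.fac, if_pos h, mul_one, zero_mul, sub_zero]
  · have h1 : CP fun t => C (1 - (τ t : ℂ)) := CP.C' (continuous_const.sub hτ')
    have e : ∀ t a, (c t).rho s (C a) = C a := fun t a => aeval_C _ a
    convert (hA s').lin (ha.mul (h1.add (hq.mul
      ((CP.rho hc s (CP.const X)).sub (CP.C' ((OA.continuous_z s').comp hc))))))
      (ha.mul (hq.mul (CP.C' (Complex.continuous_ofReal.comp ((OA.continuous_r s').comp hc)))))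
      using 4 with t w
    rw [OA.fac, if_neg h, map_sub ((c t).rho s), e, OA.ap, map_add, map_mul]
    simp only [Function.comp_apply]
    ring

theorem CP.of_isSol (hc : Continuous c) {D : T → S → Multiset ℂ} (hD : ∀ s, CD fun t => D t s)
    (hI : ∀ t s, InD (D t s)) {u v : T → S → ℂ[X]} (hu : ∀ s, CP fun t => u t s)
    (hv : ∀ s, CP fun t => v t s) (hn : ∀ t s, NV (D t s) (u t s)) {g : T → ℂ[X]}
    (hg : ∀ t, (c t).IsSol (D t) (u t) (v t) (g t)) : CP g := by
  classical
  have := Fintype.ofFinite S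
  obtain ⟨N, hN⟩ := (CD.push hc hD).1
  have hle : ∀ t s, (D t s).card ≤ N := fun t s => by
    rw [← hN t, OA.card_push, finsum_eq_sum_of_fintype]
    exact Finset.single_le_sum (f := fun s => (D t s).card) (fun _ _ => Nat.zero_le _)
      (Finset.mem_univ s)
  have hdeg : ∀ t, (g t).degree < N := fun t => hN t ▸ (hg t).1
  let L : T → (Fin N → ℂ) →ₗ[ℂ] (S × Fin N → ℂ) := fun t => LinearMap.pi fun p =>
    lcoeff ℂ p.2 ∘ₗ modByMonicHom (pol (D t p.1)) ∘ₗ LinearMap.mulRight ℂ (u t p.1) ∘ₗ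
      ((c t).rho p.1).toLinearMap ∘ₗ ofFn N
  have hL : ∀ t x p, L t x p =
      (((c t).rho p.1 (ofFn N x) * u t p.1) %ₘ pol (D t p.1)).coeff p.2 := fun _ _ _ => rfl
  have hx : Continuous fun t (l : Fin N) => (g t).coeff l := by
    refine continuous_of_solve (M := fun t => LinearMap.toMatrix' (L t))
      (b := fun t p => ((v t p.1 - u t p.1) %ₘ pol (D t p.1)).coeff p.2)
      (continuous_matrix fun p l => ?_) (fun t x hx => ?_)
      (continuous_pi fun p => (((hv p.1).sub (hu p.1)).modBy (hD p.1)).2 p.2) fun t => ?_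
    · exact (((CP.rho hc p.1 (CP.const (ofFn N (Pi.single l 1)))).mul (hu p.1)).modBy
        (hD p.1)).2 p.2
    · rw [LinearMap.toMatrix'_mulVec] at hx
      refine injective_ofFn N ?_
      rw [map_zero]
      refine eq_zero_of_dvd_of_degree_lt ((c t).crt_dvd (hI t) fun s => (hn t s).dvd_cancel ?_)
        (by rw [degree_pol, hN]; exact ofFn_degree_lt x)
      rw [← modByMonic_eq_zero_iff_dvd (pol_monic _)]
      ext k
      rcases lt_or_ge k N with hk | hk
      · exact (hL t x (s, ⟨k, hk⟩)).symm.trans (congrFun hx _)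
      · refine coeff_eq_zero_of_degree_lt ((degree_modByMonic_lt _ (pol_monic _)).trans_le ?_)
        rw [degree_pol]
        exact_mod_cast (hle t s).trans hk
    · have e : ofFn N (fun l : Fin N => (g t).coeff l) = g t := by
        ext k
        rcases lt_or_ge k N with hk | hk
        · rw [ofFn_coeff_eq_val_of_lt _ hk]
        · rw [ofFn_coeff_eq_zero_of_ge _ hk,
            coeff_eq_zero_of_degree_lt ((hdeg t).trans_le (by exact_mod_cast hk))]
      funext p
      rw [LinearMap.toMatrix'_mulVec, hL, e, modByMonic_eq_of_dvd_sub (pol_monic _)]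
      convert (hg t).2 p.1 using 1
      rw [map_add, map_one]
      ring
  refine ⟨⟨N, fun t => natDegree_le_of_degree_le (hdeg t).le⟩, fun k => ?_⟩
  rcases lt_or_ge k N with hk | hk
  · exact (continuous_apply (⟨k, hk⟩ : Fin N)).comp hx
  · simp only [fun t => coeff_eq_zero_of_degree_lt ((hdeg t).trans_le (Nat.cast_le.2 hk))]
    exact continuous_const

end Pool.Agent.Lib.E2
end
end

-- part Pool.Agent.Lib.MP_10be03_gt.DOp2
section

/-!
Layer D: the operad axioms and the comparison with the little discs.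
-/

noncomputable section

namespace Pool.Agent.Lib.E2

open OA

theorem dop2_cont {S X : Type} [TopologicalSpace X] {f : X → OA S}
    (hz : ∀ s, Continuous fun x => (f x).z s) (hr : ∀ s, Continuous fun x => (f x).r s)
    (hθ : ∀ s t, Continuous fun x => (f x).θ s t) : Continuous f :=
  continuous_induced_rng.2 ((continuous_induced_rng.2
    (continuous_pi fun s => (hz s).prodMk (hr s))).prodMk
      (continuous_pi fun s => continuous_pi (hθ s)))

theorem dop2_rel {S S' : Type} (e : S ≃ S') {c : OA S} {d : OA S'} (hz : ∀ s, c.z s = d.z (e s))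
    (hr : ∀ s, c.r s = d.r (e s)) (hθ : ∀ s t, c.θ s t = d.θ (e s) (e t)) : rel e c = d :=
  ext' (e.surjective.forall.2 fun s => (rel_z e c s).trans (hz s))
    (e.surjective.forall.2 fun s => (rel_r e c s).trans (hr s))
    (e.surjective.forall₂.2 fun s t => (rel_θ e c s t).trans (hθ s t))

theorem dop2_cont_comp {S : Type} {T : S → Type} :
    Continuous fun p : OA S × (∀ s, OA (T s)) => comp p.1 p.2 := by
  have h : ∀ s, Continuous fun p : OA S × (∀ s, OA (T s)) => p.2 s := fun s =>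
    (continuous_apply s).comp continuous_snd
  have hr : ∀ s, Continuous fun p : OA S × (∀ s, OA (T s)) => (p.1.r s : ℂ) := fun s =>
    Complex.continuous_ofReal.comp ((continuous_r s).comp continuous_fst)
  refine dop2_cont (fun ⟨s, t⟩ => ((continuous_z s).comp continuous_fst).add
    ((hr s).mul ((continuous_z t).comp (h s)))) (fun ⟨s, t⟩ =>
    ((continuous_r s).comp continuous_fst).mul ((continuous_r t).comp (h s)))
    fun ⟨s, t⟩ ⟨s', t'⟩ => ?_
  by_cases e : s = s'
  · subst e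
    simp only [comp_θ_same]
    exact (hr s).mul ((continuous_θ t t').comp (h s))
  · simp only [comp_θ_ne _ _ e]
    exact (continuous_θ s s').comp continuous_fst

theorem dop2_comp_one {S : Type} (c : OA S) :
    rel (Equiv.sigmaPUnit S) (comp c fun _ => one) = c := by
  refine dop2_rel _ (fun ⟨s, t⟩ => ?_) (fun ⟨s, t⟩ => ?_) fun ⟨s, t⟩ ⟨s', t'⟩ => ?_
  · rw [comp_z, one_z, mul_zero, add_zero]
    rfl
  · rw [comp_r, one_r, mul_one]
    rfl
  by_cases e : s = s'
  · subst e
    rw [comp_θ_same, one_θ, mul_one]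
    exact (θ_self c s).symm
  · rw [comp_θ_ne _ _ e]
    rfl

theorem dop2_one_comp {T : Unit → Type} (d : ∀ s, OA (T s)) :
    rel (Equiv.uniqueSigma T) (comp one d) = d () := by
  refine ext' (fun t => (comp_z one d () t).trans ?_) (fun t => (comp_r one d () t).trans ?_)
    fun t t' => (comp_θ_same one d () t t').trans ?_ <;> simp

theorem dop2_assoc {S : Type} {T : S → Type} {U : ∀ s, T s → Type} (c : OA S)
    (d : ∀ s, OA (T s)) (f : ∀ s t, OA (U s t)) :
    rel (Equiv.sigmaAssoc U) (comp (comp c d) fun p => f p.1 p.2) =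
      comp c fun s => comp (d s) (f s) := by
  refine dop2_rel _ (fun ⟨⟨s, t⟩, u⟩ => ?_) (fun ⟨⟨s, t⟩, u⟩ => mul_assoc (c.r s) _ _)
    fun ⟨⟨s, t⟩, u⟩ ⟨⟨s', t'⟩, u'⟩ => ?_
  · change _ = (comp c fun s => comp (d s) (f s)).z ⟨s, t, u⟩
    simp only [comp_z, comp_r]
    push_cast
    ring
  change _ = (comp c fun s => comp (d s) (f s)).θ ⟨s, t, u⟩ ⟨s', t', u'⟩
  by_cases e : s = s'
  · subst e
    by_cases e' : t = t'
    · subst e'
      rw [comp_θ_same, comp_θ_same, comp_θ_same, comp_r, Complex.ofReal_mul, mul_assoc]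
    · rw [comp_θ_ne _ _ fun h => e' (eq_of_heq (Sigma.mk.inj h).2), comp_θ_same, comp_θ_same,
        comp_θ_ne _ _ e']
  · rw [comp_θ_ne _ _ fun h => e (Sigma.mk.inj h).1, comp_θ_ne _ _ e, comp_θ_ne _ _ e]

theorem dop2_comp_rel {S S' : Type} {T : S → Type} {T' : S' → Type} (e : S ≃ S')
    (f : ∀ s, T s ≃ T' (e s)) (c : OA S) (d : ∀ s, OA (T s)) (d' : ∀ s, OA (T' s))
    (h : ∀ s, d' (e s) = rel (f s) (d s)) :
    rel (Equiv.sigmaCongr e f) (comp c d) = comp (rel e c) d' := by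
  refine dop2_rel _ (fun ⟨s, t⟩ => ?_) (fun ⟨s, t⟩ => ?_) fun ⟨s, t⟩ ⟨s', t'⟩ => ?_
  · change _ = (comp (rel e c) d').z ⟨e s, f s t⟩
    rw [comp_z, comp_z, h, rel_z, rel_z, rel_r]
  · change _ = (comp (rel e c) d').r ⟨e s, f s t⟩
    rw [comp_r, comp_r, h, rel_r, rel_r]
  change _ = (comp (rel e c) d').θ ⟨e s, f s t⟩ ⟨e s', f s' t'⟩
  by_cases k : s = s'
  · subst k
    rw [comp_θ_same, comp_θ_same, h, rel_r, rel_θ]
  · rw [comp_θ_ne _ _ k, comp_θ_ne _ _ (e.injective.ne k), rel_θ]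

/-- The operad of little discs with separating directions. -/
def opA : Operad where
  O S _ := OA S
  rel e c := OA.rel e c
  one := OA.one
  comp c d := OA.comp c d
  cont_rel := fun e => dop2_cont (fun s => continuous_z (e.symm s))
    (fun s => continuous_r (e.symm s)) fun s t => continuous_θ (e.symm s) (e.symm t)
  cont_comp := dop2_cont_comp
  rel_refl := fun _ => rfl
  rel_trans := fun _ _ _ => rfl
  comp_one := dop2_comp_one
  one_comp := dop2_one_comp
  comp_assoc := dop2_assoc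
  comp_rel := dop2_comp_rel

/-- The underlying little discs. -/
def piA (S : Type) [Finite S] (c : opA.O S) : D2 S := (show OA S from c).1.1

open Classical in
/-- The directions between the centres. -/
def dop2Sec {S : Type} (p : D2 S) : OA S :=
  ⟨(p, fun s t => if s = t then (((p.1 s).2 : ℝ) : ℂ) else (p.1 s).1 - (p.1 t).1),
    fun _ => if_pos rfl, fun s t h => by
      have h1 := p.2.2 s t h
      have h2 := add_pos (p.2.1 s).1 (p.2.1 t).1
      simp only [if_neg h]
      refine ⟨norm_pos_iff.1 (h2.trans_le h1), ?_⟩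
      rw [Complex.mul_conj, Complex.ofReal_re, Complex.normSq_eq_norm_sq, sq]
      exact mul_le_mul_of_nonneg_right h1 (norm_nonneg _)⟩

theorem dop2_cont_sec {S : Type} : Continuous (dop2Sec : D2 S → OA S) := by
  have h : ∀ s, Continuous fun p : D2 S => p.1 s := fun s =>
    (continuous_apply s).comp continuous_subtype_val
  refine dop2_cont (fun s => (h s).fst) (fun s => (h s).snd) fun s t => ?_
  by_cases e : s = t
  · simp only [θ, dop2Sec, if_pos e]
    exact Complex.continuous_ofReal.comp (h s).snd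
  · simp only [θ, dop2Sec, if_neg e]
    exact (h s).fst.sub (h t).fst

theorem dop2_conv {S : Type} {p : D2 S} {θ θ' : S → S → ℂ} (h : IsAng p θ) (h' : IsAng p θ')
    {τ : ℝ} (h0 : 0 ≤ τ) (h1 : τ ≤ 1) :
    IsAng p fun s t => (1 - τ) • θ s t + τ • θ' s t := by
  refine ⟨fun s => ?_, fun s t k => ?_⟩
  · beta_reduce
    rw [h.1, h'.1, ← add_smul, sub_add_cancel, one_smul]
  obtain ⟨a1, a2⟩ := h.2 s t k
  obtain ⟨b1, b2⟩ := h'.2 s t k
  have c0 := add_pos (p.2.1 s).1 (p.2.1 t).1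
  have c1 := add_le_add (mul_le_mul_of_nonneg_left a2 (sub_nonneg.2 h1))
    (mul_le_mul_of_nonneg_left b2 h0)
  have c2 := (convex_Ioi (𝕜 := ℝ) (0 : ℝ)) (mul_pos c0 (norm_pos_iff.2 a1))
    (mul_pos c0 (norm_pos_iff.2 b1)) (sub_nonneg.2 h1) h0 (sub_add_cancel 1 τ)
  have c3 := norm_add_le ((1 - τ) • θ s t) (τ • θ' s t)
  rw [norm_smul, norm_smul, Real.norm_of_nonneg h0, Real.norm_of_nonneg (sub_nonneg.2 h1)] at c3
  have c4 : (((p.1 s).1 - (p.1 t).1) * (starRingEnd ℂ) ((1 - τ) • θ s t + τ • θ' s t)).re =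
      (1 - τ) * (((p.1 s).1 - (p.1 t).1) * (starRingEnd ℂ) (θ s t)).re +
        τ * (((p.1 s).1 - (p.1 t).1) * (starRingEnd ℂ) (θ' s t)).re := by
    simp
    ring
  beta_reduce
  refine ⟨fun e => ?_, ?_⟩
  · rw [e, map_zero, mul_zero, Complex.zero_re] at c4
    exact (lt_of_lt_of_le c2 c1).ne c4
  · rw [c4]
    exact le_trans (by linarith [mul_le_mul_of_nonneg_left c3 c0.le]) c1

theorem isE2_opA : IsE2 opA piA := by
  refine ⟨fun S _ => ?_, fun e c s => congrArg _ (e.symm_apply_apply s), rfl, fun _ _ _ _ => rfl⟩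
  have h : Continuous fun c : OA S => c.1.1 := continuous_subtype_val.fst
  refine ⟨⟨⟨fun c : OA S => c.1.1, h⟩, ⟨dop2Sec, dop2_cont_sec⟩, ⟨⟨⟨fun q : unitInterval × OA S =>
    (⟨(q.2.1.1, fun s t => (1 - (q.1 : ℝ)) • (dop2Sec q.2.1.1).θ s t + (q.1 : ℝ) • q.2.θ s t),
      dop2_conv (dop2Sec q.2.1.1).2 q.2.2 q.1.2.1 q.1.2.2⟩ : OA S), ?_⟩, fun c => ?_, fun c => ?_⟩⟩,
    ContinuousMap.Homotopic.refl _⟩, fun _ => rfl⟩
  · have k : Continuous fun q : unitInterval × OA S => (q.1 : ℝ) :=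
      continuous_subtype_val.comp continuous_fst
    exact dop2_cont (fun s => (continuous_z s).snd') (fun s => (continuous_r s).snd') fun s t =>
      ((continuous_const.sub k).smul ((continuous_θ s t).comp
        (dop2_cont_sec.comp (h.comp continuous_snd)))).add
        (k.smul ((continuous_θ s t).comp continuous_snd))
  · refine ext' (fun _ => rfl) (fun _ => rfl) fun s t => ?_
    change (1 - (0 : ℝ)) • _ + (0 : ℝ) • _ = _
    rw [sub_zero, one_smul, zero_smul, add_zero]
    rfl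
  · refine ext' (fun _ => rfl) (fun _ => rfl) fun s t => ?_
    change (1 - (1 : ℝ)) • _ + (1 : ℝ) • _ = _
    rw [sub_self, one_smul, zero_smul, zero_add]
    rfl

end Pool.Agent.Lib.E2
end
end

-- part Pool.Agent.Lib.MP_10be03_gt.HD2
section

/-! Exactness of the cell complex at the level of spectra. -/

noncomputable section
open scoped unitInterval Topology

namespace Pool.Agent.Lib.E2

theorem SMap.pi_heq {X Y : SSp} (φ : SMap X Y) {a a' : ℕ} (h : a = a') (b : ℕ) {x : X.Pi a b}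
    {x' : X.Pi a' b} (hx : HEq x x') : HEq (φ.pi a b x) (φ.pi a' b x') := by
  subst h
  rw [eq_of_heq hx]

/-- Exactness in one bidegree. -/
def ExAt {X Y Z : SSp} (φ : SMap X Y) (ψ : SMap Y Z) (a b : ℕ) : Prop :=
  ∀ y, ψ.pi a b y = 0 → y ∈ Set.range (φ.pi a b)

theorem ExAt.of_succ {X Y Z : SSp} {φ : SMap X Y} {ψ : SMap Y Z} {a b : ℕ}
    (h : ExAt φ ψ (a + 1) (b + 1)) : ExAt φ ψ a b := fun y hy => by
  obtain ⟨e, he⟩ := exists_shift a b
  obtain ⟨y', rfl⟩ := (e Y).surjective y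
  rw [← he, map_eq_zero_iff _ (e Z).injective] at hy
  obtain ⟨x, rfl⟩ := h y' hy
  exact ⟨e X x, (he X Y φ x).symm⟩

theorem ExAt.of_add {X Y Z : SSp} {φ : SMap X Y} {ψ : SMap Y Z} {a b : ℕ} (k : ℕ)
    (h : ExAt φ ψ (a + k) (b + k)) : ExAt φ ψ a b := by
  induction k with
  | zero => rwa [Nat.add_zero, Nat.add_zero] at h
  | succ k ih =>
    rw [← Nat.add_assoc, ← Nat.add_assoc] at h
    exact ih h.of_succ

namespace SimpSp
variable (B : SimpSp)

theorem exAt_u (h : ∀ a b m, Function.Exact (B.dd a b (m + 1)) (B.dd a b m)) (m a b : ℕ) :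
    ExAt (B.u (m + 1)) (B.u m).sus (a + (m + 1) + 1) b := by
  intro y hy
  obtain ⟨δ, rfl⟩ := (B.Q (m + 1)).susC_surjective (a + (m + 1)) b y
  obtain ⟨c, rfl⟩ := (B.T_bijective (m + 1) a b).2 δ
  have h1 := (B.u m).sus_pi_susC ((B.T (m + 1)).pi a b c)
  have h2 := (map_eq_zero_iff _ ((B.Q m).sus.susC_injective _ _)).1 (h1.symm.trans hy)
  rw [B.u_T] at h2
  obtain ⟨c', rfl⟩ := (h a b m c).1 ((map_eq_zero_iff _ (B.GF_injective m a _)).1 h2)
  obtain ⟨E, hE⟩ := B.exists_cubeMap (m + 1)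
  have e1 := E.pi_natural (B.u (m + 1)) ((B.T (m + 1 + 1)).pi a b c')
  rw [B.u_T (m + 1) a b c'] at e1
  have e2 := e1.trans (hE a b (B.dd a b (m + 1) c'))
  refine ⟨E.pi (B.Q (m + 1 + 1)) a b ((B.T (m + 1 + 1)).pi a b c'), ?_⟩
  exact eq_of_heq (((B.u (m + 1)).pi_heq (Nat.add_assoc a (m + 1) 1) b HEq.rfl).trans
    (heq_of_eq e2))

/-- Exactness of the cell complex at the level of spectra. -/
theorem exact_u' (h : ∀ a b m, Function.Exact (B.dd a b (m + 1)) (B.dd a b m)) (m a b : ℕ)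
    (y : (B.Q (m + 1)).sus.Pi a b) (hy : (B.u m).sus.pi a b y = 0) :
    y ∈ Set.range ((B.u (m + 1)).pi a b) := by
  have := B.exAt_u h m a (b + (m + 1 + 1))
  rw [Nat.add_assoc a (m + 1) 1] at this
  exact this.of_add _ y hy

theorem u_T_zero (a b : ℕ) (c : (B.W (0 + 1)).Pi a b) :
    (B.u 0).pi (a + 1) b ((B.T (0 + 1)).pi a b c) =
      (B.Q 0).susC.pi a b ((B.T 0).pi a b (B.dd a b 0 c)) :=
  eq_of_heq (((B.u 0).pi_heq (a := a + 1) (a' := a + (0 + 1)) rfl b HEq.rfl).trans
    ((heq_of_eq (B.u_T 0 a b c)).trans (heq_of_eq (B.GF_zero a b (B.dd a b 0 c)))))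

end SimpSp

end Pool.Agent.Lib.E2
end
end

-- part Pool.Agent.Lib.MP_10be03_gt.H
section

/-! The cellular theorem. -/

noncomputable section
open scoped unitInterval Topology

namespace Pool.Agent.Lib.E2
open Geo

namespace SimpSp
variable (B : SimpSp)

theorem exact_P (m a b : ℕ) (x : (B.sk (m + 1)).Pi a b) (h : (B.P (m + 1)).pi a b x = 0) :
    x ∈ Set.range ((B.inc m).pi a b) := by
  obtain ⟨y, hy⟩ := B.exact_P_sus m a b x h
  obtain ⟨z, rfl⟩ := (B.sk m).susC_surjective a b y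
  rw [SMap.sus_pi_susC] at hy
  exact ⟨z, (B.sk (m + 1)).susC_injective a b hy⟩

theorem u_pi (m a b : ℕ) (x : (B.Q (m + 1)).Pi a b) :
    (B.u m).pi a b x = (B.P m).sus.pi a b ((B.D m).pi a b x) := SMap.pi_comp _ _ a b x

theorem skTo_inc (m a b : ℕ) (x : (B.sk m).Pi a b) :
    (B.skTo (m + 1)).pi a b ((B.inc m).pi a b x) = (B.skTo m).pi a b x := by
  rw [← SMap.pi_comp]
  exact DFunLike.congr_fun (SMap.pi_congr (fun _ _ => rfl) a b) x

variable (h : ∀ a b m, Function.Exact (B.dd a b (m + 1)) (B.dd a b m))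
include h

/-- A cell class killed by the first differential is the collapse of a class that dies in the
next skeleton. -/
theorem exists_of_u (m a b : ℕ) (δ : (B.Q (m + 1)).Pi a b) (hδ : (B.u m).pi a b δ = 0) :
    ∃ x : (B.sk (m + 1)).Pi a b, (B.P (m + 1)).pi a b x = δ ∧ (B.inc (m + 1)).pi a b x = 0 := by
  obtain ⟨δ', hδ'⟩ := B.exact_u' h m (a + 1) b ((B.Q (m + 1)).susC.pi a b δ)
    (by rw [SMap.sus_pi_susC, hδ, map_zero])
  obtain ⟨x, hx⟩ := (B.sk (m + 1)).susC_surjective a b ((B.D (m + 1)).pi (a + 1) b δ')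
  refine ⟨x, (B.Q (m + 1)).susC_injective a b ?_, (B.sk (m + 2)).susC_injective a b ?_⟩
  · rw [← hδ', u_pi, ← hx, SMap.sus_pi_susC]
  · rw [map_zero, ← SMap.sus_pi_susC, hx, B.inc_D_pi]

theorem skTo_mem_range (a b m : ℕ) (x : (B.sk m).Pi a b) :
    (B.skTo m).pi a b x ∈ Set.range ((B.skTo 0).pi a b) := by
  induction m with
  | zero => exact ⟨x, rfl⟩
  | succ m ih =>
    obtain ⟨x', h1, h2⟩ := B.exists_of_u h m a b ((B.P (m + 1)).pi a b x)
      (by rw [u_pi, B.D_P_pi, map_zero])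
    obtain ⟨z, hz⟩ := B.exact_P m a b (x - x') (by rw [map_sub, h1, sub_self])
    have e : (B.skTo (m + 1)).pi a b x = (B.skTo m).pi a b z := by
      rw [← B.skTo_inc m, hz, map_sub, ← B.skTo_inc (m + 1) a b x', h2, map_zero, sub_zero]
    rw [e]
    exact ih z

theorem inc_eq_zero_of (a b m : ℕ) (x : (B.sk m).Pi a b)
    (hx : (B.inc (m + 1)).pi a b ((B.inc m).pi a b x) = 0) : (B.inc m).pi a b x = 0 := by
  obtain ⟨δ, hδ⟩ := B.exact_inc (m + 1) a b _ hx
  obtain ⟨z, hz, -⟩ := B.exists_of_u h (m + 1) (a + 1) b δ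
    (by rw [u_pi, hδ, SMap.sus_pi_susC, B.P_inc_pi, map_zero])
  refine (B.sk (m + 1)).susC_injective a b ?_
  rw [← hδ, ← hz, B.D_P_pi, map_zero]

theorem inc_zero_eq_zero (a b k : ℕ) (x : (B.sk 0).Pi a b)
    (hx : (B.skLe (Nat.zero_le k)).pi a b x = 0) : (B.inc 0).pi a b x = 0 := by
  have step : ∀ m, (B.skLe (Nat.zero_le (m + 1))).pi a b x =
      (B.inc m).pi a b ((B.skLe (Nat.zero_le m)).pi a b x) := fun m => by
    rw [← SMap.pi_comp]
    exact DFunLike.congr_fun (SMap.pi_congr (fun _ _ => rfl) a b) x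
  have key : ∀ m, (B.skLe (Nat.zero_le (m + 1))).pi a b x = 0 → (B.inc 0).pi a b x = 0 := by
    intro m
    induction m with
    | zero => exact fun h => h
    | succ m ih =>
      intro hm
      rw [step, step] at hm
      exact ih ((step m).trans (B.inc_eq_zero_of h a b m _ hm))
  exact key k (by rw [step, hx, map_zero])

omit h in
theorem vW_surjective (a b : ℕ) : Function.Surjective (B.vW.pi a b) := by
  let ρ : SMap (B.Q 0) (B.W 0) := (B.W 0).smLift (bdry 0) (fun _ w _ => w)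
    (fun _ => continuous_fst) (fun _ _ => rfl)
    (fun n w d hd => by
      obtain ⟨i, hi⟩ := hd
      have h1 : d i = 1 := stdSimplex.eq_one_of_unique (X := Fin 1) d i
      exact absurd (h1.symm.trans hi) one_ne_zero) fun _ _ _ _ => rfl
  intro x
  refine ⟨ρ.pi a b ((B.P 0).pi a b x), ?_⟩
  rw [← SMap.pi_comp, ← SMap.pi_comp, ← SMap.pi_id a b x, ← SMap.pi_comp]
  refine DFunLike.congr_fun (SMap.pi_congr (fun n q => ?_) a b) x
  obtain ⟨y, rfl⟩ := B.sk_zero_ind q
  change B.vW.f n (ρ.f n ((B.P 0).f n (B.top 0 n y _))) = _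
  rw [B.P_top]
  rfl

omit h in
theorem P_vW (a b : ℕ) (w : (B.W 0).Pi a b) :
    (B.P 0).pi a b (B.vW.pi a b w) = (B.T 0).pi a b w := by
  rw [← SMap.pi_comp]
  refine (CMap.pi_zero (B.T 0) _ (fun n w z => ?_) w).symm
  refine B.W_ind (p := fun w => (B.T 0).f n w z = ((B.P 0).comp B.vW).f n w) (fun x => ?_) ?_ w
  · change _ = (B.P 0).f n (B.top 0 n x _)
    rw [B.P_top, Subsingleton.elim (stdSimplex.vertex 0 : Dl 0) (lam 0 z)]
    rfl
  · rw [(B.T 0).f_pt, SMap.f_pt]

omit h in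
theorem inc_vW_dd (a b : ℕ) (c : (B.W (0 + 1)).Pi a b) :
    (B.inc 0).pi a b (B.vW.pi a b (B.dd a b 0 c)) = 0 := by
  refine (B.sk (0 + 1)).susC_injective a b ?_
  obtain ⟨x, hx⟩ := (B.sk 0).susC_surjective a b ((B.D 0).pi (a + 1) b ((B.T (0 + 1)).pi a b c))
  obtain ⟨w, rfl⟩ := B.vW_surjective a b x
  have e := B.u_T_zero a b c
  rw [u_pi, ← hx, SMap.sus_pi_susC, P_vW] at e
  rw [← (B.T_bijective 0 a b).1 ((B.Q 0).susC_injective a b e), map_zero, ← SMap.sus_pi_susC, hx,
    B.inc_D_pi]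

theorem main_W (a b : ℕ) :
    Function.Surjective (fun w => (B.skTo 0).pi a b (B.vW.pi a b w)) ∧
      ∀ w, (B.skTo 0).pi a b (B.vW.pi a b w) = 0 ↔ w ∈ Set.range (B.dd a b 0) := by
  refine ⟨fun y => ?_, fun w => ⟨fun hw => ?_, ?_⟩⟩
  · obtain ⟨m, x, rfl⟩ := B.exists_skTo a b y
    obtain ⟨x', hx'⟩ := B.skTo_mem_range h a b m x
    obtain ⟨w, rfl⟩ := B.vW_surjective a b x'
    exact ⟨w, hx'⟩
  · obtain ⟨k, hk⟩ := B.exists_skLe a b 0 _ hw
    obtain ⟨δ, hδ⟩ := B.exact_inc 0 a b _ (B.inc_zero_eq_zero h a b (0 + k) _ hk)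
    obtain ⟨c, rfl⟩ := (B.T_bijective (0 + 1) a b).2 δ
    have e := B.u_T_zero a b c
    rw [u_pi, hδ, SMap.sus_pi_susC, P_vW] at e
    exact ⟨c, ((B.T_bijective 0 a b).1 ((B.Q 0).susC_injective a b e)).symm⟩
  · rintro ⟨c, rfl⟩
    rw [← B.skTo_inc 0, inc_vW_dd, map_zero]

end SimpSp

theorem cell_main : CellMain := by
  intro B C hC a b
  have hb : ∀ a b m, Function.Bijective (C.Psi a b m) := fun a b m =>
    ⟨C.Psi_injective a b m, C.Psi_surjective a b m⟩
  have h : ∀ a b m, Function.Exact (B.dd a b (m + 1)) (B.dd a b m) := fun a b m y => by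
    obtain ⟨c, rfl⟩ := (hb a b (m + 1)).2 y
    rw [← C.Psi_d, map_eq_zero_iff _ (hb a b m).1, hC a b m c]
    constructor
    · rintro ⟨c', rfl⟩
      exact ⟨_, (C.Psi_d a b (m + 1) c').symm⟩
    · rintro ⟨y, hy⟩
      obtain ⟨c', rfl⟩ := (hb a b (m + 2)).2 y
      exact ⟨c', (hb a b (m + 1)).1 ((C.Psi_d a b (m + 1) c').trans hy)⟩
  obtain ⟨h1, h2⟩ := B.main_W h a b
  refine ⟨fun y => ?_, fun c => ?_⟩
  · obtain ⟨w, rfl⟩ := h1 y
    obtain ⟨c, rfl⟩ := (hb a b 0).2 w
    exact ⟨c, C.aug_eq a b c⟩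
  · rw [C.aug_eq, h2]
    constructor
    · rintro ⟨y, hy⟩
      obtain ⟨c', rfl⟩ := (hb a b 1).2 y
      exact ⟨c', (hb a b 0).1 ((C.Psi_d a b 0 c').trans hy)⟩
    · rintro ⟨c', rfl⟩
      exact ⟨_, (C.Psi_d a b 0 c').symm⟩

end Pool.Agent.Lib.E2
end
end
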