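import Pool.Agent.Lib.MP_10be03_gt.Orth

/-!
Maps that are continuous on compact Hausdorff test spaces (the morphisms of the convenient
category of compactly generated spaces) and their descent along products of quotient maps.
-/

noncomputable section
open Topology

namespace Pool.Agent.Lib.E2

variable {Y Z T : Type} [TopologicalSpace Y] [TopologicalSpace Z] [TopologicalSpace T]

theorem KCont.of_continuous {f : Y → Z} (hf : Continuous f) : KCont f :=
  fun _ _ _ _ _ hg => hf.comp hg

theorem KCont.comp {f : Z → T} {g : Y → Z} (hf : KCont f) (hg : KCont g) : KCont (f ∘ g) :=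
  fun K _ _ _ h hh => hf K (g ∘ h) (hg K h hh)

theorem KCont.comp_continuous {f : Z → T} {g : Y → Z} (hf : KCont f) (hg : Continuous g) :
    KCont (fun y => f (g y)) :=
  hf.comp (KCont.of_continuous hg)

theorem KCont.continuous_comp {f : Z → T} {g : Y → Z} (hf : Continuous f) (hg : KCont g) :
    KCont (fun y => f (g y)) :=
  (KCont.of_continuous hf).comp hg

theorem KCont.congr {f g : Y → Z} (hf : KCont f) (h : ∀ y, f y = g y) : KCont g :=
  (funext h : f = g) ▸ hf

theorem KCont.continuous [CompactlyGeneratedSpace Y] {f : Y → Z} (hf : KCont f) :
    Continuous f :=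
  continuous_from_compactlyGeneratedSpace f fun K _ _ _ g hg => hf K g hg

/-- A compact Hausdorff parameter and a compactly generated variable: honest continuity. -/
theorem KCont.continuous_prod {K A : Type} [TopologicalSpace K] [CompactSpace K] [T2Space K]
    [TopologicalSpace A] [CompactlyGeneratedSpace A] {f : K × A → T} (hf : KCont f) :
    Continuous f := by
  let c : A → C(K, T) := fun a => ⟨fun k => f (k, a), hf K (fun k => (k, a)) (by fun_prop)⟩
  have hc : Continuous c := by
    refine continuous_from_compactlyGeneratedSpace c fun L _ _ _ g hg => ?_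
    exact (ContinuousMap.curry
      ⟨_, hf (L × K) (fun p => (p.2, g p.1)) (by fun_prop)⟩).continuous
  exact (ContinuousMap.continuous_uncurry_of_continuous ⟨c, hc⟩).comp continuous_swap

/-- Descent along one quotient map. -/
theorem KCont.quot_right {P A Q : Type} [TopologicalSpace P] [TopologicalSpace A]
    [TopologicalSpace Q] [CompactlyGeneratedSpace A] {q : A → Q} (hq : IsQuotientMap q)
    {F : P × Q → T} (h : KCont fun p : P × A => F (p.1, q p.2)) : KCont F := by
  intro K _ _ _ g hg
  have h1 : Continuous fun p : K × A => F ((g p.1).1, q p.2) :=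
    KCont.continuous_prod (h.comp_continuous
      (g := fun p : K × A => ((g p.1).1, p.2)) (by fun_prop))
  have h2 : Continuous fun p : K × Q => F ((g p.1).1, p.2) :=
    hq.continuous_lift_prod_right h1
  exact h2.comp (f := fun k => (k, (g k).2)) (by fun_prop)

/-- Descent along a finite product of quotient maps. -/
theorem KCont.quot_pi {ι : Type} [Finite ι] :
    ∀ {A Q : ι → Type} [∀ i, TopologicalSpace (A i)] [∀ i, TopologicalSpace (Q i)]
      [∀ i, CompactlyGeneratedSpace (A i)] {q : ∀ i, A i → Q i}
      (_ : ∀ i, IsQuotientMap (q i)) {P : Type} [TopologicalSpace P] {F : P × (∀ i, Q i) → T}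
      (_ : KCont fun p : P × (∀ i, A i) => F (p.1, fun i => q i (p.2 i))), KCont F := by
  induction ι using Finite.induction_empty_option with
  | of_equiv e ih =>
    intro A Q _ _ _ q hq P _ F h
    have h1 := ih (A := fun a => A (e a)) (Q := fun a => Q (e a)) (fun a => hq (e a))
      (F := fun p => F (p.1, Homeomorph.piCongrLeft (Y := Q) e p.2)) (by
        have h2 := h.comp_continuous
          (g := fun p : P × (∀ a, A (e a)) => (p.1, Homeomorph.piCongrLeft (Y := A) e p.2))
          (by fun_prop)
        refine h2.congr fun p => congrArg F (Prod.ext rfl ?_)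
        funext i
        obtain ⟨a, rfl⟩ := e.surjective i
        simp [Homeomorph.piCongrLeft])
    have h3 := h1.comp_continuous
      (g := fun p : P × (∀ i, Q i) => (p.1, (Homeomorph.piCongrLeft (Y := Q) e).symm p.2))
      (by fun_prop)
    exact h3.congr fun p => congrArg F (Prod.ext rfl (Homeomorph.apply_symm_apply _ _))
  | h_empty =>
    intro A Q _ _ _ q _ P _ F h
    have h1 := h.comp_continuous
      (g := fun p : P × (∀ i, Q i) => (p.1, fun i => (PEmpty.elim i : A i)))
      (continuous_fst.prodMk continuous_const)
    exact h1.congr fun p => congrArg F (Prod.ext rfl (Subsingleton.elim _ _))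
  | h_option ih =>
    rename_i α _
    intro A Q _ _ _ q hq P _ F h
    have cA : Continuous fun p : (P × (∀ a : α, A (some a))) × A none =>
        (p.1.1, fun i : Option α => (Option.rec p.2 p.1.2 i : A i)) :=
      (continuous_fst.comp continuous_fst).prodMk (continuous_pi fun i => by
        cases i with
        | none => exact continuous_snd
        | some a => exact (continuous_apply a).comp (continuous_snd.comp continuous_fst))
    have h1 : KCont fun p : (P × (∀ a : α, A (some a))) × Q none =>
        F (p.1.1, fun i : Option α => (Option.rec p.2 (fun a => q _ (p.1.2 a)) i : Q i)) := by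
      refine KCont.quot_right (hq none) ?_
      refine (h.comp_continuous cA).congr fun p => congrArg F (Prod.ext rfl ?_)
      funext i
      cases i <;> rfl
    have h2 := ih (A := fun a => A (some a)) (Q := fun a => Q (some a)) (fun a => hq (some a))
      (P := P × Q none)
      (F := fun p => F (p.1.1, fun i : Option α => (Option.rec p.1.2 p.2 i : Q i)))
      (h1.comp_continuous
        (g := fun p : (P × Q none) × (∀ a : α, A (some a)) => ((p.1.1, p.2), p.1.2))
        (by fun_prop))
    have h3 := h2.comp_continuous
      (g := fun p : P × (∀ i, Q i) => ((p.1, p.2 none), fun a : α => p.2 (some a)))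
      (by fun_prop)
    refine h3.congr fun p => congrArg F (Prod.ext rfl ?_)
    funext i
    cases i <;> rfl

end Pool.Agent.Lib.E2
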