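import Pool.Agent.Lib.MP_10be03_gt.DChM
import Pool.Agent.Lib.MP_10be03_gt.H
import Pool.Agent.Lib.MP_10be03_gt.NTyp
import Pool.Agent.Lib.MP_10be03_gt.KCont

-- part Pool.Agent.Lib.MP_10be03_gt.DBlk
section

/-!
Layer D: the product of metrics over the discs and its block decomposition, for one species.
-/

noncomputable section
open Polynomial
open scoped Matrix

namespace Pool.Agent.Lib.E2

namespace OA

variable {S S' : Type} {T : S → Type}

/-- The orthogonal sum of the metrics on the discs. -/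
def mulF (c : OA S) (G : S → Frm) : Frm :=
  ∑ᶠ s, ((G s).comp (c.rho s).toLinearMap).compl₂ (c.rho s).toLinearMap

/-- The block isometry of the disc `s` into the metric `G₀`. -/
def blkM (c : OA S) (n ns : ℕ) (G₀ Gs : Frm) (s : S) : Matrix (Fin n) (Fin ns) ℂ :=
  (matOf n G₀ (tau ns Gs ∘ₗ (c.rho s).toLinearMap))ᴴ

theorem one_mulF (G : Frm) : one.mulF (fun _ => G) = G := by
  rw [mulF, finsum_unique]
  exact LinearMap.ext₂ fun f g => by simp

theorem one_blkM {D : Multiset ℂ} {G : Frm} {n : ℕ} (h : IsMet D G) (hn : D.card = n) :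
    one.blkM n n G G () = 1 := by
  rw [blkM, Matrix.conjTranspose_eq_one]
  exact h.mat_ext hn fun f => by
    rw [h.matOf_tau hn fun f hf => by simpa using (h.tau_eq_zero hn f).2 hf]
    simp

theorem rel_blkM (e : S ≃ S') (c : OA S) (n ns : ℕ) (G₀ Gs : Frm) (s : S) :
    (rel e c).blkM n ns G₀ Gs (e s) = c.blkM n ns G₀ Gs s := by
  simp [blkM]

variable [Finite S]

theorem mulF_apply (c : OA S) (G : S → Frm) (f g : ℂ[X]) :
    c.mulF G f g = ∑ᶠ s, G s (c.rho s f) (c.rho s g) := by
  cases nonempty_fintype S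
  simp only [mulF, finsum_eq_sum_of_fintype, LinearMap.sum_apply]
  rfl

theorem rel_mulF (e : S ≃ S') (c : OA S) (G : S' → Frm) :
    (rel e c).mulF G = c.mulF fun s => G (e s) := by
  rw [mulF, ← finsum_comp_equiv e]
  exact finsum_congr fun s => by rw [rel_rho]

theorem comp_mulF [∀ s, Finite (T s)] (c : OA S) (d : ∀ s, OA (T s)) (G : (Σ s, T s) → Frm) :
    (comp c d).mulF G = c.mulF fun s => (d s).mulF fun t => G ⟨s, t⟩ := by
  cases nonempty_fintype S
  have := fun s => Fintype.ofFinite (T s)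
  refine LinearMap.ext₂ fun f g => ?_
  simp only [mulF_apply, finsum_eq_sum_of_fintype, Fintype.sum_sigma, comp_rho]

variable {c : OA S} {D : S → Multiset ℂ} {G : S → Frm} {n : ℕ} {ns : S → ℕ}

theorem isMet_mulF (hD : ∀ s, InD (D s)) (h : ∀ s, IsMet (D s) (G s)) :
    IsMet (c.push D) (c.mulF G) := by
  cases nonempty_fintype S
  refine ⟨fun f g => ?_, fun f => ?_, fun f => ⟨fun h0 => c.crt_dvd hD fun s => ?_, fun h0 => ?_⟩⟩
  · simp only [mulF_apply, finsum_eq_sum_of_fintype, map_sum, (h _).herm]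
  · rw [mulF_apply, finsum_eq_sum_of_fintype, Complex.re_sum]
    exact Finset.sum_nonneg fun s _ => (h s).nonneg _
  · have h1 := congrArg Complex.re h0
    rw [mulF_apply, finsum_eq_sum_of_fintype, Complex.re_sum, Complex.zero_re,
      Finset.sum_eq_zero_iff_of_nonneg fun s _ => (h s).nonneg _] at h1
    exact ((h s).ker _).1 (Complex.ext (h1 s (Finset.mem_univ s))
      (Complex.conj_eq_iff_im.1 ((h s).herm _ _)))
  · rw [mulF_apply, finsum_eq_sum_of_fintype]
    exact Finset.sum_eq_zero fun s _ => ((h s).ker _).2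
      ((c.dvd_rho_push D s).trans (_root_.map_dvd (c.rho s) h0))

theorem blk_tau (hD : ∀ s, InD (D s)) (h : ∀ s, IsMet (D s) (G s)) (hn : (c.push D).card = n)
    (hs : ∀ s, (D s).card = ns s) (s : S) (f : ℂ[X]) :
    (c.blkM n (ns s) (c.mulF G) (G s) s)ᴴ *ᵥ tau n (c.mulF G) f =
      tau (ns s) (G s) (c.rho s f) := by
  rw [blkM, Matrix.conjTranspose_conjTranspose]
  exact (isMet_mulF hD h).matOf_tau hn (fun f hf => ((h s).tau_eq_zero (hs s) (c.rho s f)).2
    ((c.dvd_rho_push D s).trans (_root_.map_dvd (c.rho s) hf))) f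

theorem blk_sum (hD : ∀ s, InD (D s)) (h : ∀ s, IsMet (D s) (G s)) (hn : (c.push D).card = n)
    (hs : ∀ s, (D s).card = ns s) :
    ∑ᶠ s, c.blkM n (ns s) (c.mulF G) (G s) s * (c.blkM n (ns s) (c.mulF G) (G s) s)ᴴ = 1 := by
  cases nonempty_fintype S
  have hm := isMet_mulF (c := c) hD h
  refine hm.mat_ext hn fun g => ?_
  refine funext fun k => ?_
  have e : ∀ y : Fin n → ℂ, y k = star (tau n (c.mulF G) (sig n (c.mulF G) k)) ⬝ᵥ y := fun y => by
    rw [hm.tau_sig hn]
    simp
  rw [e (_ *ᵥ _), e (1 *ᵥ _), Matrix.one_mulVec, hm.tau_dot hn, mulF_apply, finsum_eq_sum_of_fintype,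
    finsum_eq_sum_of_fintype, Matrix.sum_mulVec, dotProduct_sum]
  refine Finset.sum_congr rfl fun s _ => ?_
  rw [← Matrix.mulVec_mulVec, blk_tau hD h hn hs, ← (h s).tau_dot (hs s),
    ← blk_tau hD h hn hs s (sig _ _ _), Matrix.star_mulVec, Matrix.conjTranspose_conjTranspose,
    Matrix.dotProduct_mulVec]

theorem dblk_lift (hD : ∀ s, InD (D s)) (h : ∀ s, IsMet (D s) (G s)) (hn : (c.push D).card = n)
    (hs : ∀ s, (D s).card = ns s) (s : S) (f : ℂ[X]) :
    ∃ g, c.blkM n (ns s) (c.mulF G) (G s) s *ᵥ tau (ns s) (G s) f = tau n (c.mulF G) g ∧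
      tau (ns s) (G s) (c.rho s g) = tau (ns s) (G s) f ∧
      ∀ t, t ≠ s → tau (ns t) (G t) (c.rho t g) = 0 := by
  classical
  cases nonempty_fintype S
  obtain ⟨g, -, hg⟩ := c.exists_isSol hD (u := fun _ => 1) (fun _ _ _ => by simp)
    fun t => if t = s then f else 0
  have h1 : tau (ns s) (G s) (c.rho s (1 + g)) = tau (ns s) (G s) f := by
    rw [← sub_eq_zero, ← map_sub, (h s).tau_eq_zero (hs s)]
    simpa using hg s
  have h2 : ∀ t, t ≠ s → tau (ns t) (G t) (c.rho t (1 + g)) = 0 := fun t ht => by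
    rw [(h t).tau_eq_zero (hs t)]
    simpa [ht] using hg t
  refine ⟨1 + g, ?_, h1, h2⟩
  rw [← Matrix.one_mulVec (tau n _ _), ← blk_sum hD h hn hs, finsum_eq_sum_of_fintype,
    Matrix.sum_mulVec, Fintype.sum_eq_single s fun t ht => by
      rw [← Matrix.mulVec_mulVec, blk_tau hD h hn hs, h2 t ht, Matrix.mulVec_zero],
    ← Matrix.mulVec_mulVec, blk_tau hD h hn hs, h1]

theorem blk_iso (hD : ∀ s, InD (D s)) (h : ∀ s, IsMet (D s) (G s)) (hn : (c.push D).card = n)
    (hs : ∀ s, (D s).card = ns s) (s : S) :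
    (c.blkM n (ns s) (c.mulF G) (G s) s)ᴴ * c.blkM n (ns s) (c.mulF G) (G s) s = 1 := by
  refine (h s).mat_ext (hs s) fun f => ?_
  obtain ⟨g, h1, h2, -⟩ := dblk_lift hD h hn hs s f
  rw [← Matrix.mulVec_mulVec, h1, blk_tau hD h hn hs, h2, Matrix.one_mulVec]

theorem blk_orth (hD : ∀ s, InD (D s)) (h : ∀ s, IsMet (D s) (G s)) (hn : (c.push D).card = n)
    (hs : ∀ s, (D s).card = ns s) {s t : S} (hst : s ≠ t) :
    (c.blkM n (ns s) (c.mulF G) (G s) s)ᴴ * c.blkM n (ns t) (c.mulF G) (G t) t = 0 := by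
  refine (h t).mat_ext (hs t) fun f => ?_
  obtain ⟨g, h1, -, h2⟩ := dblk_lift hD h hn hs t f
  rw [← Matrix.mulVec_mulVec, h1, blk_tau hD h hn hs, h2 s hst, Matrix.zero_mulVec]

theorem blk_comp [∀ s, Finite (T s)] (c : OA S) (d : ∀ s, OA (T s))
    {D : (Σ s, T s) → Multiset ℂ} {G : (Σ s, T s) → Frm} (hD : ∀ p, InD (D p))
    (h : ∀ p, IsMet (D p) (G p)) {n k l : ℕ} (s : S) (t : T s)
    (hn : ((comp c d).push D).card = n) (hk : ((d s).push fun t => D ⟨s, t⟩).card = k)
    (hl : (D ⟨s, t⟩).card = l) :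
    (comp c d).blkM n l ((comp c d).mulF G) (G ⟨s, t⟩) ⟨s, t⟩ =
      c.blkM n k ((comp c d).mulF G) ((d s).mulF fun t => G ⟨s, t⟩) s *
        (d s).blkM k l ((d s).mulF fun t => G ⟨s, t⟩) (G ⟨s, t⟩) t := by
  subst hk hl
  refine Matrix.conjTranspose_injective ((isMet_mulF hD h).mat_ext hn fun f => ?_)
  rw [blk_tau hD h hn (fun _ => rfl), Matrix.conjTranspose_mul, ← Matrix.mulVec_mulVec, comp_mulF,
    blk_tau (D := fun s => (d s).push fun t => D ⟨s, t⟩)
      (ns := fun s => ((d s).push fun t => D ⟨s, t⟩).card)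
      (fun s => (d s).inD_push fun t => hD ⟨s, t⟩)
      (fun s => isMet_mulF (fun t => hD ⟨s, t⟩) fun t => h ⟨s, t⟩) (comp_push c d D ▸ hn)
      fun _ => rfl,
    blk_tau (D := fun t => D ⟨s, t⟩) (ns := fun t => (D ⟨s, t⟩).card) (fun t => hD ⟨s, t⟩)
      (fun t => h ⟨s, t⟩) rfl fun _ => rfl, comp_rho]

/-- The projection onto the ideal of a sum of subdivisors is the block sum. -/
theorem prj_blk (hD : ∀ s, InD (D s)) (h : ∀ s, IsMet (D s) (G s)) (hn : (c.push D).card = n)
    (hs : ∀ s, (D s).card = ns s) {Q R : S → Multiset ℂ} (hQ : ∀ s, D s = Q s + R s) {d : ℕ}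
    {ds : S → ℕ} (hd : (c.push R).card = d) (hds : ∀ s, (R s).card = ds s) :
    dprj n d (c.mulF G) (pol (c.push Q)) = ∑ᶠ s, c.blkM n (ns s) (c.mulF G) (G s) s *
      dprj (ns s) (ds s) (G s) (pol (Q s)) * (c.blkM n (ns s) (c.mulF G) (G s) s)ᴴ := by
  cases nonempty_fintype S
  have hm := isMet_mulF (c := c) hD h
  have e : c.push D = c.push Q + c.push R := by rw [← push_add, ← funext hQ]
  have hp := fun s => (h s).prj_proj (hs s) (hQ s) (hds s)
  rw [finsum_eq_sum_of_fintype]
  generalize hq : ∑ s, c.blkM n (ns s) (c.mulF G) (G s) s *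
    dprj (ns s) (ds s) (G s) (pol (Q s)) * (c.blkM n (ns s) (c.mulF G) (G s) s)ᴴ = q
  have h1 : qᴴ = q := by
    rw [← hq, Matrix.conjTranspose_sum]
    exact Finset.sum_congr rfl fun s _ => by
      rw [Matrix.conjTranspose_mul, Matrix.conjTranspose_mul, Matrix.conjTranspose_conjTranspose,
        show (dprj (ns s) (ds s) (G s) (pol (Q s)))ᴴ = _ from (hp s).2, Matrix.mul_assoc]
  have h2 : q * dprj n d (c.mulF G) (pol (c.push Q)) = dprj n d (c.mulF G) (pol (c.push Q)) := by
    refine hm.mat_ext hn fun f => ?_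
    obtain ⟨g, g1, g2⟩ := hm.prj_range hn e hd (tau n (c.mulF G) f)
    rw [← Matrix.mulVec_mulVec, g2, ← hq]
    conv_rhs => rw [← Matrix.one_mulVec (tau n _ _), ← blk_sum hD h hn hs, finsum_eq_sum_of_fintype]
    rw [Matrix.sum_mulVec, Matrix.sum_mulVec]
    refine Finset.sum_congr rfl fun s _ => ?_
    rw [← Matrix.mulVec_mulVec, ← Matrix.mulVec_mulVec, ← Matrix.mulVec_mulVec, blk_tau hD h hn hs,
      (h s).prj_tau (hs s) (hQ s) (hds s)
        ((c.dvd_rho_push Q s).trans (_root_.map_dvd (c.rho s) g1))]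
  have h3 : dprj n d (c.mulF G) (pol (c.push Q)) * q = q := by
    refine hm.mat_ext hn fun f => ?_
    obtain ⟨g, hg⟩ := hm.tau_surj hn (q *ᵥ tau n (c.mulF G) f)
    rw [← Matrix.mulVec_mulVec, ← hg]
    refine hm.prj_tau hn e hd (c.crt_dvd (fun s w hw => hD s w (by simp [hQ s, hw])) fun s => ?_)
    have h4 : (c.blkM n (ns s) (c.mulF G) (G s) s)ᴴ * q =
        dprj (ns s) (ds s) (G s) (pol (Q s)) * (c.blkM n (ns s) (c.mulF G) (G s) s)ᴴ := by
      rw [← hq, Matrix.mul_sum, Fintype.sum_eq_single s fun t ht => by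
        rw [← Matrix.mul_assoc, ← Matrix.mul_assoc, blk_orth hD h hn hs ht.symm, Matrix.zero_mul,
          Matrix.zero_mul], ← Matrix.mul_assoc, ← Matrix.mul_assoc, blk_iso hD h hn hs,
        Matrix.one_mul]
    rw [← (h s).prj_fix_iff (hs s) (hQ s) (hds s), ← blk_tau hD h hn hs, hg, Matrix.mulVec_mulVec,
      Matrix.mulVec_mulVec, Matrix.mul_assoc, h4, ← Matrix.mul_assoc, (hp s).1.eq,
      Matrix.mulVec_mulVec, h4]
  have h5 : (dprj n d (c.mulF G) (pol (c.push Q)))ᴴ = _ := (hm.prj_proj hn e hd).2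
  rw [← h5, ← h2, Matrix.conjTranspose_mul, h1, h5, h3]

end OA

variable {T : Type} [TopologicalSpace T] {S : Type} [Finite S] {c : T → OA S}

theorem CF.mulF (hc : Continuous c) {G : T → S → Frm} (hG : ∀ s, CF fun t => G t s) :
    CF fun t => (c t).mulF (G t) := by
  cases nonempty_fintype S
  intro k l
  simp only [OA.mulF_apply, finsum_eq_sum_of_fintype]
  exact continuous_finsetSum _ fun s _ =>
    (hG s).apply (CP.rho hc s (CP.const _)) (CP.rho hc s (CP.const _))

theorem continuous_blkM (hc : Continuous c) {G : T → S → Frm} (hG : ∀ s, CF fun t => G t s)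
    {D : T → S → Multiset ℂ} (hD : ∀ t s, InD (D t s)) (h : ∀ t s, IsMet (D t s) (G t s))
    {n ns : ℕ} (hn : ∀ t, ((c t).push (D t)).card = n) (s : S) (hs : ∀ t, (D t s).card = ns) :
    Continuous fun t => (c t).blkM n ns ((c t).mulF (G t)) (G t s) s := by
  exact ((CF.mulF hc hG).matOf (fun t => OA.isMet_mulF (hD t) (h t)) hn
    (L := fun t => tau ns (G t s) ∘ₗ ((c t).rho s).toLinearMap) fun k =>
    (hG s).tau (fun t => h t s) hs (CP.rho hc s (CP.const (X ^ k)))).matrix_conjTranspose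

end Pool.Agent.Lib.E2
end
end

-- part Pool.Agent.Lib.MP_10be03_gt.DBlk2
section

/-!
Layer D: the product of morphisms over the discs, for one species.
-/

noncomputable section
open Polynomial
open scoped Matrix

namespace Pool.Agent.Lib.E2

namespace OA

variable {S : Type} [Finite S] {c : OA S} {D A B D' : S → Multiset ℂ} {E : S → ℂ[X]}
  {G G' : S → Frm} {ns nas nbs ns' : S → ℕ} {n na nb n' : ℕ} {E₀ : ℂ[X]} {κ : S → ℂ}

/-- The hypotheses for the product of morphisms: on the disc `s` the multiplier restricts to the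
multiplier of the factor up to the phase `κ s`. -/
structure IsProd (c : OA S) (ns nas nbs ns' : S → ℕ) (n na nb n' : ℕ)
    (D A B D' : S → Multiset ℂ) (E : S → ℂ[X]) (G G' : S → Frm) (E₀ : ℂ[X]) (κ : S → ℂ) :
    Prop where
  mor : ∀ s, IsMor (ns s) (nas s) (nbs s) (ns' s) (D s) (A s) (B s) (D' s) (E s) (G s) (G' s)
  inD : ∀ s, InD (D' s)
  hn : (c.push D).card = n
  hna : (c.push A).card = na
  hnb : (c.push B).card = nb
  hn' : (c.push D').card = n'
  nv : NV (c.push D) E₀
  norm : ∀ s, ‖κ s‖ = 1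
  dvd : ∀ s, pol (A s + D s) ∣ c.rho s (pol (c.push A) * E₀) - C (κ s) * (pol (A s) * E s)

namespace IsProd

theorem dblk2_eq (h : IsProd c ns nas nbs ns' n na nb n' D A B D' E G G' E₀ κ) :
    c.push D' = c.push D + c.push A + c.push B := by
  rw [← push_add, ← push_add]
  exact congrArg c.push (funext fun s => (h.mor s).eq)

omit [Finite S] in
theorem dblk2_inD (h : IsProd c ns nas nbs ns' n na nb n' D A B D' E G G' E₀ κ) (s : S) :
    InD (D s) := fun w hw => h.inD s w (by simp [(h.mor s).eq, hw])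

theorem pb_sum (h : IsProd c ns nas nbs ns' n na nb n' D A B D' E G G' E₀ κ) :
    pbM n' nb (c.mulF G') (c.push D) (c.push A) =
      ∑ᶠ s, c.blkM n' (ns' s) (c.mulF G') (G' s) s * pbM (ns' s) (nbs s) (G' s) (D s) (A s) *
        (c.blkM n' (ns' s) (c.mulF G') (G' s) s)ᴴ := by
  rw [pbM, ← push_add]
  exact prj_blk h.inD (fun s => (h.mor s).met') h.hn' (fun s => (h.mor s).hn') (R := B)
    (fun s => by rw [(h.mor s).eq, add_comm (D s)]) h.hnb fun s => (h.mor s).hnb

theorem pa_sum (h : IsProd c ns nas nbs ns' n na nb n' D A B D' E G G' E₀ κ) :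
    paM n' n nb (c.mulF G') (c.push A) =
      ∑ᶠ s, c.blkM n' (ns' s) (c.mulF G') (G' s) s * paM (ns' s) (ns s) (nbs s) (G' s) (A s) *
        (c.blkM n' (ns' s) (c.mulF G') (G' s) s)ᴴ := by
  have := Fintype.ofFinite S
  rw [paM, prj_blk h.inD (fun s => (h.mor s).met') h.hn' (fun s => (h.mor s).hn')
    (R := fun s => D s + B s) (ds := fun s => ns s + nbs s)
    (fun s => by rw [(h.mor s).eq, add_comm (D s), add_assoc])
    (by rw [push_add, Multiset.card_add, h.hn, h.hnb])
    (fun s => by rw [Multiset.card_add, (h.mor s).hn, (h.mor s).hnb]),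
    ← blk_sum h.inD (fun s => (h.mor s).met') h.hn' fun s => (h.mor s).hn']
  simp only [finsum_eq_sum_of_fintype, paM, Matrix.mul_sub, Matrix.sub_mul, Matrix.mul_one,
    Finset.sum_sub_distrib]

theorem blk_phiL (h : IsProd c ns nas nbs ns' n na nb n' D A B D' E G G' E₀ κ) (s : S)
    (f : ℂ[X]) : (c.blkM n' (ns' s) (c.mulF G') (G' s) s)ᴴ *ᵥ
      phiL n' nb (c.mulF G') (c.push D) (c.push A) E₀ f =
      κ s • phiL (ns' s) (nbs s) (G' s) (D s) (A s) (E s) (c.rho s f) := by
  have := Fintype.ofFinite S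
  have hm := h.mor s
  have e : (c.blkM n' (ns' s) (c.mulF G') (G' s) s)ᴴ * pbM n' nb (c.mulF G') (c.push D) (c.push A) =
      pbM (ns' s) (nbs s) (G' s) (D s) (A s) * (c.blkM n' (ns' s) (c.mulF G') (G' s) s)ᴴ := by
    rw [h.pb_sum, finsum_eq_sum_of_fintype, Matrix.mul_sum, Finset.sum_eq_single s
      (fun t _ ht => ?_) (by simp), ← Matrix.mul_assoc, ← Matrix.mul_assoc,
      blk_iso h.inD (fun s => (h.mor s).met') h.hn' fun s => (h.mor s).hn', Matrix.one_mul]
    rw [← Matrix.mul_assoc, ← Matrix.mul_assoc, blk_orth h.inD (fun s => (h.mor s).met') h.hn'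
      (fun s => (h.mor s).hn') ht.symm, Matrix.zero_mul, Matrix.zero_mul]
  have e' := hm.met'.prj_tau hm.hn' (Q := A s + D s) (R := B s)
    (by rw [hm.eq, add_comm (D s)]) hm.hnb ((h.dvd s).mul_right (c.rho s f))
  rw [pbM, pbM] at e
  rw [phiL_apply, phiL_apply, Matrix.mulVec_mulVec, Matrix.mul_sub, e, Matrix.mul_one,
    Matrix.sub_mulVec, ← Matrix.mulVec_mulVec,
    blk_tau h.inD (fun s => (h.mor s).met') h.hn' fun s => (h.mor s).hn', map_mul,
    Matrix.sub_mulVec, Matrix.one_mulVec, smul_sub, sub_eq_sub_iff_sub_eq_sub,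
    ← Matrix.mulVec_smul, ← Matrix.mulVec_sub, ← map_smul, ← map_sub, smul_eq_C_mul,
    ← mul_assoc (C _), ← sub_mul, e']

theorem isMor (h : IsProd c ns nas nbs ns' n na nb n' D A B D' E G G' E₀ κ) :
    IsMor n na nb n' (c.push D) (c.push A) (c.push B) (c.push D') E₀ (c.mulF G) (c.mulF G') := by
  have := Fintype.ofFinite S
  refine ⟨h.dblk2_eq, h.hn, h.hna, h.hnb, h.hn', isMet_mulF h.inD fun s => (h.mor s).met', h.nv,
    LinearMap.ext₂ fun f g => ?_⟩
  rw [pb, ← h.dblk2_eq, h.hn', h.hnb, pullForm_apply, mulF_apply,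
    ← blk_sum h.inD (fun s => (h.mor s).met') h.hn' fun s => (h.mor s).hn',
    finsum_eq_sum_of_fintype, finsum_eq_sum_of_fintype, Matrix.sum_mulVec, dotProduct_sum]
  refine Finset.sum_congr rfl fun s _ => ?_
  have e : star (κ s) * κ s = 1 := by
    rw [Complex.star_def, Complex.conj_mul', h.norm, Complex.ofReal_one, one_pow]
  rw [(h.mor s).apply, ← Matrix.mulVec_mulVec, Matrix.dotProduct_mulVec,
    ← Matrix.conjTranspose_conjTranspose (c.blkM n' _ _ _ s), ← Matrix.star_mulVec,
    Matrix.conjTranspose_conjTranspose, h.blk_phiL, h.blk_phiL, star_smul, smul_dotProduct,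
    dotProduct_smul, smul_smul, e, one_smul]

theorem phi_blk (h : IsProd c ns nas nbs ns' n na nb n' D A B D' E G G' E₀ κ) (s : S) :
    phiM n' n nb (c.mulF G) (c.mulF G') (c.push D) (c.push A) E₀ *
        c.blkM n (ns s) (c.mulF G) (G s) s =
      κ s • (c.blkM n' (ns' s) (c.mulF G') (G' s) s *
        phiM (ns' s) (ns s) (nbs s) (G s) (G' s) (D s) (A s) (E s)) := by
  have := Fintype.ofFinite S
  have e : ∀ t, (c.blkM n' (ns' t) (c.mulF G') (G' t) t)ᴴ *
      phiM n' n nb (c.mulF G) (c.mulF G') (c.push D) (c.push A) E₀ =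
      κ t • (phiM (ns' t) (ns t) (nbs t) (G t) (G' t) (D t) (A t) (E t) *
        (c.blkM n (ns t) (c.mulF G) (G t) t)ᴴ) := fun t =>
    h.isMor.met.mat_ext h.hn fun f => by
      rw [← Matrix.mulVec_mulVec, h.isMor.phi_tau, h.blk_phiL, Matrix.smul_mulVec,
        ← Matrix.mulVec_mulVec, blk_tau h.dblk2_inD (fun s => (h.mor s).met) h.hn
          fun s => (h.mor s).hn, (h.mor t).phi_tau]
  rw [← Matrix.one_mul (phiM n' n nb _ _ _ _ E₀),
    ← blk_sum h.inD (fun s => (h.mor s).met') h.hn' fun s => (h.mor s).hn',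
    finsum_eq_sum_of_fintype, Matrix.sum_mul, Matrix.sum_mul, Finset.sum_eq_single s
      (fun t _ ht => ?_) (by simp), Matrix.mul_assoc (c.blkM _ _ _ _ _), e, Matrix.mul_smul,
    Matrix.smul_mul, Matrix.mul_assoc, Matrix.mul_assoc,
    blk_iso h.dblk2_inD (fun s => (h.mor s).met) h.hn fun s => (h.mor s).hn, Matrix.mul_one]
  rw [Matrix.mul_assoc (c.blkM _ _ _ _ _), e, Matrix.mul_smul, Matrix.smul_mul, Matrix.mul_assoc,
    Matrix.mul_assoc, blk_orth h.dblk2_inD (fun s => (h.mor s).met) h.hn (fun s => (h.mor s).hn) ht,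
    Matrix.mul_zero, Matrix.mul_zero, smul_zero]

end IsProd

end OA

end Pool.Agent.Lib.E2
end
end

-- part Pool.Agent.Lib.MP_10be03_gt.DMul2
section

/-!
Layer D: the action of the operad on chains and the block decompositions.
-/

noncomputable section
open Polynomial
open scoped Matrix

namespace Pool.Agent.Lib.E2

namespace Ch

variable {ι σ : Type} [Fintype ι] {pos : σ → Finset ι} {m m' : ℕ} {S S' : Type} [Finite S]

theorem card_mul (c : OA S) (x : S → Ch pos m) (j : Fin (m + 1)) (a : σ) :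
    (c.push fun s => sp pos ((x s).p.D j) a).card =
      nuOf pos ((PCh.mul c fun s => (x s).p).deg j) a := by
  rw [← PCh.sp_push]
  exact card_sp _ _ _

theorem isProd (c : OA S) (x : S → Ch pos m) {i j : Fin (m + 1)} (h : i ≤ j) (a : σ) :
    c.IsProd (fun s => nuOf pos ((x s).p.deg i) a) (fun s => nuOf pos ((x s).p.dg i j).1 a)
      (fun s => nuOf pos ((x s).p.dg i j).2 a) (fun s => nuOf pos ((x s).p.deg j) a)
      (nuOf pos ((PCh.mul c fun s => (x s).p).deg i) a)
      (nuOf pos ((PCh.mul c fun s => (x s).p).dg i j).1 a)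
      (nuOf pos ((PCh.mul c fun s => (x s).p).dg i j).2 a)
      (nuOf pos ((PCh.mul c fun s => (x s).p).deg j) a)
      (fun s => sp pos ((x s).p.D i) a) (fun s => sp pos ((x s).p.A i j) a)
      (fun s => sp pos ((x s).p.B i j) a) (fun s => sp pos ((x s).p.D j) a)
      (fun s => (x s).p.E pos i j a) (fun s => (x s).G i a) (fun s => (x s).G j a)
      ((PCh.mul c fun s => (x s).p).E pos i j a)
      fun s => ∏ col ∈ pos a, (PCh.phs c (fun s => (x s).p) i j s col : ℂ) where
  mor s := (x s).isMor h a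
  inD s := (x s).p.inD_sp pos j a
  hn := card_mul c x i a
  hna := by
    rw [← PCh.sp_push]
    exact card_sp _ _ _
  hnb := by
    rw [← PCh.sp_push]
    exact card_sp _ _ _
  hn' := card_mul c x j a
  nv := by
    rw [← PCh.sp_push]
    exact (PCh.mul c fun s => (x s).p).E_nv pos i j a
  norm s := by simp
  dvd s := PCh.mul_dvd pos c (fun s => (x s).p) i j a s

theorem sp_mul_D (c : OA S) (x : S → PCh ι m) (j : Fin (m + 1)) (a : σ) :
    sp pos ((PCh.mul c x).D j) a = c.push fun s => sp pos ((x s).D j) a :=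
  PCh.sp_push pos c (fun s => (x s).D j) a

theorem sp_mul_A (c : OA S) (x : S → PCh ι m) (i j : Fin (m + 1)) (a : σ) :
    sp pos ((PCh.mul c x).A i j) a = c.push fun s => sp pos ((x s).A i j) a :=
  PCh.sp_push pos c (fun s => (x s).A i j) a

theorem sp_mul_B (c : OA S) (x : S → PCh ι m) (i j : Fin (m + 1)) (a : σ) :
    sp pos ((PCh.mul c x).B i j) a = c.push fun s => sp pos ((x s).B i j) a :=
  PCh.sp_push pos c (fun s => (x s).B i j) a

/-- The product of chains. -/
def mul (c : OA S) (x : S → Ch pos m) : Ch pos m where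
  p := PCh.mul c fun s => (x s).p
  G j a := c.mulF fun s => (x s).G j a
  met j a := by
    rw [sp_mul_D]
    exact OA.isMet_mulF (fun s => (x s).p.inD_sp pos j a) fun s => (x s).met j a
  pbk i j h a := by
    rw [sp_mul_D, sp_mul_A, sp_mul_B]
    exact (isProd c x h a).isMor.pull

theorem mul_pull (ψ : Fin (m + 1) →o Fin (m' + 1)) (c : OA S) (x : S → Ch pos m') :
    mul c (fun s => pull ψ (x s)) = pull ψ (mul c x) := rfl

theorem mul_one (x : Ch pos m) : mul OA.one (fun _ => x) = x :=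
  Ch.ext (PCh.mul_one x.p) (funext fun j => funext fun a => OA.one_mulF (x.G j a))

theorem mul_rel [Finite S'] (e : S ≃ S') (c : OA S) (x : S' → Ch pos m) :
    mul (OA.rel e c) x = mul c fun s => x (e s) :=
  Ch.ext (PCh.mul_rel e c fun s => (x s).p)
    (funext fun j => funext fun a => OA.rel_mulF e c fun s => (x s).G j a)

theorem mul_assoc {T : S → Type} [∀ s, Finite (T s)] (c : OA S) (d : ∀ s, OA (T s))
    (x : (Σ s, T s) → Ch pos m) :
    mul (OA.comp c d) x = mul c fun s => mul (d s) fun t => x ⟨s, t⟩ :=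
  Ch.ext (PCh.mul_assoc c d fun p => (x p).p)
    (funext fun j => funext fun a => OA.comp_mulF c d fun p => (x p).G j a)

/-- The block decomposition of the modes of a product. -/
def blk (c : OA S) (x : S → Ch pos m) (j : Fin (m + 1)) (s : S) : RM σ := fun a =>
  raw (c.blkM (nuOf pos ((mul c x).p.deg j) a) (nuOf pos ((x s).p.deg j) a) ((mul c x).G j a)
    ((x s).G j a) s)

theorem isBlk (c : OA S) (x : S → Ch pos m) (j : Fin (m + 1)) :
    IsBlk (fun s => nuOf pos ((x s).p.deg j)) (nuOf pos ((mul c x).p.deg j)) (blk c x j) where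
  iso s a := by
    simp only [blk, mat_raw]
    exact OA.blk_iso (ns := fun s => nuOf pos ((x s).p.deg j) a)
      (fun s => (x s).p.inD_sp pos j a) (fun s => (x s).met j a) (card_mul c x j a)
      (fun _ => card_sp _ _ _) s
  orth s t h a := by
    simp only [blk, mat_raw]
    exact OA.blk_orth (ns := fun s => nuOf pos ((x s).p.deg j) a)
      (fun s => (x s).p.inD_sp pos j a) (fun s => (x s).met j a) (card_mul c x j a)
      (fun _ => card_sp _ _ _) h
  sum a := by
    simp only [blk, mat_raw]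
    exact OA.blk_sum (ns := fun s => nuOf pos ((x s).p.deg j) a)
      (fun s => (x s).p.inD_sp pos j a) (fun s => (x s).met j a) (card_mul c x j a)
      fun _ => card_sp _ _ _

theorem blk_pull (ψ : Fin (m + 1) →o Fin (m' + 1)) (c : OA S) (x : S → Ch pos m')
    (j : Fin (m + 1)) : blk c (fun s => pull ψ (x s)) j = blk c x (ψ j) := rfl

theorem blk_one (x : Ch pos m) (j : Fin (m + 1)) (a : σ) :
    mat (blk OA.one (fun _ => x) j () a) (nuOf pos (x.p.deg j) a) (nuOf pos (x.p.deg j) a) = 1 := by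
  unfold blk
  rw [mul_one, mat_raw]
  exact OA.one_blkM (x.met j a) (card_sp _ _ _)

theorem blk_rel [Finite S'] (e : S ≃ S') (c : OA S) (x : S' → Ch pos m) (j : Fin (m + 1))
    (s : S) : blk (OA.rel e c) x j (e s) = blk c (fun s => x (e s)) j s := by
  funext a
  unfold blk
  rw [mul_rel, OA.rel_blkM]

theorem blk_assoc {T : S → Type} [∀ s, Finite (T s)] (c : OA S) (d : ∀ s, OA (T s))
    (x : (Σ s, T s) → Ch pos m) (j : Fin (m + 1)) (s : S) (t : T s) (a : σ) :
    mat (blk (OA.comp c d) x j ⟨s, t⟩ a) (nuOf pos ((mul (OA.comp c d) x).p.deg j) a)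
        (nuOf pos ((x ⟨s, t⟩).p.deg j) a) =
      mat (blk c (fun s => mul (d s) fun t => x ⟨s, t⟩) j s a)
          (nuOf pos ((mul (OA.comp c d) x).p.deg j) a)
          (nuOf pos ((mul (d s) fun t => x ⟨s, t⟩).p.deg j) a) *
        mat (blk (d s) (fun t => x ⟨s, t⟩) j t a)
          (nuOf pos ((mul (d s) fun t => x ⟨s, t⟩).p.deg j) a)
          (nuOf pos ((x ⟨s, t⟩).p.deg j) a) := by
  unfold blk
  rw [← mul_assoc, mat_raw, mat_raw, mat_raw]
  exact OA.blk_comp c d (fun p => (x p).p.inD_sp pos j a) (fun p => (x p).met j a) s t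
    (card_mul (OA.comp c d) x j a) (card_mul (d s) (fun t => x ⟨s, t⟩) j a) (card_sp _ _ _)

theorem compat [DecidableEq ι] (c : OA S) (x : S → Ch pos m) (i j : Fin (m + 1)) (h : i ≤ j) :
    Compat (wtOf pos) (fun s => nuOf pos ((x s).p.deg i)) (fun s => nuOf pos ((x s).p.deg j))
      (nuOf pos ((mul c x).p.deg i)) (nuOf pos ((mul c x).p.deg j)) (blk c x i) (blk c x j)
      (fun s => (x s).mor i j) ((mul c x).mor i j) where
  φ := ⟨PCh.phs c (fun s => (x s).p) i j, fun s a => by
    have e : phase (PCh.phs c (fun s => (x s).p) i j s) (wtOf pos a) =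
        ∏ col ∈ pos a, (PCh.phs c (fun s => (x s).p) i j s col : ℂ) := by
      simp [phase, wtOf, Finset.prod_ite_mem]
    simp only [blk, mor, mat_raw]
    rw [e]
    have h1 := (isProd c x h a).phi_blk s
    rw [← sp_mul_D, ← sp_mul_A] at h1
    exact h1⟩
  p1 a := by
    simp only [blk, mor, mat_raw]
    have h1 := (isProd c x h a).pa_sum
    rw [← sp_mul_A] at h1
    exact h1
  p2 a := by
    simp only [blk, mor, mat_raw]
    have h1 := (isProd c x h a).pb_sum
    rw [← sp_mul_D, ← sp_mul_A] at h1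
    exact h1

end Ch

end Pool.Agent.Lib.E2
end
end

-- part Pool.Agent.Lib.MP_10be03_gt.DMulC
section

/-!
Layer D: continuity of the product and of the block decompositions.
-/

noncomputable section
open Polynomial
open scoped Matrix

namespace Pool.Agent.Lib.E2

variable {ι σ : Type} [Fintype ι] {pos : σ → Finset ι} {m : ℕ} {S : Type} [Finite S]
  {T : Type} [TopologicalSpace T]

theorem FamP.mul {c : T → OA S} (hc : Continuous c) {x : T → S → PCh ι m}
    (hx : ∀ s, FamP fun t => x t s) : FamP fun t => PCh.mul (c t) (x t) where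
  D i col := CD.push hc fun s => (hx s).D i col
  A i j col := CD.push hc fun s => (hx s).A i j col
  B i j col := CD.push hc fun s => (hx s).B i j col
  η i j col := CP.of_isSol (c := fun q : T × unitInterval => c q.1)
    (D := fun q s => ∑ c', (x q.1 s).D i c')
    (u := fun q => (c q.1).corr q.2 fun s => (x q.1 s).A i j col)
    (v := fun q s => 1 + (x q.1 s).η i j col q.2) (hc.comp continuous_fst)
    (fun s => (CD.sum Finset.univ fun c' _ => (hx s).D i c').comp continuous_fst)
    (fun q s => (x q.1 s).inD_tot i)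
    (fun s => CP.corr (c := fun q : T × unitInterval => c q.1)
      (A := fun q s => (x q.1 s).A i j col) (hc.comp continuous_fst)
      (continuous_subtype_val.comp continuous_snd)
      (fun s => ((hx s).A i j col).comp continuous_fst) s)
    (fun s => (CP.const 1).add ((hx s).η i j col))
    (fun q => PCh.nv_corr (c q.1) (x q.1) i i j col q.2)
    fun q => PCh.mulSol (c q.1) (x q.1) i j col q.2

theorem Fam.mul {c : T → OA S} (hc : Continuous c) {x : T → S → Ch pos m}
    (hx : ∀ s, Fam fun t => x t s) : Fam fun t => Ch.mul (c t) (x t) where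
  p := FamP.mul hc fun s => (hx s).p
  G i a := CF.mulF hc fun s => (hx s).G i a

theorem Ch.lc_dds : IsLocallyConstant fun p : OA S × (S → Ch pos m) => fun s => (p.2 s).p.dd := by
  refine (IsLocallyConstant.iff_eventually_eq _).2 fun p => ?_
  have h : ∀ s, ∀ᶠ q : OA S × (S → Ch pos m) in nhds p, (q.2 s).p.dd = (p.2 s).p.dd := fun s =>
    (IsLocallyConstant.iff_eventually_eq _).1
      (Ch.lc_dd.comp_continuous ((continuous_apply s).comp continuous_snd)) p
  exact (Filter.eventually_all.2 h).mono fun q hq => funext hq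

theorem Ch.fam_fibre (v : S → EncN ι m) (s : S) :
    Fam fun t : {p : OA S × (S → Ch pos m) // (fun s => (p.2 s).p.dd) = v} => t.1.2 s :=
  Fam.of_continuous ((continuous_apply s).comp (continuous_snd.comp continuous_subtype_val))
    fun t t' => (congrFun t.2 s).trans (congrFun t'.2 s).symm

theorem Ch.cont_mul : Continuous fun p : OA S × (S → Ch pos m) => Ch.mul p.1 p.2 :=
  continuous_of_fibres Ch.lc_dds fun v =>
    (Fam.mul (continuous_fst.comp continuous_subtype_val) (Ch.fam_fibre v)).continuous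

theorem Ch.cont_blk (j : Fin (m + 1)) :
    Continuous fun p : OA S × (S → Ch pos m) => Ch.blk p.1 p.2 j := by
  refine continuous_of_fibres Ch.lc_dds fun v => continuous_pi fun s => continuous_pi fun a => ?_
  have h1 : ∀ (t : {p : OA S × (S → Ch pos m) // (fun s => (p.2 s).p.dd) = v}) (s : S),
      (t.1.2 s).p.deg = (v s).1 := fun t s => congrArg Prod.fst (congrFun t.2 s)
  have h2 : ∀ t : {p : OA S × (S → Ch pos m) // (fun s => (p.2 s).p.dd) = v},
      (Ch.mul t.1.1 t.1.2).p.deg j = ∑ᶠ s, (v s).1 j := fun t =>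
    (PCh.deg_mul _ _ j).trans (finsum_congr fun s => congrFun (h1 t s) j)
  have h3 := continuous_blkM
    (T := {p : OA S × (S → Ch pos m) // (fun s => (p.2 s).p.dd) = v}) (c := fun t => t.1.1)
    (continuous_fst.comp continuous_subtype_val) (G := fun t s => (t.1.2 s).G j a)
    (fun s => (Ch.fam_fibre v s).G j a) (D := fun t s => sp pos ((t.1.2 s).p.D j) a)
    (fun t s => (t.1.2 s).p.inD_sp pos j a) (fun t s => (t.1.2 s).met j a)
    (n := nuOf pos (∑ᶠ s, (v s).1 j) a) (ns := nuOf pos ((v s).1 j) a)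
    (fun t => (Ch.card_mul t.1.1 t.1.2 j a).trans (congrArg (fun f => nuOf pos f a) (h2 t))) s
    fun t => (card_sp _ _ _).trans (congrArg (fun f => nuOf pos (f j) a) (h1 t s))
  refine (continuous_raw.comp h3).congr fun t => ?_
  simp only [Function.comp, Ch.blk]
  rw [h2 t, h1 t s]
  rfl

end Pool.Agent.Lib.E2
end
end

-- part Pool.Agent.Lib.MP_10be03_gt.DHom
section

/-!
Layer D: standard chains and the deformation onto them.
-/

noncomputable section
open Polynomial
open scoped Matrix ComplexOrder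

namespace Pool.Agent.Lib.E2

variable {ι σ : Type} [Fintype ι] {m : ℕ}

/-- The speed of the paths: `1` at time `0`, and `0` from time `1 / 2` on. -/
def spd (u : unitInterval) : unitInterval := Set.projIcc (0 : ℝ) 1 zero_le_one (1 - 2 * u)

/-- The scale of the points: `1` up to time `1 / 2`, and `0` at time `1`. -/
def scl (u : unitInterval) : ℝ := min 1 (2 - 2 * u)

theorem dh_scl_nonneg (u : unitInterval) : 0 ≤ scl u :=
  le_min zero_le_one (by linarith [u.2.2])

theorem dh_scl_le (u : unitInterval) : scl u ≤ 1 := min_le_left _ _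

theorem dh_cases (u : unitInterval) : scl u = 1 ∨ spd u = 0 := by
  rcases le_total (u : ℝ) (1 / 2) with h | h
  · exact .inl (min_eq_left (by linarith))
  · exact .inr (Set.projIcc_of_le_left _ (by linarith))

theorem dh_scl_zero : scl 0 = 1 := by norm_num [scl]

theorem dh_scl_one : scl 1 = 0 := by norm_num [scl]

theorem dh_spd_zero : spd 0 = 1 := Set.projIcc_of_right_le _ (by norm_num)

theorem dh_spd_one : spd 1 = 0 := Set.projIcc_of_le_left _ (by norm_num)

theorem dh_cont_scl : Continuous scl := by unfold scl; fun_prop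

theorem dh_cont_spd : Continuous spd := continuous_projIcc.comp (by fun_prop)

theorem dh_map_one (D : Multiset ℂ) : (D.map fun w => 0 + ((1 : ℝ) : ℂ) * w) = D := by simp

theorem dh_sum_map (D : ι → Multiset ℂ) (f : ℂ → ℂ) :
    ∑ c, (D c).map f = (∑ c, D c).map f := (map_sum (Multiset.mapAddMonoidHom f) D _).symm

namespace PCh

/-- The sum of the degrees of the steps between `i` and `j`. -/
def stp (f : Fin m → ℕ) (i j : Fin (m + 1)) : ℕ :=
  ∑ k : Fin m, if i ≤ k.castSucc ∧ k.succ ≤ j then f k else 0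

theorem dh_stp_triv (f : Fin m → ℕ) {i j : Fin (m + 1)} (h : j ≤ i) : stp f i j = 0 :=
  Finset.sum_eq_zero fun _ _ => if_neg fun hk =>
    absurd ((hk.2.trans h).trans hk.1) (not_le.2 Fin.castSucc_lt_succ)

theorem dh_stp_add (f : Fin m → ℕ) {i j k : Fin (m + 1)} (h : i ≤ j) (h' : j ≤ k) :
    stp f i k = stp f i j + stp f j k := by
  rw [stp, stp, stp, ← Finset.sum_add_distrib]
  refine Finset.sum_congr rfl fun l _ => ?_
  simp only [Fin.le_def, Fin.val_castSucc, Fin.val_succ] at h h' ⊢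
  split_ifs <;> omega

theorem dh_stp_one (f : Fin m → ℕ) (k : Fin m) : stp f k.castSucc k.succ = f k := by
  rw [stp, Finset.sum_eq_single k (fun l _ hl => if_neg fun h => hl ?_) (by simp),
    if_pos ⟨le_rfl, le_rfl⟩]
  simp only [Fin.le_def, Fin.val_castSucc, Fin.val_succ] at h
  exact Fin.ext (by omega)

theorem dh_stp_eq (g : Fin (m + 1) → Fin (m + 1) → ℕ) (h0 : ∀ i j, j ≤ i → g i j = 0)
    (h1 : ∀ i j k, i ≤ j → j ≤ k → g i k = g i j + g j k) (i j : Fin (m + 1)) :
    g i j = stp (fun k => g k.castSucc k.succ) i j := by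
  induction j using Fin.induction with
  | zero => rw [h0 _ _ (Fin.zero_le _), dh_stp_triv _ (Fin.zero_le _)]
  | succ j ih =>
    rcases le_or_gt i j.castSucc with h | h
    · rw [h1 _ _ _ h Fin.castSucc_lt_succ.le, dh_stp_add _ h Fin.castSucc_lt_succ.le, ih,
        dh_stp_one]
    · have : j.succ ≤ i := Fin.castSucc_lt_iff_succ_le.1 h
      rw [h0 _ _ this, dh_stp_triv _ this]

/-- The standard chain: all points at the origin, constant paths. -/
def std (δ : Idx ι m) : PCh ι m where
  D j c := Multiset.replicate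
    (δ.1 c + stp (fun k => (δ.2 k).1 c) 0 j + stp (fun k => (δ.2 k).2 c) 0 j) 0
  A i j c := Multiset.replicate (stp (fun k => (δ.2 k).1 c) i j) 0
  B i j c := Multiset.replicate (stp (fun k => (δ.2 k).2 c) i j) 0
  η _ _ _ _ := 0
  inD _ _ w hw := by rw [Multiset.eq_of_mem_replicate hw]; simp
  A_triv _ _ h _ := by rw [dh_stp_triv _ h]; rfl
  B_triv _ _ h _ := by rw [dh_stp_triv _ h]; rfl
  η_triv _ _ _ _ _ := rfl
  D_eq i j h c := by
    rw [← Multiset.replicate_add, ← Multiset.replicate_add, dh_stp_add _ (Fin.zero_le i) h,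
      dh_stp_add (fun k => (δ.2 k).2 c) (Fin.zero_le i) h]
    congr 1
    omega
  A_add _ _ _ h h' _ := by rw [← Multiset.replicate_add, dh_stp_add _ h h']
  B_add _ _ _ h h' _ := by rw [← Multiset.replicate_add, dh_stp_add _ h h']
  η_deg _ _ _ _ := by rw [degree_zero]; exact WithBot.bot_lt_coe _
  η_cont _ _ _ _ := continuous_const
  η_zero _ _ _ := rfl
  η_nv _ _ _ _ _ _ := by simp
  η_mul _ _ _ _ _ _ _ := by simp

/-- First slow down the paths, then move all points to the origin. -/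
def hom (x : PCh ι m) (u : unitInterval) : PCh ι m where
  D j c := (x.D j c).map fun w => 0 + (scl u : ℂ) * w
  A i j c := (x.A i j c).map fun w => 0 + (scl u : ℂ) * w
  B i j c := (x.B i j c).map fun w => 0 + (scl u : ℂ) * w
  η i j c τ := x.η i j c (spd u * τ)
  inD j c w hw := by
    obtain ⟨v, hv, rfl⟩ := Multiset.mem_map.1 hw
    rw [zero_add, norm_mul, Complex.norm_real, Real.norm_of_nonneg (dh_scl_nonneg u)]
    exact (mul_le_of_le_one_left (norm_nonneg _) (dh_scl_le u)).trans_lt (x.inD j c v hv)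
  A_triv i j h c := by rw [x.A_triv i j h, Multiset.map_zero]
  B_triv i j h c := by rw [x.B_triv i j h, Multiset.map_zero]
  η_triv i j h c _ := x.η_triv i j h c _
  D_eq i j h c := by rw [x.D_eq i j h, Multiset.map_add, Multiset.map_add]
  A_add i j k h h' c := by rw [x.A_add i j k h h', Multiset.map_add]
  B_add i j k h h' c := by rw [x.B_add i j k h h', Multiset.map_add]
  η_deg i j c _ := by rw [dh_sum_map, Multiset.card_map]; exact x.η_deg i j c _
  η_cont i j c k := (x.η_cont i j c k).comp (continuous_const.mul continuous_id)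
  η_zero i j c := by rw [mul_zero, x.η_zero]
  η_nv i j c τ := by
    rcases dh_cases u with h | h
    · simp only [h, dh_map_one]
      exact x.η_nv i j c _
    · rw [h, zero_mul, x.η_zero]
      exact fun _ _ => by simp
  η_mul i j k hi hj c τ := by
    rcases dh_cases u with h | h
    · simp only [h, dh_map_one]
      exact x.η_mul i j k hi hj c _
    · simp [h, x.η_zero]

theorem deg_std (δ : Idx ι m) : (std δ).deg 0 = δ.1 := by
  funext c
  simp [deg, std, dh_stp_triv]

theorem dg_std (δ : Idx ι m) (k : Fin m) : (std δ).dg k.castSucc k.succ = δ.2 k := by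
  refine Prod.ext (funext fun c => ?_) (funext fun c => ?_) <;> simp [dg, std, dh_stp_one]

theorem deg_hom (x : PCh ι m) (u : unitInterval) : (x.hom u).deg = x.deg := by
  funext i c
  simp only [deg, hom, Multiset.card_map]

theorem hom_zero (x : PCh ι m) : x.hom 0 = x := by
  refine PCh.ext ?_ ?_ ?_ ?_ <;> simp only [hom, dh_scl_zero, dh_map_one, dh_spd_zero, one_mul]

theorem hom_one (x : PCh ι m) :
    x.hom 1 = std (x.deg 0, fun k => x.dg k.castSucc k.succ) := by
  have hA := fun c => dh_stp_eq (fun i j => (x.A i j c).card)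
    (fun i j h => by rw [x.A_triv i j h]; rfl)
    fun i j k h h' => by rw [x.A_add i j k h h', Multiset.card_add]
  have hB := fun c => dh_stp_eq (fun i j => (x.B i j c).card)
    (fun i j h => by rw [x.B_triv i j h]; rfl)
    fun i j k h h' => by rw [x.B_add i j k h h', Multiset.card_add]
  have hm : ∀ D : Multiset ℂ, (D.map fun w => 0 + ((0 : ℝ) : ℂ) * w) =
      Multiset.replicate D.card 0 := fun D => by simp
  refine PCh.ext ?_ ?_ ?_ ?_
  · funext j c
    simp only [hom, std, dh_scl_one, hm, deg, dg]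
    rw [← hA c 0 j, ← hB c 0 j, x.D_eq 0 j (Fin.zero_le j), Multiset.card_add, Multiset.card_add]
  · funext i j c
    simp only [hom, std, dh_scl_one, hm, dg]
    rw [← hA c i j]
  · funext i j c
    simp only [hom, std, dh_scl_one, hm, dg]
    rw [← hB c i j]
  · funext i j c τ
    simp only [hom, std, dh_spd_one, zero_mul, x.η_zero]

end PCh

/-- The form with matrix `u + (1 - u) gram G` on the remainders modulo `D`. -/
def homF (n : ℕ) (D : Multiset ℂ) (G : Frm) (u : ℝ) : Frm :=
  pullForm (((1 - u : ℝ) : ℂ) • gram n G + ((u : ℝ) : ℂ) • (1 : Matrix (Fin n) (Fin n) ℂ)) (co n D)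

theorem isMet_homF {D D' : Multiset ℂ} {G : Frm} (h : IsMet D G) {n : ℕ} (hn : D.card = n)
    (hn' : D'.card = n) (u : unitInterval) : IsMet D' (homF n D' G u) := by
  refine isMet_co hn' ?_
  have h1 := h.posDef_gram hn
  rcases eq_or_lt_of_le u.2.1 with e | e
  · simpa [← e] using h1
  · exact Matrix.PosDef.posSemidef_add
      (h1.posSemidef.smul (Complex.zero_le_real.2 (sub_nonneg.2 u.2.2)))
      (Matrix.PosDef.one.smul (Complex.zero_lt_real.2 e))

namespace Ch

variable {pos : σ → Finset ι}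

/-- The standard chain. -/
def std (pos : σ → Finset ι) (m : ℕ) (δ : Idx ι m) : Ch pos m :=
  ofTop (PCh.std δ) (fun a => pullForm 1 (co _ (sp pos ((PCh.std δ).D (Fin.last m)) a)))
    fun _ => isMet_co rfl Matrix.PosDef.one

/-- The deformation onto the standard chains. -/
def hom (x : Ch pos m) (u : unitInterval) : Ch pos m :=
  ofTop (x.p.hom u) (fun a => homF (nuOf pos (x.p.deg (Fin.last m)) a)
      (sp pos ((x.p.hom u).D (Fin.last m)) a) (x.G (Fin.last m) a) u)
    fun a => isMet_homF (x.met _ a) (card_sp _ _ _)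
      ((card_sp _ _ _).trans (congrArg (fun f => nuOf pos (f (Fin.last m)) a) (x.p.deg_hom u))) u

theorem dh_congr {p p' : PCh ι m} {G G' : σ → Frm}
    {h : ∀ a, IsMet (sp pos (p.D (Fin.last m)) a) (G a)}
    {h' : ∀ a, IsMet (sp pos (p'.D (Fin.last m)) a) (G' a)} (e : p = p') (e' : G = G') :
    ofTop p G h = ofTop p' G' h' := by
  subst e e'
  rfl

theorem hom_zero (x : Ch pos m) : x.hom 0 = x := by
  refine (dh_congr x.p.hom_zero (funext fun a => ?_)).trans x.ofTop_self
  rw [x.p.hom_zero, homF]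
  simpa using (x.met _ a).pullForm_gram (n := nuOf pos (x.p.deg (Fin.last m)) a) (card_sp _ _ _)

theorem hom_one (x : Ch pos m) :
    x.hom 1 = std pos m (x.p.deg 0, fun k => x.p.dg k.castSucc k.succ) := by
  refine dh_congr x.p.hom_one (funext fun a => ?_)
  have key : ∀ (n n' : ℕ) (D : Multiset ℂ) (G : Frm), n = n' →
      homF n D G (1 : unitInterval) = pullForm 1 (co n' D) := fun n n' D G e => by
    subst e
    simp [homF]
  rw [← x.p.hom_one]
  exact key _ _ _ _ ((card_sp _ _ _).trans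
    (congrArg (fun f => nuOf pos (f (Fin.last m)) a) (x.p.deg_hom 1))).symm

theorem cont_hom : Continuous fun q : Ch pos m × unitInterval => q.1.hom q.2 := by
  refine continuous_of_fibres (d := fun q : Ch pos m × unitInterval => q.1.p.dd)
    (lc_dd.comp_continuous continuous_fst) fun v => ?_
  have hx : Fam fun t : {q : Ch pos m × unitInterval // q.1.p.dd = v} => t.1.1 :=
    Fam.of_continuous (by fun_prop) fun t t' => t.2.trans t'.2.symm
  have hu : Continuous fun t : {q : Ch pos m × unitInterval // q.1.p.dd = v} => t.1.2 := by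
    fun_prop
  have hs : Continuous fun t : {q : Ch pos m × unitInterval // q.1.p.dd = v} =>
      (scl t.1.2 : ℂ) := Complex.continuous_ofReal.comp (dh_cont_scl.comp hu)
  have hp : FamP fun t : {q : Ch pos m × unitInterval // q.1.p.dd = v} => t.1.1.p.hom t.1.2 :=
    ⟨fun i c => (hx.p.D i c).map continuous_const hs,
      fun i j c => (hx.p.A i j c).map continuous_const hs,
      fun i j c => (hx.p.B i j c).map continuous_const hs,
      fun i j c => (hx.p.η i j c).comp
        (g := fun q : {q : Ch pos m × unitInterval // q.1.p.dd = v} × unitInterval =>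
          (q.1, spd q.1.1.2 * q.2))
        (continuous_fst.prodMk ((dh_cont_spd.comp (hu.comp continuous_fst)).mul continuous_snd))⟩
  refine (Fam.ofTop hp (fun a => ?_) _).continuous
  have e : ∀ t : {q : Ch pos m × unitInterval // q.1.p.dd = v},
      nuOf pos (t.1.1.p.deg (Fin.last m)) a = nuOf pos (v.1 (Fin.last m)) a := fun t =>
    congrArg (fun f : EncN ι m => nuOf pos (f.1 (Fin.last m)) a) t.2
  simp only [e]
  have h1 := (hx.G (Fin.last m) a).gram (nuOf pos (v.1 (Fin.last m)) a)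
  have h2 : Continuous fun t : {q : Ch pos m × unitInterval // q.1.p.dd = v} => (t.1.2 : ℝ) :=
    continuous_subtype_val.comp hu
  exact CF.pullForm (by fun_prop) fun k => (CD.sp (hp.D _) a).co _ (CP.const _)

end Ch

end Pool.Agent.Lib.E2
end
end

-- part Pool.Agent.Lib.MP_10be03_gt.D
section

/-!
Layer D: assembly.
-/

noncomputable section

namespace Pool.Agent.Lib.E2

/-- The data of layer D. -/
def dData {ι σ : Type} [Fintype ι] [DecidableEq ι] [Fintype σ] (pos : σ → Finset ι) :
    DData opA pos where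
  Ch m := Ch pos m
  t2 _ := Ch.t2
  fc _ := Ch.fc
  pull := Ch.pull
  cont_pull := Ch.continuous_pull
  pull_id := Ch.pull_id
  pull_comp _ _ _ := rfl
  deg x := x.p.deg
  dg x := x.p.dg
  lc_deg _ i := Ch.lc_dd.comp fun v => v.1 i
  lc_dg _ i j _ := Ch.lc_dd.comp fun v => v.2 i j
  deg_pull _ _ _ := rfl
  dg_pull _ _ _ _ _ := rfl
  dg_self := Ch.dg_self
  dg_add := Ch.dg_add
  deg_add := Ch.deg_add
  mor := Ch.mor
  cont_mor _ := Ch.cont_mor
  valid_mor := Ch.valid_mor
  mor_pull _ _ _ _ _ := rfl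
  mor_self := Ch.mor_self
  mor_comp := Ch.mor_comp
  tr_a := Ch.tr_a
  tr_b := Ch.tr_b
  std := Ch.std pos
  deg_std _ δ := PCh.deg_std δ
  dg_std _ δ := PCh.dg_std δ
  hom _ := Ch.hom
  cont_hom _ := Ch.cont_hom
  hom_zero _ := Ch.hom_zero
  hom_one _ := Ch.hom_one
  deg_hom _ x u := congrFun (x.p.deg_hom u) 0
  mul _ := Ch.mul
  kcont_mul _ := KCont.of_continuous Ch.cont_mul
  mul_pull _ _ _ _ _ := rfl
  deg_mul _ _ _ c x := PCh.deg_mul c fun s => (x s).p
  mul_one _ := Ch.mul_one
  mul_assoc _ := Ch.mul_assoc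
  mul_rel _ := Ch.mul_rel
  eq_of_deg_zero := Ch.eq_of_deg_zero
  blk := Ch.blk
  kcont_blk _ _ _ j := KCont.of_continuous (Ch.cont_blk j)
  isBlk := Ch.isBlk
  blk_pull _ _ _ _ _ _ := rfl
  blk_one := Ch.blk_one
  blk_assoc := Ch.blk_assoc
  blk_rel := Ch.blk_rel
  compat := Ch.compat

theorem d_holds : DStmt := ⟨opA, piA, isE2_opA, fun pos => ⟨dData pos⟩⟩

end Pool.Agent.Lib.E2
end
end
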