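import Pool.Agent.Lib.MP_10be03_gt.HBase
import Pool.Agent.Lib.MP_10be03_gt.Orth
import Pool.Agent.Lib.MP_10be03_gt.Simp

-- part Pool.Agent.Lib.MP_10be03_gt.KXS
section

/-!
Two abstract lemmas on maps of sequential spectra: additivity and stable retractions.
-/

noncomputable section
open scoped unitInterval Topology

namespace Pool.Agent.Lib.E2

/-- Additivity: if `H x = μ x x` where `μ` restricts to `F` and `G` on the axes, the induced
homomorphisms add. -/
theorem SMap.pi_add_of_mu {X Y : SSp} (F G H : SMap X Y) (μ : ∀ n, X.X n → X.X n → Y.X n)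
    (hμ : ∀ n, Continuous fun p : X.X n × X.X n => μ n p.1 p.2)
    (h1 : ∀ n x, μ n x (X.pt n) = F.f n x) (h2 : ∀ n x, μ n (X.pt n) x = G.f n x)
    (h3 : ∀ n x, μ n x x = H.f n x) (a b : ℕ) (x : X.Pi a b) :
    H.pi a b x = F.pi a b x + G.pi a b x := by
  obtain ⟨j, f, rfl⟩ := SSp.cls_surj x
  rw [SMap.pi_cls, SMap.pi_cls, SMap.pi_cls, ← SSp.cls_transAt (Sum.inr 0)]
  have e1 : HC.cls f = HC.cls (GenLoop.transAt (Sum.inr 0) f GenLoop.const) := by
    rw [← HC.cls_mul, HC.cls_const, one_mul]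
  have e2 : HC.cls f = HC.cls (GenLoop.transAt (Sum.inr 0) GenLoop.const f) := by
    rw [← HC.cls_mul, HC.cls_const, mul_one]
  obtain ⟨K, k0, k1, k2, k3⟩ := HC.exists_of_homotopic (HC.cls_eq.1 e1)
  obtain ⟨L, l0, l1, l2, l3⟩ := HC.exists_of_homotopic (HC.cls_eq.1 e2)
  refine SSp.cls_of (fun p => μ (b + j) (K p) (L p)) ((hμ _).comp (k0.prodMk l0))
    (fun t => ?_) (fun t => ?_) fun s t ht => ?_
  · rw [k1, l1, h3, SMap.loop_apply]
  · rw [k2, l2, HC.transAt_apply, HC.transAt_apply, HC.transAt_apply]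
    split_ifs
    · exact h1 _ _
    · exact h2 _ _
  · rw [k3 s t ht, l3 s t ht, h1, F.f_pt]

theorem kx_bd {a j : ℕ} {t : Cb a (j + 1) → I} (ht : t ∈ Cube.boundary (Cb a (j + 1))) :
    cbInit t ∈ Cube.boundary (Cb a j) ∨ t (Sum.inr (Fin.last (j + 2))) = 0 ∨
      t (Sum.inr (Fin.last (j + 2))) = 1 := by
  obtain ⟨i | i, hi⟩ := ht
  · exact Or.inl ⟨Sum.inl i, hi⟩
  · induction i using Fin.lastCases with
    | last => exact Or.inr hi
    | cast i => exact Or.inl ⟨Sum.inr i, hi⟩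

theorem kx_lift {P Y Z : Type} [TopologicalSpace P] [TopologicalSpace Y] [TopologicalSpace Z]
    {i : Y → Z} (hi : Topology.IsEmbedding i) (k : P → Z) (hk : Continuous k)
    (h : ∀ p, k p ∈ Set.range i) : ∃ l : P → Y, Continuous l ∧ ∀ p, i (l p) = k p := by
  choose l hl using h
  exact ⟨l, hi.continuous_iff.2 (hk.congr fun p => (hl p).symm), hl⟩

/-- A stable deformation of `c` into the levelwise embedding `i`. -/
theorem stab_retract {A B : SSp} (i : SMap A B) (c : SMap B B)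
    (hi : ∀ n, Topology.IsEmbedding (i.f n)) (hc : ∀ n x, c.f n (i.f n x) = i.f n x)
    (H : ∀ n, B.X n → I → I → B.X (n + 1))
    (hH : ∀ n, Continuous fun p : B.X n × I × I => H n p.1 p.2.1 p.2.2)
    (H0 : ∀ n x u, H n x u 0 = B.sg n (c.f n x) u)
    (H1 : ∀ n x u, H n x u 1 ∈ Set.range (i.f (n + 1)))
    (Hi : ∀ n x u s, H n (i.f n x) u s ∈ Set.range (i.f (n + 1)))
    (Hpt : ∀ n u s, H n (B.pt n) u s = B.pt (n + 1))
    (Hz : ∀ n x s, H n x 0 s = B.pt (n + 1)) (Ho : ∀ n x s, H n x 1 s = B.pt (n + 1))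
    (a b : ℕ) : Function.Injective (i.pi a b) ∧ ∀ x, c.pi a b x ∈ (i.pi a b).range := by
  have hb : ∀ {j : ℕ} (k : (Cb a j → I) → B.X (b + j)),
      (∀ t ∈ Cube.boundary (Cb a j), k t = B.pt (b + j)) → ∀ s,
      ∀ t ∈ Cube.boundary (Cb a (j + 1)),
        H (b + j) (k (cbInit t)) (t (Sum.inr (Fin.last (j + 2)))) s = B.pt (b + j + 1) := by
    intro j k hk s t ht
    rcases kx_bd ht with h | h | h
    · rw [hk _ h, Hpt]
    · rw [h, Hz]
    · rw [h, Ho]
  have hcn : ∀ {j : ℕ} (k : I × (Cb a j → I) → B.X (b + j)) (v : I → I), Continuous k →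
      Continuous v → Continuous fun p : I × (Cb a (j + 1) → I) =>
        H (b + j) (k (p.1, cbInit p.2)) (p.2 (Sum.inr (Fin.last (j + 2)))) (v p.1) := by
    intro j k v hk hv
    exact (hH _).comp ((hk.comp (continuous_fst.prodMk
      (continuous_cbInit.comp continuous_snd))).prodMk
      (((continuous_apply _).comp continuous_snd).prodMk (hv.comp continuous_fst)))
  have hp : ∀ {n : ℕ} {y : A.X n}, i.f n y = B.pt n → y = A.pt n := fun h =>
    (hi _).injective (h.trans (i.f_pt _).symm)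
  refine ⟨(injective_iff_map_eq_zero _).2 fun x hx => ?_, fun x => ?_⟩
  · obtain ⟨j, f, rfl, hf⟩ := i.exists_null hx
    obtain ⟨K, k0, k1, k2, k3⟩ := HC.exists_of_eq_one hf
    obtain ⟨l, l0, l1⟩ := kx_lift (hi (b + j + 1)) _ (hcn (fun p => i.loop f p.2) (fun s => s)
      ((HC.cont _).comp continuous_snd) continuous_id) fun p => Hi _ _ _ _
    obtain ⟨m, m0, m1⟩ := kx_lift (hi (b + j + 1)) _ (hcn K (fun _ => 1) k0 continuous_const)
      fun p => H1 _ _ _
    have lb : ∀ s, ∀ t ∈ Cube.boundary (Cb a (j + 1)), l (s, t) = A.pt (b + j + 1) :=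
      fun s t ht => hp ((l1 _).trans (hb _ (GenLoop.boundary (i.loop f)) s t ht))
    rw [← SSp.cls_susp]
    refine (SSp.cls_of (j := j + 1) (g := HC.mkL (fun t => l (1, t))
      (l0.comp (continuous_const.prodMk continuous_id)) (lb 1)) l l0
      (fun t => (hi (b + j + 1)).injective ?_) (fun _ => rfl) lb).trans
      (SSp.cls_null (j := j + 1) m m0 (fun t => (hi (b + j + 1)).injective ?_)
        (fun t => hp ?_) fun s t ht => hp ((m1 _).trans (hb _ (k3 s) 1 t ht)))
    · rw [l1, H0, SMap.loop_apply, hc, SSp.sl_apply, i.f_sg]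
    · refine (m1 _).trans (Eq.trans ?_ (l1 (1, t)).symm)
      rw [k1]
    · refine (m1 _).trans ?_
      rw [k2]
      exact Hpt _ _ _
  · obtain ⟨j, f, rfl⟩ := SSp.cls_surj x
    have h0 := hcn (fun p => f p.2) (fun s => s) ((HC.cont f).comp continuous_snd) continuous_id
    obtain ⟨l, l0, l1⟩ := kx_lift (hi (b + j + 1)) _
      (h0.comp ((continuous_const (y := 1)).prodMk continuous_id)) fun p => H1 _ _ _
    refine ⟨A.cls a b (j + 1) (HC.mkL l l0 fun t ht =>
      hp ((l1 _).trans (hb _ (GenLoop.boundary f) 1 t ht))), ?_⟩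
    rw [SMap.pi_cls, SMap.pi_cls, ← SSp.cls_susp (c.loop f)]
    symm
    exact SSp.cls_of (j := j + 1) _ h0 (fun t => H0 _ _ _) (fun t => (l1 t).symm)
      (hb _ (GenLoop.boundary f))

end Pool.Agent.Lib.E2
end
end

-- part Pool.Agent.Lib.MP_10be03_gt.DOp
section

/-!
Layer D: the operad of little discs with separating directions.
-/

noncomputable section
open scoped ComplexConjugate

namespace Pool.Agent.Lib.E2

/-- `θ s s` is the radius and `θ s t` is a nonzero separating direction for `s ≠ t`. -/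
def IsAng {S : Type} (p : D2 S) (θ : S → S → ℂ) : Prop :=
  (∀ s, θ s s = (((p.1 s).2 : ℝ) : ℂ)) ∧ ∀ s t, s ≠ t → θ s t ≠ 0 ∧
    ((p.1 s).2 + (p.1 t).2) * ‖θ s t‖ ≤ (((p.1 s).1 - (p.1 t).1) * conj (θ s t)).re

/-- Little discs with separating directions. -/
def OA (S : Type) : Type := {q : D2 S × (S → S → ℂ) // IsAng q.1 q.2}

instance instTopOA (S : Type) : TopologicalSpace (OA S) := instTopologicalSpaceSubtype

namespace OA

variable {S S' : Type} {T : S → Type}

/-- The centre. -/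
def z (c : OA S) (s : S) : ℂ := (c.1.1.1 s).1

/-- The radius. -/
def r (c : OA S) (s : S) : ℝ := (c.1.1.1 s).2

/-- The direction. -/
def θ (c : OA S) (s t : S) : ℂ := c.1.2 s t

/-- The affine map of the disc `s`. -/
def ap (c : OA S) (s : S) (w : ℂ) : ℂ := c.z s + c.r s * w

theorem ext' {c d : OA S} (hz : ∀ s, c.z s = d.z s) (hr : ∀ s, c.r s = d.r s)
    (hθ : ∀ s t, c.θ s t = d.θ s t) : c = d :=
  Subtype.ext (Prod.ext (Subtype.ext (funext fun s => Prod.ext (hz s) (hr s)))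
    (funext fun s => funext (hθ s)))

theorem dop_cont (s : S) : Continuous fun c : OA S => c.1.1.1 s :=
  (continuous_apply s).comp (continuous_subtype_val.comp continuous_subtype_val.fst)

theorem continuous_z (s : S) : Continuous fun c : OA S => c.z s := (dop_cont s).fst

theorem continuous_r (s : S) : Continuous fun c : OA S => c.r s := (dop_cont s).snd

theorem continuous_θ (s t : S) : Continuous fun c : OA S => c.θ s t :=
  (continuous_apply t).comp ((continuous_apply s).comp continuous_subtype_val.snd)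

theorem r_pos (c : OA S) (s : S) : 0 < c.r s := (c.1.1.2.1 s).1

theorem θ_self (c : OA S) (s : S) : c.θ s s = c.r s := c.2.1 s

theorem θ_ne_zero (c : OA S) (s t : S) : c.θ s t ≠ 0 := by
  by_cases h : s = t
  · rw [h, θ_self]
    exact Complex.ofReal_ne_zero.2 (c.r_pos t).ne'
  · exact (c.2.2 s t h).1

theorem dop_le (c : OA S) (s : S) : ‖c.z s‖ + c.r s ≤ 1 := (c.1.1.2.1 s).2

theorem dop_norm (c : OA S) (s : S) (w : ℂ) : ‖(c.r s : ℂ) * w‖ = c.r s * ‖w‖ := by
  rw [norm_mul, Complex.norm_real, Real.norm_of_nonneg (c.r_pos s).le]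

theorem dop_re (x y : ℂ) : |(x * conj y).re| ≤ ‖x‖ * ‖y‖ := by
  simpa using Complex.abs_re_le_norm (x * conj y)

theorem dop_sep (c : OA S) {s t : S} (h : s ≠ t) (u w : ℂ) :
    (c.r s * (1 - ‖u‖) + c.r t * (1 - ‖w‖)) * ‖c.θ s t‖ ≤
      ((c.ap s u - c.ap t w) * conj (c.θ s t)).re := by
  have h1 : (c.r s + c.r t) * ‖c.θ s t‖ ≤ ((c.z s - c.z t) * conj (c.θ s t)).re := (c.2.2 s t h).2
  have h2 := (abs_le.1 (dop_re (c.r s * u) (c.θ s t))).1
  have h3 := (abs_le.1 (dop_re (c.r t * w) (c.θ s t))).2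
  rw [dop_norm] at h2 h3
  rw [show c.ap s u - c.ap t w = c.z s - c.z t + c.r s * u - c.r t * w by unfold ap; ring,
    sub_mul, add_mul _ (_ * u), Complex.sub_re, Complex.add_re]
  linarith

theorem norm_ap_lt (c : OA S) (s : S) {w : ℂ} (hw : ‖w‖ < 1) : ‖c.ap s w‖ < 1 := by
  have h := norm_add_le (c.z s) (c.r s * w)
  rw [dop_norm] at h
  exact h.trans_lt (by nlinarith [c.dop_le s, c.r_pos s])

theorem re_pos (c : OA S) {s t : S} (h : s ≠ t) {u w : ℂ} (hu : ‖u‖ < 1) (hw : ‖w‖ < 1) :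
    0 < ((c.ap s u - c.ap t w) / c.θ s t).re := by
  have h0 := c.θ_ne_zero s t
  have h1 := (mul_pos (add_pos (mul_pos (c.r_pos s) (sub_pos.2 hu))
    (mul_pos (c.r_pos t) (sub_pos.2 hw))) (norm_pos_iff.2 h0)).trans_le (c.dop_sep h u w)
  rw [div_eq_mul_inv, Complex.inv_def, ← mul_assoc, Complex.re_mul_ofReal]
  exact mul_pos h1 (inv_pos.2 (Complex.normSq_pos.2 h0))

theorem ap_ne (c : OA S) {s t : S} (h : s ≠ t) {u w : ℂ} (hu : ‖u‖ < 1) (hw : ‖w‖ < 1) :
    c.ap s u ≠ c.ap t w := fun e => by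
  simpa [e] using c.re_pos h hu hw

/-- The unit. -/
def one : OA Unit := ⟨(⟨fun _ => (0, 1), fun _ => by simp, fun _ _ h => (h rfl).elim⟩,
  fun _ _ => 1), fun _ => rfl, fun _ _ h => (h rfl).elim⟩

/-- Relabelling. -/
def rel (e : S ≃ S') (c : OA S) : OA S' :=
  ⟨(⟨fun s => c.1.1.1 (e.symm s), fun _ => c.1.1.2.1 _,
      fun _ _ h => c.1.1.2.2 _ _ (e.symm.injective.ne h)⟩, fun s t => c.θ (e.symm s) (e.symm t)),
    fun _ => c.2.1 _, fun _ _ h => c.2.2 _ _ (e.symm.injective.ne h)⟩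

open Classical in
/-- The directions of a composite. -/
def compθ (c : OA S) (d : ∀ s, OA (T s)) (p q : Σ s, T s) : ℂ :=
  if h : q.1 = p.1 then (c.r p.1 : ℂ) * (d p.1).θ p.2 (h ▸ q.2) else c.θ p.1 q.1

theorem dop_same (c : OA S) (d : ∀ s, OA (T s)) (s : S) (t t' : T s) :
    compθ c d ⟨s, t⟩ ⟨s, t'⟩ = c.r s * (d s).θ t t' := dif_pos rfl

theorem dop_key (c : OA S) (d : ∀ s, OA (T s)) (p q : Σ s, T s) (h : p ≠ q) :
    compθ c d p q ≠ 0 ∧ (c.r p.1 * (d p.1).r p.2 + c.r q.1 * (d q.1).r q.2) * ‖compθ c d p q‖ ≤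
      ((c.ap p.1 ((d p.1).z p.2) - c.ap q.1 ((d q.1).z q.2)) * conj (compθ c d p q)).re := by
  obtain ⟨s, t⟩ := p
  obtain ⟨s', t'⟩ := q
  by_cases e : s = s'
  · subst e
    have h0 := c.r_pos s
    have h1 : ((d s).r t + (d s).r t') * ‖(d s).θ t t'‖ ≤
        (((d s).z t - (d s).z t') * conj ((d s).θ t t')).re :=
      ((d s).2.2 t t' fun e => h (by rw [e])).2
    rw [dop_same]
    refine ⟨mul_ne_zero (Complex.ofReal_ne_zero.2 h0.ne') (θ_ne_zero _ _ _), ?_⟩
    rw [dop_norm, map_mul, Complex.conj_ofReal, show (c.ap s ((d s).z t) - c.ap s ((d s).z t')) *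
      (c.r s * conj ((d s).θ t t')) = c.r s * (c.r s * (((d s).z t - (d s).z t') *
        conj ((d s).θ t t'))) by unfold ap; ring, Complex.re_ofReal_mul, Complex.re_ofReal_mul]
    nlinarith [mul_le_mul_of_nonneg_left h1 (mul_pos h0 h0).le]
  · rw [show compθ c d ⟨s, t⟩ ⟨s', t'⟩ = c.θ s s' from dif_neg (Ne.symm e)]
    exact ⟨θ_ne_zero _ _ _, (mul_le_mul_of_nonneg_right (add_le_add
      (mul_le_mul_of_nonneg_left (le_sub_iff_add_le'.2 (dop_le _ _)) (c.r_pos s).le)
      (mul_le_mul_of_nonneg_left (le_sub_iff_add_le'.2 (dop_le _ _)) (c.r_pos s').le))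
      (norm_nonneg _)).trans (c.dop_sep e _ _)⟩

theorem dop_in (c : OA S) (s : S) {w : ℂ} {ρ : ℝ} (h : ‖w‖ + ρ ≤ 1) :
    ‖c.ap s w‖ + c.r s * ρ ≤ 1 := by
  have h1 := norm_add_le (c.z s) (c.r s * w)
  rw [dop_norm] at h1
  unfold ap
  nlinarith [c.dop_le s, mul_le_mul_of_nonneg_left h (c.r_pos s).le]

/-- Composition. -/
def comp (c : OA S) (d : ∀ s, OA (T s)) : OA (Σ s, T s) :=
  ⟨(⟨fun p => (c.z p.1 + c.r p.1 * (d p.1).z p.2, c.r p.1 * (d p.1).r p.2),
      fun _ => ⟨mul_pos (c.r_pos _) (r_pos _ _), c.dop_in _ (dop_le _ _)⟩, fun p q h =>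
        le_of_mul_le_mul_right ((dop_key c d p q h).2.trans ((le_abs_self _).trans (dop_re _ _)))
          (norm_pos_iff.2 (dop_key c d p q h).1)⟩,
    compθ c d), fun p => (dop_same c d p.1 p.2 p.2).trans
      ((congrArg _ (θ_self _ _)).trans (Complex.ofReal_mul _ _).symm), dop_key c d⟩

@[simp] theorem one_z (s : Unit) : one.z s = 0 := rfl

@[simp] theorem one_r (s : Unit) : one.r s = 1 := rfl

@[simp] theorem one_θ (s t : Unit) : one.θ s t = 1 := rfl

@[simp] theorem one_ap (s : Unit) (w : ℂ) : one.ap s w = w := by simp [ap]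

@[simp] theorem rel_z (e : S ≃ S') (c : OA S) (s : S) : (rel e c).z (e s) = c.z s := by
  simp [rel, z]

@[simp] theorem rel_r (e : S ≃ S') (c : OA S) (s : S) : (rel e c).r (e s) = c.r s := by
  simp [rel, r]

@[simp] theorem rel_θ (e : S ≃ S') (c : OA S) (s t : S) :
    (rel e c).θ (e s) (e t) = c.θ s t := by
  simp [rel, θ]

@[simp] theorem rel_ap (e : S ≃ S') (c : OA S) (s : S) (w : ℂ) :
    (rel e c).ap (e s) w = c.ap s w := by simp [ap]

theorem comp_z (c : OA S) (d : ∀ s, OA (T s)) (s : S) (t : T s) :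
    (comp c d).z ⟨s, t⟩ = c.z s + c.r s * (d s).z t := rfl

theorem comp_r (c : OA S) (d : ∀ s, OA (T s)) (s : S) (t : T s) :
    (comp c d).r ⟨s, t⟩ = c.r s * (d s).r t := rfl

theorem comp_θ_same (c : OA S) (d : ∀ s, OA (T s)) (s : S) (t t' : T s) :
    (comp c d).θ ⟨s, t⟩ ⟨s, t'⟩ = c.r s * (d s).θ t t' := dif_pos rfl

theorem comp_θ_ne (c : OA S) (d : ∀ s, OA (T s)) {s s' : S} (h : s ≠ s') (t : T s) (t' : T s') :
    (comp c d).θ ⟨s, t⟩ ⟨s', t'⟩ = c.θ s s' := dif_neg h.symm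

theorem comp_ap (c : OA S) (d : ∀ s, OA (T s)) (s : S) (t : T s) (w : ℂ) :
    (comp c d).ap ⟨s, t⟩ w = c.ap s ((d s).ap t w) := by
  simp only [ap, comp_z, comp_r]; push_cast; ring

end OA

end Pool.Agent.Lib.E2
end
end

-- part Pool.Agent.Lib.MP_10be03_gt.DPoly
section

/-!
Layer D: divisors as multisets, their polynomials, the action of the discs, the Chinese
remainder theorem.
-/

noncomputable section
open Polynomial

namespace Pool.Agent.Lib.E2

/-- The monic polynomial with the given roots. -/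
def pol (D : Multiset ℂ) : ℂ[X] := (D.map fun w => X - C w).prod

/-- All points lie in the open unit disc. -/
def InD (D : Multiset ℂ) : Prop := ∀ w ∈ D, ‖w‖ < 1

/-- `f` does not vanish at the points of `D`. -/
def NV (D : Multiset ℂ) (f : ℂ[X]) : Prop := ∀ w ∈ D, f.eval w ≠ 0

@[simp] theorem pol_zero : pol 0 = 1 := by simp [pol]

theorem pol_add (D D' : Multiset ℂ) : pol (D + D') = pol D * pol D' := by simp [pol]

theorem pol_sum {ι : Type} (I : Finset ι) (D : ι → Multiset ℂ) :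
    pol (∑ i ∈ I, D i) = ∏ i ∈ I, pol (D i) := by
  classical
  induction I using Finset.induction_on with
  | empty => simp
  | insert a I ha ih => rw [Finset.sum_insert ha, Finset.prod_insert ha, pol_add, ih]

theorem pol_monic (D : Multiset ℂ) : (pol D).Monic := by
  exact monic_multiset_prod_of_monic D _ fun w _ => monic_X_sub_C w

theorem natDegree_pol (D : Multiset ℂ) : (pol D).natDegree = D.card := by
  exact natDegree_multiset_prod_X_sub_C_eq_card D

theorem degree_pol (D : Multiset ℂ) : (pol D).degree = (D.card : ℕ) := by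
  rw [degree_eq_natDegree (pol_monic D).ne_zero, natDegree_pol]

theorem pol_injective : Function.Injective pol := by
  exact Function.LeftInverse.injective (g := roots) roots_multiset_prod_X_sub_C

theorem pol_dvd {D D' : Multiset ℂ} (h : D ≤ D') : pol D ∣ pol D' := by
  exact Multiset.prod_dvd_prod_of_le (Multiset.map_le_map h)

theorem eval_pol_eq_zero {D : Multiset ℂ} {w : ℂ} : (pol D).eval w = 0 ↔ w ∈ D := by
  have h := mem_roots (a := w) (pol_monic D).ne_zero
  rw [show (pol D).roots = D from roots_multiset_prod_X_sub_C D] at h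
  exact h.symm

theorem dpoly_cop {p q : ℂ[X]} (h : ∀ a, p.eval a = 0 → q.eval a ≠ 0) : IsCoprime p q :=
  (isCoprime_iff_aeval_ne_zero_of_isAlgClosed ℂ ℂ p q).2 fun a => by
    rw [coe_aeval_eq_eval]
    exact or_iff_not_imp_left.2 fun h' => h a (not_not.1 h')

theorem NV.dvd_cancel {D : Multiset ℂ} {u f : ℂ[X]} (hu : NV D u) (h : pol D ∣ f * u) :
    pol D ∣ f := by
  exact (dpoly_cop fun a ha => hu a (eval_pol_eq_zero.1 ha)).dvd_of_dvd_mul_right h

theorem eq_of_pol_dvd {D : Multiset ℂ} {f g : ℂ[X]} (hf : f.degree < (D.card : ℕ))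
    (hg : g.degree < (D.card : ℕ)) (h : pol D ∣ f - g) : f = g := by
  refine sub_eq_zero.1 (eq_zero_of_dvd_of_degree_lt h ?_)
  rw [degree_pol]
  exact (degree_sub_le f g).trans_lt (max_lt hf hg)

namespace OA

variable {S S' : Type} {T : S → Type}

/-- Restriction of polynomials to the disc `s`. -/
def rho (c : OA S) (s : S) : ℂ[X] →ₐ[ℂ] ℂ[X] := aeval (C (c.z s) + C (c.r s : ℂ) * X)

/-- The sum of the images of the divisors. -/
def push (c : OA S) (D : S → Multiset ℂ) : Multiset ℂ := ∑ᶠ s, (D s).map (c.ap s)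

theorem eval_rho (c : OA S) (s : S) (f : ℂ[X]) (w : ℂ) :
    (c.rho s f).eval w = f.eval (c.ap s w) := by
  rw [rho, ← comp_eq_aeval, eval_comp]
  simp [ap]

@[simp] theorem one_rho (s : Unit) (f : ℂ[X]) : one.rho s f = f := by
  simp [rho]

@[simp] theorem rel_rho (e : S ≃ S') (c : OA S) (s : S) : (rel e c).rho (e s) = c.rho s := by
  simp [rho]

theorem comp_rho (c : OA S) (d : ∀ s, OA (T s)) (s : S) (t : T s) (f : ℂ[X]) :
    (comp c d).rho ⟨s, t⟩ f = (d s).rho t (c.rho s f) := by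
  exact Polynomial.funext fun w => by rw [eval_rho, eval_rho, eval_rho, comp_ap]

theorem rho_X_sub (c : OA S) (s : S) (w : ℂ) :
    c.rho s (X - C (c.ap s w)) = C (c.r s : ℂ) * (X - C w) := by
  simp only [rho, ap, map_sub, aeval_X, aeval_C, algebraMap_eq, map_add, map_mul]
  ring

theorem dpoly_ne (c : OA S) (s : S) : (c.r s : ℂ) ≠ 0 := Complex.ofReal_ne_zero.2 (c.r_pos s).ne'

theorem dpoly_rho_pol (c : OA S) (s : S) (D : Multiset ℂ) :
    c.rho s (pol (D.map (c.ap s))) = C ((c.r s : ℂ) ^ D.card) * pol D := by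
  induction D using Multiset.induction_on with
  | empty => simp
  | cons a D ih =>
    simp only [pol, Multiset.map_cons, Multiset.prod_cons, Multiset.card_cons] at ih ⊢
    rw [map_mul, ih, rho_X_sub, pow_succ, C_mul]
    ring

theorem dpoly_dvd (c : OA S) (s : S) (D : Multiset ℂ) :
    pol D ∣ c.rho s (pol (D.map (c.ap s))) := by
  rw [dpoly_rho_pol]
  exact dvd_mul_left _ _

/-- The inverse of the restriction. -/
def dpolySig (c : OA S) (s : S) : ℂ[X] →ₐ[ℂ] ℂ[X] := aeval (C (c.r s : ℂ)⁻¹ * (X - C (c.z s)))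

theorem dpoly_eval (c : OA S) (s : S) (f : ℂ[X]) (w : ℂ) :
    (c.dpolySig s f).eval w = f.eval ((c.r s : ℂ)⁻¹ * (w - c.z s)) := by
  rw [dpolySig, ← comp_eq_aeval, eval_comp]
  simp

theorem dpoly_sig_rho (c : OA S) (s : S) (f : ℂ[X]) : c.dpolySig s (c.rho s f) = f :=
  Polynomial.funext fun w => by
    rw [dpoly_eval, eval_rho, ap, mul_inv_cancel_left₀ (c.dpoly_ne s), add_sub_cancel]

theorem dpoly_rho_sig (c : OA S) (s : S) (f : ℂ[X]) : c.rho s (c.dpolySig s f) = f :=
  Polynomial.funext fun w => by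
    rw [eval_rho, dpoly_eval, ap, add_sub_cancel_left, inv_mul_cancel_left₀ (c.dpoly_ne s)]

theorem dpoly_pair (c : OA S) {D : S → Multiset ℂ} (hD : ∀ s, InD (D s)) :
    Pairwise (Function.onFun IsCoprime fun s => pol ((D s).map (c.ap s))) := fun s t h =>
  dpoly_cop fun a ha hb => by
    obtain ⟨u, hu, rfl⟩ := Multiset.mem_map.1 (eval_pol_eq_zero.1 ha)
    obtain ⟨w, hw, e⟩ := Multiset.mem_map.1 (eval_pol_eq_zero.1 hb)
    exact c.ap_ne h (hD s u hu) (hD t w hw) e.symm

@[simp] theorem push_zero (c : OA S) : c.push (fun _ => 0) = 0 := by simp [push]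

@[simp] theorem one_push (D : Multiset ℂ) : one.push (fun _ => D) = D := by
  rw [push, finsum_unique, show one.ap default = id from funext (one_ap _), Multiset.map_id]

variable [Finite S]

theorem card_push (c : OA S) (D : S → Multiset ℂ) : (c.push D).card = ∑ᶠ s, (D s).card := by
  cases nonempty_fintype S
  simp [push, finsum_eq_sum_of_fintype]

theorem mem_push (c : OA S) (D : S → Multiset ℂ) (w : ℂ) :
    w ∈ c.push D ↔ ∃ s, ∃ u ∈ D s, w = c.ap s u := by
  cases nonempty_fintype S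
  simp only [push, finsum_eq_sum_of_fintype, Multiset.mem_sum, Finset.mem_univ, true_and,
    Multiset.mem_map, eq_comm]

theorem inD_push (c : OA S) {D : S → Multiset ℂ} (h : ∀ s, InD (D s)) : InD (c.push D) := by
  intro w hw
  obtain ⟨s, u, hu, rfl⟩ := (c.mem_push D w).1 hw
  exact c.norm_ap_lt s (h s u hu)

theorem push_add (c : OA S) (D D' : S → Multiset ℂ) :
    c.push (fun s => D s + D' s) = c.push D + c.push D' := by
  cases nonempty_fintype S
  simp only [push, finsum_eq_sum_of_fintype, Multiset.map_add, Finset.sum_add_distrib]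

theorem push_sum (c : OA S) {ι : Type} (I : Finset ι) (D : S → ι → Multiset ℂ) :
    c.push (fun s => ∑ i ∈ I, D s i) = ∑ i ∈ I, c.push fun s => D s i := by
  classical
  induction I using Finset.induction_on with
  | empty => simp
  | insert a I ha ih => simp only [Finset.sum_insert ha, push_add, ih]

omit [Finite S] in
theorem rel_push (e : S ≃ S') (c : OA S) (D : S' → Multiset ℂ) :
    (rel e c).push D = c.push fun s => D (e s) := by
  rw [push, ← finsum_comp_equiv e]
  exact finsum_congr fun s => by rw [show (rel e c).ap (e s) = c.ap s from funext (rel_ap e c s)]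

theorem comp_push [∀ s, Finite (T s)] (c : OA S) (d : ∀ s, OA (T s))
    (D : (Σ s, T s) → Multiset ℂ) :
    (comp c d).push D = c.push fun s => (d s).push fun t => D ⟨s, t⟩ := by
  cases nonempty_fintype S
  have := fun s => Fintype.ofFinite (T s)
  simp only [push, finsum_eq_sum_of_fintype, Fintype.sum_sigma]
  refine Finset.sum_congr rfl fun s _ => ?_
  refine Eq.trans (Finset.sum_congr rfl fun t _ => ?_)
    (map_sum (Multiset.mapAddMonoidHom (c.ap s)) _ _).symm
  rw [Multiset.coe_mapAddMonoidHom, Multiset.map_map]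
  exact Multiset.map_congr rfl fun w _ => comp_ap c d s t w

theorem dvd_rho_push (c : OA S) (D : S → Multiset ℂ) (s : S) :
    pol (D s) ∣ c.rho s (pol (c.push D)) := by
  cases nonempty_fintype S
  refine (c.dpoly_dvd s (D s)).trans (_root_.map_dvd (c.rho s) ?_)
  rw [push, finsum_eq_sum_of_fintype, pol_sum]
  exact Finset.dvd_prod_of_mem _ (Finset.mem_univ s)

/-- The Chinese remainder theorem, divisibility form. -/
theorem crt_dvd (c : OA S) {D : S → Multiset ℂ} (hD : ∀ s, InD (D s)) {f : ℂ[X]}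
    (h : ∀ s, pol (D s) ∣ c.rho s f) : pol (c.push D) ∣ f := by
  cases nonempty_fintype S
  rw [push, finsum_eq_sum_of_fintype, pol_sum]
  refine Fintype.prod_dvd_of_coprime (c.dpoly_pair hD) fun s => ?_
  have h1 : c.rho s (pol ((D s).map (c.ap s))) ∣ c.rho s f := by
    rw [dpoly_rho_pol, (isUnit_C.2 (pow_ne_zero _ (c.dpoly_ne s)).isUnit).mul_left_dvd]
    exact h s
  simpa only [dpoly_sig_rho] using _root_.map_dvd (c.dpolySig s) h1

/-- `g` is reduced and `u s * (1 + g) = v s` on the divisor of the disc `s`. -/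
def IsSol (c : OA S) (D : S → Multiset ℂ) (u v : S → ℂ[X]) (g : ℂ[X]) : Prop :=
  g.degree < ((c.push D).card : ℕ) ∧ ∀ s, pol (D s) ∣ c.rho s (1 + g) * u s - v s

theorem exists_isSol (c : OA S) {D : S → Multiset ℂ} (hD : ∀ s, InD (D s)) {u : S → ℂ[X]}
    (hu : ∀ s, NV (D s) (u s)) (v : S → ℂ[X]) : ∃ g, c.IsSol D u v g := by
  have h1 : ∀ s, ∃ w, pol (D s) ∣ w * u s - v s := fun s => by
    obtain ⟨a, b, e⟩ := dpoly_cop fun a ha => hu s a (eval_pol_eq_zero.1 ha)
    exact ⟨b * v s, -(a * v s), by linear_combination v s * e⟩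
  choose w hw using h1
  obtain ⟨F, hF⟩ := Ideal.exists_forall_sub_mem_ideal
    (I := fun s => Ideal.span {pol ((D s).map (c.ap s))})
    (fun s t h => (Ideal.isCoprime_span_singleton_iff _ _).2 (c.dpoly_pair hD h))
    fun s => c.dpolySig s (w s)
  refine ⟨(F - 1) %ₘ pol (c.push D), ?_, fun s => ?_⟩
  · rw [← degree_pol]
    exact degree_modByMonic_lt _ (pol_monic _)
  · have h2 := (c.dpoly_dvd s (D s)).trans
      (_root_.map_dvd (c.rho s) (Ideal.mem_span_singleton.1 (hF s)))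
    rw [map_sub, dpoly_rho_sig] at h2
    have e : 1 + (F - 1) %ₘ pol (c.push D) = F - pol (c.push D) * ((F - 1) /ₘ pol (c.push D)) := by
      rw [modByMonic_eq_sub_mul_div]; ring
    have h3 := ((h2.sub ((c.dvd_rho_push D s).mul_right
      (c.rho s ((F - 1) /ₘ pol (c.push D))))).mul_right (u s)).add (hw s)
    rw [e, map_sub, map_mul]
    convert h3 using 1
    ring

theorem IsSol.unique {c : OA S} {D : S → Multiset ℂ} (hD : ∀ s, InD (D s)) {u v : S → ℂ[X]}
    (hu : ∀ s, NV (D s) (u s)) {g g' : ℂ[X]} (h : c.IsSol D u v g) (h' : c.IsSol D u v g') :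
    g = g' := by
  refine eq_of_pol_dvd h.1 h'.1 (c.crt_dvd hD fun s => (hu s).dvd_cancel ?_)
  convert (h.2 s).sub (h'.2 s) using 1
  rw [map_sub, map_add, map_add]
  ring

/-- The solution of the congruences. -/
def sol (c : OA S) (D : S → Multiset ℂ) (u v : S → ℂ[X]) : ℂ[X] :=
  Classical.epsilon (c.IsSol D u v)

theorem isSol_sol (c : OA S) {D : S → Multiset ℂ} (hD : ∀ s, InD (D s)) {u : S → ℂ[X]}
    (hu : ∀ s, NV (D s) (u s)) (v : S → ℂ[X]) : c.IsSol D u v (c.sol D u v) :=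
  Classical.epsilon_spec (c.exists_isSol hD hu v)

end OA

end Pool.Agent.Lib.E2
end
end

-- part Pool.Agent.Lib.MP_10be03_gt.DCP
section

/-!
Layer D: continuous families of polynomials and of divisors.
-/

noncomputable section
open Polynomial
open scoped Matrix

namespace Pool.Agent.Lib.E2

variable {T T' : Type} [TopologicalSpace T] [TopologicalSpace T']

/-- A family of polynomials of bounded degree with continuous coefficients. -/
def CP (F : T → ℂ[X]) : Prop :=
  (∃ N, ∀ t, (F t).natDegree ≤ N) ∧ ∀ k, Continuous fun t => (F t).coeff k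

/-- A family of divisors of constant degree whose polynomials have continuous coefficients. -/
def CD (D : T → Multiset ℂ) : Prop :=
  (∃ n, ∀ t, (D t).card = n) ∧ ∀ k, Continuous fun t => (pol (D t)).coeff k

namespace CP

variable {F G : T → ℂ[X]}

theorem const (f : ℂ[X]) : CP fun _ : T => f := ⟨⟨_, fun _ => le_rfl⟩, fun _ => continuous_const⟩

theorem C' {a : T → ℂ} (ha : Continuous a) : CP fun t => C (a t) := by
  refine ⟨⟨0, fun t => (natDegree_C _).le⟩, fun k => ?_⟩
  simp only [coeff_C]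
  split_ifs
  · exact ha
  · exact continuous_const

theorem comp (hF : CP F) {g : T' → T} (hg : Continuous g) : CP fun t => F (g t) := by
  obtain ⟨⟨N, hN⟩, h⟩ := hF
  exact ⟨⟨N, fun t => hN _⟩, fun k => (h k).comp hg⟩

theorem add (hF : CP F) (hG : CP G) : CP fun t => F t + G t := by
  obtain ⟨⟨N, hN⟩, h⟩ := hF
  obtain ⟨⟨N', hN'⟩, h'⟩ := hG
  refine ⟨⟨max N N', fun t => (natDegree_add_le _ _).trans (max_le_max (hN t) (hN' t))⟩,
    fun k => ?_⟩
  simp only [coeff_add]
  exact (h k).add (h' k)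

theorem sub (hF : CP F) (hG : CP G) : CP fun t => F t - G t := by
  obtain ⟨⟨N, hN⟩, h⟩ := hF
  obtain ⟨⟨N', hN'⟩, h'⟩ := hG
  refine ⟨⟨max N N', fun t => (natDegree_sub_le _ _).trans (max_le_max (hN t) (hN' t))⟩,
    fun k => ?_⟩
  simp only [coeff_sub]
  exact (h k).sub (h' k)

theorem mul (hF : CP F) (hG : CP G) : CP fun t => F t * G t := by
  obtain ⟨⟨N, hN⟩, h⟩ := hF
  obtain ⟨⟨N', hN'⟩, h'⟩ := hG
  refine ⟨⟨N + N', fun t => natDegree_mul_le.trans (add_le_add (hN t) (hN' t))⟩, fun k => ?_⟩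
  simp only [coeff_mul]
  exact continuous_finsetSum _ fun p _ => (h _).mul (h' _)

theorem sum {ι : Type} (I : Finset ι) {F : ι → T → ℂ[X]} (h : ∀ i ∈ I, CP (F i)) :
    CP fun t => ∑ i ∈ I, F i t := by
  classical
  induction I using Finset.induction_on with
  | empty => simpa using const 0
  | insert a I ha ih =>
    simp only [Finset.sum_insert ha]
    exact (h a (Finset.mem_insert_self _ _)).add
      (ih fun i hi => h i (Finset.mem_insert_of_mem hi))

theorem prod {ι : Type} (I : Finset ι) {F : ι → T → ℂ[X]} (h : ∀ i ∈ I, CP (F i)) :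
    CP fun t => ∏ i ∈ I, F i t := by
  classical
  induction I using Finset.induction_on with
  | empty => simpa using const 1
  | insert a I ha ih =>
    simp only [Finset.prod_insert ha]
    exact (h a (Finset.mem_insert_self _ _)).mul
      (ih fun i hi => h i (Finset.mem_insert_of_mem hi))

theorem pow (hF : CP F) (n : ℕ) : CP fun t => F t ^ n := by
  induction n with
  | zero => simpa using const 1
  | succ n ih =>
    simp only [pow_succ]
    exact ih.mul hF

theorem dcp_expand {Y : Type} [AddCommGroup Y] [Module ℂ Y] (L : ℂ[X] →ₗ[ℂ] Y) {f : ℂ[X]} {N : ℕ}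
    (h : f.natDegree ≤ N) : L f = ∑ k ∈ Finset.range (N + 1), f.coeff k • L (X ^ k) := by
  conv_lhs => rw [f.as_sum_range_C_mul_X_pow' (Nat.lt_succ_of_le h), map_sum]
  simp only [← smul_eq_C_mul, map_smul]

theorem dcp_lin (hF : CP F) (L : T → ℂ[X] →ₗ[ℂ] ℂ[X]) (hL : ∀ k : ℕ, CP fun t => L t (X ^ k)) :
    CP fun t => L t (F t) := by
  obtain ⟨⟨N, hN⟩, h⟩ := hF
  simp only [fun t => dcp_expand (L t) (hN t), smul_eq_C_mul]
  exact sum _ fun k _ => (C' (h k)).mul (hL k)

theorem aeval' (hF : CP F) (hG : CP G) : CP fun t => aeval (G t) (F t) := by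
  refine hF.dcp_lin (fun t => (aeval (G t)).toLinearMap) fun k => ?_
  simpa using hG.pow k

theorem dcp_mod {P f : ℂ[X]} (hP : P.Monic) (hf : ∀ m, P.natDegree < m → f.coeff m = 0) :
    f %ₘ P = f - C (f.coeff P.natDegree) * P := by
  refine (div_modByMonic_unique (C (f.coeff P.natDegree)) _ hP ⟨by ring, ?_⟩).2
  rw [degree_eq_natDegree hP.ne_zero, degree_lt_iff_coeff_zero]
  intro m hm
  rw [coeff_sub, coeff_C_mul]
  rcases hm.eq_or_lt with rfl | hm
  · rw [hP.coeff_natDegree, mul_one, sub_self]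
  · rw [hf m hm, coeff_eq_zero_of_natDegree_lt hm, mul_zero, sub_zero]

theorem dcp_mod_succ {P : ℂ[X]} (hP : P.Monic) (k : ℕ) : X ^ (k + 1) %ₘ P =
    X * (X ^ k %ₘ P) - C ((X * (X ^ k %ₘ P)).coeff P.natDegree) * P := by
  rw [← dcp_mod hP]
  · refine modByMonic_eq_of_dvd_sub hP ⟨X * (X ^ k /ₘ P), ?_⟩
    linear_combination -X * modByMonic_add_div (X ^ k) P
  · rintro (_ | m) hm
    · omega
    · rw [coeff_X_mul]
      refine coeff_eq_zero_of_degree_lt ((degree_modByMonic_lt _ hP).trans_le ?_)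
      rw [degree_eq_natDegree hP.ne_zero]
      exact_mod_cast Nat.le_of_lt_succ hm

theorem modBy (hF : CP F) {D : T → Multiset ℂ} (hD : CD D) : CP fun t => F t %ₘ pol (D t) := by
  obtain ⟨⟨n, hn⟩, h⟩ := hD
  have hP : CP fun t => pol (D t) := ⟨⟨n, fun t => by rw [natDegree_pol, hn]⟩, h⟩
  refine hF.dcp_lin (fun t => modByMonicHom (pol (D t))) fun k => ?_
  simp only [modByMonicHom_apply]
  induction k with
  | zero =>
    have e : ∀ t, X ^ 0 %ₘ pol (D t) = 1 - C ((1 : ℂ[X]).coeff n) * pol (D t) := fun t => by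
      rw [pow_zero, dcp_mod (pol_monic _) fun m hm => by rw [coeff_one, if_neg (by omega)],
        natDegree_pol, hn]
    simp only [e]
    exact (const _).sub ((const _).mul hP)
  | succ k ih =>
    simp only [fun t => dcp_mod_succ (pol_monic (D t)) k, natDegree_pol, hn]
    have h1 := (const X).mul ih
    exact h1.sub ((C' (h1.2 n)).mul hP)

/-- A continuous family of linear maps (tested on monomials) applied to a continuous family. -/
theorem apply {Y : Type} [AddCommGroup Y] [TopologicalSpace Y] [IsTopologicalAddGroup Y]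
    [Module ℂ Y] [ContinuousSMul ℂ Y] (hF : CP F) {L : T → ℂ[X] →ₗ[ℂ] Y}
    (hL : ∀ k : ℕ, Continuous fun t => L t (X ^ k)) : Continuous fun t => L t (F t) := by
  obtain ⟨⟨N, hN⟩, h⟩ := hF
  simp only [fun t => dcp_expand (L t) (hN t)]
  exact continuous_finsetSum _ fun k _ => (h k).smul (hL k)

end CP

namespace CD

variable {D D' : T → Multiset ℂ}

theorem cp (hD : CD D) : CP fun t => pol (D t) := by
  obtain ⟨⟨n, hn⟩, h⟩ := hD
  exact ⟨⟨n, fun t => by rw [natDegree_pol, hn]⟩, h⟩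

theorem const (D : Multiset ℂ) : CD fun _ : T => D :=
  ⟨⟨_, fun _ => rfl⟩, fun _ => continuous_const⟩

theorem comp (hD : CD D) {g : T' → T} (hg : Continuous g) : CD fun t => D (g t) := by
  obtain ⟨⟨N, hN⟩, h⟩ := hD
  exact ⟨⟨N, fun t => hN _⟩, fun k => (h k).comp hg⟩

theorem add (hD : CD D) (hD' : CD D') : CD fun t => D t + D' t := by
  have h := (hD.cp.mul hD'.cp).2
  obtain ⟨⟨n, hn⟩, -⟩ := hD
  obtain ⟨⟨n', hn'⟩, -⟩ := hD'
  refine ⟨⟨n + n', fun t => by rw [Multiset.card_add, hn, hn']⟩, ?_⟩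
  simpa only [pol_add] using h

theorem sum {ι : Type} (I : Finset ι) {D : ι → T → Multiset ℂ} (h : ∀ i ∈ I, CD (D i)) :
    CD fun t => ∑ i ∈ I, D i t := by
  classical
  induction I using Finset.induction_on with
  | empty => simpa using const 0
  | insert a I ha ih =>
    simp only [Finset.sum_insert ha]
    exact (h a (Finset.mem_insert_self _ _)).add
      (ih fun i hi => h i (Finset.mem_insert_of_mem hi))

theorem dcp_hom (x y : ℂ[X]) (E : Multiset ℂ) : (E.map fun w => x - y * C w).prod =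
    ∑ k ∈ Finset.range (E.card + 1), C ((pol E).coeff k) * x ^ k * y ^ (E.card - k) := by
  induction E using Multiset.induction_on with
  | empty => simp
  | cons w E ih =>
    have e : pol (w ::ₘ E) = X * pol E - C w * pol E := by
      rw [pol, Multiset.map_cons, Multiset.prod_cons, sub_mul, pol]
    have h0 : (pol E).coeff (E.card + 1) = 0 :=
      coeff_eq_zero_of_natDegree_lt (by rw [natDegree_pol]; omega)
    simp only [Multiset.map_cons, Multiset.prod_cons, ih, Multiset.card_cons, e, coeff_sub,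
      coeff_C_mul, C_sub, sub_mul, Finset.sum_sub_distrib, Finset.mul_sum]
    congr 1
    · rw [Finset.sum_range_succ' _ (E.card + 1)]
      simp only [coeff_X_mul, coeff_X_mul_zero, C_0, zero_mul, add_zero, Nat.add_sub_add_right]
      exact Finset.sum_congr rfl fun k _ => by ring
    · rw [Finset.sum_range_succ _ (E.card + 1), h0, mul_zero, C_0, zero_mul, zero_mul, add_zero]
      refine Finset.sum_congr rfl fun k hk => ?_
      rw [Nat.sub_add_comm (Nat.le_of_lt_succ (Finset.mem_range.1 hk)), C_mul]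
      ring

/-- The product over the points of `x - y w` is a continuous family. -/
theorem lin (hD : CD D) {x y : T → ℂ[X]} (hx : CP x) (hy : CP y) :
    CP fun t => ((D t).map fun w => x t - y t * C w).prod := by
  obtain ⟨⟨n, hn⟩, h⟩ := hD
  simp only [dcp_hom, hn]
  exact CP.sum _ fun k _ => ((CP.C' (h k)).mul (hx.pow k)).mul (hy.pow _)

theorem map (hD : CD D) {a b : T → ℂ} (ha : Continuous a) (hb : Continuous b) :
    CD fun t => (D t).map fun w => a t + b t * w := by
  have h := (hD.lin ((CP.const X).sub (CP.C' ha)) (CP.C' hb)).2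
  obtain ⟨⟨n, hn⟩, -⟩ := hD
  refine ⟨⟨n, fun t => by rw [Multiset.card_map, hn]⟩, ?_⟩
  simpa only [pol, Multiset.map_map, Function.comp_def, C_add, C_mul, sub_sub] using h

end CD

/-- The inverse of a continuous family of invertible matrices is continuous. -/
theorem continuous_inv_of_isUnit {J : Type} [Fintype J] [DecidableEq J] {M : T → Matrix J J ℂ}
    (hM : Continuous M) (hu : ∀ t, IsUnit (M t)) : Continuous fun t => (M t)⁻¹ := by
  simp only [Matrix.inv_def, Ring.inverse_eq_inv']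
  exact (hM.matrix_det.inv₀ fun t => ((Matrix.isUnit_iff_isUnit_det _).1 (hu t)).ne_zero).smul
    hM.matrix_adjugate

open scoped ComplexOrder in
theorem isUnit_gram_of_inj {J K : Type} [Fintype J] [Fintype K] [DecidableEq K]
    {M : Matrix J K ℂ} (h : ∀ v, M *ᵥ v = 0 → v = 0) : IsUnit (Mᴴ * M) := by
  refine Matrix.mulVec_injective_iff_isUnit.1 fun v w hvw => sub_eq_zero.1 (h _ ?_)
  rw [← Matrix.conjTranspose_mul_self_mulVec_eq_zero, Matrix.mulVec_sub, hvw, sub_self]

/-- The unique solution of a continuous family of linear systems is continuous. -/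
theorem continuous_of_solve {J K : Type} [Fintype J] [Fintype K] {M : T → Matrix J K ℂ}
    (hM : Continuous M) (hi : ∀ t v, M t *ᵥ v = 0 → v = 0) {b : T → J → ℂ} (hb : Continuous b)
    {x : T → K → ℂ} (hx : ∀ t, M t *ᵥ x t = b t) : Continuous x := by
  classical
  have hu : ∀ t, IsUnit ((M t)ᴴ * M t) := fun t => isUnit_gram_of_inj (hi t)
  have e : x = fun t => ((M t)ᴴ * M t)⁻¹ *ᵥ ((M t)ᴴ *ᵥ b t) := by
    funext t
    rw [← hx, Matrix.mulVec_mulVec (x t), Matrix.mulVec_mulVec,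
      Matrix.nonsing_inv_mul _ ((Matrix.isUnit_iff_isUnit_det _).1 (hu t)), Matrix.one_mulVec]
  rw [e]
  exact (continuous_inv_of_isUnit (hM.matrix_conjTranspose.matrix_mul hM) hu).matrix_mulVec
    (hM.matrix_conjTranspose.matrix_mulVec hb)

/-- Continuity can be tested on the fibres of a locally constant function. -/
theorem continuous_of_fibres {Y Z : Type} [TopologicalSpace Y] {d : T → Z}
    (hd : IsLocallyConstant d) {f : T → Y}
    (h : ∀ v : Z, Continuous fun t : {t // d t = v} => f t.1) : Continuous f := by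
  refine continuous_iff_continuousAt.2 fun t => ?_
  have h1 : ContinuousOn f {s | d s = d t} :=
    continuousOn_iff_continuous_domRestrict.2 (h (d t))
  exact h1.continuousAt ((hd.isOpen_fiber (d t)).mem_nhds rfl)

end Pool.Agent.Lib.E2
end
end

-- part Pool.Agent.Lib.MP_10be03_gt.DFrm
section

/-!
Layer D: metrics on the quotient of the polynomial ring by a divisor, orthonormal frames,
projections onto ideals.
-/

noncomputable section
open Polynomial
open scoped Matrix ComplexConjugate MatrixOrder ComplexOrder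

namespace Pool.Agent.Lib.E2

/-- Sesquilinear forms on the polynomial ring. -/
abbrev Frm : Type := ℂ[X] →ₗ⋆[ℂ] ℂ[X] →ₗ[ℂ] ℂ

/-- `G` is positive semidefinite with kernel the ideal of `D`. -/
structure IsMet (D : Multiset ℂ) (G : Frm) : Prop where
  herm : ∀ f g, conj (G f g) = G g f
  nonneg : ∀ f, 0 ≤ (G f f).re
  ker : ∀ f, G f f = 0 ↔ pol D ∣ f

theorem Frm.ext' {G G' : Frm} (h : ∀ k l : ℕ, G (X ^ k) (X ^ l) = G' (X ^ k) (X ^ l)) :
    G = G' :=
  LinearMap.ext_basis (basisMonomials ℂ) (basisMonomials ℂ) fun k l => by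
    simpa only [coe_basisMonomials, ← X_pow_eq_monomial] using h k l

/-- The Gram matrix of the first `n` monomials. -/
def gram (n : ℕ) (G : Frm) : Matrix (Fin n) (Fin n) ℂ :=
  Matrix.of fun k l => G (X ^ (k : ℕ)) (X ^ (l : ℕ))

/-- The inverse of the square root of the Gram matrix. -/
def isq (n : ℕ) (G : Frm) : Matrix (Fin n) (Fin n) ℂ := (CFC.sqrt (gram n G))⁻¹

/-- Coordinates in the orthonormal frame. -/
def tau (n : ℕ) (G : Frm) : ℂ[X] →ₗ[ℂ] (Fin n → ℂ) :=
  (isq n G).mulVecLin ∘ₗ LinearMap.pi fun k : Fin n => G (X ^ (k : ℕ))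

/-- The orthonormal frame. -/
def sig (n : ℕ) (G : Frm) (l : Fin n) : ℂ[X] := ∑ k : Fin n, C (isq n G k l) * X ^ (k : ℕ)

/-- The matrix of a linear map in the orthonormal frame. -/
def matOf {n' : ℕ} (n : ℕ) (G : Frm) (L : ℂ[X] →ₗ[ℂ] (Fin n' → ℂ)) : Matrix (Fin n') (Fin n) ℂ :=
  Matrix.of fun k l => L (sig n G l) k

/-- The form `M` pulled back along `L`. -/
def pullForm {n : ℕ} (M : Matrix (Fin n) (Fin n) ℂ) (L : ℂ[X] →ₗ[ℂ] (Fin n → ℂ)) : Frm :=
  LinearMap.mk₂'ₛₗ (starRingEnd ℂ) (RingHom.id ℂ) (fun f g => star (L f) ⬝ᵥ (M *ᵥ L g))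
    (fun _ _ _ => by simp [add_dotProduct]) (fun _ _ _ => by simp [smul_dotProduct])
    (fun _ _ _ => by simp [Matrix.mulVec_add, dotProduct_add])
    (fun _ _ _ => by simp [Matrix.mulVec_smul, dotProduct_smul])

theorem pullForm_apply {n : ℕ} (M : Matrix (Fin n) (Fin n) ℂ) (L : ℂ[X] →ₗ[ℂ] (Fin n → ℂ))
    (f g : ℂ[X]) : pullForm M L f g = star (L f) ⬝ᵥ (M *ᵥ L g) := rfl

/-- The coefficients of the remainder. -/
def co (n : ℕ) (D : Multiset ℂ) : ℂ[X] →ₗ[ℂ] (Fin n → ℂ) :=
  (LinearMap.pi fun k : Fin n => lcoeff ℂ (k : ℕ)) ∘ₗ modByMonicHom (pol D)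

/-- The images of the multiples of `Q` by the first `d` monomials. -/
def cols (n d : ℕ) (G : Frm) (Q : ℂ[X]) : Matrix (Fin n) (Fin d) ℂ :=
  Matrix.of fun k l => tau n G (Q * X ^ (l : ℕ)) k

/-- The orthogonal projection onto the ideal of `Q`. -/
def dprj (n d : ℕ) (G : Frm) (Q : ℂ[X]) : Matrix (Fin n) (Fin n) ℂ :=
  cols n d G Q * ((cols n d G Q)ᴴ * cols n d G Q)⁻¹ * (cols n d G Q)ᴴ

/-- A matrix as a raw matrix. -/
def raw {a b : ℕ} (M : Matrix (Fin a) (Fin b) ℂ) (k l : ℕ) : ℂ :=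
  if h : k < a ∧ l < b then M ⟨k, h.1⟩ ⟨l, h.2⟩ else 0

@[simp] theorem mat_raw {a b : ℕ} (M : Matrix (Fin a) (Fin b) ℂ) : mat (raw M) a b = M := by
  ext k l; simp [mat, raw]

theorem continuous_raw {a b : ℕ} : Continuous (raw (a := a) (b := b)) := by
  refine continuous_pi fun k => continuous_pi fun l => ?_
  by_cases h : k < a ∧ l < b
  · simp only [raw, dif_pos h]
    exact continuous_id.matrix_elem _ _
  · simp only [raw, dif_neg h]
    exact continuous_const

theorem proj_eq {n : ℕ} {p q : Matrix (Fin n) (Fin n) ℂ} (hp : IsStarProjection p)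
    (hq : IsStarProjection q) (h : q * p = p) (ht : p.trace = q.trace) : p = q := by
  have hr := hp.sub_of_mul_eq_right hq h
  have h1 : ((q - p)ᴴ * (q - p)).trace = 0 := by
    rw [← Matrix.star_eq_conjTranspose, hr.isSelfAdjoint.star_eq, hr.isIdempotentElem.eq,
      Matrix.trace_sub, ht, sub_self]
  exact (sub_eq_zero.1 (Matrix.trace_conjTranspose_mul_self_eq_zero_iff.1 h1)).symm

/-- The polynomial with the given coefficients. -/
def dPoly {n : ℕ} (a : Fin n → ℂ) : ℂ[X] := ∑ k : Fin n, C (a k) * X ^ (k : ℕ)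

theorem dPoly_coeff {n : ℕ} (a : Fin n → ℂ) (k : Fin n) : (dPoly a).coeff k = a k := by
  simp [dPoly, coeff_X_pow, Fin.val_inj]

theorem dPoly_degree {n : ℕ} (a : Fin n → ℂ) : (dPoly a).degree < n := by
  simpa only [dPoly, C_mul_X_pow_eq_monomial] using degree_sum_fin_lt a

theorem dPoly_map {n : ℕ} {V : Type} [AddCommGroup V] [Module ℂ V] (L : ℂ[X] →ₗ[ℂ] V)
    (a : Fin n → ℂ) : L (dPoly a) = ∑ k : Fin n, a k • L (X ^ (k : ℕ)) := by
  simp only [dPoly, map_sum, C_mul', map_smul]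

theorem dPoly_form {n : ℕ} (G : Frm) (a b : Fin n → ℂ) :
    G (dPoly a) (dPoly b) = star a ⬝ᵥ (gram n G *ᵥ b) := by
  rw [dPoly, map_sum, LinearMap.sum_apply, dotProduct]
  refine Finset.sum_congr rfl fun k _ => ?_
  rw [C_mul', map_smulₛₗ, LinearMap.smul_apply, dPoly_map]
  simp [gram, Matrix.mulVec, dotProduct, mul_comm]

theorem dCo_apply (n : ℕ) (D : Multiset ℂ) (f : ℂ[X]) (k : Fin n) :
    co n D f k = (f %ₘ pol D).coeff k := rfl

theorem dCo_mod {D : Multiset ℂ} {n : ℕ} (hn : D.card = n) (f : ℂ[X]) :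
    dPoly (co n D f) = f %ₘ pol D := by
  have h1 : (f %ₘ pol D).degree < n := by
    rw [← hn, ← degree_pol]
    exact degree_modByMonic_lt _ (pol_monic D)
  simp only [dPoly, dCo_apply, C_mul_X_pow_eq_monomial]
  exact sum_fin (fun i a => monomial i a) (by simp) h1 |>.trans (sum_monomial_eq _)

theorem dCo_dvd {D : Multiset ℂ} {n : ℕ} (hn : D.card = n) (f : ℂ[X]) :
    pol D ∣ f - dPoly (co n D f) := by
  rw [dCo_mod hn, modByMonic_eq_sub_mul_div, sub_sub_cancel]
  exact dvd_mul_right _ _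

theorem dCo_poly {D : Multiset ℂ} {n : ℕ} (hn : D.card = n) (a : Fin n → ℂ) :
    co n D (dPoly a) = a := by
  funext k
  rw [dCo_apply, (modByMonic_eq_self_iff (pol_monic D)).2 (by
    rw [degree_pol, hn]; exact dPoly_degree a), dPoly_coeff]

theorem dCo_eq_zero {D : Multiset ℂ} {n : ℕ} (hn : D.card = n) (f : ℂ[X]) :
    co n D f = 0 ↔ pol D ∣ f := by
  constructor
  · intro h
    simpa [h, dPoly] using dCo_dvd hn f
  · intro h
    funext k
    rw [dCo_apply, (modByMonic_eq_zero_iff_dvd (pol_monic D)).2 h, coeff_zero, Pi.zero_apply]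

theorem dSqrt {n : ℕ} {M : Matrix (Fin n) (Fin n) ℂ} (hM : M.PosDef) :
    (CFC.sqrt M)ᴴ = CFC.sqrt M ∧ CFC.sqrt M * CFC.sqrt M = M ∧ IsUnit (CFC.sqrt M).det := by
  have h1 := CFC.sqrt_mul_sqrt_self M hM.posSemidef.nonneg
  refine ⟨(Matrix.nonneg_iff_posSemidef.1 (CFC.sqrt_nonneg M)).1, h1, ?_⟩
  have h2 := (Matrix.isUnit_iff_isUnit_det M).1 hM.isUnit
  rw [← h1, Matrix.det_mul] at h2
  exact isUnit_of_mul_isUnit_left h2

namespace IsMet

variable {D : Multiset ℂ} {G : Frm} {n : ℕ}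

theorem apply_eq_zero (h : IsMet D G) {f : ℂ[X]} (hf : pol D ∣ f) (g : ℂ[X]) : G g f = 0 := by
  have h0 := (h.ker f).2 hf
  have hN := h.nonneg g
  have hi : (G g g).im = 0 := Complex.conj_eq_iff_im.1 (h.herm g g)
  obtain ⟨t, ht⟩ : ∃ t : ℝ, t * ((G g g).re + 1) = 1 := ⟨_, inv_mul_cancel₀ (by positivity)⟩
  have t0 : 0 < t := (mul_pos_iff_of_pos_right (by positivity)).1 (ht ▸ one_pos)
  have h1 := h.nonneg (f + (-(t : ℂ) * G g f) • g)
  simp only [map_add, map_smulₛₗ, LinearMap.add_apply, LinearMap.smul_apply, h0, ← h.herm g f,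
    smul_eq_mul, RingHom.id_apply, map_mul, map_neg, Complex.conj_ofReal] at h1
  have h2 : 0 ≤ t * Complex.normSq (G g f) * (t * (G g g).re - 2) := by
    convert h1 using 1
    simp [Complex.normSq_apply, hi]
    ring
  have h3 : t * (G g g).re - 2 < 0 := by nlinarith
  have h4 := nonpos_of_mul_nonneg_left h2 h3
  exact Complex.normSq_eq_zero.1 ((nonpos_of_mul_nonpos_right h4 t0).antisymm
    (Complex.normSq_nonneg _))

theorem dRight (h : IsMet D G) (hn : D.card = n) (g f : ℂ[X]) :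
    G g f = G g (dPoly (co n D f)) := by
  rw [← sub_eq_zero, ← map_sub]
  exact h.apply_eq_zero (dCo_dvd hn f) g

theorem dForm (h : IsMet D G) (hn : D.card = n) (f g : ℂ[X]) :
    G f g = star (co n D f) ⬝ᵥ (gram n G *ᵥ co n D g) := by
  rw [← dPoly_form, ← h.dRight hn, ← h.herm g f, ← h.herm g, ← h.dRight hn]

theorem posDef_gram (h : IsMet D G) (hn : D.card = n) : (gram n G).PosDef := by
  refine .of_dotProduct_mulVec_pos (Matrix.ext fun k l => h.herm _ _) fun a ha => ?_
  rw [← dPoly_form]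
  refine lt_of_le_of_ne (Complex.nonneg_iff.2 ⟨h.nonneg _,
    (Complex.conj_eq_iff_im.1 (h.herm _ _)).symm⟩) fun h0 => ha ?_
  rw [← dCo_poly hn a]
  exact (dCo_eq_zero hn _).2 ((h.ker _).1 h0.symm)

theorem dTau (h : IsMet D G) (hn : D.card = n) (f : ℂ[X]) :
    tau n G f = CFC.sqrt (gram n G) *ᵥ co n D f := by
  obtain ⟨-, h1, h2⟩ := dSqrt (h.posDef_gram hn)
  have h3 : (fun k : Fin n => G (X ^ (k : ℕ)) f) = gram n G *ᵥ co n D f := by
    funext k
    rw [h.dRight hn, dPoly_map]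
    simp [gram, Matrix.mulVec, dotProduct, mul_comm]
  change isq n G *ᵥ (fun k : Fin n => G (X ^ (k : ℕ)) f) = _
  rw [h3, Matrix.mulVec_mulVec, isq]
  nth_rw 2 [← h1]
  rw [Matrix.nonsing_inv_mul_cancel_left _ _ h2]

theorem tau_dot (h : IsMet D G) (hn : D.card = n) (f g : ℂ[X]) :
    star (tau n G f) ⬝ᵥ tau n G g = G f g := by
  obtain ⟨h0, h1, -⟩ := dSqrt (h.posDef_gram hn)
  rw [h.dTau hn, h.dTau hn, h.dForm hn, Matrix.star_mulVec, h0, ← Matrix.dotProduct_mulVec,
    Matrix.mulVec_mulVec, h1]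

theorem tau_eq_zero (h : IsMet D G) (hn : D.card = n) (f : ℂ[X]) :
    tau n G f = 0 ↔ pol D ∣ f := by
  rw [← h.ker, ← h.tau_dot hn, dotProduct_star_self_eq_zero]

theorem tau_sig (h : IsMet D G) (hn : D.card = n) (l : Fin n) :
    tau n G (sig n G l) = Pi.single l 1 := by
  obtain ⟨-, -, h2⟩ := dSqrt (h.posDef_gram hn)
  have h3 : sig n G l = dPoly (isq n G *ᵥ Pi.single l 1) := by
    simp [sig, dPoly]
  rw [h.dTau hn, h3, dCo_poly hn, Matrix.mulVec_mulVec, isq, Matrix.mul_nonsing_inv _ h2,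
    Matrix.one_mulVec]

theorem dSum (h : IsMet D G) (hn : D.card = n) (v : Fin n → ℂ) :
    tau n G (∑ l, v l • sig n G l) = v := by
  simp only [map_sum, map_smul, h.tau_sig hn]
  exact (pi_eq_sum_univ' v).symm

theorem tau_surj (h : IsMet D G) (hn : D.card = n) : Function.Surjective (tau n G) :=
  fun v => ⟨_, h.dSum hn v⟩

theorem mat_ext (h : IsMet D G) (hn : D.card = n) {J : Type} {M M' : Matrix J (Fin n) ℂ}
    (hM : ∀ f, M *ᵥ tau n G f = M' *ᵥ tau n G f) : M = M' := by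
  ext j l
  simpa [h.tau_sig hn] using congrFun (hM (sig n G l)) j

theorem matOf_tau (h : IsMet D G) (hn : D.card = n) {n' : ℕ} {L : ℂ[X] →ₗ[ℂ] (Fin n' → ℂ)}
    (hL : ∀ f, pol D ∣ f → L f = 0) (f : ℂ[X]) : matOf n G L *ᵥ tau n G f = L f := by
  have h1 := hL (f - ∑ l, tau n G f l • sig n G l) ((h.tau_eq_zero hn _).1 (by
    rw [map_sub, h.dSum hn, sub_self]))
  rw [map_sub, sub_eq_zero] at h1
  rw [h1]
  funext k
  simp [matOf, Matrix.mulVec, dotProduct, mul_comm]

theorem pullForm_gram (h : IsMet D G) (hn : D.card = n) : pullForm (gram n G) (co n D) = G :=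
  LinearMap.ext₂ fun f g => (h.dForm hn f g).symm

end IsMet

theorem isMet_co {D : Multiset ℂ} {n : ℕ} (hn : D.card = n) {M : Matrix (Fin n) (Fin n) ℂ}
    (hM : M.PosDef) : IsMet D (pullForm M (co n D)) := by
  refine ⟨fun f g => ?_, fun f => (Complex.nonneg_iff.1
    (hM.posSemidef.dotProduct_mulVec_nonneg _)).1, fun f => ?_⟩
  · rw [pullForm_apply, pullForm_apply, starRingEnd_apply, ← Matrix.star_dotProduct_star, star_star,
      Matrix.star_mulVec, hM.1.eq, ← Matrix.dotProduct_mulVec]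
  · rw [pullForm_apply, ← dCo_eq_zero hn]
    exact ⟨fun h => by_contra fun h0 => (hM.dotProduct_mulVec_pos h0).ne' h, fun h => by simp [h]⟩

end Pool.Agent.Lib.E2
end
end

-- part Pool.Agent.Lib.MP_10be03_gt.DPrj
section

/-!
Layer D: the projection onto the ideal of a subdivisor, and continuity of the frames.
-/

noncomputable section
open Polynomial
open scoped Matrix

namespace Pool.Agent.Lib.E2

theorem Dprj_cols_mulVec (n d : ℕ) (G : Frm) (Q : ℂ[X]) (a : Fin d → ℂ) :
    cols n d G Q *ᵥ a = tau n G (Q * ∑ l : Fin d, C (a l) * X ^ (l : ℕ)) := by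
  ext k
  rw [Finset.mul_sum, map_sum, Finset.sum_apply]
  change ∑ l : Fin d, cols n d G Q k l * a l = _
  refine Finset.sum_congr rfl fun l _ => ?_
  rw [mul_left_comm, C_mul', map_smul]
  simp [cols, mul_comm]

theorem Dprj_coeff {d : ℕ} (a : Fin d → ℂ) (l : Fin d) :
    (∑ l : Fin d, C (a l) * X ^ (l : ℕ)).coeff l = a l := by
  simp [finsetSum_coeff, coeff_X_pow, Fin.val_inj]

theorem Dprj_sum_coeff {d : ℕ} {f : ℂ[X]} (hf : f.degree < (d : ℕ)) :
    ∑ l : Fin d, C (f.coeff l) * X ^ (l : ℕ) = f := by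
  ext k
  by_cases hk : k < d
  · exact Dprj_coeff (fun l : Fin d => f.coeff l) ⟨k, hk⟩
  · have h1 : ((d : ℕ) : WithBot ℕ) ≤ k := by exact_mod_cast not_lt.1 hk
    rw [coeff_eq_zero_of_degree_lt (lt_of_lt_of_le hf h1),
      coeff_eq_zero_of_degree_lt (lt_of_lt_of_le (degree_sum_fin_lt _) h1)]

namespace IsMet

variable {D Q R : Multiset ℂ} {G : Frm} {n d : ℕ}

theorem isUnit_cols (h : IsMet D G) (hn : D.card = n) (hD : D = Q + R) (hd : R.card = d) :
    IsUnit ((cols n d G (pol Q))ᴴ * cols n d G (pol Q)) := by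
  refine isUnit_gram_of_inj fun v hv => ?_
  rw [Dprj_cols_mulVec, h.tau_eq_zero hn, hD, pol_add,
    mul_dvd_mul_iff_left (pol_monic Q).ne_zero] at hv
  have h0 := eq_zero_of_dvd_of_degree_lt hv
    (by rw [degree_pol, hd]; exact degree_sum_fin_lt _)
  ext l
  rw [← Dprj_coeff v l, h0]
  simp

theorem prj_cols (h : IsMet D G) (hn : D.card = n) (hD : D = Q + R) (hd : R.card = d) :
    dprj n d G (pol Q) * cols n d G (pol Q) = cols n d G (pol Q) := by
  have hu := (Matrix.isUnit_iff_isUnit_det _).1 (h.isUnit_cols hn hD hd)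
  rw [dprj, Matrix.mul_assoc, Matrix.mul_assoc, Matrix.nonsing_inv_mul _ hu, Matrix.mul_one]

theorem prj_proj (h : IsMet D G) (hn : D.card = n) (hD : D = Q + R) (hd : R.card = d) :
    IsStarProjection (dprj n d G (pol Q)) := by
  refine ⟨?_, ?_⟩
  · have h1 := h.prj_cols hn hD hd
    change dprj n d G (pol Q) * dprj n d G (pol Q) = dprj n d G (pol Q)
    nth_rw 2 [dprj]
    rw [← Matrix.mul_assoc, ← Matrix.mul_assoc, h1, dprj]
  · change (dprj n d G (pol Q))ᴴ = dprj n d G (pol Q)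
    simp [dprj, Matrix.conjTranspose_mul, Matrix.conjTranspose_nonsing_inv, Matrix.mul_assoc]

theorem prj_trace (h : IsMet D G) (hn : D.card = n) (hD : D = Q + R) (hd : R.card = d) :
    (dprj n d G (pol Q)).trace = d := by
  have hu := (Matrix.isUnit_iff_isUnit_det _).1 (h.isUnit_cols hn hD hd)
  rw [dprj, Matrix.trace_mul_comm, ← Matrix.mul_assoc, Matrix.mul_nonsing_inv _ hu]
  simp

theorem prj_tau (h : IsMet D G) (hn : D.card = n) (hD : D = Q + R) (hd : R.card = d)
    {f : ℂ[X]} (hf : pol Q ∣ f) : dprj n d G (pol Q) *ᵥ tau n G f = tau n G f := by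
  obtain ⟨g, rfl⟩ := hf
  have h1 : (g %ₘ pol R).degree < (d : ℕ) := by
    rw [← hd, ← degree_pol]
    exact degree_modByMonic_lt g (pol_monic R)
  have h2 : tau n G (pol Q * g) = tau n G (pol Q * (g %ₘ pol R)) := by
    rw [← sub_eq_zero, ← map_sub, h.tau_eq_zero hn, hD, pol_add, ← mul_sub]
    refine mul_dvd_mul_left _ ⟨g /ₘ pol R, ?_⟩
    rw [sub_eq_iff_eq_add']
    exact (modByMonic_add_div g _).symm
  rw [h2, ← Dprj_sum_coeff h1, ← Dprj_cols_mulVec, Matrix.mulVec_mulVec, h.prj_cols hn hD hd]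

theorem prj_range (h : IsMet D G) (hn : D.card = n) (hD : D = Q + R) (hd : R.card = d)
    (y : Fin n → ℂ) : ∃ f, pol Q ∣ f ∧ dprj n d G (pol Q) *ᵥ y = tau n G f := by
  have _ := h.prj_cols hn hD hd
  rw [dprj, Matrix.mul_assoc, ← Matrix.mulVec_mulVec, Dprj_cols_mulVec]
  exact ⟨_, dvd_mul_right _ _, rfl⟩

theorem prj_fix_iff (h : IsMet D G) (hn : D.card = n) (hD : D = Q + R) (hd : R.card = d)
    (f : ℂ[X]) : dprj n d G (pol Q) *ᵥ tau n G f = tau n G f ↔ pol Q ∣ f := by
  refine ⟨fun hf => ?_, h.prj_tau hn hD hd⟩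
  obtain ⟨g, hg, e⟩ := h.prj_range hn hD hd (tau n G f)
  rw [hf, ← sub_eq_zero, ← map_sub, h.tau_eq_zero hn, hD, pol_add] at e
  simpa using dvd_add ((dvd_mul_right _ _).trans e) hg

theorem prj_one (h : IsMet D G) (hn : D.card = n) : dprj n n G 1 = 1 := by
  refine h.mat_ext hn fun f => ?_
  have h1 := h.prj_tau (Q := 0) (R := D) hn (zero_add D).symm hn (f := f) (by simp)
  simpa using h1

end IsMet

theorem prj_zero (n : ℕ) (G : Frm) (Q : ℂ[X]) : dprj n 0 G Q = 0 := by
  ext k l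
  simp [dprj, Matrix.mul_apply]

variable {T : Type} [TopologicalSpace T]

/-- A continuous family of forms. -/
def CF (G : T → Frm) : Prop := ∀ k l : ℕ, Continuous fun t => G t (X ^ k) (X ^ l)

theorem CF.apply {G : T → Frm} (hG : CF G) {F F' : T → ℂ[X]} (hF : CP F) (hF' : CP F') :
    Continuous fun t => G t (F t) (F' t) := by
  refine hF'.apply (L := fun t => G t (F t)) fun k => ?_
  have h1 := hF.apply (L := fun t => (⟨⟨fun f => star (G t f (X ^ k)), fun f g => by simp⟩,
    fun a f => by simp⟩ : ℂ[X] →ₗ[ℂ] ℂ)) fun l => (hG l k).star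
  simpa using h1.star

theorem CF.pullForm {n : ℕ} {M : T → Matrix (Fin n) (Fin n) ℂ} (hM : Continuous M)
    {L : T → ℂ[X] →ₗ[ℂ] (Fin n → ℂ)} (hL : ∀ k : ℕ, Continuous fun t => L t (X ^ k)) :
    CF fun t => pullForm (M t) (L t) := by
  intro k l
  simp only [pullForm_apply]
  exact (hL k).star.dotProduct (hM.matrix_mulVec (hL l))

theorem CF.gram {G : T → Frm} (hG : CF G) (n : ℕ) : Continuous fun t => gram n (G t) := by
  exact continuous_matrix fun k l => hG k l

theorem CD.co {D : T → Multiset ℂ} (hD : CD D) (n : ℕ) {F : T → ℂ[X]} (hF : CP F) :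
    Continuous fun t => co n (D t) (F t) := by
  exact continuous_pi fun k => (hF.modBy hD).2 k

open scoped MatrixOrder ComplexOrder in
theorem Dprj_continuousOn_sqrt (n : ℕ) :
    ContinuousOn (CFC.sqrt : Matrix (Fin n) (Fin n) ℂ → Matrix (Fin n) (Fin n) ℂ) {a | 0 ≤ a} := by
  open scoped Matrix.Norms.L2Operator in exact CFC.continuousOn_sqrt

variable {G : T → Frm} {D : T → Multiset ℂ} {n : ℕ}

open scoped MatrixOrder ComplexOrder in
theorem CF.isq (hG : CF G) (h : ∀ t, IsMet (D t) (G t)) (hn : ∀ t, (D t).card = n) :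
    Continuous fun t => isq n (G t) := by
  have hp := fun t => (h t).posDef_gram (hn t)
  refine continuous_inv_of_isUnit ((Dprj_continuousOn_sqrt n).comp_continuous (hG.gram n)
    fun t => (hp t).posSemidef.nonneg) fun t => ?_
  have h1 := (hp t).isUnit
  rw [← CFC.sqrt_mul_sqrt_self _ (hp t).posSemidef.nonneg] at h1
  exact isUnit_of_mul_isUnit_left h1

theorem CF.tau (hG : CF G) (h : ∀ t, IsMet (D t) (G t)) (hn : ∀ t, (D t).card = n)
    {F : T → ℂ[X]} (hF : CP F) : Continuous fun t => tau n (G t) (F t) := by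
  exact (hG.isq h hn).matrix_mulVec
    (continuous_pi fun k : Fin n => hG.apply (CP.const (X ^ (k : ℕ))) hF)

theorem CF.sig (hG : CF G) (h : ∀ t, IsMet (D t) (G t)) (hn : ∀ t, (D t).card = n) (l : Fin n) :
    CP fun t => sig n (G t) l := by
  exact CP.sum _ fun k _ => (CP.C' ((hG.isq h hn).matrix_elem k l)).mul (CP.const _)

theorem CF.matOf (hG : CF G) (h : ∀ t, IsMet (D t) (G t)) (hn : ∀ t, (D t).card = n) {n' : ℕ}
    {L : T → ℂ[X] →ₗ[ℂ] (Fin n' → ℂ)} (hL : ∀ k : ℕ, Continuous fun t => L t (X ^ k)) :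
    Continuous fun t => matOf n (G t) (L t) := by
  exact continuous_matrix fun k l => (continuous_apply k).comp ((hG.sig h hn l).apply hL)

theorem CF.dprj (hG : CF G) (h : ∀ t, IsMet (D t) (G t)) (hn : ∀ t, (D t).card = n)
    {Q R : T → Multiset ℂ} (hQ : CD Q) (hD : ∀ t, D t = Q t + R t) {d : ℕ}
    (hd : ∀ t, (R t).card = d) : Continuous fun t => dprj n d (G t) (pol (Q t)) := by
  have hc : Continuous fun t => cols n d (G t) (pol (Q t)) :=
    continuous_matrix fun k l => (continuous_apply k).comp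
      (hG.tau h hn (hQ.cp.mul (CP.const (X ^ (l : ℕ)))))
  exact (hc.matrix_mul (continuous_inv_of_isUnit (hc.matrix_conjTranspose.matrix_mul hc)
    fun t => (h t).isUnit_cols (hn t) (hD t) (hd t))).matrix_mul hc.matrix_conjTranspose

end Pool.Agent.Lib.E2
end
end
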