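import Pool.Agent.Lib.MP_10be03_gt.KPair
import Pool.Agent.Lib.MP_10be03_gt.DPrj
import Pool.Agent.Lib.MP_10be03_gt.H

-- part Pool.Agent.Lib.MP_10be03_gt.KXP
section

/-!
Operations on generating pairs.
-/

noncomputable section
open scoped ZeroAtInfty

namespace Pool.Agent.Lib.E2

variable {A B : Type} [CStarAlgebra A] [CStarAlgebra B]

/-- A multiplicative star preserving linear map out of `C₀(ℝ)` gives a pair. -/
theorem kx_mk (φ : C₀(ℝ, ℂ) → A) (hadd : ∀ f g, φ (f + g) = φ f + φ g)
    (hsmul : ∀ (c : ℂ) f, φ (c • f) = c • φ f) (hmul : ∀ f g, φ (f * g) = φ f * φ g)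
    (hstar : ∀ f, φ (star f) = star (φ f)) : IsGP (φ e1) (φ e2) :=
  SHom.isGP (show C₀(ℝ, ℂ) →⋆ₙₐ[ℂ] A from
    { toFun := φ
      map_smul' := hsmul
      map_zero' := by
        have h := hsmul 0 0
        rwa [zero_smul, zero_smul] at h
      map_add' := hadd
      map_mul' := hmul
      map_star' := hstar })

/-- The commutant of a self-adjoint element. -/
def kxComm (q : A) (hq : star q = q) : NonUnitalStarSubalgebra ℂ A where
  carrier := {T | q * T = T * q}
  add_mem' := fun {x y} (hx : q * x = x * q) (hy : q * y = y * q) => by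
    change q * (x + y) = (x + y) * q
    rw [mul_add, add_mul, hx, hy]
  zero_mem' := by
    change q * 0 = 0 * q
    rw [mul_zero, zero_mul]
  mul_mem' := fun {x y} (hx : q * x = x * q) (hy : q * y = y * q) => by
    change q * (x * y) = (x * y) * q
    rw [← mul_assoc, hx, mul_assoc, hy, mul_assoc]
  smul_mem' := fun c x (hx : q * x = x * q) => by
    change q * (c • x) = (c • x) * q
    rw [mul_smul_comm, smul_mul_assoc, hx]
  star_mem' := fun {x} (hx : q * x = x * q) => by
    change q * star x = star x * q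
    have h := congrArg star hx
    rw [star_mul, star_mul, hq] at h
    exact h.symm

theorem kx_mem_comm {q : A} {hq : star q = q} {T : A} : T ∈ kxComm q hq ↔ q * T = T * q :=
  Iff.rfl

theorem kx_closed_comm (q : A) (hq : star q = q) : IsClosed (kxComm q hq : Set A) :=
  isClosed_eq (f := fun T : A => q * T) (g := fun T : A => T * q) (by fun_prop) (by fun_prop)

/-- The elements on which a self-adjoint element acts as a real scalar from both sides. -/
def kxEig (q : A) (hq : star q = q) (c : ℂ) (hc : star c = c) : NonUnitalStarSubalgebra ℂ A where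
  carrier := {T | T * q = c • T ∧ q * T = c • T}
  add_mem' := fun {x y} (hx : x * q = c • x ∧ q * x = c • x)
      (hy : y * q = c • y ∧ q * y = c • y) => by
    change (x + y) * q = c • (x + y) ∧ q * (x + y) = c • (x + y)
    rw [mul_add, add_mul, hx.1, hx.2, hy.1, hy.2, smul_add]
    exact ⟨rfl, rfl⟩
  zero_mem' := by
    change 0 * q = c • (0 : A) ∧ q * 0 = c • (0 : A)
    rw [mul_zero, zero_mul, smul_zero]
    exact ⟨rfl, rfl⟩
  mul_mem' := fun {x y} (hx : x * q = c • x ∧ q * x = c • x)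
      (hy : y * q = c • y ∧ q * y = c • y) => by
    change (x * y) * q = c • (x * y) ∧ q * (x * y) = c • (x * y)
    rw [mul_assoc, hy.1, ← mul_assoc, hx.2, mul_smul_comm, smul_mul_assoc]
    exact ⟨rfl, rfl⟩
  smul_mem' := fun d x (hx : x * q = c • x ∧ q * x = c • x) => by
    change (d • x) * q = c • (d • x) ∧ q * (d • x) = c • (d • x)
    rw [mul_smul_comm, smul_mul_assoc, hx.1, hx.2, smul_comm]
    exact ⟨rfl, rfl⟩
  star_mem' := fun {x} (hx : x * q = c • x ∧ q * x = c • x) => by
    change star x * q = c • star x ∧ q * star x = c • star x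
    have h1 := congrArg star hx.1
    have h2 := congrArg star hx.2
    rw [star_mul, star_smul, hq, hc] at h1 h2
    exact ⟨h2, h1⟩

theorem kx_mem_eig {q : A} {hq : star q = q} {c : ℂ} {hc : star c = c} {T : A} :
    T ∈ kxEig q hq c hc ↔ T * q = c • T ∧ q * T = c • T := Iff.rfl

theorem kx_closed_eig (q : A) (hq : star q = q) (c : ℂ) (hc : star c = c) :
    IsClosed (kxEig q hq c hc : Set A) :=
  (isClosed_eq (f := fun T : A => T * q) (g := fun T : A => c • T) (by fun_prop)
    (by fun_prop)).inter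
    (isClosed_eq (f := fun T : A => q * T) (g := fun T : A => c • T) (by fun_prop) (by fun_prop))

theorem kx_mem_eig_of {q : A} (hq : star q = q) {c : ℂ} (hc : star c = c) {T : A}
    (hT : IsSelfAdjoint T) (h : T * q = c • T) : T ∈ kxEig q hq c hc := by
  refine kx_mem_eig.2 ⟨h, ?_⟩
  have h1 := congrArg star h
  rwa [star_mul, star_smul, hq, hc, hT.star_eq] at h1

theorem isGP_zero : IsGP (0 : A) 0 := (SHom.zero C₀(ℝ, ℂ) A).isGP

/-- The image of a pair under a linear map that is a star homomorphism on a closed subalgebra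
containing the pair. -/
theorem IsGP.mapOn {a b : A} (h : IsGP a b) (S : NonUnitalStarSubalgebra ℂ A)
    (hS : IsClosed (S : Set A)) (ha : a ∈ S) (hb : b ∈ S) {F : A → B} (hF : IsLinearMap ℂ F)
    (hmul : ∀ x ∈ S, ∀ y ∈ S, F (x * y) = F x * F y) (hstar : ∀ x ∈ S, F (star x) = star (F x)) :
    IsGP (F a) (F b) := by
  have hm : ∀ f, h.shom.app f ∈ S := fun f =>
    h.shom.app_mem S hS (by rw [h.shom_e1]; exact ha) (by rw [h.shom_e2]; exact hb) f
  have h1 := kx_mk (fun f => F (h.shom.app f))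
    (fun f g => by rw [SHom.app_add, hF.map_add])
    (fun c f => by rw [SHom.app_smul, hF.map_smul])
    (fun f g => by rw [SHom.app_mul, hmul _ (hm f) _ (hm g)])
    (fun f => by rw [SHom.app_star, hstar _ (hm f)])
  rwa [h.shom_e1, h.shom_e2] at h1

theorem mul_eq_self_of_star_mul {u q : A} (hq : star u * u = q) (hqq : q * q = q) : u * q = u := by
  have hs : star q = q := by rw [← hq, star_mul, star_star]
  have h : star (u * q - u) * (u * q - u) = 0 := by
    rw [star_sub, star_mul, hs, sub_mul, mul_sub, mul_sub, mul_assoc q, ← mul_assoc (star u),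
      hq, mul_assoc q, hq, hqq, hqq, sub_self]
  exact sub_eq_zero.1 ((CStarRing.star_mul_self_eq_zero_iff _).1 h)

/-- Conjugation by an element whose source projection commutes with the pair. -/
theorem IsGP.conj {a b u q : A} (h : IsGP a b) (hq : star u * u = q) (hqq : q * q = q)
    (ha : Commute q a) (hb : Commute q b) : IsGP (u * a * star u) (u * b * star u) := by
  have hs : star q = q := by rw [← hq, star_mul, star_star]
  have hu : u * q = u := mul_eq_self_of_star_mul hq hqq
  refine h.mapOn (kxComm q hs) (kx_closed_comm q hs) (kx_mem_comm.2 ha.eq) (kx_mem_comm.2 hb.eq)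
    (F := fun x => u * x * star u) ⟨fun x y => ?_, fun c x => ?_⟩ (fun x hx y _ => ?_)
    (fun x _ => ?_)
  · rw [mul_add, add_mul]
  · rw [mul_smul_comm, smul_mul_assoc]
  · have h1 : q * x = x * q := kx_mem_comm.1 hx
    calc u * (x * y) * star u = u * q * x * y * star u := by rw [hu, mul_assoc u x y]
      _ = u * x * (star u * u) * y * star u := by rw [hq, mul_assoc u q x, h1, ← mul_assoc u x q]
      _ = u * x * star u * (u * y * star u) := by simp only [mul_assoc]
  · rw [star_mul, star_mul, star_star, mul_assoc]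

/-- Compression by a commuting projection. -/
theorem IsGP.cut {a b q : A} (h : IsGP a b) (hq : IsStarProjection q) (ha : Commute q a)
    (hb : Commute q b) : IsGP (a * q) (b * q) := by
  have hs : star q = q := hq.isSelfAdjoint.star_eq
  have hqq : q * q = q := hq.isIdempotentElem.eq
  have h1 := h.conj (u := q) (q := q) (by rw [hs, hqq]) hqq ha hb
  rwa [hs, ha.eq, hb.eq, mul_assoc, mul_assoc, hqq] at h1

/-- The sum of two orthogonal pairs. -/
theorem IsGP.add_orth {a b a' b' q : A} (h : IsGP a b) (h' : IsGP a' b') (hq : star q = q)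
    (ha : a * q = a) (hb : b * q = b) (ha' : a' * q = 0) (hb' : b' * q = 0) :
    IsGP (a + a') (b + b') := by
  have hm : ∀ f, h.shom.app f ∈ kxEig q hq 1 (star_one ℂ) := fun f =>
    h.shom.app_mem _ (kx_closed_eig q hq 1 _)
      (by rw [h.shom_e1]; exact kx_mem_eig_of hq _ h.sa1 (by rw [ha, one_smul]))
      (by rw [h.shom_e2]; exact kx_mem_eig_of hq _ h.sa2 (by rw [hb, one_smul])) f
  have hm' : ∀ f, h'.shom.app f ∈ kxEig q hq 0 (star_zero ℂ) := fun f =>
    h'.shom.app_mem _ (kx_closed_eig q hq 0 _)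
      (by rw [h'.shom_e1]; exact kx_mem_eig_of hq _ h'.sa1 (by rw [ha', zero_smul]))
      (by rw [h'.shom_e2]; exact kx_mem_eig_of hq _ h'.sa2 (by rw [hb', zero_smul])) f
  have o1 : ∀ f g, h.shom.app f * h'.shom.app g = 0 := fun f g => by
    have k1 := (kx_mem_eig.1 (hm f)).1
    have k2 := (kx_mem_eig.1 (hm' g)).2
    rw [one_smul] at k1
    rw [zero_smul] at k2
    rw [← k1, mul_assoc, k2, mul_zero]
  have o2 : ∀ f g, h'.shom.app f * h.shom.app g = 0 := fun f g => by
    have k1 := (kx_mem_eig.1 (hm g)).2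
    have k2 := (kx_mem_eig.1 (hm' f)).1
    rw [one_smul] at k1
    rw [zero_smul] at k2
    rw [← k1, ← mul_assoc, k2, zero_mul]
  have h1 := kx_mk (fun f => h.shom.app f + h'.shom.app f)
    (fun f g => by rw [SHom.app_add, SHom.app_add, add_add_add_comm])
    (fun c f => by rw [SHom.app_smul, SHom.app_smul, smul_add])
    (fun f g => by
      rw [SHom.app_mul, SHom.app_mul, add_mul, mul_add, mul_add, o1, o2, add_zero, zero_add])
    (fun f => by rw [SHom.app_star, SHom.app_star, star_add])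
  rwa [h.shom_e1, h.shom_e2, h'.shom_e1, h'.shom_e2] at h1

/-- Scalar pairs. -/
theorem kx_scalar {r g : ℝ} (h0 : 0 ≤ r) (hr : r ≤ 1) (hg : g ^ 2 = -(r ^ 2 * Real.log r)) :
    IsGP (r : ℂ) (g : ℂ) where
  sa1 := Complex.conj_ofReal r
  sa2 := Complex.conj_ofReal g
  comm := mul_comm _ _
  spec := by
    intro z hz
    rw [quasispectrum_eq_spectrum_union_zero] at hz
    rcases hz with hz | rfl
    · rw [show (r : ℂ) + Complex.I • (g : ℂ) = algebraMap ℂ ℂ ((r : ℂ) + Complex.I • (g : ℂ))
        from rfl, spectrum.scalar_eq] at hz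
      obtain rfl := Set.mem_singleton_iff.1 hz
      have e1 : ((r : ℂ) + Complex.I • (g : ℂ)).re = r := by simp
      have e2 : ((r : ℂ) + Complex.I • (g : ℂ)).im = g := by simp
      refine ⟨?_, ?_, ?_⟩
      · rw [e1]; exact h0
      · rw [e1]; exact hr
      · rw [e1, e2]; exact hg
    · exact zero_mem_Gam

/-- Scalar multiples of a projection. -/
theorem kxp_proj {Q : A} (hs : star Q = Q) (hQ : Q * Q = Q) {r g : ℝ} (h0 : 0 ≤ r) (hr : r ≤ 1)
    (hg : g ^ 2 = -(r ^ 2 * Real.log r)) : IsGP ((r : ℂ) • Q) ((g : ℂ) • Q) :=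
  (kx_scalar h0 hr hg).mapOn ⊤ isClosed_univ trivial trivial (F := fun z : ℂ => z • Q)
    ⟨fun x y => add_smul x y Q, fun c x => mul_smul c x Q⟩
    (fun x _ y _ => by rw [smul_mul_smul_comm, hQ])
    (fun x _ => by rw [star_smul, hs])

/-- The pair of a self-adjoint unitary `D` of the corner `P`. -/
theorem isGP_corner {P D : A} (hP : IsStarProjection P) (hD : star D = D) (h1 : D * D = P)
    (h2 : P * D = D) {r : ℝ} (h0 : 0 ≤ r) (hr : r ≤ 1) :
    IsGP ((r : ℂ) • P) ((Real.sqrt (-(r ^ 2 * Real.log r)) : ℂ) • D) := by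
  have hs : star P = P := hP.isSelfAdjoint.star_eq
  have hPP : P * P = P := hP.isIdempotentElem.eq
  have h3 : D * P = D := by
    have h4 := congrArg star h2
    rwa [star_mul, hD, hs] at h4
  have hg : Real.sqrt (-(r ^ 2 * Real.log r)) ^ 2 = -(r ^ 2 * Real.log r) :=
    Real.sq_sqrt (neg_nonneg.2 (mul_nonpos_of_nonneg_of_nonpos (sq_nonneg r)
      (Real.log_nonpos h0 hr)))
  generalize Real.sqrt (-(r ^ 2 * Real.log r)) = g at hg ⊢
  have hh : star (2⁻¹ : ℂ) = 2⁻¹ := by simp
  have sp : star ((2⁻¹ : ℂ) • (P + D)) = (2⁻¹ : ℂ) • (P + D) := by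
    rw [star_smul, star_add, hs, hD, hh]
  have sm : star ((2⁻¹ : ℂ) • (P - D)) = (2⁻¹ : ℂ) • (P - D) := by
    rw [star_smul, star_sub, hs, hD, hh]
  have pp : (2⁻¹ : ℂ) • (P + D) * (2⁻¹ : ℂ) • (P + D) = (2⁻¹ : ℂ) • (P + D) := by
    rw [smul_mul_smul_comm, add_mul, mul_add, mul_add, hPP, h1, h2, h3]
    module
  have mm : (2⁻¹ : ℂ) • (P - D) * (2⁻¹ : ℂ) • (P - D) = (2⁻¹ : ℂ) • (P - D) := by
    rw [smul_mul_smul_comm, sub_mul, mul_sub, mul_sub, hPP, h1, h2, h3]
    module
  have mp : (2⁻¹ : ℂ) • (P - D) * (2⁻¹ : ℂ) • (P + D) = 0 := by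
    rw [smul_mul_smul_comm, sub_mul, mul_add, mul_add, hPP, h1, h2, h3]
    module
  have k1 := kxp_proj sp pp h0 hr hg
  have k2 := kxp_proj sm mm h0 hr (g := -g) (by rw [neg_sq, hg])
  have k3 := k1.add_orth k2 sp (by rw [smul_mul_assoc, pp]) (by rw [smul_mul_assoc, pp])
    (by rw [smul_mul_assoc, mp, smul_zero]) (by rw [smul_mul_assoc, mp, smul_zero])
  have e1 : (r : ℂ) • (2⁻¹ : ℂ) • (P + D) + (r : ℂ) • (2⁻¹ : ℂ) • (P - D) = (r : ℂ) • P := by
    module
  have e2 : (g : ℂ) • (2⁻¹ : ℂ) • (P + D) + ((-g : ℝ) : ℂ) • (2⁻¹ : ℂ) • (P - D) =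
      (g : ℂ) • D := by
    rw [Complex.ofReal_neg]
    module
  rwa [e1, e2] at k3

end Pool.Agent.Lib.E2
end
end

-- part Pool.Agent.Lib.MP_10be03_gt.DMor
section

/-!
Layer D: morphisms `D → D + A + B` of divisors with metrics, for one species.
-/

noncomputable section
open Polynomial
open scoped Matrix

namespace Pool.Agent.Lib.E2

/-- Multiply by `pol A * E` and project away from the ideal of `A + D`. -/
def phiL (n' nb : ℕ) (G' : Frm) (D A : Multiset ℂ) (E : ℂ[X]) : ℂ[X] →ₗ[ℂ] (Fin n' → ℂ) :=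
  (1 - dprj n' nb G' (pol (A + D))).mulVecLin ∘ₗ tau n' G' ∘ₗ LinearMap.mulLeft ℂ (pol A * E)

theorem phiL_apply (n' nb : ℕ) (G' : Frm) (D A : Multiset ℂ) (E f : ℂ[X]) :
    phiL n' nb G' D A E f =
      (1 - dprj n' nb G' (pol (A + D))) *ᵥ tau n' G' (pol A * E * f) := rfl

/-- The pulled back metric. -/
def pb (D A B : Multiset ℂ) (E : ℂ[X]) (G' : Frm) : Frm :=
  pullForm 1 (phiL (D + A + B).card B.card G' D A E)

/-- The isometry of a morphism. -/
def phiM (n' n nb : ℕ) (G G' : Frm) (D A : Multiset ℂ) (E : ℂ[X]) : Matrix (Fin n') (Fin n) ℂ :=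
  matOf n G (phiL n' nb G' D A E)

/-- The projection onto the quotient modes. -/
def paM (n' n nb : ℕ) (G' : Frm) (A : Multiset ℂ) : Matrix (Fin n') (Fin n') ℂ :=
  1 - dprj n' (n + nb) G' (pol A)

/-- The projection onto the submodule modes. -/
def pbM (n' nb : ℕ) (G' : Frm) (D A : Multiset ℂ) : Matrix (Fin n') (Fin n') ℂ :=
  dprj n' nb G' (pol (A + D))

/-- A morphism for one species, with its degrees. -/
structure IsMor (n na nb n' : ℕ) (D A B D' : Multiset ℂ) (E : ℂ[X]) (G G' : Frm) : Prop where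
  eq : D' = D + A + B
  hn : D.card = n
  hna : A.card = na
  hnb : B.card = nb
  hn' : D'.card = n'
  met' : IsMet D' G'
  nv : NV D E
  pull : G = pb D A B E G'

theorem Dmor_phiL_eq_zero {D A B D' : Multiset ℂ} {E : ℂ[X]} {G' : Frm} {n' nb : ℕ}
    (h : IsMet D' G') (hD : D' = D + A + B) (hn : D'.card = n') (hb : B.card = nb) (hE : NV D E)
    (f : ℂ[X]) : phiL n' nb G' D A E f = 0 ↔ pol D ∣ f := by
  rw [phiL_apply, Matrix.sub_mulVec, Matrix.one_mulVec, sub_eq_zero, eq_comm,
    h.prj_fix_iff hn (by rw [hD, add_comm D A]) hb, pol_add, mul_assoc,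
    mul_dvd_mul_iff_left (pol_monic A).ne_zero, mul_comm]
  exact ⟨hE.dvd_cancel, fun hf => hf.mul_right _⟩

theorem IsMet.Dmor_ext {D : Multiset ℂ} {G : Frm} {n : ℕ} (h : IsMet D G) (hn : D.card = n)
    {M M' : Matrix (Fin n) (Fin n) ℂ} (hM : ∀ f g, star (tau n G f) ⬝ᵥ (M *ᵥ tau n G g) =
      star (tau n G f) ⬝ᵥ (M' *ᵥ tau n G g)) : M = M' := by
  ext k l
  have h1 := hM (sig n G k) (sig n G l)
  rw [h.tau_sig hn, h.tau_sig hn] at h1
  simpa [← Pi.single_star] using h1

theorem IsMet.Dmor_prj_le {D Q R Q' R' : Multiset ℂ} {G : Frm} {n d d' : ℕ} (h : IsMet D G)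
    (hn : D.card = n) (hD : D = Q + R) (hd : R.card = d) (hD' : D = Q' + R') (hd' : R'.card = d')
    (hQ : pol Q ∣ pol Q') : dprj n d G (pol Q) * dprj n d' G (pol Q') = dprj n d' G (pol Q') := by
  refine h.mat_ext hn fun f => ?_
  obtain ⟨g, hg, e⟩ := h.prj_range hn hD' hd' (tau n G f)
  rw [← Matrix.mulVec_mulVec, e, h.prj_tau hn hD hd (hQ.trans hg)]

theorem Dmor_dot {a b : ℕ} {M : Matrix (Fin a) (Fin b) ℂ} (hM : Mᴴ * M = 1) (x y : Fin b → ℂ) :
    star (M *ᵥ x) ⬝ᵥ (M *ᵥ y) = star x ⬝ᵥ y := by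
  rw [Matrix.star_mulVec, ← Matrix.dotProduct_mulVec, Matrix.mulVec_mulVec, hM, Matrix.one_mulVec]

open scoped ComplexOrder in
theorem isMet_pb {D A B : Multiset ℂ} {E : ℂ[X]} {G' : Frm} (h : IsMet (D + A + B) G')
    (hE : NV D E) : IsMet D (pb D A B E G') := by
  refine ⟨fun f g => ?_, fun f => ?_, fun f => ?_⟩
  · simp only [pb, pullForm_apply, Matrix.one_mulVec]
    exact (Matrix.star_dotProduct _ _).symm
  · simp only [pb, pullForm_apply, Matrix.one_mulVec]
    exact (Complex.nonneg_iff.1 (dotProduct_star_self_nonneg _)).1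
  · simp only [pb, pullForm_apply, Matrix.one_mulVec]
    rw [dotProduct_star_self_eq_zero]
    exact Dmor_phiL_eq_zero h rfl rfl rfl hE f

theorem pb_self {D : Multiset ℂ} {G : Frm} (h : IsMet D G) : pb D 0 0 1 G = G := by
  refine LinearMap.ext fun f => LinearMap.ext fun g => ?_
  simp only [pb, pullForm_apply, phiL_apply, Multiset.card_zero, prj_zero, sub_zero,
    Matrix.one_mulVec, pol_zero, one_mul]
  exact h.tau_dot (by simp) f g

namespace IsMor

variable {n na nb n' na' nb' n'' : ℕ} {D A B D' A' B' D'' : Multiset ℂ} {E E' E'' : ℂ[X]}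
  {G G' G'' : Frm}

theorem met (h : IsMor n na nb n' D A B D' E G G') : IsMet D G := by
  rw [h.pull]
  exact isMet_pb (h.eq ▸ h.met') h.nv

theorem apply (h : IsMor n na nb n' D A B D' E G G') (f g : ℂ[X]) :
    G f g = star (phiL n' nb G' D A E f) ⬝ᵥ phiL n' nb G' D A E g := by
  rw [h.pull, pb, pullForm_apply, Matrix.one_mulVec, ← h.eq, h.hn', h.hnb]

theorem phi_tau (h : IsMor n na nb n' D A B D' E G G') (f : ℂ[X]) :
    phiM n' n nb G G' D A E *ᵥ tau n G f = phiL n' nb G' D A E f := by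
  exact h.met.matOf_tau h.hn
    (fun g hg => (Dmor_phiL_eq_zero h.met' h.eq h.hn' h.hnb h.nv g).2 hg) f

theorem iso (h : IsMor n na nb n' D A B D' E G G') :
    (phiM n' n nb G G' D A E)ᴴ * phiM n' n nb G G' D A E = 1 := by
  refine h.met.Dmor_ext h.hn fun f g => ?_
  rw [← Matrix.mulVec_mulVec, Matrix.dotProduct_mulVec, ← Matrix.star_mulVec, h.phi_tau,
    h.phi_tau, ← h.apply, Matrix.one_mulVec, h.met.tau_dot h.hn]

theorem Dmor_eqa (h : IsMor n na nb n' D A B D' E G G') : D' = A + (D + B) := by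
  rw [h.eq, add_comm D A, add_assoc]

theorem Dmor_carda (h : IsMor n na nb n' D A B D' E G G') : (D + B).card = n + nb := by
  rw [Multiset.card_add, h.hn, h.hnb]

theorem Dmor_eqb (h : IsMor n na nb n' D A B D' E G G') : D' = A + D + B := by
  rw [h.eq, add_comm D A]

theorem pa_proj (h : IsMor n na nb n' D A B D' E G G') :
    IsStarProjection (paM n' n nb G' A) := by
  exact (h.met'.prj_proj h.hn' h.Dmor_eqa h.Dmor_carda).one_sub

theorem pb_proj (h : IsMor n na nb n' D A B D' E G G') :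
    IsStarProjection (pbM n' nb G' D A) := by
  exact h.met'.prj_proj h.hn' h.Dmor_eqb h.hnb

theorem pa_pb (h : IsMor n na nb n' D A B D' E G G') :
    paM n' n nb G' A * pbM n' nb G' D A = 0 := by
  rw [paM, pbM, Matrix.sub_mul, Matrix.one_mul, h.met'.Dmor_prj_le h.hn' h.Dmor_eqa h.Dmor_carda
    h.Dmor_eqb h.hnb (by rw [pol_add]; exact dvd_mul_right _ _), sub_self]

theorem pa_phi (h : IsMor n na nb n' D A B D' E G G') :
    paM n' n nb G' A * phiM n' n nb G G' D A E = 0 := by
  refine h.met.mat_ext h.hn fun f => ?_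
  have h1 := h.pa_pb
  rw [pbM] at h1
  rw [← Matrix.mulVec_mulVec, h.phi_tau, phiL_apply, Matrix.mulVec_mulVec, Matrix.mul_sub,
    Matrix.mul_one, h1, sub_zero, paM, Matrix.sub_mulVec, Matrix.one_mulVec,
    h.met'.prj_tau h.hn' h.Dmor_eqa h.Dmor_carda ((dvd_mul_right _ _).mul_right _), sub_self,
    Matrix.zero_mulVec]

theorem pb_phi (h : IsMor n na nb n' D A B D' E G G') :
    pbM n' nb G' D A * phiM n' n nb G G' D A E = 0 := by
  refine h.met.mat_ext h.hn fun f => ?_
  have h1 : pbM n' nb G' D A * pbM n' nb G' D A = pbM n' nb G' D A := h.pb_proj.1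
  rw [pbM] at h1
  rw [← Matrix.mulVec_mulVec, h.phi_tau, phiL_apply, Matrix.mulVec_mulVec, pbM, Matrix.mul_sub,
    Matrix.mul_one, h1, sub_self, Matrix.zero_mulVec, Matrix.zero_mulVec]

theorem pa_trace (h : IsMor n na nb n' D A B D' E G G') : (paM n' n nb G' A).trace = na := by
  have h1 : n' = n + na + nb := by
    rw [← h.hn', h.eq, Multiset.card_add, Multiset.card_add, h.hn, h.hna, h.hnb]
  rw [paM, Matrix.trace_sub, h.met'.prj_trace h.hn' h.Dmor_eqa h.Dmor_carda, Matrix.trace_one,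
    Fintype.card_fin, h1]
  push_cast
  ring

theorem pb_trace (h : IsMor n na nb n' D A B D' E G G') : (pbM n' nb G' D A).trace = nb := by
  exact h.met'.prj_trace h.hn' h.Dmor_eqb h.hnb

/-- The projection onto the ideal of `A + Q` for a subdivisor `Q` of the source. -/
theorem prj_add (h : IsMor n na nb n' D A B D' E G G') {Q R : Multiset ℂ} (hD : D = Q + R)
    {d : ℕ} (hd : R.card = d) :
    dprj n' (d + nb) G' (pol (A + Q)) = pbM n' nb G' D A +
      phiM n' n nb G G' D A E * dprj n d G (pol Q) * (phiM n' n nb G G' D A E)ᴴ := by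
  have hD' : D' = A + Q + (R + B) := by rw [h.eq, hD]; abel
  have hd' : (R + B).card = d + nb := by rw [Multiset.card_add, hd, h.hnb]
  have hp := h.met.prj_proj h.hn hD hd
  have hpp : dprj n d G (pol Q) * dprj n d G (pol Q) = dprj n d G (pol Q) := hp.1
  have hps : (dprj n d G (pol Q))ᴴ = dprj n d G (pol Q) := hp.2
  have h1 : IsStarProjection
      (phiM n' n nb G G' D A E * dprj n d G (pol Q) * (phiM n' n nb G G' D A E)ᴴ) := by
    refine ⟨?_, ?_⟩
    · change _ * _ = _
      simp only [Matrix.mul_assoc]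
      rw [← Matrix.mul_assoc _ (phiM n' n nb G G' D A E), h.iso, Matrix.one_mul,
        ← Matrix.mul_assoc (dprj n d G (pol Q)), hpp]
    · change _ᴴ = _
      simp only [Matrix.conjTranspose_mul, Matrix.conjTranspose_conjTranspose, hps,
        Matrix.mul_assoc]
  have h2 : dprj n' (d + nb) G' (pol (A + Q)) * pbM n' nb G' D A = pbM n' nb G' D A :=
    h.met'.Dmor_prj_le h.hn' hD' hd' h.Dmor_eqb h.hnb
      (by rw [hD, ← add_assoc, pol_add (A + Q)]; exact dvd_mul_right _ _)
  have h3 : dprj n' (d + nb) G' (pol (A + Q)) * (phiM n' n nb G G' D A E * dprj n d G (pol Q)) =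
      phiM n' n nb G G' D A E * dprj n d G (pol Q) := by
    refine h.met.mat_ext h.hn fun f => ?_
    obtain ⟨g, hg, e⟩ := h.met.prj_range h.hn hD hd (tau n G f)
    have h4 : pol (A + Q) ∣ pol A * E * g := by
      rw [pol_add, mul_assoc]
      exact mul_dvd_mul_left _ (hg.mul_left _)
    rw [pbM] at h2
    rw [← Matrix.mulVec_mulVec, ← Matrix.mulVec_mulVec, e, h.phi_tau, phiL_apply,
      Matrix.mulVec_mulVec, Matrix.mul_sub, Matrix.mul_one, h2, Matrix.sub_mulVec,
      Matrix.sub_mulVec, h.met'.prj_tau h.hn' hD' hd' h4, Matrix.one_mulVec]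
  refine (proj_eq (h.pb_proj.add h1 ?_) (h.met'.prj_proj h.hn' hD' hd') ?_ ?_).symm
  · rw [← Matrix.mul_assoc, ← Matrix.mul_assoc, h.pb_phi, Matrix.zero_mul, Matrix.zero_mul]
  · rw [Matrix.mul_add, h2, ← Matrix.mul_assoc, h3]
  · rw [Matrix.trace_add, h.pb_trace, Matrix.trace_mul_comm, ← Matrix.mul_assoc, h.iso,
      Matrix.one_mul, h.met.prj_trace h.hn hD hd, h.met'.prj_trace h.hn' hD' hd']
    push_cast
    ring

theorem phiL_comp (h : IsMor n na nb n' D A B D' E G G')
    (h' : IsMor n' na' nb' n'' D' A' B' D'' E' G' G'') (hE : pol D ∣ E'' - E * E') (f : ℂ[X]) :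
    phiL n'' (nb + nb') G'' D (A + A') E'' f =
      phiM n'' n' nb' G' G'' D' A' E' *ᵥ phiL n' nb G' D A E f := by
  have hD : D'' = A + A' + D + (B + B') := by rw [h'.eq, h.eq]; abel
  have hd : (B + B').card = nb + nb' := by rw [Multiset.card_add, h.hnb, h'.hnb]
  have h1 := h'.prj_add h.Dmor_eqb h.hnb
  rw [show A' + (A + D) = A + A' + D by abel] at h1
  have h2 : pol (A + A') * E'' * f =
      pol A' * E' * (pol A * E * f) + pol (A + A') * (E'' - E * E') * f := by
    rw [pol_add]; ring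
  have h3 : pol (A + A' + D) ∣ pol (A + A') * (E'' - E * E') * f := by
    rw [pol_add (A + A')]
    exact (mul_dvd_mul_left _ hE).mul_right _
  have h4 : (phiM n'' n' nb' G' G'' D' A' E')ᴴ * pbM n'' nb' G'' D' A' = 0 := by
    have h5 := congrArg Matrix.conjTranspose h'.pb_phi
    have h6 : (pbM n'' nb' G'' D' A')ᴴ = pbM n'' nb' G'' D' A' := h'.pb_proj.2
    rwa [Matrix.conjTranspose_mul, h6, Matrix.conjTranspose_zero] at h5
  have h7 := h'.phi_tau (pol A * E * f)
  rw [phiL_apply, Matrix.sub_mulVec, Matrix.one_mulVec] at h7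
  have h8 := congrArg (fun y => (phiM n'' n' nb' G' G'' D' A' E')ᴴ *ᵥ y) h7
  rw [pbM] at h4
  simp only [Matrix.mulVec_sub, Matrix.mulVec_mulVec, h'.iso, h4, Matrix.one_mulVec,
    Matrix.zero_mulVec, sub_zero] at h8
  rw [phiL_apply, phiL_apply, h2, map_add, Matrix.mulVec_add, Matrix.sub_mulVec _ _ (tau _ _
    (pol (A + A') * (E'' - E * E') * f)), h'.met'.prj_tau h'.hn' hD hd h3, Matrix.one_mulVec,
    sub_self, add_zero, h1, Matrix.sub_mulVec, Matrix.sub_mulVec, Matrix.one_mulVec,
    Matrix.one_mulVec, Matrix.mulVec_sub, h7, Matrix.add_mulVec, ← Matrix.mulVec_mulVec,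
    ← Matrix.mulVec_mulVec, ← h8, pbM, sub_sub]

theorem pb_comp (h : IsMor n na nb n' D A B D' E G G')
    (h' : IsMor n' na' nb' n'' D' A' B' D'' E' G' G'') (hE : pol D ∣ E'' - E * E') :
    G = pb D (A + A') (B + B') E'' G'' := by
  have hD : D + (A + A') + (B + B') = D'' := by rw [h'.eq, h.eq]; abel
  refine LinearMap.ext fun f => LinearMap.ext fun g => ?_
  rw [pb, pullForm_apply, Matrix.one_mulVec, hD, h'.hn', Multiset.card_add, h.hnb, h'.hnb,
    h.phiL_comp h' hE, h.phiL_comp h' hE, Dmor_dot h'.iso, h.apply]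

theorem phi_comp (h : IsMor n na nb n' D A B D' E G G')
    (h' : IsMor n' na' nb' n'' D' A' B' D'' E' G' G'') (hE : pol D ∣ E'' - E * E') :
    phiM n'' n (nb + nb') G G'' D (A + A') E'' =
      phiM n'' n' nb' G' G'' D' A' E' * phiM n' n nb G G' D A E := by
  refine h.met.mat_ext h.hn fun f => ?_
  rw [← Matrix.mulVec_mulVec, h.phi_tau, ← h.phiL_comp h' hE]
  refine h.met.matOf_tau h.hn (fun g hg => ?_) f
  rw [h.phiL_comp h' hE, (Dmor_phiL_eq_zero h.met' h.eq h.hn' h.hnb h.nv g).2 hg,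
    Matrix.mulVec_zero]

theorem pa_comp (h : IsMor n na nb n' D A B D' E G G')
    (h' : IsMor n' na' nb' n'' D' A' B' D'' E' G' G'') :
    paM n'' n (nb + nb') G'' (A + A') = paM n'' n' nb' G'' A' +
      phiM n'' n' nb' G' G'' D' A' E' * paM n' n nb G' A * (phiM n'' n' nb' G' G'' D' A' E')ᴴ := by
  have h1 := h'.prj_add h.Dmor_eqa h.Dmor_carda
  have h2 := h'.prj_add (zero_add D').symm h'.hn
  rw [add_zero, pol_zero, h.met'.prj_one h.hn', Matrix.mul_one] at h2
  rw [add_assoc, add_comm A' A] at h1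
  rw [paM, paM, paM, h1, h2, Matrix.mul_sub, Matrix.sub_mul, Matrix.mul_one]
  abel

theorem pb_comp' (h : IsMor n na nb n' D A B D' E G G')
    (h' : IsMor n' na' nb' n'' D' A' B' D'' E' G' G'') :
    pbM n'' (nb + nb') G'' D (A + A') = pbM n'' nb' G'' D' A' +
      phiM n'' n' nb' G' G'' D' A' E' * pbM n' nb G' D A * (phiM n'' n' nb' G' G'' D' A' E')ᴴ := by
  have h1 := h'.prj_add h.Dmor_eqb h.hnb
  rw [show A' + (A + D) = A + A' + D by abel] at h1
  exact h1

end IsMor

theorem IsMet.phi_self {D : Multiset ℂ} {G : Frm} {n : ℕ} (h : IsMet D G) (hn : D.card = n) :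
    phiM n n 0 G G D 0 1 = 1 ∧ paM n n 0 G 0 = 0 ∧ pbM n 0 G D 0 = 0 := by
  have h1 : ∀ f, phiL n 0 G D 0 1 f = tau n G f := fun f => by
    rw [phiL_apply, prj_zero, sub_zero, Matrix.one_mulVec, pol_zero, one_mul, one_mul]
  refine ⟨h.mat_ext hn fun f => ?_, ?_, prj_zero _ _ _⟩
  · rw [Matrix.one_mulVec]
    exact (h.matOf_tau hn (fun g hg => by rw [h1, h.tau_eq_zero hn]; exact hg) f).trans (h1 f)
  · rw [paM, pol_zero]
    exact sub_eq_zero.2 (h.prj_one hn).symm

variable {T : Type} [TopologicalSpace T]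

theorem CF.phiL {G' : T → Frm} {D A B : T → Multiset ℂ} {E F : T → ℂ[X]} {n' nb : ℕ}
    (hG : CF G') (h : ∀ t, IsMet (D t + A t + B t) (G' t)) (hn : ∀ t, (D t + A t + B t).card = n')
    (hb : ∀ t, (B t).card = nb) (hD : CD D) (hA : CD A) (hE : CP E) (hF : CP F) :
    Continuous fun t => phiL n' nb (G' t) (D t) (A t) (E t) (F t) := by
  simp only [phiL_apply]
  exact (continuous_const.sub (hG.dprj h hn (Q := fun t => A t + D t) (hA.add hD)
    (fun t => by rw [add_comm (D t)]) hb)).matrix_mulVec (hG.tau h hn ((hA.cp.mul hE).mul hF))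

theorem CF.pb {G' : T → Frm} {D A B : T → Multiset ℂ} {E : T → ℂ[X]} (hG : CF G')
    (h : ∀ t, IsMet (D t + A t + B t) (G' t)) (hD : CD D) (hA : CD A) (hB : CD B) (hE : CP E) :
    CF fun t => pb (D t) (A t) (B t) (E t) (G' t) := by
  obtain ⟨n', hn⟩ := ((hD.add hA).add hB).1
  obtain ⟨nb, hb⟩ := hB.1
  have h1 : ∀ t, E2.pb (D t) (A t) (B t) (E t) (G' t) =
      E2.pullForm 1 (E2.phiL n' nb (G' t) (D t) (A t) (E t)) := fun t => by
    rw [E2.pb, hn, hb]
  simp only [h1]
  exact CF.pullForm continuous_const fun k => hG.phiL h hn hb hD hA hE (CP.const _)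

theorem continuous_mor {G G' : T → Frm} {D A B D' : T → Multiset ℂ} {E : T → ℂ[X]}
    {n na nb n' : ℕ} (h : ∀ t, IsMor n na nb n' (D t) (A t) (B t) (D' t) (E t) (G t) (G' t))
    (hG : CF G) (hG' : CF G') (hD : CD D) (hA : CD A) (hE : CP E) :
    (Continuous fun t => phiM n' n nb (G t) (G' t) (D t) (A t) (E t)) ∧
      (Continuous fun t => paM n' n nb (G' t) (A t)) ∧
      Continuous fun t => pbM n' nb (G' t) (D t) (A t) := by
  refine ⟨hG.matOf (fun t => (h t).met) (fun t => (h t).hn) fun k =>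
    hG'.phiL (B := B) (fun t => (h t).eq ▸ (h t).met') (fun t => (h t).eq ▸ (h t).hn')
      (fun t => (h t).hnb) hD hA hE (CP.const _), ?_, ?_⟩
  · exact continuous_const.sub (hG'.dprj (fun t => (h t).met') (fun t => (h t).hn') hA
      (fun t => (h t).Dmor_eqa) fun t => (h t).Dmor_carda)
  · exact hG'.dprj (fun t => (h t).met') (fun t => (h t).hn') (Q := fun t => A t + D t)
      (hA.add hD) (fun t => (h t).Dmor_eqb) fun t => (h t).hnb

end Pool.Agent.Lib.E2
end
end

-- part Pool.Agent.Lib.MP_10be03_gt.DCh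
section

/-!
Layer D: chains of coloured divisors with paths of units and metrics, and their topology.
-/

noncomputable section
open Polynomial
open scoped Matrix

namespace Pool.Agent.Lib.E2

/-- Chains of coloured divisors `D j = D i + A i j + B i j` with paths `1 + η i j` of units
modulo the total divisor of `D i`. -/
@[ext] structure PCh (ι : Type) [Fintype ι] (m : ℕ) where
  D : Fin (m + 1) → ι → Multiset ℂ
  A : Fin (m + 1) → Fin (m + 1) → ι → Multiset ℂ
  B : Fin (m + 1) → Fin (m + 1) → ι → Multiset ℂ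
  η : Fin (m + 1) → Fin (m + 1) → ι → unitInterval → ℂ[X]
  inD : ∀ j c, InD (D j c)
  A_triv : ∀ i j, j ≤ i → ∀ c, A i j c = 0
  B_triv : ∀ i j, j ≤ i → ∀ c, B i j c = 0
  η_triv : ∀ i j, j ≤ i → ∀ c τ, η i j c τ = 0
  D_eq : ∀ i j, i ≤ j → ∀ c, D j c = D i c + A i j c + B i j c
  A_add : ∀ i j k, i ≤ j → j ≤ k → ∀ c, A i k c = A i j c + A j k c
  B_add : ∀ i j k, i ≤ j → j ≤ k → ∀ c, B i k c = B i j c + B j k c
  η_deg : ∀ i j c τ, (η i j c τ).degree < ((∑ c', D i c').card : ℕ)
  η_cont : ∀ i j c k, Continuous fun τ => (η i j c τ).coeff k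
  η_zero : ∀ i j c, η i j c 0 = 0
  η_nv : ∀ i j c τ, NV (∑ c', D i c') (1 + η i j c τ)
  η_mul : ∀ i j k, i ≤ j → j ≤ k → ∀ c τ,
    pol (∑ c', D i c') ∣ (1 + η i k c τ) - (1 + η i j c τ) * (1 + η j k c τ)

variable {ι σ : Type} [Fintype ι] {m m' m'' : ℕ}

/-- The divisor of a species. -/
def sp (pos : σ → Finset ι) (D : ι → Multiset ℂ) (a : σ) : Multiset ℂ := ∑ c ∈ pos a, D c

omit [Fintype ι] in
theorem card_sp (pos : σ → Finset ι) (D : ι → Multiset ℂ) (a : σ) :
    (sp pos D a).card = nuOf pos (fun c => (D c).card) a := by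
  simp [sp, nuOf]

namespace PCh

/-- The multiplier of a species. -/
def E (pos : σ → Finset ι) (x : PCh ι m) (i j : Fin (m + 1)) (a : σ) : ℂ[X] :=
  ∏ c ∈ pos a, (1 + x.η i j c 1)

/-- The degrees of the objects. -/
def deg (x : PCh ι m) (i : Fin (m + 1)) (c : ι) : ℕ := (x.D i c).card

/-- The degrees of the morphisms. -/
def dg (x : PCh ι m) (i j : Fin (m + 1)) : (ι → ℕ) × (ι → ℕ) :=
  (fun c => (x.A i j c).card, fun c => (x.B i j c).card)

/-- All degrees. -/
def dd (x : PCh ι m) :
    (Fin (m + 1) → ι → ℕ) × (Fin (m + 1) → Fin (m + 1) → (ι → ℕ) × (ι → ℕ)) := (x.deg, x.dg)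

theorem inA (x : PCh ι m) (i j : Fin (m + 1)) (c : ι) : InD (x.A i j c) := by
  intro w hw
  rcases le_total i j with h | h
  · refine x.inD j c w ?_
    rw [x.D_eq i j h c]
    exact Multiset.mem_add.2 (Or.inl (Multiset.mem_add.2 (Or.inr hw)))
  · rw [x.A_triv i j h c] at hw
    exact absurd hw (Multiset.notMem_zero w)

theorem inB (x : PCh ι m) (i j : Fin (m + 1)) (c : ι) : InD (x.B i j c) := by
  intro w hw
  rcases le_total i j with h | h
  · refine x.inD j c w ?_
    rw [x.D_eq i j h c]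
    exact Multiset.mem_add.2 (Or.inr hw)
  · rw [x.B_triv i j h c] at hw
    exact absurd hw (Multiset.notMem_zero w)

theorem inD_tot (x : PCh ι m) (i : Fin (m + 1)) : InD (∑ c, x.D i c) := by
  intro w hw
  obtain ⟨c, -, hc⟩ := Multiset.mem_sum.1 hw
  exact x.inD i c w hc

theorem inD_sp (pos : σ → Finset ι) (x : PCh ι m) (i : Fin (m + 1)) (a : σ) :
    InD (sp pos (x.D i) a) := by
  intro w hw
  obtain ⟨c, -, hc⟩ := Multiset.mem_sum.1 hw
  exact x.inD i c w hc

theorem tot_le (x : PCh ι m) {i j : Fin (m + 1)} (h : i ≤ j) : ∑ c, x.D i c ≤ ∑ c, x.D j c := by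
  refine Finset.sum_le_sum fun c _ => ?_
  rw [x.D_eq i j h c, add_assoc]
  exact Multiset.le_add_right _ _

theorem sp_le (pos : σ → Finset ι) (x : PCh ι m) (i : Fin (m + 1)) (a : σ) :
    sp pos (x.D i) a ≤ ∑ c, x.D i c := by
  exact Finset.sum_le_sum_of_subset (Finset.subset_univ _)

theorem sp_eq (pos : σ → Finset ι) (x : PCh ι m) {i j : Fin (m + 1)} (h : i ≤ j) (a : σ) :
    sp pos (x.D j) a = sp pos (x.D i) a + sp pos (x.A i j) a + sp pos (x.B i j) a := by
  simp only [sp, x.D_eq i j h, Finset.sum_add_distrib]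

theorem sp_A_add (pos : σ → Finset ι) (x : PCh ι m) {i j k : Fin (m + 1)} (h : i ≤ j)
    (h' : j ≤ k) (a : σ) : sp pos (x.A i k) a = sp pos (x.A i j) a + sp pos (x.A j k) a := by
  simp only [sp, x.A_add i j k h h', Finset.sum_add_distrib]

theorem sp_B_add (pos : σ → Finset ι) (x : PCh ι m) {i j k : Fin (m + 1)} (h : i ≤ j)
    (h' : j ≤ k) (a : σ) : sp pos (x.B i k) a = sp pos (x.B i j) a + sp pos (x.B j k) a := by
  simp only [sp, x.B_add i j k h h', Finset.sum_add_distrib]

theorem E_nv (pos : σ → Finset ι) (x : PCh ι m) (i j : Fin (m + 1)) (a : σ) :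
    NV (sp pos (x.D i) a) (x.E pos i j a) := by
  intro w hw
  rw [E, eval_prod]
  exact Finset.prod_ne_zero_iff.2 fun c _ =>
    x.η_nv i j c 1 w (Multiset.mem_of_le (x.sp_le pos i a) hw)

theorem dch_dvd {κ : Type} {P : ℂ[X]} {f g : κ → ℂ[X]} (s : Finset κ) (h : ∀ c, P ∣ f c - g c) :
    P ∣ ∏ c ∈ s, f c - ∏ c ∈ s, g c := by
  classical
  induction s using Finset.induction_on with
  | empty => simp
  | insert a s ha ih =>
    rw [Finset.prod_insert ha, Finset.prod_insert ha,
      show ∀ u v U W : ℂ[X], u * U - v * W = u * (U - W) + (u - v) * W from fun _ _ _ _ => by ring]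
    exact (ih.mul_left _).add ((h a).mul_right _)

theorem E_mul (pos : σ → Finset ι) (x : PCh ι m) {i j k : Fin (m + 1)} (h : i ≤ j) (h' : j ≤ k)
    (a : σ) : pol (sp pos (x.D i) a) ∣ x.E pos i k a - x.E pos i j a * x.E pos j k a := by
  rw [E, E, E, ← Finset.prod_mul_distrib]
  exact (pol_dvd (x.sp_le pos i a)).trans (dch_dvd _ fun c => x.η_mul i j k h h' c 1)

theorem self_triv (pos : σ → Finset ι) (x : PCh ι m) (i : Fin (m + 1)) (a : σ) :
    sp pos (x.A i i) a = 0 ∧ sp pos (x.B i i) a = 0 ∧ x.E pos i i a = 1 := by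
  simp [sp, E, x.A_triv i i le_rfl, x.B_triv i i le_rfl, x.η_triv i i le_rfl]

/-- Restriction along a monotone map. -/
def pull (ψ : Fin (m + 1) →o Fin (m' + 1)) (x : PCh ι m') : PCh ι m where
  D i := x.D (ψ i)
  A i j := x.A (ψ i) (ψ j)
  B i j := x.B (ψ i) (ψ j)
  η i j := x.η (ψ i) (ψ j)
  inD _ := x.inD _
  A_triv _ _ h := x.A_triv _ _ (ψ.mono h)
  B_triv _ _ h := x.B_triv _ _ (ψ.mono h)
  η_triv _ _ h := x.η_triv _ _ (ψ.mono h)
  D_eq _ _ h := x.D_eq _ _ (ψ.mono h)
  A_add _ _ _ h h' := x.A_add _ _ _ (ψ.mono h) (ψ.mono h')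
  B_add _ _ _ h h' := x.B_add _ _ _ (ψ.mono h) (ψ.mono h')
  η_deg _ _ := x.η_deg _ _
  η_cont _ _ := x.η_cont _ _
  η_zero _ _ := x.η_zero _ _
  η_nv _ _ := x.η_nv _ _
  η_mul _ _ _ h h' := x.η_mul _ _ _ (ψ.mono h) (ψ.mono h')

end PCh

/-- Chains with a metric for every object and species, each pulled back from the later ones. -/
@[ext] structure Ch (pos : σ → Finset ι) (m : ℕ) where
  p : PCh ι m
  G : Fin (m + 1) → σ → Frm
  met : ∀ j a, IsMet (sp pos (p.D j) a) (G j a)
  pbk : ∀ i j, i ≤ j → ∀ a, G i a =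
    pb (sp pos (p.D i) a) (sp pos (p.A i j) a) (sp pos (p.B i j) a) (p.E pos i j a) (G j a)

/-- The degrees, with the discrete topology. -/
abbrev EncN (ι : Type) (m : ℕ) : Type :=
  (Fin (m + 1) → ι → ℕ) × (Fin (m + 1) → Fin (m + 1) → (ι → ℕ) × (ι → ℕ))

instance instTopEncN : TopologicalSpace (EncN ι m) := instTopologicalSpaceProd

/-- Coefficients and paths of coefficients. -/
abbrev EncC : Type := ℕ → ℂ × ℂ × C(unitInterval, ℂ)

instance instTopEncC : TopologicalSpace EncC := Pi.topologicalSpace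

/-- Coefficients and paths of coefficients of the morphisms. -/
abbrev EncM (ι : Type) (m : ℕ) : Type := Fin (m + 1) → Fin (m + 1) → ι → EncC

instance instTopEncM : TopologicalSpace (EncM ι m) := Pi.topologicalSpace

/-- Coefficients of the objects and of the forms. -/
abbrev EncO (ι σ : Type) (m : ℕ) : Type :=
  (Fin (m + 1) → ι → ℕ → ℂ) × (Fin (m + 1) → σ → ℕ → ℕ → ℂ)

instance instTopEncO : TopologicalSpace (EncO ι σ m) := instTopologicalSpaceProd

/-- All coordinates. -/
abbrev Enc (ι σ : Type) (m : ℕ) : Type := EncN ι m × EncM ι m × EncO ι σ m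

namespace Ch

variable {pos : σ → Finset ι}

/-- The coordinates of a chain. -/
def enc (x : Ch pos m) : Enc ι σ m :=
  (x.p.dd, fun i j c k => ((pol (x.p.A i j c)).coeff k, (pol (x.p.B i j c)).coeff k,
      ⟨fun τ => (x.p.η i j c τ).coeff k, x.p.η_cont i j c k⟩),
    fun i c k => (pol (x.p.D i c)).coeff k, fun i a k l => x.G i a (X ^ k) (X ^ l))

instance instTop : TopologicalSpace (Ch pos m) := TopologicalSpace.induced enc inferInstance

theorem enc_injective : Function.Injective (enc : Ch pos m → Enc ι σ m) := by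
  intro x y h
  have h1 := congrArg (fun e : Enc ι σ m => e.2.1) h
  have h2 := congrArg (fun e : Enc ι σ m => e.2.2.1) h
  have h3 := congrArg (fun e : Enc ι σ m => e.2.2.2) h
  refine Ch.ext (PCh.ext ?_ ?_ ?_ ?_) ?_
  · funext i c
    exact pol_injective (Polynomial.ext fun k => congrFun (congrFun (congrFun h2 i) c) k)
  · funext i j c
    exact pol_injective (Polynomial.ext fun k =>
      congrArg (fun e : EncM ι m => (e i j c k).1) h1)
  · funext i j c
    exact pol_injective (Polynomial.ext fun k =>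
      congrArg (fun e : EncM ι m => (e i j c k).2.1) h1)
  · funext i j c τ
    exact Polynomial.ext fun k => congrArg (fun e : EncM ι m => (e i j c k).2.2 τ) h1
  · funext i a
    exact Frm.ext' fun k l => congrFun (congrFun (congrFun (congrFun h3 i) a) k) l

theorem t2 : T2Space (Ch pos m) := by
  have : T2Space (EncN ι m) := inferInstanceAs (T2Space (_ × _))
  have : T2Space EncC := inferInstanceAs (T2Space (_ → _))
  have : T2Space (EncM ι m) := inferInstanceAs (T2Space (_ → _))
  have : T2Space (EncO ι σ m) := inferInstanceAs (T2Space (_ × _))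
  exact T2Space.of_injective_continuous enc_injective continuous_induced_dom

theorem fc [Fintype σ] : FirstCountableTopology (Ch pos m) := by
  have : FirstCountableTopology (EncN ι m) := inferInstanceAs (FirstCountableTopology (_ × _))
  have : FirstCountableTopology EncC := inferInstanceAs (FirstCountableTopology (_ → _))
  have : FirstCountableTopology (EncM ι m) := inferInstanceAs (FirstCountableTopology (_ → _))
  have : FirstCountableTopology (EncO ι σ m) := inferInstanceAs (FirstCountableTopology (_ × _))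
  exact TopologicalSpace.firstCountableTopology_induced _ (Enc ι σ m) enc

theorem dch_enc : Continuous (enc : Ch pos m → Enc ι σ m) := continuous_induced_dom

theorem lc_dd : IsLocallyConstant fun x : Ch pos m => x.p.dd := by
  have : DiscreteTopology (EncN ι m) := inferInstanceAs (DiscreteTopology (_ × _))
  exact (IsLocallyConstant.iff_continuous (X := Ch pos m) (Y := EncN ι m) _).2 dch_enc.fst

/-- Restriction along a monotone map. -/
def pull (ψ : Fin (m + 1) →o Fin (m' + 1)) (x : Ch pos m') : Ch pos m where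
  p := x.p.pull ψ
  G i := x.G (ψ i)
  met _ := x.met _
  pbk _ _ h := x.pbk _ _ (ψ.mono h)

theorem continuous_pull (ψ : Fin (m + 1) →o Fin (m' + 1)) :
    Continuous (pull ψ : Ch pos m' → Ch pos m) := by
  refine continuous_induced_rng.2 ?_
  have h : Continuous fun e : Enc ι σ m' => (((fun i => e.1.1 (ψ i), fun i j => e.1.2 (ψ i) (ψ j)),
      fun i j => e.2.1 (ψ i) (ψ j), fun i => e.2.2.1 (ψ i), fun i => e.2.2.2 (ψ i)) : Enc ι σ m) := by
    fun_prop
  exact h.comp dch_enc

theorem pull_id (ψ : Fin (m + 1) →o Fin (m + 1)) (x : Ch pos m) (h : ∀ i, ψ i = i) :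
    pull ψ x = x := by
  obtain rfl : ψ = OrderHom.id := OrderHom.ext _ _ (funext h)
  rfl

theorem isMor (x : Ch pos m) {i j : Fin (m + 1)} (h : i ≤ j) (a : σ) :
    IsMor (nuOf pos (x.p.deg i) a) (nuOf pos (x.p.dg i j).1 a) (nuOf pos (x.p.dg i j).2 a)
      (nuOf pos (x.p.deg j) a) (sp pos (x.p.D i) a) (sp pos (x.p.A i j) a) (sp pos (x.p.B i j) a)
      (sp pos (x.p.D j) a) (x.p.E pos i j a) (x.G i a) (x.G j a) :=
  ⟨x.p.sp_eq pos h a, card_sp _ _ _, card_sp _ _ _, card_sp _ _ _, card_sp _ _ _, x.met j a,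
    x.p.E_nv pos i j a, x.pbk i j h a⟩

/-- The chain with the given metrics on the last object. -/
def ofTop (p : PCh ι m) (G : σ → Frm) (h : ∀ a, IsMet (sp pos (p.D (Fin.last m)) a) (G a)) :
    Ch pos m where
  p := p
  G i a := pb (sp pos (p.D i) a) (sp pos (p.A i (Fin.last m)) a) (sp pos (p.B i (Fin.last m)) a)
    (p.E pos i (Fin.last m) a) (G a)
  met i a := isMet_pb (p.sp_eq pos (Fin.le_last i) a ▸ h a) (p.E_nv pos i _ a)
  pbk i j hij a := by
    have h2 := IsMor.mk (p.sp_eq pos (Fin.le_last j) a) rfl rfl rfl rfl (h a)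
      (p.E_nv pos j (Fin.last m) a) rfl
    have h1 := IsMor.mk (p.sp_eq pos hij a) rfl rfl rfl rfl h2.met (p.E_nv pos i j a) rfl
    rw [p.sp_A_add pos hij (Fin.le_last j), p.sp_B_add pos hij (Fin.le_last j)]
    exact (h1.pb_comp h2 (p.E_mul pos hij (Fin.le_last j) a)).symm

theorem ofTop_self (x : Ch pos m) : ofTop x.p (x.G (Fin.last m)) (x.met _) = x := by
  refine Ch.ext rfl ?_
  funext i a
  exact (x.pbk i _ (Fin.le_last i) a).symm

theorem eq_of_deg_zero (x y : Ch pos 0) (hx : x.p.deg 0 = 0) (hy : y.p.deg 0 = 0) : x = y := by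
  have h1 : ∀ z : Ch pos 0, z.p.deg 0 = 0 → ∀ i c, z.p.D i c = 0 := fun z hz i c => by
    obtain rfl : i = 0 := Subsingleton.elim (α := Fin 1) _ _
    exact Multiset.card_eq_zero.1 (congrFun hz c)
  have h2 : ∀ z : Ch pos 0, z.p.deg 0 = 0 → ∀ i a f g, z.G i a f g = 0 := fun z hz i a f g =>
    (z.met i a).apply_eq_zero (by simp [sp, h1 z hz]) f
  have h3 : ∀ i j : Fin (0 + 1), j ≤ i := fun i j => (Subsingleton.elim (α := Fin 1) j i).le
  refine Ch.ext (PCh.ext ?_ ?_ ?_ ?_) ?_
  · funext i c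
    rw [h1 x hx, h1 y hy]
  · funext i j c
    rw [x.p.A_triv i j (h3 i j), y.p.A_triv i j (h3 i j)]
  · funext i j c
    rw [x.p.B_triv i j (h3 i j), y.p.B_triv i j (h3 i j)]
  · funext i j c τ
    rw [x.p.η_triv i j (h3 i j), y.p.η_triv i j (h3 i j)]
  · funext i a
    exact Frm.ext' fun k l => by rw [h2 x hx, h2 y hy]

end Ch

variable {T : Type} [TopologicalSpace T]

/-- A continuous family of chains without metrics, of constant degrees. -/
structure FamP (x : T → PCh ι m) : Prop where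
  D : ∀ i c, CD fun t => (x t).D i c
  A : ∀ i j c, CD fun t => (x t).A i j c
  B : ∀ i j c, CD fun t => (x t).B i j c
  η : ∀ i j c, CP fun q : T × unitInterval => (x q.1).η i j c q.2

/-- A continuous family of chains of constant degrees. -/
structure Fam {pos : σ → Finset ι} (x : T → Ch pos m) : Prop where
  p : FamP fun t => (x t).p
  G : ∀ i a, CF fun t => (x t).G i a

variable {pos : σ → Finset ι}

theorem CD.sp {D : T → ι → Multiset ℂ} (h : ∀ c, CD fun t => D t c) (a : σ) :
    CD fun t => sp pos (D t) a := by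
  exact CD.sum (pos a) (D := fun c t => D t c) fun c _ => h c

theorem FamP.E {x : T → PCh ι m} (h : FamP x) (i j : Fin (m + 1)) (a : σ) :
    CP fun t => (x t).E pos i j a := by
  exact CP.prod (pos a) (F := fun c t => 1 + (x t).η i j c 1) fun c _ => (CP.const 1).add
    ((h.η i j c).comp (g := fun t => (t, 1)) (by fun_prop))

theorem Fam.continuous {x : T → Ch pos m} (h : Fam x) : Continuous x := by
  have hc : ∀ {D : T → Multiset ℂ}, CD D → Continuous fun t => (D t).card := fun hD => by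
    obtain ⟨n, hn⟩ := hD.1
    simp only [hn]
    exact continuous_const
  refine continuous_induced_rng.2 (Continuous.prodMk (Continuous.prodMk ?_ ?_)
    (Continuous.prodMk ?_ (Continuous.prodMk ?_ ?_)))
  · exact continuous_pi fun i => continuous_pi fun c => hc (h.p.D i c)
  · exact continuous_pi fun i => continuous_pi fun j => Continuous.prodMk
      (continuous_pi fun c => hc (h.p.A i j c)) (continuous_pi fun c => hc (h.p.B i j c))
  · refine continuous_pi fun i => continuous_pi fun j => continuous_pi fun c =>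
      continuous_pi fun k => ((h.p.A i j c).2 k).prodMk (((h.p.B i j c).2 k).prodMk ?_)
    exact ContinuousMap.continuous_of_continuous_uncurry _ ((h.p.η i j c).2 k)
  · exact continuous_pi fun i => continuous_pi fun c => continuous_pi fun k => (h.p.D i c).2 k
  · exact continuous_pi fun i => continuous_pi fun a => continuous_pi fun k =>
      continuous_pi fun l => h.G i a k l

theorem Fam.of_continuous {x : T → Ch pos m} (h : Continuous x)
    (hd : ∀ t t', (x t).p.dd = (x t').p.dd) : Fam x := by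
  have he : Continuous fun t => (x t).enc := Ch.dch_enc.comp h
  have hM : ∀ i j c k, Continuous fun t => (x t).enc.2.1 i j c k := fun i j c k =>
    (continuous_apply k).comp ((continuous_apply c).comp ((continuous_apply j).comp
      ((continuous_apply i).comp he.snd.fst)))
  have hn : ∀ f : EncN ι m → ℕ, ∃ n, ∀ t, f (x t).p.dd = n := fun f => by
    rcases isEmpty_or_nonempty T with hT | ⟨⟨t₀⟩⟩
    · exact ⟨0, fun t => isEmptyElim t⟩
    · exact ⟨_, fun t => congrArg f (hd t t₀)⟩
  refine ⟨⟨fun i c => ⟨hn fun e => e.1 i c, fun k => ?_⟩,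
    fun i j c => ⟨hn fun e => (e.2 i j).1 c, fun k => (hM i j c k).fst⟩,
    fun i j c => ⟨hn fun e => (e.2 i j).2 c, fun k => (hM i j c k).snd.fst⟩,
    fun i j c => ⟨?_, fun k => ?_⟩⟩, fun i a k l => ?_⟩
  · exact (continuous_apply k).comp ((continuous_apply c).comp
      ((continuous_apply i).comp he.snd.snd.fst))
  · obtain ⟨n, hn⟩ := hn fun e => ∑ c', e.1 i c'
    refine ⟨n, fun q => natDegree_le_iff_degree_le.2 (((x q.1).p.η_deg i j c q.2).le.trans_eq ?_)⟩
    rw [← hn q.1, Multiset.card_sum]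
    rfl
  · exact ((hM i j c k).snd.snd.comp continuous_fst).eval continuous_snd
  · exact (continuous_apply l).comp ((continuous_apply k).comp ((continuous_apply a).comp
      ((continuous_apply i).comp he.snd.snd.snd)))

theorem Fam.ofTop {p : T → PCh ι m} (hp : FamP p) {G : T → σ → Frm} (hG : ∀ a, CF fun t => G t a)
    (h : ∀ t a, IsMet (sp pos ((p t).D (Fin.last m)) a) (G t a)) :
    Fam fun t => Ch.ofTop (p t) (G t) (h t) := by
  exact ⟨hp, fun i a => CF.pb (hG a) (fun t => (p t).sp_eq pos (Fin.le_last i) a ▸ h t a)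
    (CD.sp (hp.D i) a) (CD.sp (hp.A i _) a) (CD.sp (hp.B i _) a) (hp.E i _ a)⟩

end Pool.Agent.Lib.E2
end
end

-- part Pool.Agent.Lib.MP_10be03_gt.DMul
section

/-!
Layer D: the action of the operad on chains without metrics.
-/

noncomputable section
open Polynomial

namespace Pool.Agent.Lib.E2

namespace PCh

variable {ι σ : Type} [Fintype ι] {m m' : ℕ} {S S' : Type} [Finite S]

/-- The congruences that define the paths of a product. -/
def MulSol (c : OA S) (x : S → PCh ι m) (i j : Fin (m + 1)) (col : ι) (τ : unitInterval)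
    (g : ℂ[X]) : Prop :=
  c.IsSol (fun s => ∑ c', (x s).D i c') (c.corr τ fun s => (x s).A i j col)
    (fun s => 1 + (x s).η i j col τ) g

/-- The paths of a product. -/
def mulη (c : OA S) (x : S → PCh ι m) (i j : Fin (m + 1)) (col : ι) (τ : unitInterval) : ℂ[X] :=
  c.sol (fun s => ∑ c', (x s).D i c') (c.corr τ fun s => (x s).A i j col)
    (fun s => 1 + (x s).η i j col τ)

theorem nv_corr (c : OA S) (x : S → PCh ι m) (i j k : Fin (m + 1)) (col : ι) (τ : unitInterval)
    (s : S) : NV (∑ c', (x s).D i c') (c.corr τ (fun s => (x s).A j k col) s) :=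
  fun w hw => c.corr_ne_zero τ.2.1 τ.2.2 (fun t => (x t).inA j k col) s ((x s).inD_tot i w hw)

theorem mulSol (c : OA S) (x : S → PCh ι m) (i j : Fin (m + 1)) (col : ι) (τ : unitInterval) :
    MulSol c x i j col τ (mulη c x i j col τ) :=
  c.isSol_sol (fun s => (x s).inD_tot i) (nv_corr c x i i j col τ) _

theorem MulSol.eq {c : OA S} {x : S → PCh ι m} {i j : Fin (m + 1)} {col : ι} {τ : unitInterval}
    {g : ℂ[X]} (h : MulSol c x i j col τ g) : mulη c x i j col τ = g :=
  OA.IsSol.unique (fun s => (x s).inD_tot i) (nv_corr c x i i j col τ) (mulSol c x i j col τ) h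

theorem push_tot (c : OA S) (x : S → PCh ι m) (i : Fin (m + 1)) :
    (∑ c', c.push fun s => (x s).D i c') = c.push fun s => ∑ c', (x s).D i c' :=
  (c.push_sum Finset.univ fun s c' => (x s).D i c').symm

theorem mulη_of_zero (c : OA S) (x : S → PCh ι m) (i j : Fin (m + 1)) (col : ι)
    (τ : unitInterval) (h : ∀ s, c.corr τ (fun s => (x s).A i j col) s = 1)
    (h' : ∀ s, (x s).η i j col τ = 0) : mulη c x i j col τ = 0 := by
  refine MulSol.eq ⟨?_, fun s => ?_⟩
  · rw [degree_zero]
    exact WithBot.bot_lt_coe _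
  · simp [h s, h' s]

theorem cp_η (x : PCh ι m) (i j : Fin (m + 1)) (col : ι) : CP fun τ => x.η i j col τ :=
  ⟨⟨(∑ c', x.D i c').card, fun τ => natDegree_le_iff_degree_le.2 (x.η_deg i j col τ).le⟩,
    x.η_cont i j col⟩

theorem mulη_nv (c : OA S) (x : S → PCh ι m) (i j : Fin (m + 1)) (col : ι) (τ : unitInterval) :
    NV (c.push fun s => ∑ c', (x s).D i c') (1 + mulη c x i j col τ) := by
  intro w hw h0
  obtain ⟨s, u, hu, rfl⟩ := (c.mem_push _ w).1 hw
  obtain ⟨q, hq⟩ := (mulSol c x i j col τ).2 s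
  have h1 := congrArg (eval u) hq
  rw [eval_sub, eval_mul, c.eval_rho, h0, eval_mul, eval_pol_eq_zero.2 hu] at h1
  exact (x s).η_nv i j col τ u hu (by linear_combination -h1)

theorem mulη_mul (c : OA S) (x : S → PCh ι m) (i j k : Fin (m + 1)) (h : i ≤ j) (h' : j ≤ k)
    (col : ι) (τ : unitInterval) : pol (c.push fun s => ∑ c', (x s).D i c') ∣
      (1 + mulη c x i k col τ) - (1 + mulη c x i j col τ) * (1 + mulη c x j k col τ) := by
  refine c.crt_dvd (fun s => (x s).inD_tot i) fun s => ?_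
  refine (nv_corr c x i i k col τ s).dvd_cancel ?_
  have e : c.corr τ (fun s => (x s).A i k col) s =
      c.corr τ (fun s => (x s).A i j col) s * c.corr τ (fun s => (x s).A j k col) s := by
    rw [← c.corr_add]
    exact congrArg (fun A => c.corr τ A s) (funext fun t => (x t).A_add i j k h h' col)
  have h1 := (mulSol c x i k col τ).2 s
  have h2 := (mulSol c x i j col τ).2 s
  have h3 := (pol_dvd ((x s).tot_le h)).trans ((mulSol c x j k col τ).2 s)
  have h4 := (x s).η_mul i j k h h' col τ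
  rw [e] at h1 ⊢
  rw [map_sub, map_mul]
  have h5 := ((h1.add h4).sub (h2.mul_right (1 + (x s).η j k col τ))).sub
    (h3.mul_left (c.rho s (1 + mulη c x i j col τ) * c.corr τ (fun s => (x s).A i j col) s))
  convert h5 using 1
  ring

theorem cp_mulη (c : OA S) (x : S → PCh ι m) (i j : Fin (m + 1)) (col : ι) :
    CP fun τ => mulη c x i j col τ :=
  CP.of_isSol (c := fun _ : unitInterval => c) (D := fun _ s => ∑ c', (x s).D i c')
    (u := fun τ => c.corr τ fun s => (x s).A i j col) (v := fun τ s => 1 + (x s).η i j col τ)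
    continuous_const (fun _ => CD.const _) (fun _ s => (x s).inD_tot i)
    (fun s => CP.corr (c := fun _ : unitInterval => c) (A := fun _ s => (x s).A i j col)
      continuous_const continuous_subtype_val (fun _ => CD.const _) s)
    (fun s => (CP.const 1).add (cp_η (x s) i j col)) (fun τ => nv_corr c x i i j col τ)
    fun τ => mulSol c x i j col τ

/-- The product of chains. -/
def mul (c : OA S) (x : S → PCh ι m) : PCh ι m where
  D j col := c.push fun s => (x s).D j col
  A i j col := c.push fun s => (x s).A i j col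
  B i j col := c.push fun s => (x s).B i j col
  η := mulη c x
  inD j col := c.inD_push fun s => (x s).inD j col
  A_triv i j h col := by simp [fun s => (x s).A_triv i j h col]
  B_triv i j h col := by simp [fun s => (x s).B_triv i j h col]
  η_triv i j h col τ := mulη_of_zero c x i j col τ
    (fun s => by simp [fun s => (x s).A_triv i j h col, OA.corr_zero])
    fun s => (x s).η_triv i j h col τ
  D_eq i j h col := by
    rw [← c.push_add, ← c.push_add]
    exact congrArg c.push (funext fun s => (x s).D_eq i j h col)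
  A_add i j k h h' col := by
    rw [← c.push_add]
    exact congrArg c.push (funext fun s => (x s).A_add i j k h h' col)
  B_add i j k h h' col := by
    rw [← c.push_add]
    exact congrArg c.push (funext fun s => (x s).B_add i j k h h' col)
  η_deg i j col τ := by
    rw [push_tot]
    exact (mulSol c x i j col τ).1
  η_cont i j col := (cp_mulη c x i j col).2
  η_zero i j col := mulη_of_zero c x i j col 0 (fun s => c.corr_time_zero _ s)
    fun s => (x s).η_zero i j col
  η_nv i j col τ := by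
    rw [push_tot]
    exact mulη_nv c x i j col τ
  η_mul i j k h h' col τ := by
    rw [push_tot]
    exact mulη_mul c x i j k h h' col τ

theorem mul_pull (ψ : Fin (m + 1) →o Fin (m' + 1)) (c : OA S) (x : S → PCh ι m') :
    mul c (fun s => (x s).pull ψ) = (mul c x).pull ψ := rfl

theorem deg_mul (c : OA S) (x : S → PCh ι m) (j : Fin (m + 1)) :
    (mul c x).deg j = ∑ᶠ s, (x s).deg j := by
  funext col
  have := Fintype.ofFinite S
  rw [finsum_eq_sum_of_fintype, Finset.sum_apply, ← finsum_eq_sum_of_fintype]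
  exact c.card_push _

theorem mul_one (x : PCh ι m) : mul OA.one (fun _ => x) = x := by
  refine PCh.ext ?_ ?_ ?_ ?_
  · funext j col
    exact OA.one_push _
  · funext i j col
    exact OA.one_push _
  · funext i j col
    exact OA.one_push _
  · funext i j col τ
    refine MulSol.eq ⟨?_, fun s => ?_⟩
    · rw [OA.one_push]
      exact x.η_deg i j col τ
    · simp [OA.one_corr]

theorem mul_rel [Finite S'] (e : S ≃ S') (c : OA S) (x : S' → PCh ι m) :
    mul (OA.rel e c) x = mul c fun s => x (e s) := by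
  refine PCh.ext ?_ ?_ ?_ ?_
  · funext j col
    exact OA.rel_push e c _
  · funext i j col
    exact OA.rel_push e c _
  · funext i j col
    exact OA.rel_push e c _
  · funext i j col τ
    have h := mulSol c (fun s => x (e s)) i j col τ
    refine MulSol.eq ⟨?_, fun s => ?_⟩
    · rw [OA.rel_push]
      exact h.1
    · obtain ⟨s, rfl⟩ := e.surjective s
      rw [OA.rel_rho, OA.rel_corr]
      exact h.2 s

theorem mul_assoc {T : S → Type} [∀ s, Finite (T s)] (c : OA S) (d : ∀ s, OA (T s))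
    (x : (Σ s, T s) → PCh ι m) :
    mul (OA.comp c d) x = mul c fun s => mul (d s) fun t => x ⟨s, t⟩ := by
  refine PCh.ext ?_ ?_ ?_ ?_
  · funext j col
    exact OA.comp_push c d _
  · funext i j col
    exact OA.comp_push c d _
  · funext i j col
    exact OA.comp_push c d _
  · funext i j col τ
    have h := mulSol c (fun s => mul (d s) fun t => x ⟨s, t⟩) i j col τ
    have e : (fun s => ∑ c', (mul (d s) fun t => x ⟨s, t⟩).D i c') =
        fun s => (d s).push fun t => ∑ c', (x ⟨s, t⟩).D i c' :=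
      funext fun s => push_tot (d s) (fun t => x ⟨s, t⟩) i
    unfold MulSol at h
    rw [e] at h
    refine MulSol.eq ⟨?_, fun p => ?_⟩
    · rw [OA.comp_push]
      exact h.1
    · obtain ⟨s, t⟩ := p
      have h1 := ((d s).dvd_rho_push (fun t => ∑ c', (x ⟨s, t⟩).D i c') t).trans
        (_root_.map_dvd ((d s).rho t) (h.2 s))
      have h2 := (mulSol (d s) (fun t => x ⟨s, t⟩) i j col τ).2 t
      rw [OA.comp_rho, OA.comp_corr]
      rw [map_sub, map_mul] at h1
      have h3 := (h1.mul_right ((d s).corr τ (fun t => (x ⟨s, t⟩).A i j col) t)).add h2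
      convert h3 using 1
      change _ = ((d s).rho t (c.rho s (1 + mulη c _ i j col τ)) * (d s).rho t (c.corr τ
        (fun s' => (d s').push fun t' => (x ⟨s', t'⟩).A i j col) s) -
        (d s).rho t (1 + mulη (d s) (fun t => x ⟨s, t⟩) i j col τ)) * _ + _
      change (d s).rho t (c.rho s (1 + mulη c _ i j col τ)) * _ - _ = _
      ring

theorem sp_push (pos : σ → Finset ι) (c : OA S) (D : S → ι → Multiset ℂ) (a : σ) :
    sp pos (fun col => c.push fun s => D s col) a = c.push fun s => sp pos (D s) a :=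
  (c.push_sum (pos a) D).symm

/-- The phases of a product. -/
def phs (c : OA S) (x : S → PCh ι m) (i j : Fin (m + 1)) (s : S) (col : ι) : Circle :=
  c.ph (fun t => ((x t).A i j col).card) s

theorem mul_dvd (pos : σ → Finset ι) (c : OA S) (x : S → PCh ι m) (i j : Fin (m + 1)) (a : σ)
    (s : S) : pol (sp pos ((x s).A i j) a + sp pos ((x s).D i) a) ∣
      c.rho s (pol (c.push fun s => sp pos ((x s).A i j) a) * (mul c x).E pos i j a) -
        C (∏ col ∈ pos a, (phs c x i j s col : ℂ)) *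
          (pol (sp pos ((x s).A i j) a) * (x s).E pos i j a) := by
  have h1 : c.rho s (pol (c.push fun s => sp pos ((x s).A i j) a)) =
      C (∏ col ∈ pos a, (phs c x i j s col : ℂ)) * (pol (sp pos ((x s).A i j) a) *
        ∏ col ∈ pos a, c.corr (1 : unitInterval) (fun t => (x t).A i j col) s) := by
    rw [← sp_push, sp, sp, pol_sum, pol_sum, map_prod, map_prod, ← Finset.prod_mul_distrib,
      ← Finset.prod_mul_distrib]
    exact Finset.prod_congr rfl fun col _ => c.rho_pol_push _ s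
  have h2 : pol (sp pos ((x s).D i) a) ∣
      (∏ col ∈ pos a, c.rho s (1 + mulη c x i j col 1) *
        c.corr (1 : unitInterval) (fun t => (x t).A i j col) s) - (x s).E pos i j a := by
    refine (pol_dvd ((x s).sp_le pos i a)).trans ?_
    rw [← Ideal.mem_span_singleton, ← Ideal.Quotient.eq, E, map_prod, map_prod]
    refine Finset.prod_congr rfl fun col _ => ?_
    rw [Ideal.Quotient.eq, Ideal.mem_span_singleton]
    exact (mulSol c x i j col 1).2 s
  rw [map_mul, h1, pol_add]
  have h3 := (mul_dvd_mul_left (pol (sp pos ((x s).A i j) a)) h2).mul_left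
    (C (∏ col ∈ pos a, (phs c x i j s col : ℂ)))
  convert h3 using 1
  rw [Finset.prod_mul_distrib, ← map_prod]
  change _ * c.rho s (∏ col ∈ pos a, (1 + mulη c x i j col 1)) - _ = _
  ring

end PCh

end Pool.Agent.Lib.E2
end
end

-- part Pool.Agent.Lib.MP_10be03_gt.DChM
section

/-!
Layer D: the mode morphisms of a chain.
-/

noncomputable section
open Polynomial
open scoped Matrix

namespace Pool.Agent.Lib.E2

namespace Ch

variable {ι σ : Type} [Fintype ι] {pos : σ → Finset ι} {m m' : ℕ}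

/-- The mode morphism from the object `i` to the object `j`. -/
def mor (x : Ch pos m) (i j : Fin (m + 1)) : Raw σ :=
  (fun a => raw (phiM (nuOf pos (x.p.deg j) a) (nuOf pos (x.p.deg i) a)
      (nuOf pos (x.p.dg i j).2 a) (x.G i a) (x.G j a) (sp pos (x.p.D i) a) (sp pos (x.p.A i j) a)
      (x.p.E pos i j a)),
    fun a => raw (paM (nuOf pos (x.p.deg j) a) (nuOf pos (x.p.deg i) a)
      (nuOf pos (x.p.dg i j).2 a) (x.G j a) (sp pos (x.p.A i j) a)),
    fun a => raw (pbM (nuOf pos (x.p.deg j) a) (nuOf pos (x.p.dg i j).2 a) (x.G j a)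
      (sp pos (x.p.D i) a) (sp pos (x.p.A i j) a)))

theorem mor_pull (ψ : Fin (m + 1) →o Fin (m' + 1)) (x : Ch pos m') (i j : Fin (m + 1)) :
    (pull ψ x).mor i j = x.mor (ψ i) (ψ j) := rfl

theorem dg_self (x : Ch pos m) (i : Fin (m + 1)) : x.p.dg i i = 0 := by
  refine Prod.ext (funext fun c => ?_) (funext fun c => ?_)
  · simp [PCh.dg, x.p.A_triv i i le_rfl c]
  · simp [PCh.dg, x.p.B_triv i i le_rfl c]

theorem dg_add (x : Ch pos m) (i j k : Fin (m + 1)) (h : i ≤ j) (h' : j ≤ k) :
    x.p.dg i k = x.p.dg i j + x.p.dg j k := by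
  refine Prod.ext (funext fun c => ?_) (funext fun c => ?_)
  · simp [PCh.dg, x.p.A_add i j k h h' c]
  · simp [PCh.dg, x.p.B_add i j k h h' c]

theorem deg_add (x : Ch pos m) (i j : Fin (m + 1)) (h : i ≤ j) :
    x.p.deg j = x.p.deg i + (x.p.dg i j).1 + (x.p.dg i j).2 := by
  funext c
  simp [PCh.dg, PCh.deg, x.p.D_eq i j h c]

/-- The mode morphism with the degrees as parameters. -/
def dchm_morN (d : EncN ι m) (x : Ch pos m) (i j : Fin (m + 1)) : Raw σ :=
  (fun a => raw (phiM (nuOf pos (d.1 j) a) (nuOf pos (d.1 i) a)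
      (nuOf pos (d.2 i j).2 a) (x.G i a) (x.G j a) (sp pos (x.p.D i) a) (sp pos (x.p.A i j) a)
      (x.p.E pos i j a)),
    fun a => raw (paM (nuOf pos (d.1 j) a) (nuOf pos (d.1 i) a)
      (nuOf pos (d.2 i j).2 a) (x.G j a) (sp pos (x.p.A i j) a)),
    fun a => raw (pbM (nuOf pos (d.1 j) a) (nuOf pos (d.2 i j).2 a) (x.G j a)
      (sp pos (x.p.D i) a) (sp pos (x.p.A i j) a)))

theorem dchm_mor_eq (x : Ch pos m) (i j : Fin (m + 1)) : x.mor i j = dchm_morN x.p.dd x i j := rfl

theorem dchm_isMor {d : EncN ι m} (x : Ch pos m) (hx : x.p.dd = d) {i j : Fin (m + 1)}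
    (h : i ≤ j) (a : σ) :
    IsMor (nuOf pos (d.1 i) a) (nuOf pos (d.2 i j).1 a) (nuOf pos (d.2 i j).2 a)
      (nuOf pos (d.1 j) a) (sp pos (x.p.D i) a) (sp pos (x.p.A i j) a) (sp pos (x.p.B i j) a)
      (sp pos (x.p.D j) a) (x.p.E pos i j a) (x.G i a) (x.G j a) := by
  subst hx
  exact x.isMor h a

theorem dchm_nb_add (x : Ch pos m) {i j k : Fin (m + 1)} (h : i ≤ j) (h' : j ≤ k) (a : σ) :
    nuOf pos (x.p.dg i k).2 a = nuOf pos (x.p.dg i j).2 a + nuOf pos (x.p.dg j k).2 a := by
  rw [dg_add x i j k h h']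
  simp [nuOf, Finset.sum_add_distrib]

theorem dchm_nb_self (x : Ch pos m) (i : Fin (m + 1)) (a : σ) :
    nuOf pos (x.p.dg i i).2 a = 0 := by
  rw [dg_self]
  simp [nuOf]

theorem cont_mor (i j : Fin (m + 1)) (h : i ≤ j) : Continuous fun x : Ch pos m => x.mor i j := by
  refine continuous_of_fibres lc_dd fun d => ?_
  have hF : Fam fun t : {t : Ch pos m // t.p.dd = d} => t.1 :=
    Fam.of_continuous continuous_subtype_val fun t t' => t.2.trans t'.2.symm
  have e : (fun t : {t : Ch pos m // t.p.dd = d} => t.1.mor i j) =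
      fun t => dchm_morN d t.1 i j := by
    funext t
    rw [dchm_mor_eq, t.2]
  rw [e]
  have key := fun a => continuous_mor
    (fun t : {t : Ch pos m // t.p.dd = d} => dchm_isMor t.1 t.2 h a) (hF.G i a) (hF.G j a)
    (CD.sp (fun c => hF.p.D i c) a) (CD.sp (fun c => hF.p.A i j c) a) (hF.p.E i j a)
  refine Continuous.prodMk (continuous_pi fun a => ?_)
    (Continuous.prodMk (continuous_pi fun a => ?_) (continuous_pi fun a => ?_))
  · exact continuous_raw.comp (key a).1
  · exact continuous_raw.comp (key a).2.1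
  · exact continuous_raw.comp (key a).2.2

theorem valid_mor (x : Ch pos m) (i j : Fin (m + 1)) (h : i ≤ j) :
    Valid (nuOf pos (x.p.deg i)) (nuOf pos (x.p.deg j)) (x.mor i j) := by
  refine ⟨fun a => ?_, fun a => ?_, fun a => ?_, fun a => ?_, fun a => ?_, fun a => ?_⟩ <;>
    simp only [mor, mat_raw]
  · exact (x.isMor h a).iso
  · exact (x.isMor h a).pa_proj
  · exact (x.isMor h a).pb_proj
  · exact (x.isMor h a).pa_pb
  · exact (x.isMor h a).pa_phi
  · exact (x.isMor h a).pb_phi

theorem mor_self (x : Ch pos m) (i : Fin (m + 1)) : IsId (nuOf pos (x.p.deg i)) (x.mor i i) := by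
  have key := fun a => IsMet.phi_self (n := nuOf pos (x.p.deg i) a) (x.met i a) (card_sp _ _ _)
  refine ⟨fun a => ?_, fun a => ?_, fun a => ?_⟩ <;>
    simp only [mor, mat_raw, dchm_nb_self, (x.p.self_triv pos i a).1,
      (x.p.self_triv pos i a).2.2]
  · exact (key a).1
  · exact (key a).2.1
  · exact (key a).2.2

theorem mor_comp (x : Ch pos m) (i j k : Fin (m + 1)) (h : i ≤ j) (h' : j ≤ k) :
    IsComp (nuOf pos (x.p.deg i)) (nuOf pos (x.p.deg j)) (nuOf pos (x.p.deg k))
      (x.mor i j) (x.mor j k) (x.mor i k) := by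
  refine ⟨fun a => ?_, fun a => ?_, fun a => ?_⟩ <;>
    simp only [mor, mat_raw] <;> rw [dchm_nb_add x h h', x.p.sp_A_add pos h h']
  · exact (x.isMor h a).phi_comp (x.isMor h' a) (x.p.E_mul pos h h' a)
  · exact (x.isMor h a).pa_comp (x.isMor h' a)
  · exact (x.isMor h a).pb_comp' (x.isMor h' a)

theorem tr_a (x : Ch pos m) (i j : Fin (m + 1)) (h : i ≤ j) (a : σ) :
    (mat ((x.mor i j).2.1 a) (nuOf pos (x.p.deg j) a) (nuOf pos (x.p.deg j) a)).trace =
      nuOf pos (x.p.dg i j).1 a := by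
  simp only [mor, mat_raw]
  exact (x.isMor h a).pa_trace

theorem tr_b (x : Ch pos m) (i j : Fin (m + 1)) (h : i ≤ j) (a : σ) :
    (mat ((x.mor i j).2.2 a) (nuOf pos (x.p.deg j) a) (nuOf pos (x.p.deg j) a)).trace =
      nuOf pos (x.p.dg i j).2 a := by
  simp only [mor, mat_raw]
  exact (x.isMor h a).pb_trace

end Ch

end Pool.Agent.Lib.E2
end
end
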