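import Pool.Agent.Lib.MP_10be03_gt.Simp
import Pool.Agent.Lib.MP_10be03_gt.Orth

/-!
Simplicial algebras over an operad in orthogonal spectra with base sets, their realisation, and
the statement of layer G.
-/

noncomputable section
open scoped unitInterval Topology OnePoint

namespace Pool.Agent.Lib.E2

/-- A simplicial `O`-algebra in orthogonal spectra with base sets. -/
structure SAlg (O : Operad) where
  A : ℕ → SSpace
  fc : ∀ n m, FirstCountableTopology ((A n).X m)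
  pull : ∀ n {m m' : ℕ}, (Fin (m + 1) →o Fin (m' + 1)) → (A n).X m' → (A n).X m
  cont_pull : ∀ n {m m' : ℕ} (ψ : Fin (m + 1) →o Fin (m' + 1)), Continuous (pull n ψ)
  pull_comp : ∀ n {m m' m'' : ℕ} (ψ : Fin (m + 1) →o Fin (m' + 1))
    (χ : Fin (m' + 1) →o Fin (m'' + 1)) (x : (A n).X m''),
    pull n ψ (pull n χ x) = pull n (χ.comp ψ) x
  pull_Z : ∀ n {m m' : ℕ} (ψ : Fin (m + 1) →o Fin (m' + 1)) (x : (A n).X m'),
    x ∈ (A n).Z m' → pull n ψ x ∈ (A n).Z m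
  face_eq : ∀ n {m m' : ℕ} (ψ : Fin (m + 1) ↪o Fin (m' + 1)) (x : (A n).X m'),
    (A n).face ψ x = pull n ψ.toOrderHom x
  act : ∀ m {n N : ℕ}, Thom n N → (A n).X m → (A N).X m
  cont_act : ∀ m n N, Continuous fun p : Thom n N × (A n).X m => act m p.1 p.2
  act_pull : ∀ {m m' n N : ℕ} (ψ : Fin (m + 1) →o Fin (m' + 1)) (t : Thom n N) (x : (A n).X m'),
    act m t (pull n ψ x) = pull N ψ (act m' t x)
  act_Z : ∀ m {n N : ℕ} (t : Thom n N) (x : (A n).X m), x ∈ (A n).Z m → act m t x ∈ (A N).Z m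
  act_inf : ∀ m {n N : ℕ} (t : Thom n N) (x : (A n).X m), t.pt = ∞ → act m t x ∈ (A N).Z m
  act_id : ∀ m {n : ℕ} (t : Thom n n) (x : (A n).X m), (∀ v, t.map v = v) → t.pt = (0 : E n) →
    act m t x = x
  act_comp : ∀ m {n N M : ℕ} (t : Thom n N) (t' : Thom N M) (t'' : Thom n M) (w : E N) (w' : E M)
    (x : (A n).X m), t.pt = w → t'.pt = w' → (∀ v, t''.map v = t'.map (t.map v)) →
    t''.pt = (w' + t'.map w : E M) → act m t' (act m t x) = act m t'' x
  μ : ∀ m {S : Type} [Finite S] {n : S → ℕ} {N : ℕ},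
    O.O S → Dec n N → (∀ s, (A (n s)).X m) → (A N).X m
  kcont : ∀ m {S : Type} [Finite S] {n : S → ℕ} {N : ℕ} (φ : Dec n N),
    KCont fun p : O.O S × (∀ s, (A (n s)).X m) => μ m p.1 φ p.2
  μ_pull : ∀ {m m' : ℕ} (ψ : Fin (m + 1) →o Fin (m' + 1)) {S : Type} [Finite S] {n : S → ℕ}
    {N : ℕ} (c : O.O S) (φ : Dec n N) (x : ∀ s, (A (n s)).X m'),
    μ m c φ (fun s => pull (n s) ψ (x s)) = pull N ψ (μ m' c φ x)
  μ_Z : ∀ m {S : Type} [Finite S] {n : S → ℕ} {N : ℕ} (c : O.O S) (φ : Dec n N)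
    (x : ∀ s, (A (n s)).X m) (s : S), x s ∈ (A (n s)).Z m → μ m c φ x ∈ (A N).Z m
  μ_lin : ∀ m {S : Type} [Finite S] {n n' : S → ℕ} {N N' : ℕ} (c : O.O S) (φ : Dec n N)
    (φ' : Dec n' N') (t : ∀ s, Thom (n s) (n' s)) (w : ∀ s, E (n' s)) (T : Thom N N')
    (x : ∀ s, (A (n s)).X m), (∀ s, (t s).pt = w s) →
    (∀ s v, T.map (φ.map s v) = φ'.map s ((t s).map v)) →
    T.pt = (∑ᶠ s, φ'.map s (w s) : E N') →
    μ m c φ' (fun s => act m (t s) (x s)) = act m T (μ m c φ x)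
  μ_one : ∀ m {N : ℕ} (φ : Dec (fun _ : Unit => N) N) (x : (A N).X m), (∀ v, φ.map () v = v) →
    μ m O.one φ (fun _ => x) = x
  μ_assoc : ∀ m {S : Type} [Finite S] {T : S → Type} [∀ s, Finite (T s)]
    {n : (Σ s, T s) → ℕ} {k : S → ℕ} {N : ℕ} (c : O.O S) (d : ∀ s, O.O (T s)) (φ : Dec k N)
    (ψ : ∀ s, Dec (fun t => n ⟨s, t⟩) (k s)) (χ : Dec n N) (x : ∀ p, (A (n p)).X m),
    (∀ s t v, χ.map ⟨s, t⟩ v = φ.map s ((ψ s).map t v)) →
    μ m (O.comp c d) χ x = μ m c φ fun s => μ m (d s) (ψ s) fun t => x ⟨s, t⟩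
  μ_rel : ∀ m {S T : Type} [Finite S] [Finite T] (e : S ≃ T) {n : T → ℕ} {N : ℕ} (c : O.O S)
    (φ : Dec (fun s => n (e s)) N) (φ' : Dec n N) (x : ∀ t, (A (n t)).X m),
    (∀ s v, φ.map s v = φ'.map (e s) v) → μ m (O.rel e c) φ' x = μ m c φ fun s => x (e s)

namespace SAlg

variable {O : Operad} (B : SAlg O)

theorem act_face {m m' n N : ℕ} (t : Thom n N) (ψ : Fin (m + 1) ↪o Fin (m' + 1))
    (x : (B.A n).X m') : B.act m t ((B.A n).face ψ x) = (B.A N).face ψ (B.act m' t x) := by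
  rw [B.face_eq, B.face_eq, B.act_pull]

/-- The underlying semi-simplicial sequential spectrum. -/
def simp : SimpSp where
  A := B.A
  sg n m x u := B.act m (sThom n u) x
  cont n m := (B.cont_act m n (n + 1)).comp
    (((continuous_sThom n).comp continuous_snd).prodMk continuous_fst)
  sg_face n _ _ ψ x u := B.act_face (sThom n u) ψ x
  sg_Z n m x u hx := B.act_Z m _ x hx
  sg_zero n m x := B.act_inf m _ _ (by simp [sThom, axis, Thom.pt, ThomG.pt])
  sg_one n m x := B.act_inf m _ _ (by simp [sThom, axis, Thom.pt, ThomG.pt])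

/-- The data of the realisation. -/
def pre : PreO where
  X n := (B.A n).Re
  pt n := (B.A n).base
  act {n N} t x := (B.A n).map (B.A N) (fun m y => B.act m t y)
    (fun ψ y => B.act_face t ψ y) (fun m y hy => B.act_Z m t y hy) x

theorem pre_act {n N m : ℕ} (t : Thom n N) (x : (B.A n).X m) (u : Dl m) :
    B.pre.act t ((B.A n).mk' m x u) = (B.A N).mk' m (B.act m t x) u := rfl

end SAlg

/-- Layer G: the realisation is an orthogonal spectrum and an `O`-algebra, and the product of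
vertices is the vertex of the product. -/
def GStmt : Prop :=
  ∀ (O : Operad) (B : SAlg O), IsO B.pre ∧ ∃ μ : MulData O B.pre, IsAlg O B.pre μ ∧
    ∀ {S : Type} [Finite S] {n : S → ℕ} {N : ℕ} (c : O.O S) (φ : Dec n N)
      (x : ∀ s, (B.A (n s)).X 0),
      μ.ap c φ (fun s => (B.A (n s)).mk' 0 (x s) (stdSimplex.vertex 0)) =
        (B.A N).mk' 0 (B.μ 0 c φ x) (stdSimplex.vertex 0)

example {O : Operad} (B : SAlg O) (h : IsO B.pre) : OSp.toS ⟨B.pre, h⟩ = B.simp.Real := rfl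

end Pool.Agent.Lib.E2
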