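import Pool.Agent.Lib.MP_10be03_gt.KCont
import Pool.Agent.Lib.MP_10be03_gt.Simp
import Pool.Agent.Lib.MP_10be03_gt.SAlg

-- part Pool.Agent.Lib.MP_10be03_gt.GTop
section

/-!
Topological and set theoretic lemmas for layer G.
-/

noncomputable section
open Topology
open scoped OnePoint

namespace Pool.Agent.Lib.E2

theorem Gclosed_thom (n N : ℕ) :
    IsClosed {p : CLM (E n) (E N) × OnePoint (E N) | IsThom (E n) (E N) p} := by
  have h1 : IsClosed {p : CLM (E n) (E N) × OnePoint (E N) | ∀ v, ‖p.1 v‖ = ‖v‖} := by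
    simp only [Set.ofPred_forall]
    exact isClosed_iInter fun v => isClosed_eq (by fun_prop) continuous_const
  have h2 : ∀ v : E n, IsOpen ((Prod.map id (fun w : E N => (w : OnePoint (E N)))) ''
      {p : CLM (E n) (E N) × E N | inner ℝ p.2 (p.1 v) ≠ 0}) := fun v =>
    (IsOpenMap.id.prodMap OnePoint.isOpenMap_coe) _
      (isOpen_ne_fun (by fun_prop) continuous_const)
  have h3 := h1.inter (isClosed_iInter fun v => (h2 v).isClosed_compl)
  convert h3 using 1
  ext p
  simp only [IsThom, Set.mem_ofPred_eq, Set.mem_inter_iff, Set.mem_iInter, Set.mem_compl_iff,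
    Set.mem_image, not_exists, not_and]
  refine and_congr_right fun _ => ⟨fun h v q hq e => ?_, fun h w hw v => ?_⟩
  · subst e
    exact hq (h q.2 rfl v)
  · by_contra hc
    exact h v (p.1, w) hc (Prod.ext rfl hw.symm)

theorem Glc_thom (n N : ℕ) : LocallyCompactSpace (Thom n N) :=
  (Gclosed_thom n N).locallyCompactSpace

theorem Gpi_quot {S : Type} [Finite S] [DecidableEq S] {A : S → Type} {Z : Type}
    (r : ∀ s, A s → A s → Prop) (F : (∀ s, A s) → Z)
    (h : ∀ (p : ∀ s, A s) s a b, r s a b →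
      F (Function.update p s a) = F (Function.update p s b))
    (p p' : ∀ s, A s) (hp : ∀ s, Quot.mk (r s) (p s) = Quot.mk (r s) (p' s)) : F p = F p' := by
  have h1 : ∀ (q : ∀ s, A s) s a b, Relation.EqvGen (r s) a b →
      F (Function.update q s a) = F (Function.update q s b) := by
    intro q s a b hab
    induction hab with
    | rel a b hab => exact h q s a b hab
    | refl a => rfl
    | symm a b _ ih => exact ih.symm
    | trans a b c _ _ ih ih' => exact ih.trans ih'
  have := Fintype.ofFinite S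
  have h2 : ∀ T : Finset S, F p = F (T.piecewise p' p) := by
    intro T
    induction T using Finset.induction_on with
    | empty => simp
    | insert s T hs ih =>
      rw [Finset.piecewise_insert, ← h1 _ s _ _ (Quot.eqvGen_exact (hp s)), ih]
      congr 1
      rw [← Finset.piecewise_eq_of_notMem T p' p hs, Function.update_eq_self]
  simpa using h2 Finset.univ

theorem KCont.Gsigma_pi {S : Type} [Finite S] {A : S → ℕ → Type}
    [∀ s m, TopologicalSpace (A s m)] {P T : Type} [TopologicalSpace P] [TopologicalSpace T]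
    {F : P × (∀ s, Σ m, A s m) → T}
    (h : ∀ m : S → ℕ, KCont fun p : P × (∀ s, A s (m s)) => F (p.1, fun s => ⟨m s, p.2 s⟩)) :
    KCont F := by
  intro K _ _ _ g hg
  rw [continuous_iff_continuousAt]
  intro k0
  let m : S → ℕ := fun s => ((g k0).2 s).1
  let U : Set K := ⋂ s, (fun k => (g k).2 s) ⁻¹' Set.range (Sigma.mk (m s))
  have hU : IsClopen U := isClopen_iInter_of_finite fun s =>
    isClopen_range_sigmaMk.preimage (by fun_prop)
  have hk : k0 ∈ U := Set.mem_iInter.2 fun s => ⟨((g k0).2 s).2, rfl⟩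
  have : CompactSpace U := isCompact_iff_compactSpace.1 hU.isClosed.isCompact
  have hex : ∀ (k : U) s, ∃ a : A s (m s), Sigma.mk (m s) a = (g k).2 s :=
    fun k s => Set.mem_iInter.1 k.2 s
  choose l hl using hex
  have hlc : Continuous fun k : U => ((g k).1, l k) := by
    refine Continuous.prodMk (by fun_prop) (continuous_pi fun s => ?_)
    rw [(IsEmbedding.sigmaMk (σ := A s) (i := m s)).continuous_iff]
    have : (Sigma.mk (m s) ∘ fun k : U => l k s) = fun k : U => (g k).2 s := funext fun k => hl k s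
    rw [this]
    fun_prop
  have h1 := h m U _ hlc
  have h2 : ContinuousOn (F ∘ g) U := by
    rw [continuousOn_iff_continuous_domRestrict]
    refine h1.congr fun k => ?_
    exact congrArg F (Prod.ext rfl (funext fun s => hl k s))
  exact h2.continuousAt (hU.isOpen.mem_nhds hk)

theorem KCont.Gcover {Y T ι : Type} [TopologicalSpace Y] [TopologicalSpace T] [Finite ι]
    {D : ι → Type} [∀ i, TopologicalSpace (D i)] [∀ i, CompactSpace (D i)] [∀ i, T2Space (D i)]
    (C : ∀ i, Set (Y × D i)) (hC : ∀ i, IsClosed (C i)) (hs : ∀ y, ∃ i d, (y, d) ∈ C i)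
    {F : Y → T} (h : ∀ i, KCont fun p : C i => F p.1.1) : KCont F := by
  intro K _ _ _ g hg
  let W : ι → Type := fun i => {p : K × D i // (g p.1, p.2) ∈ C i}
  have : ∀ i, CompactSpace (W i) := fun i => isCompact_iff_compactSpace.1
    ((hC i).preimage (f := fun p : K × D i => (g p.1, p.2)) (by fun_prop)).isCompact
  let q : (Σ i, W i) → K := fun p => p.2.1.1
  have hq : IsQuotientMap q := IsQuotientMap.of_surjective_continuous
    (fun k => (hs (g k)).elim fun i hi => hi.elim fun d hd => ⟨⟨i, (k, d), hd⟩, rfl⟩)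
    (continuous_sigma fun i => continuous_fst.comp continuous_subtype_val)
  rw [hq.continuous_iff]
  refine continuous_sigma fun i => ?_
  exact h i (W i) (fun p => ⟨(g p.1.1, p.1.2), p.2⟩) (Continuous.subtype_mk (by fun_prop) _)

end Pool.Agent.Lib.E2
end
end

-- part Pool.Agent.Lib.MP_10be03_gt.GChain
section

/-!
The triangulation of a finite product of simplices by chains: existence and uniqueness.
-/

noncomputable section

namespace Pool.Agent.Lib.E2

theorem Gmap_apply {X Y : Type} [Fintype X] [Fintype Y] [DecidableEq Y] (f : X → Y)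
    (u : stdSimplex ℝ X) (y : Y) :
    stdSimplex.map f u y = ∑ x, if f x = y then u x else 0 := by
  rw [stdSimplex.map_coe, FunOnFinite.linearMap_apply_apply, Finset.sum_filter]

theorem Gsum_fib {X Y : Type} [Fintype X] [Fintype Y] [DecidableEq Y] (f : X → Y)
    (u : X → ℝ) (p : Y → Prop) [DecidablePred p] :
    (∑ y, if p y then (∑ x, if f x = y then u x else 0) else 0) =
      ∑ x, if p (f x) then u x else 0 := by
  have h : ∀ y, (if p y then (∑ x, if f x = y then u x else 0) else 0) =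
      ∑ x, if f x = y then (if p (f x) then u x else 0) else 0 := by
    intro y
    split_ifs with hy
    · refine Finset.sum_congr rfl fun x _ => ?_
      by_cases hx : f x = y
      · simp [hx, hy]
      · simp [hx]
    · symm
      refine Finset.sum_eq_zero fun x _ => ?_
      by_cases hx : f x = y
      · simp [hx, hy]
      · simp [hx]
  simp only [h]
  rw [Finset.sum_comm]
  simp

theorem Gexists_chain {S : Type} [Finite S] (m : S → ℕ) (a : ∀ s, Fin (m s + 1)) :
    ∀ (w : ℝ) (t : ∀ s, Fin (m s + 1) → ℝ), 0 ≤ w → (∀ s j, 0 ≤ t s j) →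
      (∀ s, ∑ j, t s j = w) → (∀ s j, j < a s → t s j = 0) →
      ∃ (M : ℕ) (ψ : Fin (M + 1) → ∀ s, Fin (m s + 1)) (u : Fin (M + 1) → ℝ),
        StrictMono ψ ∧ ψ 0 = a ∧ (∀ i, 0 ≤ u i) ∧ ∑ i, u i = w ∧
          ∀ s j, (∑ i, if ψ i s = j then u i else 0) = t s j := by
  classical
  induction a using WellFoundedGT.induction with
  | ind a ih =>
  intro w t hw ht hs hz
  have hlast : ∀ s, a s = Fin.last _ → t s (a s) = w := by
    intro s h
    rw [← hs s, Finset.sum_eq_single (a s) _ (by simp)]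
    intro j _ hj
    refine hz s j (lt_of_le_of_ne ?_ hj)
    rw [h]; exact Fin.le_last j
  by_cases hall : ∀ s, a s = Fin.last _
  · refine ⟨0, fun _ => a, fun _ => w, Subsingleton.strictMono (α := Fin 1) _, rfl, fun _ => hw, by simp, ?_⟩
    intro s j
    by_cases hj : a s = j
    · subst hj; simp [hlast s (hall s)]
    · have : j < a s := lt_of_le_of_ne (by rw [hall s]; exact Fin.le_last j) (Ne.symm hj)
      simp [hj, hz s j this]
  · push Not at hall
    have : Nonempty {s // a s ≠ Fin.last _} := hall.elim fun s hs => ⟨⟨s, hs⟩⟩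
    obtain ⟨⟨s0, hs0⟩, hmin⟩ := Finite.exists_min
      (fun s : {s // a s ≠ Fin.last _} => t s.1 (a s.1))
    have hlt : (a s0 : ℕ) + 1 < m s0 + 1 := by
      have := Fin.val_lt_last hs0
      omega
    set δ := t s0 (a s0) with hδ
    have hδ0 : 0 ≤ δ := ht _ _
    have hδw : δ ≤ w := by
      rw [← hs s0]
      exact Finset.single_le_sum (fun j _ => ht s0 j) (Finset.mem_univ _)
    have hδs : ∀ s, δ ≤ t s (a s) := by
      intro s
      by_cases h : a s = Fin.last _
      · rw [hlast s h]; exact hδw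
      · exact hmin ⟨s, h⟩
    set a' : ∀ s, Fin (m s + 1) := Function.update a s0 ⟨a s0 + 1, hlt⟩ with ha'
    have haa : a < a' := by
      refine lt_of_le_of_ne (fun s => ?_) fun h => ?_
      · by_cases h : s = s0
        · subst h
          simp [ha', Fin.le_def]
        · simp [ha', Function.update_of_ne h]
      · have := congrArg (fun f => ((f s0 : Fin (m s0 + 1)) : ℕ)) h
        simp [ha'] at this
    obtain ⟨M, ψ, u, h1, h2, h3, h4, h5⟩ := ih a' haa (w - δ)
      (fun s j => t s j - if a s = j then δ else 0) (sub_nonneg.2 hδw)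
      (fun s j => by
        by_cases h : a s = j
        · subst h; simpa using hδs s
        · simpa [h] using ht s j)
      (fun s => by simp [Finset.sum_sub_distrib, hs])
      (fun s j hj => by
        by_cases h : a s = j
        · subst h
          by_cases h' : s = s0
          · subst h'; simp [hδ]
          · simp [ha', Function.update_of_ne h'] at hj
        · have : j < a s := by
            by_cases h' : s = s0
            · subst h'
              simp only [ha', Function.update_self, Fin.lt_def] at hj ⊢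
              have : (a s : ℕ) ≠ j := fun e => h (Fin.ext e)
              omega
            · simpa [ha', Function.update_of_ne h'] using hj
          simp [h, hz s j this])
    refine ⟨M + 1, Fin.cons a ψ, Fin.cons δ u, ?_, rfl, ?_, ?_, ?_⟩
    · rw [Fin.strictMono_iff_lt_succ]
      intro i
      refine Fin.cases ?_ (fun j => ?_) i
      · simpa [h2] using haa
      · simpa [← Fin.succ_castSucc] using h1 (Fin.castSucc_lt_succ (i := j))
    · intro i
      refine Fin.cases ?_ (fun j => ?_) i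
      · simpa using hδ0
      · simpa using h3 j
    · rw [Fin.sum_univ_succ]; simp [h4]
    · intro s j
      rw [Fin.sum_univ_succ]
      simp only [Fin.cons_zero, Fin.cons_succ, h5]
      ring

theorem Gcdf_le {S : Type} {m : S → ℕ} {M M' : ℕ} [DecidableLE (∀ s, Fin (m s + 1))]
    (ψ : Fin (M + 1) → ∀ s, Fin (m s + 1))
    (ψ' : Fin (M' + 1) → ∀ s, Fin (m s + 1)) (hψ : Monotone ψ) (u : Dl M) (u' : Dl M')
    (h : ∀ s, stdSimplex.map (fun i => ψ i s) u = stdSimplex.map (fun i => ψ' i s) u')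
    (a : ∀ s, Fin (m s + 1)) :
    (∑ i, if ψ' i ≤ a then u' i else 0) ≤ ∑ i, if ψ i ≤ a then u i else 0 := by
  classical
  by_cases hall : ∀ i, ψ i ≤ a
  · simp only [hall, if_true, stdSimplex.sum_eq_one]
    rw [← stdSimplex.sum_eq_one u']
    refine Finset.sum_le_sum fun i _ => ?_
    split_ifs
    · exact le_rfl
    · exact stdSimplex.zero_le _ _
  · push Not at hall
    have : Nonempty {i // ¬ ψ i ≤ a} := hall.elim fun i hi => ⟨⟨i, hi⟩⟩
    obtain ⟨⟨i0, hi0⟩, hmin⟩ := Finite.exists_min (fun i : {i // ¬ ψ i ≤ a} => i.1)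
    obtain ⟨s0, hs0⟩ : ∃ s, a s < ψ i0 s := by
      by_contra hc
      push Not at hc
      exact hi0 hc
    have e1 : ∀ i, ψ i ≤ a ↔ ψ i s0 ≤ a s0 := by
      refine fun i => ⟨fun hi => hi s0, fun hi => ?_⟩
      by_contra hc
      exact absurd (lt_of_lt_of_le hs0 (hψ (hmin ⟨i, hc⟩) s0)) (not_lt.2 hi)
    have e2 := Gsum_fib (fun i => ψ i s0) u (fun j => j ≤ a s0)
    have e3 := Gsum_fib (fun i => ψ' i s0) u' (fun j => j ≤ a s0)
    simp only [← Gmap_apply] at e2 e3
    simp only [e1]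
    rw [← e2, h s0, e3]
    refine Finset.sum_le_sum fun i _ => ?_
    by_cases hi : ψ' i ≤ a
    · simp [hi, hi s0]
    · simp only [hi, if_false]
      split_ifs
      · exact stdSimplex.zero_le _ _
      · exact le_rfl

theorem Gmeasure_eq {S : Type} [Finite S] {m : S → ℕ} {M M' : ℕ}
    [DecidableEq (∀ s, Fin (m s + 1))] (ψ : Fin (M + 1) → ∀ s, Fin (m s + 1))
    (ψ' : Fin (M' + 1) → ∀ s, Fin (m s + 1)) (hψ : Monotone ψ) (hψ' : Monotone ψ')
    (u : Dl M) (u' : Dl M')
    (h : ∀ s, stdSimplex.map (fun i => ψ i s) u = stdSimplex.map (fun i => ψ' i s) u')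
    (a : ∀ s, Fin (m s + 1)) :
    (∑ i, if ψ i = a then u i else 0) = ∑ i, if ψ' i = a then u' i else 0 := by
  classical
  have : Fintype (∀ s, Fin (m s + 1)) := Fintype.ofFinite _
  induction a using WellFoundedLT.induction with
  | ind a ih =>
  have e := le_antisymm (Gcdf_le ψ' ψ hψ' u' u (fun s => (h s).symm) a)
    (Gcdf_le ψ ψ' hψ u u' h a)
  have e2 := Gsum_fib ψ u (fun y => y < a)
  have e3 := Gsum_fib ψ' u' (fun y => y < a)
  have e4 : (∑ i, if ψ i < a then u i else 0) = ∑ i, if ψ' i < a then u' i else 0 := by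
    rw [← e2, ← e3]
    refine Finset.sum_congr rfl fun y _ => ?_
    split_ifs with hy
    · exact ih y hy
    · rfl
  have sp : ∀ {K : ℕ} (χ : Fin (K + 1) → ∀ s, Fin (m s + 1)) (v : Dl K),
      (∑ i, if χ i ≤ a then v i else 0) =
        (∑ i, if χ i = a then v i else 0) + ∑ i, if χ i < a then v i else 0 := by
    intro K χ v
    rw [← Finset.sum_add_distrib]
    refine Finset.sum_congr rfl fun i _ => ?_
    by_cases h1 : χ i = a
    · simp [h1]
    · by_cases h2 : χ i ≤ a
      · simp [h1, h2, lt_of_le_of_ne h2 h1]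
      · have h3 : ¬ χ i < a := fun h3 => h2 h3.le
        simp [h1, h2, h3]
  rw [sp, sp] at e
  linarith

theorem Gsupp {M : ℕ} (u : Dl M) (k : ℕ)
    (hk : (Finset.univ.filter fun i => u i ≠ 0).card = k + 1) :
    ∃ (θ : Fin (k + 1) ↪o Fin (M + 1)) (v : Dl k), stdSimplex.map θ v = u ∧
      (∀ i, v i = u (θ i)) ∧ Set.range θ = {i | u i ≠ 0} := by
  classical
  set θ := Finset.orderEmbOfFin _ hk with hθ
  have hr : Set.range θ = {i | u i ≠ 0} := by
    rw [hθ, Finset.range_orderEmbOfFin]; ext i; simp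
  have key : ∀ j, (∑ i, if θ i = j then u (θ i) else 0) = u j := by
    intro j
    by_cases hj : u j = 0
    · rw [hj]
      refine Finset.sum_eq_zero fun i _ => ?_
      split_ifs with hi
      · rw [hi, hj]
      · rfl
    · obtain ⟨i, rfl⟩ : j ∈ Set.range θ := by rw [hr]; exact hj
      simp [θ.injective.eq_iff]
  refine ⟨θ, ⟨fun i => u (θ i), fun i => stdSimplex.zero_le _ _, ?_⟩, ?_, fun _ => rfl, hr⟩
  · have := Gsum_fib θ (fun i => u (θ i)) (fun _ => True)
    simp only [if_true, key, stdSimplex.sum_eq_one] at this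
    exact this.symm
  · ext j
    rw [Gmap_apply]
    exact key j

theorem Gcommon {S : Type} [Finite S] {m : S → ℕ} {M M' : ℕ}
    (ψ : Fin (M + 1) → ∀ s, Fin (m s + 1))
    (ψ' : Fin (M' + 1) → ∀ s, Fin (m s + 1)) (hψ : StrictMono ψ) (hψ' : StrictMono ψ')
    (u : Dl M) (u' : Dl M')
    (h : ∀ s, stdSimplex.map (fun i => ψ i s) u = stdSimplex.map (fun i => ψ' i s) u') :
    ∃ (k : ℕ) (θ : Fin (k + 1) ↪o Fin (M + 1)) (θ' : Fin (k + 1) ↪o Fin (M' + 1)) (v : Dl k),
      stdSimplex.map θ v = u ∧ stdSimplex.map θ' v = u' ∧ ∀ i, ψ (θ i) = ψ' (θ' i) := by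
  classical
  have hm := Gmeasure_eq ψ ψ' hψ.monotone hψ'.monotone u u' h
  have e1 : ∀ i, (∑ i', if ψ' i' = ψ i then u' i' else 0) = u i := by
    intro i; rw [← hm]; simp [hψ.injective.eq_iff]
  have e2 : ∀ i', (∑ i, if ψ i = ψ' i' then u i else 0) = u' i' := by
    intro i; rw [hm]; simp [hψ'.injective.eq_iff]
  have e3 : ∀ i i', ψ i = ψ' i' → u i = u' i' := by
    intro i i' hi; rw [← e1, hi]; simp [hψ'.injective.eq_iff]
  have him : ψ '' {i | u i ≠ 0} = ψ' '' {i | u' i ≠ 0} := by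
    ext a
    constructor
    · rintro ⟨i, hi, rfl⟩
      obtain ⟨i', -, hi'⟩ := Finset.exists_ne_zero_of_sum_ne_zero ((e1 i).trans_ne hi)
      by_cases hc : ψ' i' = ψ i
      · exact ⟨i', by simpa [hc] using hi', hc⟩
      · simp [hc] at hi'
    · rintro ⟨i, hi, rfl⟩
      obtain ⟨i', -, hi'⟩ := Finset.exists_ne_zero_of_sum_ne_zero ((e2 i).trans_ne hi)
      by_cases hc : ψ i' = ψ' i
      · exact ⟨i', by simpa [hc] using hi', hc⟩
      · simp [hc] at hi'
  have hcard : (Finset.univ.filter fun i => u i ≠ 0).card =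
      (Finset.univ.filter fun i => u' i ≠ 0).card := by
    rw [← Finset.card_image_of_injective _ hψ.injective,
      ← Finset.card_image_of_injective _ hψ'.injective]
    congr 1
    apply Finset.coe_injective
    simpa using him
  have hpos : (Finset.univ.filter fun i => u i ≠ 0).card ≠ 0 := by
    rw [Finset.card_ne_zero]
    obtain ⟨i, -, hi⟩ := Finset.exists_ne_zero_of_sum_ne_zero
      ((stdSimplex.sum_eq_one u).symm ▸ one_ne_zero : ∑ i, u i ≠ 0)
    exact ⟨i, by simpa using hi⟩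
  obtain ⟨k, hk⟩ := Nat.exists_eq_succ_of_ne_zero hpos
  obtain ⟨θ, v, a1, a2, a3⟩ := Gsupp u k hk
  obtain ⟨θ', v', b1, b2, b3⟩ := Gsupp u' k (hcard ▸ hk)
  have hcomp : ψ ∘ θ = ψ' ∘ θ' := by
    rw [← (hψ.comp θ.strictMono).range_inj (hψ'.comp θ'.strictMono), Set.range_comp,
      Set.range_comp, a3, b3, him]
  have hv : v = v' := by
    ext i
    rw [a2, b2]
    exact e3 _ _ (congrFun hcomp i)
  exact ⟨k, θ, θ', v, a1, hv ▸ b1, congrFun hcomp⟩

end Pool.Agent.Lib.E2
end
end

-- part Pool.Agent.Lib.MP_10be03_gt.G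
section

/-!
Layer G: the realisation of a simplicial algebra is an algebra.
-/

noncomputable section
open Topology

namespace Pool.Agent.Lib.E2

/-- `(M, ψ, u)` is an injective chain with a point that maps to `t`. -/
def GRep {S : Type} {m : S → ℕ} (t : ∀ s, Dl (m s)) (M : ℕ)
    (ψ : ∀ s, Fin (M + 1) →o Fin (m s + 1)) (u : Dl M) : Prop :=
  Function.Injective (fun i s => ψ s i) ∧ ∀ s, stdSimplex.map (ψ s) u = t s

theorem Grep_exists {S : Type} [Finite S] {m : S → ℕ} (t : ∀ s, Dl (m s)) :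
    ∃ q : Σ M, (∀ s, Fin (M + 1) →o Fin (m s + 1)) × Dl M, GRep t q.1 q.2.1 q.2.2 := by
  obtain ⟨M, ψ, u, h1, -, h3, h4, h5⟩ := Gexists_chain m (fun _ => 0) 1 (fun s => t s)
    zero_le_one (fun s j => stdSimplex.zero_le _ _) (fun s => stdSimplex.sum_eq_one _)
    (fun s j hj => absurd hj (Fin.not_lt_zero j))
  refine ⟨⟨M, fun s => ⟨fun i => ψ i s, fun i j hij => h1.monotone hij s⟩, ⟨u, h3, h4⟩⟩,
    h1.injective, fun s => ?_⟩
  ext j
  rw [Gmap_apply]
  exact h5 s j

namespace SAlg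

variable {O : Operad} (B : SAlg O)

theorem Gpull_id (n m : ℕ) (x : (B.A n).X m) : B.pull n OrderHom.id x = x := by
  have h := B.face_eq n (OrderIso.refl (Fin (m + 1))).toOrderEmbedding x
  rw [(B.A n).face_id _ x fun _ => rfl] at h
  exact h.symm

theorem GisO : IsO B.pre where
  cont n N :=
    have := Glc_thom n N
    (B.A n).continuous_map (B.A N) (P := Thom n N) (fun t m y => B.act m t y)
      (fun t _ _ ψ y => B.act_face t ψ y) (fun t m y hy => B.act_Z m t y hy)
      (fun m => B.cont_act m n N)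
  act_pt {n N} t := (B.A N).mk'_of_mem (B.act_Z 0 t _ (B.A n).pt_mem) _
  act_inf {n N} t := by
    rintro ⟨m, x, u⟩ h
    exact (B.A N).mk'_of_mem (B.act_inf m t x h) u
  act_id {n} t := by
    rintro ⟨m, x, u⟩ h h'
    exact congrArg (fun y => (B.A n).mk' m y u) (B.act_id m t x h h')
  act_comp {n N M} t t' t'' w w' := by
    rintro ⟨m, x, u⟩ h1 h2 h3 h4
    exact congrArg (fun y => (B.A M).mk' m y u) (B.act_comp m t t' t'' w w' x h1 h2 h3 h4)

variable {S : Type} [Finite S] {n : S → ℕ} {N : ℕ}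

/-- The value of the product along a chain. -/
def Gval (c : O.O S) (φ : Dec n N) {m : S → ℕ} (x : ∀ s, (B.A (n s)).X (m s)) (M : ℕ)
    (ψ : ∀ s, Fin (M + 1) →o Fin (m s + 1)) (u : Dl M) : (B.A N).Re :=
  (B.A N).mk' M (B.μ M c φ fun s => B.pull (n s) (ψ s) (x s)) u

theorem Gval_face (c : O.O S) (φ : Dec n N) {m : S → ℕ} (x : ∀ s, (B.A (n s)).X (m s))
    {M k : ℕ} (ψ : ∀ s, Fin (M + 1) →o Fin (m s + 1)) (θ : Fin (k + 1) ↪o Fin (M + 1))
    (v : Dl k) : B.Gval c φ x M ψ (stdSimplex.map θ v) =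
      B.Gval c φ x k (fun s => (ψ s).comp θ.toOrderHom) v := by
  unfold Gval
  rw [← SSpace.mk'_face, B.face_eq, ← B.μ_pull]
  simp only [B.pull_comp]

theorem Gval_eq (c : O.O S) (φ : Dec n N) {m : S → ℕ} (x : ∀ s, (B.A (n s)).X (m s))
    {t : ∀ s, Dl (m s)} {M M' : ℕ} {ψ : ∀ s, Fin (M + 1) →o Fin (m s + 1)} {u : Dl M}
    {ψ' : ∀ s, Fin (M' + 1) →o Fin (m s + 1)} {u' : Dl M'} (h : GRep t M ψ u)
    (h' : GRep t M' ψ' u') : B.Gval c φ x M ψ u = B.Gval c φ x M' ψ' u' := by
  obtain ⟨k, θ, θ', v, rfl, rfl, e⟩ := Gcommon (fun i s => ψ s i) (fun i s => ψ' s i)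
    (Monotone.strictMono_of_injective (fun i j hij s => (ψ s).monotone hij) h.1)
    (Monotone.strictMono_of_injective (fun i j hij s => (ψ' s).monotone hij) h'.1) u u'
    (fun s => (h.2 s).trans (h'.2 s).symm)
  rw [Gval_face, Gval_face]
  congr 1
  funext s
  exact OrderHom.ext _ _ (funext fun i => congrFun (e i) s)

/-- The product on representatives. -/
def GF (c : O.O S) (φ : Dec n N) (p : ∀ s, (B.A (n s)).Tot) : (B.A N).Re :=
  B.Gval c φ (fun s => (p s).2.1) _ (Grep_exists fun s => (p s).2.2).choose.2.1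
    (Grep_exists fun s => (p s).2.2).choose.2.2

theorem GF_eq (c : O.O S) (φ : Dec n N) (p : ∀ s, (B.A (n s)).Tot) {M : ℕ}
    {ψ : ∀ s, Fin (M + 1) →o Fin ((p s).1 + 1)} {u : Dl M} (h : GRep (fun s => (p s).2.2) M ψ u) :
    B.GF c φ p = B.Gval c φ (fun s => (p s).2.1) M ψ u :=
  B.Gval_eq c φ _ (Grep_exists fun s => (p s).2.2).choose_spec h

theorem GF_Z (c : O.O S) (φ : Dec n N) (p : ∀ s, (B.A (n s)).Tot) (s : S)
    (h : (p s).2.1 ∈ (B.A (n s)).Z (p s).1) : B.GF c φ p = (B.A N).base :=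
  (B.A N).mk'_of_mem (B.μ_Z _ c φ _ s (B.pull_Z _ _ _ h)) _

theorem GF_face (c : O.O S) (φ : Dec n N) (p p' : ∀ s, (B.A (n s)).Tot)
    (h : ∀ s, ∃ θ : Fin ((p s).1 + 1) ↪o Fin ((p' s).1 + 1),
      (p s).2.1 = (B.A (n s)).face θ (p' s).2.1 ∧ (p' s).2.2 = stdSimplex.map θ (p s).2.2) :
    B.GF c φ p = B.GF c φ p' := by
  choose θ h1 h2 using h
  obtain ⟨⟨M, ψ, u⟩, hr⟩ := Grep_exists fun s => (p s).2.2
  have hr' : GRep (fun s => (p' s).2.2) M (fun s => (θ s).toOrderHom.comp (ψ s)) u := by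
    refine ⟨fun i j hij => hr.1 (funext fun s => (θ s).injective (congrFun hij s)), fun s => ?_⟩
    have h3 : stdSimplex.map (ψ s) u = (p s).2.2 := hr.2 s
    change _ = (p' s).2.2
    rw [h2, ← h3, stdSimplex.map_comp_apply]
    rfl
  rw [B.GF_eq c φ p hr, B.GF_eq c φ p' hr']
  unfold Gval
  simp only [h1, B.face_eq, B.pull_comp]

theorem GF_congr (c : O.O S) (φ : Dec n N) (p p' : ∀ s, (B.A (n s)).Tot)
    (h : ∀ s, Quot.mk (B.A (n s)).Rel (p s) = Quot.mk (B.A (n s)).Rel (p' s)) :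
    B.GF c φ p = B.GF c φ p' := by
  classical
  refine Gpi_quot (fun s => (B.A (n s)).Rel) (B.GF c φ) ?_ p p' h
  intro q s a b hab
  cases hab with
  | face ψ x t =>
    refine B.GF_face c φ _ _ fun s' => ?_
    by_cases hs : s' = s
    · subst hs
      rw [Function.update_self, Function.update_self]
      exact ⟨ψ, rfl, rfl⟩
    · rw [Function.update_of_ne hs, Function.update_of_ne hs]
      exact ⟨(OrderIso.refl _).toOrderEmbedding, ((B.A _).face_id _ _ fun _ => rfl).symm,
        (stdSimplex.map_id_apply _).symm⟩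
  | base x t hx =>
    rw [B.GF_Z c φ _ s (by rw [Function.update_self]; exact hx),
      B.GF_Z c φ _ s (by rw [Function.update_self]; exact (B.A _).pt_mem)]

/-- The product on the realisation. -/
def Gmul : MulData O B.pre where
  ap c φ y := B.GF c φ fun s => Quot.out (y s)

theorem Gap_mk (c : O.O S) (φ : Dec n N) (p : ∀ s, (B.A (n s)).Tot) :
    B.Gmul.ap c φ (fun s => Quot.mk _ (p s)) = B.GF c φ p :=
  B.GF_congr c φ _ _ fun _ => Quot.out_eq _

theorem Gap_eq (c : O.O S) (φ : Dec n N) {m : S → ℕ} (x : ∀ s, (B.A (n s)).X (m s))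
    {t : ∀ s, Dl (m s)} {M : ℕ} {ψ : ∀ s, Fin (M + 1) →o Fin (m s + 1)} {u : Dl M}
    (h : GRep t M ψ u) :
    B.Gmul.ap c φ (fun s => (B.A (n s)).mk' (m s) (x s) (t s)) =
      (B.A N).mk' M (B.μ M c φ fun s => B.pull (n s) (ψ s) (x s)) u :=
  (B.Gap_mk c φ fun s => ⟨m s, x s, t s⟩).trans (B.GF_eq c φ (fun s => ⟨m s, x s, t s⟩) h)

omit [Finite S] in
theorem Gind (y : ∀ s, B.pre.X (n s)) : ∃ (m : S → ℕ) (x : ∀ s, (B.A (n s)).X (m s))
    (t : ∀ s, Dl (m s)), y = fun s => (B.A (n s)).mk' (m s) (x s) (t s) :=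
  ⟨fun s => (Quot.out (y s)).1, fun s => (Quot.out (y s)).2.1, fun s => (Quot.out (y s)).2.2,
    funext fun s => (Quot.out_eq (y s)).symm⟩

theorem Gkcont (φ : Dec n N) :
    KCont fun p : O.O S × (∀ s, B.pre.X (n s)) => B.Gmul.ap p.1 φ p.2 := by
  have hfc := B.fc
  refine KCont.quot_pi (A := fun s => (B.A (n s)).Tot) (q := fun s => Quot.mk (B.A (n s)).Rel)
    (fun s => isQuotientMap_quot_mk) ?_
  refine KCont.Gsigma_pi (A := fun s m => (B.A (n s)).X m × Dl m) fun m => ?_
  have : Fintype (∀ s, Fin (m s + 1)) := Fintype.ofFinite _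
  have : ∀ a b : ℕ, Finite (Fin a →o Fin b) := fun a b => DFunLike.finite _
  refine KCont.Gcover
    (ι := Σ M : Fin (Fintype.card (∀ s, Fin (m s + 1))), ∀ s, Fin (M + 1) →o Fin (m s + 1))
    (D := fun i => Dl i.1) (fun i => {q | GRep (fun s => (q.1.2 s).2) i.1 i.2 q.2})
    (fun i => ?_) (fun y => ?_) fun i => ?_
  · simp only [GRep, Set.ofPred_and, Set.ofPred_forall]
    exact isClosed_const.inter (isClosed_iInter fun s => isClosed_eq
      ((stdSimplex.continuous_map _).comp continuous_snd) (by fun_prop))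
  · obtain ⟨⟨M, ψ, u⟩, hr⟩ := Grep_exists fun s => (y.2 s).2
    have hM := Fintype.card_le_of_injective _ hr.1
    rw [Fintype.card_fin] at hM
    exact ⟨⟨⟨M, hM⟩, ψ⟩, u, hr⟩
  · intro K _ _ _ g hg
    have h1 := B.kcont i.1 φ K
      (fun k => ((g k).1.1.1, fun s => B.pull (n s) (i.2 s) ((g k).1.1.2 s).1))
      (Continuous.prodMk (by fun_prop) (continuous_pi fun s =>
        (B.cont_pull _ _).comp (by fun_prop)))
    have h2 := ((B.A N).continuous_mk' i.1).comp
      (h1.prodMk (g := fun k => (g k).1.2) (by fun_prop))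
    refine h2.congr fun k => ?_
    exact (B.Gap_eq (g k).1.1.1 φ (fun s => ((g k).1.1.2 s).1) (g k).2).symm

theorem GisAlg : IsAlg O B.pre B.Gmul where
  kcont φ := B.Gkcont φ
  base {S} _ {n N} c φ y s h := by
    classical
    have h1 := B.Gap_mk c φ (Function.update (fun s => Quot.out (y s)) s
      ⟨0, (B.A (n s)).pt, stdSimplex.vertex 0⟩)
    rw [B.GF_Z c φ _ s (by rw [Function.update_self]; exact (B.A _).pt_mem)] at h1
    refine Eq.trans (congrArg (B.Gmul.ap c φ) (funext fun s' => ?_)) h1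
    by_cases hs : s' = s
    · subst hs
      rw [Function.update_self]
      exact h
    · rw [Function.update_of_ne hs]
      exact (Quot.out_eq _).symm
  lin {S} _ {n n' N N'} c φ φ' τ w T y h1 h2 h3 := by
    obtain ⟨m, x, t, rfl⟩ := B.Gind y
    obtain ⟨⟨M, ψ, u⟩, hr⟩ := Grep_exists t
    simp only [B.pre_act]
    rw [B.Gap_eq c φ x hr, B.Gap_eq c φ' _ hr, B.pre_act, ← B.μ_lin _ c φ φ' τ w T _ h1 h2 h3]
    simp only [B.act_pull]
  one {N} φ := by
    rintro ⟨m, x, t⟩ h
    have hr : GRep (fun _ : Unit => t) m (fun _ => OrderHom.id) t :=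
      ⟨fun i j hij => congrFun hij (), fun _ => stdSimplex.map_id_apply _⟩
    refine (B.Gap_eq O.one φ (fun _ => x) hr).trans ?_
    simp only [B.Gpull_id]
    rw [B.μ_one m φ x h]
    rfl
  assoc {S} _ {T} _ {n k N} c d φ ψ χ y h := by
    obtain ⟨m, x, t, rfl⟩ := B.Gind y
    choose q hq using fun s => Grep_exists fun a : T s => t ⟨s, a⟩
    obtain ⟨⟨M, ρ, u⟩, hr⟩ := Grep_exists fun s => (q s).2.2
    have hr' : GRep t M (fun p => ((q p.1).2.1 p.2).comp (ρ p.1)) u := by
      refine ⟨fun i j hij => hr.1 (funext fun s => (hq s).1 (funext fun a =>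
        congrFun hij ⟨s, a⟩)), fun p => ?_⟩
      have h3 : stdSimplex.map (ρ p.1) u = (q p.1).2.2 := hr.2 p.1
      refine Eq.trans ?_ ((hq p.1).2 p.2)
      rw [← h3, stdSimplex.map_comp_apply]
      rfl
    have e : ∀ s, B.Gmul.ap (d s) (ψ s)
        (fun a => (B.A (n ⟨s, a⟩)).mk' (m ⟨s, a⟩) (x ⟨s, a⟩) (t ⟨s, a⟩)) = _ :=
      fun s => B.Gap_eq (d s) (ψ s) (fun a => x ⟨s, a⟩) (hq s)
    simp only [e]
    rw [B.Gap_eq _ χ x hr', B.Gap_eq c φ _ hr, B.μ_assoc _ c d φ ψ χ _ h]
    simp only [← B.μ_pull, B.pull_comp]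
  rel {S T} _ _ e {n N} c φ φ' y h := by
    obtain ⟨m, x, t, rfl⟩ := B.Gind y
    obtain ⟨⟨M, ψ, u⟩, hr⟩ := Grep_exists t
    have hr' : GRep (fun s => t (e s)) M (fun s => ψ (e s)) u :=
      ⟨fun i j hij => hr.1 (funext fun a => by
        obtain ⟨s, rfl⟩ := e.surjective a
        exact congrFun hij s), fun s => hr.2 (e s)⟩
    rw [B.Gap_eq _ φ' x hr, B.μ_rel _ e c φ φ' _ h]
    exact (B.Gap_eq c φ (fun s => x (e s)) hr').symm

end SAlg

theorem g_holds : GStmt := fun _ B =>
  ⟨B.GisO, B.Gmul, B.GisAlg, fun {S} _ {n N} c φ x => by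
    have hr : GRep (fun _ : S => (stdSimplex.vertex 0 : Dl 0)) 0 (fun _ => OrderHom.id)
        (stdSimplex.vertex 0) :=
      ⟨fun i j _ => Subsingleton.elim (α := Fin 1) i j, fun _ => stdSimplex.map_id_apply _⟩
    refine (B.Gap_eq c φ x hr).trans ?_
    simp only [B.Gpull_id]⟩

end Pool.Agent.Lib.E2
end
end
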