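import Pool.Agent.Lib.MP_10be03_gt.Sp
import Pool.Agent.Lib.MP_10be03_gt.HCube

/-! Basic API for stable homotopy groups of sequential spectra. -/

noncomputable section
open scoped unitInterval Topology

namespace Pool.Agent.Lib.E2

namespace SSp
variable (X : SSp) (a b : ℕ)

/-- Cube maps representing stable classes at stage `j`. -/
abbrev L (j : ℕ) : Type := GenLoop (Cb a j) (X.X (b + j)) (X.pt (b + j))

theorem trans_self (j : ℕ) (h : j ≤ j) : X.trans a b j j h = AddMonoidHom.id _ := by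
  simp [trans, iter]

theorem trans_succ (i j : ℕ) (h : i ≤ j) (h' : i ≤ j + 1) :
    X.trans a b i (j + 1) h' = (X.susp a b j).comp (X.trans a b i j h) := by
  simp only [trans, iter]
  rw [Nat.leRec_succ (h1 := h)]

instance instDirected : DirectedSystem (X.G a b) fun i j h => X.trans a b i j h where
  map_self i x := by rw [trans_self]; rfl
  map_map := by
    intro k j i hij hjk x
    induction k, hjk using Nat.le_induction with
    | base => rw [trans_self]; rfl
    | succ k hk ih =>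
      rw [trans_succ _ _ _ _ _ hk, trans_succ _ _ _ _ _ (hij.trans hk)]
      exact congrArg (X.susp a b k) ih

variable {X a b}

/-- Suspension of a representative. -/
def sl {j : ℕ} (f : X.L a b j) : X.L a b (j + 1) := X.suspLoop (n := b + j) f

theorem sl_apply {j : ℕ} (f : X.L a b j) (t : Cb a (j + 1) → I) :
    sl f t = X.sg (b + j) (f (cbInit t)) (t (Sum.inr (Fin.last (j + 2)))) := rfl

theorem cls_eq_of {j : ℕ} {f g : X.L a b j} (h : HC.cls f = HC.cls g) :
    X.cls a b j f = X.cls a b j g :=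
  congrArg (fun c => AddCommGroup.DirectLimit.of (X.G a b) (X.trans a b) j (Additive.ofMul c)) h

theorem cls_homotopic {j : ℕ} {f g : X.L a b j} (h : GenLoop.Homotopic f g) :
    X.cls a b j f = X.cls a b j g := cls_eq_of (HC.cls_eq.2 h)

theorem cls_of {j : ℕ} {f g : X.L a b j} (H : I × (Cb a j → I) → X.X (b + j)) (hH : Continuous H)
    (h0 : ∀ t, H (0, t) = f t) (h1 : ∀ t, H (1, t) = g t)
    (hb : ∀ s, ∀ t ∈ Cube.boundary (Cb a j), H (s, t) = X.pt (b + j)) :
    X.cls a b j f = X.cls a b j g := cls_eq_of (HC.cls_of H hH h0 h1 hb)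

theorem cls_congr {j : ℕ} {f g : X.L a b j} (h : ∀ t, f t = g t) :
    X.cls a b j f = X.cls a b j g := cls_eq_of (HC.cls_congr h)

theorem cls_susp {j : ℕ} (f : X.L a b j) :
    X.cls a b (j + 1) (sl f) = X.cls a b j f := by
  have h := AddCommGroup.DirectLimit.of_f (G := X.G a b) (f := X.trans a b) (Nat.le_succ j)
    (Additive.ofMul (HC.cls f))
  rw [trans_succ _ _ _ _ _ le_rfl, trans_self] at h
  exact h

theorem cls_eq_zero_of {j : ℕ} {f : X.L a b j} (h : HC.cls f = 1) : X.cls a b j f = 0 := by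
  change AddCommGroup.DirectLimit.of (X.G a b) (X.trans a b) j (Additive.ofMul (HC.cls f)) = 0
  rw [h]
  exact map_zero _

theorem cls_const (j : ℕ) : X.cls a b j GenLoop.const = 0 := cls_eq_zero_of rfl

theorem cls_eq_zero_of_pt {j : ℕ} {f : X.L a b j} (h : ∀ t, f t = X.pt (b + j)) :
    X.cls a b j f = 0 := (cls_congr (g := GenLoop.const) h).trans (cls_const j)

theorem cls_null {j : ℕ} {f : X.L a b j} (H : I × (Cb a j → I) → X.X (b + j)) (hH : Continuous H)
    (h0 : ∀ t, H (0, t) = f t) (h1 : ∀ t, H (1, t) = X.pt (b + j))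
    (hb : ∀ s, ∀ t ∈ Cube.boundary (Cb a j), H (s, t) = X.pt (b + j)) : X.cls a b j f = 0 :=
  cls_eq_zero_of (HC.cls_eq_one_of H hH h0 h1 hb)

theorem cls_mul {j : ℕ} {f g h : X.L a b j} (e : HC.cls h = HC.cls f * HC.cls g) :
    X.cls a b j h = X.cls a b j f + X.cls a b j g := by
  change AddCommGroup.DirectLimit.of (X.G a b) (X.trans a b) j (Additive.ofMul (HC.cls h)) = _
  rw [e]
  exact map_add (AddCommGroup.DirectLimit.of (X.G a b) (X.trans a b) j)
    (Additive.ofMul (HC.cls f)) (Additive.ofMul (HC.cls g))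

theorem cls_inv {j : ℕ} {f h : X.L a b j} (e : HC.cls h = (HC.cls f)⁻¹) :
    X.cls a b j h = -X.cls a b j f := by
  change AddCommGroup.DirectLimit.of (X.G a b) (X.trans a b) j (Additive.ofMul (HC.cls h)) = _
  rw [e]
  exact map_neg (AddCommGroup.DirectLimit.of (X.G a b) (X.trans a b) j)
    (Additive.ofMul (HC.cls f))

theorem cls_prod {j : ℕ} {K : Type*} [Fintype K] {f : K → X.L a b j} {h : X.L a b j}
    (e : HC.cls h = ∏ k, HC.cls (f k)) : X.cls a b j h = ∑ k, X.cls a b j (f k) := by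
  have e' : (HG.mk h : X.G a b j) = ∑ k, (HG.mk (f k) : X.G a b j) :=
    (congrArg Additive.ofMul e).trans (ofMul_prod _ _)
  exact (congrArg (AddCommGroup.DirectLimit.of (X.G a b) (X.trans a b) j) e').trans (map_sum _ _ _)

theorem cls_transAt {j : ℕ} (i : Cb a j) (f g : X.L a b j) :
    X.cls a b j (GenLoop.transAt i f g) = X.cls a b j f + X.cls a b j g :=
  cls_mul (by rw [mul_comm, HC.cls_mul i])

theorem cls_symmAt {j : ℕ} (i : Cb a j) (f : X.L a b j) :
    X.cls a b j (GenLoop.symmAt i f) = -X.cls a b j f := cls_inv (HC.cls_inv i f).symm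

theorem cls_surj (x : X.Pi a b) : ∃ j, ∃ f : X.L a b j, X.cls a b j f = x := by
  refine AddCommGroup.DirectLimit.induction_on (G := X.G a b) (f := X.trans a b)
    (C := fun x => ∃ j, ∃ f : X.L a b j, X.cls a b j f = x) x fun j c => ?_
  obtain ⟨f, hf⟩ := HC.cls_surj (Additive.toMul c)
  refine ⟨j, f, ?_⟩
  change AddCommGroup.DirectLimit.of (X.G a b) (X.trans a b) j (Additive.ofMul (HC.cls f)) = _
  rw [hf]
  rfl

/-- Iterated suspension of a representative. -/
def suspN {j : ℕ} (f : X.L a b j) : ∀ k, X.L a b (j + k)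
  | 0 => f
  | k + 1 => sl (suspN f k)

theorem cls_suspN {j : ℕ} (f : X.L a b j) (k : ℕ) :
    X.cls a b (j + k) (suspN f k) = X.cls a b j f := by
  induction k with
  | zero => rfl
  | succ k ih => exact (cls_susp (suspN f k)).trans ih

theorem trans_cls {j : ℕ} (f : X.L a b j) (k : ℕ) (h : j ≤ j + k) :
    X.trans a b j (j + k) h (Additive.ofMul (HC.cls f)) =
      Additive.ofMul (HC.cls (suspN f k)) := by
  induction k with
  | zero => exact DFunLike.congr_fun (trans_self X a b j h) _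
  | succ k ih =>
    refine (DFunLike.congr_fun (trans_succ X a b j (j + k) (Nat.le_add_right j k) h) _).trans ?_
    rw [AddMonoidHom.comp_apply, ih]
    rfl

theorem cls_eq_zero_iff {j : ℕ} {f : X.L a b j} :
    X.cls a b j f = 0 ↔ ∃ k, HC.cls (suspN f k) = 1 := by
  constructor
  · intro h
    obtain ⟨j', hj, e⟩ := AddCommGroup.DirectLimit.of.zero_exact (G := X.G a b)
      (f := X.trans a b) j _ h
    obtain ⟨k, rfl⟩ := Nat.exists_eq_add_of_le hj
    exact ⟨k, (trans_cls f k hj).symm.trans e⟩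
  · rintro ⟨k, hk⟩
    rw [← cls_suspN f k]
    exact cls_eq_zero_of hk

theorem cls_eq_iff {j : ℕ} {f g : X.L a b j} :
    X.cls a b j f = X.cls a b j g ↔ ∃ k, HC.cls (suspN f k) = HC.cls (suspN g k) := by
  constructor
  · intro h
    have h0 : AddCommGroup.DirectLimit.of (X.G a b) (X.trans a b) j
        (HSub.hSub (α := X.G a b j) (β := X.G a b j) (HG.mk f) (HG.mk g)) = 0 :=
      (map_sub _ _ _).trans (sub_eq_zero.2 h)
    obtain ⟨j', hj, e⟩ := AddCommGroup.DirectLimit.of.zero_exact (G := X.G a b)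
      (f := X.trans a b) j _ h0
    obtain ⟨k, rfl⟩ := Nat.exists_eq_add_of_le hj
    have e2 := sub_eq_zero.1 ((map_sub _ _ _).symm.trans e)
    exact ⟨k, (trans_cls f k hj).symm.trans (e2.trans (trans_cls g k hj))⟩
  · rintro ⟨k, hk⟩
    rw [← cls_suspN f k, ← cls_suspN g k]
    exact cls_eq_of hk

theorem cls_surj_ge (x : X.Pi a b) (j₀ : ℕ) :
    ∃ j, j₀ ≤ j ∧ ∃ f : X.L a b j, X.cls a b j f = x := by
  obtain ⟨j, f, rfl⟩ := cls_surj x
  exact ⟨j + j₀, Nat.le_add_left _ _, suspN f j₀, cls_suspN f j₀⟩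

theorem exists_rep_ge {j : ℕ} (f : X.L a b j) {j' : ℕ} (h : j ≤ j') :
    ∃ g : X.L a b j', X.cls a b j' g = X.cls a b j f := by
  obtain ⟨k, rfl⟩ := Nat.exists_eq_add_of_le h
  exact ⟨suspN f k, cls_suspN f k⟩

theorem cls_surj₂ {Y : SSp} {a' b' : ℕ} (x : X.Pi a b) (y : Y.Pi a' b') :
    ∃ j, ∃ f : X.L a b j, ∃ g : Y.L a' b' j, X.cls a b j f = x ∧ Y.cls a' b' j g = y := by
  obtain ⟨i, f, rfl⟩ := cls_surj x
  obtain ⟨j, hj, g, rfl⟩ := cls_surj_ge y i
  obtain ⟨f', hf⟩ := exists_rep_ge f hj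
  exact ⟨j, f', g, hf, rfl⟩

/-- If a family of operations on representatives commutes with suspension and the image of a
representative is stably null, then the image of some representative of the same class is null. -/
theorem exists_null {Y : SSp} {a' b' : ℕ} (T : ∀ j, X.L a b j → Y.L a' b' j)
    (hT : ∀ j f, T (j + 1) (sl f) = sl (T j f)) {j : ℕ} (f : X.L a b j)
    (h : Y.cls a' b' j (T j f) = 0) :
    ∃ j', ∃ f' : X.L a b j', X.cls a b j' f' = X.cls a b j f ∧ HC.cls (T j' f') = 1 := by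
  obtain ⟨k, hk⟩ := cls_eq_zero_iff.1 h
  refine ⟨j + k, suspN f k, cls_suspN f k, ?_⟩
  have : ∀ k, T (j + k) (suspN f k) = suspN (T j f) k := fun k => by
    induction k with
    | zero => rfl
    | succ k ih => exact (hT _ _).trans (congrArg sl ih)
  rw [this, hk]

/-- A homomorphism out of a stable group from its values on representatives. -/
def piLift {P : Type} [AddCommGroup P] (F : ∀ j, X.L a b j → P)
    (hh : ∀ j (f g : X.L a b j), GenLoop.Homotopic f g → F j f = F j g)
    (hadd : ∀ j (f g : X.L a b j), F j (GenLoop.transAt (Sum.inr 0) f g) = F j f + F j g)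
    (hs : ∀ j (f : X.L a b j), F (j + 1) (sl f) = F j f) : X.Pi a b →+ P :=
  AddCommGroup.DirectLimit.lift (X.G a b) (X.trans a b) P
    (fun j => AddMonoidHom.mk' (fun c => Quotient.lift (F j) (hh j) (Additive.toMul c)) (by
      intro c d
      obtain ⟨f, hf⟩ := HC.cls_surj (Additive.toMul c)
      obtain ⟨g, hg⟩ := HC.cls_surj (Additive.toMul d)
      have e : Additive.toMul (c + d) = HC.cls (GenLoop.transAt (Sum.inr 0) g f) := by
        exact (congrArg₂ (· * ·) hf hg).symm.trans (HC.cls_mul (Sum.inr 0) f g)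
      exact ((congrArg (Quotient.lift (F j) (hh j)) e).trans ((hadd j g f).trans
        (add_comm _ _))).trans (congrArg₂ (· + ·) (congrArg (Quotient.lift (F j) (hh j)) hf)
          (congrArg (Quotient.lift (F j) (hh j)) hg))))
    (by
      intro i j hij c
      obtain ⟨k, rfl⟩ := Nat.exists_eq_add_of_le hij
      obtain ⟨f, hf⟩ := HC.cls_surj (Additive.toMul c)
      have hc : c = Additive.ofMul (HC.cls f) := by rw [hf]; rfl
      subst hc
      refine (congrArg (Quotient.lift (F (i + k)) (hh (i + k))) (trans_cls f k hij)).trans ?_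
      change F (i + k) (suspN f k) = F i f
      clear hij
      induction k with
      | zero => rfl
      | succ k ih => exact (hs _ _).trans ih)

theorem piLift_cls {P : Type} [AddCommGroup P] (F : ∀ j, X.L a b j → P) (hh) (hadd) (hs)
    (j : ℕ) (f : X.L a b j) : piLift F hh hadd hs (X.cls a b j f) = F j f :=
  AddCommGroup.DirectLimit.lift_of _ _ _ _ _

theorem pi_hom_ext {P : Type*} [AddCommGroup P] {h₁ h₂ : X.Pi a b →+ P}
    (h : ∀ j (f : X.L a b j), h₁ (X.cls a b j f) = h₂ (X.cls a b j f)) : h₁ = h₂ := by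
  ext x
  obtain ⟨j, f, rfl⟩ := cls_surj x
  exact h j f

theorem cbInit_update_last {a j : ℕ} (t : Cb a (j + 1) → I) (u : I) :
    cbInit (Function.update t (Sum.inr (Fin.last (j + 2))) u) = cbInit t := by
  funext i
  refine Function.update_of_ne ?_ _ _
  rcases i with i | i
  · simp
  · simp

/-- Stable additivity for representatives with complementary supports. -/
theorem cls_split_sum {j : ℕ} {K : Type*} [Fintype K] (A : K → Set (Cb a j → I))
    (hA : ∀ k, IsClosed (A k)) (hc : ∀ t, ∃ k, t ∈ A k) (f : K → X.L a b j)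
    (fA : ∀ k l, k ≠ l → ∀ t ∈ A l, f k t = X.pt (b + j)) (h : X.L a b j)
    (hf : ∀ k, ∀ t ∈ A k, h t = f k t) : X.cls a b j h = ∑ k, X.cls a b j (f k) := by
  rw [← cls_susp h]
  simp only [← cls_susp (f _)]
  refine cls_prod (HC.cls_wedge_prod (Sum.inr (Fin.last (j + 2))) (fun k => cbInit ⁻¹' A k)
    (fun k => (hA k).preimage continuous_cbInit) (fun t => hc (cbInit t))
    (fun k t s ht => ?_) _ (fun k l hkl t ht => ?_) _ fun k t ht => ?_)
  · change cbInit _ ∈ A k
    rw [cbInit_update_last]; exact ht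
  · rw [sl_apply, fA k l hkl _ ht]; exact X.sg_pt _ _
  · rw [sl_apply, sl_apply, hf k _ ht]

/-- Stable additivity for two representatives with complementary supports. -/
theorem cls_split {j : ℕ} {A B : Set (Cb a j → I)} (hA : IsClosed A) (hB : IsClosed B)
    (hc : ∀ t, t ∈ A ∨ t ∈ B) {f g h : X.L a b j} (hf : ∀ t ∈ A, h t = f t)
    (hg : ∀ t ∈ B, h t = g t) (fB : ∀ t ∈ B, f t = X.pt (b + j))
    (gA : ∀ t ∈ A, g t = X.pt (b + j)) : X.cls a b j h = X.cls a b j f + X.cls a b j g := by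
  rw [add_comm (X.cls a b j f), ← cls_susp h, ← cls_susp f, ← cls_susp g]
  refine cls_mul (HC.cls_wedge (Sum.inr (Fin.last (j + 2))) (hA.preimage continuous_cbInit)
    (hB.preimage continuous_cbInit) (fun t => hc (cbInit t)) (fun t s ht => ?_)
    (fun t s ht => ?_) (fun t ht => ?_) (fun t ht => ?_) (fun t ht => ?_) fun t ht => ?_)
  · change cbInit _ ∈ A
    rw [cbInit_update_last]; exact ht
  · change cbInit _ ∈ B
    rw [cbInit_update_last]; exact ht
  · rw [sl_apply, sl_apply, hf _ ht]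
  · rw [sl_apply, sl_apply, hg _ ht]
  · rw [sl_apply, fB _ ht]; exact X.sg_pt _ _
  · rw [sl_apply, gA _ ht]; exact X.sg_pt _ _

end SSp

namespace SMap
variable {X Y Z : SSp}

/-- The identity map. -/
def id (X : SSp) : SMap X X where
  f _ x := x
  cont _ := continuous_id
  f_pt _ := rfl
  f_sg _ _ _ := rfl

/-- Composition of maps of spectra. -/
def comp (ψ : SMap Y Z) (φ : SMap X Y) : SMap X Z where
  f n x := ψ.f n (φ.f n x)
  cont n := (ψ.cont n).comp (φ.cont n)
  f_pt n := by rw [φ.f_pt, ψ.f_pt]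
  f_sg n x u := by rw [φ.f_sg, ψ.f_sg]

theorem pi_cls (φ : SMap X Y) {a b j : ℕ} (f : X.L a b j) :
    φ.pi a b (X.cls a b j f) = Y.cls a b j (φ.loop f) :=
  AddCommGroup.DirectLimit.map_apply_of _ _ _

theorem loop_sl (φ : SMap X Y) {a b j : ℕ} (f : X.L a b j) :
    (φ.loop (SSp.sl f) : Y.L a b (j + 1)) = SSp.sl (φ.loop f) :=
  GenLoop.ext _ _ fun _ => φ.f_sg _ _ _

theorem pi_id (a b : ℕ) (x : X.Pi a b) : (SMap.id X).pi a b x = x := by
  obtain ⟨j, f, rfl⟩ := SSp.cls_surj x
  rw [pi_cls]; rfl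

theorem pi_comp (ψ : SMap Y Z) (φ : SMap X Y) (a b : ℕ) (x : X.Pi a b) :
    (ψ.comp φ).pi a b x = ψ.pi a b (φ.pi a b x) := by
  obtain ⟨j, f, rfl⟩ := SSp.cls_surj x
  rw [pi_cls, pi_cls, pi_cls]; rfl

theorem pi_congr {φ ψ : SMap X Y} (h : ∀ n x, φ.f n x = ψ.f n x) (a b : ℕ) :
    φ.pi a b = ψ.pi a b :=
  SSp.pi_hom_ext fun _ _ => by
    rw [pi_cls, pi_cls]
    exact SSp.cls_congr fun _ => h _ _

/-- Levelwise based homotopic maps induce the same map (no compatibility of the homotopy with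
the structure maps is needed). -/
theorem pi_homotopy {φ ψ : SMap X Y} (H : ∀ n, X.X n → I → Y.X n)
    (hH : ∀ n, Continuous fun p : X.X n × I => H n p.1 p.2) (h0 : ∀ n x, H n x 0 = φ.f n x)
    (h1 : ∀ n x, H n x 1 = ψ.f n x) (hb : ∀ n s, H n (X.pt n) s = Y.pt n) (a b : ℕ) :
    φ.pi a b = ψ.pi a b :=
  SSp.pi_hom_ext fun j f => by
    rw [pi_cls, pi_cls]
    refine SSp.cls_of (fun p => H _ (f p.2) p.1)
      ((hH _).comp (((HC.cont f).comp continuous_snd).prodMk continuous_fst))
      (fun t => h0 _ _) (fun t => h1 _ _) fun s t ht => ?_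
    change H _ (f t) s = _
    rw [GenLoop.boundary f t ht, hb]

/-- A levelwise null homotopic map induces zero. -/
theorem pi_null {φ : SMap X Y} (H : ∀ n, X.X n → I → Y.X n)
    (hH : ∀ n, Continuous fun p : X.X n × I => H n p.1 p.2) (h0 : ∀ n x, H n x 0 = φ.f n x)
    (h1 : ∀ n x, H n x 1 = Y.pt n) (hb : ∀ n s, H n (X.pt n) s = Y.pt n) (a b : ℕ)
    (x : X.Pi a b) : φ.pi a b x = 0 := by
  obtain ⟨j, f, rfl⟩ := SSp.cls_surj x
  rw [pi_cls]
  refine SSp.cls_null (fun p => H _ (f p.2) p.1)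
    ((hH _).comp (((HC.cont f).comp continuous_snd).prodMk continuous_fst))
    (fun t => h0 _ _) (fun t => h1 _ _) fun s t ht => ?_
  change H _ (f t) s = _
  rw [GenLoop.boundary f t ht, hb]

theorem pi_eq_zero_of_pt {φ : SMap X Y} (h : ∀ n x, φ.f n x = Y.pt n) (a b : ℕ) (x : X.Pi a b) :
    φ.pi a b x = 0 := by
  obtain ⟨j, f, rfl⟩ := SSp.cls_surj x
  rw [pi_cls]
  exact SSp.cls_eq_zero_of_pt fun _ => h _ _

/-- An element of the kernel has a representative whose image is null homotopic. -/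
theorem exists_null (φ : SMap X Y) {a b : ℕ} {x : X.Pi a b} (h : φ.pi a b x = 0) :
    ∃ j, ∃ f : X.L a b j, X.cls a b j f = x ∧ HC.cls (φ.loop f) = 1 := by
  obtain ⟨j, f, rfl⟩ := SSp.cls_surj x
  rw [pi_cls] at h
  exact SSp.exists_null (fun _ f => φ.loop f) (fun _ f => φ.loop_sl f) f h

/-- Maps which are inverse up to levelwise based homotopy give bijections. -/
theorem pi_bijective (φ : SMap X Y) (ψ : SMap Y X) (a b : ℕ)
    (h1 : (ψ.comp φ).pi a b = (SMap.id X).pi a b) (h2 : (φ.comp ψ).pi a b = (SMap.id Y).pi a b) :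
    Function.Bijective (φ.pi a b) := by
  refine Function.bijective_iff_has_inverse.2 ⟨ψ.pi a b, fun x => ?_, fun y => ?_⟩
  · rw [← pi_comp, h1, pi_id]
  · rw [← pi_comp, h2, pi_id]

end SMap

end Pool.Agent.Lib.E2
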