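import Pool.Agent.Lib.MP_10be03_gt.HSk

/-! The cofibre sequence of a skeleton inclusion: collapse map, connecting map, exactness. -/

noncomputable section
open scoped unitInterval Topology

namespace Pool.Agent.Lib.E2
open Geo HC

theorem cell_one (z : Fin 1 → I) : z = fun _ => z 0 := funext fun i => by rw [Subsingleton.elim i 0]

theorem cell_bd_one : (fun _ => 1 : Fin 1 → I) ∈ Cube.boundary (Fin 1) := ⟨0, Or.inr rfl⟩

theorem cell_lift {P Y Z : Type*} [TopologicalSpace P] [TopologicalSpace Y] [TopologicalSpace Z]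
    {e : Y → Z} (he : Topology.IsEmbedding e) {F : P → Z} (hF : Continuous F)
    (h : ∀ p, F p ∈ Set.range e) : ∃ G : P → Y, Continuous G ∧ ∀ p, e (G p) = F p := by
  choose G hG using h
  exact ⟨G, he.continuous_iff.2 (hF.congr fun p => (hG p).symm), hG⟩

theorem cell_dl_zero (t : Dl 0) : t = stdSimplex.vertex 0 := by
  have h : ∀ w : Dl 0, w.1 0 = 1 := fun w => by simpa using w.2.2
  refine Subtype.ext (funext fun i => ?_)
  rw [Fin.fin_one_eq_zero i]
  exact (h t).trans (h _).symm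

/-- Abstract exactness lemma. -/
theorem lemmaE {A M Q Z : SSp} (i : SMap A M) (P : SMap M Q) (D : SMap Q Z) (S : CMap 1 A Z)
    (W : ∀ n, M.X n → I → Z.X n) (hW : ∀ n, Continuous fun p : M.X n × I => W n p.1 p.2)
    (Wi : ∀ n x u, W n (i.f n x) u = S.f n x fun _ => u) (W0 : ∀ n y, W n y 0 = Z.pt n)
    (W1 : ∀ n y, W n y 1 = D.f n (P.f n y)) (Pi : ∀ n x, P.f n (i.f n x) = Q.pt n) {a b : ℕ}
    (x : A.Pi a b) (hx : i.pi a b x = 0) : S.pi a b x ∈ Set.range (D.pi (a + 1) b) := by
  obtain ⟨j, f, rfl, hf⟩ := i.exists_null hx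
  obtain ⟨H, hH, h0, h1, hb⟩ := HC.exists_of_eq_one hf
  have h0' : ∀ y, H (0, y) = i.f _ (f y) := h0
  have Wp : ∀ u, W (b + j) (M.pt _) u = Z.pt _ := fun u => by rw [← i.f_pt, Wi, S.f_pt]
  refine ⟨Q.cls (a + 1) b j (SSp.mkJ (fun y z => P.f _ (H (σ (z 0), y)))
    ((P.cont _).comp (hH.comp (Continuous.prodMk (by fun_prop) continuous_fst)))
    (fun y z hy => by rw [hb _ y hy, P.f_pt]) fun y z hz => ?_), ?_⟩
  · rcases SSp.mem_bd_one hz with h | h <;> rw [h]
    · rw [unitInterval.symm_zero, h1, P.f_pt]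
    · rw [unitInterval.symm_one, h0', Pi]
  · rw [SMap.pi_cls, CMap.pi_cls]
    refine (SSp.cls_square (fun y s u => W _ (H (s, y)) u)
      ((hW _).comp ((hH.comp (continuous_snd.fst.prodMk continuous_fst)).prodMk
        continuous_snd.snd)) (fun y s u hy => ?_) (fun y s => W0 _ _) (fun y u => ?_)
      (fun y => ?_) (fun t => ?_) fun t => (W1 _ _).symm).symm
    · rw [hb s y hy, Wp]
    · rw [h1, Wp]
    · rw [h0', Wi, S.f_bd _ _ _ cell_bd_one]
    · rw [h0', Wi, ← cell_one]
      rfl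

/-- Abstract exactness lemma at the total space. -/
theorem lemmaE2 {M Q Y Z : SSp} (P : SMap M Q) (S : CMap 1 M Z) (ι : SMap Y Z)
    (hι : ∀ n, Topology.IsEmbedding (ι.f n)) (V : ∀ n, M.X n → I × I → Z.X n)
    (hV : ∀ n, Continuous fun p : M.X n × (I × I) => V n p.1 p.2) (U : ∀ n, Q.X n → I → Z.X n)
    (hU : ∀ n, Continuous fun p : Q.X n × I => U n p.1 p.2)
    (V0 : ∀ n y u, V n y (0, u) = S.f n y fun _ => u)
    (V1 : ∀ n y u, V n y (1, u) = U n (P.f n y) u) (Vb : ∀ n y s, V n y (s, 0) = Z.pt n)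
    (Vp : ∀ n q, V n (M.pt n) q = Z.pt n) (Vt : ∀ n y s, V n y (s, 1) ∈ Set.range (ι.f n))
    (Ub : ∀ n y, U n y 0 = Z.pt n) (Up : ∀ n u, U n (Q.pt n) u = Z.pt n)
    (Ut : ∀ n y, U n y 1 ∈ Set.range (ι.f n)) {a b : ℕ} (x : M.Pi a b) (hx : P.pi a b x = 0) :
    S.pi a b x ∈ Set.range (ι.pi (a + 1) b) := by
  obtain ⟨j, f, rfl, hf⟩ := P.exists_null hx
  obtain ⟨G, hG, h0, h1, hb⟩ := HC.exists_of_eq_one hf
  have h0' : ∀ y, G (0, y) = P.f _ (f y) := h0
  obtain ⟨F, hFd⟩ : ∃ F : (Cb a j → I) → I → I → Z.X (b + j), ∀ y s u, F y s u =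
      if (s : ℝ) ≤ 1 / 2 then V _ (f y) (cl (2 * s), u) else U _ (G (cl (2 * s - 1), y)) u :=
    ⟨_, fun _ _ _ => rfl⟩
  have hF : Continuous fun p : (Cb a j → I) × I × I => F p.1 p.2.1 p.2.2 := by
    simp only [hFd]
    refine Continuous.if_le ?_ ?_ (by fun_prop) continuous_const fun p hp => ?_
    · exact (hV _).comp (((HC.cont f).comp continuous_fst).prodMk
        (Continuous.prodMk (by fun_prop) continuous_snd.snd))
    · exact (hU _).comp ((hG.comp (Continuous.prodMk (by fun_prop) continuous_fst)).prodMk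
        continuous_snd.snd)
    · rw [cl_of_ge (by linarith), cl_of_le (by linarith), V1, h0']
  have hl : ∀ y s u, y ∈ Cube.boundary (Cb a j) → F y s u = Z.pt (b + j) := fun y s u hy => by
    rw [hFd, GenLoop.boundary f y hy, hb _ y hy, Vp, Up, ite_self]
  have F0 : ∀ y u, F y 0 u = S.f _ (f y) fun _ => u := fun y u => by
    rw [hFd, if_pos (by norm_num), cl_of_le (by norm_num), V0]
  have F1 : ∀ y u, F y 1 u = Z.pt (b + j) := fun y u => by
    rw [hFd, if_neg (by norm_num), cl_of_ge (by norm_num), h1, Up]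
  have F01 : ∀ y, F y 0 1 = Z.pt (b + j) := fun y => by rw [F0, S.f_bd _ _ _ cell_bd_one]
  let g : Z.L (a + 1) b j := SSp.mkJ (fun y z => F y (σ (z 0)) 1)
    (hF.comp (continuous_fst.prodMk (Continuous.prodMk (by fun_prop) continuous_const)))
    (fun y z hy => hl _ _ _ hy) fun y z hz => by
      rcases SSp.mem_bd_one hz with h | h <;> rw [h]
      · rw [unitInterval.symm_zero, F1]
      · rw [unitInterval.symm_one, F01]
  rw [CMap.pi_cls, SSp.cls_square (g := g) F hF hl (fun y s => by rw [hFd, Vb, Ub, ite_self])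
    F1 F01 (fun t => by rw [F0, ← cell_one]; rfl) fun t => rfl]
  refine ι.exists_lift hι g fun t => ?_
  change F _ _ 1 ∈ _
  rw [hFd]
  split_ifs
  · exact Vt _ _ _
  · exact Ut _ _

namespace SimpSp
variable (B : SimpSp)

theorem exists_P_succ (m : ℕ) : ∃ P : SMap (B.sk (m + 1)) (B.Q (m + 1)),
    (∀ n x t, P.f n (B.top (m + 1) n x t) = B.qm (m + 1) n x t) ∧
      ∀ n q, P.f n ((B.inc m).f n q) = (B.Q (m + 1)).pt n := by
  choose F hF e1 e2 using fun n => B.sk_desc (m := m) (n := n) (P := Unit)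
    (fun _ _ => (B.Q (m + 1)).pt n) continuous_const (fun x t _ => B.qm (m + 1) n x t)
    (B.continuous_qm (m + 1) n continuous_fst.fst continuous_fst.snd)
    fun x t _ _ _ h => B.qm_of_mem h
  refine ⟨⟨fun n y => F n y (), fun n => (hF n).comp (continuous_id.prodMk continuous_const),
    fun n => ?_, fun n y u => ?_⟩, fun n x t => e1 n x t (), fun n q => e2 n q ()⟩
  · rw [← (B.inc m).f_pt, e2]
  · refine B.sk_ind (fun q => ?_) (fun x t => ?_) y
    · rw [← (B.inc m).f_sg, e2, e2, (B.Q (m + 1)).sg_pt]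
    · rw [sg_top, e1, e1, sg_qm]

theorem exists_P_zero : ∃ P : SMap (B.sk 0) (B.Q 0),
    ∀ n x t, P.f n (B.top 0 n x t) = B.qm 0 n x t := by
  choose F hF e1 using fun n => (B.A n).desc_zero (fun x => B.qm 0 n x (stdSimplex.vertex 0))
    (B.continuous_qm 0 n continuous_id continuous_const) ((B.Q 0).pt n)
    fun x h => B.qm_of_mem (Or.inr h)
  have e : ∀ n x t, F n (B.top 0 n x t) = B.qm 0 n x t := fun n x t =>
    (e1 n x t _).trans (by rw [cell_dl_zero t])
  refine ⟨⟨F, hF, fun n => ?_, fun n y u => ?_⟩, e⟩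
  · exact (e n (B.A n).pt (stdSimplex.vertex 0)).trans (B.qm_of_mem (Or.inr (B.A n).pt_mem))
  · obtain ⟨x, rfl⟩ := B.sk_zero_ind y
    rw [sg_top, e, e, sg_qm]

/-- The collapse of a skeleton onto its top cells. -/
def P : ∀ m, SMap (B.sk m) (B.Q m)
  | 0 => B.exists_P_zero.choose
  | m + 1 => (B.exists_P_succ m).choose

theorem P_top (m n : ℕ) (x : (B.A n).X m) (t : Dl m) :
    (B.P m).f n (B.top m n x t) = B.qm m n x t := by
  cases m with
  | zero => exact B.exists_P_zero.choose_spec n x t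
  | succ m => exact (B.exists_P_succ m).choose_spec.1 n x t

theorem P_inc (m n : ℕ) (q : (B.sk m).X n) :
    (B.P (m + 1)).f n ((B.inc m).f n q) = (B.Q (m + 1)).pt n :=
  (B.exists_P_succ m).choose_spec.2 n q

theorem cell_zero (X : SSp) (n : ℕ) (x : X.X n) : X.smk ends n x 0 = X.sus.pt n :=
  X.smk_of_mem ends n x (Or.inl rfl)

theorem cell_top (X : SSp) (n : ℕ) (x : X.X n) : X.smk ends n x 1 = X.sus.pt n :=
  X.smk_of_mem ends n x (Or.inr rfl)

theorem cell_pt (X : SSp) (n : ℕ) (u : I) : X.smk ends n (X.pt n) u = X.sus.pt n :=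
  X.smk_pt ends n u

theorem cell_pt_mem (m n : ℕ) : (B.sk (m + 1)).sus.pt n ∈ Set.range ((B.inc m).sus.f n) :=
  ⟨_, (B.inc m).sus.f_pt n⟩

theorem cell_inc_mem (m n : ℕ) (q : (B.sk m).X n) (u : I) :
    (B.sk (m + 1)).smk ends n ((B.inc m).f n q) u ∈ Set.range ((B.inc m).sus.f n) :=
  ⟨(B.sk m).smk ends n q u, rfl⟩

theorem cell_str_mem (m n : ℕ) (x : (B.A n).X (m + 1)) {t : Dl (m + 1)} {μ : ℝ} (hμ : 0 ≤ μ)
    (h : 1 ≤ μ * rho t) (u : I) :
    (B.sk (m + 1)).smk ends n (B.top (m + 1) n x (str μ t)) u ∈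
      Set.range ((B.inc m).sus.f n) := by
  obtain ⟨q, hq⟩ := B.top_mem_range x (str_mem_bdry hμ h)
  rw [← hq]
  exact B.cell_inc_mem m n q u

theorem cell_cont {P : Type*} [TopologicalSpace P] (m n : ℕ) {x : P → (B.A n).X m}
    {t : P → Dl m} {μ r : P → ℝ} (hx : Continuous x) (ht : Continuous t) (hμ : Continuous μ)
    (hr : Continuous r) :
    Continuous fun p => (B.sk m).smk ends n (B.top m n (x p) (str (μ p) (t p))) (cl (r p)) :=
  (B.sk m).continuous_smk ends n
    (B.continuous_top m n hx (continuous_str.comp (hμ.prodMk ht))) (continuous_cl.comp hr)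

theorem cell_Z {m n : ℕ} {x : (B.A n).X m} (h : x ∈ (B.A n).Z m) (t : Dl m) (u : I) :
    (B.sk m).smk ends n (B.top m n x t) u = (B.sk m).sus.pt n := by
  rw [B.top_of_mem h, cell_pt]

theorem exists_D (m : ℕ) : ∃ D : SMap (B.Q (m + 1)) (B.sk m).sus,
    ∀ n x t, (B.inc m).sus.f n (D.f n (B.qm (m + 1) n x t)) =
      (B.sk (m + 1)).smk ends n (B.top (m + 1) n x (str 2 t)) (cl (2 * rho t - 1)) := by
  choose F hF e1 e2 using fun n => B.Q_desc (m := m + 1) (n := n) (P := Unit)
    (T := (B.sk (m + 1)).sus.X n)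
    (fun x t _ => (B.sk (m + 1)).smk ends n (B.top (m + 1) n x (str 2 t)) (cl (2 * rho t - 1)))
    ((B.sk (m + 1)).sus.pt n)
    (B.cell_cont (m + 1) n continuous_fst.fst continuous_fst.snd continuous_const
      ((continuous_const.mul (continuous_rho.comp continuous_fst.snd)).sub continuous_const))
    (fun x t _ h => by
      rcases h with h | h
      · rw [rho_eq_one h, cl_of_ge (by norm_num), cell_top]
      · exact B.cell_Z h _ _)
  choose G hG e3 using fun n => cell_lift (B.sus_inc_isEmbedding m n) (F := fun y => F n y ())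
    ((hF n).comp (continuous_id.prodMk continuous_const)) fun y => by
      refine B.Q_ind (fun x t => ?_) ?_ y
      · rw [e1]
        by_cases h : 1 ≤ 2 * rho t
        · exact B.cell_str_mem m n x (by norm_num) h _
        · rw [cl_of_le (by linarith), cell_zero]
          exact B.cell_pt_mem m n
      · rw [e2]
        exact B.cell_pt_mem m n
  refine ⟨⟨G, hG, fun n => (B.sus_inc_isEmbedding m n).injective ?_,
    fun n y u => (B.sus_inc_isEmbedding m (n + 1)).injective ?_⟩,
    fun n x t => (e3 n _).trans (e1 n x t ())⟩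
  · rw [e3, e2, (B.inc m).sus.f_pt]
  · rw [(B.inc m).sus.f_sg, e3, e3]
    refine B.Q_ind (fun x t => ?_) ?_ y
    · rw [sg_qm, e1, e1]
      rfl
    · rw [(B.Q (m + 1)).sg_pt, e2, e2, SSp.sg_pt]

/-- The connecting map. -/
def D (m : ℕ) : SMap (B.Q (m + 1)) (B.sk m).sus := (B.exists_D m).choose

theorem D_qm (m n : ℕ) (x : (B.A n).X (m + 1)) (t : Dl (m + 1)) :
    (B.inc m).sus.f n ((B.D m).f n (B.qm (m + 1) n x t)) =
      (B.sk (m + 1)).smk ends n (B.top (m + 1) n x (str 2 t)) (cl (2 * rho t - 1)) :=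
  (B.exists_D m).choose_spec n x t

/-- The homotopy relating suspension and connecting map. -/
theorem exists_W (m n : ℕ) : ∃ W : (B.sk (m + 1)).X n → I → (B.sk m).sus.X n,
    Continuous (fun p : (B.sk (m + 1)).X n × I => W p.1 p.2) ∧
      (∀ q u, W ((B.inc m).f n q) u = (B.sk m).smk ends n q u) ∧
      (∀ y, W y 0 = (B.sk m).sus.pt n) ∧
      ∀ y, W y 1 = (B.D m).f n ((B.P (m + 1)).f n y) := by
  obtain ⟨F, hF, e1, e2⟩ := B.sk_desc (m := m) (n := n) (P := I) (T := (B.sk (m + 1)).sus.X n)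
    (fun q u => (B.sk (m + 1)).smk ends n ((B.inc m).f n q) u)
    ((B.sk (m + 1)).continuous_smk ends n (((B.inc m).cont n).comp continuous_fst) continuous_snd)
    (fun x t u => (B.sk (m + 1)).smk ends n (B.top (m + 1) n x (str 2 t))
      (cl (u + 2 * rho t - 2)))
    (B.cell_cont (m + 1) n continuous_fst.fst continuous_fst.snd continuous_const
      (((continuous_subtype_val.comp continuous_snd).add
        (continuous_const.mul (continuous_rho.comp continuous_fst.snd))).sub continuous_const))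
    (fun x t q u e h => by
      rw [e]
      rcases h with h | h
      · rw [rho_eq_one h, str_of_bdry (by norm_num) h, cl_eq_of (t := u) (by ring)]
      · rw [B.cell_Z h, B.cell_Z h])
  have hinj := (B.sus_inc_isEmbedding m n).injective
  obtain ⟨G, hG, e3⟩ := cell_lift (B.sus_inc_isEmbedding m n) hF fun p => by
    obtain ⟨y, u⟩ := p
    refine B.sk_ind (p := fun y => F y u ∈ _) (fun q => ?_) (fun x t => ?_) y
    · rw [e2]
      exact B.cell_inc_mem m n q u
    · rw [e1]
      by_cases h : 1 ≤ 2 * rho t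
      · exact B.cell_str_mem m n x (by norm_num) h _
      · rw [cl_of_le (by linarith [u.2.2]), cell_zero]
        exact B.cell_pt_mem m n
  refine ⟨fun y u => G (y, u), hG, fun q u => hinj ?_, fun y => hinj ?_, fun y => hinj ?_⟩
  · rw [e3, e2]
    rfl
  · rw [e3, (B.inc m).sus.f_pt]
    refine B.sk_ind (p := fun y => F y 0 = _) (fun q => ?_) (fun x t => ?_) y
    · rw [e2, cell_zero]
    · rw [e1, cl_of_le (by have := rho_le_one t; simp only [Set.Icc.coe_zero]; linarith),
        cell_zero]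
  · rw [e3]
    refine B.sk_ind (p := fun y => F y 1 = (B.inc m).sus.f n ((B.D m).f n ((B.P (m + 1)).f n y)))
      (fun q => ?_) (fun x t => ?_) y
    · rw [e2, cell_top, P_inc, (B.D m).f_pt, (B.inc m).sus.f_pt]
    · rw [e1, P_top, D_qm]
      congr 2
      simp only [Set.Icc.coe_one]
      ring

theorem P_inc_pi (m a b : ℕ) (x : (B.sk m).Pi a b) :
    (B.P (m + 1)).pi a b ((B.inc m).pi a b x) = 0 := by
  rw [← SMap.pi_comp]
  exact SMap.pi_eq_zero_of_pt (fun n q => B.P_inc m n q) a b x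

theorem D_P_pi (m a b : ℕ) (x : (B.sk (m + 1)).Pi a b) :
    (B.D m).pi a b ((B.P (m + 1)).pi a b x) = 0 := by
  choose W hW Wi W0 W1 using B.exists_W m
  rw [← SMap.pi_comp]
  refine SMap.pi_null (fun n y s => W n y (σ s))
    (fun n => (hW n).comp (continuous_fst.prodMk
      (unitInterval.continuous_symm.comp continuous_snd))) (fun n y => ?_) (fun n y => ?_)
    (fun n s => ?_) a b x
  · rw [unitInterval.symm_zero, W1]
    rfl
  · rw [unitInterval.symm_one, W0]
  · rw [← (B.inc m).f_pt, Wi, cell_pt]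

theorem inc_D_pi (m a b : ℕ) (x : (B.Q (m + 1)).Pi a b) :
    (B.inc m).sus.pi a b ((B.D m).pi a b x) = 0 := by
  choose F hF e1 e2 using fun n => B.Q_desc (m := m + 1) (n := n) (P := I)
    (T := (B.sk (m + 1)).sus.X n)
    (fun x t s => (B.sk (m + 1)).smk ends n (B.top (m + 1) n x (str 2 t))
      (cl (2 * rho t - 1 + 2 * s))) ((B.sk (m + 1)).sus.pt n)
    (B.cell_cont (m + 1) n continuous_fst.fst continuous_fst.snd continuous_const
      (((continuous_const.mul (continuous_rho.comp continuous_fst.snd)).sub continuous_const).add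
        (continuous_const.mul (continuous_subtype_val.comp continuous_snd))))
    (fun x t s h => by
      rcases h with h | h
      · rw [rho_eq_one h, cl_of_ge (by linarith [s.2.1]), cell_top]
      · exact B.cell_Z h _ _)
  rw [← SMap.pi_comp]
  refine SMap.pi_null F hF (fun n y => ?_) (fun n y => ?_) e2 a b x
  · refine B.Q_ind (fun x t => ?_) ?_ y
    · rw [e1, Set.Icc.coe_zero, mul_zero, add_zero]
      exact (B.D_qm m n x t).symm
    · rw [e2, SMap.f_pt]
  · refine B.Q_ind (fun x t => ?_) (e2 n 1) y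
    rw [e1, cl_of_ge (by have := rho_nonneg t; simp only [Set.Icc.coe_one]; linarith), cell_top]

theorem exact_inc (m a b : ℕ) (x : (B.sk m).Pi a b) (h : (B.inc m).pi a b x = 0) :
    (B.sk m).susC.pi a b x ∈ Set.range ((B.D m).pi (a + 1) b) := by
  choose W hW Wi W0 W1 using B.exists_W m
  exact lemmaE (B.inc m) (B.P (m + 1)) (B.D m) (B.sk m).susC W hW Wi W0 W1 (B.P_inc m) x h

theorem exact_P_sus (m a b : ℕ) (x : (B.sk (m + 1)).Pi a b) (h : (B.P (m + 1)).pi a b x = 0) :
    (B.sk (m + 1)).susC.pi a b x ∈ Set.range ((B.inc m).sus.pi (a + 1) b) := by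
  obtain ⟨f, hf⟩ : ∃ f : ∀ n, (B.A n).X (m + 1) → Dl (m + 1) → I × I → (B.sk (m + 1)).sus.X n,
      ∀ n x t p, f n x t p = (B.sk (m + 1)).smk ends n (B.top (m + 1) n x (str (1 + p.1) t))
        (cl (p.2 - max 0 ((1 + p.1) * rho t - 1))) := ⟨_, fun _ _ _ _ => rfl⟩
  have hc : ∀ n, Continuous fun p : ((B.A n).X (m + 1) × Dl (m + 1)) × (I × I) =>
      f n p.1.1 p.1.2 p.2 := fun n => by
    simp only [hf]
    have h1 : Continuous fun p : ((B.A n).X (m + 1) × Dl (m + 1)) × (I × I) =>
        1 + (p.2.1 : ℝ) := by fun_prop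
    exact B.cell_cont (m + 1) n continuous_fst.fst continuous_fst.snd h1
      ((continuous_subtype_val.comp continuous_snd.snd).sub (continuous_const.max
        ((h1.mul (continuous_rho.comp continuous_fst.snd)).sub continuous_const)))
  have fb : ∀ n x t s, f n x t (s, 0) = (B.sk (m + 1)).sus.pt n := fun n x t s => by
    rw [hf, cl_of_le (by simp), cell_zero]
  have ft : ∀ n x t s, f n x t (s, 1) ∈ Set.range ((B.inc m).sus.f n) := fun n x t s => by
    rw [hf]
    by_cases h : 1 ≤ (1 + (s : ℝ)) * rho t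
    · exact B.cell_str_mem m n x (by linarith [s.2.1]) h _
    · rw [max_eq_left (by linarith), cl_of_ge (by simp), cell_top]
      exact B.cell_pt_mem m n
  choose V hV v1 v2 using fun n => B.sk_desc (m := m) (n := n) (P := I × I)
    (T := (B.sk (m + 1)).sus.X n)
    (fun q p => (B.sk (m + 1)).smk ends n ((B.inc m).f n q) (cl (p.2 - p.1)))
    ((B.sk (m + 1)).continuous_smk ends n (((B.inc m).cont n).comp continuous_fst) (by fun_prop))
    (f n) (hc n)
    (fun x t q p e h => by
      rw [e, hf]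
      rcases h with h | h
      · have := p.1.2.1
        rw [rho_eq_one h, str_of_bdry (by linarith) h, max_eq_right (by linarith)]
        congr 2
        ring
      · rw [B.cell_Z h, B.cell_Z h])
  choose U hU u1 u2 using fun n => B.Q_desc (m := m + 1) (n := n) (P := I)
    (T := (B.sk (m + 1)).sus.X n) (fun x t u => f n x t (1, u)) ((B.sk (m + 1)).sus.pt n)
    ((hc n).comp (continuous_fst.prodMk (continuous_const.prodMk continuous_snd)))
    (fun x t u h => by
      rw [hf]
      rcases h with h | h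
      · rw [rho_eq_one h, cl_of_le (by have := u.2.2; norm_num; linarith), cell_zero]
      · exact B.cell_Z h _ _)
  refine lemmaE2 (B.P (m + 1)) (B.sk (m + 1)).susC (B.inc m).sus (B.sus_inc_isEmbedding m)
    V hV U hU (fun n y u => ?_) (fun n y u => ?_) (fun n y s => ?_) (fun n q => ?_)
    (fun n y s => ?_) (fun n y => ?_) u2 (fun n y => ?_) x h
  · refine B.sk_ind (fun q => ?_) (fun x t => ?_) y
    · rw [v2, cl_eq_of (t := u) (by simp)]
      rfl
    · have := rho_le_one t
      rw [v1, hf, Set.Icc.coe_zero, add_zero, str_one, max_eq_left (by linarith), sub_zero,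
        cl_coe]
      rfl
  · refine B.sk_ind (fun q => ?_) (fun x t => ?_) y
    · rw [v2, P_inc, u2, cl_of_le (by have := u.2.2; simpa using this), cell_zero]
    · rw [v1, P_top, u1]
  · refine B.sk_ind (fun q => ?_) (fun x t => ?_) y
    · rw [v2, cl_of_le (by have := s.2.1; simpa using this), cell_zero]
    · rw [v1, fb]
  · rw [← (B.inc m).f_pt, v2, (B.inc m).f_pt, cell_pt]
  · refine B.sk_ind (fun q => ?_) (fun x t => ?_) y
    · rw [v2]
      exact B.cell_inc_mem m n q _
    · rw [v1]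
      exact ft _ _ _ _
  · refine B.Q_ind (fun x t => ?_) (u2 n 0) y
    rw [u1, fb]
  · refine B.Q_ind (fun x t => ?_) ?_ y
    · rw [u1]
      exact ft _ _ _ _
    · rw [u2]
      exact B.cell_pt_mem m n

end SimpSp

end Pool.Agent.Lib.E2
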