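import Pool.Agent.Lib.MP_10be03_gt.HGeo3
import Pool.Agent.Lib.MP_10be03_gt.HSusp

/-! The skeleta, the levels and the cell quotients of a semi-simplicial spectrum as spectra. -/

noncomputable section
open scoped unitInterval Topology

namespace Pool.Agent.Lib.E2
open Geo

namespace SimpSp
variable (B : SimpSp)

theorem sg_mk' (n m : ℕ) (x : (B.A n).X m) (t : Dl m) (u : I) :
    B.Real.sg n ((B.A n).mk' m x t) u = (B.A (n + 1)).mk' m (B.sg n m x u) t := rfl

theorem sg_mem_skel {n m : ℕ} {p : (B.A n).Re} (h : p ∈ (B.A n).skel m) (u : I) :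
    B.Real.sg n p u ∈ (B.A (n + 1)).skel m := by
  obtain ⟨k, hk, x, t, rfl⟩ := h
  exact ⟨k, hk, _, t, rfl⟩

/-- The skeleton spectrum. -/
def sk (m : ℕ) : SSp where
  X n := (B.A n).skel m
  pt n := ⟨(B.A n).base, (B.A n).base_mem_skel m⟩
  sg n p u := ⟨B.Real.sg n p.1 u, B.sg_mem_skel p.2 u⟩
  cont n := ((B.Real.cont n).comp ((continuous_subtype_val.comp continuous_fst).prodMk
    continuous_snd)).subtype_mk _
  sg_pt n u := Subtype.ext (B.Real.sg_pt n u)
  sg_zero n p := Subtype.ext (B.Real.sg_zero n p.1)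
  sg_one n p := Subtype.ext (B.Real.sg_one n p.1)

/-- Inclusion of skeleta. -/
def skLe {m m' : ℕ} (h : m ≤ m') : SMap (B.sk m) (B.sk m') where
  f n p := ⟨p.1, (B.A n).skel_mono h p.2⟩
  cont _ := continuous_subtype_val.subtype_mk _
  f_pt _ := rfl
  f_sg _ _ _ := rfl

/-- Inclusion of consecutive skeleta. -/
abbrev inc (m : ℕ) : SMap (B.sk m) (B.sk (m + 1)) := B.skLe (Nat.le_succ m)

/-- Inclusion of a skeleton in the realisation. -/
def skTo (m : ℕ) : SMap (B.sk m) B.Real where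
  f _ p := p.1
  cont _ := continuous_subtype_val
  f_pt _ := rfl
  f_sg _ _ _ := rfl

/-- A point of the top cells. -/
def top (m n : ℕ) (x : (B.A n).X m) (t : Dl m) : (B.sk m).X n :=
  ⟨(B.A n).mk' m x t, (B.A n).mk'_mem_skel le_rfl x t⟩

theorem continuous_top {P : Type*} [TopologicalSpace P] (m n : ℕ) {x : P → (B.A n).X m}
    {t : P → Dl m} (hx : Continuous x) (ht : Continuous t) :
    Continuous fun p => B.top m n (x p) (t p) :=
  (((B.A n).continuous_mk' m).comp (hx.prodMk ht)).subtype_mk _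

theorem top_of_mem {m n : ℕ} {x : (B.A n).X m} (h : x ∈ (B.A n).Z m) (t : Dl m) :
    B.top m n x t = (B.sk m).pt n := Subtype.ext ((B.A n).mk'_of_mem h t)

theorem sg_top (m n : ℕ) (x : (B.A n).X m) (t : Dl m) (u : I) :
    (B.sk m).sg n (B.top m n x t) u = B.top m (n + 1) (B.sg n m x u) t := rfl

theorem inc_top (m n : ℕ) (i : Fin (m + 2)) (x : (B.A n).X (m + 1)) (t : Dl m) :
    (B.inc m).f n (B.top m n ((B.A n).face (Fin.succAboveOrderEmb i) x) t) =
      B.top (m + 1) n x (stdSimplex.map (Fin.succAboveOrderEmb i) t) :=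
  Subtype.ext ((B.A n).mk'_face _ x t)

theorem top_mem_range {m n : ℕ} (x : (B.A n).X (m + 1)) {t : Dl (m + 1)}
    (h : t ∈ bdry (m + 1)) : B.top (m + 1) n x t ∈ Set.range ((B.inc m).f n) :=
  ⟨⟨_, (B.A n).mk'_mem_skel_of_bdry x h⟩, rfl⟩

@[elab_as_elim]
theorem sk_ind {m n : ℕ} {p : (B.sk (m + 1)).X n → Prop} (h1 : ∀ q, p ((B.inc m).f n q))
    (h2 : ∀ x t, p (B.top (m + 1) n x t)) (q : (B.sk (m + 1)).X n) : p q := by
  obtain ⟨q, hq⟩ := q
  rcases (B.A n).mem_skel_succ hq with h | ⟨x, t, rfl⟩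
  · exact h1 ⟨q, h⟩
  · exact h2 x t

theorem sk_zero_ind {n : ℕ} (q : (B.sk 0).X n) : ∃ x, q = B.top 0 n x (stdSimplex.vertex 0) := by
  obtain ⟨q, hq⟩ := q
  obtain ⟨x, rfl⟩ := (B.A n).mem_skel_zero hq
  exact ⟨x, rfl⟩

/-- Levelwise maps with parameters out of a skeleton. -/
theorem sk_desc {m n : ℕ} {P T : Type*} [TopologicalSpace P] [LocallyCompactSpace P]
    [TopologicalSpace T] (g : (B.sk m).X n → P → T)
    (hg : Continuous fun p : (B.sk m).X n × P => g p.1 p.2)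
    (f : (B.A n).X (m + 1) → Dl (m + 1) → P → T)
    (hf : Continuous fun p : ((B.A n).X (m + 1) × Dl (m + 1)) × P => f p.1.1 p.1.2 p.2)
    (hfg : ∀ x t q p, (B.inc m).f n q = B.top (m + 1) n x t →
      t ∈ bdry (m + 1) ∨ x ∈ (B.A n).Z (m + 1) → f x t p = g q p) :
    ∃ F : (B.sk (m + 1)).X n → P → T,
      Continuous (fun p : (B.sk (m + 1)).X n × P => F p.1 p.2) ∧
      (∀ x t p, F (B.top (m + 1) n x t) p = f x t p) ∧
      ∀ q p, F ((B.inc m).f n q) p = g q p := by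
  obtain ⟨F, hF, e1, e2⟩ := (B.A n).desc_succ g hg f hf
    fun x t h p ht => hfg x t ⟨_, h⟩ p rfl ht
  exact ⟨F, hF, fun x t p => e1 x t _ p, fun q p => e2 q.1 q.2 _ p⟩

theorem inc_isClosedEmbedding (m n : ℕ) : Topology.IsClosedEmbedding ((B.inc m).f n) :=
  Topology.IsClosedEmbedding.inclusion ((B.A n).skel_mono (Nat.le_succ m))
    (((B.A n).isClosed_skel m).preimage continuous_subtype_val)

theorem isClosed_sk_pt (m n : ℕ) : IsClosed ({(B.sk m).pt n} : Set ((B.sk m).X n)) := by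
  have := (B.A n).isClosed_base.preimage (continuous_subtype_val (p := (· ∈ (B.A n).skel m)))
  refine (congrArg IsClosed (Set.ext fun q => ?_)).mp this
  exact ⟨fun h => Subtype.ext h, fun h => congrArg Subtype.val h⟩

theorem sus_inc_isEmbedding (m n : ℕ) : Topology.IsEmbedding ((B.inc m).sus.f n) :=
  (B.inc m).sm_isEmbedding I ends isClosed_ends n (B.inc_isClosedEmbedding m n)
    (B.isClosed_sk_pt (m + 1) n)

/-- The pair (level `m`, base set). -/
def WP (m : ℕ) : PSp where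
  T n := (B.A n).X m
  S n := (B.A n).Z m
  sg n := B.sg n m
  cont n := B.cont n m
  sg_S n x u := B.sg_Z n m x u
  sg_zero n := B.sg_zero n m
  sg_one n := B.sg_one n m

/-- Level `m` modulo its base set. -/
def W (m : ℕ) : SSp := (B.WP m).col

/-- Points of `W`. -/
def wm (m n : ℕ) (x : (B.A n).X m) : (B.W m).X n := (B.WP m).cm n x

theorem wm_of_mem {m n : ℕ} {x : (B.A n).X m} (h : x ∈ (B.A n).Z m) :
    B.wm m n x = (B.W m).pt n := (B.WP m).mk_of_mem h

theorem continuous_wm (m n : ℕ) : Continuous (B.wm m n) := (B.WP m).continuous_mk n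

theorem sg_wm (m n : ℕ) (x : (B.A n).X m) (u : I) :
    (B.W m).sg n (B.wm m n x) u = B.wm m (n + 1) (B.sg n m x u) := rfl

@[elab_as_elim]
theorem W_ind {m n : ℕ} {p : (B.W m).X n → Prop} (h1 : ∀ x, p (B.wm m n x))
    (h2 : p ((B.W m).pt n)) (y : (B.W m).X n) : p y := (B.WP m).ind h1 h2 y

/-- The face maps. -/
def dW (m : ℕ) (i : Fin (m + 2)) : SMap (B.W (m + 1)) (B.W m) :=
  (B.WP (m + 1)).lift (fun n x => B.wm m n ((B.A n).face (Fin.succAboveOrderEmb i) x))
    (fun n => (B.continuous_wm m n).comp ((B.A n).cont_face _))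
    (fun n x hx => B.wm_of_mem ((B.A n).face_Z _ x hx))
    fun n x u => (congrArg (B.wm m (n + 1)) (B.sg_face n _ x u)).symm

theorem dW_wm (m : ℕ) (i : Fin (m + 2)) (n : ℕ) (x : (B.A n).X (m + 1)) :
    (B.dW m i).f n (B.wm (m + 1) n x) = B.wm m n ((B.A n).face (Fin.succAboveOrderEmb i) x) := rfl

/-- The alternating sum of the face maps. -/
def dd (a b m : ℕ) : (B.W (m + 1)).Pi a b →+ (B.W m).Pi a b :=
  ∑ i : Fin (m + 2), ((-1 : ℤ) ^ (i : ℕ)) • (B.dW m i).pi a b

/-- The vertices. -/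
def vW : SMap (B.W 0) (B.sk 0) :=
  (B.WP 0).lift (fun n x => B.top 0 n x (stdSimplex.vertex 0))
    (fun n => B.continuous_top 0 n continuous_id continuous_const)
    (fun _ _ hx => B.top_of_mem hx _) fun _ _ _ => rfl

theorem vW_wm (n : ℕ) (x : (B.A n).X 0) :
    B.vW.f n (B.wm 0 n x) = B.top 0 n x (stdSimplex.vertex 0) := rfl

/-- The cells of dimension `m` modulo their boundaries. -/
def Q (m : ℕ) : SSp := (B.W m).sm (Dl m) (bdry m)

/-- Points of `Q`. -/
def qm (m n : ℕ) (x : (B.A n).X m) (t : Dl m) : (B.Q m).X n :=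
  (B.W m).smk (bdry m) n (B.wm m n x) t

theorem qm_of_mem {m n : ℕ} {x : (B.A n).X m} {t : Dl m} (h : t ∈ bdry m ∨ x ∈ (B.A n).Z m) :
    B.qm m n x t = (B.Q m).pt n := by
  rcases h with h | h
  · exact (B.W m).smk_of_mem _ n _ h
  · rw [qm, B.wm_of_mem h]; exact (B.W m).smk_pt _ n t

theorem continuous_qm {P : Type*} [TopologicalSpace P] (m n : ℕ) {x : P → (B.A n).X m}
    {t : P → Dl m} (hx : Continuous x) (ht : Continuous t) :
    Continuous fun p => B.qm m n (x p) (t p) :=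
  (B.W m).continuous_smk _ n ((B.continuous_wm m n).comp hx) ht

theorem sg_qm (m n : ℕ) (x : (B.A n).X m) (t : Dl m) (u : I) :
    (B.Q m).sg n (B.qm m n x t) u = B.qm m (n + 1) (B.sg n m x u) t := rfl

@[elab_as_elim]
theorem Q_ind {m n : ℕ} {p : (B.Q m).X n → Prop} (h1 : ∀ x t, p (B.qm m n x t))
    (h2 : p ((B.Q m).pt n)) (y : (B.Q m).X n) : p y := by
  refine (B.W m).sm_ind _ (fun w t => ?_) h2 y
  refine B.W_ind (fun x => h1 x t) ?_ w
  rw [(B.W m).smk_pt]; exact h2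

/-- Levelwise maps with parameters out of `Q`. -/
theorem Q_desc {m n : ℕ} {P T : Type*} [TopologicalSpace P] [LocallyCompactSpace P]
    [TopologicalSpace T] (f : (B.A n).X m → Dl m → P → T) (c : T)
    (hf : Continuous fun p : ((B.A n).X m × Dl m) × P => f p.1.1 p.1.2 p.2)
    (hc : ∀ x t p, t ∈ bdry m ∨ x ∈ (B.A n).Z m → f x t p = c) :
    ∃ F : (B.Q m).X n → P → T, Continuous (fun p : (B.Q m).X n × P => F p.1 p.2) ∧
      (∀ x t p, F (B.qm m n x t) p = f x t p) ∧ ∀ p, F ((B.Q m).pt n) p = c := by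
  obtain ⟨G, hG, g1, g2⟩ := (B.WP m).exists_param (n := n) (Q := Dl m × P)
    (fun x q => f x q.1 q.2) c
    (hf.comp ((continuous_fst.prodMk continuous_snd.fst).prodMk continuous_snd.snd))
    fun x hx q => hc x q.1 q.2 (Or.inr hx)
  obtain ⟨F, hF, f1, f2⟩ := (B.W m).sm_exists_param (bdry m) (n := n) (fun w t p => G w (t, p)) c
    (hG.comp (continuous_fst.fst.prodMk (continuous_fst.snd.prodMk continuous_snd)))
    (fun t p => g2 _) fun w t ht p => B.W_ind (p := fun w => G w (t, p) = c)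
      (fun x => (g1 x _).trans (hc x t p (Or.inl ht))) (g2 _) w
  exact ⟨F, hF, fun x t p => (f1 _ _ _).trans (g1 x _), f2⟩

/-- Every stable class of the realisation comes from a skeleton. -/
theorem exists_skTo (a b : ℕ) (x : B.Real.Pi a b) : ∃ m, x ∈ Set.range ((B.skTo m).pi a b) := by
  obtain ⟨j, f, rfl⟩ := SSp.cls_surj x
  obtain ⟨m, hm⟩ := (B.A (b + j)).exists_subset_skel (isCompact_range (HC.cont f))
  exact ⟨m, (B.skTo m).exists_lift (fun _ => Topology.IsEmbedding.subtypeVal) f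
    fun t => ⟨⟨f t, hm ⟨t, rfl⟩⟩, rfl⟩⟩

/-- A class that dies in the realisation dies in a skeleton. -/
theorem exists_skLe (a b m : ℕ) (x : (B.sk m).Pi a b) (h : (B.skTo m).pi a b x = 0) :
    ∃ k, (B.skLe (Nat.le_add_right m k)).pi a b x = 0 := by
  obtain ⟨j, f, rfl, hf⟩ := (B.skTo m).exists_null h
  obtain ⟨H, hH, h0, h1, hb⟩ := HC.exists_of_eq_one hf
  obtain ⟨k, hk⟩ := (B.A (b + j)).exists_subset_skel (isCompact_range hH)
  refine ⟨k, ?_⟩
  rw [SMap.pi_cls]
  exact SSp.cls_null (fun p => ⟨H p, (B.A (b + j)).skel_mono (Nat.le_add_left k m) (hk ⟨p, rfl⟩)⟩)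
    (hH.subtype_mk _) (fun t => Subtype.ext (h0 t)) (fun t => Subtype.ext (h1 t))
    fun s t ht => Subtype.ext (hb s t ht)

end SimpSp

end Pool.Agent.Lib.E2
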