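import Pool.Agent.Lib.MP_10be03_gt.KExt

/-!
The vacuum projection, the grading, graded commutation, products and continuity of extensions,
and the defining properties of `nu`.
-/

noncomputable section
open scoped InnerProductSpace

namespace Pool.Agent.Lib.E2

variable {U V U' V' U'' V'' : Type}
  [NormedAddCommGroup U] [InnerProductSpace ℝ U] [FiniteDimensional ℝ U]
  [NormedAddCommGroup V] [InnerProductSpace ℝ V]
  [NormedAddCommGroup U'] [InnerProductSpace ℝ U'] [FiniteDimensional ℝ U']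
  [NormedAddCommGroup V'] [InnerProductSpace ℝ V']
  [NormedAddCommGroup U''] [InnerProductSpace ℝ U''] [FiniteDimensional ℝ U'']
  [NormedAddCommGroup V''] [InnerProductSpace ℝ V'']

instance instContinuousMulCl : ContinuousMul (Cl U) := ⟨by
  let L : Cl U →ₗ[ℂ] Cl U →L[ℂ] Cl U :=
    (LinearMap.toContinuousLinearMap (𝕜 := ℂ)).toLinearMap.comp (LinearMap.mul ℂ (Cl U))
  exact (L.continuous_of_finiteDimensional.comp continuous_fst).clm_apply continuous_snd⟩

theorem norm_clMap (k : U →ₗᵢ[ℝ] U') (c : Cl U) : ‖clMap k c‖ = ‖c‖ := by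
  have h := inner_clMap_mul (PerpC.one k) (PerpC.one k) c c
  rw [mul_one, inner_cl 1 1, star_one, mul_one, tr_one, mul_one] at h
  rw [@norm_eq_sqrt_re_inner ℂ, h, ← @norm_eq_sqrt_re_inner ℂ]

/-- Joint continuity of a uniformly bounded family of additive maps. -/
theorem continuous_family {P A B : Type} [TopologicalSpace P] [SeminormedAddCommGroup A]
    [SeminormedAddCommGroup B] {F : P → A → B} {C : ℝ}
    (hF : ∀ p a a', ‖F p a - F p a'‖ ≤ C * ‖a - a'‖) {a : P → A} (ha : Continuous a)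
    (h : ∀ q, Continuous fun p => F p (a q)) : Continuous fun p => F p (a p) := by
  refine continuous_iff_continuousAt.2 fun q => ?_
  have h1 : Filter.Tendsto (fun p => F p (a p) - F p (a q)) (nhds q) (nhds 0) := by
    refine squeeze_zero_norm (fun p => hF p _ _) ?_
    simpa using ((tendsto_iff_norm_sub_tendsto_zero.1 (ha.tendsto q)).const_mul C)
  have h2 := h1.add ((h q).tendsto q)
  rw [zero_add] at h2
  exact h2.congr fun p => sub_add_cancel _ _

theorem isClosed_continuous_family {P A B : Type} [TopologicalSpace P] [SeminormedAddCommGroup A]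
    [SeminormedAddCommGroup B] {F : P → A → B} {C : ℝ}
    (hF : ∀ p a a', ‖F p a - F p a'‖ ≤ C * ‖a - a'‖) :
    IsClosed {a | Continuous fun p => F p a} := by
  refine isClosed_of_closure_subset fun a ha => ?_
  refine continuous_of_uniform_approx_of_continuous fun u hu => ?_
  obtain ⟨ε, hε, hu⟩ := Metric.mem_uniformity_dist.1 hu
  obtain ⟨a', ha', hd⟩ := Metric.mem_closure_iff.1 ha (ε / (|C| + 1)) (by positivity)
  refine ⟨_, ha', fun p => hu ?_⟩
  rw [dist_eq_norm] at hd ⊢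
  rw [lt_div_iff₀ (by positivity)] at hd
  nlinarith [hF p a a', le_abs_self C, norm_nonneg (a - a')]

theorem continuous_clMap {P : Type} [TopologicalSpace P] {k : P → U →ₗᵢ[ℝ] U'}
    (hk : ∀ v, Continuous fun p => k p v) {c : P → Cl U} (hc : Continuous c) :
    Continuous fun p => clMap (k p) (c p) := by
  refine continuous_family (F := fun p c => clMap (k p) c) (C := 1)
    (fun p a a' => by rw [← map_sub, norm_clMap, one_mul]) hc fun q => ?_
  induction c q using cl_induction with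
  | h1 => simpa using continuous_const
  | hcl v x hx => simp only [map_mul, clMap_cl]; exact (continuous_cl.comp (hk v)).mul hx
  | hadd x y hx hy => simp only [map_add]; exact hx.add hy
  | hsmul r x hx => simp only [map_smul]; exact hx.const_smul r

theorem tr_clMap_mul_clMap (k : U →ₗᵢ[ℝ] U'') (k' : U' →ₗᵢ[ℝ] U'')
    (h : ∀ v w, inner ℝ (k v) (k' w) = 0) (c : Cl U) (d : Cl U') :
    tr (clMap k c * clMap k' d) = tr c * tr d := by
  rw [tr_clMap_mul (fun a => ?_), tr_clMap]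
  rw [clMap_clMap]
  exact DFunLike.congr_fun (clMap_congr fun v => refl_of_inner (h a v)) d

theorem th_zero_one [Subsingleton V] : (th 0 0 1 : Op U V) = 1 :=
  Op.ext_kv fun v c => by
    rw [th_kv, ex_zero_left, one_smul, one_mul, Op.one_ap, Subsingleton.elim v 0]

/-- The isometry `-1`. -/
abbrev negI (U : Type) [NormedAddCommGroup U] [InnerProductSpace ℝ U] : U →ₗᵢ[ℝ] U :=
  (LinearIsometryEquiv.neg ℝ).toLinearIsometry

variable [FiniteDimensional ℝ V]

theorem lam_injective (k : U →ₗᵢ[ℝ] U') (j : V →ₗᵢ[ℝ] V') : Function.Injective (lam k j) := by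
  intro S T h
  refine Op.ext_kv fun v c => ext_inner_left ℂ fun y => ?_
  have h1 := inner_emb (PerpC.one k) (PerpC.one k) (Perp.zero j) (Perp.zero j) y
  rw [inner_cl 1 1, star_one, mul_one, tr_one, ex_zero_left, mul_one] at h1
  simp only [mul_one] at h1
  rw [← h1, ← h1, ← lam_emb _ (PerpC.one k) (Perp.zero j), ← lam_emb _ (PerpC.one k) (Perp.zero j),
    h]

variable (U') in
/-- The vacuum projection on the orthogonal complement of the range of `j`. -/
def vac (j : V →ₗᵢ[ℝ] V') : Op U' V' := Op.of (gam LinearMap.id (prj j).toLinearMap)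

theorem vac_kv (j : V →ₗᵢ[ℝ] V') (u : V) {w : V'} (hw : Perp j w) (c : Cl U') :
    (vac U' j).ap (kv (j u + w) c) = kv (j u) c :=
  (gam_kv _ (norm_prj_le j) _ c).trans (congrArg (kv · c) (prj_dec j u hw))

theorem vac_kv_self (j : V →ₗᵢ[ℝ] V') (u : V) (c : Cl U') :
    (vac U' j).ap (kv (j u) c) = kv (j u) c := by
  simpa using vac_kv j u (Perp.zero j) c

theorem lam_th_kv_self (k : U →ₗᵢ[ℝ] U') (j : V →ₗᵢ[ℝ] V') (v w u : V) (c : Cl U) (e : Cl U') :
    (lam k j (th v w c)).ap (kv (j u) e) = ex w u • kv (j v) (clMap k c * e) := by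
  simpa using lam_th_kv k j v w u c (Perp.zero j) e

omit [FiniteDimensional ℝ V] in
theorem ex_dec_left (j : V →ₗᵢ[ℝ] V') (v u : V) {w : V'} (hw : Perp j w) :
    ex (j v) (j u + w) = ex v u := by
  rw [ex_add_right, ex_isom, ex_of_inner (hw v), mul_one]

theorem lam_th_mul_vac (k : U →ₗᵢ[ℝ] U') (j : V →ₗᵢ[ℝ] V') (v w : V) (c : Cl U) :
    lam k j (th v w c) * vac U' j = th (j v) (j w) (clMap k c) :=
  Op.ext_dec j fun u w' hw e => by
    rw [Op.mul_ap, vac_kv j u hw, lam_th_kv_self, th_kv, ex_dec_left j _ _ hw]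

theorem vac_mul_vac (j : V →ₗᵢ[ℝ] V') : vac U' j * vac U' j = vac U' j :=
  Op.ext_dec j fun u w hw e => by rw [Op.mul_ap, vac_kv j u hw, vac_kv_self]

theorem star_vac (j : V →ₗᵢ[ℝ] V') : star (vac U' j) = vac U' j :=
  (Op.eq_star fun v c v' d => by
    obtain ⟨u, w, hw, rfl⟩ := exists_dec j v
    obtain ⟨u', w', hw', rfl⟩ := exists_dec j v'
    rw [vac_kv j u hw, vac_kv j u' hw', inner_kv, inner_kv, ex_dec_left j _ _ hw',
      ex_comm (j u + w), ex_dec_left j _ _ hw, ex_comm]).symm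

theorem isStarProjection_vac (j : V →ₗᵢ[ℝ] V') : IsStarProjection (vac U' j) :=
  ⟨vac_mul_vac j, star_vac j⟩

theorem norm_vac_le (j : V →ₗᵢ[ℝ] V') : ‖vac U' j‖ ≤ 1 :=
  norm_gam_le _ (norm_prj_le j) zero_le_one fun c => by simp

theorem vac_of_surjective {j : V →ₗᵢ[ℝ] V'} (h : Function.Surjective j) : vac U' j = 1 :=
  Op.ext_kv fun v c => by
    obtain ⟨u, rfl⟩ := h v
    rw [vac_kv_self, Op.one_ap]

theorem vac_congr {j j' : V →ₗᵢ[ℝ] V'} (h : ∀ v, j v = j' v) : vac U' j = vac U' j' := by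
  rw [LinearIsometry.ext h]

theorem vac_emb (k : U →ₗᵢ[ℝ] U') (j : V →ₗᵢ[ℝ] V') (d : Cl U') {w : V'} (hw : Perp j w)
    (x : Fock (Cl U) V) : (vac U' j).ap (emb k j d w x) = emb k j d 0 x :=
  DFunLike.congr_fun (op_ext (T := (vac U' j).ap ∘L emb k j d w) dense_kv fun p => by
    rw [ContinuousLinearMap.comp_apply, emb_kv k j d hw, vac_kv j _ hw,
      emb_kv k j d (Perp.zero j), add_zero]) x

theorem commute_lam_vac (k : U →ₗᵢ[ℝ] U') (j : V →ₗᵢ[ℝ] V') (T : Op U V) :
    Commute (lam k j T) (vac U' j) :=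
  Op.ext_emb k j fun d w hd hw x => by
    rw [Op.mul_ap, Op.mul_ap, vac_emb k j d hw, lam_emb _ hd hw, lam_emb _ hd (Perp.zero j),
      vac_emb k j d hw]

theorem commute_lm_vac (j : V →ₗᵢ[ℝ] V') (c : Cl U') : Commute (lm V' c) (vac U' j) :=
  Op.ext_dec j fun u w hw e => by
    rw [Op.mul_ap, Op.mul_ap, vac_kv j u hw, lm_kv, lm_kv, vac_kv j u hw]

/-- The extension of an operator that does not move the Clifford variable. -/
theorem lam_kv_of [FiniteDimensional ℝ V'] (k : U' →ₗᵢ[ℝ] U'') (j : V' →ₗᵢ[ℝ] V'') {S : Op U' V'}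
    {u u' : V'} {r : ℂ} (h : ∀ c, S.ap (kv u c) = r • kv u' c) {w : V''} (hw : Perp j w)
    (e : Cl U'') : (lam k j S).ap (kv (j u + w) e) = r • kv (j u' + w) e := by
  induction e using cl_dec_induction k with
  | h0 c d hd => rw [← emb_kv k j d hw, lam_emb _ hd hw, h, map_smul, emb_kv k j d hw]
  | hadd x y hx hy => rw [kv_add, map_add, hx, hy, kv_add, smul_add]
  | hsmul s x hx => rw [kv_smul, map_smul, hx, kv_smul, smul_comm]

theorem vac_comp [FiniteDimensional ℝ V'] (j : V →ₗᵢ[ℝ] V') (k' : U' →ₗᵢ[ℝ] U'')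
    (j' : V' →ₗᵢ[ℝ] V'') :
    vac U'' (j'.comp j) = lam k' j' (vac U' j) * vac U'' j' :=
  Op.ext_dec j' fun u' w' hw' e => by
    obtain ⟨u, w, hw, rfl⟩ := exists_dec j u'
    have h1 := vac_kv (j'.comp j) u (hw.comp hw') e
    have h2 := lam_kv_of k' j' (S := vac U' j) (r := 1)
      (fun c => (vac_kv j u hw c).trans (one_smul _ _).symm) (Perp.zero j') e
    rw [add_zero, add_zero, one_smul] at h2
    rw [Op.mul_ap, vac_kv j' _ hw', h2, map_add, add_assoc]
    exact h1

/-- If `V''` is the orthogonal sum of the ranges of `j` and `j'`, the vacuum projection on the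
complement of `j'` is the extension of the vacuum projection along `j`. -/
theorem vac_eq_lam [FiniteDimensional ℝ V'] (k : U →ₗᵢ[ℝ] U'') (j : V →ₗᵢ[ℝ] V'')
    (j' : V' →ₗᵢ[ℝ] V'') (h : ∀ v w, inner ℝ (j v) (j' w) = 0) (hs : ∀ x, ∃ v w, x = j v + j' w) :
    vac U'' j' = lam k j (th 0 0 1) :=
  Op.ext_kv fun x e => by
    obtain ⟨v, w, rfl⟩ := hs x
    rw [lam_th_kv k j 0 0 v 1 (fun a => h a w), add_comm (j v),
      vac_kv j' w (fun a => by rw [real_inner_comm, h]), ex_zero_left]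
    simp

variable (U V) in
/-- The grading automorphism. -/
def al : Op U V →⋆ₐ[ℂ] Op U V := lam (negI U) LinearIsometry.id

theorem al_al (T : Op U V) : al U V (al U V T) = T :=
  (lam_lam _ _ _ _ T).trans (lam_of_id (fun v => by simp) (fun _ => rfl) T)

theorem al_th (v w : V) (c : Cl U) : al U V (th v w c) = th v w (hat c) := lam_th_id _ v w c

theorem al_lm (c : Cl U) : al U V (lm V c) = lm V (hat c) := lam_lm _ _ c

theorem isCL_al : IsCL (al U V) := isCL_lam _ _

theorem al_mem {T : Op U V} (hT : T ∈ KA U V) : al U V T ∈ KA U V :=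
  KA.map_mem isCL_al (fun v w c => by rw [al_th]; exact th_mem _ _ _) hT

theorem al_lam [FiniteDimensional ℝ V'] (k : U →ₗᵢ[ℝ] U') (j : V →ₗᵢ[ℝ] V') (T : Op U V) :
    al U' V' (lam k j T) = lam k j (al U V T) := by
  rw [al, al, lam_lam, lam_lam]
  exact DFunLike.congr_fun (lam_congr (fun v => by simp) fun _ => rfl) T

theorem lam_id_vac [FiniteDimensional ℝ V'] (k : U' →ₗᵢ[ℝ] U'') (j : V →ₗᵢ[ℝ] V') :
    lam k LinearIsometry.id (vac U' j) = vac U'' j := by
  have h := vac_comp j k (LinearIsometry.id : V' →ₗᵢ[ℝ] V')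
  rw [vac_of_surjective (j := (LinearIsometry.id : V' →ₗᵢ[ℝ] V')) Function.surjective_id,
    mul_one] at h
  exact h.symm

theorem al_vac [FiniteDimensional ℝ V'] (j : V →ₗᵢ[ℝ] V') : al U' V' (vac U' j) = vac U' j :=
  lam_id_vac _ j

/-- A Clifford generator orthogonal to the range of `k` implements the grading. -/
theorem lm_cl_mul_lam (k : U →ₗᵢ[ℝ] U') (j : V →ₗᵢ[ℝ] V') {w : U'} (hw : Perp k w)
    (T : Op U V) : lm V' (cl w) * lam k j T = lam k j (al U V T) * lm V' (cl w) := by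
  have h : ∀ {d w'}, Perp j w' → ∀ x, (lm V' (cl w)).ap (emb k j d w' x) =
      emb k j (cl w * d) w' (emb (negI U) LinearIsometry.id 1 0 x) := fun {d w'} hw' x =>
    DFunLike.congr_fun (op_ext (T := (lm V' (cl w)).ap ∘L emb k j d w')
      (T' := emb k j (cl w * d) w' ∘L emb (negI U) LinearIsometry.id 1 0) dense_kv fun p => by
      rw [ContinuousLinearMap.comp_apply, ContinuousLinearMap.comp_apply, emb_kv k j d hw', lm_kv,
        emb_kv _ _ _ (Perp.zero _), emb_kv k j _ hw', ← mul_assoc, cl_mul_clMap hw, mul_one,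
        add_zero, mul_assoc]
      rfl) x
  refine Op.ext_emb k j fun d w' hd hw' x => ?_
  rw [Op.mul_ap, Op.mul_ap, lam_emb _ hd hw', h hw', h hw', lam_emb _ ((PerpC.cl hw).mul hd) hw',
    al, lam_emb _ (PerpC.one _) (Perp.zero _)]

theorem commute_lm_lam (k : U →ₗᵢ[ℝ] U'') {k' : U' →ₗᵢ[ℝ] U''} (j : V →ₗᵢ[ℝ] V')
    (hk : ∀ v, Perp k' (k v)) (c : Cl U) {T : Op U' V} (hT : al U' V T = T) :
    Commute (lm V' (clMap k c)) (lam k' j T) := by
  induction c using cl_induction with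
  | h1 => simp [lm_one]
  | hcl v x hx =>
    rw [map_mul, lm_mul, clMap_cl]
    refine Commute.mul_left ?_ hx
    rw [Commute, SemiconjBy, lm_cl_mul_lam k' j (hk v), hT]
  | hadd x y hx hy => rw [map_add, lm_add]; exact hx.add_left hy
  | hsmul r x hx => rw [map_smul, lm_smul]; exact hx.smul_left r

theorem lm_mul_lam_of_odd (k : U →ₗᵢ[ℝ] U'') {k' : U' →ₗᵢ[ℝ] U''} (j : V →ₗᵢ[ℝ] V')
    (hk : ∀ v, Perp k' (k v)) (c : Cl U) {T : Op U' V} (hT : al U' V T = -T) :
    lm V' (clMap k c) * lam k' j T = lam k' j T * lm V' (clMap k (hat c)) := by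
  induction c using cl_induction with
  | h1 => simp [lm_one, hat_one]
  | hcl v x hx =>
    rw [hat_mul, hat_cl, map_mul, map_mul, map_neg, lm_mul, lm_mul, lm_neg, clMap_cl, mul_assoc, hx,
      ← mul_assoc, lm_cl_mul_lam k' j (hk v), hT, map_neg]
    simp only [neg_mul, mul_neg, mul_assoc]
  | hadd x y hx hy => rw [hat_add, map_add, map_add, lm_add, lm_add, add_mul, mul_add, hx, hy]
  | hsmul r x hx =>
    rw [hat_smul, map_smul, map_smul, lm_smul, lm_smul, smul_mul_assoc, mul_smul_comm, hx]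

/-- An element that commutes with the images of the generators commutes with the extension of
every element of `KA`. -/
theorem commute_lm_lam_of_mem (k : U →ₗᵢ[ℝ] U') (j : V →ₗᵢ[ℝ] V') {d : Cl U'}
    (hd : ∀ c, Commute (clMap k c) d) {T : Op U V} (hT : T ∈ KA U V) :
    Commute (lam k j T) (lm V' d) :=
  KA.eq_of_th ((isCL_lam k j).mul_const _) ((isCL_lam k j).const_mul _) (fun v w c =>
    Op.ext_dec j fun u w' hw e => by
      rw [Op.mul_ap, Op.mul_ap, lm_kv, lam_th_kv _ _ _ _ _ _ hw, lam_th_kv _ _ _ _ _ _ hw, map_smul,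
        lm_kv, ← mul_assoc, ← mul_assoc, (hd c).eq]) hT

theorem lam_th_eq (k : U →ₗᵢ[ℝ] U') (j : V →ₗᵢ[ℝ] V') (v w : V) (c : Cl U) :
    lam k j (th v w c) = lm V' (clMap k c) * lam k j (th v w 1) := by
  rw [← lam_lm k j, ← map_mul, lm_mul_th, mul_one]

theorem lam_th_one_congr (k k' : U →ₗᵢ[ℝ] U') (j : V →ₗᵢ[ℝ] V') (v w : V) :
    lam k j (th v w 1) = lam k' j (th v w 1) :=
  Op.ext_dec j fun u w' hw e => by
    rw [lam_th_kv _ _ _ _ _ _ hw, lam_th_kv _ _ _ _ _ _ hw, map_one, map_one]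

theorem lam_mul_vac_mem (k : U →ₗᵢ[ℝ] U') (j : V →ₗᵢ[ℝ] V') {T : Op U V} (hT : T ∈ KA U V) :
    lam k j T * vac U' j ∈ KA U' V' :=
  KA.map_mem ((isCL_lam k j).mul_const _)
    (fun v w c => by rw [lam_th_mul_vac]; exact th_mem _ _ _) hT

theorem lam_mem_of_surj (k : U →ₗᵢ[ℝ] U') {j : V →ₗᵢ[ℝ] V'} (hj : Function.Surjective j)
    {T : Op U V} (hT : T ∈ KA U V) : lam k j T ∈ KA U' V' := by
  simpa [vac_of_surjective hj] using lam_mul_vac_mem k j hT

theorem lam_mul_mem (k : U →ₗᵢ[ℝ] U') (j : V →ₗᵢ[ℝ] V') {S : Op U V} (hS : S ∈ KA U V)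
    {T : Op U' V'} (hT : T ∈ KA U' V') : lam k j S * T ∈ KA U' V' :=
  KA.map_mem ((isCL_lam k j).mul_const _) (fun v w c => KA.map_mem (IsCL.id.const_mul _)
    (fun v' w' c' => by
      obtain ⟨u, w'', hw, rfl⟩ := exists_dec j v'
      have h : lam k j (th v w c) * th (j u + w'') w' c' =
          ex w u • th (j v + w'') w' (clMap k c * c') := Op.ext_kv fun y e => by
        rw [Op.mul_ap, th_kv, map_smul, lam_th_kv _ _ _ _ _ _ hw, Op.smul_ap, th_kv, mul_assoc,
          smul_comm]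
      rw [h]
      exact KA.smul_mem _ (th_mem _ _ _)) hT) hS

theorem continuous_lam_mul_vac {P : Type} [TopologicalSpace P] {k : P → U →ₗᵢ[ℝ] U'}
    {j : P → V →ₗᵢ[ℝ] V'} (hk : ∀ v, Continuous fun p => k p v)
    (hj : ∀ v, Continuous fun p => j p v) {T : P → Op U V} (hT : Continuous T)
    (hm : ∀ p, T p ∈ KA U V) : Continuous fun p => lam (k p) (j p) (T p) * vac U' (j p) := by
  have hF : ∀ p (a a' : Op U V), ‖lam (k p) (j p) a * vac U' (j p) -
      lam (k p) (j p) a' * vac U' (j p)‖ ≤ 1 * ‖a - a'‖ := fun p a a' => by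
    rw [← sub_mul, ← map_sub, one_mul]
    exact (norm_mul_le _ _).trans ((mul_le_of_le_one_right (norm_nonneg _) (norm_vac_le _)).trans
      (norm_lam_le _ _ _))
  refine continuous_family (F := fun p a => lam (k p) (j p) a * vac U' (j p)) hF hT fun q => ?_
  refine KA_induction (P := fun a => Continuous fun p => lam (k p) (j p) a * vac U' (j p))
    (isClosed_continuous_family hF) (fun v w c => ?_) (fun S T hS hT => ?_) (fun r S hS => ?_)
    (hm q)
  · simp only [lam_th_mul_vac]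
    exact continuous_th.comp (f := fun p => (j p v, j p w, clMap (k p) c))
      ((hj v).prodMk ((hj w).prodMk (continuous_clMap hk continuous_const)))
  · simp only [map_add, add_mul]; exact hS.add hT
  · simp only [map_smul, smul_mul_assoc]; exact hS.const_smul r

theorem continuous_lam {P : Type} [TopologicalSpace P] {k : P → U →ₗᵢ[ℝ] U'}
    (j : V →ₗᵢ[ℝ] V') (hk : ∀ v, Continuous fun p => k p v) {T : P → Op U V}
    (hT : Continuous T) (hm : ∀ p, T p ∈ KA U V) : Continuous fun p => lam (k p) j (T p) := by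
  have hF : ∀ p (a a' : Op U V), ‖lam (k p) j a - lam (k p) j a'‖ ≤ 1 * ‖a - a'‖ :=
    fun p a a' => by rw [← map_sub, one_mul]; exact norm_lam_le _ _ _
  refine continuous_family (F := fun p a => lam (k p) j a) hF hT fun q => ?_
  refine KA_induction (P := fun a => Continuous fun p => lam (k p) j a)
    (isClosed_continuous_family hF) (fun v w c => ?_) (fun S T hS hT => ?_) (fun r S hS => ?_)
    (hm q)
  · have h : ∀ p, lam (k p) j (th v w c) = lm V' (clMap (k p) c) * lam (k q) j (th v w 1) :=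
      fun p => by rw [lam_th_eq, lam_th_one_congr (k p) (k q)]
    simp only [h]
    exact (continuous_lm.comp (continuous_clMap hk continuous_const)).mul continuous_const
  · simp only [map_add]; exact hS.add hT
  · simp only [map_smul]; exact hS.const_smul r

theorem isNu_lam (k : U →ₗᵢ[ℝ] U') (j : V →ₗᵢ[ℝ] V') (d : Cl U') :
    IsNu k j d fun T => lam k j T * vac U' j * lm V' d :=
  ⟨((isCL_lam k j).mul_const _).mul_const _, fun v w c => by
    simp only [lam_th_mul_vac, th_mul_lm]; rfl⟩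

theorem isNu_nu (k : U →ₗᵢ[ℝ] U') (j : V →ₗᵢ[ℝ] V') (d : Cl U') : IsNu k j d (nu k j d) :=
  @Classical.epsilon_spec _ (IsNu k j d) ⟨_, isNu_lam k j d⟩

theorem nu_eq (k : U →ₗᵢ[ℝ] U') (j : V →ₗᵢ[ℝ] V') (d : Cl U') {T : Op U V} (hT : T ∈ KA U V) :
    nu k j d T = lam k j T * vac U' j * lm V' d :=
  KA.eq_of_th (isNu_nu k j d).1 (isNu_lam k j d).1
    (fun v w c => ((isNu_nu k j d).2 v w c).trans ((isNu_lam k j d).2 v w c).symm) hT

theorem gradG_eq {T : Op U V} (hT : T ∈ KA U V) : gradG U V T = al U V T := by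
  rw [gradG, nu_eq _ _ _ hT, vac_of_surjective Function.surjective_id, lm_one, mul_one, mul_one]
  rfl

/-- On `KA`, an isometry of `U` implemented by an element of the Clifford algebra acts by
conjugation. -/
theorem lam_eq_conj (k : U →ₗᵢ[ℝ] U) {g : Cl U} (h : ∀ v, cl (k v) * g = g * cl v) {T : Op U V}
    (hT : T ∈ KA U V) : lam k LinearIsometry.id T * lm V g = lm V g * T := by
  have h1 : ∀ c, clMap k c * g = g * c := fun c => by
    induction c using cl_induction with
    | h1 => simp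
    | hcl v x hx => rw [map_mul, clMap_cl, mul_assoc, hx, ← mul_assoc, h, mul_assoc]
    | hadd x y hx hy => rw [map_add, add_mul, mul_add, hx, hy]
    | hsmul r x hx => rw [map_smul, smul_mul_assoc, mul_smul_comm, hx]
  exact KA.eq_of_th ((isCL_lam _ _).mul_const _) (IsCL.id.const_mul _)
    (fun v w c => by rw [lam_th_id, th_mul_lm, lm_mul_th, h1]) hT

variable [FiniteDimensional ℝ V']

theorem commute_lam_th_one (k : U →ₗᵢ[ℝ] U'') (j : V →ₗᵢ[ℝ] V'') (k' : U' →ₗᵢ[ℝ] U'')
    (j' : V' →ₗᵢ[ℝ] V'') (hj : ∀ v w, inner ℝ (j v) (j' w) = 0) (v w : V) (T : Op U' V') :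
    Commute (lam k j (th v w 1)) (lam k' j' T) := by
  refine Op.ext_emb k' j' fun d x hd hx y => ?_
  obtain ⟨u, x', hx', rfl⟩ := exists_dec j x
  have hp : ∀ a, Perp j' (j a) := fun a b => by rw [real_inner_comm, hj]
  have hx'' : Perp j' x' := fun b => by simpa [inner_add_right, hp u b] using hx b
  have h : ∀ y, (lam k j (th v w 1)).ap (emb k' j' d (j u + x') y) =
      ex w u • emb k' j' d (j v + x') y := fun y =>
    DFunLike.congr_fun (op_ext (T := (lam k j (th v w 1)).ap ∘L emb k' j' d (j u + x'))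
      (T' := ex w u • emb k' j' d (j v + x')) dense_kv fun p => by
      rw [ContinuousLinearMap.comp_apply, smul_apply, emb_kv _ _ _ hx,
        emb_kv _ _ _ ((hp v).add hx''), add_left_comm,
        lam_th_kv _ _ _ _ _ _ (Perp.add (fun a => hj a _) hx'), map_one, one_mul,
        add_left_comm]) y
  rw [Op.mul_ap, Op.mul_ap, lam_emb _ hd hx, h, h, map_smul, lam_emb _ hd ((hp v).add hx'')]

/-- Graded commutation of extensions along orthogonal isometries: even second factor. -/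
theorem commute_lam_of_even (k : U →ₗᵢ[ℝ] U'') (j : V →ₗᵢ[ℝ] V'') (k' : U' →ₗᵢ[ℝ] U'')
    (j' : V' →ₗᵢ[ℝ] V'') (hk : ∀ v w, inner ℝ (k v) (k' w) = 0)
    (hj : ∀ v w, inner ℝ (j v) (j' w) = 0) {S : Op U V} (hS : S ∈ KA U V) {T : Op U' V'}
    (hT : al U' V' T = T) : Commute (lam k j S) (lam k' j' T) :=
  KA.eq_of_th ((isCL_lam k j).mul_const _) ((isCL_lam k j).const_mul _) (fun v w c => by
    rw [lam_th_eq]
    exact ((commute_lm_lam k j' (fun a b => by rw [real_inner_comm, hk]) c hT).mul_left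
      (commute_lam_th_one k j k' j' hj v w T)).eq) hS

/-- Graded commutation of extensions along orthogonal isometries: odd second factor. -/
theorem lam_mul_lam_of_odd (k : U →ₗᵢ[ℝ] U'') (j : V →ₗᵢ[ℝ] V'') (k' : U' →ₗᵢ[ℝ] U'')
    (j' : V' →ₗᵢ[ℝ] V'') (hk : ∀ v w, inner ℝ (k v) (k' w) = 0)
    (hj : ∀ v w, inner ℝ (j v) (j' w) = 0) {S : Op U V} (hS : S ∈ KA U V) {T : Op U' V'}
    (hT : al U' V' T = -T) :
    lam k j S * lam k' j' T = lam k' j' T * lam k j (al U V S) :=
  KA.eq_of_th ((isCL_lam k j).mul_const _) (((isCL_lam k j).comp isCL_al).const_mul _)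
    (fun v w c => by
      rw [al_th, lam_th_eq, lam_th_eq k j v w (hat c), mul_assoc,
        (commute_lam_th_one k j k' j' hj v w T).eq, ← mul_assoc,
        lm_mul_lam_of_odd k j' (fun a b => by rw [real_inner_comm, hk]) c hT, mul_assoc]) hS

theorem lam_th_mul_lam_th (k : U →ₗᵢ[ℝ] U'') (j : V →ₗᵢ[ℝ] V'') (k' : U' →ₗᵢ[ℝ] U'')
    (j' : V' →ₗᵢ[ℝ] V'') (h : ∀ v w, inner ℝ (j v) (j' w) = 0)
    (hs : ∀ x, ∃ v w, x = j v + j' w) (v w : V) (c : Cl U) (v' w' : V') (c' : Cl U') :
    lam k j (th v w c) * lam k' j' (th v' w' c') =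
      th (j v + j' v') (j w + j' w') (clMap k c * clMap k' c') :=
  Op.ext_kv fun x e => by
    obtain ⟨u, u', rfl⟩ := hs x
    have hp : ∀ a, Perp j (j' a) := fun a b => h b a
    have hp' : ∀ a, Perp j' (j a) := fun a b => by rw [real_inner_comm, h]
    rw [Op.mul_ap, th_kv, ex_dec j _ _ (hp _) (hp _), ex_isom, add_comm (j u),
      lam_th_kv _ _ _ _ _ _ (hp' u), map_smul, add_comm (j' v'), lam_th_kv _ _ _ _ _ _ (hp v'),
      smul_smul, mul_assoc, mul_comm]

end Pool.Agent.Lib.E2
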