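import Pool.Agent.Lib.MP_10be03_gt.KExt
import Pool.Agent.Lib.MP_10be03_gt.KNu
import Pool.Agent.Lib.MP_10be03_gt.HBase

-- part Pool.Agent.Lib.MP_10be03_gt.KXLad
section

/-!
The ladder of orthogonal isometries in a new direction of the Fock space, and the slice map of a
rank one corner.
-/

noncomputable section
open scoped InnerProductSpace

namespace Pool.Agent.Lib.E2

theorem kx_gs {H : Type} [NormedAddCommGroup H] [InnerProductSpace ℝ H] (g : ℕ → H)
    (hg : LinearIndependent ℝ g) (h0 : ‖g 0‖ = 1) : ∃ α : ℕ → ℕ →₀ ℝ, α 0 = Finsupp.single 0 1 ∧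
    ∀ i j, ((α i).sum fun k x => (α j).sum fun l y => x * y * inner ℝ (g k) (g l)) =
      if i = j then 1 else 0 := by
  have h1 : ∀ i, ∃ a : ℕ →₀ ℝ,
      Finsupp.linearCombination ℝ g a = InnerProductSpace.gramSchmidtNormed ℝ g i := fun i => by
    rw [← LinearMap.mem_range, Finsupp.range_linearCombination]
    exact Submodule.smul_mem _ _ (Submodule.span_mono (Set.image_subset_range _ _)
      (InnerProductSpace.gramSchmidt_mem_span ℝ g le_rfl))
  choose α hα using h1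
  refine ⟨α, hg ?_, fun i j => ?_⟩
  · have e : InnerProductSpace.gramSchmidt ℝ g 0 = g 0 := InnerProductSpace.gramSchmidt_bot ℝ g
    rw [hα, InnerProductSpace.gramSchmidtNormed, e, h0]
    simp
  · rw [← orthonormal_iff_ite.1 (InnerProductSpace.gramSchmidtNormed_orthonormal hg) i j, ← hα,
      ← hα]
    simp only [Finsupp.linearCombination_apply, Finsupp.sum, sum_inner, inner_sum,
      real_inner_smul_left, real_inner_smul_right]
    rw [Finset.sum_comm]
    refine Finset.sum_congr rfl fun k _ => Finset.sum_congr rfl fun l _ => by ring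

/-- Gram-Schmidt coefficients for the kernel `exp (r k l)`. -/
theorem exists_gram {r : ℝ} (hr : 0 < r) : ∃ α : ℕ → ℕ →₀ ℝ, α 0 = Finsupp.single 0 1 ∧
    ∀ i j, ((α i).sum fun k x => (α j).sum fun l y => x * y * Real.exp (r * k * l)) =
      if i = j then 1 else 0 := by
  have hk : Fact (IsPD fun k l : ℕ => ((Real.exp (r * k * l) : ℝ) : ℂ)) :=
    ⟨((isPD_exp_inner ℝ).comap fun k : ℕ => Real.sqrt r * k).congr fun k l => by
      rw [real_inner_comm, RCLike.inner_apply, conj_trivial, mul_mul_mul_comm,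
        Real.mul_self_sqrt hr.le, mul_assoc]⟩
  let _ : InnerProductSpace ℝ (KH fun k l : ℕ => ((Real.exp (r * k * l) : ℝ) : ℂ)) :=
    InnerProductSpace.complexToReal
  let g := gen fun k l : ℕ => ((Real.exp (r * k * l) : ℝ) : ℂ)
  have hg : ∀ k l, inner ℝ (g k) (g l) = Real.exp (r * k * l) := fun k l =>
    (congrArg Complex.re (inner_gen _ k l)).trans (Complex.ofReal_re _)
  have h1 : LinearIndependent ℝ g := by
    refine LinearIndependent.of_comp
      (LinearMap.pi fun l : Multiplicative ℕ => (innerSL ℝ (g l.toAdd)).toLinearMap) ?_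
    have := (linearIndependent_monoidHom (Multiplicative ℕ) ℝ).comp
      (fun k : ℕ => powersHom ℝ (Real.exp (r * k))) fun k l h => by
        simpa [hr.ne'] using (powersHom ℝ).injective h
    refine (congrArg (fun f : ℕ → Multiplicative ℕ → ℝ => LinearIndependent ℝ f)
      (funext fun k => funext fun l => ?_)).mp this
    refine Eq.trans ?_ (hg l.toAdd k).symm
    rw [Function.comp_apply, powersHom_apply, ← Real.exp_nat_mul]
    congr 1
    ring
  simpa only [hg] using kx_gs g h1 (by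
    rw [← sq_eq_sq₀ (norm_nonneg _) zero_le_one, ← real_inner_self_eq_norm_sq, hg]
    simp)

variable {U V U' V' : Type}
  [NormedAddCommGroup U] [InnerProductSpace ℝ U] [FiniteDimensional ℝ U]
  [NormedAddCommGroup V] [InnerProductSpace ℝ V] [FiniteDimensional ℝ V]
  [NormedAddCommGroup U'] [InnerProductSpace ℝ U'] [FiniteDimensional ℝ U']
  [NormedAddCommGroup V'] [InnerProductSpace ℝ V'] [FiniteDimensional ℝ V']

omit [FiniteDimensional ℝ V] [FiniteDimensional ℝ V'] in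
theorem kx_emb_kv (j : V →ₗᵢ[ℝ] V') {w : V'} (hw : Perp j w) (u : V) (c : Cl U) :
    emb LinearIsometry.id j 1 w (kv u c) = kv (j u + w) c := by
  rw [emb_kv _ _ _ hw, mul_one, clMap_of_id fun _ => rfl]

omit [FiniteDimensional ℝ V] [FiniteDimensional ℝ V'] in
theorem kx_exists (U : Type) [NormedAddCommGroup U] [InnerProductSpace ℝ U]
    [FiniteDimensional ℝ U] (j : V →ₗᵢ[ℝ] V') {w : V'} (hw : Perp j w) :
    ∃ T : Op U V', ∀ u w' c, Perp j w' → T.ap (kv (j u + w') c) = kv (j u + w) c := by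
  refine ⟨Op.of (emb LinearIsometry.id j 1 w ∘L
    ContinuousLinearMap.adjoint (emb LinearIsometry.id j 1 0)), fun u w' c h => ?_⟩
  have e : ContinuousLinearMap.adjoint (emb LinearIsometry.id j (1 : Cl U) 0) (kv (j u + w') c) =
      kv u c := vec_ext dense_kv fun p => by
    rw [ContinuousLinearMap.adjoint_inner_right, kx_emb_kv j (Perp.zero j), inner_kv, inner_kv,
      ex_dec j _ _ (Perp.zero j) h, ex_zero_left, mul_one]
  rw [Op.ap_of, ContinuousLinearMap.comp_apply, e, kx_emb_kv j hw]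

omit [FiniteDimensional ℝ V] in
theorem kx_perp_id {w : V} (h : Perp (LinearIsometry.id : V →ₗᵢ[ℝ] V) w) : w = 0 :=
  inner_self_eq_zero.1 (h w)

theorem exists_ladder (U : Type) [NormedAddCommGroup U] [InnerProductSpace ℝ U]
    [FiniteDimensional ℝ U] (j : V →ₗᵢ[ℝ] V') {e : V'} (he : Perp j e) (h0 : e ≠ 0) :
    ∃ L : ℕ → Op U V',
      (∀ u w c, Perp j w → (L 0).ap (kv (j u + w) c) = kv (j u) c) ∧
      (∀ l l', star (L l) * L l' = if l = l' then L 0 else 0) ∧ star (L 0) = L 0 ∧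
      (∀ l c, Commute (L l) (lm V' c)) ∧ (∀ l, ∀ T ∈ KA U V', L l * T ∈ KA U V') ∧
      ∀ l (k : U →ₗᵢ[ℝ] U), lam k (LinearIsometry.id : V' →ₗᵢ[ℝ] V') (L l) = L l := by
  obtain ⟨α, a0, a1⟩ := exists_gram (real_inner_self_pos.2 h0)
  have hp : ∀ k : ℕ, Perp j ((k : ℝ) • e) := fun k a => by
    rw [real_inner_smul_right, he, mul_zero]
  choose t ht using fun k => kx_exists U j (hp k)
  have t0 : ∀ u w c, Perp j w → (t 0).ap (kv (j u + w) c) = kv (j u) c := fun u w c h => by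
    rw [ht 0 u w c h, Nat.cast_zero, zero_smul, add_zero]
  have t1 : ∀ k l, star (t k) * t l = ((Real.exp (inner ℝ e e * k * l) : ℝ) : ℂ) • t 0 :=
    fun k l => Op.ext_dec j fun u w hw c => vec_ext dense_kv fun ⟨v, d⟩ => by
      obtain ⟨u', w', hw', rfl⟩ := exists_dec j v
      rw [Op.mul_ap, Op.inner_star_right, ht _ _ _ _ hw, ht _ _ _ _ hw', Op.smul_ap, t0 _ _ _ hw,
        inner_smul_right, inner_kv, inner_kv, ex_dec j _ _ (hp k) (hp l), ex_add_left, ex_isom,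
        ex_of_inner (hw'.symm u), ex, ex, real_inner_smul_left, real_inner_smul_right,
        show (k : ℝ) * (l * inner ℝ e e) = inner ℝ e e * k * l by ring]
      ring
  have e0 : ((α 0).sum fun k x => (x : ℂ) • t k) = t 0 := by rw [a0]; simp
  refine ⟨fun l => (α l).sum fun k x => (x : ℂ) • t k, ?_, fun l l' => ?_, ?_, fun l c => ?_,
    fun l T hT => ?_, fun l k => ?_⟩ <;> beta_reduce
  · simpa only [e0] using t0
  · have h := congrArg (fun x : ℝ => (x : ℂ) • t 0) (a1 l l')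
    simp only [Finsupp.sum, Complex.ofReal_sum, Finset.sum_smul, Complex.ofReal_mul] at h
    rw [e0, Finsupp.sum, Finsupp.sum, star_sum, Finset.sum_mul_sum]
    refine Eq.trans ?_ (h.trans ?_)
    · refine Finset.sum_congr rfl fun k _ => Finset.sum_congr rfl fun k' _ => ?_
      rw [star_smul, smul_mul_smul_comm, t1, smul_smul, Complex.star_def, Complex.conj_ofReal]
    · split_ifs <;> simp
  · have h : star (t 0) * t 0 = t 0 := by simpa using t1 0 0
    rw [e0, ← h, star_mul, star_star]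
  · refine Commute.sum_left _ _ _ fun k _ => Commute.smul_left ?_ _
    exact Op.ext_dec j fun u w hw d => by
      rw [Op.mul_ap, Op.mul_ap, lm_kv, ht _ _ _ _ hw, ht _ _ _ _ hw, lm_kv]
  · rw [Finsupp.sum, Finset.sum_mul]
    refine sum_mem (S := KAs U V') fun k _ => ?_
    rw [smul_mul_assoc]
    refine KA.smul_mem _ (KA.map_mem (IsCL.id.const_mul (t k)) (fun v w c => ?_) hT)
    obtain ⟨u, w', hw', rfl⟩ := exists_dec j v
    have : t k * th (j u + w') w c = th (j u + (k : ℝ) • e) w c := Op.ext_kv fun a d => by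
      rw [Op.mul_ap, th_kv, th_kv, map_smul, ht _ _ _ _ hw']
    exact this ▸ th_mem _ _ _
  · rw [Finsupp.sum, map_sum]
    refine Finset.sum_congr rfl fun i _ => ?_
    rw [map_smul]
    refine congrArg _ (Op.ext_emb k LinearIsometry.id fun d w hd hw x => ?_)
    rw [lam_emb _ hd hw]
    refine DFunLike.congr_fun (op_ext (T := emb k LinearIsometry.id d w ∘L (t i).ap)
      (T' := (t i).ap ∘L emb k LinearIsometry.id d w) dense_kv fun ⟨v, c⟩ => ?_) x
    obtain ⟨u, w', hw', rfl⟩ := exists_dec j v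
    obtain rfl := kx_perp_id hw
    rw [ContinuousLinearMap.comp_apply, ContinuousLinearMap.comp_apply, ht _ _ _ _ hw',
      emb_kv _ _ _ hw, emb_kv _ _ _ hw, add_zero, add_zero]
    exact (ht _ _ _ _ hw').symm

theorem exists_slice (V : Type) [NormedAddCommGroup V] [InnerProductSpace ℝ V]
    [FiniteDimensional ℝ V] (k : U →ₗᵢ[ℝ] U') {p : Cl U'} (hp : IsStarProjection p) (h0 : p ≠ 0)
    (hP : PerpC k p) (hc : ∀ c, Commute (clMap k c) p)
    (hx : ∀ x, ∃ c, p * x * p = clMap k c * p) :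
    ∃ sl : Op U' V →L[ℂ] Op U V,
      (∀ T, sl (lam k (LinearIsometry.id : V →ₗᵢ[ℝ] V) T * lm V p) = T) ∧
      ∀ T ∈ KA U' V, sl T ∈ KA U V ∧
        lam k (LinearIsometry.id : V →ₗᵢ[ℝ] V) (sl T) * lm V p = lm V p * T * lm V p := by
  have hz := Perp.zero (LinearIsometry.id : V →ₗᵢ[ℝ] V)
  obtain ⟨F, hF⟩ : ∃ F, F = emb k (LinearIsometry.id : V →ₗᵢ[ℝ] V) p 0 := ⟨_, rfl⟩
  have h1 : ∀ x, (lm V p).ap (F x) = F x := fun x =>
    DFunLike.congr_fun (op_ext (T := (lm V p).ap ∘L F) dense_kv fun q => by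
      rw [ContinuousLinearMap.comp_apply, hF, emb_kv _ _ _ hz, lm_kv, ← mul_assoc, ← (hc _).eq,
        mul_assoc, hp.isIdempotentElem.eq]) x
  have h2 : ∀ y, ContinuousLinearMap.adjoint F ((lm V p).ap y) = ContinuousLinearMap.adjoint F y :=
    fun y => ext_inner_left ℂ fun z => by
      rw [ContinuousLinearMap.adjoint_inner_right, ContinuousLinearMap.adjoint_inner_right,
        ← Op.inner_star_left, ← lm_star, hp.isSelfAdjoint.star_eq, h1]
  have h3 : ∀ x, ContinuousLinearMap.adjoint F (F x) = ⟪p, p⟫_ℂ • x := fun x =>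
    ext_inner_left ℂ fun z => by
      rw [ContinuousLinearMap.adjoint_inner_right, hF, inner_emb hP hP hz hz, ex_zero_left, mul_one,
        inner_smul_right, mul_comm]
  have h7 : Continuous fun T : Op U' V => Op.of (ContinuousLinearMap.adjoint F ∘L T.ap ∘L F) :=
    continuous_const.clm_comp (continuous_id.clm_comp continuous_const)
  obtain ⟨sl, hs⟩ : ∃ sl : Op U' V →L[ℂ] Op U V, ∀ T x,
      (sl T).ap x = (⟪p, p⟫_ℂ)⁻¹ • ContinuousLinearMap.adjoint F (T.ap (F x)) :=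
    ⟨{ toFun := fun T => (⟪p, p⟫_ℂ)⁻¹ • Op.of (ContinuousLinearMap.adjoint F ∘L T.ap ∘L F)
       map_add' := fun S T => Op.ext_kv fun v c => by
        simp only [Op.add_ap, Op.smul_ap, Op.ap_of, ContinuousLinearMap.comp_apply, map_add,
          smul_add]
       map_smul' := fun r S => Op.ext_kv fun v c => by
        simp only [Op.smul_ap, Op.ap_of, ContinuousLinearMap.comp_apply, map_smul,
          RingHom.id_apply, smul_comm r]
       cont := h7.const_smul (⟪p, p⟫_ℂ)⁻¹ },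
      fun _ _ => rfl⟩
  have h4 : ∀ T, sl (lam k (LinearIsometry.id : V →ₗᵢ[ℝ] V) T * lm V p) = T := fun T =>
    Op.ext_kv fun v c => by
      rw [hs, Op.mul_ap, h1, hF, lam_emb _ hP hz, ← hF, h3, smul_smul,
        inv_mul_cancel₀ (inner_self_ne_zero.2 h0), one_smul]
  have h5 : ∀ v w x, ∃ c, sl (th v w x) = th v w c ∧ lam k (LinearIsometry.id : V →ₗᵢ[ℝ] V)
      (th v w c) * lm V p = lm V p * th v w x * lm V p := fun v w x => by
    obtain ⟨c, e⟩ := hx x
    have e1 : lam k (LinearIsometry.id : V →ₗᵢ[ℝ] V) (th v w c) * lm V p =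
        lm V p * th v w x * lm V p := by rw [lam_th_id, lm_mul_th, th_mul_lm, th_mul_lm, e]
    refine ⟨c, ?_, e1⟩
    rw [← h4 (th v w c), e1]
    exact Op.ext_kv fun u d => by rw [hs, hs, Op.mul_ap, Op.mul_ap, h1, h2]
  have h6 : IsCL sl := ⟨sl.continuous, map_add sl, map_smul sl⟩
  refine ⟨sl, h4, fun T hT => ⟨KA.map_mem h6 (fun v w x => ?_) hT,
    KA.eq_of_th (((isCL_lam k _).comp h6).mul_const _) ((IsCL.id.const_mul _).mul_const _)
      (fun v w x => ?_) hT⟩⟩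
  · obtain ⟨c, e, -⟩ := h5 v w x
    exact e ▸ th_mem _ _ _
  · obtain ⟨c, e, e'⟩ := h5 v w x
    rw [e, e']

end Pool.Agent.Lib.E2
end
end

-- part Pool.Agent.Lib.MP_10be03_gt.KXIf
section

/-!
Spectra whose points are graded pairs of operators.
-/

noncomputable section
open scoped unitInterval OnePoint

namespace Pool.Agent.Lib.E2

/-- The standard inclusion as an isometry. -/
def inc (n : ℕ) : E n →ₗᵢ[ℝ] E (n + 1) := ⟨(incl n).toLinearMap, norm_incl n⟩

theorem sThom_iso (n : ℕ) (u : I) : (sThom n u).iso = inc n := rfl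

theorem perp_of_axis {n : ℕ} {u : I} {v : E (n + 1)} (h : axis n u = v) : Perp (inc n) v :=
  fun w => (real_inner_comm _ _).trans ((isThom_axis n u).2 v h w)

theorem exists_unit_perp (n : ℕ) : ∃ e : E (n + 1), Perp (inc n) e ∧ ‖e‖ = 1 :=
  ⟨EuclideanSpace.single (Fin.last n) 1, fun w => by
    rw [EuclideanSpace.inner_single_right]
    exact (congrArg (1 * starRingEnd ℝ ·) (incl_last n w)).trans (by simp), by simp⟩

theorem axis_cases (n : ℕ) (u : I) : (u = 0 ∨ u = 1) ∨ ∃ v : E (n + 1), axis n u = v :=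
  (em _).imp_right fun h => ⟨_, if_neg h⟩

/-- An admissible pair. -/
structure Adm {U V : Type} [NormedAddCommGroup U] [InnerProductSpace ℝ U] [FiniteDimensional ℝ U]
    [NormedAddCommGroup V] [InnerProductSpace ℝ V] [FiniteDimensional ℝ V]
    (Q : Op U V → Prop) (a b : Op U V) : Prop where
  gp : IsGP a b
  m1 : a ∈ KA U V
  m2 : b ∈ KA U V
  q1 : Q a
  q2 : Q b
  g1 : al U V a = a
  g2 : al U V b = -b

/-- A presentation of the points of the spectrum `B` by admissible pairs. -/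
structure GIf (B : SSp) (U : ℕ → Type) [∀ n, NormedAddCommGroup (U n)]
    [∀ n, InnerProductSpace ℝ (U n)] [∀ n, FiniteDimensional ℝ (U n)]
    (Q : ∀ n, Op (U n) (E n) → Prop) (κ : ∀ n, U n →ₗᵢ[ℝ] U (n + 1))
    (β : ∀ n, E n →ₗᵢ[ℝ] U n) where
  a1 : ∀ n, B.X n → Op (U n) (E n)
  a2 : ∀ n, B.X n → Op (U n) (E n)
  adm : ∀ n x, Adm (Q n) (a1 n x) (a2 n x)
  emb : ∀ n, Topology.IsEmbedding fun x : B.X n => (a1 n x, a2 n x)
  onto : ∀ n a b, Adm (Q n) a b → ∃ x, a1 n x = a ∧ a2 n x = b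
  pt1 : ∀ n, a1 n (B.pt n) = 0
  pt2 : ∀ n, a2 n (B.pt n) = 0
  sg1 : ∀ n x u (v : E (n + 1)), axis n u = v → a1 (n + 1) (B.sg n x u) =
    ((Real.exp (-‖v‖ ^ 2) : ℝ) : ℂ) • (lam (κ n) (inc n) (a1 n x) * vac (U (n + 1)) (inc n))
  sg2 : ∀ n x u (v : E (n + 1)), axis n u = v → a2 (n + 1) (B.sg n x u) =
    ((Real.exp (-‖v‖ ^ 2) : ℝ) : ℂ) • (lam (κ n) (inc n) (a2 n x) * vac (U (n + 1)) (inc n) +
      lam (κ n) (inc n) (a1 n x) * vac (U (n + 1)) (inc n) * lm (E (n + 1)) (cl (β (n + 1) v)))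

namespace GIf

variable {B B' : SSp} {U U' : ℕ → Type} [∀ n, NormedAddCommGroup (U n)]
  [∀ n, InnerProductSpace ℝ (U n)] [∀ n, FiniteDimensional ℝ (U n)]
  [∀ n, NormedAddCommGroup (U' n)] [∀ n, InnerProductSpace ℝ (U' n)]
  [∀ n, FiniteDimensional ℝ (U' n)] {Q : ∀ n, Op (U n) (E n) → Prop}
  {κ : ∀ n, U n →ₗᵢ[ℝ] U (n + 1)} {β : ∀ n, E n →ₗᵢ[ℝ] U n} {Q' : ∀ n, Op (U' n) (E n) → Prop}
  {κ' : ∀ n, U' n →ₗᵢ[ℝ] U' (n + 1)} {β' : ∀ n, E n →ₗᵢ[ℝ] U' n}
  (G : GIf B U Q κ β) (G' : GIf B' U' Q' κ' β')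

theorem ext {n : ℕ} {x y : B.X n} (h1 : G.a1 n x = G.a1 n y) (h2 : G.a2 n x = G.a2 n y) :
    x = y := (G.emb n).injective (Prod.ext h1 h2)

theorem eq_pt {n : ℕ} {x : B.X n} (h1 : G.a1 n x = 0) (h2 : G.a2 n x = 0) : x = B.pt n :=
  G.ext (h1.trans (G.pt1 n).symm) (h2.trans (G.pt2 n).symm)

theorem continuous_a1 (n : ℕ) : Continuous (G.a1 n) := (G.emb n).continuous.fst

theorem continuous_a2 (n : ℕ) : Continuous (G.a2 n) := (G.emb n).continuous.snd

theorem exists_family {P : Type} [TopologicalSpace P] (n : ℕ) (a b : P → Op (U n) (E n))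
    (ha : Continuous a) (hb : Continuous b) (h : ∀ p, Adm (Q n) (a p) (b p)) :
    ∃ y : P → B.X n, Continuous y ∧ ∀ p, G.a1 n (y p) = a p ∧ G.a2 n (y p) = b p := by
  choose y hy using fun p => G.onto n _ _ (h p)
  exact ⟨y, (G.emb n).continuous_iff.2
    ((ha.prodMk hb).congr fun p => (Prod.ext (hy p).1 (hy p).2).symm), hy⟩

theorem kx_sg_pt {n : ℕ} (x : B.X n) {u : I} (h : u = 0 ∨ u = 1) : B.sg n x u = B.pt (n + 1) := by
  rcases h with rfl | rfl
  exacts [B.sg_zero n x, B.sg_one n x]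

theorem kx_vac {A : Type} [Ring A] [Algebra ℂ A] {e a b c : A} (r : ℂ) (he : e * e = e)
    (ha : Commute a e) (hb : Commute b e) (hc : Commute c e) :
    e * r • (a * e) = r • (a * e) ∧ e * r • (b * e + a * e * c) = r • (b * e + a * e * c) ∧
    r • (a * e) * e = r • (a * e) ∧ r • (b * e + a * e * c) * e = r • (b * e + a * e * c) := by
  have h1 : ∀ {x : A}, Commute x e → e * (x * e) = x * e := fun h => by
    rw [← mul_assoc, ← h.eq, mul_assoc, he]
  have h2 : ∀ x : A, x * e * e = x * e := fun x => by rw [mul_assoc, he]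
  refine ⟨?_, ?_, ?_, ?_⟩
  · rw [mul_smul_comm, h1 ha]
  · rw [mul_smul_comm, mul_add, h1 hb, ← mul_assoc, h1 ha]
  · rw [smul_mul_assoc, h2]
  · rw [smul_mul_assoc, add_mul, h2, mul_assoc _ c, hc.eq, ← mul_assoc, h2]

theorem vac_mul_sg (n : ℕ) (x : B.X n) (u : I) :
    vac (U (n + 1)) (inc n) * G.a1 (n + 1) (B.sg n x u) = G.a1 (n + 1) (B.sg n x u) ∧
    vac (U (n + 1)) (inc n) * G.a2 (n + 1) (B.sg n x u) = G.a2 (n + 1) (B.sg n x u) ∧
    G.a1 (n + 1) (B.sg n x u) * vac (U (n + 1)) (inc n) = G.a1 (n + 1) (B.sg n x u) ∧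
    G.a2 (n + 1) (B.sg n x u) * vac (U (n + 1)) (inc n) = G.a2 (n + 1) (B.sg n x u) := by
  rcases axis_cases n u with h | ⟨v, h⟩
  · rw [kx_sg_pt x h, G.pt1, G.pt2, mul_zero, zero_mul]
    exact ⟨rfl, rfl, rfl, rfl⟩
  · rw [G.sg1 n x u v h, G.sg2 n x u v h]
    exact kx_vac _ (vac_mul_vac _) (commute_lam_vac _ _ _) (commute_lam_vac _ _ _)
      (commute_lm_vac _ _)

/-- The map `φ` is given on pairs by `F`. -/
def Rep (φ : SMap B B') (F : ∀ n, Op (U n) (E n) → Op (U' n) (E n)) : Prop :=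
  ∀ n x, G'.a1 n (φ.f n x) = F n (G.a1 n x) ∧ G'.a2 n (φ.f n x) = F n (G.a2 n x)

theorem exists_smap (F : ∀ n, Op (U n) (E n) → Op (U' n) (E n)) (hF : ∀ n, IsCL (F n))
    (hadm : ∀ n a b, Adm (Q n) a b → Adm (Q' n) (F n a) (F n b))
    (h1 : ∀ n, ∀ T ∈ KA (U n) (E n), Q n T →
      F (n + 1) (lam (κ n) (inc n) T * vac (U (n + 1)) (inc n)) =
        lam (κ' n) (inc n) (F n T) * vac (U' (n + 1)) (inc n))
    (h2 : ∀ n, ∀ T ∈ KA (U n) (E n), Q n T → ∀ v, Perp (inc n) v →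
      F (n + 1) (lam (κ n) (inc n) T * vac (U (n + 1)) (inc n) * lm (E (n + 1)) (cl (β (n + 1) v))) =
        lam (κ' n) (inc n) (F n T) * vac (U' (n + 1)) (inc n) *
          lm (E (n + 1)) (cl (β' (n + 1) v))) :
    ∃ φ : SMap B B', G.Rep G' φ F := by
  choose f hf hf' using fun n => G'.exists_family n (fun x => F n (G.a1 n x))
    (fun x => F n (G.a2 n x)) ((hF n).1.comp (G.continuous_a1 n))
    ((hF n).1.comp (G.continuous_a2 n)) fun x => hadm n _ _ (G.adm n x)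
  have pt : ∀ n, f n (B.pt n) = B'.pt n := fun n => G'.eq_pt
    (by rw [(hf' n _).1, G.pt1, (hF n).map_zero]) (by rw [(hf' n _).2, G.pt2, (hF n).map_zero])
  refine ⟨⟨f, hf, pt, fun n x u => ?_⟩, hf'⟩
  rcases axis_cases n u with h | ⟨v, h⟩
  · rw [kx_sg_pt x h, kx_sg_pt _ h, pt]
  have A := G.adm n x
  refine G'.ext ?_ ?_
  · rw [(hf' _ _).1, G.sg1 n x u v h, G'.sg1 n _ u v h, (hF _).2.map_smul, h1 n _ A.m1 A.q1,
      (hf' _ _).1]
  · rw [(hf' _ _).2, G.sg2 n x u v h, G'.sg2 n _ u v h, (hF _).2.map_smul, (hF _).2.map_add,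
      h1 n _ A.m2 A.q2, h2 n _ A.m1 A.q1 v (perp_of_axis h), (hf' _ _).1, (hf' _ _).2]

theorem Rep.pi_eq {G G'} {φ ψ : SMap B B'} {F F' : ∀ n, Op (U n) (E n) → Op (U' n) (E n)}
    (h : GIf.Rep (Q := Q) (κ := κ) (β := β) (Q' := Q') (κ' := κ') (β' := β') G G' φ F)
    (h' : G.Rep G' ψ F') (e : ∀ n, ∀ T ∈ KA (U n) (E n), Q n T → F n T = F' n T) (a b : ℕ) :
    φ.pi a b = ψ.pi a b :=
  SMap.pi_congr (fun n x => G'.ext
    (by rw [(h n x).1, (h' n x).1, e n _ (G.adm n x).m1 (G.adm n x).q1])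
    (by rw [(h n x).2, (h' n x).2, e n _ (G.adm n x).m2 (G.adm n x).q2])) a b

end GIf

end Pool.Agent.Lib.E2
end
end

-- part Pool.Agent.Lib.MP_10be03_gt.KG
section

/-!
Graded star homomorphisms as pairs in the ring of dual numbers over the operator algebra.
-/

noncomputable section
open scoped ZeroAtInfty
open TrivSqZeroExt

namespace Pool.Agent.Lib.E2

section Dual

variable {A B C : Type} [CStarAlgebra A] [CStarAlgebra B] [CStarAlgebra C]

theorem dfst_mul (p q : DualNumber A) : (p * q).fst = p.fst * q.fst := rfl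

theorem dsnd_mul (p q : DualNumber A) : (p * q).snd = p.fst * q.snd + p.snd * q.fst := rfl

/-- A pair of elements as a dual number. -/
def dmk (a b : A) : DualNumber A := (a, b)

omit [CStarAlgebra A] in
@[simp] theorem dmk_fst (a b : A) : (dmk a b).fst = a := rfl

omit [CStarAlgebra A] in
@[simp] theorem dmk_snd (a b : A) : (dmk a b).snd = b := rfl

theorem dmk_mul (a b a' b' : A) : dmk a b * dmk a' b' = dmk (a * a') (a * b' + b * a') := rfl

theorem dmk_one : dmk (1 : A) 0 = 1 := rfl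

theorem dmk_mul_zero (a a' : A) : dmk (a * a') 0 = dmk a 0 * dmk a' 0 := by simp [dmk_mul]

/-- The map of dual numbers induced by a star homomorphism. -/
def dmap (φ : A →⋆ₐ[ℂ] B) : DualNumber A →* DualNumber B where
  toFun p := dmk (φ p.fst) (φ p.snd)
  map_one' := by simp [← dmk_one]
  map_mul' p q := by simp only [dfst_mul, dsnd_mul, dmk_mul, map_mul, map_add]

theorem dmap_fst (φ : A →⋆ₐ[ℂ] B) (p : DualNumber A) : (dmap φ p).fst = φ p.fst := rfl

theorem dmap_snd (φ : A →⋆ₐ[ℂ] B) (p : DualNumber A) : (dmap φ p).snd = φ p.snd := rfl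

theorem dmap_dmk (φ : A →⋆ₐ[ℂ] B) (a b : A) : dmap φ (dmk a b) = dmk (φ a) (φ b) := rfl

theorem dmap_dmk_zero (φ : A →⋆ₐ[ℂ] B) (a : A) : dmap φ (dmk a 0) = dmk (φ a) 0 := by
  rw [dmap_dmk, map_zero]

theorem dmap_zero (φ : A →⋆ₐ[ℂ] B) : dmap φ 0 = 0 :=
  TrivSqZeroExt.ext (map_zero φ) (map_zero φ)

theorem dmap_dmap {φ : A →⋆ₐ[ℂ] B} {ψ : B →⋆ₐ[ℂ] C} {χ : A →⋆ₐ[ℂ] C} (h : ∀ a, ψ (φ a) = χ a)
    (p : DualNumber A) : dmap ψ (dmap φ p) = dmap χ p :=
  TrivSqZeroExt.ext (h _) (h _)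

theorem continuous_dual {P : Type} [TopologicalSpace P] {f : P → DualNumber A}
    (h1 : Continuous fun p => (f p).fst) (h2 : Continuous fun p => (f p).snd) : Continuous f :=
  h1.prodMk h2

theorem continuous_dmk {P : Type} [TopologicalSpace P] {a b : P → A} (h1 : Continuous a)
    (h2 : Continuous b) : Continuous fun p => dmk (a p) (b p) :=
  h1.prodMk h2

/-- Graded commutation of two pairs. -/
structure GC (p q : DualNumber A) : Prop where
  ff : Commute p.fst q.fst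
  fs : Commute p.fst q.snd
  sf : Commute p.snd q.fst
  ss : p.snd * q.snd = -(q.snd * p.snd)

theorem GC.symm {p q : DualNumber A} (h : GC p q) : GC q p :=
  ⟨h.ff.symm, h.sf.symm, h.fs.symm, by rw [h.ss, neg_neg]⟩

theorem GC.commute {p q : DualNumber A} (h : GC p q) : Commute p q :=
  TrivSqZeroExt.ext h.ff.eq (by rw [dsnd_mul, dsnd_mul, h.fs.eq, h.sf.eq, add_comm])

theorem GC.one_right (p : DualNumber A) : GC p 1 :=
  ⟨Commute.one_right _, Commute.zero_right _, Commute.one_right _, by simp⟩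

theorem GC.mul_right {p q q' : DualNumber A} (h : GC p q) (h' : GC p q') : GC p (q * q') where
  ff := h.ff.mul_right h'.ff
  fs := (h.ff.mul_right h'.fs).add_right (h.fs.mul_right h'.ff)
  sf := h.sf.mul_right h'.sf
  ss := by
    rw [dsnd_mul, mul_add, add_mul, ← mul_assoc, h.sf.eq, mul_assoc, h'.ss, ← mul_assoc p.snd,
      h.ss, neg_mul, mul_assoc q.snd, h'.sf.eq]
    simp only [mul_neg, mul_assoc, neg_add]

theorem GC.mul_left {p p' q : DualNumber A} (h : GC p q) (h' : GC p' q) : GC (p * p') q :=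
  (h.symm.mul_right h'.symm).symm

theorem GC.list_prod {p : DualNumber A} {l : List (DualNumber A)} (h : ∀ q ∈ l, GC p q) :
    GC p l.prod := by
  induction l with
  | nil => exact GC.one_right p
  | cons q l ih =>
    rw [List.prod_cons]
    exact (h q List.mem_cons_self).mul_right (ih fun r hr => h r (List.mem_cons_of_mem _ hr))

theorem GC.dmk_zero {p : DualNumber A} {a : A} (h1 : Commute p.fst a) (h2 : Commute p.snd a) :
    GC p (dmk a 0) :=
  ⟨h1, Commute.zero_right _, h2, by simp⟩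

theorem GC.map {p q : DualNumber A} (h : GC p q) (φ : A →⋆ₐ[ℂ] B) : GC (dmap φ p) (dmap φ q) :=
  ⟨h.ff.map φ, h.fs.map φ, h.sf.map φ, by
    rw [dmap_snd, dmap_snd, ← map_mul, h.ss, map_neg, map_mul]⟩

theorem IsGP.dmul {p q : DualNumber A} (hp : IsGP p.fst p.snd) (hq : IsGP q.fst q.snd)
    (h : GC p q) : IsGP (p * q).fst (p * q).snd := by
  rw [dfst_mul, dsnd_mul, add_comm]
  exact hp.mul hq h.ff h.fs h.sf h.ss

theorem IsGP.map {a b : A} (h : IsGP a b) (φ : A →⋆ₐ[ℂ] B) : IsGP (φ a) (φ b) := by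
  have h1 := (h.shom.post φ.toNonUnitalStarAlgHom).isGP
  rwa [SHom.post_app, SHom.post_app, h.shom_e1, h.shom_e2] at h1

theorem isGP_proj {a : A} (h : IsStarProjection a) : IsGP a 0 := by
  refine ⟨h.isSelfAdjoint, IsSelfAdjoint.zero A, Commute.zero_right _, fun z hz => ?_⟩
  rw [smul_zero, add_zero] at hz
  rcases h.isIdempotentElem.quasispectrum_subset ℂ hz with rfl | rfl
  · exact zero_mem_Gam
  · simp [Gam]

theorem IsGP.norm_fst_le {a b : A} (h : IsGP a b) : ‖a‖ ≤ 1 :=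
  h.shom_e1 ▸ (h.shom.norm_app_le e1).trans norm_e1_le

theorem IsGP.norm_snd_le {a b : A} (h : IsGP a b) : ‖b‖ ≤ 1 :=
  h.shom_e2 ▸ (h.shom.norm_app_le e2).trans norm_e2_le

end Dual

variable {U V U' V' U'' V'' : Type}
  [NormedAddCommGroup U] [InnerProductSpace ℝ U] [FiniteDimensional ℝ U]
  [NormedAddCommGroup V] [InnerProductSpace ℝ V] [FiniteDimensional ℝ V]
  [NormedAddCommGroup U'] [InnerProductSpace ℝ U'] [FiniteDimensional ℝ U']
  [NormedAddCommGroup V'] [InnerProductSpace ℝ V'] [FiniteDimensional ℝ V']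
  [NormedAddCommGroup U''] [InnerProductSpace ℝ U''] [FiniteDimensional ℝ U'']
  [NormedAddCommGroup V''] [InnerProductSpace ℝ V''] [FiniteDimensional ℝ V'']

variable (U V) in
/-- Pairs of operators. -/
abbrev DOp : Type := DualNumber (Op U V)

/-- A pair of values of a graded star homomorphism. -/
structure IsEP (p : DOp U V) : Prop where
  gp : IsGP p.fst p.snd
  ev : al U V p.fst = p.fst
  od : al U V p.snd = -p.snd

/-- A pair of values of a graded star homomorphism with values in `KA`. -/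
structure IsKP (p : DOp U V) : Prop where
  ep : IsEP p
  m1 : p.fst ∈ KA U V
  m2 : p.snd ∈ KA U V

theorem IsEP.one : IsEP (1 : DOp U V) :=
  ⟨isGP_proj (IsStarProjection.one _), map_one _, by simp⟩

theorem IsEP.mul {p q : DOp U V} (hp : IsEP p) (hq : IsEP q) (h : GC p q) : IsEP (p * q) :=
  ⟨hp.gp.dmul hq.gp h, by rw [dfst_mul, map_mul, hp.ev, hq.ev], by
    rw [dsnd_mul, map_add, map_mul, map_mul, hp.ev, hq.ev, hp.od, hq.od, mul_neg, neg_mul,
      neg_add]⟩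

theorem IsEP.list_prod {l : List (DOp U V)} (h : ∀ p ∈ l, IsEP p) (hl : l.Pairwise GC) :
    IsEP l.prod := by
  induction l with
  | nil => exact IsEP.one
  | cons p l ih =>
    rw [List.pairwise_cons] at hl
    rw [List.prod_cons]
    exact (h p List.mem_cons_self).mul (ih (fun q hq => h q (List.mem_cons_of_mem _ hq)) hl.2)
      (GC.list_prod hl.1)

theorem IsEP.lam {p : DOp U V} (hp : IsEP p) (k : U →ₗᵢ[ℝ] U') (j : V →ₗᵢ[ℝ] V') :
    IsEP (dmap (lam k j) p) :=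
  ⟨hp.gp.map _, by rw [dmap_fst, al_lam, hp.ev], by rw [dmap_snd, al_lam, hp.od, map_neg]⟩

theorem IsEP.proj {a : Op U V} (h : IsStarProjection a) (ha : al U V a = a) : IsEP (dmk a 0) :=
  ⟨isGP_proj h, ha, by simp⟩

theorem isEP_vac (j : V →ₗᵢ[ℝ] V') : IsEP (dmk (vac U' j) 0) :=
  IsEP.proj (isStarProjection_vac j) (al_vac j)

theorem isEP_lm {d : Cl U} (hd : IsStarProjection d) (he : hat d = d) : IsEP (dmk (lm V d) 0) :=
  IsEP.proj (hd.map (lmHom U V)) (by rw [al_lm, he])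

theorem IsKP.zero : IsKP (0 : DOp U V) :=
  ⟨IsEP.proj (IsStarProjection.zero _) (map_zero _), KA.zero_mem, KA.zero_mem⟩

variable (V) in
/-- The pair of the functional calculus of a Clifford generator. -/
def clif (w : U) : DOp U V :=
  dmk ((Real.exp (-‖w‖ ^ 2) : ℂ) • 1) ((Real.exp (-‖w‖ ^ 2) : ℂ) • lm V (cl w))

theorem isEP_clif (w : U) : IsEP (clif V w) :=
  ⟨isGP_clifford (isSelfAdjoint_lm_cl w) (sq_nonneg _) (lm_cl_mul_self w),
    by rw [clif, dmk_fst, map_smul, map_one],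
    by rw [clif, dmk_snd, map_smul, al_lm, hat_cl, lm_neg, smul_neg]⟩

omit [FiniteDimensional ℝ V] in
theorem clif_zero : clif V (0 : U) = 1 := by
  simp [clif, cl_zero, lm_zero, dmk_one]

omit [FiniteDimensional ℝ V] in
theorem clif_add {w w' : U} (h : inner ℝ w w' = 0) : clif V (w + w') = clif V w * clif V w' := by
  have h1 : ‖w + w'‖ ^ 2 = ‖w‖ ^ 2 + ‖w'‖ ^ 2 := by rw [norm_add_sq_real, h]; ring
  rw [clif, clif, clif, dmk_mul, h1, neg_add, Real.exp_add, cl_add, lm_add]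
  simp only [smul_mul_smul_comm, one_mul, mul_one, Complex.ofReal_mul, smul_add, add_comm]

omit [FiniteDimensional ℝ V'] in
theorem dmap_lam_clif (k : U →ₗᵢ[ℝ] U') (j : V →ₗᵢ[ℝ] V') (w : U) :
    dmap (lam k j) (clif V w) = clif V' (k w) := by
  rw [clif, clif, dmap_dmk, map_smul, map_smul, map_one, lam_lm, clMap_cl, k.norm_map]

omit [FiniteDimensional ℝ V] in
theorem continuous_clif : Continuous (clif V : U → DOp U V) := by
  have hc : Continuous fun w : U => ((Real.exp (-‖w‖ ^ 2) : ℝ) : ℂ) := by fun_prop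
  exact continuous_dmk (hc.smul continuous_const) (hc.smul (continuous_lm.comp continuous_cl))

omit [FiniteDimensional ℝ V] in
theorem GC.clif_of {p : DOp U V} {w : U} (h1 : Commute p.fst (lm V (cl w)))
    (h2 : p.snd * lm V (cl w) = -(lm V (cl w) * p.snd)) : GC p (clif V w) :=
  ⟨(Commute.one_right _).smul_right _, h1.smul_right _, (Commute.one_right _).smul_right _, by
    rw [clif, dmk_snd, mul_smul_comm, smul_mul_assoc, h2, smul_neg]⟩

omit [FiniteDimensional ℝ V'] in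
theorem gc_lam_clif {p : DOp U V} (hp : IsEP p) (k : U →ₗᵢ[ℝ] U') (j : V →ₗᵢ[ℝ] V') {w : U'}
    (hw : Perp k w) : GC (dmap (lam k j) p) (clif V' w) :=
  GC.clif_of (by rw [Commute, SemiconjBy, dmap_fst, lm_cl_mul_lam k j hw, hp.ev])
    (by rw [dmap_snd, lm_cl_mul_lam k j hw, hp.od, map_neg, neg_mul, neg_neg])

omit [FiniteDimensional ℝ V] in
theorem gc_clif_clif {w w' : U} (h : inner ℝ w w' = 0) : GC (clif V w) (clif V w') :=
  GC.clif_of ((Commute.one_left _).smul_left _) (by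
    rw [clif, dmk_snd, smul_mul_assoc, mul_smul_comm, ← lm_mul, ← lm_mul, cl_anticomm h, lm_neg,
      smul_neg])

omit [FiniteDimensional ℝ V'] in
theorem gc_lam_vac (p : DOp U V) (k : U →ₗᵢ[ℝ] U') (j : V →ₗᵢ[ℝ] V') :
    GC (dmap (lam k j) p) (dmk (vac U' j) 0) :=
  GC.dmk_zero (commute_lam_vac k j _) (commute_lam_vac k j _)

omit [FiniteDimensional ℝ V'] in
theorem gc_clif_vac (j : V →ₗᵢ[ℝ] V') (w : U') : GC (clif V' w) (dmk (vac U' j) 0) :=
  GC.dmk_zero ((Commute.one_left _).smul_left _) ((commute_lm_vac j _).smul_left _)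

omit [FiniteDimensional ℝ V] in
theorem gc_clif_lm {w : U} {d : Cl U} (h : Commute (cl w) d) : GC (clif V w) (dmk (lm V d) 0) :=
  GC.dmk_zero ((Commute.one_left _).smul_left _) ((h.map (lmHom U V)).smul_left _)

omit [FiniteDimensional ℝ V'] in
theorem gc_vac_lm (j : V →ₗᵢ[ℝ] V') (d : Cl U') : GC (dmk (vac U' j) 0) (dmk (lm V' d) 0) :=
  GC.dmk_zero (commute_lm_vac j d).symm (Commute.zero_left _)

omit [FiniteDimensional ℝ V'] in
theorem gc_lam_lm {p : DOp U V} (hp : IsKP p) (k : U →ₗᵢ[ℝ] U') (j : V →ₗᵢ[ℝ] V') {d : Cl U'}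
    (hd : ∀ c, Commute (clMap k c) d) : GC (dmap (lam k j) p) (dmk (lm V' d) 0) :=
  GC.dmk_zero (commute_lm_lam_of_mem k j hd hp.m1) (commute_lm_lam_of_mem k j hd hp.m2)

omit [FiniteDimensional ℝ V''] in
theorem gc_lam_lam {p : DOp U V} (hp : IsKP p) {q : DOp U' V'} (hq : IsEP q)
    (k : U →ₗᵢ[ℝ] U'') (j : V →ₗᵢ[ℝ] V'') (k' : U' →ₗᵢ[ℝ] U'') (j' : V' →ₗᵢ[ℝ] V'')
    (hk : ∀ v w, inner ℝ (k v) (k' w) = 0) (hj : ∀ v w, inner ℝ (j v) (j' w) = 0) :
    GC (dmap (lam k j) p) (dmap (lam k' j') q) :=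
  ⟨commute_lam_of_even k j k' j' hk hj hp.m1 hq.ev,
    by rw [Commute, SemiconjBy, dmap_fst, dmap_snd,
      lam_mul_lam_of_odd k j k' j' hk hj hp.m1 hq.od, hp.ep.ev],
    commute_lam_of_even k j k' j' hk hj hp.m2 hq.ev,
    by rw [dmap_snd, dmap_snd, lam_mul_lam_of_odd k j k' j' hk hj hp.m2 hq.od, hp.ep.od,
      map_neg, mul_neg]⟩

variable (U V) in
/-- Graded star homomorphisms with values in `KA`. -/
abbrev GK : Type := GHom (KA U V) (gradG U V)

/-- The reflection of the line acting on functions. -/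
def rfl0 : C₀(ℝ, ℂ) →⋆ₙₐ[ℂ] C₀(ℝ, ℂ) where
  toFun f := f.comp (Homeomorph.neg ℝ).toCocompactMap
  map_smul' _ _ := rfl
  map_zero' := rfl
  map_add' _ _ := rfl
  map_mul' _ _ := rfl
  map_star' _ := rfl

theorem rfl0_apply (f : C₀(ℝ, ℂ)) (t : ℝ) : rfl0 f t = f (-t) := rfl

theorem rfl0_e1 : rfl0 e1 = e1 := by
  ext t; rw [rfl0_apply, e1_apply, e1_apply, neg_sq]

theorem rfl0_e2 : rfl0 e2 = -e2 := by
  ext t
  rw [rfl0_apply, ZeroAtInftyContinuousMap.neg_apply, e2_apply, e2_apply, neg_sq, neg_mul,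
    Complex.ofReal_neg]

namespace GK

/-- The pair of values on the generators. -/
def pr (x : GK U V) : DOp U V := dmk (x.app e1) (x.app e2)

omit [FiniteDimensional ℝ V] in
theorem pr_fst (x : GK U V) : x.pr.fst = x.app e1 := rfl

omit [FiniteDimensional ℝ V] in
theorem pr_snd (x : GK U V) : x.pr.snd = x.app e2 := rfl

omit [FiniteDimensional ℝ V] in
theorem pr_zero : pr (GHom.zero _ _ : GK U V) = 0 := rfl

omit [FiniteDimensional ℝ V] in
theorem ext_pr {x y : GK U V} (h : x.pr = y.pr) : x = y :=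
  Subtype.ext (SHom.ext_e (congrArg TrivSqZeroExt.fst h) (congrArg TrivSqZeroExt.snd h))

omit [FiniteDimensional ℝ V] in
theorem app_mem (x : GK U V) (f : C₀(ℝ, ℂ)) : x.app f ∈ KA U V := by
  rcases x.2 with h | h
  · rw [GHom.app, h]; exact KA.zero_mem
  · exact h.1 f

theorem al_app (x : GK U V) (f : C₀(ℝ, ℂ)) : al U V (x.app f) = x.app (rfl0 f) := by
  rcases x.2 with h | h
  · rw [GHom.app, GHom.app, h]; exact map_zero _
  · rw [← gradG_eq (x.app_mem f)]
    exact (h.2 f _ (rfl0_apply f)).symm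

theorem isKP (x : GK U V) : IsKP x.pr :=
  ⟨⟨x.1.isGP, by rw [pr_fst, al_app, rfl0_e1], by
    rw [pr_snd, al_app, rfl0_e2]; exact x.1.app_neg e2⟩, x.app_mem e1, x.app_mem e2⟩

/-- The graded star homomorphism of a pair. -/
def mk {p : DOp U V} (h : IsKP p) : GK U V :=
  ⟨h.ep.gp.shom, Or.inr (by
    have hm : ∀ f, h.ep.gp.shom.app f ∈ KA U V := h.ep.gp.shom.app_mem (KAs U V) isClosed_KA
      (by rw [IsGP.shom_e1]; exact h.m1) (by rw [IsGP.shom_e2]; exact h.m2)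
    refine ⟨hm, fun f g hg => ?_⟩
    obtain rfl : g = rfl0 f := ZeroAtInftyContinuousMap.ext hg
    have h1 : (show SHom C₀(ℝ, ℂ) (Op U V) from h.ep.gp.shom.hom.comp rfl0) =
        h.ep.gp.shom.post (al U V).toNonUnitalStarAlgHom := by
      refine SHom.ext_e ?_ ?_
      · change h.ep.gp.shom.app (rfl0 e1) = al U V (h.ep.gp.shom.app e1)
        rw [rfl0_e1, IsGP.shom_e1, h.ep.ev]
      · change h.ep.gp.shom.app (rfl0 e2) = al U V (h.ep.gp.shom.app e2)
        rw [rfl0_e2, SHom.app_neg, IsGP.shom_e2, h.ep.od]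
    rw [gradG_eq (hm f)]
    exact congrArg (fun z : SHom C₀(ℝ, ℂ) (Op U V) => z.app f) h1)⟩

theorem pr_mk {p : DOp U V} (h : IsKP p) : (mk h).pr = p :=
  TrivSqZeroExt.ext h.ep.gp.shom_e1 h.ep.gp.shom_e2

omit [FiniteDimensional ℝ V] in
theorem continuous_app (f : C₀(ℝ, ℂ)) : Continuous fun x : GK U V => x.app f :=
  (continuous_apply f).comp continuous_induced_dom

omit [FiniteDimensional ℝ V] in
theorem continuous_pr : Continuous (pr : GK U V → DOp U V) :=
  continuous_dmk (continuous_app e1) (continuous_app e2)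

omit [FiniteDimensional ℝ V] in
theorem continuous_of_pr {P : Type} [TopologicalSpace P] {x : P → GK U V}
    (h : Continuous fun p => (x p).pr) : Continuous x :=
  continuous_induced_rng.2 (continuous_pi fun f => continuous_shom_app (x := fun p => (x p).1)
    (TrivSqZeroExt.continuous_fst.comp h) (TrivSqZeroExt.continuous_snd.comp h) f)

omit [FiniteDimensional ℝ V] in
theorem isEmbedding_pr : Topology.IsEmbedding (pr : GK U V → DOp U V) :=
  ⟨⟨le_antisymm continuous_pr.le_induced (continuous_id_iff_le.1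
    (@continuous_of_pr U V _ _ _ _ _ _ (TopologicalSpace.induced pr inferInstance) id
      continuous_induced_dom))⟩, fun _ _ => ext_pr⟩

end GK

end Pool.Agent.Lib.E2
end
end

-- part Pool.Agent.Lib.MP_10be03_gt.KAct
section

/-!
The structure maps of Clifford K-theory spectra on pairs.
-/

noncomputable section
open scoped ZeroAtInfty OnePoint
open TrivSqZeroExt

namespace Pool.Agent.Lib.E2

variable {U V U' V' U'' V'' W : Type}
  [NormedAddCommGroup U] [InnerProductSpace ℝ U] [FiniteDimensional ℝ U]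
  [NormedAddCommGroup V] [InnerProductSpace ℝ V] [FiniteDimensional ℝ V]
  [NormedAddCommGroup U'] [InnerProductSpace ℝ U'] [FiniteDimensional ℝ U']
  [NormedAddCommGroup V'] [InnerProductSpace ℝ V'] [FiniteDimensional ℝ V']
  [NormedAddCommGroup U''] [InnerProductSpace ℝ U''] [FiniteDimensional ℝ U'']
  [NormedAddCommGroup V''] [InnerProductSpace ℝ V''] [FiniteDimensional ℝ V'']
  [NormedAddCommGroup W] [InnerProductSpace ℝ W]

/-- Extension of a pair along isometries, by the vacuum projection on the complement of `j`. -/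
def extP (k : U →ₗᵢ[ℝ] U') (j : V →ₗᵢ[ℝ] V') (p : DOp U V) : DOp U' V' :=
  dmap (lam k j) p * dmk (vac U' j) 0

omit [FiniteDimensional ℝ V'] in
theorem extP_fst (k : U →ₗᵢ[ℝ] U') (j : V →ₗᵢ[ℝ] V') (p : DOp U V) :
    (extP k j p).fst = lam k j p.fst * vac U' j := rfl

omit [FiniteDimensional ℝ V'] in
theorem extP_snd (k : U →ₗᵢ[ℝ] U') (j : V →ₗᵢ[ℝ] V') (p : DOp U V) :
    (extP k j p).snd = lam k j p.snd * vac U' j := by
  rw [extP, dsnd_mul, dmk_snd, mul_zero, zero_add]; rfl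

theorem IsKP.extP {p : DOp U V} (hp : IsKP p) (k : U →ₗᵢ[ℝ] U') (j : V →ₗᵢ[ℝ] V') :
    IsKP (extP k j p) :=
  ⟨(hp.ep.lam k j).mul (isEP_vac j) (gc_lam_vac p k j), lam_mul_vac_mem k j hp.m1,
    by rw [extP_snd]; exact lam_mul_vac_mem k j hp.m2⟩

theorem IsKP.lam {p : DOp U V} (hp : IsKP p) (k : U →ₗᵢ[ℝ] U') {j : V →ₗᵢ[ℝ] V'}
    (hj : Function.Surjective j) : IsKP (dmap (lam k j) p) :=
  ⟨hp.ep.lam k j, lam_mem_of_surj k hj hp.m1, lam_mem_of_surj k hj hp.m2⟩

theorem IsKP.mul_clif {p : DOp U V} (hp : IsKP p) {w : U} (h : GC p (clif V w)) :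
    IsKP (p * clif V w) :=
  ⟨hp.ep.mul (isEP_clif w) h, by
    rw [dfst_mul, clif, dmk_fst, mul_smul_comm, mul_one]; exact KA.smul_mem _ hp.m1, by
    rw [dsnd_mul, clif, dmk_fst, dmk_snd, mul_smul_comm, mul_smul_comm, mul_one]
    exact KA.add_mem (KA.smul_mem _ (KA.mul_lm hp.m1 _)) (KA.smul_mem _ hp.m2)⟩

theorem IsKP.mul_lm {p : DOp U V} (hp : IsKP p) {d : Cl U} (hd : IsStarProjection d)
    (he : hat d = d) (h : GC p (dmk (lm V d) 0)) : IsKP (p * dmk (lm V d) 0) :=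
  ⟨hp.ep.mul (isEP_lm hd he) h, KA.mul_lm hp.m1 d, by
    rw [dsnd_mul, dmk_snd, mul_zero, zero_add]; exact KA.mul_lm hp.m2 d⟩

omit [FiniteDimensional ℝ V'] in
theorem extP_zero (k : U →ₗᵢ[ℝ] U') (j : V →ₗᵢ[ℝ] V') : extP k j 0 = 0 := by
  rw [extP, dmap_zero, zero_mul]

theorem extP_of_id {k : U →ₗᵢ[ℝ] U} {j : V →ₗᵢ[ℝ] V} (hk : ∀ u, k u = u) (hj : ∀ v, j v = v)
    (p : DOp U V) : extP k j p = p := by
  rw [extP, vac_of_surjective fun v => ⟨v, hj v⟩, dmk_one, mul_one]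
  exact TrivSqZeroExt.ext (lam_of_id hk hj _) (lam_of_id hk hj _)

omit [FiniteDimensional ℝ V''] in
theorem dmap_lam_lam {k : U →ₗᵢ[ℝ] U'} {j : V →ₗᵢ[ℝ] V'} {k' : U' →ₗᵢ[ℝ] U''}
    {j' : V' →ₗᵢ[ℝ] V''} {k'' : U →ₗᵢ[ℝ] U''} {j'' : V →ₗᵢ[ℝ] V''} (hk : ∀ u, k'' u = k' (k u))
    (hj : ∀ v, j'' v = j' (j v)) (p : DOp U V) :
    dmap (lam k' j') (dmap (lam k j) p) = dmap (lam k'' j'') p :=
  dmap_dmap (lam_lam' hk hj) p

theorem dmap_lam_of_id {k : U →ₗᵢ[ℝ] U} {j : V →ₗᵢ[ℝ] V} (hk : ∀ u, k u = u) (hj : ∀ v, j v = v)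
    (p : DOp U V) : dmap (lam k j) p = p :=
  TrivSqZeroExt.ext (lam_of_id hk hj _) (lam_of_id hk hj _)

omit [FiniteDimensional ℝ V''] in
theorem extP_extP {k : U →ₗᵢ[ℝ] U'} {j : V →ₗᵢ[ℝ] V'} {k' : U' →ₗᵢ[ℝ] U''}
    {j' : V' →ₗᵢ[ℝ] V''} {k'' : U →ₗᵢ[ℝ] U''} {j'' : V →ₗᵢ[ℝ] V''} (hk : ∀ u, k'' u = k' (k u))
    (hj : ∀ v, j'' v = j' (j v)) (p : DOp U V) : extP k' j' (extP k j p) = extP k'' j'' p := by
  rw [extP, extP, extP, map_mul, dmap_lam_lam hk hj, dmap_dmk_zero, mul_assoc, ← dmk_mul_zero,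
    ← vac_comp, vac_congr (j := j'') (j' := j'.comp j) hj]

theorem dmap_lam_id_extP {k : U →ₗᵢ[ℝ] U'} (j : V →ₗᵢ[ℝ] V') {k' : U' →ₗᵢ[ℝ] U''}
    {k'' : U →ₗᵢ[ℝ] U''} (hk : ∀ u, k'' u = k' (k u)) (p : DOp U V) :
    dmap (lam k' LinearIsometry.id) (extP k j p) = extP k'' j p := by
  rw [extP, extP, map_mul, dmap_lam_lam hk (j'' := j) fun _ => rfl, dmap_dmk_zero, lam_id_vac]

omit [FiniteDimensional ℝ V'] in
theorem extP_dmap_lam_id {k : U →ₗᵢ[ℝ] U'} (j : V →ₗᵢ[ℝ] V') {k' : U' →ₗᵢ[ℝ] U''}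
    {k'' : U →ₗᵢ[ℝ] U''} (hk : ∀ u, k'' u = k' (k u)) (p : DOp U V) :
    extP k' j (dmap (lam k LinearIsometry.id) p) = extP k'' j p := by
  rw [extP, extP, dmap_lam_lam hk (j'' := j) fun _ => rfl]

omit [FiniteDimensional ℝ V'] in
theorem extP_mul_clif (k : U →ₗᵢ[ℝ] U') (j : V →ₗᵢ[ℝ] V') (p : DOp U V) (w : U) :
    extP k j (p * clif V w) = extP k j p * clif V' (k w) := by
  rw [extP, extP, map_mul, dmap_lam_clif, mul_assoc, (gc_clif_vac j (k w)).commute.eq, mul_assoc]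

omit [FiniteDimensional ℝ V'] in
theorem extP_mul_lm (k : U →ₗᵢ[ℝ] U') (j : V →ₗᵢ[ℝ] V') (p : DOp U V) (d : Cl U) :
    extP k j (p * dmk (lm V d) 0) = extP k j p * dmk (lm V' (clMap k d)) 0 := by
  rw [extP, extP, map_mul, dmap_dmk_zero, lam_lm, mul_assoc, ← (gc_vac_lm j _).commute.eq,
    mul_assoc]

omit [FiniteDimensional ℝ V'] in
theorem gc_extP_clif {p : DOp U V} (hp : IsEP p) (k : U →ₗᵢ[ℝ] U') (j : V →ₗᵢ[ℝ] V') {w : U'}
    (hw : Perp k w) : GC (extP k j p) (clif V' w) :=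
  (gc_lam_clif hp k j hw).mul_left (gc_clif_vac j w).symm

omit [FiniteDimensional ℝ V'] in
theorem continuous_extP {P : Type} [TopologicalSpace P] {k : P → U →ₗᵢ[ℝ] U'}
    {j : P → V →ₗᵢ[ℝ] V'} (hk : ∀ v, Continuous fun p => k p v)
    (hj : ∀ v, Continuous fun p => j p v) {x : P → DOp U V} (hx : Continuous x)
    (hm : ∀ p, IsKP (x p)) : Continuous fun p => extP (k p) (j p) (x p) :=
  continuous_dual
    (continuous_lam_mul_vac hk hj (TrivSqZeroExt.continuous_fst.comp hx) fun p => (hm p).m1)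
    (by
      simp only [extP_snd]
      exact continuous_lam_mul_vac hk hj (TrivSqZeroExt.continuous_snd.comp hx) fun p => (hm p).m2)

omit [FiniteDimensional ℝ V'] in
theorem continuous_dmap_lam {P : Type} [TopologicalSpace P] {k : P → U →ₗᵢ[ℝ] U'}
    (j : V →ₗᵢ[ℝ] V') (hk : ∀ v, Continuous fun p => k p v) {x : P → DOp U V} (hx : Continuous x)
    (hm : ∀ p, IsKP (x p)) : Continuous fun p => dmap (lam (k p) j) (x p) :=
  continuous_dual
    (continuous_lam j hk (TrivSqZeroExt.continuous_fst.comp hx) fun p => (hm p).m1)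
    (continuous_lam j hk (TrivSqZeroExt.continuous_snd.comp hx) fun p => (hm p).m2)

variable (V) in
/-- The Clifford pair of a point of the one point compactification. -/
def clifO (e : W →ₗᵢ[ℝ] U) (o : OnePoint W) : DOp U V := o.elim 0 fun w => clif V (e w)

omit [FiniteDimensional ℝ V] in
theorem clifO_infty (e : W →ₗᵢ[ℝ] U) : clifO V e ∞ = 0 := rfl

omit [FiniteDimensional ℝ V] in
theorem clifO_coe (e : W →ₗᵢ[ℝ] U) (w : W) : clifO V e w = clif V (e w) := rfl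

omit [FiniteDimensional ℝ V] in
theorem continuous_clifO [FiniteDimensional ℝ W] (e : W →ₗᵢ[ℝ] U) : Continuous (clifO V e) := by
  refine (OnePoint.continuous_iff _).2 ⟨?_, continuous_clif.comp e.continuous⟩
  have := FiniteDimensional.proper_real W
  have h0 : Filter.Tendsto (fun w : W => ‖w‖) (Filter.coclosedCompact W) (Filter.cocompact ℝ) := by
    rw [Filter.coclosedCompact_eq_cocompact]
    exact (tendsto_norm_cocompact_atTop (E := W)).mono_right atTop_le_cocompact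
  have h1 := (tendsto_gauss.comp h0).smul_const (1 : Op U V)
  have h2 : Filter.Tendsto (fun w : W => ((Real.exp (-‖e w‖ ^ 2) : ℝ) : ℂ) • lm V (cl (e w)))
      (Filter.coclosedCompact W) (nhds 0) := by
    refine squeeze_zero_norm (fun w => ?_) (by simpa using (tendsto_mul_gauss.comp h0).norm)
    rw [norm_smul, e.norm_map, mul_comm, Complex.ofReal_exp]
    refine mul_le_mul ((norm_lm_cl_le _).trans_eq (e.norm_map w)) (by simp) (norm_nonneg _)
      (norm_nonneg _)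
  rw [zero_smul] at h1
  exact (h1.congr fun w => by simp).prodMk_nhds h2

/-- The structure map on pairs. -/
def actO (k : U →ₗᵢ[ℝ] U') (j : V →ₗᵢ[ℝ] V') (e : W →ₗᵢ[ℝ] U') (o : OnePoint W) (p : DOp U V) :
    DOp U' V' := extP k j p * clifO V' e o

omit [FiniteDimensional ℝ V'] in
theorem actO_infty (k : U →ₗᵢ[ℝ] U') (j : V →ₗᵢ[ℝ] V') (e : W →ₗᵢ[ℝ] U') (p : DOp U V) :
    actO k j e ∞ p = 0 := mul_zero _

omit [FiniteDimensional ℝ V'] in
theorem actO_coe (k : U →ₗᵢ[ℝ] U') (j : V →ₗᵢ[ℝ] V') (e : W →ₗᵢ[ℝ] U') (w : W) (p : DOp U V) :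
    actO k j e w p = extP k j p * clif V' (e w) := rfl

theorem IsKP.actO {p : DOp U V} (hp : IsKP p) (k : U →ₗᵢ[ℝ] U') (j : V →ₗᵢ[ℝ] V')
    (e : W →ₗᵢ[ℝ] U') {o : OnePoint W} (h : ∀ w : W, o = w → Perp k (e w)) :
    IsKP (actO k j e o p) := by
  induction o using OnePoint.rec with
  | infty => rw [actO_infty]; exact IsKP.zero
  | coe w => exact (hp.extP k j).mul_clif (gc_extP_clif hp.ep k j (h w rfl))

theorem Thom.iso_apply {n N : ℕ} (t : Thom n N) (v : E n) : t.iso v = t.map v := rfl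

theorem Thom.perp {n N : ℕ} (t : Thom n N) {w : E N} (h : t.pt = w) : Perp t.iso w :=
  fun v => (real_inner_comm _ _).trans (t.2.2 w h v)

theorem Thom.continuous_map {n N : ℕ} (v : E n) : Continuous fun t : Thom n N => t.iso v :=
  (_root_.continuous_fst.comp continuous_subtype_val).clm_apply continuous_const

theorem Thom.continuous_pt {n N : ℕ} : Continuous fun t : Thom n N => t.pt :=
  _root_.continuous_snd.comp continuous_subtype_val

/-- A family of spaces of pairs with structure maps `actO` is an orthogonal spectrum. -/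
theorem isO_of_pr (R : PreO) {X : ℕ → Type} [∀ n, NormedAddCommGroup (X n)]
    [∀ n, InnerProductSpace ℝ (X n)] [∀ n, FiniteDimensional ℝ (X n)]
    (e : ∀ n, E n →ₗᵢ[ℝ] X n) (κ : ∀ {n N}, (E n →ₗᵢ[ℝ] E N) → X n →ₗᵢ[ℝ] X N)
    (pr : ∀ n, R.X n → DOp (X n) (E n)) (emb : ∀ n, Topology.IsEmbedding (pr n))
    (kp : ∀ n x, IsKP (pr n x)) (pr_pt : ∀ n, pr n (R.pt n) = 0)
    (pr_act : ∀ {n N} (t : Thom n N) x,
      pr N (R.act t x) = actO (κ t.iso) t.iso (e N) t.pt (pr n x))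
    (κ_id : ∀ {n} (φ : E n →ₗᵢ[ℝ] E n), (∀ v, φ v = v) → ∀ u, κ φ u = u)
    (κ_comp : ∀ {n N M} (φ : E n →ₗᵢ[ℝ] E N) (φ' : E N →ₗᵢ[ℝ] E M) (φ'' : E n →ₗᵢ[ℝ] E M),
      (∀ v, φ'' v = φ' (φ v)) → ∀ u, κ φ'' u = κ φ' (κ φ u))
    (κ_e : ∀ {n N} (φ : E n →ₗᵢ[ℝ] E N) v, κ φ (e n v) = e N (φ v))
    (κ_cont : ∀ {n N} u, Continuous fun t : Thom n N => κ t.iso u) : IsO R where
  cont n N := (emb N).continuous_iff.2 (by
    simp only [Function.comp_def, pr_act, actO]
    exact (continuous_extP (fun u => (κ_cont u).comp _root_.continuous_fst)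
      (fun v => (Thom.continuous_map v).comp _root_.continuous_fst)
      ((emb n).continuous.comp _root_.continuous_snd) fun p => kp n _).mul
      ((continuous_clifO _).comp (Thom.continuous_pt.comp _root_.continuous_fst)))
  act_pt t := (emb _).injective (by rw [pr_act, pr_pt, pr_pt, actO, extP_zero, zero_mul])
  act_inf t x h := (emb _).injective (by rw [pr_act, h, actO_infty, pr_pt])
  act_id t x h h' := (emb _).injective (by
    rw [pr_act, h', actO_coe, map_zero, clif_zero, mul_one, extP_of_id (κ_id _ h) h])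
  act_comp t t' t'' w w' x h h' h1 h2 := (emb _).injective (by
    rw [pr_act, pr_act, pr_act, h, h', h2, actO_coe, actO_coe, actO_coe, extP_mul_clif,
      extP_extP (κ_comp t.iso t'.iso t''.iso h1) (j := t.iso) (j' := t'.iso) (j'' := t''.iso) h1,
      κ_e, mul_assoc, ← clif_add, ← map_add, add_comm w']
    · rfl
    · rw [LinearIsometry.inner_map_map]; exact t'.perp h' w)

/-- Extension of the Clifford part of a pair, cut down by a projection. -/
def pushP (k : U →ₗᵢ[ℝ] U') (d : Cl U') (p : DOp U V) : DOp U' V :=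
  dmap (lam k LinearIsometry.id) p * dmk (lm V d) 0

theorem pushP_fst (k : U →ₗᵢ[ℝ] U') (d : Cl U') (p : DOp U V) :
    (pushP k d p).fst = lam k LinearIsometry.id p.fst * lm V d := rfl

theorem pushP_snd (k : U →ₗᵢ[ℝ] U') (d : Cl U') (p : DOp U V) :
    (pushP k d p).snd = lam k LinearIsometry.id p.snd * lm V d := by
  rw [pushP, dsnd_mul, dmk_snd, mul_zero, zero_add]; rfl

theorem IsKP.pushP {p : DOp U V} (hp : IsKP p) (k : U →ₗᵢ[ℝ] U') {d : Cl U'}
    (hd : IsStarProjection d) (he : hat d = d) (h : ∀ c, Commute (clMap k c) d) :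
    IsKP (pushP k d p) :=
  (hp.lam k Function.surjective_id).mul_lm hd he (gc_lam_lm hp k _ h)

theorem pushP_zero (k : U →ₗᵢ[ℝ] U') (d : Cl U') : pushP k d (0 : DOp U V) = 0 := by
  rw [pushP, dmap_zero, zero_mul]

theorem pushP_one (k : U →ₗᵢ[ℝ] U') (p : DOp U V) :
    pushP k 1 p = dmap (lam k LinearIsometry.id) p := by
  rw [pushP, lm_one, dmk_one, mul_one]

omit [FiniteDimensional ℝ V'] in
theorem dmap_lam_pushP (k : U →ₗᵢ[ℝ] U') (d : Cl U') (k' : U' →ₗᵢ[ℝ] U'') (j : V →ₗᵢ[ℝ] V')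
    {k'' : U →ₗᵢ[ℝ] U''} (hk : ∀ u, k'' u = k' (k u)) (p : DOp U V) :
    dmap (lam k' j) (pushP k d p) = dmap (lam k'' j) p * dmk (lm V' (clMap k' d)) 0 := by
  rw [pushP, map_mul, dmap_lam_lam hk (j'' := j) fun _ => rfl, dmap_dmk_zero, lam_lm]

theorem pushP_pushP (k : U →ₗᵢ[ℝ] U') (d : Cl U') (k' : U' →ₗᵢ[ℝ] U'') (d' : Cl U'')
    {k'' : U →ₗᵢ[ℝ] U''} (hk : ∀ u, k'' u = k' (k u)) (p : DOp U V) :
    pushP k' d' (pushP k d p) = pushP k'' (clMap k' d * d') p := by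
  rw [pushP, dmap_lam_pushP k d k' _ hk, mul_assoc, ← dmk_mul_zero, ← lm_mul, pushP]

theorem continuous_pushP {P : Type} [TopologicalSpace P] {k : P → U →ₗᵢ[ℝ] U'}
    (hk : ∀ v, Continuous fun p => k p v) {d : P → Cl U'} (hd : Continuous d) {x : P → DOp U V}
    (hx : Continuous x) (hm : ∀ p, IsKP (x p)) : Continuous fun p => pushP (k p) (d p) (x p) :=
  (continuous_dmap_lam _ hk hx hm).mul (continuous_dmk (continuous_lm.comp hd) continuous_const)

/-- The structure maps commute with `pushP`. -/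
theorem pushP_actO {U₁ : Type} [NormedAddCommGroup U₁] [InnerProductSpace ℝ U₁]
    [FiniteDimensional ℝ U₁] {κ : U →ₗᵢ[ℝ] U'} {k : U' →ₗᵢ[ℝ] U''} {k₁ : U →ₗᵢ[ℝ] U₁}
    {κ₁ : U₁ →ₗᵢ[ℝ] U''} (h : ∀ u, k (κ u) = κ₁ (k₁ u)) (j : V →ₗᵢ[ℝ] V') {e : W →ₗᵢ[ℝ] U'}
    {e₁ : W →ₗᵢ[ℝ] U''} (he : ∀ w, k (e w) = e₁ w) (d : Cl U₁)
    (hd : ∀ w, Commute (cl (e₁ w)) (clMap κ₁ d)) (o : OnePoint W) (p : DOp U V) :
    pushP k (clMap κ₁ d) (actO κ j e o p) = actO κ₁ j e₁ o (pushP k₁ d p) := by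
  induction o using OnePoint.rec with
  | infty => rw [actO_infty, actO_infty, pushP_zero]
  | coe w =>
    rw [actO_coe, actO_coe, pushP, pushP, map_mul, dmap_lam_clif, he, extP_mul_lm,
      dmap_lam_id_extP j (k'' := k.comp κ) fun _ => rfl, extP_dmap_lam_id j (k'' := k.comp κ) h,
      mul_assoc, mul_assoc, (gc_clif_lm (hd w)).commute.eq]

end Pool.Agent.Lib.E2
end
end

-- part Pool.Agent.Lib.MP_10be03_gt.KProd
section

/-!
Products of finite commuting families; the multiplication of Clifford K-theory spectra on pairs.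
-/

noncomputable section
open TrivSqZeroExt

namespace Pool.Agent.Lib.E2

section OProd

variable {S T M N : Type} [Finite S] [Finite T] [Monoid M] [Monoid N]

variable (S) in
/-- A list of all elements of a finite type. -/
def lst : List S := (@Finset.univ S (Fintype.ofFinite S)).toList

theorem nodup_lst : (lst S).Nodup := Finset.nodup_toList _

theorem mem_lst (s : S) : s ∈ lst S := Finset.mem_toList.2 (@Finset.mem_univ S (_) s)

theorem pairwise_lst {r : S → S → Prop} (h : ∀ s t, s ≠ t → r s t) : (lst S).Pairwise r :=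
  nodup_lst.imp (h _ _)

theorem sum_lst {A : Type} [AddCommMonoid A] (f : S → A) : ((lst S).map f).sum = ∑ᶠ s, f s := by
  let _ := Fintype.ofFinite S
  rw [finsum_eq_sum_of_fintype, lst, Finset.sum_map_toList]

/-- The product of a family indexed by a finite type, in some order. -/
def oprod (f : S → M) : M := ((lst S).map f).prod

theorem oprod_eq {f : S → M} (h : ∀ s t, s ≠ t → Commute (f s) (f t)) {l : List S} (h1 : l.Nodup)
    (h2 : ∀ s, s ∈ l) : oprod f = (l.map f).prod :=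
  (((List.perm_ext_iff_of_nodup nodup_lst h1).2 fun s => iff_of_true (mem_lst s) (h2 s)).map
    f).prod_eq' (List.pairwise_map.2 (pairwise_lst h))

theorem oprod_equiv (e : S ≃ T) {f : T → M} (h : ∀ s t, s ≠ t → Commute (f s) (f t)) :
    oprod f = oprod fun s => f (e s) := by
  rw [oprod_eq h (nodup_lst.map e.injective) fun t => List.mem_map.2
    ⟨e.symm t, mem_lst _, e.apply_symm_apply t⟩, List.map_map]
  rfl

theorem oprod_empty [IsEmpty S] (f : S → M) : oprod f = 1 :=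
  oprod_eq (l := []) (fun s => isEmptyElim s) List.nodup_nil fun s => isEmptyElim s

theorem oprod_unit (f : Unit → M) : oprod f = f () :=
  (oprod_eq (l := [()]) (fun _ _ h => absurd rfl h) (List.nodup_singleton _) (by simp)).trans
    (by simp)

theorem oprod_bool {f : Bool → M} (h : Commute (f true) (f false)) :
    oprod f = f true * f false :=
  (oprod_eq (l := [true, false]) (by
    rintro (_ | _) (_ | _) h'
    exacts [absurd rfl h', h.symm, h, absurd rfl h']) (by simp) (by simp)).trans (by simp)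

theorem oprod_sigma {T : S → Type} [∀ s, Finite (T s)] {f : (Σ s, T s) → M}
    (h : ∀ s t, s ≠ t → Commute (f s) (f t)) :
    oprod f = oprod fun s => oprod fun t => f ⟨s, t⟩ := by
  rw [oprod_eq h (nodup_lst.sigma fun s => nodup_lst (S := T s)) fun p =>
    List.mem_sigma.2 ⟨mem_lst _, mem_lst _⟩, List.sigma, List.map_flatMap, List.flatMap,
    List.prod_flatten, List.map_map]
  simp only [List.map_map]
  rfl

theorem map_oprod (φ : M →* N) (f : S → M) : φ (oprod f) = oprod fun s => φ (f s) := by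
  rw [oprod, map_list_prod, List.map_map]; rfl

omit [Finite S] in
theorem list_prod_mul {f g : S → M} {l : List S}
    (h : l.Pairwise fun s t => Commute (g s) (f t)) :
    (l.map fun s => f s * g s).prod = (l.map f).prod * (l.map g).prod := by
  induction l with
  | nil => simp
  | cons s l ih =>
    rw [List.pairwise_cons] at h
    have h1 : Commute (g s) (l.map f).prod := Commute.list_prod_right _ _ fun x hx => by
      obtain ⟨t, ht, rfl⟩ := List.mem_map.1 hx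
      exact h.1 t ht
    simp only [List.map_cons, List.prod_cons, ih h.2]
    rw [mul_assoc, ← mul_assoc (g s), h1.eq, mul_assoc, mul_assoc]

theorem oprod_mul {f g : S → M} (h : ∀ s t, s ≠ t → Commute (g s) (f t)) :
    (oprod fun s => f s * g s) = oprod f * oprod g := list_prod_mul (pairwise_lst h)

theorem oprod_eq_zero {M : Type} [MonoidWithZero M] {f : S → M} {s : S} (h : f s = 0) :
    oprod f = 0 := List.prod_eq_zero (List.mem_map.2 ⟨s, mem_lst s, h⟩)

theorem continuous_oprod {P : Type} [TopologicalSpace P] [TopologicalSpace M] [ContinuousMul M]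
    {f : P → S → M} (h : ∀ s, Continuous fun p => f p s) : Continuous fun p => oprod (f p) :=
  continuous_list_prod _ fun s _ => h s

/-- A multiplicative function on orthogonal sums. -/
theorem map_finsum_oprod {A : Type} [AddCommMonoid A] {F : A → M} {r : A → A → Prop}
    (h0 : F 0 = 1) (hF : ∀ a b, r a b → F (a + b) = F a * F b) (r0 : ∀ a, r a 0)
    (ra : ∀ a b c, r a b → r a c → r a (b + c)) {f : S → A} (h : ∀ s t, s ≠ t → r (f s) (f t)) :
    F (∑ᶠ s, f s) = oprod fun s => F (f s) := by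
  rw [← sum_lst, oprod]
  have h1 := pairwise_lst h
  generalize lst S = l at h1
  induction l with
  | nil => exact h0
  | cons s l ih =>
    rw [List.pairwise_cons] at h1
    have h2 : r (f s) (l.map f).sum :=
      List.sum_induction _ (ra _) (r0 _) fun x hx => by
        obtain ⟨t, ht, rfl⟩ := List.mem_map.1 hx
        exact h1.1 t ht
    simp only [List.map_cons, List.sum_cons, List.prod_cons, hF _ _ h2, ih h1.2]

end OProd

variable {S : Type} {Us Vs Us' Vs' : S → Type} {U V U' V' : Type}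
  [∀ s, NormedAddCommGroup (Us s)] [∀ s, InnerProductSpace ℝ (Us s)]
  [∀ s, FiniteDimensional ℝ (Us s)]
  [∀ s, NormedAddCommGroup (Vs s)] [∀ s, InnerProductSpace ℝ (Vs s)]
  [∀ s, FiniteDimensional ℝ (Vs s)]
  [∀ s, NormedAddCommGroup (Us' s)] [∀ s, InnerProductSpace ℝ (Us' s)]
  [∀ s, FiniteDimensional ℝ (Us' s)]
  [∀ s, NormedAddCommGroup (Vs' s)] [∀ s, InnerProductSpace ℝ (Vs' s)]
  [∀ s, FiniteDimensional ℝ (Vs' s)]
  [NormedAddCommGroup U] [InnerProductSpace ℝ U] [FiniteDimensional ℝ U]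
  [NormedAddCommGroup V] [InnerProductSpace ℝ V] [FiniteDimensional ℝ V]
  [NormedAddCommGroup U'] [InnerProductSpace ℝ U'] [FiniteDimensional ℝ U']
  [NormedAddCommGroup V'] [InnerProductSpace ℝ V'] [FiniteDimensional ℝ V']

/-- Isometries with pairwise orthogonal images. -/
def Ort (k : ∀ s, Us s →ₗᵢ[ℝ] U) : Prop := ∀ s t, s ≠ t → ∀ v w, inner ℝ (k s v) (k t w) = 0

omit [FiniteDimensional ℝ V'] in
theorem lam_kv_gen (k : U →ₗᵢ[ℝ] U') (j : V →ₗᵢ[ℝ] V') {T : Op U V} {u u' : V} {r : ℂ} {a : Cl U}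
    (h : ∀ c, T.ap (kv u c) = r • kv u' (a * c)) {w : V'} (hw : Perp j w) (e : Cl U') :
    (lam k j T).ap (kv (j u + w) e) = r • kv (j u' + w) (clMap k a * e) := by
  induction e using cl_dec_induction k with
  | h0 c d hd =>
    rw [← emb_kv k j d hw, lam_emb _ hd hw, h, map_smul, emb_kv k j d hw, map_mul, mul_assoc]
  | hadd x y hx hy => rw [kv_add, map_add, hx, hy, mul_add, kv_add, smul_add]
  | hsmul s x hx => rw [kv_smul, map_smul, hx, mul_smul_comm, kv_smul, smul_comm]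

omit [∀ s, FiniteDimensional ℝ (Vs s)] [FiniteDimensional ℝ V] in
theorem perp_list_sum {j : ∀ s, Vs s →ₗᵢ[ℝ] V} (hj : Ort j) {s : S} {l : List S} (hs : s ∉ l)
    (u : ∀ s, Vs s) : Perp (j s) (l.map fun t => j t (u t)).sum :=
  List.sum_induction _ (fun _ _ => Perp.add) (Perp.zero _) fun x hx => by
    obtain ⟨t, ht, rfl⟩ := List.mem_map.1 hx
    exact fun a => hj s t (fun h => hs (h ▸ ht)) a _

omit [FiniteDimensional ℝ V] in
theorem list_lam_kv (k : ∀ s, Us s →ₗᵢ[ℝ] U) {j : ∀ s, Vs s →ₗᵢ[ℝ] V} (hj : Ort j)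
    {T : ∀ s, Op (Us s) (Vs s)} {u u' : ∀ s, Vs s} {r : S → ℂ} {a : ∀ s, Cl (Us s)}
    (h : ∀ s c, (T s).ap (kv (u s) c) = r s • kv (u' s) (a s * c)) {l : List S} (hl : l.Nodup)
    {w : V} (hw : ∀ s ∈ l, Perp (j s) w) (e : Cl U) :
    (l.map fun s => lam (k s) (j s) (T s)).prod.ap (kv ((l.map fun s => j s (u s)).sum + w) e) =
      (l.map r).prod • kv ((l.map fun s => j s (u' s)).sum + w)
        ((l.map fun s => clMap (k s) (a s)).prod * e) := by
  induction l generalizing w with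
  | nil => simp [Op.one_ap]
  | cons s l ih =>
    rw [List.nodup_cons] at hl
    have h1 := ih hl.2 (w := j s (u s) + w) fun t ht => Perp.add
      (fun b => hj t s (fun h => hl.1 (h ▸ ht)) b _) (hw t (List.mem_cons_of_mem _ ht))
    simp only [List.map_cons, List.prod_cons, List.sum_cons]
    rw [Op.mul_ap, add_comm (j s (u s)), add_assoc, h1, map_smul, add_left_comm,
      lam_kv_gen _ _ (h s) ((perp_list_sum hj hl.1 u').add (hw s List.mem_cons_self)), smul_smul,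
      mul_comm (r s), add_assoc, mul_assoc]

variable [Finite S]

omit [FiniteDimensional ℝ V] in
theorem oprod_lam_kv (k : ∀ s, Us s →ₗᵢ[ℝ] U) {j : ∀ s, Vs s →ₗᵢ[ℝ] V} (hj : Ort j)
    {T : ∀ s, Op (Us s) (Vs s)} {u u' : ∀ s, Vs s} {r : S → ℂ} {a : ∀ s, Cl (Us s)}
    (h : ∀ s c, (T s).ap (kv (u s) c) = r s • kv (u' s) (a s * c)) (e : Cl U) :
    (oprod fun s => lam (k s) (j s) (T s)).ap (kv (∑ᶠ s, j s (u s)) e) =
      oprod r • kv (∑ᶠ s, j s (u' s)) ((oprod fun s => clMap (k s) (a s)) * e) := by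
  have h1 := list_lam_kv k hj h nodup_lst (fun s _ => Perp.zero _) e
  rwa [add_zero, add_zero, sum_lst, sum_lst] at h1

omit [∀ s, FiniteDimensional ℝ (Vs s)] [FiniteDimensional ℝ V] in
theorem inner_finsum {j : ∀ s, Vs s →ₗᵢ[ℝ] V} (hj : Ort j) (s : S) (v : Vs s) (u : ∀ s, Vs s) :
    inner ℝ (j s v) (∑ᶠ t, j t (u t)) = inner ℝ v (u s) := by
  have := Fintype.ofFinite S
  rw [finsum_eq_sum_of_fintype, inner_sum, Finset.sum_eq_single s (fun t _ ht => hj s t ht.symm _ _)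
    (fun h => absurd (Finset.mem_univ s) h), LinearIsometry.inner_map_map]

omit [FiniteDimensional ℝ V] in
theorem IsDec.exists_sum {j : ∀ s, Vs s →ₗᵢ[ℝ] V} (hj : IsDec j) (x : V) :
    ∃ u : ∀ s, Vs s, x = ∑ᶠ s, j s (u s) := by
  choose u w hw h using fun s => exists_dec (j s) x
  refine ⟨u, sub_eq_zero.1 (hj.2 _ fun s v => ?_)⟩
  change inner ℝ _ (j s v) = 0
  rw [real_inner_comm, inner_sub_right, inner_finsum hj.1, h s, inner_add_right, hw s,
    LinearIsometry.inner_map_map, add_zero, sub_self]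

omit [FiniteDimensional ℝ V] in
theorem oprod_lam_th (k : ∀ s, Us s →ₗᵢ[ℝ] U) {j : ∀ s, Vs s →ₗᵢ[ℝ] V} (hj : IsDec j)
    (v w : ∀ s, Vs s) (c : ∀ s, Cl (Us s)) :
    (oprod fun s => lam (k s) (j s) (th (v s) (w s) (c s))) =
      th (∑ᶠ s, j s (v s)) (∑ᶠ s, j s (w s)) (oprod fun s => clMap (k s) (c s)) :=
  Op.ext_kv fun x e => by
    obtain ⟨u, rfl⟩ := hj.exists_sum x
    rw [oprod_lam_kv k hj.1 fun s => th_kv (v s) (w s) (u s) (c s), th_kv,
      map_finsum_oprod (F := fun y => ex y (∑ᶠ s, j s (u s))) (r := fun _ _ => True)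
        (ex_zero_left _) (fun a b _ => ex_add_left a b _) (fun _ => trivial)
        (fun _ _ _ _ _ => trivial) fun _ _ _ => trivial]
    simp only [ex, inner_finsum hj.1]

omit [FiniteDimensional ℝ V'] in
theorem oprod_lam_vac (k : ∀ s, Us s →ₗᵢ[ℝ] U) {j : ∀ s, Vs s →ₗᵢ[ℝ] V}
    {j' : ∀ s, Vs' s →ₗᵢ[ℝ] V'} (hj : IsDec j) (hj' : IsDec j') (τ : ∀ s, Vs s →ₗᵢ[ℝ] Vs' s)
    (T : V →ₗᵢ[ℝ] V') (h : ∀ s v, T (j s v) = j' s (τ s v)) :
    (oprod fun s => lam (k s) (j' s) (vac (Us s) (τ s))) = vac U T :=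
  Op.ext_kv fun x e => by
    have := Fintype.ofFinite S
    obtain ⟨y, rfl⟩ := hj'.exists_sum x
    choose u w hw hy using fun s => exists_dec (τ s) (y s)
    have h1 : ∑ᶠ s, j' s (τ s (u s)) = T (∑ᶠ s, j s (u s)) := by
      simp only [finsum_eq_sum_of_fintype, map_sum, h]
    have h2 : ∑ᶠ s, j' s (y s) = T (∑ᶠ s, j s (u s)) + ∑ᶠ s, j' s (w s) := by
      rw [← h1]
      simp only [finsum_eq_sum_of_fintype, ← Finset.sum_add_distrib, ← map_add, ← hy]
    have h3 : Perp T (∑ᶠ s, j' s (w s)) := fun a => by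
      obtain ⟨b, rfl⟩ := hj.exists_sum a
      rw [finsum_eq_sum_of_fintype, map_sum, sum_inner]
      exact Finset.sum_eq_zero fun s _ => by rw [h, inner_finsum hj'.1, hw s]
    rw [oprod_lam_kv k hj'.1 (r := fun _ => 1) (a := fun _ => 1) (u' := fun s => τ s (u s))
      fun s c => by rw [hy s, vac_kv _ _ (hw s), one_smul, one_mul], h1, h2, vac_kv _ _ h3]
    simp [oprod]

/-- The product of pairs. -/
def muP (k : ∀ s, Us s →ₗᵢ[ℝ] U) (j : ∀ s, Vs s →ₗᵢ[ℝ] V) (p : ∀ s, DOp (Us s) (Vs s)) :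
    DOp U V := oprod fun s => dmap (lam (k s) (j s)) (p s)

omit [FiniteDimensional ℝ V] [Finite S] in
theorem list_lam_mem (k : ∀ s, Us s →ₗᵢ[ℝ] U) (j : ∀ s, Vs s →ₗᵢ[ℝ] V)
    {p : ∀ s, DOp (Us s) (Vs s)} (hp : ∀ s, IsKP (p s)) {l : List S} (hl : l.Nodup) {Y : Op U V}
    (h : ∀ g : ∀ s, Vs s × Vs s × Cl (Us s),
      Y * (l.map fun s => lam (k s) (j s) (th (g s).1 (g s).2.1 (g s).2.2)).prod ∈ KA U V) :
    Y * (l.map fun s => dmap (lam (k s) (j s)) (p s)).prod.fst ∈ KA U V ∧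
      Y * (l.map fun s => dmap (lam (k s) (j s)) (p s)).prod.snd ∈ KA U V := by
  classical
  induction l generalizing Y with
  | nil => exact ⟨h fun _ => (0, 0, 0), by simpa using KA.zero_mem⟩
  | cons s l ih =>
    rw [List.nodup_cons] at hl
    have h1 : ∀ T ∈ KA (Us s) (Vs s), _ := fun T hT =>
      ih hl.2 (Y := Y * lam (k s) (j s) T) fun g => KA.map_mem
        (((isCL_lam (k s) (j s)).const_mul Y).mul_const _) (fun v w c => by
          have h2 := h (Function.update g s (v, w, c))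
          rw [List.map_cons, List.prod_cons, Function.update_self, ← mul_assoc] at h2
          rwa [List.map_congr_left fun t ht => by
            rw [Function.update_of_ne (ne_of_mem_of_not_mem ht hl.1)]] at h2) hT
    rw [List.map_cons, List.prod_cons, dfst_mul, dsnd_mul, mul_add, ← mul_assoc, ← mul_assoc,
      ← mul_assoc]
    exact ⟨(h1 _ (hp s).m1).1, KA.add_mem (h1 _ (hp s).m1).2 (h1 _ (hp s).m2).1⟩

omit [FiniteDimensional ℝ V] [Finite S] in
theorem gc_fam {k : ∀ s, Us s →ₗᵢ[ℝ] U} {j : ∀ s, Vs s →ₗᵢ[ℝ] V} (hk : Ort k) (hj : Ort j)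
    {p : ∀ s, DOp (Us s) (Vs s)} (hp : ∀ s, IsKP (p s)) (s t : S) (h : s ≠ t) :
    GC (dmap (lam (k s) (j s)) (p s)) (dmap (lam (k t) (j t)) (p t)) :=
  gc_lam_lam (hp s) (hp t).ep _ _ _ _ (hk s t h) (hj s t h)

theorem isKP_muP {k : ∀ s, Us s →ₗᵢ[ℝ] U} {j : ∀ s, Vs s →ₗᵢ[ℝ] V} (hk : Ort k) (hj : IsDec j)
    {p : ∀ s, DOp (Us s) (Vs s)} (hp : ∀ s, IsKP (p s)) : IsKP (muP k j p) := by
  have h := list_lam_mem k j hp nodup_lst (Y := 1) fun g => by
    rw [one_mul, ← oprod, oprod_lam_th k hj]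
    exact th_mem _ _ _
  rw [one_mul, one_mul] at h
  refine ⟨IsEP.list_prod (fun q hq => ?_) (List.pairwise_map.2 (pairwise_lst (gc_fam hk hj.1 hp))),
    h.1, h.2⟩
  obtain ⟨s, -, rfl⟩ := List.mem_map.1 hq
  exact (hp s).ep.lam _ _

omit [FiniteDimensional ℝ V] in
theorem muP_eq_zero (k : ∀ s, Us s →ₗᵢ[ℝ] U) (j : ∀ s, Vs s →ₗᵢ[ℝ] V)
    {p : ∀ s, DOp (Us s) (Vs s)} {s : S} (h : p s = 0) : muP k j p = 0 :=
  oprod_eq_zero (s := s) (by rw [h, dmap_zero])

omit [FiniteDimensional ℝ V] in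
theorem continuous_muP {P : Type} [TopologicalSpace P] {k : P → ∀ s, Us s →ₗᵢ[ℝ] U}
    (j : ∀ s, Vs s →ₗᵢ[ℝ] V) (hk : ∀ s v, Continuous fun p => k p s v)
    {x : P → ∀ s, DOp (Us s) (Vs s)} (hx : ∀ s, Continuous fun p => x p s)
    (hm : ∀ p s, IsKP (x p s)) : Continuous fun p => muP (k p) j (x p) :=
  continuous_oprod fun s => continuous_dmap_lam _ (hk s) (hx s) fun p => hm p s

omit [FiniteDimensional ℝ V'] in
theorem dmap_lam_muP {k : ∀ s, Us s →ₗᵢ[ℝ] U} {j : ∀ s, Vs s →ₗᵢ[ℝ] V} {K : U →ₗᵢ[ℝ] U'}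
    {J : V →ₗᵢ[ℝ] V'} {k' : ∀ s, Us s →ₗᵢ[ℝ] U'} {j' : ∀ s, Vs s →ₗᵢ[ℝ] V'}
    (hk : ∀ s u, k' s u = K (k s u)) (hj : ∀ s v, j' s v = J (j s v))
    (p : ∀ s, DOp (Us s) (Vs s)) : dmap (lam K J) (muP k j p) = muP k' j' p := by
  rw [muP, map_oprod]
  exact congrArg oprod (funext fun s => dmap_lam_lam (hk s) (hj s) _)

omit [FiniteDimensional ℝ V] in
theorem oprod_dmk_zero (a : S → Op U V) : (oprod fun s => dmk (a s) 0) = dmk (oprod a) 0 :=
  (map_oprod (⟨⟨fun a : Op U V => dmk a 0, dmk_one⟩, dmk_mul_zero⟩ : Op U V →* DOp U V) a).symm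

omit [FiniteDimensional ℝ V] in
theorem clif_finsum {w : S → U} (h : ∀ s t, s ≠ t → inner ℝ (w s) (w t) = 0) :
    clif V (∑ᶠ s, w s) = oprod fun s => clif V (w s) := by
  refine map_finsum_oprod (A := U) (M := DOp U V) (r := fun a b : U => inner ℝ a b = 0)
    clif_zero (fun _ _ h => clif_add h) (fun _ => inner_zero_right _) (fun a b c h h' => ?_) h
  rw [inner_add_right, h, h', add_zero]

omit [FiniteDimensional ℝ V'] in
/-- The product is compatible with the structure maps. -/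
theorem muP_act {k : ∀ s, Us s →ₗᵢ[ℝ] U} {j : ∀ s, Vs s →ₗᵢ[ℝ] V} {k' : ∀ s, Us' s →ₗᵢ[ℝ] U'}
    {j' : ∀ s, Vs' s →ₗᵢ[ℝ] V'} (hj : IsDec j) (hk' : Ort k') (hj' : IsDec j')
    {κ : ∀ s, Us s →ₗᵢ[ℝ] Us' s} {τ : ∀ s, Vs s →ₗᵢ[ℝ] Vs' s} {K : U →ₗᵢ[ℝ] U'}
    {T : V →ₗᵢ[ℝ] V'} (h1 : ∀ s u, K (k s u) = k' s (κ s u)) (h2 : ∀ s v, T (j s v) = j' s (τ s v))
    (w : ∀ s, Us' s) {p : ∀ s, DOp (Us s) (Vs s)} (hp : ∀ s, IsKP (p s)) :
    (muP k' j' fun s => extP (κ s) (τ s) (p s) * clif (Vs' s) (w s)) =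
      extP K T (muP k j p) * clif V' (∑ᶠ s, k' s (w s)) := by
  have e1 : clif V' (∑ᶠ s, k' s (w s)) = oprod fun s => clif V' (k' s (w s)) :=
    clif_finsum fun s t h => hk' s t h _ _
  have e2 : dmap (lam K T) (muP k j p) =
      oprod fun s => dmap (lam ((k' s).comp (κ s)) ((j' s).comp (τ s))) (p s) :=
    dmap_lam_muP (fun s u => (h1 s u).symm) (fun s v => (h2 s v).symm) p
  have e3 : dmk (vac U' T) 0 =
      oprod fun s => dmap (lam (k' s) (j' s)) (dmk (vac (Us' s) (τ s)) 0) := by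
    simp only [dmap_dmk_zero, oprod_dmk_zero, oprod_lam_vac k' hj hj' τ T h2]
  have e4 : ∀ s, dmap (lam (k' s) (j' s)) (extP (κ s) (τ s) (p s)) =
      dmap (lam ((k' s).comp (κ s)) ((j' s).comp (τ s))) (p s) *
        dmap (lam (k' s) (j' s)) (dmk (vac (Us' s) (τ s)) 0) := fun s => by
    rw [extP, map_mul, dmap_lam_lam (k'' := (k' s).comp (κ s)) (j'' := (j' s).comp (τ s))
      (fun _ => rfl) fun _ => rfl]
  have e5 := oprod_mul (g := fun s => dmap (lam (k' s) (j' s)) (dmk (vac (Us' s) (τ s)) 0))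
    (f := fun s => dmap (lam ((k' s).comp (κ s)) ((j' s).comp (τ s))) (p s)) fun s t h =>
    (gc_lam_lam (hp t) (isEP_vac _) _ _ _ _ (fun _ _ => hk' t s h.symm _ _)
      fun _ _ => hj'.1 t s h.symm _ _).commute.symm
  have e6 := oprod_mul (g := fun s => clif V' (k' s (w s)))
    (f := fun s => dmap (lam (k' s) (j' s)) (extP (κ s) (τ s) (p s))) fun s t h =>
    (gc_lam_clif ((hp t).extP _ _).ep _ _ fun a => hk' t s h.symm _ _).commute.symm
  have e7 : extP K T (muP k j p) =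
      oprod fun s => dmap (lam (k' s) (j' s)) (extP (κ s) (τ s) (p s)) :=
    (congrArg₂ (· * ·) e2 e3).trans (e5.symm.trans (congrArg oprod (funext fun s => (e4 s).symm)))
  rw [e7, e1, ← e6]
  exact congrArg oprod (funext fun s => by rw [map_mul, dmap_lam_clif])

omit [FiniteDimensional ℝ V] in
/-- The product is compatible with `pushP`. -/
theorem muP_pushP {k' : ∀ s, Us' s →ₗᵢ[ℝ] U'} (hk' : Ort k') (j : ∀ s, Vs s →ₗᵢ[ℝ] V)
    (κ : ∀ s, Us s →ₗᵢ[ℝ] Us' s) {d : ∀ s, Cl (Us' s)} (hd : ∀ s, hat (d s) = d s)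
    {p : ∀ s, DOp (Us s) (Vs s)} (hp : ∀ s, IsKP (p s)) :
    (muP k' j fun s => pushP (κ s) (d s) (p s)) = muP (fun s => (k' s).comp (κ s)) j p *
      dmk (lm V (oprod fun s => clMap (k' s) (d s))) 0 := by
  have h1 : lm V (oprod fun s => clMap (k' s) (d s)) = oprod fun s => lm V (clMap (k' s) (d s)) :=
    map_oprod (lmHom U' V).toAlgHom.toMonoidHom _
  rw [h1, ← oprod_dmk_zero, muP, muP, ← oprod_mul]
  · exact congrArg oprod (funext fun s => dmap_lam_pushP _ _ _ _ (fun _ => rfl) _)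
  · refine fun s t h => (gc_lam_lm (hp t) _ _ fun c => ?_).commute.symm
    exact commute_clMap_of_even (k := (k' t).comp (κ t)) (fun v a => hk' s t h _ _) c (hd s)

omit [FiniteDimensional ℝ V] in
theorem muP_congr {k k' : ∀ s, Us s →ₗᵢ[ℝ] U} {j j' : ∀ s, Vs s →ₗᵢ[ℝ] V}
    (hk : ∀ s u, k s u = k' s u) (hj : ∀ s v, j s v = j' s v) (p : ∀ s, DOp (Us s) (Vs s)) :
    muP k j p = muP k' j' p :=
  congrArg oprod (funext fun s => by rw [lam_congr (hk s) (hj s)])

omit [FiniteDimensional ℝ V] in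
theorem muP_equiv {T : Type} [Finite T] (e : T ≃ S) {k : ∀ s, Us s →ₗᵢ[ℝ] U}
    {j : ∀ s, Vs s →ₗᵢ[ℝ] V} (hk : Ort k) (hj : Ort j) {p : ∀ s, DOp (Us s) (Vs s)}
    (hp : ∀ s, IsKP (p s)) :
    muP k j p = muP (fun t => k (e t)) (fun t => j (e t)) fun t => p (e t) :=
  oprod_equiv e fun s t h => (gc_fam hk hj hp s t h).commute

omit [FiniteDimensional ℝ V] in
theorem muP_sigma {T : S → Type} [∀ s, Finite (T s)] {Ut Vt : (Σ s, T s) → Type}
    [∀ s, NormedAddCommGroup (Ut s)] [∀ s, InnerProductSpace ℝ (Ut s)]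
    [∀ s, FiniteDimensional ℝ (Ut s)] [∀ s, NormedAddCommGroup (Vt s)]
    [∀ s, InnerProductSpace ℝ (Vt s)] [∀ s, FiniteDimensional ℝ (Vt s)]
    {k : ∀ s, Us s →ₗᵢ[ℝ] U} {j : ∀ s, Vs s →ₗᵢ[ℝ] V} {k' : ∀ s t, Ut ⟨s, t⟩ →ₗᵢ[ℝ] Us s}
    {j' : ∀ s t, Vt ⟨s, t⟩ →ₗᵢ[ℝ] Vs s} {k'' : ∀ q, Ut q →ₗᵢ[ℝ] U} {j'' : ∀ q, Vt q →ₗᵢ[ℝ] V}
    (hk : Ort k'') (hj : Ort j'') (h1 : ∀ s t u, k'' ⟨s, t⟩ u = k s (k' s t u))
    (h2 : ∀ s t v, j'' ⟨s, t⟩ v = j s (j' s t v)) {p : ∀ q, DOp (Ut q) (Vt q)}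
    (hp : ∀ q, IsKP (p q)) :
    muP k'' j'' p = muP k j fun s => muP (k' s) (j' s) fun t => p ⟨s, t⟩ :=
  (oprod_sigma fun s t h => (gc_fam hk hj hp s t h).commute).trans
    (congrArg oprod (funext fun s => (dmap_lam_muP (h1 s) (h2 s) fun t => p ⟨s, t⟩).symm))

end Pool.Agent.Lib.E2
end
end
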