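import Pool.Agent.Lib.MP_10be03_gt.KMu
import Pool.Agent.Lib.MP_10be03_gt.KNu
import Pool.Agent.Lib.MP_10be03_gt.NTyp
import Pool.Agent.Lib.MP_10be03_gt.KProd
import Pool.Agent.Lib.MP_10be03_gt.DChM
import Pool.Agent.Lib.MP_10be03_gt.DPrj

-- part Pool.Agent.Lib.MP_10be03_gt.KXCl
section

/-!
Torus invariant Clifford elements and operators.
-/

noncomputable section
open scoped Matrix

namespace Pool.Agent.Lib.E2

variable {ι m V V' W : Type} [Fintype ι] [Fintype m] [DecidableEq m]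
  [NormedAddCommGroup V] [InnerProductSpace ℝ V] [FiniteDimensional ℝ V]
  [NormedAddCommGroup V'] [InnerProductSpace ℝ V'] [FiniteDimensional ℝ V']
  [NormedAddCommGroup W] [InnerProductSpace ℝ W] [FiniteDimensional ℝ W]

theorem kxc_unit (t : ι → Circle) (l : ι → ℤ) :
    starRingEnd ℂ (phase t l) * phase t l = 1 := by
  rw [phase, map_prod, ← Finset.prod_mul_distrib]
  refine Finset.prod_eq_one fun i _ => ?_
  rw [map_zpow₀, ← mul_zpow, ← Circle.coe_inv_eq_conj, ← Circle.coe_mul, inv_mul_cancel,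
    Circle.coe_one, one_zpow]

omit [Fintype m] in
theorem kxc_prod (w : m → ι → ℤ) (t : ι → Circle) (J : Finset m) :
    ∏ j ∈ J, phase t (w j) = phase t (wJ w J) := by
  induction J using Finset.induction_on with
  | empty => simp [phase, wJ]
  | insert j J h ih =>
    rw [Finset.prod_insert h, ih, wJ, wJ, Finset.sum_insert h, phase, phase, phase,
      ← Finset.prod_mul_distrib]
    exact Finset.prod_congr rfl fun i _ => (zpow_add₀ (t i).coe_ne_zero _ _).symm

theorem kxc_sep {l l' : ι → ℤ} (h : l ≠ l') : ∃ t : ι → Circle, phase t l ≠ phase t l' := by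
  classical
  obtain ⟨i, hi⟩ := Function.ne_iff.1 h
  have d0 : ((l i - l' i : ℤ) : ℂ) ≠ 0 := Int.cast_ne_zero.2 (sub_ne_zero.2 hi)
  have e : ∀ (z : Circle) (k : ι → ℤ), phase (Pi.mulSingle i z) k = (z : ℂ) ^ k i := fun z k => by
    rw [phase, Finset.prod_eq_single i (fun j _ hj => by simp [Pi.mulSingle_eq_of_ne hj])
      (by simp), Pi.mulSingle_eq_same]
  refine ⟨Pi.mulSingle i (Circle.exp (Real.pi / (l i - l' i : ℤ))), fun k => ?_⟩
  rw [e, e, ← div_eq_one_iff_eq (zpow_ne_zero _ (Circle.coe_ne_zero _)),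
    ← zpow_sub₀ (Circle.coe_ne_zero _), Circle.coe_exp, ← Complex.exp_int_mul, Complex.ofReal_div,
    Complex.ofReal_intCast, ← mul_assoc, mul_div_cancel₀ _ d0, Complex.exp_pi_mul_I] at k
  norm_num at k

/-- The diagonal matrix of a torus element. -/
def torM (w : m → ι → ℤ) (t : ι → Circle) : Matrix m m ℂ :=
  Matrix.diagonal fun k => phase t (w k)

theorem torM_iso (w : m → ι → ℤ) (t : ι → Circle) : (torM w t)ᴴ * torM w t = 1 := by
  rw [torM, Matrix.diagonal_conjTranspose, Matrix.diagonal_mul_diagonal, ← Matrix.diagonal_one]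
  exact congrArg Matrix.diagonal (funext fun k => kxc_unit t (w k))

variable (V) in
/-- The isometry of a torus element. -/
def torI (w : m → ι → ℤ) (t : ι → Circle) : UU V m →ₗᵢ[ℝ] UU V m :=
  kk LinearIsometry.id (torM w t) (torM_iso w t)

/-- Invariant Clifford elements. -/
def CInv (w : m → ι → ℤ) (c : Cl (UU V m)) : Prop := ∀ t, clMap (torI V w t) c = c

/-- Invariant operators. -/
def XInv (w : m → ι → ℤ) (T : Op (UU V m) W) : Prop :=
  ∀ t, lam (torI V w t) (LinearIsometry.id : W →ₗᵢ[ℝ] W) T = T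

variable {w : m → ι → ℤ}

theorem XInv.mul {S T : Op (UU V m) W} (hS : XInv w S) (hT : XInv w T) : XInv w (S * T) :=
  fun t => by rw [map_mul, hS t, hT t]

theorem XInv.add {S T : Op (UU V m) W} (hS : XInv w S) (hT : XInv w T) : XInv w (S + T) :=
  fun t => by rw [map_add, hS t, hT t]

theorem XInv.smul {S : Op (UU V m) W} (hS : XInv w S) (r : ℂ) : XInv w (r • S) :=
  fun t => by rw [map_smul, hS t]

theorem XInv.star {S : Op (UU V m) W} (hS : XInv w S) : XInv w (star S) :=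
  fun t => by rw [map_star, hS t]

theorem XInv.zero : XInv w (0 : Op (UU V m) W) := fun _ => map_zero _

theorem CInv.lm {c : Cl (UU V m)} (h : CInv w c) : XInv w (lm W c) := fun t => by rw [lam_lm, h t]

theorem xinv_lam_inl (T : Op V W) :
    XInv w (lam (UU.inl m) (LinearIsometry.id : W →ₗᵢ[ℝ] W) T) :=
  fun t => lam_lam' (fun u => (kk_inl LinearIsometry.id _ (torM_iso w t) u).symm) (fun _ => rfl) T

theorem xinv_vac (j : V' →ₗᵢ[ℝ] W) : XInv w (vac (UU V m) j) := fun _ => lam_id_vac _ j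

theorem cinv_pp {p q : Matrix m m ℂ} (hp : IsStarProjection p) (hq : IsStarProjection q)
    (h1 : ∀ i j, p i j ≠ 0 → w i = w j) (h2 : ∀ i j, q i j ≠ 0 → w i = w j) :
    CInv w (pp V p q) := fun t => by
  have e : ∀ r : Matrix m m ℂ, (∀ i j, r i j ≠ 0 → w i = w j) →
      torM w t * r * (torM w t)ᴴ = r := fun r h => by
    ext i j
    rw [torM, Matrix.diagonal_conjTranspose, Matrix.mul_diagonal, Matrix.diagonal_mul]
    by_cases k : r i j = 0
    · rw [k, mul_zero, zero_mul]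
    · rw [h i j k, mul_right_comm, mul_comm (phase t (w j))]
      exact (congrArg (· * r i j) (kxc_unit t (w j))).trans (one_mul _)
  rw [torI, clMap_kk_pp _ _ _ hp hq, e p h1, e q h2]

theorem cinv_muJ {I J : Finset m} (h : wJ w I = wJ w J) : CInv w (muJ V I J) := fun t =>
  (clMap_kk_muJ _ (fun k => phase t (w k)) (torM_iso w t) I J).trans (by
    rw [kxc_prod, kxc_prod, h, mul_comm, kxc_unit, one_smul])

variable (V) in
/-- The projection of a family of states. -/
def pS (S : Finset (Finset m)) : Cl (UU V m) := ∑ J ∈ S, pJ V J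

theorem pS_singleton (J : Finset m) : pS V {J} = pJ V J := Finset.sum_singleton _ _

theorem pS_empty : pS V (∅ : Finset (Finset m)) = 0 := Finset.sum_empty

theorem pS_univ : pS V (Finset.univ : Finset (Finset m)) = 1 := sum_pJ

theorem pS_union {S S' : Finset (Finset m)} (h : Disjoint S S') :
    pS V (S ∪ S') = pS V S + pS V S' := Finset.sum_union h

theorem pS_mul_pS (S S' : Finset (Finset m)) : pS V S * pS V S' = pS V (S ∩ S') := by
  simp only [pS, Finset.sum_mul_sum, pJ_mul_pJ, Finset.sum_ite_eq, Finset.sum_ite_mem]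

theorem isStarProjection_pS (S : Finset (Finset m)) : IsStarProjection (pS V S) :=
  ⟨(pS_mul_pS S S).trans (by rw [Finset.inter_self]),
    (star_sum _ _).trans (Finset.sum_congr rfl fun J _ => star_pJ J)⟩

theorem hat_pS (S : Finset (Finset m)) : hat (pS V S) = pS V S :=
  (map_sum (clMap _) _ _).trans (Finset.sum_congr rfl fun J _ => hat_pJ J)

theorem cinv_pS (S : Finset (Finset m)) : CInv w (pS V S) := fun t =>
  (map_sum (clMap _) _ _).trans (Finset.sum_congr rfl fun J _ =>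
    clMap_kk_pJ _ (fun k => phase t (w k)) (torM_iso w t) J)

theorem commute_pS_clMap_inl (S : Finset (Finset m)) (c : Cl V) :
    Commute (clMap (UU.inl m) c) (pS V S) :=
  Commute.sum_right _ _ _ fun J _ => commute_pJ_clMap_inl J c

theorem clMap_kk_one_pS (φ : V →ₗᵢ[ℝ] V') (h : (1 : Matrix m m ℂ)ᴴ * 1 = 1)
    (S : Finset (Finset m)) : clMap (kk φ 1 h) (pS V S) = pS V' S :=
  (map_sum (clMap _) _ _).trans (Finset.sum_congr rfl fun J _ => clMap_kk_one_pJ φ h J)

theorem pp_dgm_eq_pS {Z Z' : Finset m} (h : Disjoint Z Z') :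
    pp V (dgm Z) (dgm Z') = pS V (btw Z Z') :=
  (pp_dgm h).trans (Finset.sum_congr (by
    ext K
    simp only [btw, Finset.mem_filter]) fun _ _ => rfl)

/-- A family of states that is a union of weight classes. -/
def Sat (w : m → ι → ℤ) (S : Finset (Finset m)) : Prop :=
  ∀ I J, wJ w I = wJ w J → I ∈ S → J ∈ S

omit [FiniteDimensional ℝ W] in
theorem kxc_lm_pS (S : Finset (Finset m)) : lm W (pS V S) = ∑ J ∈ S, lm W (pJ V J) :=
  map_sum (lmHom (UU V m) W) _ _

theorem kxc_off {I J : Finset m} (h : wJ w I ≠ wJ w J) {T : Op (UU V m) W}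
    (hT : T ∈ KA (UU V m) W) (hi : XInv w T) : lm W (pJ V I) * T * lm W (pJ V J) = 0 := by
  obtain ⟨t, ht⟩ := kxc_sep h
  have e : lm W (pJ V I) * lam (torI V w t) (LinearIsometry.id : W →ₗᵢ[ℝ] W) T * lm W (pJ V J) =
      (phase t (wJ w I) * starRingEnd ℂ (phase t (wJ w J))) •
        (lm W (pJ V I) * T * lm W (pJ V J)) :=
    KA.eq_of_th (((isCL_lam _ _).const_mul _).mul_const _)
      (((IsCL.id.const_mul _).mul_const _).smul _) (fun v u c => by
        rw [lam_th_id, lm_mul_th, lm_mul_th, th_mul_lm, th_mul_lm, ← th_smul, ← kxc_prod,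
          ← kxc_prod]
        exact congrArg (th v u) (pJ_clMap_kk_pJ _ (torM_iso w t) I J c)) hT
  rw [hi t, ← sub_eq_zero] at e
  nth_rewrite 1 [← one_smul ℂ (lm W (pJ V I) * T * lm W (pJ V J))] at e
  rw [← sub_smul, smul_eq_zero] at e
  refine e.resolve_left fun k => ht ?_
  rw [← mul_one (phase t (wJ w I)), ← kxc_unit t (wJ w J), ← mul_assoc, ← sub_eq_zero.1 k,
    one_mul]

theorem commute_pS_of_inv {S : Finset (Finset m)} (hS : Sat w S) {T : Op (UU V m) W}
    (hT : T ∈ KA (UU V m) W) (hi : XInv w T) : Commute (lm W (pS V S)) T := by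
  have key : ∀ A B : Finset (Finset m), (∀ I ∈ A, ∀ J ∈ B, wJ w I ≠ wJ w J) →
      lm W (pS V A) * T * lm W (pS V B) = 0 := fun A B h => by
    rw [kxc_lm_pS, kxc_lm_pS, Finset.sum_mul, Finset.sum_mul]
    refine Finset.sum_eq_zero fun I hI => ?_
    rw [Finset.mul_sum]
    exact Finset.sum_eq_zero fun J hJ => kxc_off (h I hI J hJ) hT hi
  have e1 := key S Sᶜ fun I hI J hJ e => Finset.mem_compl.1 hJ (hS I J e hI)
  have e2 := key Sᶜ S fun I hI J hJ e => Finset.mem_compl.1 hI (hS J I e.symm hJ)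
  have e3 : lm W (pS V S) + lm W (pS V Sᶜ) = 1 := by
    rw [← lm_add, ← pS_union disjoint_compl_right, Finset.union_compl, pS_univ, lm_one]
  calc lm W (pS V S) * T = lm W (pS V S) * T * (lm W (pS V S) + lm W (pS V Sᶜ)) := by
        rw [e3, mul_one]
    _ = (lm W (pS V S) + lm W (pS V Sᶜ)) * T * lm W (pS V S) := by
        rw [mul_add, add_mul, add_mul, e1, e2]
    _ = T * lm W (pS V S) := by rw [e3, one_mul]

/-- Graded commutation of an odd mode element with the extension of an operator. -/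
theorem lm_mul_lam_inl_of_odd {d : Cl (UU V m)}
    (hd : ∀ v, cl (UU.inl m v) * d = -(d * cl (UU.inl m v))) {T : Op V W} (hT : T ∈ KA V W) :
    lm W d * lam (UU.inl m) (LinearIsometry.id : W →ₗᵢ[ℝ] W) T =
      lam (UU.inl m) (LinearIsometry.id : W →ₗᵢ[ℝ] W) (al V W T) * lm W d := by
  have e : ∀ c : Cl V, d * clMap (UU.inl m) c = clMap (UU.inl m) (hat c) * d := fun c => by
    induction c using cl_induction with
    | h1 => simp [hat_one]
    | hcl v x hx =>
      rw [hat_mul, hat_cl, map_mul, map_mul, map_neg, clMap_cl, mul_assoc, ← hx, neg_mul,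
        ← mul_assoc, ← mul_assoc, hd, neg_mul, neg_neg]
    | hadd x y hx hy => rw [hat_add, map_add, map_add, mul_add, add_mul, hx, hy]
    | hsmul r x hx => rw [hat_smul, map_smul, map_smul, mul_smul_comm, smul_mul_assoc, hx]
  exact KA.eq_of_th ((isCL_lam _ _).const_mul _) (((isCL_lam _ _).comp isCL_al).mul_const _)
    (fun v u c => by rw [lam_th_id, al_th, lam_th_id, lm_mul_th, th_mul_lm, e]) hT

theorem cl_inl_muJ (v : V) (I J : Finset m) : cl (UU.inl m v) * muJ V I J =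
    ((-1 : ℂ) ^ (I.card + J.card)) • (muJ V I J * cl (UU.inl m v)) := by
  have e := congrArg star (cl_inl_mJ v J)
  rw [star_mul, star_smul, star_mul, star_cl, star_pow, star_neg, star_one] at e
  rw [muJ, ← mul_assoc, cl_inl_mJ, mul_assoc _ (star _), e, mul_smul_comm, smul_smul, pow_add,
    mul_assoc ((-1 : ℂ) ^ I.card), ← mul_pow, neg_one_mul, neg_neg, one_pow, mul_one,
    smul_mul_assoc, mul_assoc]

open Classical in
/-- The states of a given weight. -/
def cls1 (w : m → ι → ℤ) (l : ι → ℤ) : Finset (Finset m) := Finset.univ.filter fun J => wJ w J = l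

theorem mem_cls1 {l : ι → ℤ} {J : Finset m} : J ∈ cls1 w l ↔ wJ w J = l := by
  simp only [cls1, Finset.mem_filter, Finset.mem_univ, true_and]

theorem sat_cls1 (l : ι → ℤ) : Sat w (cls1 w l) := fun _ _ e h =>
  mem_cls1.2 (e.symm.trans (mem_cls1.1 h))

/-- The isometry that moves a whole weight class into one state. -/
theorem exists_W (w : m → ι → ℤ) (j : V →ₗᵢ[ℝ] V') {e : V'} (he : Perp j e) (h1 : ‖e‖ = 1)
    (I : Finset m) : ∃ T : Op (UU V' m) V',
      star T * T = lm V' (pS V' (cls1 w (wJ w I))) * vac (UU V' m) j ∧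
      vac (UU V' m) j * T = 0 ∧ al (UU V' m) V' T = T ∧ XInv w T ∧
      (∀ S ∈ KA (UU V' m) V', T * S ∈ KA (UU V' m) V') ∧ lm V' (pJ V' I) * T = T := by
  obtain ⟨L, l1, l2, l3, l4, l5, l6⟩ := exists_ladder (UU V' m) j he (by
    rintro rfl
    simp at h1)
  have l0 : vac (UU V' m) j = L 0 :=
    Op.ext_dec j fun u x hx c => (vac_kv j u hx c).trans (l1 u x c hx).symm
  obtain ⟨n, hn⟩ := Countable.exists_injective_nat (Finset m)
  obtain ⟨ε, hε⟩ : ∃ ε : Cl (UU V' m), ε = cl (UU.inl m e) := ⟨_, rfl⟩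
  have e1 : ε * ε = 1 := by
    rw [hε, cl_mul_self, LinearIsometry.inner_map_map, real_inner_self_eq_norm_sq, h1]
    simp
  obtain ⟨p, hp⟩ : ∃ p : Finset m → Cl (UU V' m),
      ∀ J, p J = ε ^ (I.card + J.card) * muJ V' I J := ⟨_, fun _ => rfl⟩
  have p1 : ∀ J, star (p J) * p J = pJ V' J := fun J => by
    rw [hp, star_mul, star_pow, show star ε = ε from hε ▸ star_cl _, mul_assoc,
      ← mul_assoc (ε ^ _), ← (Commute.refl ε).mul_pow, e1, one_pow, one_mul, star_muJ_mul]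
  have p2 : ∀ J, hat (p J) = p J := fun J => by
    have e2 : ∀ k : ℕ, hat (ε ^ k) = (-1 : ℂ) ^ k • ε ^ k := fun k => by
      rw [← smul_pow, neg_one_smul, hε, ← hat_cl]
      exact map_pow (clMap _) _ _
    rw [hp, hat_mul, e2, hat_muJ, smul_mul_smul_comm, ← mul_pow, neg_one_mul, neg_neg, one_pow,
      one_smul]
  have p3 : ∀ J, pJ V' I * p J = p J := fun J => by
    have e2 : Commute (pJ V' I) ε := hε ▸ commute_pp_inl _ _ e
    rw [hp, ← mul_assoc, (e2.pow_right _).eq, mul_assoc, pJ_mul_muJ]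
  have p4 : ∀ J ∈ cls1 w (wJ w I), CInv w (p J) := fun J hJ t => by
    rw [hp, map_mul, map_pow, cinv_muJ (mem_cls1.1 hJ).symm t, hε, clMap_cl, torI, kk_inl]
    rfl
  refine ⟨∑ J ∈ cls1 w (wJ w I), lm V' (p J) * L (n J + 1), ?_, ?_, ?_, fun t => ?_,
    fun S hS => ?_, ?_⟩
  · rw [star_sum, Finset.sum_mul_sum, kxc_lm_pS, Finset.sum_mul, l0]
    refine Finset.sum_congr rfl fun J hJ => ?_
    have e2 : ∀ K, star (lm V' (p J) * L (n J + 1)) * (lm V' (p K) * L (n K + 1)) =
        (if n J + 1 = n K + 1 then L 0 else 0) * lm V' (star (p J) * p K) := fun K => by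
      rw [← l2, mul_assoc, (l4 _ _).eq, lm_mul, lm_star, star_mul]
      simp only [mul_assoc]
    rw [Finset.sum_eq_single_of_mem J hJ fun K _ k => by
      rw [e2, if_neg fun q => k (hn (Nat.succ_injective q)).symm, zero_mul], e2, if_pos rfl, p1,
      (l4 _ _).eq]
  · rw [Finset.mul_sum, l0]
    refine Finset.sum_eq_zero fun J _ => ?_
    rw [← mul_assoc, (l4 _ _).eq, mul_assoc, ← l3, l2, if_neg (Nat.succ_ne_zero _).symm, mul_zero]
  · rw [map_sum]
    exact Finset.sum_congr rfl fun J _ => by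
      rw [map_mul, al_lm, p2, show al (UU V' m) V' (L (n J + 1)) = L (n J + 1) from l6 _ _]
  · rw [map_sum]
    exact Finset.sum_congr rfl fun J hJ => by rw [map_mul, lam_lm, p4 J hJ t, l6]
  · rw [Finset.sum_mul]
    exact Finset.sum_induction _ (· ∈ KA (UU V' m) V') (fun _ _ => KA.add_mem) KA.zero_mem
      fun J _ => mul_assoc (lm V' (p J)) _ S ▸ KA.lm_mul (l5 _ S hS) _
  · rw [Finset.mul_sum]
    exact Finset.sum_congr rfl fun J _ => by rw [← mul_assoc, ← lm_mul, p3]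

end Pool.Agent.Lib.E2
end
end

-- part Pool.Agent.Lib.MP_10be03_gt.KXI
section

/-!
The maps of spectra defined by invariant projections.
-/

noncomputable section
open scoped Matrix unitInterval

namespace Pool.Agent.Lib.E2

variable {ι m V W : Type} [Fintype ι] [Fintype m] [DecidableEq m]
  [NormedAddCommGroup V] [InnerProductSpace ℝ V] [FiniteDimensional ℝ V]
  [NormedAddCommGroup W] [InnerProductSpace ℝ W] [FiniteDimensional ℝ W]

variable (m) in
/-- The standard inclusion on the sum with the modes. -/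
def kap1 (n : ℕ) : UU (E n) m →ₗᵢ[ℝ] UU (E (n + 1)) m := kk (inc n) 1 (by simp)

/-- Presentations of the type of `KU`. -/
abbrev KIf (A : SSp) : Type := GIf A E (fun _ _ => True) inc fun _ => LinearIsometry.id

/-- Presentations by invariant pairs. -/
abbrev YIf (w : m → ι → ℤ) (B : SSp) : Type :=
  GIf B (fun n => UU (E n) m) (fun _ => XInv w) (kap1 m) fun _ => UU.inl m

/-- The extension of an operator times a mode element. -/
def jF (d : Cl (UU V m)) (T : Op V W) : Op (UU V m) W :=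
  lam (UU.inl m) (LinearIsometry.id : W →ₗᵢ[ℝ] W) T * lm W d

/-- Even invariant projections of the mode algebra. -/
structure Good (w : m → ι → ℤ) (d : Cl (UU V m)) : Prop where
  proj : IsStarProjection d
  ev : hat d = d
  comm : ∀ c, Commute (clMap (UU.inl m) c) d
  inv : CInv w d

variable {w : m → ι → ℤ}

theorem good_pS (S : Finset (Finset m)) : Good w (pS V S) :=
  ⟨isStarProjection_pS S, hat_pS S, commute_pS_clMap_inl S, cinv_pS S⟩

theorem good_pp {p q : Matrix m m ℂ} (hp : IsStarProjection p) (hq : IsStarProjection q)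
    (h : p * q = 0) (h1 : ∀ i j, p i j ≠ 0 → w i = w j) (h2 : ∀ i j, q i j ≠ 0 → w i = w j) :
    Good w (pp V p q) :=
  ⟨isStarProjection_pp hp hq h, hat_pp p q,
    commute_clMap fun v => (commute_pp_inl p q v).symm, cinv_pp hp hq h1 h2⟩

omit [DecidableEq m] in
theorem isCL_jF (d : Cl (UU V m)) : IsCL (jF d : Op V W → Op (UU V m) W) :=
  (isCL_lam _ _).mul_const _

omit [FiniteDimensional ℝ W] in
theorem kxi_proj_lm {U : Type} [NormedAddCommGroup U] [InnerProductSpace ℝ U]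
    [FiniteDimensional ℝ U] {d : Cl U} (h : IsStarProjection d) : IsStarProjection (lm W d) :=
  ⟨(lm_mul d d).symm.trans (congrArg _ h.isIdempotentElem.eq),
    (lm_star d).symm.trans (congrArg _ h.isSelfAdjoint.star_eq)⟩

theorem Good.adm {d : Cl (UU V m)} (h : Good w d) {a b : Op V W}
    (hab : Adm (fun _ => True) a b) : Adm (XInv w) (jF d a) (jF d b) where
  gp := (hab.gp.mapOn ⊤ isClosed_univ trivial trivial (isCL_lam _ _).2
    (fun _ _ _ _ => map_mul _ _ _) fun _ _ => map_star _ _).cut (kxi_proj_lm h.proj)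
    (commute_lm_lam_of_mem _ _ h.comm hab.m1).symm (commute_lm_lam_of_mem _ _ h.comm hab.m2).symm
  m1 := KA.mul_lm (lam_mem_of_surj _ Function.surjective_id hab.m1) d
  m2 := KA.mul_lm (lam_mem_of_surj _ Function.surjective_id hab.m2) d
  q1 := (xinv_lam_inl a).mul h.inv.lm
  q2 := (xinv_lam_inl b).mul h.inv.lm
  g1 := by rw [jF, map_mul, al_lam, hab.g1, al_lm, h.ev]
  g2 := by rw [jF, map_mul, al_lam, hab.g2, al_lm, h.ev, map_neg, neg_mul]

theorem adm_cut {S : Finset (Finset m)} (hS : Sat w S) {a b : Op (UU V m) W}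
    (hab : Adm (XInv w) a b) : Adm (XInv w) (a * lm W (pS V S)) (b * lm W (pS V S)) where
  gp := hab.gp.cut (kxi_proj_lm (isStarProjection_pS S)) (commute_pS_of_inv hS hab.m1 hab.q1)
    (commute_pS_of_inv hS hab.m2 hab.q2)
  m1 := KA.mul_lm hab.m1 _
  m2 := KA.mul_lm hab.m2 _
  q1 := hab.q1.mul (cinv_pS S).lm
  q2 := hab.q2.mul (cinv_pS S).lm
  g1 := by rw [map_mul, hab.g1, al_lm, hat_pS]
  g2 := by rw [map_mul, hab.g2, al_lm, hat_pS, neg_mul]

theorem Adm.add_orth {a b a' b' q : Op (UU V m) W} (h : Adm (XInv w) a b)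
    (h' : Adm (XInv w) a' b') (hq : star q = q) (ha : a * q = a) (hb : b * q = b)
    (ha' : a' * q = 0) (hb' : b' * q = 0) : Adm (XInv w) (a + a') (b + b') where
  gp := h.gp.add_orth h'.gp hq ha hb ha' hb'
  m1 := KA.add_mem h.m1 h'.m1
  m2 := KA.add_mem h.m2 h'.m2
  q1 := h.q1.add h'.q1
  q2 := h.q2.add h'.q2
  g1 := by rw [map_add, h.g1, h'.g1]
  g2 := by rw [map_add, h.g2, h'.g2, neg_add]

theorem Adm.conj {a b u q : Op (UU V m) W} (h : Adm (XInv w) a b) (hq : star u * u = q)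
    (hqq : q * q = q) (ha : Commute q a) (hb : Commute q b) (hu : al (UU V m) W u = u)
    (hi : XInv w u) (hm : ∀ S ∈ KA (UU V m) W, u * S ∈ KA (UU V m) W) :
    Adm (XInv w) (u * a * star u) (u * b * star u) := by
  have hk : ∀ S ∈ KA (UU V m) W, u * S * star u ∈ KA (UU V m) W := fun S hS => by
    have h1 := KA.star_mem (hm _ (KA.star_mem (hm S hS)))
    rwa [star_mul, star_star] at h1
  exact ⟨h.gp.conj hq hqq ha hb, hk a h.m1, hk b h.m2, (hi.mul h.q1).mul hi.star,
    (hi.mul h.q2).mul hi.star, by rw [map_mul, map_mul, map_star, hu, h.g1],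
    by rw [map_mul, map_mul, map_star, hu, h.g2, mul_neg, neg_mul]⟩

theorem kxi_lam_kap_pS (n : ℕ) (S : Finset (Finset m)) :
    lam (kap1 m n) (inc n) (lm (E n) (pS (E n) S)) = lm (E (n + 1)) (pS (E (n + 1)) S) := by
  rw [lam_lm, kap1, clMap_kk_one_pS]

omit [FiniteDimensional ℝ W] in
theorem kxi_comm_cl (v : V) (S : Finset (Finset m)) :
    Commute (lm W (cl (UU.inl m v))) (lm W (pS V S)) := by
  rw [← clMap_cl]
  exact (commute_pS_clMap_inl S (cl v)).map (lmHom (UU V m) W)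

theorem kxi_jF_susp (n : ℕ) (S : Finset (Finset m)) (T : Op (E n) (E n)) :
    jF (pS (E (n + 1)) S) (lam (inc n) (inc n) T * vac (E (n + 1)) (inc n)) =
      lam (kap1 m n) (inc n) (jF (pS (E n) S) T) * vac (UU (E (n + 1)) m) (inc n) := by
  rw [jF, jF, map_mul, map_mul, lam_id_vac, kxi_lam_kap_pS, mul_assoc, mul_assoc,
    (commute_lm_vac _ _).eq,
    lam_lam' (k'' := (UU.inl m).comp (inc n)) (j'' := inc n) (fun _ => rfl) (fun _ => rfl),
    lam_lam' (k' := kap1 m n) (k'' := (UU.inl m).comp (inc n)) (j'' := inc n)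
      (fun u => (kk_inl (inc n) 1 _ u).symm) fun _ => rfl]

theorem kxi_jF_empty (T : Op V W) : jF (pS V (∅ : Finset (Finset m))) T = 0 := by
  rw [pS_empty, jF, lm_zero, mul_zero]

variable {A B : SSp} (GA : KIf A) (GB : YIf w B)

theorem exists_iS (S : Finset (Finset m)) :
    ∃ φ : SMap A B, GA.Rep GB φ fun n => jF (pS (E n) S) :=
  GA.exists_smap GB _ (fun _ => isCL_jF _) (fun _ _ _ h => (good_pS S).adm h)
    (fun n T _ _ => kxi_jF_susp n S T) fun n T _ _ v _ => by
      rw [← kxi_jF_susp, jF, jF, map_mul _ (_ * _), lam_lm, clMap_cl, mul_assoc _ (lm _ (pS _ S)),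
        ← (kxi_comm_cl v S).eq, mul_assoc]
      rfl

theorem exists_cut {S : Finset (Finset m)} (hS : Sat w S) :
    ∃ φ : SMap B B, GB.Rep GB φ fun n T => T * lm (E n) (pS (E n) S) := by
  have e : ∀ n (T : Op (UU (E n) m) (E n)),
      lam (kap1 m n) (inc n) T * vac (UU (E (n + 1)) m) (inc n) * lm _ (pS (E (n + 1)) S) =
      lam (kap1 m n) (inc n) (T * lm (E n) (pS (E n) S)) * vac (UU (E (n + 1)) m) (inc n) :=
    fun n T => by rw [map_mul, kxi_lam_kap_pS, mul_assoc, mul_assoc, (commute_lm_vac _ _).eq]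
  exact GB.exists_smap GB _ (fun _ => IsCL.id.mul_const _) (fun _ _ _ h => adm_cut hS h)
    (fun n T _ _ => e n T) fun n T _ _ v _ => by
      rw [← e, mul_assoc, (kxi_comm_cl v S).eq, ← mul_assoc]

variable {GA GB}

/-- Additivity for maps with orthogonal supports. -/
theorem kxi_add {X : SSp} {S S' : Finset (Finset m)} (h : Disjoint S S') {φ φ' ψ : SMap X B}
    (h1 : ∀ n x, GB.a1 n (φ.f n x) * lm (E n) (pS (E n) S) = GB.a1 n (φ.f n x) ∧
      GB.a2 n (φ.f n x) * lm (E n) (pS (E n) S) = GB.a2 n (φ.f n x))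
    (h2 : ∀ n x, GB.a1 n (φ'.f n x) * lm (E n) (pS (E n) S') = GB.a1 n (φ'.f n x) ∧
      GB.a2 n (φ'.f n x) * lm (E n) (pS (E n) S') = GB.a2 n (φ'.f n x))
    (h3 : ∀ n x, GB.a1 n (ψ.f n x) = GB.a1 n (φ.f n x) + GB.a1 n (φ'.f n x) ∧
      GB.a2 n (ψ.f n x) = GB.a2 n (φ.f n x) + GB.a2 n (φ'.f n x)) (a b : ℕ) (x : X.Pi a b) :
    ψ.pi a b x = φ.pi a b x + φ'.pi a b x := by
  have z : ∀ n (T : Op (UU (E n) m) (E n)), T * lm (E n) (pS (E n) S') = T →
      T * lm (E n) (pS (E n) S) = 0 := fun n T hT => by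
    rw [← hT, mul_assoc, ← lm_mul, pS_mul_pS, Finset.disjoint_iff_inter_eq_empty.1 h.symm,
      pS_empty, lm_zero, mul_zero]
  choose μ hμ hμ' using fun n => GB.exists_family (P := X.X n × X.X n) n
    (fun p => GB.a1 n (φ.f n p.1) + GB.a1 n (φ'.f n p.2))
    (fun p => GB.a2 n (φ.f n p.1) + GB.a2 n (φ'.f n p.2))
    ((((GB.continuous_a1 n).comp (φ.cont n)).comp continuous_fst).add
      (((GB.continuous_a1 n).comp (φ'.cont n)).comp continuous_snd))
    ((((GB.continuous_a2 n).comp (φ.cont n)).comp continuous_fst).add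
      (((GB.continuous_a2 n).comp (φ'.cont n)).comp continuous_snd))
    fun p => (GB.adm n _).add_orth (GB.adm n _)
      (kxi_proj_lm (isStarProjection_pS S)).isSelfAdjoint.star_eq (h1 n _).1 (h1 n _).2
      (z n _ (h2 n _).1) (z n _ (h2 n _).2)
  refine SMap.pi_add_of_mu φ φ' ψ (fun n x y => μ n (x, y)) hμ (fun n x => GB.ext ?_ ?_)
    (fun n x => GB.ext ?_ ?_) (fun n x => GB.ext ?_ ?_) a b x
  · rw [(hμ' n _).1, φ'.f_pt, GB.pt1, add_zero]
  · rw [(hμ' n _).2, φ'.f_pt, GB.pt2, add_zero]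
  · rw [(hμ' n _).1, φ.f_pt, GB.pt1, zero_add]
  · rw [(hμ' n _).2, φ.f_pt, GB.pt2, zero_add]
  · rw [(hμ' n _).1, (h3 n x).1]
  · rw [(hμ' n _).2, (h3 n x).2]

omit [FiniteDimensional ℝ W] in
theorem kxi_idem (T : Op (UU V m) W) (S : Finset (Finset m)) :
    T * lm W (pS V S) * lm W (pS V S) = T * lm W (pS V S) := by
  rw [mul_assoc, ← lm_mul, pS_mul_pS, Finset.inter_self]

theorem iS_union {S S' : Finset (Finset m)} (h : Disjoint S S') {φ φ' ψ : SMap A B}
    (hφ : GA.Rep GB φ fun n => jF (pS (E n) S)) (hφ' : GA.Rep GB φ' fun n => jF (pS (E n) S'))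
    (hψ : GA.Rep GB ψ fun n => jF (pS (E n) (S ∪ S'))) (a b : ℕ) (x : A.Pi a b) :
    ψ.pi a b x = φ.pi a b x + φ'.pi a b x :=
  kxi_add (GB := GB) h
    (fun n x => by rw [(hφ n x).1, (hφ n x).2]; exact ⟨kxi_idem _ _, kxi_idem _ _⟩)
    (fun n x => by rw [(hφ' n x).1, (hφ' n x).2]; exact ⟨kxi_idem _ _, kxi_idem _ _⟩)
    (fun n x => by
      rw [(hφ n x).1, (hφ n x).2, (hφ' n x).1, (hφ' n x).2, (hψ n x).1, (hψ n x).2]
      simp only [jF, pS_union h, lm_add, mul_add, and_self]) a b x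

theorem iS_sum {i : Finset m → SMap A B} (hi : ∀ J, GA.Rep GB (i J) fun n => jF (pJ (E n) J))
    {S : Finset (Finset m)} {ψ : SMap A B} (hψ : GA.Rep GB ψ fun n => jF (pS (E n) S)) (a b : ℕ)
    (x : A.Pi a b) : ψ.pi a b x = ∑ J ∈ S, (i J).pi a b x := by
  induction S using Finset.induction_on generalizing ψ with
  | empty =>
    exact SMap.pi_eq_zero_of_pt (fun n x => GB.eq_pt
      ((hψ n x).1.trans (kxi_jF_empty _))
      ((hψ n x).2.trans (kxi_jF_empty _))) a b x
  | insert J S hJ ih =>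
    obtain ⟨φ', hφ'⟩ := exists_iS GA GB S
    rw [Finset.sum_insert hJ, ← ih hφ']
    exact iS_union (S := {J}) (Finset.disjoint_singleton_left.2 hJ)
      (by simpa only [pS_singleton] using hi J) hφ' (by rwa [← Finset.insert_eq]) a b x

theorem cut_union {S S' : Finset (Finset m)} (h : Disjoint S S') (hS : Sat w S) (hS' : Sat w S')
    {φ φ' ψ : SMap B B} (hφ : GB.Rep GB φ fun n T => T * lm (E n) (pS (E n) S))
    (hφ' : GB.Rep GB φ' fun n T => T * lm (E n) (pS (E n) S'))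
    (hψ : GB.Rep GB ψ fun n T => T * lm (E n) (pS (E n) (S ∪ S'))) (a b : ℕ) (x : B.Pi a b) :
    ψ.pi a b x = φ.pi a b x + φ'.pi a b x :=
  (fun _ _ => kxi_add (GB := GB) h
    (fun n x => by rw [(hφ n x).1, (hφ n x).2]; exact ⟨kxi_idem _ _, kxi_idem _ _⟩)
    (fun n x => by rw [(hφ' n x).1, (hφ' n x).2]; exact ⟨kxi_idem _ _, kxi_idem _ _⟩)
    (fun n x => by
      rw [(hφ n x).1, (hφ n x).2, (hφ' n x).1, (hφ' n x).2, (hψ n x).1, (hψ n x).2]
      simp only [pS_union h, lm_add, mul_add, and_self]) a b x) hS hS'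

theorem cut_sum {c : (ι → ℤ) → SMap B B}
    (hc : ∀ l, GB.Rep GB (c l) fun n T => T * lm (E n) (pS (E n) (cls1 w l))) (a b : ℕ)
    (x : B.Pi a b) : x = ∑ l ∈ wAll w, (c l).pi a b x := by
  classical
  have key : ∀ (L : Finset (ι → ℤ)) (ψ : SMap B B),
      (GB.Rep GB ψ fun n T => T * lm (E n) (pS (E n) (Finset.univ.filter fun J => wJ w J ∈ L))) →
      ψ.pi a b x = ∑ l ∈ L, (c l).pi a b x := fun L => by
    induction L using Finset.induction_on with
    | empty =>
      intro ψ hψ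
      exact SMap.pi_eq_zero_of_pt (fun n x => GB.eq_pt
        (by rw [(hψ n x).1]; simp [pS_empty, lm_zero])
        (by rw [(hψ n x).2]; simp [pS_empty, lm_zero])) a b x
    | insert l L hl ih =>
      intro ψ hψ
      have hs : Sat w (Finset.univ.filter fun J => wJ w J ∈ L) := fun I J e hI =>
        Finset.mem_filter.2 ⟨Finset.mem_univ _, e ▸ (Finset.mem_filter.1 hI).2⟩
      obtain ⟨φ', hφ'⟩ := exists_cut GB hs
      rw [Finset.sum_insert hl, ← ih φ' hφ']
      have hd : Disjoint (cls1 w l) (Finset.univ.filter fun J : Finset m => wJ w J ∈ L) :=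
        Finset.disjoint_left.2 fun J h1 h2 => hl (by
          rw [← mem_cls1.1 h1]
          exact (Finset.mem_filter.1 h2).2)
      refine cut_union hd (sat_cls1 l) hs (hc l) hφ' ?_ a b x
      have e : cls1 w l ∪ Finset.univ.filter (fun J : Finset m => wJ w J ∈ L) =
          Finset.univ.filter fun J : Finset m => wJ w J ∈ (insert l L : Finset (ι → ℤ)) := by
        ext J
        simp only [Finset.mem_union, mem_cls1, Finset.mem_filter, Finset.mem_univ, true_and,
          Finset.mem_insert]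
      rwa [e]
  rw [← key (wAll w) (SMap.id B) fun n y => ?_, SMap.pi_id]
  have e : (Finset.univ.filter fun J : Finset m => wJ w J ∈ wAll w) = Finset.univ :=
    Finset.filter_true_of_mem fun J _ => by simp [wAll]
  simp only [e, pS_univ, lm_one, mul_one]
  exact ⟨rfl, rfl⟩

open Classical in
theorem cut_i {l : ι → ℤ} {J : Finset m} {c : SMap B B} {φ : SMap A B}
    (hc : GB.Rep GB c fun n T => T * lm (E n) (pS (E n) (cls1 w l)))
    (hφ : GA.Rep GB φ fun n => jF (pJ (E n) J)) (a b : ℕ) (y : A.Pi a b) :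
    c.pi a b (φ.pi a b y) = if wJ w J = l then φ.pi a b y else 0 := by
  have e : ∀ n (T : Op (E n) (E n)), jF (pJ (E n) J) T * lm (E n) (pS (E n) (cls1 w l)) =
      jF (pS (E n) ({J} ∩ cls1 w l)) T := fun n T => by
    rw [jF, jF, mul_assoc, ← lm_mul, ← pS_singleton, pS_mul_pS]
  have h : GA.Rep GB (c.comp φ) fun n => jF (pS (E n) ({J} ∩ cls1 w l)) := fun n x =>
    ⟨(hc n _).1.trans (by rw [(hφ n x).1]; exact e n _),
      (hc n _).2.trans (by rw [(hφ n x).2]; exact e n _)⟩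
  rw [← SMap.pi_comp]
  split_ifs with k
  · rw [Finset.singleton_inter_of_mem (mem_cls1.2 k)] at h
    rw [h.pi_eq hφ (fun n T _ _ => by rw [pS_singleton]) a b]
  · rw [Finset.singleton_inter_of_notMem (mt mem_cls1.1 k)] at h
    exact SMap.pi_eq_zero_of_pt (fun n x => GB.eq_pt
      ((h n x).1.trans (kxi_jF_empty _))
      ((h n x).2.trans (kxi_jF_empty _))) a b y

theorem pi_eq_of_path (d : ∀ n, I → Cl (UU (E n) m)) (hd : ∀ n, Continuous (d n))
    (hg : ∀ n s, Good w (d n s)) {φ ψ : SMap A B} (hφ : GA.Rep GB φ fun n => jF (d n 0))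
    (hψ : GA.Rep GB ψ fun n => jF (d n 1)) (a b : ℕ) : φ.pi a b = ψ.pi a b := by
  have hc : ∀ n (f : A.X n → Op (E n) (E n)), Continuous f →
      Continuous fun p : A.X n × I => jF (d n p.2) (f p.1) := fun n f hf =>
    (((isCL_lam _ _).1.comp hf).comp continuous_fst).mul
      ((continuous_lm.comp (hd n)).comp continuous_snd)
  choose H hH hH' using fun n => GB.exists_family (P := A.X n × I) n
    (fun p => jF (d n p.2) (GA.a1 n p.1)) (fun p => jF (d n p.2) (GA.a2 n p.1))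
    (hc n _ (GA.continuous_a1 n)) (hc n _ (GA.continuous_a2 n))
    fun p => (hg n p.2).adm (GA.adm n p.1)
  refine SMap.pi_homotopy (fun n x s => H n (x, s)) hH (fun n x => GB.ext ?_ ?_)
    (fun n x => GB.ext ?_ ?_) (fun n s => GB.eq_pt ?_ ?_) a b
  · rw [(hH' n _).1, (hφ n x).1]
  · rw [(hH' n _).2, (hφ n x).2]
  · rw [(hH' n _).1, (hψ n x).1]
  · rw [(hH' n _).2, (hψ n x).2]
  · rw [(hH' n _).1, GA.pt1, (isCL_jF _).map_zero]
  · rw [(hH' n _).2, GA.pt2, (isCL_jF _).map_zero]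

end Pool.Agent.Lib.E2
end
end

-- part Pool.Agent.Lib.MP_10be03_gt.KXRel
section

/-!
States of the same weight induce the same map up to the parity sign.
-/

noncomputable section
open scoped Matrix unitInterval

namespace Pool.Agent.Lib.E2

variable {ι m : Type} [Fintype ι] [Fintype m] [DecidableEq m] {w : m → ι → ℤ} {A B : SSp}
  {GA : KIf A} {GB : YIf w B}

section Aux

variable {V W : Type} [NormedAddCommGroup V] [InnerProductSpace ℝ V] [FiniteDimensional ℝ V]
  [NormedAddCommGroup W] [InnerProductSpace ℝ W] [FiniteDimensional ℝ W]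

/-- Invariant homogeneous mode elements. -/
def kxOk (w : m → ι → ℤ) (e : ℂ) (d : Cl (UU V m)) : Prop :=
  hat d = e • d ∧ (∀ v, cl (UU.inl m v) * d = e • (d * cl (UU.inl m v))) ∧ CInv w d

omit [FiniteDimensional ℝ V] in
theorem kxOk_add {e : ℂ} {d d' : Cl (UU V m)} (h : kxOk w e d) (h' : kxOk w e d') :
    kxOk w e (d + d') :=
  ⟨by rw [hat_add, h.1, h'.1, smul_add],
    fun v => by rw [mul_add, add_mul, h.2.1, h'.2.1, smul_add],
    fun t => by rw [map_add, h.2.2 t, h'.2.2 t]⟩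

omit [FiniteDimensional ℝ V] in
theorem kxOk_smul {e : ℂ} {d : Cl (UU V m)} (h : kxOk w e d) (r : ℂ) : kxOk w e (r • d) :=
  ⟨by rw [hat_smul, h.1, smul_comm],
    fun v => by rw [mul_smul_comm, h.2.1, smul_mul_assoc, smul_comm],
    fun t => by rw [map_smul, h.2.2 t]⟩

theorem kxOk_mu {K J : Finset m} (hw : wJ w K = wJ w J) {e : ℂ}
    (he : (-1 : ℂ) ^ (K.card + J.card) = e) : kxOk w e (muJ V K J) :=
  ⟨he ▸ hat_muJ K J, fun v => he ▸ cl_inl_muJ v K J, cinv_muJ hw⟩

theorem kx_good {K J : Finset m} (hne : K ≠ J) (hw : wJ w K = wJ w J)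
    (he : Even (K.card + J.card)) {t q : ℝ} (hq : q * q = t * (1 - t)) :
    Good w (((1 - t : ℝ) : ℂ) • muJ V K K + (q : ℂ) • (muJ V K J + muJ V J K) +
      (t : ℂ) • muJ V J J) := by
  have h := kxOk_add (kxOk_add
    (kxOk_smul (kxOk_mu (V := V) (w := w) (K := K) rfl (Even.add_self _).neg_one_pow)
      ((1 - t : ℝ) : ℂ))
    (kxOk_smul (kxOk_add (kxOk_mu hw he.neg_one_pow)
      (kxOk_mu hw.symm (by rw [add_comm, he.neg_one_pow]))) (q : ℂ)))
    (kxOk_smul (kxOk_mu (K := J) rfl (Even.add_self _).neg_one_pow) (t : ℂ))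
  refine ⟨⟨?_, ?_⟩, h.1.trans (one_smul _ _),
    commute_clMap fun v => (h.2.1 v).trans (one_smul _ _), h.2.2⟩
  · have hq' : (q : ℂ) * q = t * (1 - t) := by exact_mod_cast hq
    simp only [IsIdempotentElem, add_mul, mul_add, smul_add, smul_mul_smul_comm, muJ_mul_muJ,
      muJ_mul_of_ne _ hne, muJ_mul_of_ne _ hne.symm, smul_zero, Complex.ofReal_sub,
      Complex.ofReal_one]
    match_scalars
    · linear_combination hq'
    · ring
    · ring
    · linear_combination hq'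
  · simp only [IsSelfAdjoint, star_add, star_smul, star_muJ, Complex.star_def, Complex.conj_ofReal,
      add_comm (muJ V J K)]

theorem kx_adm {P D : Cl (UU V m)} (hP : Good w P) (hD : kxOk w (-1) D) (hs : star D = D)
    (h1 : D * D = P) (h2 : P * D = D) {r : ℝ} (h0 : 0 ≤ r) (hr : r ≤ 1) {a b : Op V W}
    (hab : Adm (fun _ => True) a b) :
    Adm (XInv w) (lam (UU.inl m) LinearIsometry.id a * ((r : ℂ) • lm W P))
      (lam (UU.inl m) LinearIsometry.id b * ((r : ℂ) • lm W P) +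
        lam (UU.inl m) LinearIsometry.id a *
          ((Real.sqrt (-(r ^ 2 * Real.log r)) : ℂ) • lm W D)) := by
  have hd : ∀ v, cl (UU.inl m v) * D = -(D * cl (UU.inl m v)) := fun v =>
    (hD.2.1 v).trans (neg_one_smul _ _)
  have ea := lm_mul_lam_inl_of_odd hd hab.m1
  have eb := lm_mul_lam_inl_of_odd hd hab.m2
  rw [hab.g1] at ea
  rw [hab.g2, map_neg, neg_mul] at eb
  have hm : ∀ {T : Op V W} (c : ℂ) (d : Cl (UU V m)), T ∈ KA V W →
      lam (UU.inl m) LinearIsometry.id T * (c • lm W d) ∈ KA (UU V m) W := fun c d hT => by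
    rw [mul_smul_comm]
    exact KA.smul_mem _ (KA.mul_lm (lam_mem_of_surj _ Function.surjective_id hT) d)
  refine ⟨(hab.gp.mapOn ⊤ isClosed_univ trivial trivial (isCL_lam _ _).2
    (fun x _ y _ => map_mul _ x y) fun x _ => map_star _ x).mul (isGP_corner ⟨?_, ?_⟩ ?_ ?_ ?_ h0 hr)
    ((commute_lm_lam_of_mem _ _ hP.comm hab.m1).smul_right _) (Commute.smul_right ea.symm _)
    ((commute_lm_lam_of_mem _ _ hP.comm hab.m2).smul_right _) ?_, hm _ _ hab.m1,
    KA.add_mem (hm _ _ hab.m2) (hm _ _ hab.m1), (xinv_lam_inl a).mul (hP.inv.lm.smul _),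
    ((xinv_lam_inl b).mul (hP.inv.lm.smul _)).add ((xinv_lam_inl a).mul (hD.2.2.lm.smul _)),
    ?_, ?_⟩
  · rw [IsIdempotentElem, ← lm_mul, hP.proj.isIdempotentElem.eq]
  · rw [IsSelfAdjoint, ← lm_star, hP.proj.isSelfAdjoint.star_eq]
  · rw [← lm_star, hs]
  · rw [← lm_mul, h1]
  · rw [← lm_mul, h2]
  · rw [mul_smul_comm, smul_mul_assoc, eb, smul_neg, neg_neg]
  · rw [map_mul, map_smul, al_lam, hab.g1, al_lm, hP.ev]
  · rw [map_add, map_mul, map_mul, map_smul, map_smul, al_lam, al_lam, hab.g1, hab.g2, al_lm,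
      al_lm, hP.ev, hD.1, neg_one_smul, lm_neg, map_neg, smul_neg, mul_neg, neg_mul, neg_add]

end Aux

theorem i_rel_even {K J : Finset m} (hw : wJ w K = wJ w J) (he : Even (K.card + J.card))
    {φ ψ : SMap A B} (hφ : GA.Rep GB φ fun n => jF (pJ (E n) K))
    (hψ : GA.Rep GB ψ fun n => jF (pJ (E n) J)) (a b : ℕ) : φ.pi a b = ψ.pi a b := by
  by_cases hne : K = J
  · subst hne
    exact hφ.pi_eq hψ (fun _ _ _ _ => rfl) a b
  refine pi_eq_of_path (GA := GA) (GB := GB) (fun n (t : I) => ((1 - t : ℝ) : ℂ) • muJ (E n) K K +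
    (Real.sqrt (t * (1 - t)) : ℂ) • (muJ (E n) K J + muJ (E n) J K) + ((t : ℝ) : ℂ) • muJ (E n) J J)
    (fun n => by fun_prop) (fun n t => kx_good hne hw he
      (Real.mul_self_sqrt (mul_nonneg t.2.1 (sub_nonneg.2 t.2.2)))) ?_ ?_ a b
  · simpa [muJ_self] using hφ
  · simpa [muJ_self] using hψ

theorem i_null_odd {K J : Finset m} (hw : wJ w K = wJ w J) (ho : Odd (K.card + J.card))
    {φ : SMap A B} (hφ : GA.Rep GB φ fun n => jF (pS (E n) {K, J})) (a b : ℕ) (y : A.Pi a b) :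
    φ.pi a b y = 0 := by
  have hne : K ≠ J := by
    rintro rfl
    exact Nat.not_odd_iff_even.2 (Even.add_self _) ho
  have hP : ∀ n, pS (E n) {K, J} = muJ (E n) K K + muJ (E n) J J := fun n => by
    rw [pS, Finset.sum_pair hne, muJ_self, muJ_self]
  have hg : Continuous fun r : ℝ => Real.sqrt (-(r ^ 2 * Real.log r)) := continuous_sq_log.sqrt
  have hl : ∀ n, Continuous (lam (UU.inl m) (LinearIsometry.id : E n →ₗᵢ[ℝ] E n) :
      Op (E n) (E n) → Op (UU (E n) m) (E n)) := fun n => (isCL_lam _ _).1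
  choose H h0 h1 using fun n => GB.exists_family (P := A.X n × I) n
    (fun p => lam (UU.inl m) LinearIsometry.id (GA.a1 n p.1) *
      (((1 - p.2 : ℝ) : ℂ) • lm (E n) (pS (E n) {K, J})))
    (fun p => lam (UU.inl m) LinearIsometry.id (GA.a2 n p.1) *
      (((1 - p.2 : ℝ) : ℂ) • lm (E n) (pS (E n) {K, J})) +
      lam (UU.inl m) LinearIsometry.id (GA.a1 n p.1) *
        ((Real.sqrt (-((1 - p.2 : ℝ) ^ 2 * Real.log (1 - p.2))) : ℂ) •
          lm (E n) (muJ (E n) K J + muJ (E n) J K)))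
    (((hl n).comp ((GA.continuous_a1 n).comp continuous_fst)).mul (by fun_prop))
    ((((hl n).comp ((GA.continuous_a2 n).comp continuous_fst)).mul (by fun_prop)).add
      (((hl n).comp ((GA.continuous_a1 n).comp continuous_fst)).mul
        ((Complex.continuous_ofReal.comp (hg.comp (by fun_prop))).smul continuous_const)))
    fun p => kx_adm (good_pS _) (kxOk_add (kxOk_mu hw ho.neg_one_pow)
      (kxOk_mu hw.symm (by rw [add_comm, ho.neg_one_pow])))
      (by rw [star_add, star_muJ, star_muJ, add_comm])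
      (by simp only [hP, add_mul, mul_add, muJ_mul_muJ, muJ_mul_of_ne _ hne,
        muJ_mul_of_ne _ hne.symm, zero_add, add_comm])
      (by simp only [hP, add_mul, mul_add, muJ_mul_muJ, muJ_mul_of_ne _ hne,
        muJ_mul_of_ne _ hne.symm, add_zero, zero_add])
      (sub_nonneg.2 p.2.2.2) (sub_le_self _ p.2.2.1) (GA.adm n p.1)
  refine SMap.pi_null (fun n x s => H n (x, s)) h0 (fun n x => GB.ext ?_ ?_)
    (fun n x => GB.eq_pt ?_ ?_) (fun n s => GB.eq_pt ?_ ?_) a b y
  · rw [(h1 n _).1, (hφ n x).1]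
    simp [jF]
  · rw [(h1 n _).2, (hφ n x).2]
    simp [jF]
  · rw [(h1 n _).1]
    simp
  · rw [(h1 n _).2]
    simp
  · rw [(h1 n _).1, GA.pt1, map_zero, zero_mul]
  · rw [(h1 n _).2, GA.pt1, GA.pt2, map_zero, zero_mul, zero_mul, add_zero]

theorem i_rel {i : Finset m → SMap A B} (hi : ∀ J, GA.Rep GB (i J) fun n => jF (pJ (E n) J))
    {K J : Finset m} (hw : wJ w K = wJ w J) (a b : ℕ) (y : A.Pi a b) :
    (i J).pi a b y = (-1 : ℤ) ^ (K.card + J.card) • (i K).pi a b y := by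
  rcases Nat.even_or_odd (K.card + J.card) with h | h
  · rw [h.neg_one_pow, one_smul, i_rel_even hw h (hi K) (hi J)]
  · have hne : K ≠ J := by
      rintro rfl
      exact Nat.not_odd_iff_even.2 (Even.add_self _) h
    obtain ⟨φ, hφ⟩ := exists_iS GA GB {K, J}
    have e := iS_sum hi hφ a b y
    rw [i_null_odd hw h hφ, Finset.sum_pair hne] at e
    rw [h.neg_one_pow, neg_one_smul]
    exact eq_neg_of_add_eq_zero_right e.symm

end Pool.Agent.Lib.E2
end
end

-- part Pool.Agent.Lib.MP_10be03_gt.KXRet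
section

/-!
A weight class deforms stably into one state.
-/

noncomputable section
open scoped Matrix unitInterval

namespace Pool.Agent.Lib.E2

variable {ι m : Type} [Fintype ι] [Fintype m] [DecidableEq m] {w : m → ι → ℤ} {A B : SSp}
  {GA : KIf A} {GB : YIf w B}

theorem kx_slice (J : Finset m) (n : ℕ) :
    ∃ sl : Op (UU (E n) m) (E n) →L[ℂ] Op (E n) (E n), (∀ T, sl (jF (pJ (E n) J) T) = T) ∧
      ∀ T ∈ KA (UU (E n) m) (E n), sl T ∈ KA (E n) (E n) ∧
        jF (pJ (E n) J) (sl T) = lm (E n) (pJ (E n) J) * T * lm (E n) (pJ (E n) J) :=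
  exists_slice (E n) (UU.inl m) (isStarProjection_pJ J) (pJ_ne_zero J) (perpC_pJ J)
    (commute_pJ_clMap_inl J) (exists_corner J)

theorem i_isEmbedding {J : Finset m} {φ : SMap A B} (hφ : GA.Rep GB φ fun n => jF (pJ (E n) J))
    (n : ℕ) : Topology.IsEmbedding (φ.f n) := by
  obtain ⟨sl, h1, -⟩ := kx_slice J n
  refine Topology.IsEmbedding.of_comp (φ.cont n)
    (g := fun y => (sl (GB.a1 n y), sl (GB.a2 n y)))
    ((sl.continuous.comp (GB.continuous_a1 n)).prodMk (sl.continuous.comp (GB.continuous_a2 n))) ?_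
  convert GA.emb n using 1
  funext x
  simp only [Function.comp_apply, (hφ n x).1, (hφ n x).2, h1]

/-- The corner of a projection in `KA`. -/
def kxCorner {U V : Type} [NormedAddCommGroup U] [InnerProductSpace ℝ U] [FiniteDimensional ℝ U]
    [NormedAddCommGroup V] [InnerProductSpace ℝ V] (p : Op U V) (hp : star p = p) :
    NonUnitalStarSubalgebra ℂ (Op U V) where
  carrier := {T | T ∈ KA U V ∧ p * T = T ∧ T * p = T}
  add_mem' h h' := ⟨KA.add_mem h.1 h'.1, by rw [mul_add, h.2.1, h'.2.1],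
    by rw [add_mul, h.2.2, h'.2.2]⟩
  zero_mem' := ⟨KA.zero_mem, mul_zero _, zero_mul _⟩
  mul_mem' h h' := ⟨KA.mul_mem h.1 h'.1, by rw [← mul_assoc, h.2.1], by rw [mul_assoc, h'.2.2]⟩
  smul_mem' r _ h := ⟨KA.smul_mem r h.1, by rw [mul_smul_comm, h.2.1],
    by rw [smul_mul_assoc, h.2.2]⟩
  star_mem' h := ⟨KA.star_mem h.1, by rw [← hp, ← star_mul, h.2.2],
    by rw [← hp, ← star_mul, h.2.1]⟩

theorem mem_range_i {J : Finset m} {φ : SMap A B} (hφ : GA.Rep GB φ fun n => jF (pJ (E n) J))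
    {n : ℕ} {y : B.X n} (h1 : lm (E n) (pJ (E n) J) * GB.a1 n y = GB.a1 n y)
    (h2 : lm (E n) (pJ (E n) J) * GB.a2 n y = GB.a2 n y) : y ∈ Set.range (φ.f n) := by
  obtain ⟨sl, s1, s2⟩ := kx_slice J n
  have hp : star (lm (E n) (pJ (E n) J)) = lm (E n) (pJ (E n) J) := by rw [← lm_star, star_pJ]
  have hpp : lm (E n) (pJ (E n) J) * lm (E n) (pJ (E n) J) = lm (E n) (pJ (E n) J) := by
    rw [← lm_mul, pJ_mul_self]
  have ad := GB.adm n y
  have inj : ∀ {S T : Op (E n) (E n)}, jF (pJ (E n) J) S = jF (pJ (E n) J) T → S = T :=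
    fun {S T} h => by rw [← s1 S, h, s1]
  have hc : ∀ T ∈ KA (E n) (E n), Commute (lam (UU.inl m) (LinearIsometry.id : E n →ₗᵢ[ℝ] E n) T)
      (lm (E n) (pJ (E n) J)) := fun T hT =>
    commute_lm_lam_of_mem _ _ (commute_pJ_clMap_inl J) hT
  have key : ∀ T ∈ kxCorner _ hp, jF (pJ (E n) J) (sl T) = T := fun T hT => by
    rw [(s2 T hT.1).2, hT.2.1, hT.2.2]
  have m1 : GB.a1 n y ∈ kxCorner _ hp :=
    ⟨ad.m1, h1, by rw [← hp, ← ad.gp.sa1.star_eq, ← star_mul, h1]⟩
  have m2 : GB.a2 n y ∈ kxCorner _ hp :=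
    ⟨ad.m2, h2, by rw [← hp, ← ad.gp.sa2.star_eq, ← star_mul, h2]⟩
  have hal : ∀ T, jF (pJ (E n) J) (al (E n) (E n) T) = al _ _ (jF (pJ (E n) J) T) := fun T => by
    rw [jF, jF, map_mul, al_lam, al_lm, hat_pJ]
  have hcl : IsClosed (kxCorner _ hp : Set (Op (UU (E n) m) (E n))) :=
    isClosed_KA.inter ((isClosed_eq (continuous_const.mul continuous_id) continuous_id).inter
      (isClosed_eq (continuous_id.mul continuous_const) continuous_id))
  obtain ⟨x, e1, e2⟩ := GA.onto n (sl (GB.a1 n y)) (sl (GB.a2 n y))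
    ⟨ad.gp.mapOn _ hcl m1 m2 ⟨map_add sl, map_smul sl⟩ (fun S hS T hT => inj (by
        rw [key _ (mul_mem hS hT), jF, map_mul, ← hpp, mul_assoc, ← mul_assoc _ (lm _ _),
          (hc _ (s2 T hT.1).1).eq, mul_assoc, ← mul_assoc]
        exact congrArg₂ (· * ·) (key S hS).symm (key T hT).symm))
      (fun S hS => inj (by
        rw [key _ (star_mem hS), jF, map_star, ← hp, ← star_mul, ← (hc _ (s2 S hS.1).1).eq]
        exact congrArg star (key S hS).symm)),
      (s2 _ ad.m1).1, (s2 _ ad.m2).1, trivial, trivial,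
      inj (by rw [hal, key _ m1, ad.g1]),
      inj (by rw [hal, (isCL_jF _).map_neg, key _ m2, ad.g2])⟩
  exact ⟨x, GB.ext (by rw [(hφ n x).1, e1]; exact key _ m1) (by rw [(hφ n x).2, e2]; exact key _ m2)⟩

theorem kx_rot {R : Type} [CStarAlgebra R] {P T : R} (hP : star P = P) (hPP : P * P = P)
    (hT : star T * T = P) (h0 : P * T = 0) (θ : ℝ) :
    star ((Real.cos θ : ℂ) • P + (Real.sin θ : ℂ) • T) *
      ((Real.cos θ : ℂ) • P + (Real.sin θ : ℂ) • T) = P := by
  have h1 : star T * P = 0 := by rw [← hP, ← star_mul, h0, star_zero]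
  have h2 : (Real.cos θ : ℂ) * Real.cos θ + (Real.sin θ : ℂ) * Real.sin θ = 1 := by
    rw [← sq, ← sq]
    exact_mod_cast Real.cos_sq_add_sin_sq θ
  simp only [star_add, star_smul, RCLike.star_def, Complex.conj_ofReal, hP, add_mul, mul_add,
    smul_mul_smul_comm, hPP, hT, h0, h1, smul_zero, add_zero, zero_add]
  rw [← add_smul, h2, one_smul]

theorem kx_vac_mul_mem {U V V' : Type} [NormedAddCommGroup U] [InnerProductSpace ℝ U]
    [FiniteDimensional ℝ U] [NormedAddCommGroup V] [InnerProductSpace ℝ V] [FiniteDimensional ℝ V]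
    [NormedAddCommGroup V'] [InnerProductSpace ℝ V'] (j : V →ₗᵢ[ℝ] V') {S : Op U V'}
    (hS : S ∈ KA U V') : vac U j * S ∈ KA U V' :=
  KA.map_mem (IsCL.id.const_mul _) (fun v v' c => by
    obtain ⟨u, x, hx, rfl⟩ := exists_dec j v
    have : vac U j * th (j u + x) v' c = th (j u) v' c := Op.ext_kv fun y d => by
      rw [Op.mul_ap, th_kv, th_kv, map_smul, vac_kv j u hx]
    rw [this]
    exact th_mem _ _ _) hS

theorem i_ret {J : Finset m} {φ : SMap A B} (hφ : GA.Rep GB φ fun n => jF (pJ (E n) J))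
    {c : SMap B B} (hc : GB.Rep GB c fun n T => T * lm (E n) (pS (E n) (cls1 w (wJ w J))))
    (a b : ℕ) : Function.Injective (φ.pi a b) ∧ ∀ x, c.pi a b x ∈ (φ.pi a b).range := by
  have pz : ∀ n, pJ (E n) J * pS (E n) (cls1 w (wJ w J)) = pJ (E n) J := fun n => by
    rw [← pS_singleton, pS_mul_pS, Finset.singleton_inter_of_mem (mem_cls1.2 rfl)]
  have key : ∀ n, ∃ H : B.X n × I × I → B.X (n + 1), Continuous H ∧
      (∀ x u, H (x, u, 0) = c.f (n + 1) (B.sg n x u)) ∧
      (∀ x u, H (x, u, 1) ∈ Set.range (φ.f (n + 1))) ∧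
      (∀ x u s, B.sg n x u ∈ Set.range (φ.f (n + 1)) → H (x, u, s) ∈ Set.range (φ.f (n + 1))) ∧
      ∀ x u s, B.sg n x u = B.pt (n + 1) → H (x, u, s) = B.pt (n + 1) := fun n => by
    obtain ⟨e, he, h1⟩ := exists_unit_perp n
    obtain ⟨T, t1, t2, t3, t4, t5, t6⟩ := exists_W w (inc n) he h1 J
    set z := lm (E (n + 1)) (pS (E (n + 1)) (cls1 w (wJ w J))) with hz
    set v := vac (UU (E (n + 1)) m) (inc n) with hv
    set p := lm (E (n + 1)) (pJ (E (n + 1)) J) with hp
    have zv : Commute z v := commute_lm_vac _ _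
    have pv : Commute p v := commute_lm_vac _ _
    have sP : star (z * v) = z * v := by rw [← t1, star_mul, star_star]
    have zz : z * z = z := by rw [hz, ← lm_mul, (isStarProjection_pS _).isIdempotentElem.eq]
    have PP : z * v * (z * v) = z * v := by
      rw [mul_assoc, ← mul_assoc v, ← zv.eq, mul_assoc, vac_mul_vac, ← mul_assoc, zz]
    have P0 : z * v * T = 0 := by rw [mul_assoc, t2, mul_zero]
    have pp' : p * p = p := by rw [hp, ← lm_mul, pJ_mul_self]
    have pz' : p * z = p := by rw [hp, hz, ← lm_mul, pz]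
    have zp : z * p = p := by
      rw [hp, hz, ← lm_mul, ← star_pJ, ← (isStarProjection_pS _).isSelfAdjoint.star_eq, ← star_mul,
        pz]
    let u : I → Op (UU (E (n + 1)) m) (E (n + 1)) := fun s =>
      (Real.cos (Real.pi / 2 * s) : ℂ) • (z * v) + (Real.sin (Real.pi / 2 * s) : ℂ) • T
    have cu : Continuous u := by fun_prop
    have u0 : u 0 = z * v := by simp [u]
    have u1 : u 1 = T := by simp [u]
    have up : ∀ s, p * (u s * p) = u s * p := fun s => by
      simp only [u, add_mul, mul_add, smul_mul_assoc, mul_smul_comm]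
      rw [← mul_assoc p T, t6, mul_assoc z, ← pv.eq, ← mul_assoc z, zp, ← mul_assoc, pp']
    have cz : ∀ x t, Commute z (GB.a1 (n + 1) (B.sg n x t)) ∧
        Commute z (GB.a2 (n + 1) (B.sg n x t)) := fun x t =>
      ⟨commute_pS_of_inv (sat_cls1 _) (GB.adm _ _).m1 (GB.adm _ _).q1,
        commute_pS_of_inv (sat_cls1 _) (GB.adm _ _).m2 (GB.adm _ _).q2⟩
    have cs : Continuous fun q : B.X n × I × I => B.sg n q.1 q.2.1 :=
      (B.cont n).comp (continuous_fst.prodMk (continuous_fst.comp continuous_snd))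
    have cu' : Continuous fun q : B.X n × I × I => u q.2.2 :=
      cu.comp (continuous_snd.comp continuous_snd)
    obtain ⟨H, hH, eH⟩ := GB.exists_family (n + 1)
      (fun q : B.X n × I × I => u q.2.2 * GB.a1 (n + 1) (B.sg n q.1 q.2.1) * star (u q.2.2))
      (fun q => u q.2.2 * GB.a2 (n + 1) (B.sg n q.1 q.2.1) * star (u q.2.2))
      ((cu'.mul ((GB.continuous_a1 _).comp cs)).mul cu'.star)
      ((cu'.mul ((GB.continuous_a2 _).comp cs)).mul cu'.star) fun q => by
        obtain ⟨v1, v2, v3, v4⟩ := GB.vac_mul_sg n q.1 q.2.1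
        refine (GB.adm _ _).conj (kx_rot sP PP t1 P0 _) PP
          ((cz _ _).1.mul_left (v1.trans v3.symm)) ((cz _ _).2.mul_left (v2.trans v4.symm)) ?_
          (((((cinv_pS _).lm).mul (xinv_vac _)).smul _).add (t4.smul _)) fun S hS => ?_
        · simp only [u, map_add, map_smul, map_mul, t3, hz, hv, al_lm, al_vac, hat_pS]
        · simp only [u, add_mul, smul_mul_assoc, mul_assoc]
          exact KA.add_mem (KA.smul_mem _ (KA.lm_mul (kx_vac_mul_mem _ hS) _))
            (KA.smul_mem _ (t5 S hS))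
    have c0 : ∀ S : Op (UU (E (n + 1)) m) (E (n + 1)), Commute z S → v * S = S → S * v = S →
        z * v * S * (z * v) = S * z := fun S h h1 h2 => by
      rw [mul_assoc z, h1, zv.eq, h.eq, mul_assoc, ← mul_assoc z, zv.eq, mul_assoc, zz, ← mul_assoc,
        h2]
    refine ⟨H, hH, fun x t => ?_, fun x t => ?_, fun x t s hx => ?_, fun x t s hx => ?_⟩
    · obtain ⟨v1, v2, v3, v4⟩ := GB.vac_mul_sg n x t
      refine GB.ext ?_ ?_
      · rw [(eH _).1, (hc _ _).1, u0, sP]; exact c0 _ (cz x t).1 v1 v3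
      · rw [(eH _).2, (hc _ _).2, u0, sP]; exact c0 _ (cz x t).2 v2 v4
    · refine mem_range_i hφ ?_ ?_
      · rw [(eH _).1, u1, ← mul_assoc, ← mul_assoc, t6]
      · rw [(eH _).2, u1, ← mul_assoc, ← mul_assoc, t6]
    · obtain ⟨y, hy⟩ := hx
      have f : ∀ S ∈ KA (E (n + 1)) (E (n + 1)),
          p * (u s * jF (pJ (E (n + 1)) J) S * star (u s)) =
            u s * jF (pJ (E (n + 1)) J) S * star (u s) := fun S hS => by
        rw [jF, (commute_lm_lam_of_mem _ _ (commute_pJ_clMap_inl J) hS).eq, ← mul_assoc (u s),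
          ← mul_assoc, ← mul_assoc, up]
      refine mem_range_i hφ ?_ ?_
      · rw [(eH _).1]; dsimp only; rw [← hy, (hφ _ y).1]; exact f _ (GA.adm _ y).m1
      · rw [(eH _).2]; dsimp only; rw [← hy, (hφ _ y).2]; exact f _ (GA.adm _ y).m2
    · refine GB.eq_pt ?_ ?_
      · rw [(eH _).1]; dsimp only; rw [hx, GB.pt1, mul_zero, zero_mul]
      · rw [(eH _).2]; dsimp only; rw [hx, GB.pt2, mul_zero, zero_mul]
  choose H hH H0 H1 Hi Hp using key
  refine stab_retract φ c (i_isEmbedding hφ) (fun n x => GB.ext ?_ ?_)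
    (fun n x u s => H n (x, u, s)) hH (fun n x u => (H0 n x u).trans (c.f_sg n x u)) H1
    (fun n x u s => Hi n _ u s ⟨_, φ.f_sg n x u⟩) (fun n u s => Hp n _ u s (B.sg_pt n u))
    (fun n x s => Hp n x 0 s (B.sg_zero n x)) (fun n x s => Hp n x 1 s (B.sg_one n x)) a b
  · rw [(hc n _).1, (hφ n x).1]; dsimp only; rw [jF, mul_assoc, ← lm_mul, pz]
  · rw [(hc n _).2, (hφ n x).2]; dsimp only; rw [jF, mul_assoc, ← lm_mul, pz]

end Pool.Agent.Lib.E2
end
end

-- part Pool.Agent.Lib.MP_10be03_gt.KXMain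
section

/-!
The character isomorphism.
-/

noncomputable section
open scoped Matrix TensorProduct

namespace Pool.Agent.Lib.E2

theorem chi_gen {ι m : Type} [Fintype ι] [Fintype m] [DecidableEq m] {w : m → ι → ℤ} {A B : SSp}
    (GA : KIf A) (GB : YIf w B) (a b : ℕ) : ∃ χ : B.Pi a b →+ LauR ι ⊗[ℤ] A.Pi a b,
      Function.Injective χ ∧
      χ.range = AddSubgroup.closure {z | ∃ J y, z = mono (wJ w J) ⊗ₜ[ℤ] y} ∧
      (∀ x, x ∈ AddSubgroup.closure {z | ∃ (J : Finset m) (g : SMap A B) (y : A.Pi a b),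
        (GA.Rep GB g fun n => jF (pJ (E n) J)) ∧ z = g.pi a b y}) ∧
      ∀ (S : Finset (Finset m)) (g : SMap A B), (GA.Rep GB g fun n => jF (pS (E n) S)) →
        ∀ y, χ (g.pi a b y) = (∑ J ∈ S, chJ w J) ⊗ₜ[ℤ] y := by
  classical
  have h1 : ∀ J : Finset m, ∃ φ : SMap A B, GA.Rep GB φ fun n => jF (pJ (E n) J) := fun J => by
    simpa only [pS_singleton] using exists_iS GA GB {J}
  choose i hi using h1
  choose c hc using fun l => exists_cut GB (sat_cls1 (w := w) l)
  obtain ⟨χ, a1, a2, a3, a4⟩ := exists_chi w (fun J => (i J).pi a b) (fun l => (c l).pi a b)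
    (fun K J hw y => i_rel hi hw a b y) (fun J => (i_ret (hi J) (hc _) a b).1)
    (fun J => (i_ret (hi J) (hc _) a b).2) (cut_sum hc a b)
    (fun l J y => by convert cut_i (hc l) (hi J) a b y)
  refine ⟨χ, a1, a4, fun x => AddSubgroup.closure_mono ?_ (a3 x), fun S g hg y => ?_⟩
  · rintro _ ⟨J, y, rfl⟩
    exact ⟨J, i J, y, hi J, rfl⟩
  · rw [iS_sum hi hg, map_sum, TensorProduct.sum_tmul]
    exact Finset.sum_congr rfl fun J _ => a2 J y

variable {ι σ : Type} [Fintype ι] [Fintype σ] [DecidableEq σ]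

/-- A pair of orthogonal projections for every species, with traces. -/
structure PrPair (ν nv nt : σ → ℕ) (p q : ∀ a, Matrix (Fin (ν a)) (Fin (ν a)) ℂ) : Prop where
  hp : ∀ a, IsStarProjection (p a)
  hq : ∀ a, IsStarProjection (q a)
  hpq : ∀ a, p a * q a = 0
  tp : ∀ a, (p a).trace = nv a
  tq : ∀ a, (q a).trace = nt a

omit [Fintype ι] [Fintype σ] in
theorem kx_dgm_block {ν : σ → ℕ} (Z : Finset (Md ν)) :
    dgm Z = Matrix.blockDiagonal' fun s => dgm (fib Z s) := by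
  simp only [dgm, Matrix.blockDiagonal'_diagonal]
  refine congrArg _ (funext fun k => ?_)
  simp [fib]

omit [Fintype ι] [Fintype σ] in
theorem kx_fib_disj {ν : σ → ℕ} {Z Z' : Finset (Md ν)} (h : Disjoint Z Z') (s : σ) :
    Disjoint (fib Z s) (fib Z' s) := by
  refine Finset.disjoint_left.2 fun k h1 h2 => ?_
  simp only [fib, Finset.mem_filter, Finset.mem_univ, true_and] at h1 h2
  exact Finset.disjoint_left.1 h h1 h2

omit [Fintype ι] in
theorem kx_fib_compl {ν : σ → ℕ} (J : Finset (Md ν)) (s : σ) :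
    ν s = (fib Jᶜ s).card + (fib J s).card := by
  have e : fib Jᶜ s = (fib J s)ᶜ := by
    ext k
    simp [fib]
  rw [e, Finset.card_compl_add_card, Fintype.card_fin]

omit [Fintype ι] in
theorem kx_fib_sigma {ν : σ → ℕ} (Z : ∀ s, Finset (Fin (ν s))) (s : σ) :
    fib (Finset.univ.sigma Z : Finset (Md ν)) s = Z s := by
  ext k
  simp [fib]

omit [Fintype ι] in
theorem kx_proj_block {ν : σ → ℕ} {p : ∀ a, Matrix (Fin (ν a)) (Fin (ν a)) ℂ}
    (h : ∀ a, IsStarProjection (p a)) : IsStarProjection (Matrix.blockDiagonal' p) := by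
  refine ⟨?_, ?_⟩
  · rw [IsIdempotentElem, ← Matrix.blockDiagonal'_mul]
    exact congrArg _ (funext fun a => (h a).1)
  · rw [IsSelfAdjoint, Matrix.star_eq_conjTranspose, Matrix.blockDiagonal'_conjTranspose]
    exact congrArg _ (funext fun a => (h a).2)

omit [Fintype ι] [Fintype σ] in
theorem kx_block_wt (wt : σ → ι → ℤ) {ν : σ → ℕ} (p : ∀ a, Matrix (Fin (ν a)) (Fin (ν a)) ℂ)
    (i j : Md ν) (h : Matrix.blockDiagonal' p i j ≠ 0) : wt i.1 = wt j.1 := by
  obtain ⟨a, k⟩ := i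
  obtain ⟨a', k'⟩ := j
  by_contra e
  exact h (Matrix.blockDiagonal'_apply_ne p k k' fun e' => e (congrArg wt e'))

theorem chi_core (wt : σ → ι → ℤ) (ν : σ → ℕ) {A B : SSp} (GA : KIf A)
    (GB : YIf (fun k : Md ν => wt k.1) B) (a b : ℕ) :
    ∃ χ : B.Pi a b →+ LauR ι ⊗[ℤ] A.Pi a b, Function.Injective χ ∧
      χ.range = AddSubgroup.closure {z | ∃ l ∈ wts wt ν, ∃ y, z = mono l ⊗ₜ[ℤ] y} ∧
      (∀ x, x ∈ AddSubgroup.closure {z | ∃ (nv nt : σ → ℕ)
        (p q : ∀ s, Matrix (Fin (ν s)) (Fin (ν s)) ℂ) (g : SMap A B) (y : A.Pi a b),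
        PrPair ν nv nt p q ∧ (∀ s, ν s = nv s + nt s) ∧
        (GA.Rep GB g fun n => jF (pp (E n) (Matrix.blockDiagonal' p) (Matrix.blockDiagonal' q))) ∧
        z = g.pi a b y}) ∧
      ∀ (nv nt nf : σ → ℕ) (p q : ∀ s, Matrix (Fin (ν s)) (Fin (ν s)) ℂ) (g : SMap A B),
        PrPair ν nv nt p q → (∀ s, ν s = nv s + nt s + nf s) →
        (GA.Rep GB g fun n => jF (pp (E n) (Matrix.blockDiagonal' p) (Matrix.blockDiagonal' q))) →
        ∀ y, χ (g.pi a b y) =
          (∏ s, (-mono (wt s)) ^ nt s * (1 - mono (wt s)) ^ nf s) ⊗ₜ[ℤ] y := by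
  obtain ⟨χ, a1, a2, a3, a4⟩ := chi_gen GA GB a b
  refine ⟨χ, a1, ?_, fun x => AddSubgroup.closure_mono ?_ (a3 x),
    fun nv nt nf p q g hP hν hg y => ?_⟩
  · rw [a2]
    refine congrArg _ (Set.ext fun z => ⟨?_, ?_⟩)
    · rintro ⟨J, y, rfl⟩
      exact ⟨_, (mem_wts_iff wt ν _).2 ⟨J, rfl⟩, y, rfl⟩
    · rintro ⟨l, hl, y, rfl⟩
      obtain ⟨J, rfl⟩ := (mem_wts_iff wt ν _).1 hl
      exact ⟨J, y, rfl⟩
  · rintro _ ⟨J, g, y, hg, rfl⟩
    refine ⟨fun s => (fib Jᶜ s).card, fun s => (fib J s).card, fun s => dgm (fib Jᶜ s),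
      fun s => dgm (fib J s), g, y, ⟨fun _ => isStarProjection_dgm _,
        fun _ => isStarProjection_dgm _, fun s => kx_dgm_disj (kx_fib_disj disjoint_compl_left s),
        fun _ => trace_dgm _, fun _ => trace_dgm _⟩, kx_fib_compl J, ?_, rfl⟩
    rw [← kx_dgm_block, ← kx_dgm_block]
    exact hg
  · choose Zv Zt P Q hd cP cQ hP1 hQ1 hPQ P0 Q0 P1 Q1 tp tq using
      fun s => exists_proj_path (p s) (q s) (hP.hp s) (hP.hq s) (hP.hpq s)
    have hD : Disjoint (Finset.univ.sigma Zv : Finset (Md ν)) (Finset.univ.sigma Zt) := by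
      refine Finset.disjoint_left.2 fun k h1 h2 => ?_
      simp only [Finset.mem_sigma, Finset.mem_univ, true_and] at h1 h2
      exact Finset.disjoint_left.1 (hd k.1) h1 h2
    obtain ⟨φ, hφ⟩ := exists_iS GA GB
      (btw (Finset.univ.sigma Zv : Finset (Md ν)) (Finset.univ.sigma Zt))
    have e := pi_eq_of_path (GA := GA) (GB := GB) (φ := φ) (ψ := g)
      (fun n t => pp (E n) (Matrix.blockDiagonal' fun s => P s t)
        (Matrix.blockDiagonal' fun s => Q s t))
      (fun n => continuous_pp.comp (f := fun t => ((Matrix.blockDiagonal' fun s => P s t,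
        Matrix.blockDiagonal' fun s => Q s t) : Matrix (Md ν) (Md ν) ℂ × Matrix (Md ν) (Md ν) ℂ))
        ((continuous_pi cP).matrix_blockDiagonal'.prodMk (continuous_pi cQ).matrix_blockDiagonal'))
      (fun n t => good_pp (kx_proj_block fun s => hP1 s t) (kx_proj_block fun s => hQ1 s t)
        (by
          rw [← Matrix.blockDiagonal'_mul, funext fun s => hPQ s t]
          exact Matrix.blockDiagonal'_zero)
        (kx_block_wt wt _) (kx_block_wt wt _))
      (by
        simp only [P0, Q0, ← pp_dgm_eq_pS hD, kx_dgm_block, kx_fib_sigma] at hφ ⊢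
        exact hφ)
      (by simpa only [P1, Q1] using hg) a b
    have cv : ∀ s, (Zv s).card = nv s := fun s =>
      Nat.cast_injective (R := ℂ) ((tp s).symm.trans (hP.tp s))
    have ct : ∀ s, (Zt s).card = nt s := fun s =>
      Nat.cast_injective (R := ℂ) ((tq s).symm.trans (hP.tq s))
    have fe : ∀ s, (fib (∅ : Finset (Md fun _ : σ => 0)) s).card = 0 := fun s => by simp [fib]
    rw [← e, a4 _ φ hφ, sum_btw wt (fun _ => 0) ν nv nt nf ∅ _ _ hD
      (fun s => by rw [kx_fib_sigma, cv, fe]) (fun s => by rw [kx_fib_sigma, ct, fe, add_zero])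
      (fun s => by rw [hν, zero_add]), chJ_empty, mul_one]

end Pool.Agent.Lib.E2
end
end

-- part Pool.Agent.Lib.MP_10be03_gt.KXAll
section

/-!
The characters of all the spectra of a family and their behaviour under morphisms of modes.
-/

noncomputable section
open scoped Matrix TensorProduct

namespace Pool.Agent.Lib.E2

theorem kIf_KU (hs : KUSpec) (hKU : IsO KUpre) : ∃ GA : KIf (OSp.toS ⟨KUpre, hKU⟩),
    ∀ n (x : KUX n), GA.a1 n x = x.app e1 ∧ GA.a2 n x = x.app e2 := by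
  refine ⟨⟨fun n (x : KUX n) => x.app e1, fun n (x : KUX n) => x.app e2, fun n x => ?_,
    fun n => GK.isEmbedding_pr (U := E n) (V := E n), fun n a b h => ?_, fun n => rfl, fun n => rfl,
    fun n x u v hv => ?_, fun n x u v hv => ?_⟩, fun n x => ⟨rfl, rfl⟩⟩
  · have h := GK.isKP (U := E n) (V := E n) x
    exact ⟨h.ep.gp, h.m1, h.m2, trivial, trivial, h.ep.ev, h.ep.od⟩
  · have h' : IsKP (dmk a b) := ⟨⟨h.gp, h.g1, h.g2⟩, h.m1, h.m2⟩
    exact ⟨GK.mk h', congrArg TrivSqZeroExt.fst (GK.pr_mk h'),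
      congrArg TrivSqZeroExt.snd (GK.pr_mk h')⟩
  · have h := ((hs.2.1 (sThom n u) x).2 v hv).1
    rw [IsSmul, nu_eq _ _ _ (GK.app_mem (U := E n) (V := E n) x e1), lm_one, mul_one] at h
    exact h
  · have h := ((hs.2.1 (sThom n u) x).2 v hv).2
    rw [IsSum, nu_eq _ _ _ (GK.app_mem (U := E n) (V := E n) x e2),
      nu_eq _ _ _ (GK.app_mem (U := E n) (V := E n) x e1), lm_one, mul_one] at h
    exact h

variable {ι σ : Type} [Fintype ι] [Fintype σ] [DecidableEq σ]

/-- The block diagonal matrix of a raw family. -/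
def bdM (f : RM σ) (ν' ν : σ → ℕ) : Matrix (Md ν') (Md ν) ℂ :=
  Matrix.blockDiagonal' fun a => mat (f a) (ν' a) (ν a)

theorem kx_proj_bd {ν : σ → ℕ} {p : ∀ a, Matrix (Fin (ν a)) (Fin (ν a)) ℂ}
    (h : ∀ a, IsStarProjection (p a)) : IsStarProjection (Matrix.blockDiagonal' p) := by
  refine ⟨?_, ?_⟩
  · rw [IsIdempotentElem, ← Matrix.blockDiagonal'_mul]
    exact congrArg _ (funext fun a => (h a).isIdempotentElem.eq)
  · rw [IsSelfAdjoint, Matrix.star_eq_conjTranspose, Matrix.blockDiagonal'_conjTranspose]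
    exact congrArg _ (funext fun a => (h a).isSelfAdjoint.star_eq)

theorem kx_proj_conj {a b : Type} [Fintype a] [Fintype b] [DecidableEq a] [DecidableEq b]
    {M : Matrix b a ℂ} (hM : Mᴴ * M = 1) {p : Matrix a a ℂ} (hp : IsStarProjection p) :
    IsStarProjection (M * p * Mᴴ) := by
  refine ⟨?_, ?_⟩
  · rw [IsIdempotentElem]
    simp only [Matrix.mul_assoc]
    rw [← Matrix.mul_assoc Mᴴ, hM, Matrix.one_mul, ← Matrix.mul_assoc p, hp.isIdempotentElem.eq]
  · have h : pᴴ = p := hp.isSelfAdjoint.star_eq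
    rw [IsSelfAdjoint, Matrix.star_eq_conjTranspose, Matrix.conjTranspose_mul,
      Matrix.conjTranspose_mul, Matrix.conjTranspose_conjTranspose, h, Matrix.mul_assoc]

theorem kx_zero_left {a b : Type} [Fintype a] [Fintype b] {M : Matrix b a ℂ} {r : Matrix b b ℂ}
    (hr : IsStarProjection r) (h : r * M = 0) (p : Matrix a a ℂ) :
    M * p * Mᴴ * r = 0 ∧ r * (M * p * Mᴴ) = 0 := by
  have h1 : rᴴ = r := hr.isSelfAdjoint.star_eq
  have h2 : Mᴴ * r = 0 := by rw [← h1, ← Matrix.conjTranspose_mul, h, Matrix.conjTranspose_zero]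
  exact ⟨by rw [Matrix.mul_assoc, h2, Matrix.mul_zero],
    by rw [← Matrix.mul_assoc, ← Matrix.mul_assoc, h, Matrix.zero_mul, Matrix.zero_mul]⟩

omit [Fintype σ] [DecidableEq σ] in
theorem PrPair.push {ν ν' nv nt kv kt : σ → ℕ} {q : Raw σ} (hq : Valid ν ν' q)
    (h1 : ∀ a, (mat (q.2.1 a) (ν' a) (ν' a)).trace = nv a)
    (h2 : ∀ a, (mat (q.2.2 a) (ν' a) (ν' a)).trace = nt a)
    {p r : ∀ a, Matrix (Fin (ν a)) (Fin (ν a)) ℂ} (h : PrPair ν kv kt p r) :
    PrPair ν' (kv + nv) (kt + nt)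
      (fun a => mat (q.1 a) (ν' a) (ν a) * p a * (mat (q.1 a) (ν' a) (ν a))ᴴ +
        mat (q.2.1 a) (ν' a) (ν' a))
      (fun a => mat (q.1 a) (ν' a) (ν a) * r a * (mat (q.1 a) (ν' a) (ν a))ᴴ +
        mat (q.2.2 a) (ν' a) (ν' a)) where
  hp a := (kx_proj_conj (hq.iso a) (h.hp a)).add (hq.p1 a) (kx_zero_left (hq.p1 a) (hq.p1φ a) _).1
  hq a := (kx_proj_conj (hq.iso a) (h.hq a)).add (hq.p2 a) (kx_zero_left (hq.p2 a) (hq.p2φ a) _).1
  hpq a := by
    rw [add_mul, mul_add, mul_add, (kx_zero_left (hq.p2 a) (hq.p2φ a) _).1,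
      (kx_zero_left (hq.p1 a) (hq.p1φ a) _).2, hq.p12, add_zero, add_zero, add_zero]
    simp only [Matrix.mul_assoc]
    rw [← Matrix.mul_assoc _ᴴ, hq.iso, Matrix.one_mul, ← Matrix.mul_assoc (p a), h.hpq,
      Matrix.zero_mul, Matrix.mul_zero]
  tp a := by
    rw [Matrix.trace_add, Matrix.trace_mul_cycle, hq.iso, Matrix.one_mul, h.tp, h1, Pi.add_apply,
      Nat.cast_add]
  tq a := by
    rw [Matrix.trace_add, Matrix.trace_mul_cycle, hq.iso, Matrix.one_mul, h.tq, h2, Pi.add_apply,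
      Nat.cast_add]

theorem chi_all (wt : σ → ι → ℤ) {A : SSp} (GA : KIf A) (B : (σ → ℕ) → SSp)
    (GB : ∀ ν, YIf (fun k : Md ν => wt k.1) (B ν)) :
    ∃ χ : ∀ ν a b, (B ν).Pi a b →+ LauR ι ⊗[ℤ] A.Pi a b,
      (∀ ν a b, Function.Injective (χ ν a b)) ∧
      (∀ ν a b, (χ ν a b).range =
        AddSubgroup.closure {z | ∃ w ∈ wts wt ν, ∃ y, z = mono w ⊗ₜ[ℤ] y}) ∧
      (∀ g : SMap A (B 0), (GA.Rep (GB 0) g fun n T =>
        lam (UU.inl (Md (0 : σ → ℕ))) (LinearIsometry.id : E n →ₗᵢ[ℝ] E n) T) →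
        ∀ a b y, χ 0 a b (g.pi a b y) = 1 ⊗ₜ[ℤ] y) ∧
      ∀ ν ν' (q : Raw σ), Valid ν ν' q → ∀ nv nt nf : σ → ℕ,
        (∀ a, (mat (q.2.1 a) (ν' a) (ν' a)).trace = nv a) →
        (∀ a, (mat (q.2.2 a) (ν' a) (ν' a)).trace = nt a) →
        (∀ a, ν' a = ν a + nv a + nt a + nf a) →
        ∀ (g : SMap (B ν) (B ν')) (h : (bdM q.1 ν' ν)ᴴ * bdM q.1 ν' ν = 1),
        ((GB ν).Rep (GB ν') g fun n T =>
          lam (kk LinearIsometry.id (bdM q.1 ν' ν) h) (LinearIsometry.id : E n →ₗᵢ[ℝ] E n) T *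
            lm (E n) (pp (E n) (bdM q.2.1 ν' ν') (bdM q.2.2 ν' ν'))) →
        ∀ a b x, χ ν' a b (g.pi a b x) =
          (∏ s, (-mono (wt s)) ^ nt s * (1 - mono (wt s)) ^ nf s) • χ ν a b x := by
  choose χ h1 h2 h3 h4 using fun ν a b => chi_core wt ν GA (GB ν) a b
  refine ⟨χ, h1, h2, fun g hg a b y => ?_, fun ν ν' q hq nv nt nf t1 t2 hν g h hg a b x => ?_⟩
  · have h := h4 0 a b 0 0 0 0 0 g ⟨fun _ => IsStarProjection.zero _,
      fun _ => IsStarProjection.zero _, fun _ => mul_zero _, fun _ => by simp, fun _ => by simp⟩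
      (fun _ => rfl) (fun n x => by
        simpa only [jF, Matrix.blockDiagonal'_zero, pp_zero, lm_one, mul_one] using hg n x) y
    simpa using h
  · induction h3 ν a b x using AddSubgroup.closure_induction with
    | zero => simp
    | add x y _ _ hx hy => simp only [map_add, hx, hy, smul_add]
    | neg x _ hx => simp only [map_neg, hx, smul_neg]
    | mem x hx =>
      obtain ⟨kv, kt, p, r, g', y, hpr, hk, hg', rfl⟩ := hx
      have e : ∀ n (T : Op (E n) (E n)),
          lam (kk LinearIsometry.id (bdM q.1 ν' ν) h) (LinearIsometry.id : E n →ₗᵢ[ℝ] E n)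
            (jF (pp (E n) (Matrix.blockDiagonal' p) (Matrix.blockDiagonal' r)) T) *
            lm (E n) (pp (E n) (bdM q.2.1 ν' ν') (bdM q.2.2 ν' ν')) =
          jF (pp (E n) (Matrix.blockDiagonal' fun a =>
            mat (q.1 a) (ν' a) (ν a) * p a * (mat (q.1 a) (ν' a) (ν a))ᴴ +
              mat (q.2.1 a) (ν' a) (ν' a)) (Matrix.blockDiagonal' fun a =>
            mat (q.1 a) (ν' a) (ν a) * r a * (mat (q.1 a) (ν' a) (ν a))ᴴ +
              mat (q.2.2 a) (ν' a) (ν' a))) T := fun n T => by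
        have b1 : ∀ (s : ∀ a, Matrix (Fin (ν a)) (Fin (ν a)) ℂ) (f : RM σ),
            (Matrix.blockDiagonal' fun a => mat (q.1 a) (ν' a) (ν a) * s a *
              (mat (q.1 a) (ν' a) (ν a))ᴴ + mat (f a) (ν' a) (ν' a)) =
            bdM q.1 ν' ν * Matrix.blockDiagonal' s * (bdM q.1 ν' ν)ᴴ + bdM f ν' ν' := fun s f => by
          rw [bdM, bdM, Matrix.blockDiagonal'_conjTranspose, ← Matrix.blockDiagonal'_mul,
            ← Matrix.blockDiagonal'_mul, ← Matrix.blockDiagonal'_add]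
          rfl
        have z : ∀ f : RM σ, (∀ a, mat (f a) (ν' a) (ν' a) * mat (q.1 a) (ν' a) (ν a) = 0) →
            bdM f ν' ν' * bdM q.1 ν' ν = 0 := fun f hf => by
          rw [bdM, bdM, ← Matrix.blockDiagonal'_mul, funext hf]
          exact Matrix.blockDiagonal'_zero
        have s1 : IsStarProjection (bdM q.2.1 ν' ν') := kx_proj_bd hq.p1
        have s2 : IsStarProjection (bdM q.2.2 ν' ν') := kx_proj_bd hq.p2
        rw [b1, b1, pp_add (kx_proj_conj h (kx_proj_bd hpr.hp)) (kx_proj_conj h (kx_proj_bd hpr.hq))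
          s1 s2 (kx_zero_left s1 (z _ hq.p1φ) _).1 (kx_zero_left s2 (z _ hq.p2φ) _).1
          (kx_zero_left s1 (z _ hq.p1φ) _).1, jF, jF, map_mul, lam_lm, lm_mul,
          clMap_kk_pp _ _ _ (kx_proj_bd hpr.hp) (kx_proj_bd hpr.hq), mul_assoc,
          lam_lam' (k'' := UU.inl (Md ν')) (j'' := LinearIsometry.id)
            (fun u => (kk_inl LinearIsometry.id _ h u).symm) fun _ => rfl]
      rw [← SMap.pi_comp, h4 ν' a b (kv + nv) (kt + nt) nf _ _ (g.comp g') (hpr.push hq t1 t2)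
        (fun s => by have := hν s; have := hk s; simp only [Pi.add_apply]; omega)
        (fun n x => ⟨(hg n _).1.trans (by rw [(hg' n x).1]; exact e n _),
          (hg n _).2.trans (by rw [(hg' n x).2]; exact e n _)⟩),
        h4 ν a b kv kt 0 p r g' hpr hk hg', TensorProduct.smul_tmul', smul_eq_mul,
        ← Finset.prod_mul_distrib]
      refine congrArg (· ⊗ₜ[ℤ] y) (Finset.prod_congr rfl fun s _ => ?_)
      simp only [Pi.add_apply, Pi.zero_apply, pow_add, pow_zero]
      ring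

end Pool.Agent.Lib.E2
end
end
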