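import Pool.Agent.Lib.MP_10be03_gt.KUDef
import Pool.Agent.Lib.MP_10be03_gt.Simp

-- part Pool.Agent.Lib.MP_10be03_gt.IfK
section

/-!
The interface of layer K: torus invariant Clifford K-theory spectra.
-/

noncomputable section
open scoped Matrix TensorProduct

namespace Pool.Agent.Lib.E2

/-- The spectra `Y ν` (K-theory of the torus invariants of the endomorphisms of the exterior
algebra on `ν` modes) with their functoriality, products and characters. -/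
structure KData {ι σ : Type} [Fintype ι] [Fintype σ] (wt : σ → ι → ℤ) (hKU : IsO KUpre) where
  Y : (σ → ℕ) → OSp
  t2 : ∀ ν n, T2Space ((Y ν).X n)
  fc : ∀ ν n, FirstCountableTopology ((Y ν).X n)
  push : ∀ (ν ν' : σ → ℕ), Raw σ → ∀ n, (Y ν).X n → (Y ν').X n
  cont_push : ∀ ν ν' n, ContinuousOn (fun p : Raw σ × (Y ν).X n => push ν ν' p.1 n p.2)
    {p | Valid ν ν' p.1}
  push_pt : ∀ ν ν' q n, push ν ν' q n ((Y ν).pt n) = (Y ν').pt n
  push_act : ∀ ν ν' q, Valid ν ν' q → ∀ {n N : ℕ} (t : Thom n N) (x : (Y ν).X n),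
    push ν ν' q N ((Y ν).act t x) = (Y ν').act t (push ν ν' q n x)
  push_id : ∀ ν q, IsId ν q → ∀ n x, push ν ν q n x = x
  push_comp : ∀ ν ν' ν'' q q' q'', Valid ν ν' q → Valid ν' ν'' q' → IsComp ν ν' ν'' q q' q'' →
    ∀ n x, push ν' ν'' q' n (push ν ν' q n x) = push ν ν'' q'' n x
  mu : ∀ {S : Type} [Finite S] (νs : S → σ → ℕ) (ν : σ → ℕ), (S → RM σ) →
    ∀ {n : S → ℕ} {N : ℕ}, Dec n N → (∀ s, (Y (νs s)).X (n s)) → (Y ν).X N
  cont_mu : ∀ {S : Type} [Finite S] (νs : S → σ → ℕ) (ν : σ → ℕ) {n : S → ℕ} {N : ℕ}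
    (φ : Dec n N), ContinuousOn
      (fun p : (S → RM σ) × (∀ s, (Y (νs s)).X (n s)) => mu νs ν p.1 φ p.2) {p | IsBlk νs ν p.1}
  mu_base : ∀ {S : Type} [Finite S] (νs : S → σ → ℕ) (ν : σ → ℕ) (β : S → RM σ) {n : S → ℕ}
    {N : ℕ} (φ : Dec n N) (x : ∀ s, (Y (νs s)).X (n s)) (s : S), x s = (Y (νs s)).pt (n s) →
    mu νs ν β φ x = (Y ν).pt N
  mu_lin : ∀ {S : Type} [Finite S] (νs : S → σ → ℕ) (ν : σ → ℕ) (β : S → RM σ), IsBlk νs ν β →
    ∀ {n n' : S → ℕ} {N N' : ℕ} (φ : Dec n N) (φ' : Dec n' N') (t : ∀ s, Thom (n s) (n' s))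
    (w : ∀ s, E (n' s)) (T : Thom N N') (x : ∀ s, (Y (νs s)).X (n s)), (∀ s, (t s).pt = w s) →
    (∀ s v, T.map (φ.map s v) = φ'.map s ((t s).map v)) →
    T.pt = (∑ᶠ s, φ'.map s (w s) : E N') →
    mu νs ν β φ' (fun s => (Y (νs s)).act (t s) (x s)) = (Y ν).act T (mu νs ν β φ x)
  mu_one : ∀ (ν : σ → ℕ) (β : Unit → RM σ), (∀ a, mat (β () a) (ν a) (ν a) = 1) →
    ∀ {N : ℕ} (φ : Dec (fun _ : Unit => N) N) (x : (Y ν).X N), (∀ v, φ.map () v = v) →
    mu (fun _ => ν) ν β φ (fun _ => x) = x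
  mu_assoc : ∀ {S : Type} [Finite S] {T : S → Type} [∀ s, Finite (T s)]
    (νt : (Σ s, T s) → σ → ℕ) (νs : S → σ → ℕ) (ν : σ → ℕ) (β : S → RM σ)
    (γ : ∀ s, T s → RM σ) (η : (Σ s, T s) → RM σ), IsBlk νs ν β →
    (∀ s, IsBlk (fun t => νt ⟨s, t⟩) (νs s) (γ s)) →
    (∀ s t a, mat (η ⟨s, t⟩ a) (ν a) (νt ⟨s, t⟩ a) =
      mat (β s a) (ν a) (νs s a) * mat (γ s t a) (νs s a) (νt ⟨s, t⟩ a)) →
    ∀ {n : (Σ s, T s) → ℕ} {k : S → ℕ} {N : ℕ} (φ : Dec k N)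
    (ψ : ∀ s, Dec (fun t => n ⟨s, t⟩) (k s)) (χ : Dec n N) (x : ∀ p, (Y (νt p)).X (n p)),
    (∀ s t v, χ.map ⟨s, t⟩ v = φ.map s ((ψ s).map t v)) →
    mu νt ν η χ x = mu νs ν β φ fun s => mu (fun t => νt ⟨s, t⟩) (νs s) (γ s) (ψ s) fun t => x ⟨s, t⟩
  mu_rel : ∀ {S T : Type} [Finite S] [Finite T] (e : S ≃ T) (νs : T → σ → ℕ) (ν : σ → ℕ)
    (β : T → RM σ), IsBlk νs ν β → ∀ {n : T → ℕ} {N : ℕ} (φ : Dec (fun s => n (e s)) N)
    (φ' : Dec n N) (x : ∀ t, (Y (νs t)).X (n t)), (∀ s v, φ.map s v = φ'.map (e s) v) →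
    mu νs ν β φ' x = mu (fun s => νs (e s)) ν (fun s => β (e s)) φ fun s => x (e s)
  push_mu : ∀ {S : Type} [Finite S] (νs νs' : S → σ → ℕ) (ν ν' : σ → ℕ) (β β' : S → RM σ)
    (qs : S → Raw σ) (q : Raw σ), IsBlk νs ν β → IsBlk νs' ν' β' →
    (∀ s, Valid (νs s) (νs' s) (qs s)) → Valid ν ν' q → Compat wt νs νs' ν ν' β β' qs q →
    ∀ {n : S → ℕ} {N : ℕ} (φ : Dec n N) (x : ∀ s, (Y (νs s)).X (n s)),
    push ν ν' q N (mu νs ν β φ x) =
      mu νs' ν' β' φ fun s => push (νs s) (νs' s) (qs s) (n s) (x s)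
  iota : OMap ⟨KUpre, hKU⟩ (Y 0)
  iota_one : ∀ (β : Empty → RM σ) (d : Dec (fun s : Empty => s.elim) 0)
    (x : ∀ s : Empty, (Y s.elim).X s.elim), iota.f 0 kuOne = mu (fun s => s.elim) 0 β d x
  iota_mul : ∀ (β : Bool → RM σ) {n : Bool → ℕ} {N : ℕ} (d : Dec n N) (x : ∀ b, KUX (n b)),
    iota.f N (kuMul d (x true) (x false)) = mu (fun _ => 0) 0 β d fun b => iota.f (n b) (x b)
  mu_unit : ∀ (ν : σ → ℕ) (β : Bool → RM σ), (∀ a, mat (β false a) (ν a) (ν a) = 1) →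
    ∀ {N : ℕ} (d : Dec (fun b : Bool => cond b 0 N) N)
    (x : ∀ b : Bool, (Y (cond b 0 ν)).X (cond b 0 N)), (∀ v, d.map false v = v) →
    x true = iota.f 0 kuOne → mu (fun b => cond b 0 ν) ν β d x = x false
  χ : ∀ ν a b, (Y ν).toS.Pi a b →+ LauR ι ⊗[ℤ] (OSp.toS ⟨KUpre, hKU⟩).Pi a b
  χ_inj : ∀ ν a b, Function.Injective (χ ν a b)
  χ_range : ∀ ν a b, (χ ν a b).range =
    AddSubgroup.closure {z | ∃ w ∈ wts wt ν, ∃ y, z = mono w ⊗ₜ[ℤ] y}
  χ_iota : ∀ a b y, χ 0 a b (iota.toS.pi a b y) = 1 ⊗ₜ[ℤ] y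
  χ_push : ∀ ν ν' q, Valid ν ν' q → ∀ (nv nt nf : σ → ℕ),
    (∀ a, (mat (q.2.1 a) (ν' a) (ν' a)).trace = nv a) →
    (∀ a, (mat (q.2.2 a) (ν' a) (ν' a)).trace = nt a) →
    (∀ a, ν' a = ν a + nv a + nt a + nf a) →
    ∀ (g : SMap (Y ν).toS (Y ν').toS), (∀ n x, g.f n x = push ν ν' q n x) → ∀ a b x,
    χ ν' a b (g.pi a b x) =
      (∏ s, (-mono (wt s)) ^ nt s * (1 - mono (wt s)) ^ nf s) • χ ν a b x

/-- Layer K, first part: the definitions of `KU` have their defining properties. -/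
def KUStmt : Prop := KUSpec ∧ IsO KUpre

/-- Layer K, second part. -/
def KStmt : Prop :=
  ∀ {ι σ : Type} [Fintype ι] [Fintype σ] (wt : σ → ι → ℤ) (hKU : IsO KUpre),
    Nonempty (KData wt hKU)

end Pool.Agent.Lib.E2
end
end

-- part Pool.Agent.Lib.MP_10be03_gt.NSig
section

/-!
The total spaces of the coefficient spectra and their operations.
-/

noncomputable section
open scoped Topology OnePoint
open Filter

namespace Pool.Agent.Lib.E2

theorem nSigma_fc {I : Type} {Z : I → Type} [∀ i, TopologicalSpace (Z i)]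
    [∀ i, FirstCountableTopology (Z i)] : FirstCountableTopology (Σ i, Z i) :=
  ⟨fun ⟨i, z⟩ => by rw [Sigma.nhds_mk]; infer_instance⟩

theorem nSigma_local {I P : Type} {Z : I → Type} [∀ i, TopologicalSpace (Z i)] [TopologicalSpace P]
    {y : P → Σ i, Z i} {p : P} (hy : ContinuousAt y p) {i : I} {z : Z i} (h : y p = ⟨i, z⟩) :
    ∃ y' : P → Z i, Tendsto y' (𝓝 p) (𝓝 z) ∧ ∀ᶠ p' in 𝓝 p, y p' = ⟨i, y' p'⟩ := by
  have : Nonempty (Z i) := ⟨z⟩
  have he := Topology.IsOpenEmbedding.sigmaMk (σ := Z) (i := i)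
  have ev : ∀ᶠ p' in 𝓝 p, y p' = ⟨i, Function.invFun (Sigma.mk i) (y p')⟩ :=
    (hy.eventually (he.isOpen_range.mem_nhds ⟨z, h.symm⟩)).mono fun p' hp =>
      (Function.invFun_eq hp).symm
  refine ⟨_, he.isEmbedding.tendsto_nhds_iff.2 ?_, ev⟩
  rw [← h]
  exact hy.tendsto.congr' ev

namespace KData

variable {ι σ : Type} [Fintype ι] [Fintype σ] {wt : σ → ι → ℤ} {hKU : IsO KUpre}
  (K : KData wt hKU)

/-- The total space at level `n`. -/
abbrev W (n : ℕ) : Type := Σ ν, (K.Y ν).X n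

/-- The base points. -/
def Zs (n : ℕ) : Set (K.W n) := {y | y.2 = (K.Y y.1).pt n}

/-- Functoriality on the total space. -/
def pushS {n : ℕ} (y : K.W n) (ν' : σ → ℕ) (q : Raw σ) : K.W n := ⟨ν', K.push y.1 ν' q n y.2⟩

/-- The structure maps on the total space. -/
def actS {n N : ℕ} (t : Thom n N) (y : K.W n) : K.W N := ⟨y.1, (K.Y y.1).act t y.2⟩

/-- The product on the total space. -/
def muS {S : Type} [Finite S] {n : S → ℕ} {N : ℕ} (y : ∀ s, K.W (n s)) (ν : σ → ℕ)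
    (β : S → RM σ) (φ : Dec n N) : K.W N := ⟨ν, K.mu (fun s => (y s).1) ν β φ fun s => (y s).2⟩

instance instT2W (n : ℕ) : T2Space (K.W n) := have := fun ν => K.t2 ν n; inferInstance

instance instFcW (n : ℕ) : FirstCountableTopology (K.W n) := have := fun ν => K.fc ν n; nSigma_fc

theorem isClosed_Zs (n : ℕ) : IsClosed (K.Zs n) :=
  isClosed_sigma_iff.2 fun ν => have := K.t2 ν n; isClosed_singleton (x := (K.Y ν).pt n)

theorem cont_mk (n : ℕ) (ν : σ → ℕ) : Continuous fun x : (K.Y ν).X n => (⟨ν, x⟩ : K.W n) :=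
  continuous_sigmaMk (σ := fun ν => (K.Y ν).X n)

variable {K} {n N : ℕ} {P : Type} [TopologicalSpace P]

theorem continuous_pushS {y : P → K.W n} {ν' : P → σ → ℕ} {q : P → Raw σ} (hy : Continuous y)
    (hν : IsLocallyConstant ν') (hq : Continuous q) (h : ∀ p, Valid (y p).1 (ν' p) (q p)) :
    Continuous fun p => K.pushS (y p) (ν' p) (q p) := continuous_iff_continuousAt.2 fun p => by
  obtain ⟨y', h1, h2⟩ := nSigma_local hy.continuousAt (i := (y p).1) (z := (y p).2) rfl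
  have h3 := h2.and (hν.eventually_eq p)
  refine (((K.cont_mk _ _).tendsto _).comp (((K.cont_push (y p).1 (ν' p) n) (q p, (y p).2)
    (h p)).tendsto.comp (tendsto_nhdsWithin_iff.2 ⟨(hq.tendsto p).prodMk_nhds h1, h3.mono
      fun p' hp => ?_⟩))).congr' (h3.mono fun p' hp => ?_)
  · have := h p'
    rwa [hp.1, hp.2] at this
  · change _ = K.pushS _ _ _
    rw [hp.1, hp.2]
    rfl

theorem continuous_actS {t : P → Thom n N} {y : P → K.W n} (ht : Continuous t)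
    (hy : Continuous y) : Continuous fun p => K.actS (t p) (y p) :=
  continuous_iff_continuousAt.2 fun p => by
    obtain ⟨y', h1, h2⟩ := nSigma_local hy.continuousAt (i := (y p).1) (z := (y p).2) rfl
    refine (((K.cont_mk _ _).tendsto _).comp ((((K.Y (y p).1).isO.cont n N).tendsto
      (t p, (y p).2)).comp ((ht.tendsto p).prodMk_nhds h1))).congr' (h2.mono fun p' hp => ?_)
    change _ = K.actS _ _
    rw [hp]
    rfl

theorem continuous_muS {S : Type} [Finite S] {n : S → ℕ} {y : P → ∀ s, K.W (n s)}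
    {ν : P → σ → ℕ} {β : P → S → RM σ} (φ : Dec n N) (hy : ∀ s, Continuous fun p => y p s)
    (hν : IsLocallyConstant ν) (hβ : Continuous β)
    (h : ∀ p, IsBlk (fun s => (y p s).1) (ν p) (β p)) :
    Continuous fun p => K.muS (y p) (ν p) (β p) φ := continuous_iff_continuousAt.2 fun p => by
  choose y' h1 h2 using fun s =>
    nSigma_local (hy s).continuousAt (p := p) (i := (y p s).1) (z := (y p s).2) rfl
  have h3 := ((eventually_all.2 h2).mono fun _ => funext).and (hν.eventually_eq p)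
  refine (((K.cont_mk _ _).tendsto _).comp (((K.cont_mu (fun s => (y p s).1) (ν p) φ)
    (β p, fun s => (y p s).2) (h p)).tendsto.comp (tendsto_nhdsWithin_iff.2
      ⟨(hβ.tendsto p).prodMk_nhds (tendsto_pi_nhds.2 h1), h3.mono fun p' hp => ?_⟩))).congr'
    (h3.mono fun p' hp => ?_)
  · have := h p'
    rwa [hp.1, hp.2] at this
  · change _ = K.muS _ _ _ _
    rw [hp.1, hp.2]
    rfl

variable {y : K.W n} {ν ν' ν'' : σ → ℕ} {q q' q'' : Raw σ}

theorem pushS_id (h : y.1 = ν) (hq : IsId ν q) : K.pushS y ν q = y := by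
  subst h
  exact congrArg (Sigma.mk y.1) (K.push_id _ _ hq _ _)

theorem pushS_comp (h : y.1 = ν) (h1 : Valid ν ν' q) (h2 : Valid ν' ν'' q')
    (h3 : IsComp ν ν' ν'' q q' q'') : K.pushS (K.pushS y ν' q) ν'' q' = K.pushS y ν'' q'' := by
  subst h
  exact congrArg (Sigma.mk ν'') (K.push_comp _ _ _ _ _ _ h1 h2 h3 _ _)

theorem pushS_Z (h : y ∈ K.Zs n) : K.pushS y ν' q ∈ K.Zs n :=
  (congrArg (K.push y.1 ν' q n) h).trans (K.push_pt _ _ _ _)

theorem pushS_act (h : y.1 = ν) (h1 : Valid ν ν' q) (t : Thom n N) :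
    K.actS t (K.pushS y ν' q) = K.pushS (K.actS t y) ν' q := by
  subst h
  exact congrArg (Sigma.mk ν') (K.push_act _ _ _ h1 t _).symm

theorem actS_Z (t : Thom n N) (h : y ∈ K.Zs n) : K.actS t y ∈ K.Zs N :=
  (congrArg ((K.Y y.1).act t) h).trans ((K.Y y.1).isO.act_pt t)

theorem pushS_muS {S : Type} [Finite S] {n : S → ℕ} {y : ∀ s, K.W (n s)} {νs νs' : S → σ → ℕ}
    {β β' : S → RM σ} {qs : S → Raw σ} (h : ∀ s, (y s).1 = νs s) (h1 : IsBlk νs ν β)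
    (h2 : IsBlk νs' ν' β') (h3 : ∀ s, Valid (νs s) (νs' s) (qs s)) (h4 : Valid ν ν' q)
    (h5 : Compat wt νs νs' ν ν' β β' qs q) (φ : Dec n N) :
    K.muS (fun s => K.pushS (y s) (νs' s) (qs s)) ν' β' φ = K.pushS (K.muS y ν β φ) ν' q := by
  obtain rfl : (fun s => (y s).1) = νs := funext h
  exact congrArg (Sigma.mk ν') (K.push_mu _ _ _ _ _ _ _ _ h1 h2 h3 h4 h5 φ _).symm

end KData

end Pool.Agent.Lib.E2
end
end
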