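import Pool.Agent.Lib.MP_10be03_gt.KProd
import Pool.Agent.Lib.MP_10be03_gt.NSig
import Pool.Agent.Lib.MP_10be03_gt.KXAll

-- part Pool.Agent.Lib.MP_10be03_gt.KU
section

/-!
The definitions of `KU` have their defining properties.
-/

noncomputable section
open scoped ZeroAtInfty OnePoint
open TrivSqZeroExt

namespace Pool.Agent.Lib.E2

/-- The pair of a point of `KU`. -/
def KUX.pr {n : ℕ} (x : KUX n) : DOp (E n) (E n) := GK.pr x

theorem KUX.isKP {n : ℕ} (x : KUX n) : IsKP x.pr := GK.isKP x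

theorem KUX.ext_pr {n : ℕ} {x y : KUX n} (h : x.pr = y.pr) : x = y := GK.ext_pr h

theorem KUX.isEmbedding_pr {n : ℕ} : Topology.IsEmbedding (KUX.pr (n := n)) := GK.isEmbedding_pr

/-- The point of `KU` of a pair. -/
def KUX.mk {n : ℕ} {p : DOp (E n) (E n)} (h : IsKP p) : KUX n := GK.mk h

theorem KUX.pr_mk {n : ℕ} {p : DOp (E n) (E n)} (h : IsKP p) : (KUX.mk h).pr = p := GK.pr_mk h

theorem pr_kuZero (n : ℕ) : (kuZero n).pr = 0 := rfl

theorem isAct_iff {n N : ℕ} (t : Thom n N) (x : KUX n) (z : KUX N) :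
    IsAct t x z ↔ z.pr = actO t.iso t.iso LinearIsometry.id t.pt x.pr := by
  rw [IsAct]
  generalize t.pt = o
  induction o using OnePoint.rec with
  | infty =>
    exact ⟨fun h => by rw [h.1 rfl, actO_infty, pr_kuZero],
      fun h => ⟨fun _ => KUX.ext_pr (h.trans (actO_infty _ _ _ _)),
        fun w hw => absurd hw (OnePoint.infty_ne_coe w)⟩⟩
  | coe w =>
    have h1 : (actO t.iso t.iso LinearIsometry.id (w : OnePoint (E N)) x.pr).fst =
        ((Real.exp (-‖w‖ ^ 2) : ℝ) : ℂ) • nu t.iso t.iso 1 (x.app e1) := by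
      rw [nu_eq _ _ _ (GK.app_mem x e1), lm_one, actO_coe, dfst_mul, clif, dmk_fst, mul_smul_comm]
      rfl
    have h2 : (actO t.iso t.iso LinearIsometry.id (w : OnePoint (E N)) x.pr).snd =
        ((Real.exp (-‖w‖ ^ 2) : ℝ) : ℂ) •
          (nu t.iso t.iso 1 (x.app e2) + nu t.iso t.iso (cl w) (x.app e1)) := by
      rw [nu_eq _ _ _ (GK.app_mem x e1), nu_eq _ _ _ (GK.app_mem x e2), lm_one, actO_coe, dsnd_mul,
        clif, dmk_fst, dmk_snd, mul_smul_comm, mul_smul_comm, extP_snd, smul_add, add_comm]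
      rfl
    refine ⟨fun h => TrivSqZeroExt.ext ((h.2 w rfl).1.trans h1.symm) ((h.2 w rfl).2.trans h2.symm),
      fun h => ⟨fun hw => absurd hw (OnePoint.coe_ne_infty w), fun w' hw => ?_⟩⟩
    obtain rfl := OnePoint.coe_injective hw
    exact ⟨(congrArg TrivSqZeroExt.fst h).trans h1, (congrArg TrivSqZeroExt.snd h).trans h2⟩

theorem isAct_act {n N : ℕ} (t : Thom n N) (x : KUX n) : IsAct t x (KUpre.act t x) :=
  @Classical.epsilon_spec _ (IsAct t x) ⟨KUX.mk (x.isKP.actO _ _ _ fun _ h => t.perp h),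
    (isAct_iff _ _ _).2 (KUX.pr_mk _)⟩

theorem pr_ku_act {n N : ℕ} (t : Thom n N) (x : KUX n) :
    KUX.pr (KUpre.act t x) = actO t.iso t.iso LinearIsometry.id t.pt x.pr :=
  (isAct_iff _ _ _).1 (isAct_act t x)

theorem isO_KU : IsO KUpre :=
  isO_of_pr KUpre (fun _ => LinearIsometry.id) (fun φ => φ) (fun _ => KUX.pr)
    (fun _ => KUX.isEmbedding_pr) (fun _ => KUX.isKP) pr_kuZero pr_ku_act (fun _ h => h)
    (fun _ _ _ h => h) (fun _ _ => rfl) Thom.continuous_map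

theorem Dec.isDec {S : Type} {n : S → ℕ} {N : ℕ} (φ : Dec n N) : IsDec φ.iso := φ.2

theorem Dec.ort {S : Type} {n : S → ℕ} {N : ℕ} (φ : Dec n N) : Ort φ.iso := φ.2.1

theorem isTens_lam {n : Bool → ℕ} {N : ℕ} (φ : Dec n N) : IsTens φ fun S T =>
    lam (φ.iso true) (φ.iso true) S * lam (φ.iso false) (φ.iso false) T :=
  ⟨⟨((isCL_lam _ _).1.comp _root_.continuous_fst).mul
      ((isCL_lam _ _).1.comp _root_.continuous_snd),
    fun _ => ((isCL_lam _ _).const_mul _).2, fun _ => ((isCL_lam _ _).mul_const _).2⟩,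
    fun v w c v' w' c' => by
      rw [clMul, clMul, mul_one]
      refine lam_th_mul_lam_th _ _ _ _ (φ.ort true false (by simp)) (fun x => ?_) v w c v' w' c'
      obtain ⟨u, rfl⟩ := φ.isDec.exists_sum x
      exact ⟨u true, u false, by rw [finsum_eq_sum_of_fintype, Fintype.sum_bool]⟩⟩

theorem isTens_tens {n : Bool → ℕ} {N : ℕ} (φ : Dec n N) : IsTens φ (tens φ) :=
  @Classical.epsilon_spec _ (IsTens φ) ⟨_, isTens_lam φ⟩

theorem tens_eq {n : Bool → ℕ} {N : ℕ} (φ : Dec n N) {S : OpE (n true)} {T : OpE (n false)}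
    (hS : S ∈ KA _ _) (hT : T ∈ KA _ _) : tens φ S T =
      lam (φ.iso true) (φ.iso true) S * lam (φ.iso false) (φ.iso false) T := by
  obtain ⟨⟨h1, h2, h3⟩, h4⟩ := isTens_tens φ
  refine KA.eq_of_th (f := fun S => tens φ S T) ⟨h1.comp (continuous_id.prodMk continuous_const),
    h3 T⟩ ((isCL_lam _ _).mul_const _) (fun v w c => ?_) hS
  exact KA.eq_of_th (f := tens φ (th v w c)) ⟨h1.comp (continuous_const.prodMk continuous_id),
    h2 _⟩ ((isCL_lam _ _).const_mul _)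
    (fun v' w' c' => (h4 v w c v' w' c').trans ((isTens_lam φ).2 v w c v' w' c').symm) hT

theorem isMul_iff {n : Bool → ℕ} {N : ℕ} (φ : Dec n N) (x : ∀ b, KUX (n b)) (z : KUX N) :
    IsMul φ (x true) (x false) z ↔ z.pr = muP φ.iso φ.iso fun b => (x b).pr := by
  rw [muP, oprod_bool (gc_fam φ.ort φ.ort (fun b => (x b).isKP) true false (by simp)).commute,
    IsMul, IsSum, one_smul, tens_eq φ (GK.app_mem _ _) (GK.app_mem _ _),
    tens_eq φ (GK.app_mem _ _) (GK.app_mem _ _), tens_eq φ (GK.app_mem _ _) (GK.app_mem _ _),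
    add_comm, TrivSqZeroExt.ext_iff]
  rfl

theorem isMul_kuMul {n : Bool → ℕ} {N : ℕ} (φ : Dec n N) (x : ∀ b, KUX (n b)) :
    IsMul φ (x true) (x false) (kuMul φ (x true) (x false)) :=
  @Classical.epsilon_spec _ (IsMul φ (x true) (x false))
    ⟨KUX.mk (isKP_muP φ.ort φ.isDec fun b => (x b).isKP), (isMul_iff _ _ _).2 (KUX.pr_mk _)⟩

theorem pr_kuMul {n : Bool → ℕ} {N : ℕ} (φ : Dec n N) (x : ∀ b, KUX (n b)) :
    (kuMul φ (x true) (x false)).pr = muP φ.iso φ.iso fun b => (x b).pr :=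
  (isMul_iff _ _ _).1 (isMul_kuMul φ x)

theorem isKP_one {U V : Type} [NormedAddCommGroup U] [InnerProductSpace ℝ U]
    [FiniteDimensional ℝ U] [NormedAddCommGroup V] [InnerProductSpace ℝ V] [FiniteDimensional ℝ V]
    [Subsingleton V] : IsKP (1 : DOp U V) :=
  ⟨IsEP.one, by rw [fst_one, ← th_zero_one]; exact th_mem _ _ _, KA.zero_mem⟩

/-- Evaluation at `0` times the unit. -/
def ev0 (A : Type) [CStarAlgebra A] : C₀(ℝ, ℂ) →⋆ₙₐ[ℂ] A where
  toFun f := f 0 • 1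
  map_smul' r f := by simp [mul_smul]
  map_zero' := by simp
  map_add' f g := by simp [add_smul]
  map_mul' f g := by simp [smul_smul, mul_comm]
  map_star' f := by simp

theorem isOne_iff (z : KUX 0) : IsOne z ↔ z.pr = 1 := by
  have h1 : (ev0 (OpE 0)) e1 = 1 := by simp [ev0, e1_apply]
  have h2 : (ev0 (OpE 0)) e2 = 0 := by simp [ev0, e2_apply]
  rw [IsOne, th_zero_one]
  refine ⟨fun h => TrivSqZeroExt.ext ((h e1).trans h1) ((h e2).trans h2), fun h f => ?_⟩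
  have h3 : z.1 = ev0 (OpE 0) := SHom.ext_e ((congrArg TrivSqZeroExt.fst h).trans h1.symm)
    ((congrArg TrivSqZeroExt.snd h).trans h2.symm)
  exact congrArg (fun y : SHom C₀(ℝ, ℂ) (OpE 0) => y.app f) h3

theorem isOne_kuOne : IsOne kuOne :=
  @Classical.epsilon_spec _ IsOne ⟨KUX.mk isKP_one, (isOne_iff _).2 (KUX.pr_mk _)⟩

theorem pr_kuOne : kuOne.pr = 1 := (isOne_iff _).1 isOne_kuOne

theorem ku_holds : KUStmt :=
  ⟨⟨isNu_nu, isAct_act, isTens_tens,
    fun φ x y => isMul_kuMul φ fun b => Bool.rec y x b, isOne_kuOne⟩, isO_KU⟩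

end Pool.Agent.Lib.E2
end
end

-- part Pool.Agent.Lib.MP_10be03_gt.KX
section

/-!
The characters of a family of orthogonal spectra of invariant pairs.
-/

noncomputable section
open scoped Matrix TensorProduct

namespace Pool.Agent.Lib.E2

theorem yIf_of_pr {ι m : Type} [Fintype ι] [Fintype m] [DecidableEq m] (w : m → ι → ℤ) (R : OSp)
    (pr : ∀ n, R.X n → DOp (UU (E n) m) (E n)) (emb : ∀ n, Topology.IsEmbedding (pr n))
    (kp : ∀ n x, IsKP (pr n x))
    (inv : ∀ n x t, dmap (lam (torI (E n) w t) LinearIsometry.id) (pr n x) = pr n x)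
    (onto : ∀ n (p : DOp (UU (E n) m) (E n)), IsKP p →
      (∀ t, dmap (lam (torI (E n) w t) LinearIsometry.id) p = p) → ∃ x, pr n x = p)
    (pr_pt : ∀ n, pr n (R.pt n) = 0)
    (pr_act : ∀ {n N : ℕ} (t : Thom n N) x,
      pr N (R.act t x) = actO (kk t.iso 1 (by simp)) t.iso (UU.inl m) t.pt (pr n x)) :
    ∃ G : YIf w R.toS, ∀ n x, G.a1 n x = (pr n x).fst ∧ G.a2 n x = (pr n x).snd := by
  have key : ∀ n x u (v : E (n + 1)), axis n u = v → pr (n + 1) (R.toS.sg n x u) =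
      extP (kap1 m n) (inc n) (pr n x) * clif (E (n + 1)) (UU.inl m v) := fun n x u v hv => by
    have h := pr_act (sThom n u) x
    rw [show (sThom n u).pt = v from hv] at h
    exact h
  refine ⟨⟨fun n x => (pr n x).fst, fun n x => (pr n x).snd, fun n x => ?_, emb,
    fun n a b h => ?_, fun n => congrArg TrivSqZeroExt.fst (pr_pt n),
    fun n => congrArg TrivSqZeroExt.snd (pr_pt n), fun n x u v hv => ?_, fun n x u v hv => ?_⟩,
    fun n x => ⟨rfl, rfl⟩⟩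
  · have h := kp n x
    exact ⟨h.ep.gp, h.m1, h.m2, fun t => congrArg TrivSqZeroExt.fst (inv n x t),
      fun t => congrArg TrivSqZeroExt.snd (inv n x t), h.ep.ev, h.ep.od⟩
  · obtain ⟨x, hx⟩ := onto n (dmk a b) ⟨⟨h.gp, h.g1, h.g2⟩, h.m1, h.m2⟩
      fun t => TrivSqZeroExt.ext (h.q1 t) (h.q2 t)
    exact ⟨x, congrArg TrivSqZeroExt.fst hx, congrArg TrivSqZeroExt.snd hx⟩
  · rw [key n x u v hv, dfst_mul, clif, dmk_fst, extP_fst, mul_smul_comm, mul_one,
      LinearIsometry.norm_map]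
  · rw [key n x u v hv, dsnd_mul, clif, dmk_fst, dmk_snd, extP_fst, extP_snd, mul_smul_comm,
      mul_smul_comm, mul_one, LinearIsometry.norm_map, smul_add]
    exact add_comm _ _

/-- The five character fields of `KData` for a family of spectra of invariant pairs. -/
theorem chi_of_pr {ι σ : Type} [Fintype ι] [Fintype σ] [DecidableEq σ] (wt : σ → ι → ℤ)
    (hKU : IsO KUpre) (Y : (σ → ℕ) → OSp)
    (pr : ∀ ν n, (Y ν).X n → DOp (UU (E n) (Md ν)) (E n))
    (emb : ∀ ν n, Topology.IsEmbedding (pr ν n)) (kp : ∀ ν n x, IsKP (pr ν n x))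
    (inv : ∀ ν n x t, dmap (lam (torI (E n) (fun k : Md ν => wt k.1) t) LinearIsometry.id)
      (pr ν n x) = pr ν n x)
    (onto : ∀ ν n (p : DOp (UU (E n) (Md ν)) (E n)), IsKP p →
      (∀ t, dmap (lam (torI (E n) (fun k : Md ν => wt k.1) t) LinearIsometry.id) p = p) →
      ∃ x, pr ν n x = p)
    (pr_pt : ∀ ν n, pr ν n ((Y ν).pt n) = 0)
    (pr_act : ∀ ν {n N : ℕ} (t : Thom n N) x, pr ν N ((Y ν).act t x) =
      actO (kk t.iso 1 (by simp)) t.iso (UU.inl (Md ν)) t.pt (pr ν n x))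
    (push : ∀ ν ν' : σ → ℕ, Raw σ → ∀ n, (Y ν).X n → (Y ν').X n)
    (pr_push : ∀ ν ν' q, Valid ν ν' q → ∃ h : (bdM q.1 ν' ν)ᴴ * bdM q.1 ν' ν = 1, ∀ n x,
      pr ν' n (push ν ν' q n x) = pushP (kk LinearIsometry.id (bdM q.1 ν' ν) h)
        (pp (E n) (bdM q.2.1 ν' ν') (bdM q.2.2 ν' ν')) (pr ν n x))
    (iota : OMap ⟨KUpre, hKU⟩ (Y 0))
    (pr_iota : ∀ n (x : KUX n), pr 0 n (iota.f n x) =
      dmap (lam (UU.inl (Md (0 : σ → ℕ))) LinearIsometry.id) (GK.pr (U := E n) (V := E n) x)) :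
    ∃ χ : ∀ ν a b, (Y ν).toS.Pi a b →+ LauR ι ⊗[ℤ] (OSp.toS ⟨KUpre, hKU⟩).Pi a b,
      (∀ ν a b, Function.Injective (χ ν a b)) ∧
      (∀ ν a b, (χ ν a b).range =
        AddSubgroup.closure {z | ∃ w ∈ wts wt ν, ∃ y, z = mono w ⊗ₜ[ℤ] y}) ∧
      (∀ a b y, χ 0 a b (iota.toS.pi a b y) = 1 ⊗ₜ[ℤ] y) ∧
      ∀ ν ν' q, Valid ν ν' q → ∀ (nv nt nf : σ → ℕ),
        (∀ a, (mat (q.2.1 a) (ν' a) (ν' a)).trace = nv a) →
        (∀ a, (mat (q.2.2 a) (ν' a) (ν' a)).trace = nt a) →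
        (∀ a, ν' a = ν a + nv a + nt a + nf a) →
        ∀ (g : SMap (Y ν).toS (Y ν').toS), (∀ n x, g.f n x = push ν ν' q n x) → ∀ a b x,
        χ ν' a b (g.pi a b x) =
          (∏ s, (-mono (wt s)) ^ nt s * (1 - mono (wt s)) ^ nf s) • χ ν a b x := by
  obtain ⟨GA, hA⟩ := kIf_KU ku_holds.1 hKU
  choose GB hB using fun ν => yIf_of_pr (fun k : Md ν => wt k.1) (Y ν) (pr ν) (emb ν) (kp ν)
    (inv ν) (onto ν) (pr_pt ν) (pr_act ν)
  obtain ⟨χ, h1, h2, h3, h4⟩ := chi_all wt GA (fun ν => (Y ν).toS) GB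
  refine ⟨χ, h1, h2, h3 iota.toS fun n x => ?_,
    fun ν ν' q hq nv nt nf t1 t2 hν g hg a b x => ?_⟩
  · rw [(hB 0 n _).1, (hB 0 n _).2, (hA n x).1, (hA n x).2]
    exact ⟨congrArg TrivSqZeroExt.fst (pr_iota n x), congrArg TrivSqZeroExt.snd (pr_iota n x)⟩
  · obtain ⟨h, e⟩ := pr_push ν ν' q hq
    refine h4 ν ν' q hq nv nt nf t1 t2 hν g h (fun n x => ?_) a b x
    rw [(hB ν' n _).1, (hB ν' n _).2, (hB ν n _).1, (hB ν n _).2, hg, e]
    exact ⟨pushP_fst _ _ _, pushP_snd _ _ _⟩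

end Pool.Agent.Lib.E2
end
end

-- part Pool.Agent.Lib.MP_10be03_gt.KY
section

/-!
The torus invariant Clifford K-theory spectra.
-/

noncomputable section
open scoped Matrix OnePoint
open TrivSqZeroExt

namespace Pool.Agent.Lib.E2

variable {ι m m' m'' V V' W W' : Type} [Fintype ι] [Fintype m] [DecidableEq m] [Fintype m']
  [DecidableEq m'] [Fintype m''] [DecidableEq m'']
  [NormedAddCommGroup V] [InnerProductSpace ℝ V] [FiniteDimensional ℝ V]
  [NormedAddCommGroup V'] [InnerProductSpace ℝ V'] [FiniteDimensional ℝ V']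
  [NormedAddCommGroup W] [InnerProductSpace ℝ W] [FiniteDimensional ℝ W]
  [NormedAddCommGroup W'] [InnerProductSpace ℝ W'] [FiniteDimensional ℝ W']

/-- Invariant pairs. -/
def PInv (w : m → ι → ℤ) (p : DOp (UU V m) W) : Prop :=
  ∀ t, dmap (lam (torI V w t) (LinearIsometry.id : W →ₗᵢ[ℝ] W)) p = p

/-- Equivariant matrices. -/
def Eqv (w : m → ι → ℤ) (w' : m' → ι → ℤ) (M : Matrix m' m ℂ) : Prop :=
  ∀ t, torM w' t * M = M * torM w t

variable {w : m → ι → ℤ} {w' : m' → ι → ℤ}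

theorem pInv_iff {p : DOp (UU V m) W} : PInv w p ↔ XInv w p.fst ∧ XInv w p.snd :=
  ⟨fun h => ⟨fun t => congrArg TrivSqZeroExt.fst (h t), fun t => congrArg TrivSqZeroExt.snd (h t)⟩,
    fun h t => TrivSqZeroExt.ext (h.1 t) (h.2 t)⟩

theorem PInv.zero : PInv w (0 : DOp (UU V m) W) := fun _ => dmap_zero _

theorem PInv.mul {p q : DOp (UU V m) W} (hp : PInv w p) (hq : PInv w q) : PInv w (p * q) :=
  fun t => by rw [map_mul, hp t, hq t]

theorem PInv.oprod {S : Type} [Finite S] {p : S → DOp (UU V m) W} (hp : ∀ s, PInv w (p s)) :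
    PInv w (oprod p) := fun t => by
  rw [map_oprod]; exact congrArg _ (funext fun s => hp s t)

theorem PInv.vac (j : W →ₗᵢ[ℝ] W') : PInv w (dmk (vac (UU V m) j) 0) :=
  fun t => by rw [dmap_dmk_zero, lam_id_vac]

theorem PInv.clifO (o : OnePoint V) : PInv w (clifO W (UU.inl m) o) := fun t => by
  induction o using OnePoint.rec with
  | infty => exact dmap_zero _
  | coe v => rw [clifO_coe, dmap_lam_clif, torI, kk_inl]; rfl

theorem PInv.pp {p q : Matrix m m ℂ} (hp : IsStarProjection p) (hq : IsStarProjection q)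
    (ep : Eqv w w p) (eq : Eqv w w q) : PInv w (dmk (lm W (pp V p q)) 0) := fun t => by
  rw [dmap_dmk_zero, lam_lm, torI, clMap_kk_pp _ _ _ hp hq, ep, eq, Matrix.mul_assoc,
    Matrix.mul_assoc, mul_eq_one_comm.1 (torM_iso w t), Matrix.mul_one, Matrix.mul_one]

omit [FiniteDimensional ℝ W'] in
/-- An invariant pair does not see a torus element in the isometry. -/
theorem PInv.lam_eq {p : DOp (UU V m) W} (hp : PInv w p) {X : Type} [NormedAddCommGroup X]
    [InnerProductSpace ℝ X] [FiniteDimensional ℝ X] {k k' : UU V m →ₗᵢ[ℝ] X} {t : ι → Circle}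
    (h : ∀ u, k' u = k (torI V w t u)) (j : W →ₗᵢ[ℝ] W') :
    dmap (lam k' j) p = dmap (lam k j) p := by
  rw [← dmap_lam_lam h (j := LinearIsometry.id) (j' := j) fun _ => rfl, hp t]

theorem PInv.kk {p : DOp (UU V m) W} (hp : PInv w p) (φ : V →ₗᵢ[ℝ] V') {M : Matrix m' m ℂ}
    (hM : Mᴴ * M = 1) (h : Eqv w w' M) (j : W →ₗᵢ[ℝ] W') :
    PInv w' (dmap (lam (kk φ M hM) j) p) := fun t => by
  rw [dmap_lam_lam (k'' := (torI V' w' t).comp (E2.kk φ M hM)) (j'' := j) (fun _ => rfl)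
    fun _ => rfl]
  refine hp.lam_eq (t := t) (fun u => UU.ext' rfl ?_) j
  change mv _ (mv _ _) = mv _ (mv _ _)
  rw [mv_mv, mv_mv, h t]

theorem pInv_inl (p : DOp V W) (j : W →ₗᵢ[ℝ] W') : PInv w (dmap (lam (UU.inl m) j) p) :=
  fun _ => dmap_lam_lam (fun u => (kk_inl LinearIsometry.id _ _ u).symm) (fun _ => rfl) p

theorem eqv_one : Eqv w w 1 := fun t => by rw [Matrix.mul_one, Matrix.one_mul]

variable (m) in
/-- The isometry that is the identity on the modes. -/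
def k1 (φ : V →ₗᵢ[ℝ] V') : UU V m →ₗᵢ[ℝ] UU V' m := kk φ 1 (by simp)

variable (w) in
/-- The spaces of the spectrum. -/
def YX (n : ℕ) : Type := {x : GK (UU (E n) m) (E n) // PInv w x.pr}

instance instTopYX (n : ℕ) : TopologicalSpace (YX w n) := instTopologicalSpaceSubtype

namespace YX

variable {n : ℕ}

/-- The pair of a point. -/
def pr (x : YX w n) : DOp (UU (E n) m) (E n) := x.1.pr

theorem isKP (x : YX w n) : IsKP x.pr := x.1.isKP

theorem inv (x : YX w n) : PInv w x.pr := x.2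

theorem isEmbedding_pr : Topology.IsEmbedding (pr : YX w n → _) :=
  GK.isEmbedding_pr.comp Topology.IsEmbedding.subtypeVal

theorem ext_pr {x y : YX w n} (h : x.pr = y.pr) : x = y := isEmbedding_pr.injective h

/-- The point of a pair. -/
def mk {p : DOp (UU (E n) m) (E n)} (h : IsKP p) (hi : PInv w p) : YX w n :=
  ⟨GK.mk h, (GK.pr_mk h).symm ▸ hi⟩

theorem pr_mk {p : DOp (UU (E n) m) (E n)} (h : IsKP p) (hi : PInv w p) : (mk h hi).pr = p :=
  GK.pr_mk h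

variable (w n) in
/-- The base point. -/
def zero : YX w n := mk IsKP.zero PInv.zero

theorem pr_zero : (zero w n).pr = 0 := pr_mk _ _

/-- The structure maps. -/
def act {N : ℕ} (t : Thom n N) (x : YX w n) : YX w N :=
  mk (x.isKP.actO (k1 m t.iso) t.iso (UU.inl m) (o := t.pt) fun _ h u => by
      rw [real_inner_comm]; exact inner_inl_kk _ _ _ (t.perp h).symm u)
    (((x.inv.kk _ _ eqv_one _).mul (PInv.vac _)).mul (PInv.clifO _))

theorem pr_act {N : ℕ} (t : Thom n N) (x : YX w n) :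
    (act t x).pr = actO (k1 m t.iso) t.iso (UU.inl m) t.pt x.pr := pr_mk _ _

end YX

variable (w) in
/-- The spectrum of a family of weights. -/
def Ysp : OSp where
  X := YX w
  pt := YX.zero w
  act := YX.act
  isO := isO_of_pr _ (fun _ => UU.inl m) (fun φ => k1 m φ) (fun _ => YX.pr)
    (fun _ => YX.isEmbedding_pr) (fun _ => YX.isKP) (fun _ => YX.pr_zero) YX.pr_act
    (fun φ h => kk_of_id φ _ _ h rfl)
    (fun _ _ _ h u => (kk_kk _ _ _ _ _ _ _ _ _ h (Matrix.mul_one _).symm u).symm)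
    (fun φ => kk_inl φ _ _) (continuous_kk _ Thom.continuous_map continuous_const)

/-- An isometry and two orthogonal projections on its complement. -/
structure MV (M : Matrix m' m ℂ) (p q : Matrix m' m' ℂ) : Prop where
  iso : Mᴴ * M = 1
  hp : IsStarProjection p
  hq : IsStarProjection q
  pq : p * q = 0
  pM : p * M = 0
  qM : q * M = 0

omit [DecidableEq m''] [Fintype m] in
theorem MV.comp {M : Matrix m' m ℂ} {p q : Matrix m' m' ℂ} {M' : Matrix m'' m' ℂ}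
    {p' q' : Matrix m'' m'' ℂ} [DecidableEq m''] (h : MV M p q) (h' : MV M' p' q') :
    MV (M' * M) (p' + M' * p * M'ᴴ) (q' + M' * q * M'ᴴ) := by
  have e : ∀ {k : Type} (r : Matrix m' m' ℂ) (X : Matrix m' k ℂ), r * X = 0 →
      M' * r * M'ᴴ * (M' * X) = 0 := fun r X hr => by
    rw [Matrix.mul_assoc, ← Matrix.mul_assoc M'ᴴ, h'.iso, Matrix.one_mul, Matrix.mul_assoc, hr,
      Matrix.mul_zero]
  refine ⟨?_, h'.hp.add (kx_proj_conj h'.iso h.hp) (kx_zero_left h'.hp h'.pM _).2,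
    h'.hq.add (kx_proj_conj h'.iso h.hq) (kx_zero_left h'.hq h'.qM _).2, ?_, ?_, ?_⟩
  · rw [Matrix.conjTranspose_mul, Matrix.mul_assoc, ← Matrix.mul_assoc M'ᴴ, h'.iso, Matrix.one_mul,
      h.iso]
  · rw [add_mul, mul_add, mul_add, h'.pq, (kx_zero_left h'.hp h'.pM _).2,
      (kx_zero_left h'.hq h'.qM _).1, Matrix.mul_assoc M' q,
      e p _ (by rw [← Matrix.mul_assoc, h.pq, Matrix.zero_mul])]
    simp
  · rw [Matrix.add_mul, e p M h.pM, ← Matrix.mul_assoc, h'.pM, Matrix.zero_mul, add_zero]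
  · rw [Matrix.add_mul, e q M h.qM, ← Matrix.mul_assoc, h'.qM, Matrix.zero_mul, add_zero]

omit [FiniteDimensional ℝ V] [Fintype m] in
theorem MV.pp_comp {M : Matrix m' m ℂ} {p q : Matrix m' m' ℂ} {M' : Matrix m'' m' ℂ}
    {p' q' : Matrix m'' m'' ℂ} (h : MV M p q) (h' : MV M' p' q') :
    pp V (p' + M' * p * M'ᴴ) (q' + M' * q * M'ᴴ) =
      clMap (kk LinearIsometry.id M' h'.iso) (pp V p q) * pp V p' q' := by
  rw [add_comm p', add_comm q', pp_add (kx_proj_conj h'.iso h.hp) (kx_proj_conj h'.iso h.hq) h'.hp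
    h'.hq (kx_zero_left h'.hp h'.pM _).1 (kx_zero_left h'.hq h'.qM _).1
    (kx_zero_left h'.hp h'.pM _).1, clMap_kk_pp _ _ _ h.hp h.hq]

/-- The map induced by a morphism of modes. -/
def pushY {M : Matrix m' m ℂ} {p q : Matrix m' m' ℂ} (h : MV M p q) (eM : Eqv w w' M)
    (ep : Eqv w' w' p) (eq : Eqv w' w' q) {n : ℕ} (x : YX w n) : YX w' n :=
  YX.mk (x.isKP.pushP (kk LinearIsometry.id M h.iso) (isStarProjection_pp h.hp h.hq h.pq)
      (hat_pp p q) fun c => (commute_pp_clMap _ M h.iso h.hp h.hq h.pM h.qM c).symm)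
    ((x.inv.kk _ _ eM _).mul (PInv.pp h.hp h.hq ep eq))

theorem pr_pushY {M : Matrix m' m ℂ} {p q : Matrix m' m' ℂ} (h : MV M p q) (eM : Eqv w w' M)
    (ep : Eqv w' w' p) (eq : Eqv w' w' q) {n : ℕ} (x : YX w n) :
    (pushY h eM ep eq x).pr = pushP (kk LinearIsometry.id M h.iso) (pp (E n) p q) x.pr :=
  YX.pr_mk _ _

variable {S : Type} {ms : S → Type} [∀ s, Fintype (ms s)] [∀ s, DecidableEq (ms s)]

/-- Isometries with pairwise orthogonal ranges. -/
structure MB (B : ∀ s, Matrix m (ms s) ℂ) : Prop where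
  iso : ∀ s, (B s)ᴴ * B s = 1
  orth : ∀ s t, s ≠ t → (B s)ᴴ * B t = 0

/-- The isometries of a decomposition of space and modes. -/
def MB.k {B : ∀ s, Matrix m (ms s) ℂ} (h : MB B) {n : S → ℕ} {N : ℕ} (φ : Dec n N) (s : S) :
    UU (E (n s)) (ms s) →ₗᵢ[ℝ] UU (E N) m := kk (φ.iso s) (B s) (h.iso s)

theorem MB.ort {B : ∀ s, Matrix m (ms s) ℂ} (h : MB B) {n : S → ℕ} {N : ℕ} (φ : Dec n N) :
    Ort (h.k φ) := fun s t e => inner_kk_kk _ _ _ _ _ _ (φ.ort s t e) (h.orth s t e)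

variable [Finite S]

/-- The product. -/
def muY {ws : ∀ s, ms s → ι → ℤ} {B : ∀ s, Matrix m (ms s) ℂ} (h : MB B)
    (e : ∀ s, Eqv (ws s) w (B s)) {n : S → ℕ} {N : ℕ} (φ : Dec n N)
    (x : ∀ s, YX (ws s) (n s)) : YX w N :=
  YX.mk (isKP_muP (h.ort φ) φ.isDec fun s => (x s).isKP)
    (PInv.oprod fun s => (x s).inv.kk _ _ (e s) _)

theorem pr_muY {ws : ∀ s, ms s → ι → ℤ} {B : ∀ s, Matrix m (ms s) ℂ} (h : MB B)
    (e : ∀ s, Eqv (ws s) w (B s)) {n : S → ℕ} {N : ℕ} (φ : Dec n N)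
    (x : ∀ s, YX (ws s) (n s)) : (muY h e φ x).pr = muP (h.k φ) φ.iso fun s => (x s).pr :=
  YX.pr_mk _ _

omit [FiniteDimensional ℝ V] in
theorem pp_finsum {P Q : S → Matrix m m ℂ} (hP : ∀ s, IsStarProjection (P s))
    (hQ : ∀ s, IsStarProjection (Q s))
    (h : ∀ s t, s ≠ t → P s * P t = 0 ∧ Q s * Q t = 0 ∧ Q s * P t = 0) :
    pp V (∑ᶠ s, P s) (∑ᶠ s, Q s) = oprod fun s => pp V (P s) (Q s) := by
  rw [← sum_lst, ← sum_lst, oprod]
  have h1 := pairwise_lst h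
  generalize lst S = l at h1
  suffices IsStarProjection (l.map P).sum ∧ IsStarProjection (l.map Q).sum ∧ _ from this.2.2
  induction l with
  | nil => exact ⟨IsStarProjection.zero _, IsStarProjection.zero _, pp_zero⟩
  | cons s l ih =>
    rw [List.pairwise_cons] at h1
    obtain ⟨i1, i2, i3⟩ := ih h1.2
    have e : ∀ (a : Matrix m m ℂ) (R : S → Matrix m m ℂ), (∀ t ∈ l, a * R t = 0) →
        a * (l.map R).sum = 0 := fun a R hR => by
      rw [← List.sum_map_mul_left, List.map_congr_left hR, List.sum_map_zero]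
    have e1 := e _ P fun t ht => (h1.1 t ht).1
    have e2 := e _ Q fun t ht => (h1.1 t ht).2.1
    simp only [List.map_cons, List.sum_cons, List.prod_cons]
    exact ⟨(hP s).add i1 e1, (hQ s).add i2 e2, by
      rw [pp_add (hP s) (hQ s) i1 i2 e1 e2 (e _ P fun t ht => (h1.1 t ht).2.2), i3]⟩

variable (w) in
/-- The map from `KU`. -/
def iotaY (hKU : IsO KUpre) : OMap ⟨KUpre, hKU⟩ (Ysp w) where
  f n x := YX.mk ((KUX.isKP x).lam (UU.inl m) (j := LinearIsometry.id) Function.surjective_id)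
    (pInv_inl _ _)
  cont n := YX.isEmbedding_pr.continuous_iff.2 (by
    simp only [Function.comp_def, YX.pr_mk]
    exact continuous_dmap_lam _ (fun _ => continuous_const) KUX.isEmbedding_pr.continuous KUX.isKP)
  f_pt n := YX.ext_pr ((YX.pr_mk _ _).trans ((dmap_zero _).trans YX.pr_zero.symm))
  f_act t x := YX.ext_pr (by
    have h := pushP_actO (κ := t.iso) (k := UU.inl m) (k₁ := UU.inl m) (κ₁ := k1 m t.iso)
      (fun u => (kk_inl _ _ _ u).symm) t.iso (e := LinearIsometry.id) (e₁ := UU.inl m)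
      (fun _ => rfl) 1 (fun _ => by rw [map_one]; exact Commute.one_right _) t.pt (KUX.pr x)
    rw [map_one, pushP_one, pushP_one, ← pr_ku_act] at h
    exact (YX.pr_mk _ _).trans (h.trans ((YX.pr_act _ _).trans (by rw [YX.pr_mk])).symm))

theorem pr_iotaY (hKU : IsO KUpre) {n : ℕ} (x : KUX n) :
    YX.pr ((iotaY w hKU).f n x) = dmap (lam (UU.inl m) LinearIsometry.id) x.pr :=
  YX.pr_mk (x.isKP.lam _ Function.surjective_id) (pInv_inl _ _)

end Pool.Agent.Lib.E2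
end
end

-- part Pool.Agent.Lib.MP_10be03_gt.KXY
section

/-!
The characters of the spectra `Ysp`.
-/

noncomputable section
open scoped Matrix TensorProduct

namespace Pool.Agent.Lib.E2

theorem chi_Y {ι σ : Type} [Fintype ι] [Fintype σ] [DecidableEq σ] (wt : σ → ι → ℤ)
    (hKU : IsO KUpre)
    (push : ∀ ν ν' : σ → ℕ, Raw σ → ∀ n,
      YX (fun k : Md ν => wt k.1) n → YX (fun k : Md ν' => wt k.1) n)
    (pr_push : ∀ ν ν' q, Valid ν ν' q → ∃ h : (bdM q.1 ν' ν)ᴴ * bdM q.1 ν' ν = 1, ∀ n x,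
      (push ν ν' q n x).pr = pushP (kk LinearIsometry.id (bdM q.1 ν' ν) h)
        (pp (E n) (bdM q.2.1 ν' ν') (bdM q.2.2 ν' ν')) x.pr) :
    ∃ χ : ∀ ν a b, (Ysp fun k : Md ν => wt k.1).toS.Pi a b →+
        LauR ι ⊗[ℤ] (OSp.toS ⟨KUpre, hKU⟩).Pi a b,
      (∀ ν a b, Function.Injective (χ ν a b)) ∧
      (∀ ν a b, (χ ν a b).range =
        AddSubgroup.closure {z | ∃ w ∈ wts wt ν, ∃ y, z = mono w ⊗ₜ[ℤ] y}) ∧
      (∀ a b y, χ 0 a b ((iotaY (fun k : Md (0 : σ → ℕ) => wt k.1) hKU).toS.pi a b y) =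
        1 ⊗ₜ[ℤ] y) ∧
      ∀ ν ν' q, Valid ν ν' q → ∀ (nv nt nf : σ → ℕ),
        (∀ a, (mat (q.2.1 a) (ν' a) (ν' a)).trace = nv a) →
        (∀ a, (mat (q.2.2 a) (ν' a) (ν' a)).trace = nt a) →
        (∀ a, ν' a = ν a + nv a + nt a + nf a) →
        ∀ (g : SMap (Ysp fun k : Md ν => wt k.1).toS (Ysp fun k : Md ν' => wt k.1).toS),
        (∀ n x, g.f n x = push ν ν' q n x) → ∀ a b x,
        χ ν' a b (g.pi a b x) =
          (∏ s, (-mono (wt s)) ^ nt s * (1 - mono (wt s)) ^ nf s) • χ ν a b x :=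
  chi_of_pr wt hKU (fun ν => Ysp fun k : Md ν => wt k.1) (fun _ _ => YX.pr)
    (fun _ _ => YX.isEmbedding_pr) (fun _ _ => YX.isKP) (fun _ _ => YX.inv)
    (fun _ _ _ h hi => ⟨YX.mk h hi, YX.pr_mk h hi⟩) (fun _ _ => YX.pr_zero)
    (fun _ _ _ t x => YX.pr_act t x) push pr_push (iotaY _ hKU) fun _ x => pr_iotaY hKU x

end Pool.Agent.Lib.E2
end
end

-- part Pool.Agent.Lib.MP_10be03_gt.KS
section

/-!
The spectra of layer K for block diagonal matrices: morphisms and products.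
-/

noncomputable section
open scoped Matrix OnePoint
open TrivSqZeroExt

namespace Pool.Agent.Lib.E2

variable {ι σ : Type} [Fintype ι] [Fintype σ] [DecidableEq σ] {wt : σ → ι → ℤ}
  {ν ν' ν'' : σ → ℕ}

/-- The weights of the modes. -/
abbrev wM (wt : σ → ι → ℤ) (ν : σ → ℕ) : Md ν → ι → ℤ := fun k => wt k.1

omit [Fintype σ] in
theorem torM_bd (t : ι → Circle) : torM (wM wt ν) t =
    Matrix.blockDiagonal' fun a => phase t (wt a) • (1 : Matrix (Fin (ν a)) (Fin (ν a)) ℂ) := by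
  simp only [Matrix.smul_one_eq_diagonal, Matrix.blockDiagonal'_diagonal]
  rfl

theorem eqv_bdM (f : RM σ) : Eqv (wM wt ν) (wM wt ν') (bdM f ν' ν) := fun t => by
  simp only [torM_bd, bdM, ← Matrix.blockDiagonal'_mul, Matrix.smul_mul, Matrix.mul_smul,
    Matrix.one_mul, Matrix.mul_one]

theorem bdM_mul {f g h : RM σ}
    (e : ∀ a, mat (h a) (ν'' a) (ν a) = mat (f a) (ν'' a) (ν' a) * mat (g a) (ν' a) (ν a)) :
    bdM h ν'' ν = bdM f ν'' ν' * bdM g ν' ν := by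
  rw [bdM, bdM, bdM, ← Matrix.blockDiagonal'_mul, funext e]

omit [Fintype σ] in
theorem bdM_one {f : RM σ} (e : ∀ a, mat (f a) (ν a) (ν a) = 1) : bdM f ν ν = 1 := by
  rw [bdM, funext e]; exact Matrix.blockDiagonal'_one

omit [Fintype σ] in
theorem bdM_zero {f : RM σ} (e : ∀ a, mat (f a) (ν' a) (ν a) = 0) : bdM f ν' ν = 0 := by
  rw [bdM, funext e]; exact Matrix.blockDiagonal'_zero

theorem bdM_mul_zero {f g : RM σ}
    (e : ∀ a, mat (f a) (ν'' a) (ν' a) * mat (g a) (ν' a) (ν a) = 0) :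
    bdM f ν'' ν' * bdM g ν' ν = 0 := by
  rw [bdM, bdM, ← Matrix.blockDiagonal'_mul, funext e]; exact Matrix.blockDiagonal'_zero

theorem bdM_iso {f : RM σ} (e : ∀ a, (mat (f a) (ν' a) (ν a))ᴴ * mat (f a) (ν' a) (ν a) = 1) :
    (bdM f ν' ν)ᴴ * bdM f ν' ν = 1 := by
  rw [bdM, Matrix.blockDiagonal'_conjTranspose, ← Matrix.blockDiagonal'_mul, funext e]
  exact Matrix.blockDiagonal'_one

theorem bdM_conj (f g : RM σ) : bdM f ν' ν * bdM g ν ν * (bdM f ν' ν)ᴴ = Matrix.blockDiagonal'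
    fun a => mat (f a) (ν' a) (ν a) * mat (g a) (ν a) (ν a) * (mat (f a) (ν' a) (ν a))ᴴ := by
  rw [bdM, bdM, Matrix.blockDiagonal'_conjTranspose, ← Matrix.blockDiagonal'_mul,
    ← Matrix.blockDiagonal'_mul]

theorem bdM_add_conj {f g h k : RM σ} (e : ∀ a, mat (k a) (ν' a) (ν' a) = mat (h a) (ν' a) (ν' a) +
    mat (f a) (ν' a) (ν a) * mat (g a) (ν a) (ν a) * (mat (f a) (ν' a) (ν a))ᴴ) :
    bdM k ν' ν' = bdM h ν' ν' + bdM f ν' ν * bdM g ν ν * (bdM f ν' ν)ᴴ := by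
  rw [bdM_conj, bdM, bdM, ← Matrix.blockDiagonal'_add, funext e]
  rfl

omit [Fintype σ] in
theorem continuous_bdM : Continuous fun f : RM σ => bdM f ν' ν :=
  Continuous.matrix_blockDiagonal' (continuous_pi fun a => continuous_matrix fun i j =>
    (continuous_apply_apply (i : ℕ) (j : ℕ)).comp (continuous_apply a))

variable (ν ν') in
/-- The matrices of a raw morphism form a morphism. -/
abbrev MVq (q : Raw σ) : Prop := MV (bdM q.1 ν' ν) (bdM q.2.1 ν' ν') (bdM q.2.2 ν' ν')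

theorem Valid.mv {q : Raw σ} (h : Valid ν ν' q) : MVq ν ν' q :=
  ⟨bdM_iso h.iso, kx_proj_bd h.p1, kx_proj_bd h.p2, bdM_mul_zero h.p12, bdM_mul_zero h.p1φ,
    bdM_mul_zero h.p2φ⟩

open Classical in
variable (wt ν ν') in
/-- The map of a raw morphism. -/
def pushK (q : Raw σ) (n : ℕ) (x : YX (wM wt ν) n) : YX (wM wt ν') n :=
  if h : MVq ν ν' q then pushY h (eqv_bdM _) (eqv_bdM _) (eqv_bdM _) x else YX.zero _ n

theorem pr_pushK {q : Raw σ} (h : MVq ν ν' q) {n : ℕ} (x : YX (wM wt ν) n) :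
    (pushK wt ν ν' q n x).pr = pushP (kk LinearIsometry.id (bdM q.1 ν' ν) h.iso)
      (pp (E n) (bdM q.2.1 ν' ν') (bdM q.2.2 ν' ν')) x.pr := by
  rw [pushK, dif_pos h, pr_pushY]

theorem cont_pushK (n : ℕ) : ContinuousOn
    (fun p : Raw σ × YX (wM wt ν) n => pushK wt ν ν' p.1 n p.2) {p | Valid ν ν' p.1} := by
  refine continuousOn_iff_continuous_domRestrict.2 (YX.isEmbedding_pr.continuous_iff.2 ?_)
  have h : Continuous fun p : {p : Raw σ × YX (wM wt ν) n | Valid ν ν' p.1} => p.1.1 :=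
    continuous_subtype_val.fst
  exact (continuous_pushP (continuous_kk (fun p => (Valid.mv p.2).iso) (fun _ => continuous_const)
    (continuous_bdM.comp h.fst)) (continuous_pp.comp ((continuous_bdM.comp h.snd.fst).prodMk
      (continuous_bdM.comp h.snd.snd))) (YX.isEmbedding_pr.continuous.comp
      continuous_subtype_val.snd) fun _ => YX.isKP _).congr fun p =>
    (pr_pushK (Valid.mv p.2) _).symm

theorem pushK_zero (q : Raw σ) (n : ℕ) : pushK wt ν ν' q n (YX.zero _ n) = YX.zero _ n := by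
  by_cases h : MVq ν ν' q
  · exact YX.ext_pr (by rw [pr_pushK h, YX.pr_zero, YX.pr_zero, pushP_zero])
  · exact dif_neg h

theorem pushK_act {q : Raw σ} (h : MVq ν ν' q) {n N : ℕ} (t : Thom n N) (x : YX (wM wt ν) n) :
    pushK wt ν ν' q N (YX.act t x) = YX.act t (pushK wt ν ν' q n x) := YX.ext_pr (by
  have e : pp (E N) (bdM q.2.1 ν' ν') (bdM q.2.2 ν' ν') =
      clMap (k1 (Md ν') t.iso) (pp (E n) (bdM q.2.1 ν' ν') (bdM q.2.2 ν' ν')) := by
    rw [k1, clMap_kk_pp _ _ _ h.hp h.hq]; simp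
  rw [pr_pushK h, YX.pr_act, YX.pr_act, pr_pushK h, e]
  refine pushP_actO (fun u => ?_) _ (fun v => ?_) _ (fun v => ?_) _ _
  · refine UU.ext' rfl ?_
    change mv _ (mv _ _) = mv _ (mv _ _)
    rw [mv_one, mv_one]
  · exact kk_inl _ _ _ v
  · rw [← e]
    exact (commute_pp_inl _ _ v).symm)

theorem pushK_id {q : Raw σ} (h : IsId ν q) (n : ℕ) (x : YX (wM wt ν) n) :
    pushK wt ν ν q n x = x := by
  have h1 := bdM_one h.φ
  have h2 := bdM_zero h.p1
  have h3 := bdM_zero h.p2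
  have h4 : MVq ν ν q := by
    rw [MVq, h1, h2, h3]
    exact ⟨by simp, IsStarProjection.zero _, IsStarProjection.zero _, by simp, by simp, by simp⟩
  have e : pp (E n) (bdM q.2.1 ν ν) (bdM q.2.2 ν ν) = 1 := by rw [h2, h3, pp_zero]
  refine YX.ext_pr ?_
  rw [pr_pushK h4, e, pushP_one]
  exact dmap_lam_of_id (kk_of_id _ _ _ (fun _ => rfl) h1) (fun _ => rfl) _

theorem pushK_comp {q q' q'' : Raw σ} (h : MVq ν ν' q) (h' : MVq ν' ν'' q')
    (hc : IsComp ν ν' ν'' q q' q'') (n : ℕ) (x : YX (wM wt ν) n) :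
    pushK wt ν' ν'' q' n (pushK wt ν ν' q n x) = pushK wt ν ν'' q'' n x := by
  have h1 := bdM_mul hc.φ
  have h2 := bdM_add_conj hc.p1
  have h3 := bdM_add_conj hc.p2
  have h4 : MVq ν ν'' q'' := by rw [MVq, h1, h2, h3]; exact h.comp h'
  refine YX.ext_pr ?_
  rw [pr_pushK h', pr_pushK h, pr_pushK h4, (congrArg₂ (pp (E n)) h2 h3).trans (h.pp_comp h')]
  exact pushP_pushP _ _ _ _ (fun u => (kk_kk _ _ _ _ _ _ _ _ _ (fun _ => rfl) h1 u).symm) _

variable {S : Type} {νs νs' : S → σ → ℕ}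

variable (νs ν) in
/-- The matrices of a raw block family are isometries with orthogonal ranges. -/
abbrev MBq (β : S → RM σ) : Prop := MB fun s => bdM (β s) ν (νs s)

theorem IsBlk.mb {β : S → RM σ} (h : IsBlk νs ν β) : MBq ν νs β :=
  ⟨fun s => bdM_iso (h.iso s), fun s t e => by
    rw [bdM, bdM, Matrix.blockDiagonal'_conjTranspose, ← Matrix.blockDiagonal'_mul,
      funext (h.orth s t e)]
    exact Matrix.blockDiagonal'_zero⟩

omit [Fintype σ] [DecidableEq σ] in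
instance instEmptyMd : IsEmpty (Md (0 : σ → ℕ)) := ⟨fun k => k.2.elim0⟩

theorem mbq_zero (β : S → RM σ) : MBq ν (fun _ => 0) β :=
  ⟨fun _ => Matrix.ext fun i => isEmptyElim i, fun _ _ _ => Matrix.ext fun i => isEmptyElim i⟩

variable [Finite S]

open Classical in
variable (wt νs ν) in
/-- The product along a raw block family. -/
def muK (β : S → RM σ) {n : S → ℕ} {N : ℕ} (φ : Dec n N) (x : ∀ s, YX (wM wt (νs s)) (n s)) :
    YX (wM wt ν) N :=
  if h : MBq ν νs β then muY h (fun _ => eqv_bdM _) φ x else YX.zero _ N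

theorem pr_muK {β : S → RM σ} (h : MBq ν νs β) {n : S → ℕ} {N : ℕ} (φ : Dec n N)
    (x : ∀ s, YX (wM wt (νs s)) (n s)) :
    (muK wt ν νs β φ x).pr = muP (h.k φ) φ.iso fun s => (x s).pr := by
  rw [muK, dif_pos h, pr_muY]

theorem cont_muK {n : S → ℕ} {N : ℕ} (φ : Dec n N) : ContinuousOn
    (fun p : (S → RM σ) × (∀ s, YX (wM wt (νs s)) (n s)) => muK wt ν νs p.1 φ p.2)
    {p | IsBlk νs ν p.1} := by
  refine continuousOn_iff_continuous_domRestrict.2 (YX.isEmbedding_pr.continuous_iff.2 ?_)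
  exact (continuous_muP (k := fun p : {p : (S → RM σ) × (∀ s, YX (wM wt (νs s)) (n s)) |
      IsBlk νs ν p.1} => (IsBlk.mb p.2).k φ) φ.iso
    (fun s => continuous_kk _ (fun _ => continuous_const) (continuous_bdM.comp
      ((continuous_apply s).comp continuous_subtype_val.fst)))
    (fun s => YX.isEmbedding_pr.continuous.comp ((continuous_apply s).comp
      continuous_subtype_val.snd)) fun _ _ => YX.isKP _).congr fun p =>
    (pr_muK (IsBlk.mb p.2) _ _).symm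

theorem muK_base (β : S → RM σ) {n : S → ℕ} {N : ℕ} (φ : Dec n N)
    (x : ∀ s, YX (wM wt (νs s)) (n s)) (s : S) (hs : x s = YX.zero _ _) :
    muK wt ν νs β φ x = YX.zero _ N := by
  by_cases h : MBq ν νs β
  · exact YX.ext_pr (by
      rw [pr_muK h, YX.pr_zero]; exact muP_eq_zero _ _ (s := s) (by rw [hs, YX.pr_zero]))
  · exact dif_neg h

theorem muK_lin {β : S → RM σ} (h : MBq ν νs β) {n n' : S → ℕ} {N N' : ℕ} (φ : Dec n N)
    (φ' : Dec n' N') (t : ∀ s, Thom (n s) (n' s)) (w : ∀ s, E (n' s)) (T : Thom N N')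
    (x : ∀ s, YX (wM wt (νs s)) (n s)) (h1 : ∀ s, (t s).pt = w s)
    (h2 : ∀ s v, T.map (φ.map s v) = φ'.map s ((t s).map v))
    (h3 : T.pt = (∑ᶠ s, φ'.map s (w s) : E N')) :
    muK wt ν νs β φ' (fun s => YX.act (t s) (x s)) = YX.act T (muK wt ν νs β φ x) := by
  refine YX.ext_pr ?_
  have := Fintype.ofFinite S
  have e : UU.inl (Md ν) (∑ᶠ s, φ'.map s (w s)) = ∑ᶠ s, h.k φ' s (UU.inl _ (w s)) := by
    simp only [finsum_eq_sum_of_fintype, map_sum, MB.k, kk_inl]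
    rfl
  simp only [pr_muK h, YX.pr_act, h1, h3, actO_coe, e]
  refine muP_act φ.isDec (h.ort φ') φ'.isDec (fun s u => ?_) h2 _ fun s => (x s).isKP
  refine UU.ext' (h2 s u.fst) ?_
  change mv _ (mv _ _) = mv _ (mv _ _)
  rw [mv_one, mv_one]

theorem muK_one {β : Unit → RM σ} (h : ∀ a, mat (β () a) (ν a) (ν a) = 1) {N : ℕ}
    (φ : Dec (fun _ : Unit => N) N) (x : YX (wM wt ν) N) (h1 : ∀ v, φ.map () v = v) :
    muK wt ν (fun _ => ν) β φ (fun _ => x) = x := by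
  have h2 := bdM_one h
  have h3 : MBq ν (fun _ => ν) β := ⟨fun _ => by simp [h2], fun _ _ e => absurd rfl e⟩
  refine YX.ext_pr ?_
  rw [pr_muK h3, muP, oprod_unit]
  exact dmap_lam_of_id (kk_of_id _ _ _ h1 h2) h1 _

theorem muK_assoc {T : S → Type} [∀ s, Finite (T s)] {νt : (Σ s, T s) → σ → ℕ} {β : S → RM σ}
    {γ : ∀ s, T s → RM σ} {η : (Σ s, T s) → RM σ} (h : MBq ν νs β)
    (h' : ∀ s, MBq (νs s) (fun t => νt ⟨s, t⟩) (γ s))
    (e : ∀ s t a, mat (η ⟨s, t⟩ a) (ν a) (νt ⟨s, t⟩ a) =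
      mat (β s a) (ν a) (νs s a) * mat (γ s t a) (νs s a) (νt ⟨s, t⟩ a))
    {n : (Σ s, T s) → ℕ} {k : S → ℕ} {N : ℕ} (φ : Dec k N)
    (ψ : ∀ s, Dec (fun t => n ⟨s, t⟩) (k s)) (χ : Dec n N) (x : ∀ p, YX (wM wt (νt p)) (n p))
    (h1 : ∀ s t v, χ.map ⟨s, t⟩ v = φ.map s ((ψ s).map t v)) :
    muK wt ν νt η χ x = muK wt ν νs β φ fun s =>
      muK wt (νs s) (fun t => νt ⟨s, t⟩) (γ s) (ψ s) fun t => x ⟨s, t⟩ := by
  have h2 := fun s t => bdM_mul (e s t)
  have h3 : MBq ν νt η := by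
    refine ⟨fun ⟨s, t⟩ => ?_, fun ⟨s, t⟩ ⟨s', t'⟩ ne => ?_⟩
    · rw [h2, Matrix.conjTranspose_mul, Matrix.mul_assoc, ← Matrix.mul_assoc (bdM (β s) _ _)ᴴ,
        h.iso, Matrix.one_mul, (h' s).iso]
    · rw [h2, h2, Matrix.conjTranspose_mul, Matrix.mul_assoc, ← Matrix.mul_assoc (bdM (β s) _ _)ᴴ]
      obtain rfl | hs := eq_or_ne s s'
      · rw [h.iso, Matrix.one_mul, (h' s).orth t t' fun c => ne (c ▸ rfl)]
      · rw [h.orth s s' hs, Matrix.zero_mul, Matrix.mul_zero]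
  refine YX.ext_pr ?_
  simp only [pr_muK h3, pr_muK h, fun s => pr_muK (wt := wt) (h' s) (ψ s)]
  exact muP_sigma (h3.ort χ) χ.ort
    (fun s t u => (kk_kk _ _ _ _ _ _ _ _ _ (h1 s t) (h2 s t) u).symm) h1 fun p => (x p).isKP

theorem muK_rel {T : Type} [Finite T] (e : S ≃ T) {νs : T → σ → ℕ} {β : T → RM σ}
    (h : MBq ν νs β) {n : T → ℕ} {N : ℕ} (φ : Dec (fun s => n (e s)) N) (φ' : Dec n N)
    (x : ∀ t, YX (wM wt (νs t)) (n t)) (h1 : ∀ s v, φ.map s v = φ'.map (e s) v) :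
    muK wt ν νs β φ' x = muK wt ν (fun s => νs (e s)) (fun s => β (e s)) φ fun s => x (e s) := by
  have h2 : MBq ν (fun s => νs (e s)) fun s => β (e s) :=
    ⟨fun s => h.iso _, fun s t ne => h.orth _ _ (e.injective.ne ne)⟩
  refine YX.ext_pr ?_
  rw [pr_muK h, pr_muK h2, muP_equiv e (h.ort φ') φ'.ort fun t => (x t).isKP]
  refine muP_congr (fun s u => ?_) (fun s v => (h1 s v).symm) _
  exact UU.ext' (h1 s u.fst).symm rfl

theorem bdM_finsum {β p : S → RM σ} {f : RM σ} (e : ∀ a, mat (f a) (ν a) (ν a) =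
    ∑ᶠ s, mat (β s a) (ν a) (νs s a) * mat (p s a) (νs s a) (νs s a) *
      (mat (β s a) (ν a) (νs s a))ᴴ) : bdM f ν ν =
    ∑ᶠ s, bdM (β s) ν (νs s) * bdM (p s) (νs s) (νs s) * (bdM (β s) ν (νs s))ᴴ := by
  have := Fintype.ofFinite S
  simp only [bdM_conj, finsum_eq_sum_of_fintype] at e ⊢
  rw [bdM, funext e]
  exact (congrArg _ (funext fun a => (Finset.sum_apply a _ _).symm)).trans (map_sum
    (Matrix.blockDiagonal'AddMonoidHom (fun a => Fin (ν a)) (fun a => Fin (ν a)) ℂ) (fun s a =>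
      mat (β s a) (ν a) (νs s a) * mat (p s a) (νs s a) (νs s a) * (mat (β s a) (ν a) (νs s a))ᴴ)
    Finset.univ)

theorem pushK_muK {β β' : S → RM σ} {qs : S → Raw σ} {q : Raw σ} (h : MBq ν νs β)
    (h' : MBq ν' νs' β') (hs : ∀ s, MVq (νs s) (νs' s) (qs s)) (hq : MVq ν ν' q)
    (hc : Compat wt νs νs' ν ν' β β' qs q) {n : S → ℕ} {N : ℕ} (φ : Dec n N)
    (x : ∀ s, YX (wM wt (νs s)) (n s)) :
    pushK wt ν ν' q N (muK wt ν νs β φ x) =
      muK wt ν' νs' β' φ fun s => pushK wt (νs s) (νs' s) (qs s) (n s) (x s) := by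
  refine YX.ext_pr ?_
  obtain ⟨t, ht⟩ := hc.φ
  have e : ∀ s, bdM q.1 ν' ν * bdM (β s) ν (νs s) = bdM (β' s) ν' (νs' s) *
      (bdM (qs s).1 (νs' s) (νs s) * torM (wM wt (νs s)) (t s)) := fun s => by
    simp only [torM_bd, bdM, ← Matrix.blockDiagonal'_mul, ht, Matrix.mul_smul, Matrix.mul_one]
  have z : ∀ s r, s ≠ r → ∀ (P : Matrix (Md (νs' s)) (Md (νs' s)) ℂ)
      (Q : Matrix (Md (νs' r)) (Md (νs' r)) ℂ), bdM (β' s) ν' (νs' s) * P *
        (bdM (β' s) ν' (νs' s))ᴴ * (bdM (β' r) ν' (νs' r) * Q * (bdM (β' r) ν' (νs' r))ᴴ) = 0 :=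
    fun s r ne P Q => by
      simp only [Matrix.mul_assoc]
      rw [← Matrix.mul_assoc _ᴴ, h'.orth s r ne]
      simp
  simp only [pr_pushK hq, pr_muK h, pr_muK h', fun s => pr_pushK (wt := wt) (hs s) (x s)]
  rw [muP_pushP (h'.ort φ) _ _ (fun s => hat_pp _ _) fun s => (x s).isKP, pushP,
    (congrArg₂ (pp (E N)) (bdM_finsum hc.p1) (bdM_finsum hc.p2)).trans
      (pp_finsum (fun s => kx_proj_conj (h'.iso s) (hs s).hp)
      (fun s => kx_proj_conj (h'.iso s) (hs s).hq) fun s r ne =>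
      ⟨z s r ne _ _, z s r ne _ _, z s r ne _ _⟩),
    dmap_lam_muP (k' := fun s => (kk LinearIsometry.id _ hq.iso).comp (h.k φ s)) (j' := φ.iso)
      (fun _ _ => rfl) fun _ _ => rfl]
  refine congrArg₂ (· * ·) (congrArg oprod (funext fun s => (x s).inv.lam_eq (t := t s)
    (fun u => UU.ext' rfl ?_) _)) (congrArg (fun d => dmk (lm _ (oprod d)) 0)
    (funext fun s => (clMap_kk_pp _ _ _ (hs s).hp (hs s).hq).symm))
  change mv _ (mv _ _) = mv _ (mv _ (mv _ _))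
  rw [mv_mv, mv_mv, mv_mv, e, Matrix.mul_assoc]

variable (wt) in
/-- The unit map as a function. -/
def iotaK (hKU : IsO KUpre) {n : ℕ} (x : KUX n) : YX (wM wt 0) n := (iotaY (wM wt 0) hKU).f n x

theorem pr_iotaK (hKU : IsO KUpre) {n : ℕ} (x : KUX n) :
    (iotaK wt hKU x).pr = dmap (lam (UU.inl _) LinearIsometry.id) x.pr := pr_iotaY hKU x

theorem pr_iotaK_one (hKU : IsO KUpre) : (iotaK wt hKU kuOne).pr = 1 := by
  rw [pr_iotaK, pr_kuOne]
  exact map_one (dmap _)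

theorem iota_one [IsEmpty S] (hKU : IsO KUpre) (β : S → RM σ) {n : S → ℕ} (d : Dec n 0)
    (x : ∀ s, YX (wM wt (νs s)) (n s)) : iotaK wt hKU kuOne = muK wt 0 νs β d x := by
  have h : MBq 0 νs β := ⟨fun s => isEmptyElim s, fun s => isEmptyElim s⟩
  refine YX.ext_pr ?_
  rw [pr_iotaK_one, pr_muK h, muP, oprod_empty]

theorem iota_mul (hKU : IsO KUpre) (β : Bool → RM σ) {n : Bool → ℕ} {N : ℕ} (d : Dec n N)
    (x : ∀ b, KUX (n b)) : iotaK wt hKU (kuMul d (x true) (x false)) =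
      muK wt 0 (fun _ => 0) β d fun b => iotaK wt hKU (x b) := by
  refine YX.ext_pr ?_
  simp only [pr_muK (mbq_zero β), pr_iotaK, pr_kuMul]
  rw [dmap_lam_muP (k' := fun b => (UU.inl _).comp (d.iso b)) (j' := d.iso) (fun _ _ => rfl)
    fun _ _ => rfl]
  refine congrArg oprod (funext fun b => (dmap_lam_lam (fun u => ?_) (fun _ => rfl) _).symm)
  exact (kk_inl _ _ _ u).symm

theorem muK_unit (hKU : IsO KUpre) {β : Bool → RM σ} (h : ∀ a, mat (β false a) (ν a) (ν a) = 1)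
    {N : ℕ} (d : Dec (fun b : Bool => cond b 0 N) N)
    (x : ∀ b : Bool, YX (wM wt (cond b 0 ν)) (cond b 0 N)) (h1 : ∀ v, d.map false v = v)
    (h2 : x true = iotaK wt hKU kuOne) :
    muK wt ν (fun b => cond b 0 ν) β d x = x false := by
  have h3 := bdM_one h
  have h4 : MBq ν (fun b => cond b 0 ν) β := by
    refine ⟨fun b => ?_, fun b c ne => ?_⟩
    · cases b
      · exact (congrArg₂ (fun A B => Aᴴ * B) h3 h3).trans (by simp)
      · exact Matrix.ext fun i => (instEmptyMd.false i).elim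
    · cases b <;> cases c
      · exact absurd rfl ne
      · exact Matrix.ext fun _ i => (instEmptyMd.false i).elim
      · exact Matrix.ext fun i => (instEmptyMd.false i).elim
      · exact absurd rfl ne
  have h5 : (x true).pr = 1 := (congrArg YX.pr h2).trans (pr_iotaK_one hKU)
  refine YX.ext_pr ?_
  rw [pr_muK h4, muP, oprod_bool (by rw [h5, map_one]; exact Commute.one_left _), h5, map_one,
    one_mul]
  exact dmap_lam_of_id (kk_of_id _ _ _ h1 h3) h1 _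

end Pool.Agent.Lib.E2
end
end

-- part Pool.Agent.Lib.MP_10be03_gt.K
section

/-!
Layer K: assembly.
-/

noncomputable section

namespace Pool.Agent.Lib.E2

theorem k_holds : KStmt := fun {ι σ} _ _ wt hKU => by
  classical
  obtain ⟨χ, h1, h2, h3, h4⟩ := chi_Y wt hKU (pushK wt) fun ν ν' q h => ⟨h.mv.iso,
    fun _ => pr_pushK h.mv⟩
  exact ⟨{
    Y := fun ν => Ysp (wM wt ν)
    t2 := fun _ _ => YX.isEmbedding_pr.t2Space
    fc := fun _ _ => YX.isEmbedding_pr.firstCountableTopology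
    push := pushK wt
    cont_push := fun _ _ => cont_pushK
    push_pt := fun _ _ => pushK_zero
    push_act := fun _ _ _ h => pushK_act h.mv
    push_id := fun _ _ => pushK_id
    push_comp := fun _ _ _ _ _ _ h h' => pushK_comp h.mv h'.mv
    mu := fun νs ν => muK wt ν νs
    cont_mu := fun _ _ => cont_muK
    mu_base := fun _ _ => muK_base
    mu_lin := fun _ _ _ h => muK_lin h.mb
    mu_one := fun _ _ => muK_one
    mu_assoc := fun _ _ _ _ _ _ h h' => muK_assoc h.mb fun s => (h' s).mb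
    mu_rel := fun e _ _ _ h => muK_rel e h.mb
    push_mu := fun _ _ _ _ _ _ _ _ h h' hs hq => pushK_muK h.mb h'.mb (fun s => (hs s).mv) hq.mv
    iota := iotaY (wM wt 0) hKU
    iota_one := fun β d x => iota_one hKU β d x
    iota_mul := iota_mul hKU
    mu_unit := fun _ _ => muK_unit hKU
    χ := χ
    χ_inj := h1
    χ_range := h2
    χ_iota := h3
    χ_push := h4 }⟩

end Pool.Agent.Lib.E2
end
end
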