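import Pool.Agent.Lib.MP_10be03_gt.KFock

/-!
The unital star homomorphism `lam k j : T ↦ T ⊗ 1` along isometries, and the vacuum projection.
-/

noncomputable section
open scoped InnerProductSpace

namespace Pool.Agent.Lib.E2

variable {U V U' V' U'' V'' : Type}
  [NormedAddCommGroup U] [InnerProductSpace ℝ U]
  [NormedAddCommGroup V] [InnerProductSpace ℝ V]
  [NormedAddCommGroup U'] [InnerProductSpace ℝ U']
  [NormedAddCommGroup V'] [InnerProductSpace ℝ V']
  [NormedAddCommGroup U''] [InnerProductSpace ℝ U'']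
  [NormedAddCommGroup V''] [InnerProductSpace ℝ V'']

/-- `w` is orthogonal to the image of `j`. -/
def Perp (j : V →ₗᵢ[ℝ] V') (w : V') : Prop := ∀ a, inner ℝ (j a) w = 0

theorem Perp.zero (j : V →ₗᵢ[ℝ] V') : Perp j 0 := fun _ => inner_zero_right _

theorem Perp.add {j : V →ₗᵢ[ℝ] V'} {w w' : V'} (h : Perp j w) (h' : Perp j w') :
    Perp j (w + w') := fun a => by rw [inner_add_right, h, h', add_zero]

theorem Perp.symm {j : V →ₗᵢ[ℝ] V'} {w : V'} (h : Perp j w) (a : V) : inner ℝ w (j a) = 0 := by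
  rw [real_inner_comm, h]

theorem Perp.comp {j : V →ₗᵢ[ℝ] V'} {j' : V' →ₗᵢ[ℝ] V''} {w : V'} {w' : V''} (h : Perp j w)
    (h' : Perp j' w') : Perp (j'.comp j) (j' w + w') := fun a => by
  rw [inner_add_right, LinearIsometry.coe_comp, Function.comp_apply, j'.inner_map_map, h, h',
    add_zero]

/-- The orthogonal projection onto the image of `j`. -/
def prj [FiniteDimensional ℝ V] (j : V →ₗᵢ[ℝ] V') : V' →L[ℝ] V' :=
  (LinearMap.range j.toLinearMap).starProjection

theorem prj_dec [FiniteDimensional ℝ V] (j : V →ₗᵢ[ℝ] V') (u : V) {w : V'} (h : Perp j w) :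
    prj j (j u + w) = j u := by
  refine Submodule.eq_starProjection_of_mem_of_inner_eq_zero ⟨u, rfl⟩ ?_
  rintro _ ⟨a, rfl⟩
  rw [add_sub_cancel_left]
  exact h.symm a

theorem norm_prj_le [FiniteDimensional ℝ V] (j : V →ₗᵢ[ℝ] V') (v : V') : ‖prj j v‖ ≤ ‖v‖ :=
  Submodule.norm_starProjection_apply_le _ v

theorem exists_dec [FiniteDimensional ℝ V] (j : V →ₗᵢ[ℝ] V') (v : V') :
    ∃ u w, Perp j w ∧ v = j u + w := by
  obtain ⟨u, hu⟩ := (LinearMap.range j.toLinearMap).starProjection_apply_mem v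
  refine ⟨u, v - j u, fun a => ?_, by abel⟩
  have h := (LinearMap.range j.toLinearMap).starProjection_inner_eq_zero v (j a) ⟨a, rfl⟩
  rw [← hu, real_inner_comm] at h
  exact h

theorem ex_dec (j : V →ₗᵢ[ℝ] V') (u u' : V) {w w' : V'} (h : Perp j w) (h' : Perp j w') :
    ex (j u + w) (j u' + w') = ex u u' * ex w w' := by
  rw [ex_add_left, ex_add_right, ex_add_right, ex_isom, ex_of_inner (h' u),
    ex_of_inner (h.symm u'), mul_one, one_mul]

/-- The grading automorphism of the Clifford algebra. -/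
def hat (c : Cl U) : Cl U := clMap (LinearIsometryEquiv.neg ℝ).toLinearIsometry c

theorem hat_cl (v : U) : hat (cl v) = -cl v := (clMap_cl _ v).trans (cl_neg v)

theorem hat_mul (c d : Cl U) : hat (c * d) = hat c * hat d := map_mul (clMap _) c d

theorem hat_add (c d : Cl U) : hat (c + d) = hat c + hat d := map_add (clMap _) c d

theorem hat_smul (r : ℂ) (c : Cl U) : hat (r • c) = r • hat c := map_smul (clMap _) r c

theorem hat_one : hat (1 : Cl U) = 1 := map_one (clMap _)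

theorem hat_hat (c : Cl U) : hat (hat c) = c :=
  (clMap_clMap _ _ c).trans (clMap_of_id (fun v => by simp) c)

theorem clMap_hat (k : U →ₗᵢ[ℝ] U') (c : Cl U) : clMap k (hat c) = hat (clMap k c) := by
  rw [hat, hat, clMap_clMap, clMap_clMap]
  exact DFunLike.congr_fun (clMap_congr fun v => by simp) c

theorem cl_mul_clMap {k : U →ₗᵢ[ℝ] U'} {w : U'} (h : Perp k w) (c : Cl U) :
    cl w * clMap k c = clMap k (hat c) * cl w := by
  induction c using cl_induction with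
  | h1 => simp [hat_one]
  | hcl v x hx =>
    rw [hat_mul, hat_cl, map_mul, map_mul, map_neg, clMap_cl, ← mul_assoc,
      cl_anticomm (h.symm v), neg_mul, mul_assoc, hx, neg_mul, neg_mul, mul_assoc]
  | hadd x y hx hy => rw [hat_add, map_add, map_add, mul_add, add_mul, hx, hy]
  | hsmul r x hx => rw [hat_smul, map_smul, map_smul, mul_smul_comm, smul_mul_assoc, hx]

/-- An element that commutes with the images of the generators commutes with the image. -/
theorem commute_clMap {k : U →ₗᵢ[ℝ] U'} {d : Cl U'} (h : ∀ v, Commute (cl (k v)) d) (c : Cl U) :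
    Commute (clMap k c) d := by
  induction c using cl_induction with
  | h1 => simp
  | hcl v x hx => rw [map_mul, clMap_cl]; exact (h v).mul_left hx
  | hadd x y hx hy => rw [map_add]; exact hx.add_left hy
  | hsmul r x hx => rw [map_smul]; exact hx.smul_left r

/-- Images along isometries with orthogonal images commute if one of the elements is even. -/
theorem commute_clMap_of_even {k : U →ₗᵢ[ℝ] U''} {k' : U' →ₗᵢ[ℝ] U''} (h : ∀ v, Perp k' (k v))
    (c : Cl U) {c' : Cl U'} (hc : hat c' = c') : Commute (clMap k c) (clMap k' c') :=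
  commute_clMap (fun v => by rw [Commute, SemiconjBy, cl_mul_clMap (h v), hc]) c

theorem clMap_mul_of_odd {k : U →ₗᵢ[ℝ] U''} {k' : U' →ₗᵢ[ℝ] U''} (h : ∀ v, Perp k' (k v))
    (c : Cl U) {c' : Cl U'} (hc : hat c' = -c') :
    clMap k c * clMap k' c' = clMap k' c' * clMap k (hat c) := by
  induction c using cl_induction with
  | h1 => simp [hat_one]
  | hcl v x hx =>
    rw [hat_mul, hat_cl, map_mul, map_mul, map_neg, clMap_cl, mul_assoc, hx, ← mul_assoc,
      cl_mul_clMap (h v), hc, map_neg]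
    simp only [neg_mul, mul_neg, mul_assoc]
  | hadd x y hx hy => rw [hat_add, map_add, map_add, mul_add, add_mul, hx, hy]
  | hsmul r x hx => rw [hat_smul, map_smul, map_smul, mul_smul_comm, smul_mul_assoc, hx]

/-- `d` is fixed by all reflections in vectors of the image of `k`. -/
def PerpC (k : U →ₗᵢ[ℝ] U') (d : Cl U') : Prop :=
  ∀ a, clMap (refl (k a)).toLinearIsometry d = d

theorem PerpC.one (k : U →ₗᵢ[ℝ] U') : PerpC k 1 := fun _ => map_one _

theorem PerpC.mul {k : U →ₗᵢ[ℝ] U'} {d d' : Cl U'} (h : PerpC k d) (h' : PerpC k d') :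
    PerpC k (d * d') := fun a => by rw [map_mul, h, h']

theorem PerpC.star {k : U →ₗᵢ[ℝ] U'} {d : Cl U'} (h : PerpC k d) : PerpC k (star d) :=
  fun a => by rw [clMap_star, h]

theorem PerpC.cl {k : U →ₗᵢ[ℝ] U'} {w : U'} (h : Perp k w) : PerpC k (cl w) :=
  fun a => (clMap_cl _ w).trans (congrArg E2.cl (refl_of_inner (h a)))

theorem refl_map (k : U →ₗᵢ[ℝ] U') (a v : U) : refl (k a) (k v) = k (refl a v) := by
  simp only [refl, Submodule.reflection_orthogonal_apply, Submodule.reflection_singleton_apply,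
    map_neg, map_sub, map_smul, map_nsmul, k.inner_map_map, k.norm_map]

theorem PerpC.map {k : U →ₗᵢ[ℝ] U'} {d : Cl U'} (h : PerpC k d) (k' : U' →ₗᵢ[ℝ] U'') :
    PerpC (k'.comp k) (clMap k' d) := fun a => by
  conv_rhs => rw [← h a]
  rw [clMap_clMap, clMap_clMap]
  exact DFunLike.congr_fun (clMap_congr fun v => refl_map k' (k a) v) d

theorem PerpC.comp {k' : U' →ₗᵢ[ℝ] U''} {d : Cl U''} (h : PerpC k' d) (k : U →ₗᵢ[ℝ] U') :
    PerpC (k'.comp k) d := fun a => h (k a)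

variable [FiniteDimensional ℝ U]

theorem cl_dec_induction (k : U →ₗᵢ[ℝ] U') {P : Cl U' → Prop}
    (h0 : ∀ c d, PerpC k d → P (clMap k c * d)) (hadd : ∀ x y, P x → P y → P (x + y))
    (hsmul : ∀ (r : ℂ) x, P x → P (r • x)) (e : Cl U') : P e := by
  have key : e ∈ Submodule.span ℂ {x | ∃ c d, PerpC k d ∧ x = clMap k c * d} := by
    induction e using cl_induction with
    | h1 => exact Submodule.subset_span ⟨1, 1, PerpC.one k, by simp⟩
    | hcl v x hx =>
      obtain ⟨u, w, hw, rfl⟩ := exists_dec k v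
      induction hx using Submodule.span_induction with
      | mem x hx =>
        obtain ⟨c, d, hd, rfl⟩ := hx
        rw [cl_add, add_mul]
        refine add_mem (Submodule.subset_span ⟨cl u * c, d, hd, ?_⟩)
          (Submodule.subset_span ⟨hat c, cl w * d, (PerpC.cl hw).mul hd, ?_⟩)
        · rw [map_mul, clMap_cl, mul_assoc]
        · rw [← mul_assoc, cl_mul_clMap hw, mul_assoc]
      | zero => simp
      | add x y _ _ hx hy => rw [mul_add]; exact add_mem hx hy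
      | smul r x _ hx => rw [mul_smul_comm]; exact Submodule.smul_mem _ r hx
    | hadd x y hx hy => exact add_mem hx hy
    | hsmul r x hx => exact Submodule.smul_mem _ r hx
  induction key using Submodule.span_induction with
  | mem x hx => obtain ⟨c, d, hd, rfl⟩ := hx; exact h0 c d hd
  | zero => simpa using hsmul 0 _ (h0 1 1 (PerpC.one k))
  | add x y _ _ hx hy => exact hadd _ _ hx hy
  | smul r x _ hx => exact hsmul r _ hx

theorem tr_clMap_mul {k : U →ₗᵢ[ℝ] U'} {d : Cl U'} (hd : PerpC k d) (c : Cl U) :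
    tr (clMap k c * d) = tr c * tr d := by
  obtain ⟨L, f, hL, hf, rfl⟩ := exists_comb c
  simp only [Finsupp.sum, map_sum, Finset.sum_mul, tr_sum, map_smul, smul_mul_assoc, tr_smul]
  refine Finset.sum_congr rfl fun l hl => ?_
  rw [mul_assoc]
  congr 1
  rcases l with _ | ⟨a, l⟩
  · simp [tr_one]
  · have h1 := clMap_refl_mon_of_mem (hL.sublist (hf _ hl)).2 (List.mem_cons_self (a := a))
    rw [tr_eq_zero_of_odd (refl a) h1, zero_mul]
    refine tr_eq_zero_of_odd (refl (k a)) ?_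
    rw [map_mul, hd, clMap_clMap, ← neg_mul, ← map_neg, ← h1, clMap_clMap]
    exact congrArg (· * d) (DFunLike.congr_fun (clMap_congr fun v => refl_map k a v) _)

variable [FiniteDimensional ℝ U'] [FiniteDimensional ℝ U'']

theorem tr_clMap (k : U →ₗᵢ[ℝ] U') (c : Cl U) : tr (clMap k c) = tr c := by
  simpa [tr_one] using tr_clMap_mul (PerpC.one k) c

theorem inner_clMap_mul {k : U →ₗᵢ[ℝ] U'} {d d' : Cl U'} (hd : PerpC k d) (hd' : PerpC k d')
    (c c' : Cl U) : ⟪clMap k c * d, clMap k c' * d'⟫_ℂ = ⟪c, c'⟫_ℂ * ⟪d, d'⟫_ℂ := by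
  rw [inner_cl, inner_cl, inner_cl, star_mul, ← clMap_star, mul_assoc, tr_mul_comm,
    ← mul_assoc (clMap k (star c)), ← map_mul, mul_assoc, tr_clMap_mul (hd'.mul hd.star),
    tr_mul_comm d']

theorem exists_emb (A : Cl U →ₗ[ℂ] Cl U') (j : V →ₗᵢ[ℝ] V') {w : V'} (hw : Perp j w) :
    ∃ T : Fock (Cl U) V →L[ℂ] Fock (Cl U') V',
      ∀ p : V × Cl U, T (kv p.1 p.2) = kv (j p.1 + w) (A p.2) := by
  let C := ‖LinearMap.toContinuousLinearMap A‖
  have h2 := ((isPD_ex.comap fun p : V × Cl U => p.1).mul ((IsPD.of_clm A (C := C)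
    (LinearMap.toContinuousLinearMap A).le_opNorm).comap fun p : V × Cl U => p.2)).smul
    (Real.exp_pos (inner ℝ w w)).le
  obtain ⟨T, hT, -⟩ := exists_op (q := fun p : V × Cl U => kv (j p.1 + w) (A p.2)) dense_kv
    (C := Real.sqrt (Real.exp (inner ℝ w w)) * C) (by positivity) (h2.congr fun p q => by
      rw [inner_kv, inner_kv, ex_dec j _ _ hw hw, mul_pow, Real.sq_sqrt (Real.exp_pos _).le]
      simp only [ex, Complex.ofReal_mul]
      ring)
  exact ⟨T, hT⟩

open Classical in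
/-- The operator `kv v c ↦ kv (j v + w) (k c * d)`. -/
def emb (k : U →ₗᵢ[ℝ] U') (j : V →ₗᵢ[ℝ] V') (d : Cl U') (w : V') :
    Fock (Cl U) V →L[ℂ] Fock (Cl U') V' :=
  if hw : Perp j w then
    (exists_emb ((LinearMap.mulRight ℂ d).comp (clMap k).toLinearMap) j hw).choose
  else 0

theorem emb_kv (k : U →ₗᵢ[ℝ] U') (j : V →ₗᵢ[ℝ] V') (d : Cl U') {w : V'} (hw : Perp j w) (v : V)
    (c : Cl U) : emb k j d w (kv v c) = kv (j v + w) (clMap k c * d) := by
  rw [emb, dif_pos hw]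
  exact (exists_emb _ j hw).choose_spec (v, c)

theorem inner_emb {k : U →ₗᵢ[ℝ] U'} {j : V →ₗᵢ[ℝ] V'} {d d' : Cl U'} {w w' : V'} (hd : PerpC k d)
    (hd' : PerpC k d') (hw : Perp j w) (hw' : Perp j w') (x y : Fock (Cl U) V) :
    ⟪emb k j d w x, emb k j d' w' y⟫_ℂ = ⟪x, y⟫_ℂ * (⟪d, d'⟫_ℂ * ex w w') := by
  have h : ContinuousLinearMap.adjoint (emb k j d w) ∘L emb k j d' w' =
      (⟪d, d'⟫_ℂ * ex w w') • ContinuousLinearMap.id ℂ _ :=
    op_ext dense_kv fun p => vec_ext dense_kv fun q => by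
      rw [ContinuousLinearMap.comp_apply, ContinuousLinearMap.adjoint_inner_right,
        emb_kv _ _ _ hw, emb_kv _ _ _ hw', inner_kv, ex_dec j _ _ hw hw', inner_clMap_mul hd hd',
        smul_apply, ContinuousLinearMap.id_apply, inner_smul_right, inner_kv]
      ring
  rw [← ContinuousLinearMap.adjoint_inner_right, ← ContinuousLinearMap.comp_apply, h, smul_apply,
    ContinuousLinearMap.id_apply, inner_smul_right, mul_comm]

variable [FiniteDimensional ℝ V]

theorem Op.ext_dec (j : V →ₗᵢ[ℝ] V') {S T : Op U V'}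
    (h : ∀ u w, Perp j w → ∀ c, S.ap (kv (j u + w) c) = T.ap (kv (j u + w) c)) : S = T :=
  Op.ext_kv fun v c => by
    obtain ⟨u, w, hw, rfl⟩ := exists_dec j v
    exact h u w hw c

/-- The index set of the total family of vectors `emb k j d w x`. -/
abbrev EmbIx (k : U →ₗᵢ[ℝ] U') (j : V →ₗᵢ[ℝ] V') : Type :=
  Fock (Cl U) V × {d // PerpC k d} × {w // Perp j w}

theorem dense_emb (k : U →ₗᵢ[ℝ] U') (j : V →ₗᵢ[ℝ] V') :
    Dense (Submodule.span ℂ (Set.range fun p : EmbIx k j => emb k j p.2.1 p.2.2 p.1) :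
      Set (Fock (Cl U') V')) := by
  refine dense_kv.mono (Submodule.span_le.2 ?_)
  rintro _ ⟨⟨v, e⟩, rfl⟩
  obtain ⟨u, w, hw, rfl⟩ := exists_dec j v
  induction e using cl_dec_induction k with
  | h0 c d hd => exact Submodule.subset_span ⟨(kv u c, ⟨d, hd⟩, ⟨w, hw⟩), emb_kv k j d hw u c⟩
  | hadd x y hx hy => simp only [kv_add]; exact add_mem hx hy
  | hsmul r x hx => simp only [kv_smul]; exact Submodule.smul_mem _ r hx

theorem Op.ext_emb (k : U →ₗᵢ[ℝ] U') (j : V →ₗᵢ[ℝ] V') {S T : Op U' V'}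
    (h : ∀ d w, PerpC k d → Perp j w → ∀ x, S.ap (emb k j d w x) = T.ap (emb k j d w x)) :
    S = T :=
  op_ext (T := S.ap) (T' := T.ap) (dense_emb k j) fun p => h _ _ p.2.1.2 p.2.2.2 p.1

theorem exists_lam (k : U →ₗᵢ[ℝ] U') (j : V →ₗᵢ[ℝ] V') (S : Op U V) :
    ∃ T : Fock (Cl U') V' →L[ℂ] Fock (Cl U') V',
      (∀ p : EmbIx k j, T (emb k j p.2.1 p.2.2 p.1) = emb k j p.2.1 p.2.2 (S.ap p.1)) ∧
        ‖T‖ ≤ ‖S‖ := by
  refine exists_op (dense_emb k j) (norm_nonneg _) ?_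
  have h := ((IsPD.of_clm S.ap.toLinearMap S.ap.le_opNorm).comap fun p : EmbIx k j => p.1).mul
    ((IsPD.of_inner fun p : EmbIx k j => (p.2.1 : Cl U')).mul
      (isPD_ex.comap fun p : EmbIx k j => (p.2.2 : V')))
  refine h.congr fun p q => ?_
  rw [inner_emb p.2.1.2 q.2.1.2 p.2.2.2 q.2.2.2, inner_emb p.2.1.2 q.2.1.2 p.2.2.2 q.2.2.2,
    Op.norm_ap, ContinuousLinearMap.coe_coe]
  ring

/-- The operator `S ⊗ 1`. -/
def lamF (k : U →ₗᵢ[ℝ] U') (j : V →ₗᵢ[ℝ] V') (S : Op U V) : Op U' V' :=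
  Op.of (exists_lam k j S).choose

theorem lamF_emb {k : U →ₗᵢ[ℝ] U'} {j : V →ₗᵢ[ℝ] V'} (S : Op U V) {d : Cl U'} {w : V'}
    (hd : PerpC k d) (hw : Perp j w) (x : Fock (Cl U) V) :
    (lamF k j S).ap (emb k j d w x) = emb k j d w (S.ap x) :=
  (exists_lam k j S).choose_spec.1 (x, ⟨d, hd⟩, ⟨w, hw⟩)

theorem lamF_smul (k : U →ₗᵢ[ℝ] U') (j : V →ₗᵢ[ℝ] V') (r : ℂ) (S : Op U V) :
    lamF k j (r • S) = r • lamF k j S :=
  Op.ext_emb k j fun d w hd hw x => by
    rw [Op.smul_ap, lamF_emb _ hd hw, lamF_emb _ hd hw, Op.smul_ap, map_smul]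

theorem lamF_one (k : U →ₗᵢ[ℝ] U') (j : V →ₗᵢ[ℝ] V') : lamF k j 1 = 1 :=
  Op.ext_emb k j fun d w hd hw x => by rw [lamF_emb _ hd hw, Op.one_ap, Op.one_ap]

/-- The unital star homomorphism `S ↦ S ⊗ 1` along the isometries `k` and `j`. -/
def lam (k : U →ₗᵢ[ℝ] U') (j : V →ₗᵢ[ℝ] V') : Op U V →⋆ₐ[ℂ] Op U' V' where
  toFun := lamF k j
  map_one' := lamF_one k j
  map_mul' S T := Op.ext_emb k j fun d w hd hw x => by
    rw [Op.mul_ap, lamF_emb _ hd hw, lamF_emb _ hd hw, lamF_emb _ hd hw, Op.mul_ap]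
  map_zero' := by simpa using lamF_smul k j 0 0
  map_add' S T := Op.ext_emb k j fun d w hd hw x => by
    rw [Op.add_ap, lamF_emb _ hd hw, lamF_emb _ hd hw, lamF_emb _ hd hw, Op.add_ap, map_add]
  commutes' r := by
    rw [Algebra.algebraMap_eq_smul_one, Algebra.algebraMap_eq_smul_one, lamF_smul, lamF_one]
  map_star' S := Op.ext_emb k j fun d w hd hw x => vec_ext (dense_emb k j) fun p => by
    rw [lamF_emb _ hd hw, Op.inner_star_right, lamF_emb _ p.2.1.2 p.2.2.2,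
      inner_emb p.2.1.2 hd p.2.2.2 hw, inner_emb p.2.1.2 hd p.2.2.2 hw, Op.inner_star_right]

theorem lam_emb {k : U →ₗᵢ[ℝ] U'} {j : V →ₗᵢ[ℝ] V'} (S : Op U V) {d : Cl U'} {w : V'}
    (hd : PerpC k d) (hw : Perp j w) (x : Fock (Cl U) V) :
    (lam k j S).ap (emb k j d w x) = emb k j d w (S.ap x) := lamF_emb S hd hw x

theorem norm_lam_le (k : U →ₗᵢ[ℝ] U') (j : V →ₗᵢ[ℝ] V') (S : Op U V) : ‖lam k j S‖ ≤ ‖S‖ :=
  (exists_lam k j S).choose_spec.2

theorem isCL_lam (k : U →ₗᵢ[ℝ] U') (j : V →ₗᵢ[ℝ] V') : IsCL (lam k j) :=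
  IsCL.of_hom (lam k j).toNonUnitalStarAlgHom

theorem lam_th_kv (k : U →ₗᵢ[ℝ] U') (j : V →ₗᵢ[ℝ] V') (v w u : V) (c : Cl U) {w' : V'}
    (hw : Perp j w') (e : Cl U') :
    (lam k j (th v w c)).ap (kv (j u + w') e) = ex w u • kv (j v + w') (clMap k c * e) := by
  induction e using cl_dec_induction k with
  | h0 c' d hd =>
    rw [← emb_kv k j d hw, lam_emb _ hd hw, th_kv, map_smul, emb_kv k j d hw, map_mul, mul_assoc]
  | hadd x y hx hy => rw [kv_add, map_add, hx, hy, mul_add, kv_add, smul_add]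
  | hsmul r x hx => rw [kv_smul, map_smul, hx, mul_smul_comm, kv_smul, smul_comm]

theorem lam_lm (k : U →ₗᵢ[ℝ] U') (j : V →ₗᵢ[ℝ] V') (c : Cl U) :
    lam k j (lm V c) = lm V' (clMap k c) :=
  Op.ext_dec j fun u w hw e => by
    rw [lm_kv]
    induction e using cl_dec_induction k with
    | h0 c' d hd =>
      rw [← emb_kv k j d hw, lam_emb _ hd hw, lm_kv, emb_kv k j d hw, map_mul, mul_assoc]
    | hadd x y hx hy => rw [kv_add, map_add, hx, hy, mul_add, kv_add]
    | hsmul r x hx => rw [kv_smul, map_smul, hx, mul_smul_comm, kv_smul]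

theorem lam_congr {k k' : U →ₗᵢ[ℝ] U'} {j j' : V →ₗᵢ[ℝ] V'} (hk : ∀ u, k u = k' u)
    (hj : ∀ v, j v = j' v) : lam k j = lam k' j' := by
  rw [LinearIsometry.ext hk, LinearIsometry.ext hj]

theorem lam_th_of_surj (k : U →ₗᵢ[ℝ] U') {j : V →ₗᵢ[ℝ] V'} (hj : Function.Surjective j) (v w : V)
    (c : Cl U) : lam k j (th v w c) = th (j v) (j w) (clMap k c) :=
  Op.ext_kv fun u e => by
    obtain ⟨u, rfl⟩ := hj u
    have h := lam_th_kv k j v w u c (Perp.zero j) e
    rw [add_zero, add_zero] at h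
    rw [h, th_kv, ex_isom]

theorem lam_th_id (k : U →ₗᵢ[ℝ] U') (v w : V) (c : Cl U) :
    lam k (LinearIsometry.id : V →ₗᵢ[ℝ] V) (th v w c) = th v w (clMap k c) :=
  lam_th_of_surj k Function.surjective_id v w c

theorem lam_of_id {k : U →ₗᵢ[ℝ] U} {j : V →ₗᵢ[ℝ] V} (hk : ∀ u, k u = u) (hj : ∀ v, j v = v)
    (S : Op U V) : lam k j S = S := by
  have h : emb k j 1 0 = ContinuousLinearMap.id ℂ _ := op_ext dense_kv fun p => by
    rw [emb_kv k j 1 (Perp.zero j), hj, clMap_of_id hk, add_zero, mul_one,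
      ContinuousLinearMap.id_apply]
  refine Op.ext_kv fun v c => ?_
  have h1 := lam_emb S (PerpC.one k) (Perp.zero j) (kv v c)
  rwa [h] at h1

variable [FiniteDimensional ℝ V']

theorem lam_lam (k : U →ₗᵢ[ℝ] U') (j : V →ₗᵢ[ℝ] V') (k' : U' →ₗᵢ[ℝ] U'') (j' : V' →ₗᵢ[ℝ] V'')
    (S : Op U V) : lam k' j' (lam k j S) = lam (k'.comp k) (j'.comp j) S := by
  refine Op.ext_emb k' j' fun d' w' hd' hw' y => ?_
  have h : ∀ {d w}, PerpC k d → Perp j w → ∀ x, emb k' j' d' w' (emb k j d w x) =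
      emb (k'.comp k) (j'.comp j) (clMap k' d * d') (j' w + w') x := fun {d w} hd hw x =>
    DFunLike.congr_fun (op_ext (T := emb k' j' d' w' ∘L emb k j d w) dense_kv fun p => by
      rw [ContinuousLinearMap.comp_apply, emb_kv k j d hw, emb_kv k' j' d' hw',
        emb_kv _ _ _ (hw.comp hw'), map_add, map_mul, clMap_clMap, add_assoc, mul_assoc]
      rfl) x
  rw [lam_emb _ hd' hw']
  refine DFunLike.congr_fun (op_ext (T := emb k' j' d' w' ∘L (lam k j S).ap)
    (T' := (lam (k'.comp k) (j'.comp j) S).ap ∘L emb k' j' d' w') (dense_emb k j) fun p => ?_) y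
  rw [ContinuousLinearMap.comp_apply, ContinuousLinearMap.comp_apply,
    lam_emb _ p.2.1.2 p.2.2.2, h p.2.1.2 p.2.2.2, h p.2.1.2 p.2.2.2,
    lam_emb _ ((p.2.1.2.map k').mul (hd'.comp k)) (p.2.2.2.comp hw')]

theorem lam_lam' {k : U →ₗᵢ[ℝ] U'} {j : V →ₗᵢ[ℝ] V'} {k' : U' →ₗᵢ[ℝ] U''} {j' : V' →ₗᵢ[ℝ] V''}
    {k'' : U →ₗᵢ[ℝ] U''} {j'' : V →ₗᵢ[ℝ] V''} (hk : ∀ u, k'' u = k' (k u))
    (hj : ∀ v, j'' v = j' (j v)) (S : Op U V) : lam k' j' (lam k j S) = lam k'' j'' S := by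
  rw [lam_lam, lam_congr (k := k'') (j := j'') (k' := k'.comp k) (j' := j'.comp j) hk hj]

end Pool.Agent.Lib.E2
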