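import Pool.Agent.Lib.MP_10be03_gt.KPair

/-!
The Hilbert space `Cl U ⊗ Fock V`: generating vectors, the operators `th`, the algebra `KA`,
operators induced by a linear map of Clifford algebras and a contraction.
-/

noncomputable section
open scoped InnerProductSpace

namespace Pool.Agent.Lib.E2

section PD

variable {S : Type}

theorem IsPD.of_clm {H H' : Type} [NormedAddCommGroup H] [InnerProductSpace ℂ H]
    [NormedAddCommGroup H'] [InnerProductSpace ℂ H'] (T : H →ₗ[ℂ] H') {C : ℝ}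
    (h : ∀ x, ‖T x‖ ≤ C * ‖x‖) :
    IsPD fun x y : H => ((C ^ 2 : ℝ) : ℂ) * ⟪x, y⟫_ℂ - ⟪T x, T y⟫_ℂ := by
  refine ⟨fun s t => by simp only [map_sub, map_mul, Complex.conj_ofReal, inner_conj_symm],
    fun f => ?_⟩
  have h2 : (f.sum fun s a => f.sum fun t b => (starRingEnd ℂ) a * b *
      (((C ^ 2 : ℝ) : ℂ) * ⟪s, t⟫_ℂ - ⟪T s, T t⟫_ℂ)) = ((C ^ 2 : ℝ) : ℂ) *
      (f.sum fun s a => f.sum fun t b => (starRingEnd ℂ) a * b * ⟪id s, id t⟫_ℂ) -
      (f.sum fun s a => f.sum fun t b => (starRingEnd ℂ) a * b * ⟪T s, T t⟫_ℂ) := by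
    simp only [Finsupp.sum, Finset.mul_sum, ← Finset.sum_sub_distrib, id]
    refine Finset.sum_congr rfl fun s _ => Finset.sum_congr rfl fun t _ => by ring
  rw [h2, Complex.sub_re, Complex.re_ofReal_mul, ← norm_sq_comb, ← norm_sq_comb]
  have h3 : Finsupp.linearCombination ℂ T f = T (Finsupp.linearCombination ℂ id f) := by
    rw [Finsupp.apply_linearCombination]; rfl
  rw [h3, ← mul_pow, sub_nonneg]
  exact pow_le_pow_left₀ (norm_nonneg _) (h _) 2

theorem IsPD.of_contr {V V' : Type} [NormedAddCommGroup V] [InnerProductSpace ℝ V]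
    [NormedAddCommGroup V'] [InnerProductSpace ℝ V'] (j : V →ₗ[ℝ] V') (h : ∀ x, ‖j x‖ ≤ ‖x‖) :
    IsPD fun x y : V => ((inner ℝ x y - inner ℝ (j x) (j y) : ℝ) : ℂ) := by
  refine ⟨fun s t => by simp only [Complex.conj_ofReal, real_inner_comm], fun f => ?_⟩
  have e : (f.sum fun s a => f.sum fun t b =>
      (starRingEnd ℂ) a * b * ((inner ℝ s t - inner ℝ (j s) (j t) : ℝ) : ℂ)).re =
      (inner ℝ (f.sum fun s a => a.re • s) (f.sum fun s a => a.re • s) -
        inner ℝ (j (f.sum fun s a => a.re • s)) (j (f.sum fun s a => a.re • s))) +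
      (inner ℝ (f.sum fun s a => a.im • s) (f.sum fun s a => a.im • s) -
        inner ℝ (j (f.sum fun s a => a.im • s)) (j (f.sum fun s a => a.im • s))) := by
    simp only [Finsupp.sum, map_sum, map_smul, sum_inner, inner_sum, real_inner_smul_left,
      real_inner_smul_right, Complex.re_sum, ← Finset.sum_add_distrib, ← Finset.sum_sub_distrib]
    rw [Finset.sum_comm]
    refine Finset.sum_congr rfl fun s _ => Finset.sum_congr rfl fun t _ => ?_
    simp only [Complex.mul_re, Complex.mul_im, Complex.conj_re, Complex.conj_im,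
      Complex.ofReal_re, Complex.ofReal_im]
    ring
  have k : ∀ x : V, 0 ≤ inner ℝ x x - inner ℝ (j x) (j x) := fun x => by
    rw [real_inner_self_eq_norm_sq, real_inner_self_eq_norm_sq, sub_nonneg]
    exact pow_le_pow_left₀ (norm_nonneg _) (h _) 2
  rw [e]
  exact add_nonneg (k _) (k _)

theorem IsPD.exp_sub_one {k : S → S → ℂ} (hk : IsPD k) :
    IsPD fun s t => Complex.exp (k s t) - 1 := by
  refine IsPD.lim (k := fun n s t => ∑ i ∈ Finset.range n,
    k s t ^ (i + 1) / ((i + 1).factorial : ℂ)) (fun n => IsPD.sum _ fun i => ?_) fun s t => ?_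
  · refine ((IsPD.prod (Finset.range (i + 1)) fun _ => hk).smul
      (c := (((i + 1).factorial : ℝ))⁻¹) (by positivity)).congr fun s t => ?_
    simp [div_eq_inv_mul]
  · rw [Complex.exp_eq_exp_ℂ]
    have h := (hasSum_nat_add_iff' 1).2 (NormedSpace.expSeries_div_hasSum_exp (k s t))
    simpa using h.tendsto_sum_nat

end PD

variable {U V U' V' U'' V'' : Type}
  [NormedAddCommGroup U] [InnerProductSpace ℝ U] [FiniteDimensional ℝ U]
  [NormedAddCommGroup V] [InnerProductSpace ℝ V]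
  [NormedAddCommGroup U'] [InnerProductSpace ℝ U'] [FiniteDimensional ℝ U']
  [NormedAddCommGroup V'] [InnerProductSpace ℝ V']
  [NormedAddCommGroup U''] [InnerProductSpace ℝ U''] [FiniteDimensional ℝ U'']
  [NormedAddCommGroup V''] [InnerProductSpace ℝ V'']

/-- The real exponential of an inner product as a complex number. -/
def ex (v w : V) : ℂ := ((Real.exp (inner ℝ v w) : ℝ) : ℂ)

theorem ex_comm (v w : V) : ex v w = ex w v := by rw [ex, ex, real_inner_comm]

theorem conj_ex (v w : V) : (starRingEnd ℂ) (ex v w) = ex v w := Complex.conj_ofReal _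

theorem ex_add_left (u v w : V) : ex (u + v) w = ex u w * ex v w := by
  simp only [ex, inner_add_left, Real.exp_add, Complex.ofReal_mul]

theorem ex_add_right (u v w : V) : ex u (v + w) = ex u v * ex u w := by
  simp only [ex, inner_add_right, Real.exp_add, Complex.ofReal_mul]

theorem ex_of_inner {v w : V} (h : inner ℝ v w = 0) : ex v w = 1 := by simp [ex, h]

theorem ex_zero_left (w : V) : ex 0 w = 1 := ex_of_inner (inner_zero_left _)

theorem ex_zero_right (w : V) : ex w 0 = 1 := ex_of_inner (inner_zero_right _)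

theorem ex_isom (j : V →ₗᵢ[ℝ] V') (v w : V) : ex (j v) (j w) = ex v w := by
  rw [ex, ex, j.inner_map_map]

theorem ex_ne_zero (v w : V) : ex v w ≠ 0 := Complex.ofReal_ne_zero.2 (Real.exp_pos _).ne'

theorem isPD_ex : IsPD (ex (V := V)) := isPD_exp_inner V

theorem continuous_ex : Continuous fun p : V × V => ex p.1 p.2 := by
  unfold ex; fun_prop

theorem inner_cl (c d : Cl U) : ⟪c, d⟫_ℂ = tr (star c * d) := rfl

theorem inner_cl_mul_left (a c d : Cl U) : ⟪a * c, d⟫_ℂ = ⟪c, star a * d⟫_ℂ := by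
  rw [inner_cl, inner_cl, star_mul, mul_assoc]

/-- The vector `c ⊗ exp v`. -/
def kv (v : V) (c : Cl U) : Fock (Cl U) V := RKHS.kerFun (Fock (Cl U) V) v c

theorem kernel_fock (v w : V) : RKHS.kernel (Fock (Cl U) V) v w = ex v w • 1 :=
  congrFun₂ (RKHS.OfKernel.kernel_ofKernel (K := ker (Cl U) V)) v w

theorem inner_kv (v w : V) (c d : Cl U) : ⟪kv v c, kv w d⟫_ℂ = ex v w * ⟪c, d⟫_ℂ := by
  rw [kv, kv, ← RKHS.kernel_inner, kernel_fock, smul_apply, one_apply_eq_self, inner_smul_left,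
    conj_ex, ex_comm]

theorem adjoint_kerFun_kv (w u : V) (d : Cl U) :
    ContinuousLinearMap.adjoint (RKHS.kerFun (Fock (Cl U) V) w) (kv u d) = ex w u • d := by
  rw [RKHS.adjoint_kerFun, kv, RKHS.kerFun_apply, kernel_fock, smul_apply, one_apply_eq_self]

theorem dense_kv :
    Dense (Submodule.span ℂ (Set.range fun p : V × Cl U => kv p.1 p.2) : Set (Fock (Cl U) V)) := by
  have h := RKHS.kerFun_dense (𝕜 := ℂ) (Fock (Cl U) V)
  rw [← Submodule.dense_iff_topologicalClosure_eq_top] at h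
  refine h.mono (Submodule.span_mono ?_)
  rintro _ ⟨v, c, rfl⟩
  exact ⟨(v, c), rfl⟩

theorem kv_add (v : V) (c d : Cl U) : kv v (c + d) = kv v c + kv v d := map_add _ _ _

theorem kv_smul (v : V) (r : ℂ) (c : Cl U) : kv v (r • c) = r • kv v c := map_smul _ _ _

theorem kv_zero (v : V) : kv v (0 : Cl U) = 0 := map_zero _

theorem kv_neg (v : V) (c : Cl U) : kv v (-c) = -kv v c := map_neg _ _

theorem kv_sum {ι : Type} (v : V) (s : Finset ι) (c : ι → Cl U) :
    kv v (∑ i ∈ s, c i) = ∑ i ∈ s, kv v (c i) := map_sum _ _ _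

theorem norm_kerFun_sub_sq (v w : V) (c : Cl U) : ‖kv v c - kv w c‖ ^ 2 =
    (Real.exp (inner ℝ v v) - 2 * Real.exp (inner ℝ v w) + Real.exp (inner ℝ w w)) * ‖c‖ ^ 2 := by
  rw [@norm_sq_eq_re_inner ℂ, inner_sub_left, inner_sub_right, inner_sub_right, inner_kv, inner_kv,
    inner_kv, inner_kv, ex_comm w v, inner_self_eq_norm_sq_to_K]
  simp only [ex, Complex.coe_algebraMap, ← Complex.ofReal_pow, ← Complex.ofReal_mul,
    ← Complex.ofReal_sub, RCLike.re_to_complex, Complex.ofReal_re]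
  ring

theorem continuous_kerFun : Continuous fun v : V => RKHS.kerFun (Fock (Cl U) V) v := by
  refine continuous_iff_continuousAt.2 fun w => ?_
  rw [ContinuousAt, tendsto_iff_norm_sub_tendsto_zero]
  have hc : Continuous fun v : V => Real.sqrt
      (Real.exp (inner ℝ v v) - 2 * Real.exp (inner ℝ v w) + Real.exp (inner ℝ w w)) := by
    fun_prop
  have h0 := hc.tendsto w
  rw [show Real.exp (inner ℝ w w) - 2 * Real.exp (inner ℝ w w) + Real.exp (inner ℝ w w) = 0 by
    ring, Real.sqrt_zero] at h0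
  refine squeeze_zero (fun _ => norm_nonneg _) (fun v => ?_) h0
  refine ContinuousLinearMap.opNorm_le_bound _ (Real.sqrt_nonneg _) fun c => ?_
  refine Real.le_sqrt_of_sq_le (norm_kerFun_sub_sq v w c).le |>.trans_eq ?_
  rw [Real.sqrt_mul' _ (sq_nonneg _), Real.sqrt_sq (norm_nonneg _)]

theorem continuous_kv : Continuous fun p : V × Cl U => kv p.1 p.2 :=
  (continuous_kerFun.comp continuous_fst).clm_apply continuous_snd

namespace Op

/-- An element of `Op U V` as a continuous linear map. -/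
def ap (T : Op U V) : Fock (Cl U) V →L[ℂ] Fock (Cl U) V := T

/-- A continuous linear map as an element of `Op U V`. -/
def of (T : Fock (Cl U) V →L[ℂ] Fock (Cl U) V) : Op U V := T

theorem ap_of (T : Fock (Cl U) V →L[ℂ] Fock (Cl U) V) : (of T).ap = T := rfl

theorem mul_ap (S T : Op U V) (x : Fock (Cl U) V) : (S * T).ap x = S.ap (T.ap x) := rfl

theorem add_ap (S T : Op U V) (x : Fock (Cl U) V) : (S + T).ap x = S.ap x + T.ap x := rfl

theorem sub_ap (S T : Op U V) (x : Fock (Cl U) V) : (S - T).ap x = S.ap x - T.ap x := rfl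

theorem neg_ap (S : Op U V) (x : Fock (Cl U) V) : (-S).ap x = -S.ap x := rfl

theorem smul_ap (r : ℂ) (S : Op U V) (x : Fock (Cl U) V) : (r • S).ap x = r • S.ap x := rfl

theorem one_ap (x : Fock (Cl U) V) : (1 : Op U V).ap x = x := rfl

theorem zero_ap (x : Fock (Cl U) V) : (0 : Op U V).ap x = 0 := rfl

theorem star_ap (S : Op U V) : (star S).ap = ContinuousLinearMap.adjoint S.ap := rfl

theorem norm_ap (S : Op U V) : ‖S.ap‖ = ‖S‖ := rfl

theorem inner_star_left (S : Op U V) (x y : Fock (Cl U) V) :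
    ⟪(star S).ap x, y⟫_ℂ = ⟪x, S.ap y⟫_ℂ := ContinuousLinearMap.adjoint_inner_left _ _ _

theorem inner_star_right (S : Op U V) (x y : Fock (Cl U) V) :
    ⟪x, (star S).ap y⟫_ℂ = ⟪S.ap x, y⟫_ℂ := ContinuousLinearMap.adjoint_inner_right _ _ _

theorem ext_kv {S T : Op U V} (h : ∀ v c, S.ap (kv v c) = T.ap (kv v c)) : S = T :=
  op_ext (T := S.ap) (T' := T.ap) dense_kv fun p => h p.1 p.2

theorem eq_star {S T : Op U V}
    (h : ∀ v c w d, ⟪kv v c, S.ap (kv w d)⟫_ℂ = ⟪T.ap (kv v c), kv w d⟫_ℂ) : S = star T :=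
  ext_kv fun w d => vec_ext dense_kv fun p => by rw [h, inner_star_right]

end Op

theorem th_kv (v w u : V) (c d : Cl U) : (th v w c).ap (kv u d) = ex w u • kv v (c * d) := by
  change RKHS.kerFun (Fock (Cl U) V) v (LinearMap.mulLeft ℂ c
    (ContinuousLinearMap.adjoint (RKHS.kerFun (Fock (Cl U) V) w) (kv u d))) = _
  rw [adjoint_kerFun_kv, map_smul, map_smul]
  rfl

theorem th_mul (v w v' w' : V) (c c' : Cl U) :
    th v w c * th v' w' c' = ex w v' • th v w' (c * c') :=
  Op.ext_kv fun u d => by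
    rw [Op.mul_ap, th_kv, map_smul, th_kv, Op.smul_ap, th_kv, mul_assoc, smul_comm]

theorem star_th (v w : V) (c : Cl U) : star (th v w c) = th w v (star c) :=
  (Op.eq_star fun u d u' d' => by
    rw [th_kv, th_kv, inner_smul_left, inner_smul_right, inner_kv, inner_kv, conj_ex,
      inner_cl_mul_left, ex_comm u w]
    ring).symm

theorem th_add (v w : V) (c c' : Cl U) : th v w (c + c') = th v w c + th v w c' :=
  Op.ext_kv fun u d => by rw [Op.add_ap, th_kv, th_kv, th_kv, add_mul, kv_add, smul_add]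

theorem th_smul (v w : V) (r : ℂ) (c : Cl U) : th v w (r • c) = r • th v w c :=
  Op.ext_kv fun u d => by rw [Op.smul_ap, th_kv, th_kv, smul_mul_assoc, kv_smul, smul_comm]

theorem th_zero (v w : V) : th v w (0 : Cl U) = 0 := by simpa using th_smul v w 0 (0 : Cl U)

theorem th_neg (v w : V) (c : Cl U) : th v w (-c) = -th v w c := by
  simpa using th_smul v w (-1) c

theorem continuous_th : Continuous fun p : V × V × Cl U => th p.1 p.2.1 p.2.2 := by
  let L : Cl U →ₗ[ℂ] Cl U →L[ℂ] Cl U :=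
    (LinearMap.toContinuousLinearMap (𝕜 := ℂ)).toLinearMap.comp (LinearMap.mul ℂ (Cl U))
  have h1 : Continuous fun p : V × V × Cl U => L p.2.2 :=
    L.continuous_of_finiteDimensional.comp (continuous_snd.comp continuous_snd)
  exact (continuous_kerFun.comp continuous_fst).clm_comp (h1.clm_comp
    (ContinuousLinearMap.adjoint.continuous.comp
      (continuous_kerFun.comp (continuous_fst.comp continuous_snd))))

theorem th_mem (v w : V) (c : Cl U) : th v w c ∈ KA U V :=
  subset_closure (Submodule.subset_span ⟨v, w, c, rfl⟩)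

theorem isClosed_KA : IsClosed (KA U V) := isClosed_closure

/-- Induction over `KA`. -/
theorem KA_induction {P : Op U V → Prop} (hc : IsClosed {T | P T}) (h0 : ∀ v w c, P (th v w c))
    (hadd : ∀ S T, P S → P T → P (S + T)) (hsmul : ∀ (r : ℂ) S, P S → P (r • S))
    {T : Op U V} (hT : T ∈ KA U V) : P T := by
  refine closure_minimal (fun S hS => ?_) hc hT
  induction hS using Submodule.span_induction with
  | mem S hS => obtain ⟨v, w, c, rfl⟩ := hS; exact h0 v w c
  | zero => simpa using hsmul 0 _ (h0 0 0 0)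
  | add S T _ _ hS hT => exact hadd _ _ hS hT
  | smul r S _ hS => exact hsmul r _ hS

theorem KA.add_mem {S T : Op U V} (hS : S ∈ KA U V) (hT : T ∈ KA U V) : S + T ∈ KA U V :=
  (Submodule.span ℂ _).topologicalClosure.add_mem hS hT

theorem KA.smul_mem (r : ℂ) {S : Op U V} (hS : S ∈ KA U V) : r • S ∈ KA U V :=
  (Submodule.span ℂ _).topologicalClosure.smul_mem r hS

theorem KA.zero_mem : (0 : Op U V) ∈ KA U V := (Submodule.span ℂ _).topologicalClosure.zero_mem

/-- A continuous linear map sends `KA` into a closed subspace containing the images of the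
generators. -/
theorem KA.map_mem {f : Op U V → Op U' V'} (hf : IsCL f) (h : ∀ v w c, f (th v w c) ∈ KA U' V')
    {T : Op U V} (hT : T ∈ KA U V) : f T ∈ KA U' V' :=
  KA_induction (P := fun T => f T ∈ KA U' V') (isClosed_KA.preimage hf.1) h
    (fun S T hS hT => by rw [hf.2.map_add]; exact KA.add_mem hS hT)
    (fun r S hS => by rw [hf.2.map_smul]; exact KA.smul_mem r hS) hT

/-- Two continuous linear maps that agree on the generators agree on `KA`. -/
theorem KA.eq_of_th {B : Type} [CStarAlgebra B] {f g : Op U V → B} (hf : IsCL f) (hg : IsCL g)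
    (h : ∀ v w c, f (th v w c) = g (th v w c)) {T : Op U V} (hT : T ∈ KA U V) : f T = g T :=
  KA_induction (P := fun T => f T = g T) (isClosed_eq hf.1 hg.1) h
    (fun S T hS hT => by rw [hf.2.map_add, hg.2.map_add, hS, hT])
    (fun r S hS => by rw [hf.2.map_smul, hg.2.map_smul, hS]) hT

section IsCL

variable {A B C : Type} [CStarAlgebra A] [CStarAlgebra B] [CStarAlgebra C]

theorem IsCL.id : IsCL fun a : A => a := ⟨continuous_id, fun _ _ => rfl, fun _ _ => rfl⟩

theorem IsCL.comp {f : B → C} {g : A → B} (hf : IsCL f) (hg : IsCL g) : IsCL fun a => f (g a) :=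
  ⟨hf.1.comp hg.1, fun a b => by rw [hg.2.map_add, hf.2.map_add],
    fun r a => by rw [hg.2.map_smul, hf.2.map_smul]⟩

theorem IsCL.mul_const {f : A → B} (hf : IsCL f) (b : B) : IsCL fun a => f a * b :=
  ⟨hf.1.mul continuous_const, fun a a' => by rw [hf.2.map_add, add_mul],
    fun r a => by rw [hf.2.map_smul, smul_mul_assoc]⟩

theorem IsCL.const_mul {f : A → B} (hf : IsCL f) (b : B) : IsCL fun a => b * f a :=
  ⟨continuous_const.mul hf.1, fun a a' => by rw [hf.2.map_add, mul_add],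
    fun r a => by rw [hf.2.map_smul, mul_smul_comm]⟩

theorem IsCL.neg {f : A → B} (hf : IsCL f) : IsCL fun a => -f a :=
  ⟨hf.1.neg, fun a a' => by rw [hf.2.map_add, neg_add],
    fun r a => by rw [hf.2.map_smul, smul_neg]⟩

theorem IsCL.smul {f : A → B} (hf : IsCL f) (c : ℂ) : IsCL fun a => c • f a :=
  ⟨hf.1.const_smul c, fun a a' => by rw [hf.2.map_add, smul_add],
    fun r a => by rw [hf.2.map_smul, smul_comm]⟩

theorem IsCL.add {f g : A → B} (hf : IsCL f) (hg : IsCL g) : IsCL fun a => f a + g a :=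
  ⟨hf.1.add hg.1, fun a a' => by rw [hf.2.map_add, hg.2.map_add, add_add_add_comm],
    fun r a => by rw [hf.2.map_smul, hg.2.map_smul, smul_add]⟩

theorem IsCL.of_hom (φ : A →⋆ₙₐ[ℂ] B) : IsCL φ :=
  ⟨continuous_starHom φ, map_add φ, map_smul φ⟩

theorem IsCL.map_zero {f : A → B} (hf : IsCL f) : f 0 = 0 := hf.2.map_zero

theorem IsCL.map_neg {f : A → B} (hf : IsCL f) (a : A) : f (-a) = -f a := hf.2.map_neg a

end IsCL

theorem KA.mul_mem {S T : Op U V} (hS : S ∈ KA U V) (hT : T ∈ KA U V) : S * T ∈ KA U V :=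
  KA.map_mem (IsCL.id.mul_const T) (fun v w c => KA.map_mem (IsCL.id.const_mul (th v w c))
    (fun v' w' c' => by rw [th_mul]; exact KA.smul_mem _ (th_mem _ _ _)) hT) hS

theorem KA.star_mem {S : Op U V} (hS : S ∈ KA U V) : star S ∈ KA U V :=
  KA_induction (P := fun S => star S ∈ KA U V) (isClosed_KA.preimage continuous_star)
    (fun v w c => by rw [star_th]; exact th_mem _ _ _)
    (fun S T hS hT => by rw [star_add]; exact KA.add_mem hS hT)
    (fun r S hS => by rw [star_smul]; exact KA.smul_mem _ hS) hS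

variable (U V) in
/-- `KA` as a star subalgebra. -/
def KAs : NonUnitalStarSubalgebra ℂ (Op U V) where
  carrier := KA U V
  add_mem' := KA.add_mem
  zero_mem' := KA.zero_mem
  mul_mem' := KA.mul_mem
  smul_mem' := fun r _ h => KA.smul_mem r h
  star_mem' := KA.star_mem

theorem exists_gam (A : Cl U →ₗ[ℂ] Cl U') (j : V →ₗ[ℝ] V') (hj : ∀ v, ‖j v‖ ≤ ‖v‖) {C : ℝ}
    (hC : 0 ≤ C) (hA : ∀ c, ‖A c‖ ≤ C * ‖c‖) :
    ∃ T : Fock (Cl U) V →L[ℂ] Fock (Cl U') V',
      (∀ p : V × Cl U, T (kv p.1 p.2) = kv (j p.1) (A p.2)) ∧ ‖T‖ ≤ C := by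
  refine exists_op dense_kv hC ?_
  have h1 := ((((isPD_ex.comap j).mul (IsPD.of_contr j hj).exp_sub_one).comap
    fun p : V × Cl U => p.1).mul (IsPD.of_inner fun p : V × Cl U => p.2)).smul (sq_nonneg C)
  have h2 := (isPD_ex.comap fun p : V × Cl U => j p.1).mul
    ((IsPD.of_clm A hA).comap fun p : V × Cl U => p.2)
  refine (h1.add h2).congr fun p q => ?_
  have h3 : ex (j p.1) (j q.1) *
      Complex.exp ((inner ℝ p.1 q.1 - inner ℝ (j p.1) (j q.1) : ℝ) : ℂ) = ex p.1 q.1 := by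
    rw [ex, ex, ← Complex.ofReal_exp, ← Complex.ofReal_mul, ← Real.exp_add, add_sub_cancel]
  rw [inner_kv, inner_kv, ← h3]
  ring

open Classical in
/-- The operator `A ⊗ Γ(j)`, `kv v c ↦ kv (j v) (A c)`, for a contraction `j`. -/
def gam (A : Cl U →ₗ[ℂ] Cl U') (j : V →ₗ[ℝ] V') : Fock (Cl U) V →L[ℂ] Fock (Cl U') V' :=
  if hj : ∀ v, ‖j v‖ ≤ ‖v‖ then
    (exists_gam A j hj (norm_nonneg _) (LinearMap.toContinuousLinearMap A).le_opNorm).choose
  else 0

theorem gam_kv (A : Cl U →ₗ[ℂ] Cl U') {j : V →ₗ[ℝ] V'} (hj : ∀ v, ‖j v‖ ≤ ‖v‖) (v : V)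
    (c : Cl U) : gam A j (kv v c) = kv (j v) (A c) := by
  rw [gam, dif_pos hj]
  exact (exists_gam A j hj (norm_nonneg _)
    (LinearMap.toContinuousLinearMap A).le_opNorm).choose_spec.1 (v, c)

theorem norm_gam_le (A : Cl U →ₗ[ℂ] Cl U') {j : V →ₗ[ℝ] V'} (hj : ∀ v, ‖j v‖ ≤ ‖v‖) {C : ℝ}
    (hC : 0 ≤ C) (hA : ∀ c, ‖A c‖ ≤ C * ‖c‖) : ‖gam A j‖ ≤ C := by
  obtain ⟨T, hT, hn⟩ := exists_gam A j hj hC hA
  rwa [op_ext (T := gam A j) (T' := T) dense_kv fun p => (gam_kv A hj _ _).trans (hT p).symm]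

variable (V) in
/-- Left multiplication by a Clifford element, tensored with the identity. -/
def lm (d : Cl U) : Op U V := Op.of (gam (LinearMap.mulLeft ℂ d) LinearMap.id)

theorem lm_kv (d : Cl U) (v : V) (c : Cl U) : (lm V d).ap (kv v c) = kv v (d * c) :=
  gam_kv _ (fun _ => le_rfl) v c

theorem lm_mul (d d' : Cl U) : lm V (d * d') = lm V d * lm V d' :=
  Op.ext_kv fun v c => by rw [Op.mul_ap, lm_kv, lm_kv, lm_kv, mul_assoc]

theorem lm_one : lm V (1 : Cl U) = 1 := Op.ext_kv fun v c => by rw [lm_kv, one_mul, Op.one_ap]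

theorem lm_add (d d' : Cl U) : lm V (d + d') = lm V d + lm V d' :=
  Op.ext_kv fun v c => by rw [Op.add_ap, lm_kv, lm_kv, lm_kv, add_mul, kv_add]

theorem lm_smul (r : ℂ) (d : Cl U) : lm V (r • d) = r • lm V d :=
  Op.ext_kv fun v c => by rw [Op.smul_ap, lm_kv, lm_kv, smul_mul_assoc, kv_smul]

theorem lm_star (d : Cl U) : lm V (star d) = star (lm V d) :=
  Op.eq_star fun v c w e => by rw [lm_kv, lm_kv, inner_kv, inner_kv, inner_cl_mul_left]

variable (U V) in
/-- Left multiplication as a star algebra homomorphism. -/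
def lmHom : Cl U →⋆ₐ[ℂ] Op U V where
  toFun := lm V
  map_one' := lm_one
  map_mul' := lm_mul
  map_zero' := by simpa using lm_smul (V := V) 0 (0 : Cl U)
  map_add' := lm_add
  commutes' r := by
    rw [Algebra.algebraMap_eq_smul_one, Algebra.algebraMap_eq_smul_one, lm_smul, lm_one]
  map_star' := lm_star

theorem lm_zero : lm V (0 : Cl U) = 0 := map_zero (lmHom U V)

theorem lm_neg (d : Cl U) : lm V (-d) = -lm V d := map_neg (lmHom U V) d

theorem continuous_lm : Continuous (lm V : Cl U → Op U V) :=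
  (lmHom U V).toAlgHom.toLinearMap.continuous_of_finiteDimensional

theorem th_mul_lm (v w : V) (c d : Cl U) : th v w c * lm V d = th v w (c * d) :=
  Op.ext_kv fun u e => by rw [Op.mul_ap, lm_kv, th_kv, th_kv, mul_assoc]

theorem lm_mul_th (v w : V) (c d : Cl U) : lm V d * th v w c = th v w (d * c) :=
  Op.ext_kv fun u e => by rw [Op.mul_ap, th_kv, th_kv, map_smul, lm_kv, mul_assoc]

theorem KA.mul_lm {S : Op U V} (hS : S ∈ KA U V) (d : Cl U) : S * lm V d ∈ KA U V :=
  KA.map_mem (IsCL.id.mul_const _) (fun v w c => by rw [th_mul_lm]; exact th_mem _ _ _) hS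

theorem KA.lm_mul {S : Op U V} (hS : S ∈ KA U V) (d : Cl U) : lm V d * S ∈ KA U V :=
  KA.map_mem (IsCL.id.const_mul _) (fun v w c => by rw [lm_mul_th]; exact th_mem _ _ _) hS

theorem lm_cl_mul_self (w : U) : lm V (cl w) * lm V (cl w) = ((‖w‖ ^ 2 : ℝ) : ℂ) • 1 := by
  rw [← lm_mul, cl_mul_self, lm_smul, lm_one, real_inner_self_eq_norm_sq]

theorem isSelfAdjoint_lm_cl (w : U) : IsSelfAdjoint (lm V (cl w)) := by
  rw [IsSelfAdjoint, ← lm_star, star_cl]

theorem norm_lm_cl_le (w : U) : ‖lm V (cl w)‖ ≤ ‖w‖ := by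
  refine (pow_le_pow_iff_left₀ (norm_nonneg _) (norm_nonneg _) two_ne_zero).1 ?_
  rw [sq, ← CStarRing.norm_star_mul_self, (isSelfAdjoint_lm_cl w).star_eq, lm_cl_mul_self,
    norm_smul, Complex.norm_real, Real.norm_eq_abs, abs_of_nonneg (sq_nonneg _)]
  exact mul_le_of_le_one_right (sq_nonneg _) ContinuousLinearMap.norm_id_le

theorem continuous_cl : Continuous (cl : U → Cl U) :=
  LinearMap.continuous_of_finiteDimensional
    (show U →ₗ[ℝ] Cl U from ⟨⟨cl, cl_add⟩, fun r v => cl_smul r v⟩)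

end Pool.Agent.Lib.E2
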