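import Pool.Agent.Lib.MP_10be03_gt.KFock
import Pool.Agent.Lib.MP_10be03_gt.NTyp
import Pool.Agent.Lib.MP_10be03_gt.KExt

-- part Pool.Agent.Lib.MP_10be03_gt.KUU
section

/-!
A real inner product space together with finitely many complex fermionic modes; creation and
annihilation elements of its Clifford algebra.
-/

noncomputable section
open scoped Matrix ComplexConjugate

namespace Pool.Agent.Lib.E2

/-- The orthogonal sum of `V` and the realification of `ℂ^m`. -/
def UU (V m : Type) : Type := WithLp 2 (V × EuclideanSpace ℂ m)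

variable {V V' V'' m m' m'' : Type} [NormedAddCommGroup V] [InnerProductSpace ℝ V]
  [NormedAddCommGroup V'] [InnerProductSpace ℝ V'] [NormedAddCommGroup V'']
  [InnerProductSpace ℝ V''] [Fintype m] [Fintype m'] [Fintype m'']

instance instNormedUU : NormedAddCommGroup (UU V m) :=
  inferInstanceAs (NormedAddCommGroup (WithLp 2 (V × EuclideanSpace ℂ m)))

instance instInnerUU : InnerProductSpace ℝ (UU V m) :=
  inferInstanceAs (InnerProductSpace ℝ (WithLp 2 (V × EuclideanSpace ℂ m)))

instance instFiniteUU [FiniteDimensional ℝ V] : FiniteDimensional ℝ (UU V m) :=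
  inferInstanceAs (FiniteDimensional ℝ (WithLp 2 (V × EuclideanSpace ℂ m)))

namespace UU

/-- A vector from its components. -/
def mk (v : V) (w : EuclideanSpace ℂ m) : UU V m := WithLp.toLp 2 (v, w)

/-- The first component. -/
def fst (x : UU V m) : V := (WithLp.ofLp x).1

/-- The second component. -/
def snd (x : UU V m) : EuclideanSpace ℂ m := (WithLp.ofLp x).2

theorem kuu_re (w w' : EuclideanSpace ℂ m) : inner ℝ w w' = (inner ℂ w w').re := by
  simp only [PiLp.inner_apply, Complex.re_sum]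
  rfl

theorem inner_eq (x y : UU V m) :
    inner ℝ x y = inner ℝ x.fst y.fst + (inner ℂ x.snd y.snd).re :=
  (WithLp.prod_inner_apply (𝕜 := ℝ) x y).trans (congrArg _ (kuu_re _ _))

omit [NormedAddCommGroup V] [InnerProductSpace ℝ V] [Fintype m] in
theorem ext' {x y : UU V m} (h1 : x.fst = y.fst) (h2 : x.snd = y.snd) : x = y :=
  WithLp.ofLp_injective 2 (Prod.ext h1 h2)

theorem norm_eq_of {E : Type} [NormedAddCommGroup E] [InnerProductSpace ℝ E] {x : UU V m} {y : E}
    (h : inner ℝ x.fst x.fst + (inner ℂ x.snd x.snd).re = inner ℝ y y) : ‖x‖ = ‖y‖ := by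
  rw [← inner_eq, real_inner_self_eq_norm_sq, real_inner_self_eq_norm_sq] at h
  exact (sq_eq_sq₀ (norm_nonneg _) (norm_nonneg _)).1 h

variable (m) in
/-- The inclusion of the first summand. -/
def inl : V →ₗᵢ[ℝ] UU V m where
  toFun v := mk v 0
  map_add' _ _ := ext' rfl (add_zero _).symm
  map_smul' _ _ := ext' rfl (smul_zero _).symm
  norm_map' v := norm_eq_of (by simp [mk, fst, snd])

variable (V) in
/-- The inclusion of the modes. -/
def inr : EuclideanSpace ℂ m →ₗᵢ[ℝ] UU V m where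
  toFun w := mk 0 w
  map_add' _ _ := ext' (add_zero _).symm rfl
  map_smul' _ _ := ext' (smul_zero _).symm rfl
  norm_map' w := norm_eq_of (by
    rw [kuu_re w w]
    simp [mk, fst, snd])

theorem inl_add_inr (x : UU V m) : inl m x.fst + inr V x.snd = x :=
  ext' (add_zero _) (zero_add _)

theorem inner_inl_inr (v : V) (w : EuclideanSpace ℂ m) : inner ℝ (inl m v) (inr V w) = 0 := by
  rw [inner_eq]
  simp [inl, inr, mk, fst, snd]

theorem inner_inr_inr (w w' : EuclideanSpace ℂ m) :
    inner ℝ (inr V w) (inr V w') = (inner ℂ w w').re := by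
  rw [inner_eq]
  simp [inr, mk, fst, snd]

theorem inl_surjective [IsEmpty m] : Function.Surjective (inl m : V → UU V m) :=
  fun x => ⟨x.fst, ext' rfl (Subsingleton.elim _ _)⟩

end UU

/-- A matrix applied to a vector. -/
def mv (M : Matrix m' m ℂ) (w : EuclideanSpace ℂ m) : EuclideanSpace ℂ m' :=
  WithLp.toLp 2 (M *ᵥ WithLp.ofLp w)

theorem mv_mv (M : Matrix m' m ℂ) (M' : Matrix m'' m' ℂ) (w : EuclideanSpace ℂ m) :
    mv M' (mv M w) = mv (M' * M) w := by
  simp only [mv, Matrix.mulVec_mulVec]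

theorem mv_add (M : Matrix m' m ℂ) (w w' : EuclideanSpace ℂ m) :
    mv M (w + w') = mv M w + mv M w' := by
  simp only [mv, WithLp.ofLp_add, Matrix.mulVec_add, WithLp.toLp_add]

theorem mv_smul (M : Matrix m' m ℂ) (r : ℂ) (w : EuclideanSpace ℂ m) :
    mv M (r • w) = r • mv M w := by
  simp only [mv, WithLp.ofLp_smul, Matrix.mulVec_smul, WithLp.toLp_smul]

theorem inner_mv (M : Matrix m'' m ℂ) (M' : Matrix m'' m' ℂ) (w : EuclideanSpace ℂ m)
    (w' : EuclideanSpace ℂ m') : inner ℂ (mv M w) (mv M' w') = inner ℂ w (mv (Mᴴ * M') w') := by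
  simp only [mv, EuclideanSpace.inner_eq_star_dotProduct, Matrix.star_mulVec,
    ← Matrix.mulVec_mulVec]
  rw [dotProduct_comm, dotProduct_comm (Mᴴ *ᵥ _), Matrix.dotProduct_mulVec _ Mᴴ]

variable [DecidableEq m] [DecidableEq m'] [DecidableEq m'']

theorem mv_one (w : EuclideanSpace ℂ m) : mv 1 w = w := by
  simp only [mv, Matrix.one_mulVec]

/-- The block isometry of a real isometry and a complex isometric matrix. -/
def kk (φ : V →ₗᵢ[ℝ] V') (M : Matrix m' m ℂ) (hM : Mᴴ * M = 1) : UU V m →ₗᵢ[ℝ] UU V' m' where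
  toFun x := UU.mk (φ x.fst) (mv M x.snd)
  map_add' x y := UU.ext' (φ.map_add _ _) (mv_add M _ _)
  map_smul' r x := UU.ext' (φ.map_smul _ _) (mv_smul M r _)
  norm_map' x := UU.norm_eq_of (by
    rw [UU.inner_eq, ← φ.inner_map_map, ← mv_one x.snd, ← hM, ← inner_mv, hM, mv_one]
    rfl)

theorem kk_inl (φ : V →ₗᵢ[ℝ] V') (M : Matrix m' m ℂ) (hM : Mᴴ * M = 1) (v : V) :
    kk φ M hM (UU.inl m v) = UU.inl m' (φ v) :=
  UU.ext' rfl (show mv M 0 = 0 by simp [mv])

theorem kk_inr (φ : V →ₗᵢ[ℝ] V') (M : Matrix m' m ℂ) (hM : Mᴴ * M = 1) (w : EuclideanSpace ℂ m) :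
    kk φ M hM (UU.inr V w) = UU.inr V' (mv M w) :=
  UU.ext' φ.map_zero rfl

theorem kk_kk (φ : V →ₗᵢ[ℝ] V') (M : Matrix m' m ℂ) (hM : Mᴴ * M = 1) (φ' : V' →ₗᵢ[ℝ] V'')
    (M' : Matrix m'' m' ℂ) (hM' : M'ᴴ * M' = 1) (φ'' : V →ₗᵢ[ℝ] V'') (M'' : Matrix m'' m ℂ)
    (hM'' : M''ᴴ * M'' = 1) (h1 : ∀ v, φ'' v = φ' (φ v)) (h2 : M'' = M' * M) (x : UU V m) :
    kk φ' M' hM' (kk φ M hM x) = kk φ'' M'' hM'' x :=
  UU.ext' (h1 _).symm (h2 ▸ mv_mv M M' _)

theorem kk_of_id (φ : V →ₗᵢ[ℝ] V) (M : Matrix m m ℂ) (hM : Mᴴ * M = 1) (h1 : ∀ v, φ v = v)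
    (h2 : M = 1) (x : UU V m) : kk φ M hM x = x :=
  UU.ext' (h1 _) (h2 ▸ mv_one _)

theorem inner_kk_kk (φ : V →ₗᵢ[ℝ] V'') (M : Matrix m'' m ℂ) (hM : Mᴴ * M = 1) (φ' : V' →ₗᵢ[ℝ] V'')
    (M' : Matrix m'' m' ℂ) (hM' : M'ᴴ * M' = 1) (h1 : ∀ v w, inner ℝ (φ v) (φ' w) = 0)
    (h2 : Mᴴ * M' = 0) (x : UU V m) (y : UU V' m') :
    inner ℝ (kk φ M hM x) (kk φ' M' hM' y) = 0 := by
  rw [UU.inner_eq]
  change inner ℝ (φ x.fst) (φ' y.fst) + (inner ℂ (mv M x.snd) (mv M' y.snd)).re = 0
  rw [h1, inner_mv, h2]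
  simp [mv]

theorem inner_inl_kk (φ : V →ₗᵢ[ℝ] V') (M : Matrix m' m ℂ) (hM : Mᴴ * M = 1) {w : V'}
    (h : ∀ v, inner ℝ w (φ v) = 0) (x : UU V m) : inner ℝ (UU.inl m' w) (kk φ M hM x) = 0 := by
  rw [UU.inner_eq]
  change inner ℝ w (φ x.fst) + (inner ℂ 0 (mv M x.snd)).re = 0
  rw [h]
  simp

theorem continuous_kk {P : Type} [TopologicalSpace P] {φ : P → V →ₗᵢ[ℝ] V'}
    {M : P → Matrix m' m ℂ} (hM : ∀ p, (M p)ᴴ * M p = 1) (h1 : ∀ v, Continuous fun p => φ p v)
    (h2 : Continuous M) (x : UU V m) : Continuous fun p => kk (φ p) (M p) (hM p) x :=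
  (WithLp.prod_continuous_toLp 2 _ _).comp ((h1 _).prodMk
    ((PiLp.continuous_toLp 2 _).comp (h2.matrix_mulVec continuous_const)))

variable (V) in
/-- The creation element of a mode vector (complex linear). -/
def cre (w : EuclideanSpace ℂ m) : Cl (UU V m) :=
  (1 / 2 : ℂ) • (cl (UU.inr V w) - Complex.I • cl (UU.inr V (Complex.I • w)))

variable (V) in
/-- The annihilation element of a mode vector (conjugate linear). -/
def ann (w : EuclideanSpace ℂ m) : Cl (UU V m) :=
  (1 / 2 : ℂ) • (cl (UU.inr V w) + Complex.I • cl (UU.inr V (Complex.I • w)))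

theorem star_cre (w : EuclideanSpace ℂ m) : star (cre V w) = ann V w := by
  simp [cre, ann, star_cl]

theorem star_ann (w : EuclideanSpace ℂ m) : star (ann V w) = cre V w := by
  simp [cre, ann, star_cl, sub_eq_add_neg]

theorem cre_add_ann (w : EuclideanSpace ℂ m) : cre V w + ann V w = cl (UU.inr V w) := by
  rw [cre, ann]
  module

theorem cre_add (w w' : EuclideanSpace ℂ m) : cre V (w + w') = cre V w + cre V w' := by
  simp only [cre, smul_add, map_add, cl_add]
  module

theorem ann_add (w w' : EuclideanSpace ℂ m) : ann V (w + w') = ann V w + ann V w' := by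
  rw [← star_cre, cre_add, star_add, star_cre, star_cre]

theorem cre_smul (r : ℂ) (w : EuclideanSpace ℂ m) : cre V (r • w) = r • cre V w := by
  have h1 : r • w = r.re • w + r.im • Complex.I • w := by
    rw [← Complex.coe_smul, ← Complex.coe_smul, smul_smul, ← add_smul, Complex.re_add_im]
  have h2 : Complex.I • r • w = r.re • Complex.I • w - r.im • w := by
    rw [h1, smul_add, smul_comm _ r.re, smul_comm _ r.im, smul_smul Complex.I, Complex.I_mul_I,
      neg_one_smul, smul_neg, sub_eq_add_neg]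
  rw [cre, cre, h2, h1]
  simp only [map_add, map_sub, map_smul, cl_add, cl_sub, cl_smul]
  conv_rhs => rw [← Complex.re_add_im r]
  match_scalars
  · ring
  · linear_combination (r.im / 2 : ℂ) * Complex.I_mul_I

theorem ann_smul (r : ℂ) (w : EuclideanSpace ℂ m) : ann V (r • w) = conj r • ann V w := by
  rw [← star_cre, cre_smul, star_smul, star_cre]
  rfl

theorem cre_sum {κ : Type} (s : Finset κ) (w : κ → EuclideanSpace ℂ m) :
    cre V (∑ i ∈ s, w i) = ∑ i ∈ s, cre V (w i) :=
  map_sum (AddMonoidHom.mk' (cre V) cre_add) w s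

theorem ann_sum {κ : Type} (s : Finset κ) (w : κ → EuclideanSpace ℂ m) :
    ann V (∑ i ∈ s, w i) = ∑ i ∈ s, ann V (w i) :=
  map_sum (AddMonoidHom.mk' (ann V) ann_add) w s

omit [DecidableEq m] in
theorem kuu_car (s t : ℂ) (w w' : EuclideanSpace ℂ m) :
    (1 / 2 : ℂ) • (cl (UU.inr V w) + s • cl (UU.inr V (Complex.I • w))) *
      (1 / 2 : ℂ) • (cl (UU.inr V w') + t • cl (UU.inr V (Complex.I • w'))) +
    (1 / 2 : ℂ) • (cl (UU.inr V w') + t • cl (UU.inr V (Complex.I • w'))) *
      (1 / 2 : ℂ) • (cl (UU.inr V w) + s • cl (UU.inr V (Complex.I • w))) =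
    (((1 + s * t) * (inner ℂ w w').re + (s - t) * (inner ℂ w w').im) / 2) • (1 : Cl (UU V m)) := by
  have h := fun a b => eq_sub_of_add_eq' (cl_mul_add_swap (UU.inr V a) (UU.inr V b) (U := UU V m))
  simp only [mul_smul_comm, smul_mul_assoc, mul_add, add_mul, h w w', h w (Complex.I • w'),
    h (Complex.I • w) w', h (Complex.I • w) (Complex.I • w'), UU.inner_inr_inr, inner_smul_left,
    inner_smul_right]
  simp only [Complex.mul_re, Complex.mul_im, Complex.conj_I, Complex.neg_re, Complex.neg_im,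
    Complex.I_re, Complex.I_im]
  match_scalars <;> ring

theorem ann_cre (w w' : EuclideanSpace ℂ m) :
    ann V w * cre V w' + cre V w' * ann V w = inner ℂ w w' • (1 : Cl (UU V m)) := by
  rw [ann, cre, sub_eq_add_neg, ← neg_smul, kuu_car]
  congr 1
  linear_combination Complex.re_add_im (inner ℂ w w') - ((inner ℂ w w').re / 2 : ℂ) *
    Complex.I_mul_I

theorem cre_cre (w w' : EuclideanSpace ℂ m) : cre V w * cre V w' = -(cre V w' * cre V w) := by
  rw [eq_neg_iff_add_eq_zero, cre, cre, sub_eq_add_neg, sub_eq_add_neg, ← neg_smul, ← neg_smul,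
    kuu_car, ← zero_smul ℂ (1 : Cl (UU V m))]
  congr 1
  linear_combination ((inner ℂ w w').re / 2 : ℂ) * Complex.I_mul_I

theorem ann_ann (w w' : EuclideanSpace ℂ m) : ann V w * ann V w' = -(ann V w' * ann V w) := by
  rw [← star_cre, ← star_cre, ← star_mul, cre_cre, star_neg, star_mul]

theorem cre_mul_self (w : EuclideanSpace ℂ m) : cre V w * cre V w = 0 := by
  have h := eq_neg_iff_add_eq_zero.1 (cre_cre (V := V) w w)
  rw [← two_smul ℂ] at h
  exact (smul_eq_zero.1 h).resolve_left two_ne_zero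

theorem ann_mul_self (w : EuclideanSpace ℂ m) : ann V w * ann V w = 0 := by
  rw [← star_cre, ← star_mul, cre_mul_self, star_zero]

theorem cl_inl_cre (v : V) (w : EuclideanSpace ℂ m) :
    cl (UU.inl m v) * cre V w = -(cre V w * cl (UU.inl m v)) := by
  simp only [cre, mul_smul_comm, smul_mul_assoc, mul_sub, sub_mul,
    cl_anticomm (UU.inner_inl_inr v _)]
  module

theorem cl_inl_ann (v : V) (w : EuclideanSpace ℂ m) :
    cl (UU.inl m v) * ann V w = -(ann V w * cl (UU.inl m v)) := by
  simp only [ann, mul_smul_comm, smul_mul_assoc, mul_add, add_mul,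
    cl_anticomm (UU.inner_inl_inr v _)]
  module

theorem clMap_kk_cre (φ : V →ₗᵢ[ℝ] V') (M : Matrix m' m ℂ) (hM : Mᴴ * M = 1)
    (w : EuclideanSpace ℂ m) : clMap (kk φ M hM) (cre V w) = cre V' (mv M w) := by
  simp only [cre, map_smul, map_sub, clMap_cl, kk_inr, mv_smul]

theorem clMap_kk_ann (φ : V →ₗᵢ[ℝ] V') (M : Matrix m' m ℂ) (hM : Mᴴ * M = 1)
    (w : EuclideanSpace ℂ m) : clMap (kk φ M hM) (ann V w) = ann V' (mv M w) := by
  simp only [ann, map_smul, map_add, clMap_cl, kk_inr, mv_smul]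

theorem clMap_neg_cre {k : UU V m →ₗᵢ[ℝ] UU V m} (hk : ∀ x, k x = -x) (w : EuclideanSpace ℂ m) :
    clMap k (cre V w) = -cre V w := by
  simp only [cre, map_smul, map_sub, clMap_cl, hk, cl_neg]
  module

theorem clMap_neg_ann {k : UU V m →ₗᵢ[ℝ] UU V m} (hk : ∀ x, k x = -x) (w : EuclideanSpace ℂ m) :
    clMap k (ann V w) = -ann V w := by
  simp only [ann, map_smul, map_add, clMap_cl, hk, cl_neg]
  module

end Pool.Agent.Lib.E2
end
end

-- part Pool.Agent.Lib.MP_10be03_gt.KCar
section

/-!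
The projections onto the empty and onto the filled state of a subspace of modes.
-/

noncomputable section
open scoped Matrix ComplexConjugate Polynomial

namespace Pool.Agent.Lib.E2

variable {V V' m m' : Type} [NormedAddCommGroup V] [InnerProductSpace ℝ V]
  [NormedAddCommGroup V'] [InnerProductSpace ℝ V'] [Fintype m] [Fintype m'] [DecidableEq m]
  [DecidableEq m']

variable (V) in
/-- The number of particles in the range of `p`. -/
def num (p : Matrix m m ℂ) : Cl (UU V m) :=
  ∑ i, ∑ j, p i j • (cre V (EuclideanSpace.single i 1) * ann V (EuclideanSpace.single j 1))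

variable (V) in
/-- The number of holes in the range of `p`. -/
def hol (p : Matrix m m ℂ) : Cl (UU V m) :=
  ∑ i, ∑ j, p i j • (ann V (EuclideanSpace.single j 1) * cre V (EuclideanSpace.single i 1))

/-- The polynomial with value `1` at `0` and roots `1, ..., D`. -/
def kill (D : ℕ) : ℂ[X] :=
  ∏ j ∈ Finset.range D, (1 - Polynomial.C (1 / ((j : ℂ) + 1)) * Polynomial.X)

variable (V) in
/-- The projection onto the states that are empty on the range of `p` and filled on the range
of `q`. -/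
def pp (p q : Matrix m m ℂ) : Cl (UU V m) :=
  Polynomial.aeval (num V p) (kill (Fintype.card m)) *
    Polynomial.aeval (hol V q) (kill (Fintype.card m))

section gen

variable {A : Type} [Ring A] [Algebra ℂ A]

theorem kcar_semi {e x y : A} (h : SemiconjBy e x y) (P : ℂ[X]) :
    SemiconjBy e (Polynomial.aeval x P) (Polynomial.aeval y P) := by
  induction P using Polynomial.induction_on' with
  | add p q hp hq => simpa only [map_add] using hp.add_right hq
  | monomial n a =>
    rw [Polynomial.aeval_monomial, Polynomial.aeval_monomial]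
    exact SemiconjBy.mul_right (Algebra.commutes a e).symm (h.pow_right n)

theorem kcar_idem {n x : A} (hn : IsIdempotentElem n) (h : Commute n x) (P : ℂ[X]) :
    Polynomial.aeval (x + n) P =
      (1 - n) * Polynomial.aeval x P + n * Polynomial.aeval (x + 1) P := by
  have h1 : SemiconjBy (1 - n) x (x + n) := by
    rw [SemiconjBy, add_mul, hn.mul_one_sub_self, add_zero]
    exact ((Commute.one_left x).sub_left h).eq
  have h2 : SemiconjBy n (x + 1) (x + n) := by
    rw [SemiconjBy, add_mul, mul_add, hn.eq, mul_one, h.eq]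
  rw [(kcar_semi h1 P).eq, (kcar_semi h2 P).eq, ← mul_add, sub_add_cancel, mul_one]

theorem kcar_kill {ι : Type} (n : ι → A) (D : ℕ) (l : List ι)
    (h1 : ∀ i ∈ l, IsIdempotentElem (n i)) (h2 : l.Pairwise fun i j => Commute (n i) (n j))
    (s : ℕ) (hs : s + l.length ≤ D) : Polynomial.aeval ((l.map n).sum + s) (kill D) =
      if s = 0 then (l.map fun i => 1 - n i).prod else 0 := by
  induction l generalizing s with
  | nil =>
    rw [List.map_nil, List.sum_nil, zero_add, ← map_natCast (algebraMap ℂ A),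
      Polynomial.aeval_algebraMap_apply, kill, map_prod]
    split_ifs with h
    · simp [h]
    · obtain ⟨t, rfl⟩ := Nat.exists_eq_succ_of_ne_zero h
      rw [Finset.prod_eq_zero (Finset.mem_range.2 (show t < D from hs)), map_zero]
      have := Nat.cast_add_one_ne_zero (R := ℂ) t
      simp [inv_mul_cancel₀ this]
  | cons i l ih =>
    rw [List.pairwise_cons] at h2
    rw [List.length_cons] at hs
    have k1 := fun j hj => h1 j (List.mem_cons_of_mem i hj)
    have k2 : Commute (n i) ((l.map n).sum + s) :=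
      (Commute.list_sum_right _ _ (List.forall_mem_map.2 h2.1)).add_right (Nat.commute_cast _ s)
    rw [List.map_cons, List.sum_cons, add_assoc, add_comm, kcar_idem (h1 i List.mem_cons_self) k2,
      add_assoc, ← Nat.cast_succ, ih k1 h2.2 s (by omega), ih k1 h2.2 _ (by omega),
      if_neg s.succ_ne_zero, mul_zero, add_zero, mul_ite, mul_zero, List.map_cons, List.prod_cons]

omit [Algebra ℂ A] in
theorem kcar_ac {a b x : A} (ha : a * x = -(x * a)) (hb : b * x = -(x * b)) :
    Commute (a * b) x := by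
  rw [Commute, SemiconjBy, mul_assoc, hb, mul_neg, ← mul_assoc, ha, neg_mul, neg_neg, mul_assoc]

omit [Algebra ℂ A] in
theorem kcar_proj [StarRing A] {ι : Type} (n : ι → A) (l : List ι)
    (h1 : ∀ i ∈ l, IsStarProjection (n i)) (h2 : l.Pairwise fun i j => Commute (n i) (n j)) :
    IsStarProjection (l.map n).prod := by
  induction l with
  | nil => exact IsStarProjection.one _
  | cons i l ih =>
    rw [List.pairwise_cons] at h2
    rw [List.map_cons, List.prod_cons]
    exact (h1 i List.mem_cons_self).mul (ih (fun j hj => h1 j (List.mem_cons_of_mem i hj)) h2.2)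
      (Commute.list_prod_right _ _ (List.forall_mem_map.2 h2.1))

omit [Algebra ℂ A] in
theorem kcar_comm {ι : Type} {n n' : ι → A} {l l' : List ι}
    (h : ∀ i ∈ l, ∀ j ∈ l', Commute (n i) (n' j)) : Commute (l.map n).prod (l'.map n').prod :=
  Commute.list_prod_left _ _ (List.forall_mem_map.2 fun i hi =>
    Commute.list_prod_right _ _ (List.forall_mem_map.2 (h i hi)))

end gen

theorem kcar_orth {f g : EuclideanSpace ℂ m} (h : inner ℂ f g = 0) :
    (Commute (cre V f * ann V f) (cre V g) ∧ Commute (cre V f * ann V f) (ann V g)) ∧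
      Commute (ann V f * cre V f) (cre V g) ∧ Commute (ann V f * cre V f) (ann V g) := by
  have h1 := ann_cre (V := V) f g
  have h2 := ann_cre (V := V) g f
  rw [h, zero_smul] at h1
  rw [inner_eq_zero_symm.1 h, zero_smul] at h2
  have h3 := eq_neg_of_add_eq_zero_left h1
  have h4 := eq_neg_of_add_eq_zero_right h2
  exact ⟨⟨kcar_ac (cre_cre f g) h3, kcar_ac h4 (ann_ann f g)⟩, kcar_ac h3 (cre_cre f g),
    kcar_ac (ann_ann f g) h4⟩

theorem kcar_hole {f : EuclideanSpace ℂ m} (h : inner ℂ f f = 1) :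
    ann V f * cre V f = 1 - cre V f * ann V f := by
  rw [eq_sub_iff_add_eq, ann_cre, h, one_smul]

theorem kcar_num_proj {f : EuclideanSpace ℂ m} (h : inner ℂ f f = 1) :
    IsStarProjection (cre V f * ann V f) := by
  refine ⟨?_, ?_⟩
  · rw [IsIdempotentElem, mul_assoc, ← mul_assoc (ann V f), kcar_hole h, sub_mul, one_mul,
      mul_assoc, ann_mul_self, mul_zero, sub_zero]
  · rw [IsSelfAdjoint, star_mul, star_ann, star_cre]

theorem kcar_hol_proj {f : EuclideanSpace ℂ m} (h : inner ℂ f f = 1) :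
    IsStarProjection (ann V f * cre V f) := by
  rw [kcar_hole h]
  exact (kcar_num_proj h).one_sub

theorem kcar_list (l : List (EuclideanSpace ℂ m)) :
    num V (l.map fun f => Matrix.vecMulVec (WithLp.ofLp f) (star (WithLp.ofLp f))).sum =
        (l.map fun f => cre V f * ann V f).sum ∧
      hol V (l.map fun f => Matrix.vecMulVec (WithLp.ofLp f) (star (WithLp.ofLp f))).sum =
        (l.map fun f => ann V f * cre V f).sum := by
  induction l with
  | nil => simp [num, hol]
  | cons f l ih =>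
    have h1 : f = ∑ i, f i • EuclideanSpace.single i (1 : ℂ) := by
      simpa using ((EuclideanSpace.basisFun m ℂ).sum_repr f).symm
    have h2 : cre V f = ∑ i, f i • cre V (EuclideanSpace.single i 1) := by
      conv_lhs => rw [h1, cre_sum]
      simp only [cre_smul]
    have h3 : ann V f = ∑ i, conj (f i) • ann V (EuclideanSpace.single i 1) := by
      conv_lhs => rw [h1, ann_sum]
      simp only [ann_smul]
    simp only [List.map_cons, List.sum_cons, ← ih.1, ← ih.2, num, hol, Matrix.add_apply, add_smul,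
      Finset.sum_add_distrib, add_left_inj]
    rw [h2, h3, Finset.sum_mul_sum, Finset.sum_mul_sum, Finset.sum_comm (γ := m) (f := fun j i =>
      (conj (f j) • ann V (EuclideanSpace.single j 1)) * (f i • cre V (EuclideanSpace.single i 1)))]
    simp only [smul_mul_smul_comm, mul_comm (conj _)]
    exact ⟨rfl, rfl⟩

omit [Fintype m'] [DecidableEq m] [DecidableEq m'] in
theorem kcar_mv_zero (w : EuclideanSpace ℂ m) : mv (0 : Matrix m' m ℂ) w = 0 := by
  simp [mv]

theorem kcar_inner {p : Matrix m m ℂ} (hp : IsStarProjection p) {f w : EuclideanSpace ℂ m}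
    (hf : p *ᵥ WithLp.ofLp f = WithLp.ofLp f) (hw : mv p w = 0) : inner ℂ f w = 0 := by
  have h1 : mv p f = f := congrArg (WithLp.toLp 2) hf
  have h2 := inner_mv p 1 f w
  rwa [h1, mv_one, mul_one, show pᴴ = p from hp.isSelfAdjoint, hw, inner_zero_right] at h2

theorem kcar_inner' {p q : Matrix m m ℂ} (hp : IsStarProjection p) (h : p * q = 0)
    {f g : EuclideanSpace ℂ m} (hf : p *ᵥ WithLp.ofLp f = WithLp.ofLp f)
    (hg : q *ᵥ WithLp.ofLp g = WithLp.ofLp g) : inner ℂ f g = 0 := by
  have h1 : mv q g = g := congrArg (WithLp.toLp 2) hg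
  exact kcar_inner hp hf (by rw [← h1, mv_mv, h, kcar_mv_zero])

theorem continuous_pp [FiniteDimensional ℝ V] :
    Continuous fun x : Matrix m m ℂ × Matrix m m ℂ => pp V x.1 x.2 := by
  have : ContinuousMul (Cl (UU V m)) := ⟨by
    let L : Cl (UU V m) →ₗ[ℂ] Cl (UU V m) →L[ℂ] Cl (UU V m) :=
      (LinearMap.toContinuousLinearMap (𝕜 := ℂ)).toLinearMap.comp (LinearMap.mul ℂ (Cl (UU V m)))
    exact (L.continuous_of_finiteDimensional.comp continuous_fst).clm_apply continuous_snd⟩
  have : IsTopologicalSemiring (Cl (UU V m)) := {}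
  have h : ∀ c : m → m → Cl (UU V m), Continuous fun p : Matrix m m ℂ => ∑ i, ∑ j, p i j • c i j :=
    fun c => continuous_finsetSum _ fun i _ => continuous_finsetSum _ fun j _ =>
      (continuous_apply_apply i j).smul continuous_const
  exact ((Polynomial.continuous_aeval _).comp ((h _).comp continuous_fst)).mul
    ((Polynomial.continuous_aeval _).comp ((h _).comp continuous_snd))

theorem pp_zero : pp V (0 : Matrix m m ℂ) 0 = 1 := by
  have h := kcar_kill (A := Cl (UU V m)) id (Fintype.card m) [] (by simp) List.Pairwise.nil 0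
    (by simp)
  simp only [List.map_nil, List.sum_nil, Nat.cast_zero, add_zero, if_true, List.prod_nil] at h
  simp only [pp, num, hol, Matrix.zero_apply, zero_smul, Finset.sum_const_zero, h, mul_one]

/-- The list formula. -/
theorem pp_eq_list (l l' : List (EuclideanSpace ℂ m)) (h1 : ∀ f ∈ l, inner ℂ f f = 1)
    (h2 : l.Pairwise fun f g => inner ℂ f g = 0) (h1' : ∀ f ∈ l', inner ℂ f f = 1)
    (h2' : l'.Pairwise fun f g => inner ℂ f g = 0) :
    pp V (l.map fun f => Matrix.vecMulVec (WithLp.ofLp f) (star (WithLp.ofLp f))).sum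
        (l'.map fun f => Matrix.vecMulVec (WithLp.ofLp f) (star (WithLp.ofLp f))).sum =
      (l.map fun f => ann V f * cre V f).prod * (l'.map fun f => cre V f * ann V f).prod := by
  have k1 := kcar_kill (fun f => cre V f * ann V f) (Fintype.card m) l
    (fun f hf => (kcar_num_proj (h1 f hf)).isIdempotentElem)
    (h2.imp fun h => (kcar_orth h).1.1.mul_right (kcar_orth h).1.2) 0
    (by simpa using length_le_of_on h1 h2)
  have k2 := kcar_kill (fun f => ann V f * cre V f) (Fintype.card m) l'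
    (fun f hf => (kcar_hol_proj (h1' f hf)).isIdempotentElem)
    (h2'.imp fun h => (kcar_orth h).2.2.mul_right (kcar_orth h).2.1) 0
    (by simpa using length_le_of_on h1' h2')
  rw [Nat.cast_zero, add_zero, if_pos rfl] at k1 k2
  rw [pp, (kcar_list l).1, (kcar_list l').2, k1, k2,
    List.map_congr_left fun f hf => (kcar_hole (V := V) (h1 f hf)).symm,
    List.map_congr_left (l := l') (g := fun f => cre V f * ann V f) fun f hf => by
      rw [kcar_hole (h1' f hf), sub_sub_cancel]]

variable {p q p' q' : Matrix m m ℂ}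

theorem isStarProjection_pp (hp : IsStarProjection p) (hq : IsStarProjection q) (h : p * q = 0) :
    IsStarProjection (pp V p q) := by
  obtain ⟨l, a1, a2, a3, -, a5⟩ := exists_on_list hp
  obtain ⟨k, b1, b2, b3, -, b5⟩ := exists_on_list hq
  rw [a5, b5, pp_eq_list l k a1 a2 b1 b2]
  refine (kcar_proj _ l (fun f hf => kcar_hol_proj (a1 f hf))
    (a2.imp fun h => (kcar_orth h).2.2.mul_right (kcar_orth h).2.1)).mul
    (kcar_proj _ k (fun f hf => kcar_num_proj (b1 f hf))
      (b2.imp fun h => (kcar_orth h).1.1.mul_right (kcar_orth h).1.2))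
    (kcar_comm fun f hf g hg => ?_)
  have h1 := kcar_orth (V := V) (kcar_inner' hp h (a3 f hf) (b3 g hg))
  exact h1.2.1.mul_right h1.2.2

theorem clMap_neg_pp {k : UU V m →ₗᵢ[ℝ] UU V m} (hk : ∀ x, k x = -x) (p q : Matrix m m ℂ) :
    clMap k (pp V p q) = pp V p q := by
  rw [pp, map_mul, ← Polynomial.aeval_algHom_apply, ← Polynomial.aeval_algHom_apply]
  simp only [num, hol, map_sum, map_smul, map_mul, clMap_neg_cre hk, clMap_neg_ann hk, neg_mul_neg]

theorem pp_add (hp : IsStarProjection p) (hq : IsStarProjection q) (hp' : IsStarProjection p')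
    (hq' : IsStarProjection q') (h1 : p * p' = 0) (h2 : q * q' = 0) (h3 : q * p' = 0) :
    pp V (p + p') (q + q') = pp V p q * pp V p' q' := by
  obtain ⟨l, a1, a2, a3, -, a5⟩ := exists_on_list hp
  obtain ⟨k, b1, b2, b3, -, b5⟩ := exists_on_list hq
  obtain ⟨l', c1, c2, c3, -, c5⟩ := exists_on_list hp'
  obtain ⟨k', d1, d2, d3, -, d5⟩ := exists_on_list hq'
  have e1 := pp_eq_list (V := V) (l ++ l') (k ++ k') (List.forall_mem_append.2 ⟨a1, c1⟩)
    (List.pairwise_append.2 ⟨a2, c2, fun f hf g hg => kcar_inner' hp h1 (a3 f hf) (c3 g hg)⟩)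
    (List.forall_mem_append.2 ⟨b1, d1⟩)
    (List.pairwise_append.2 ⟨b2, d2, fun f hf g hg => kcar_inner' hq h2 (b3 f hf) (d3 g hg)⟩)
  have e2 := pp_eq_list (V := V) l k a1 a2 b1 b2
  have e3 := pp_eq_list (V := V) l' k' c1 c2 d1 d2
  have e4 : Commute (k.map fun f => cre V f * ann V f).prod
      (l'.map fun f => ann V f * cre V f).prod := kcar_comm fun f hf g hg => by
    have h4 := kcar_orth (V := V) (kcar_inner' hq h3 (b3 f hf) (c3 g hg))
    exact h4.1.2.mul_right h4.1.1
  simp only [List.map_append, List.sum_append, List.prod_append] at e1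
  rw [← a5, ← b5] at e1 e2
  rw [← c5, ← d5] at e1 e3
  rw [e1, e2, e3, e4.mul_mul_mul_comm]

theorem clMap_kk_pp (φ : V →ₗᵢ[ℝ] V') (M : Matrix m' m ℂ) (hM : Mᴴ * M = 1)
    (hp : IsStarProjection p) (hq : IsStarProjection q) :
    clMap (kk φ M hM) (pp V p q) = pp V' (M * p * Mᴴ) (M * q * Mᴴ) := by
  obtain ⟨l, a1, a2, -, -, a5⟩ := exists_on_list hp
  obtain ⟨k, b1, b2, -, -, b5⟩ := exists_on_list hq
  have h1 : ∀ f g, inner ℂ (mv M f) (mv M g) = inner ℂ f g := fun f g => by
    rw [inner_mv, hM, mv_one]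
  have h2 : ∀ l : List (EuclideanSpace ℂ m),
      M * (l.map fun f => Matrix.vecMulVec (WithLp.ofLp f) (star (WithLp.ofLp f))).sum * Mᴴ =
        ((l.map (mv M)).map fun f =>
          Matrix.vecMulVec (WithLp.ofLp f) (star (WithLp.ofLp f))).sum := fun l => by
    induction l with
    | nil => simp
    | cons f l ih =>
      simp only [List.map_cons, List.sum_cons, Matrix.mul_add, Matrix.add_mul, ih]
      rw [Matrix.mul_vecMulVec, Matrix.vecMulVec_mul, ← Matrix.star_mulVec]
      rfl
  rw [a5, b5, h2, h2, pp_eq_list l k a1 a2 b1 b2, pp_eq_list _ _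
    (List.forall_mem_map.2 fun f hf => (h1 f f).trans (a1 f hf))
    (List.pairwise_map.2 (a2.imp fun h => (h1 _ _).trans h))
    (List.forall_mem_map.2 fun f hf => (h1 f f).trans (b1 f hf))
    (List.pairwise_map.2 (b2.imp fun h => (h1 _ _).trans h))]
  simp only [map_mul, map_list_prod, List.map_map, Function.comp_def, clMap_kk_cre, clMap_kk_ann]

theorem commute_pp_inl (p q : Matrix m m ℂ) (v : V) : Commute (pp V p q) (cl (UU.inl m v)) := by
  have h1 : ∀ w, cre V w * cl (UU.inl m v) = -(cl (UU.inl m v) * cre V w) := fun w => by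
    rw [cl_inl_cre, neg_neg]
  have h2 : ∀ w, ann V w * cl (UU.inl m v) = -(cl (UU.inl m v) * ann V w) := fun w => by
    rw [cl_inl_ann, neg_neg]
  refine Commute.symm (Commute.mul_right (kcar_semi ?_ _) (kcar_semi ?_ _))
  · exact Commute.sum_right _ _ _ fun i _ => Commute.sum_right _ _ _ fun j _ =>
      (kcar_ac (h1 _) (h2 _)).symm.smul_right _
  · exact Commute.sum_right _ _ _ fun i _ => Commute.sum_right _ _ _ fun j _ =>
      (kcar_ac (h2 _) (h1 _)).symm.smul_right _

theorem commute_pp_inr (hp : IsStarProjection p) (hq : IsStarProjection q)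
    {w : EuclideanSpace ℂ m} (h1 : mv p w = 0) (h2 : mv q w = 0) :
    Commute (pp V p q) (cl (UU.inr V w)) := by
  obtain ⟨l, a1, a2, a3, -, a5⟩ := exists_on_list hp
  obtain ⟨k, b1, b2, b3, -, b5⟩ := exists_on_list hq
  rw [a5, b5, pp_eq_list l k a1 a2 b1 b2, ← cre_add_ann]
  refine Commute.mul_left (Commute.list_prod_left _ _ (List.forall_mem_map.2 fun f hf => ?_))
    (Commute.list_prod_left _ _ (List.forall_mem_map.2 fun f hf => ?_))
  · have h := kcar_orth (V := V) (kcar_inner hp (a3 f hf) h1)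
    exact h.2.1.add_right h.2.2
  · have h := kcar_orth (V := V) (kcar_inner hq (b3 f hf) h2)
    exact h.1.1.add_right h.1.2

theorem commute_pp_clMap (φ : V' →ₗᵢ[ℝ] V) (M : Matrix m m' ℂ) (hM : Mᴴ * M = 1)
    (hp : IsStarProjection p) (hq : IsStarProjection q) (h1 : p * M = 0) (h2 : q * M = 0)
    (c : Cl (UU V' m')) : Commute (pp V p q) (clMap (kk φ M hM) c) := by
  refine (commute_clMap (fun x => ?_) c).symm
  rw [← UU.inl_add_inr x, map_add, kk_inl, kk_inr, cl_add]
  exact ((commute_pp_inl p q _).add_right (commute_pp_inr hp hq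
    (by rw [mv_mv, h1, kcar_mv_zero]) (by rw [mv_mv, h2, kcar_mv_zero]))).symm

end Pool.Agent.Lib.E2
end
end

-- part Pool.Agent.Lib.MP_10be03_gt.KMat
section

/-!
Matrix units of the fermionic modes.
-/

noncomputable section
open scoped Matrix ComplexConjugate

namespace Pool.Agent.Lib.E2

variable {V V' m : Type} [NormedAddCommGroup V] [InnerProductSpace ℝ V]
  [NormedAddCommGroup V'] [InnerProductSpace ℝ V'] [Fintype m] [DecidableEq m]

variable (V) in
/-- The projection onto the state in which exactly the modes in `J` are filled. -/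
def pJ (J : Finset m) : Cl (UU V m) := pp V (dgm Jᶜ) (dgm J)

variable (V) in
/-- The operator from the empty state to the state `J`. -/
def mJ (J : Finset m) : Cl (UU V m) :=
  (J.toList.map fun j => cre V (EuclideanSpace.single j 1)).prod * pJ V ∅

variable (V) in
/-- The second quantisation of a diagonal matrix. -/
def gamD (u : m → ℂ) : Cl (UU V m) := ∑ J : Finset m, (∏ j ∈ J, u j) • pJ V J

variable (V) in
/-- The creation element of a coordinate mode. -/
abbrev kmC (j : m) : Cl (UU V m) := cre V (EuclideanSpace.single j 1)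

variable (V) in
/-- The annihilation element of a coordinate mode. -/
abbrev kmA (j : m) : Cl (UU V m) := ann V (EuclideanSpace.single j 1)

theorem km_inner (j : m) :
    inner ℂ (EuclideanSpace.single j (1 : ℂ)) (EuclideanSpace.single j (1 : ℂ)) = 1 := by
  simp

theorem km_car (j : m) : kmA V j * kmC V j + kmC V j * kmA V j = 1 := by
  rw [ann_cre, km_inner, one_smul]

omit [Fintype m] in
theorem km_vec (j : m) : Matrix.vecMulVec (WithLp.ofLp (EuclideanSpace.single j (1 : ℂ)))
    (star (WithLp.ofLp (EuclideanSpace.single j (1 : ℂ)))) = dgm {j} := by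
  ext a b
  by_cases ha : a = j <;> by_cases hb : b = j <;>
    simp [dgm, Matrix.vecMulVec_apply, Matrix.diagonal_apply, ha, hb, Ne.symm]

theorem km_left (j : m) : pp V (dgm {j}) (dgm ∅) = kmA V j * kmC V j := by
  have e := pp_eq_list (V := V) [EuclideanSpace.single j (1 : ℂ)] [] (by simp) (by simp) (by simp)
    (by simp)
  simpa only [List.map_cons, List.map_nil, List.sum_cons, List.sum_nil, List.prod_cons,
    List.prod_nil, add_zero, mul_one, km_vec, dgm_empty] using e

theorem km_right (j : m) : pp V (dgm ∅) (dgm {j}) = kmC V j * kmA V j := by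
  have e := pp_eq_list (V := V) [] [EuclideanSpace.single j (1 : ℂ)] (by simp) (by simp) (by simp)
    (by simp)
  simpa only [List.map_cons, List.map_nil, List.sum_cons, List.sum_nil, List.prod_cons,
    List.prod_nil, add_zero, mul_one, one_mul, km_vec, dgm_empty] using e

theorem km_dgm_mul {Z Z' : Finset m} (h : Disjoint Z Z') : dgm Z * dgm Z' = 0 := by
  rw [dgm_mul, Finset.disjoint_iff_inter_eq_empty.1 h, dgm_empty]

theorem km_union {Z Z' W W' : Finset m} (h1 : Disjoint Z W) (h2 : Disjoint Z' W')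
    (h3 : Disjoint Z' W) :
    pp V (dgm (Z ∪ W)) (dgm (Z' ∪ W')) = pp V (dgm Z) (dgm Z') * pp V (dgm W) (dgm W') := by
  rw [dgm_union h1, dgm_union h2]
  exact pp_add (isStarProjection_dgm _) (isStarProjection_dgm _) (isStarProjection_dgm _)
    (isStarProjection_dgm _) (km_dgm_mul h1) (km_dgm_mul h2) (km_dgm_mul h3)

theorem km_insert_left {Z : Finset m} (Z' : Finset m) {j : m} (h : j ∉ Z) :
    pp V (dgm (insert j Z)) (dgm Z') = kmA V j * kmC V j * pp V (dgm Z) (dgm Z') := by
  rw [← km_left, ← km_union (by simpa using h) (by simp) (by simp), Finset.empty_union,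
    Finset.insert_eq]

theorem km_insert_right {Z Z' : Finset m} {j : m} (h : j ∉ Z) (h' : j ∉ Z') :
    pp V (dgm Z) (dgm (insert j Z')) = kmC V j * kmA V j * pp V (dgm Z) (dgm Z') := by
  rw [← km_right, ← km_union (by simp) (by simpa using h') (by simpa using h), Finset.empty_union,
    Finset.insert_eq]

theorem km_mv_diag (u : m → ℂ) (j : m) :
    mv (Matrix.diagonal u) (EuclideanSpace.single j (1 : ℂ)) = u j • EuclideanSpace.single j 1 := by
  ext a
  by_cases ha : a = j <;> simp [mv, ha]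

theorem km_mv_dgm {Z : Finset m} {j : m} (h : j ∉ Z) (r : ℂ) :
    mv (dgm Z) (r • EuclideanSpace.single j (1 : ℂ)) = 0 := by
  rw [mv_smul, dgm, km_mv_diag, if_neg h, zero_smul, smul_zero]

theorem km_comm {Z Z' : Finset m} {j : m} (h : j ∉ Z) (h' : j ∉ Z') :
    Commute (pp V (dgm Z) (dgm Z')) (kmC V j) ∧ Commute (pp V (dgm Z) (dgm Z')) (kmA V j) := by
  have k : ∀ r : ℂ, Commute (pp V (dgm Z) (dgm Z'))
      (cl (UU.inr V (r • EuclideanSpace.single j (1 : ℂ)))) := fun r =>
    commute_pp_inr (isStarProjection_dgm _) (isStarProjection_dgm _) (km_mv_dgm h r)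
      (km_mv_dgm h' r)
  have k1 := k 1
  rw [one_smul] at k1
  exact ⟨(k1.sub_right ((k _).smul_right _)).smul_right _,
    (k1.add_right ((k _).smul_right _)).smul_right _⟩

theorem km_split {J : Finset m} {j : m} (h : j ∉ J) : ∃ Q : Cl (UU V m),
    Commute Q (kmC V j) ∧ Commute Q (kmA V j) ∧ pJ V J = kmA V j * kmC V j * Q ∧
      pJ V (insert j J) = kmC V j * kmA V j * Q := by
  have h1 : j ∉ (insert j J)ᶜ := by simp
  refine ⟨pp V (dgm (insert j J)ᶜ) (dgm J), (km_comm h1 h).1, (km_comm h1 h).2, ?_,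
    km_insert_right h1 h⟩
  rw [← km_insert_left _ h1, pJ, Finset.insert_compl_insert h]

theorem km_A_pJ {J : Finset m} {j : m} (h : j ∉ J) : kmA V j * pJ V J = 0 := by
  obtain ⟨Q, -, -, e, -⟩ := km_split (V := V) h
  rw [e, ← mul_assoc, ← mul_assoc, ann_mul_self, zero_mul, zero_mul]

theorem km_C_pJ {J : Finset m} {j : m} (h : j ∈ J) : kmC V j * pJ V J = 0 := by
  obtain ⟨Q, -, -, -, e⟩ := km_split (V := V) (J.notMem_erase j)
  rw [Finset.insert_erase h] at e
  rw [e, ← mul_assoc, ← mul_assoc, cre_mul_self, zero_mul, zero_mul]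

theorem km_pJ_A {J : Finset m} {j : m} (h : j ∈ J) : pJ V J * kmA V j = 0 := by
  obtain ⟨Q, -, k, -, e⟩ := km_split (V := V) (J.notMem_erase j)
  rw [Finset.insert_erase h] at e
  rw [e, mul_assoc, k.eq, mul_assoc, ← mul_assoc (kmA V j), ann_mul_self, zero_mul, mul_zero]

theorem km_C_ins {J : Finset m} {j : m} (h : j ∉ J) :
    kmC V j * pJ V J = pJ V (insert j J) * kmC V j := by
  obtain ⟨Q, k, -, e, e'⟩ := km_split (V := V) h
  rw [e, e', mul_assoc _ Q, k.eq]
  simp only [mul_assoc]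

theorem km_A_ins {J : Finset m} {j : m} (h : j ∉ J) :
    kmA V j * pJ V (insert j J) = pJ V J * kmA V j := by
  obtain ⟨Q, -, k, e, e'⟩ := km_split (V := V) h
  rw [e, e', mul_assoc _ Q, k.eq]
  simp only [mul_assoc]

theorem isStarProjection_pJ (J : Finset m) : IsStarProjection (pJ V J) :=
  isStarProjection_pp (isStarProjection_dgm _) (isStarProjection_dgm _)
    (km_dgm_mul disjoint_compl_left)

theorem pJ_mul_pJ (I J : Finset m) : pJ V I * pJ V J = if I = J then pJ V J else 0 := by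
  split_ifs with h
  · rw [h]; exact (isStarProjection_pJ J).isIdempotentElem.eq
  · rw [Finset.ext_iff] at h
    push Not at h
    obtain ⟨j, ⟨h1, h2⟩ | ⟨h1, h2⟩⟩ := h
    · obtain ⟨Q, -, k, -, e⟩ := km_split (V := V) (I.notMem_erase j)
      rw [Finset.insert_erase h1] at e
      rw [e, mul_assoc (kmC V j), ← k.eq, mul_assoc, mul_assoc, km_A_pJ h2, mul_zero, mul_zero]
    · obtain ⟨Q, k, -, e, -⟩ := km_split (V := V) h1
      rw [e, mul_assoc (kmA V j), ← k.eq, mul_assoc, mul_assoc, km_C_pJ h2, mul_zero, mul_zero]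

theorem km_pp_dgm (S : Finset m) : ∀ Z Z' : Finset m, Disjoint Z Z' → (Z ∪ Z')ᶜ = S →
    pp V (dgm Z) (dgm Z') =
      ∑ J ∈ Finset.univ.filter fun J : Finset m => Z' ⊆ J ∧ Disjoint J Z, pJ V J := by
  induction S using Finset.induction_on with
  | empty =>
    intro Z Z' h e
    have hc : IsCompl Z' Z :=
      ⟨h.symm, codisjoint_iff.2 (by rw [sup_comm]; exact Finset.compl_eq_empty_iff _ |>.1 e)⟩
    rw [Finset.sum_eq_single_of_mem Z' (by simpa using h.symm), pJ, hc.compl_eq]
    intro J hJ hne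
    simp only [Finset.mem_filter, Finset.mem_univ, true_and] at hJ
    exact absurd (le_antisymm (hc.symm.compl_eq ▸ le_compl_iff_disjoint_right.2 hJ.2) hJ.1) hne
  | insert j S hj ih =>
    intro Z Z' h e
    have hm : j ∈ (Z ∪ Z')ᶜ := e ▸ Finset.mem_insert_self j S
    simp only [Finset.mem_compl, Finset.mem_union, not_or] at hm
    have e1 : (insert j Z ∪ Z')ᶜ = S := by
      rw [Finset.insert_union, Finset.compl_insert, e, Finset.erase_insert hj]
    have e2 : (Z ∪ insert j Z')ᶜ = S := by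
      rw [Finset.union_insert, Finset.compl_insert, e, Finset.erase_insert hj]
    have e3 : pp V (dgm Z) (dgm Z') =
        pp V (dgm Z) (dgm (insert j Z')) + pp V (dgm (insert j Z)) (dgm Z') := by
      rw [km_insert_left _ hm.1, km_insert_right hm.1 hm.2, ← add_mul, add_comm, km_car, one_mul]
    rw [e3, ih _ _ (Finset.disjoint_insert_left.2 ⟨hm.2, h⟩) e1,
      ih _ _ (Finset.disjoint_insert_right.2 ⟨hm.1, h⟩) e2,
      ← Finset.sum_filter_add_sum_filter_not (Finset.univ.filter fun J : Finset m =>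
        Z' ⊆ J ∧ Disjoint J Z) (fun J => j ∈ J), Finset.filter_filter, Finset.filter_filter]
    congr 2 <;> ext J <;> simp [Finset.insert_subset_iff] <;> tauto

theorem sum_pJ : ∑ J : Finset m, pJ V J = 1 := by
  have e := km_pp_dgm (V := V) (Finset.univ : Finset m) ∅ ∅ (by simp) (by simp)
  rw [dgm_empty, pp_zero] at e
  rw [e]
  simp

theorem pp_dgm {Z Z' : Finset m} (h : Disjoint Z Z') : pp V (dgm Z) (dgm Z') =
    ∑ J ∈ Finset.univ.filter fun J : Finset m => Z' ⊆ J ∧ Disjoint J Z, pJ V J :=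
  km_pp_dgm _ Z Z' h rfl

variable (V) in
/-- The operator that fills the modes of a list. -/
def kmL (l : List m) : Cl (UU V m) := (l.map fun j => kmC V j).prod * pJ V ∅

theorem kmL_toList (J : Finset m) : kmL V J.toList = mJ V J := rfl

theorem kmL_nil : kmL V ([] : List m) = pJ V ∅ := one_mul _

theorem kmL_cons (j : m) (l : List m) : kmL V (j :: l) = kmC V j * kmL V l := by
  rw [kmL, kmL, List.map_cons, List.prod_cons, mul_assoc]

theorem km_list (l : List m) (h : l.Nodup) : pJ V l.toFinset * kmL V l = kmL V l ∧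
    star (kmL V l) * kmL V l = pJ V ∅ ∧ kmL V l * star (kmL V l) = pJ V l.toFinset := by
  induction l with
  | nil =>
    have e := (isStarProjection_pJ (V := V) (∅ : Finset m)).isIdempotentElem.eq
    rw [kmL_nil, (isStarProjection_pJ _).isSelfAdjoint.star_eq]
    exact ⟨e, e, e⟩
  | cons j l ih =>
    obtain ⟨h1, h2⟩ := List.nodup_cons.1 h
    obtain ⟨a, b, c⟩ := ih h2
    have h3 : j ∉ l.toFinset := by simpa using h1
    rw [kmL_cons, List.toFinset_cons, star_mul, star_cre]
    refine ⟨by rw [← mul_assoc, ← km_C_ins h3, mul_assoc, a], ?_, ?_⟩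
    · have e : kmA V j * kmL V l = 0 := by rw [← a, ← mul_assoc, km_A_pJ h3, zero_mul]
      rw [mul_assoc, ← mul_assoc (kmA V j), eq_sub_of_add_eq (km_car j), sub_mul, one_mul,
        mul_assoc, e, mul_zero, sub_zero, b]
    · rw [mul_assoc, ← mul_assoc (kmL V l), c, ← mul_assoc, km_C_ins h3, mul_assoc,
        eq_sub_of_add_eq' (km_car j), mul_sub, mul_one, ← mul_assoc,
        km_pJ_A (Finset.mem_insert_self _ _), zero_mul, sub_zero]

theorem star_mJ_mul (I J : Finset m) :
    star (mJ V I) * mJ V J = if I = J then pJ V ∅ else 0 := by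
  split_ifs with h
  · rw [h]; exact (km_list J.toList J.nodup_toList).2.1
  · have e1 : pJ V J * mJ V J = mJ V J := by
      simpa only [Finset.toList_toFinset, kmL_toList] using (km_list J.toList J.nodup_toList).1
    have e2 : pJ V I * mJ V I = mJ V I := by
      simpa only [Finset.toList_toFinset, kmL_toList] using (km_list I.toList I.nodup_toList).1
    rw [← e1, ← e2, star_mul, (isStarProjection_pJ I).isSelfAdjoint.star_eq, mul_assoc,
      ← mul_assoc (pJ V I), pJ_mul_pJ, if_neg h, zero_mul, mul_zero]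

theorem mJ_mul_star (J : Finset m) : mJ V J * star (mJ V J) = pJ V J := by
  simpa only [Finset.toList_toFinset, kmL_toList] using (km_list J.toList J.nodup_toList).2.2

theorem pJ_mul_mJ (J : Finset m) : pJ V J * mJ V J = mJ V J := by
  simpa only [Finset.toList_toFinset, kmL_toList] using (km_list J.toList J.nodup_toList).1

theorem mJ_mul_pJ (J : Finset m) : mJ V J * pJ V ∅ = mJ V J := by
  rw [mJ, mul_assoc, (isStarProjection_pJ _).isIdempotentElem.eq]

theorem pJ_ne_zero [FiniteDimensional ℝ V] (J : Finset m) : pJ V J ≠ 0 := fun h => by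
  have e : pJ V (∅ : Finset m) = 0 := by
    have e1 := star_mJ_mul (V := V) J J
    rw [if_pos rfl, ← pJ_mul_mJ J, h, zero_mul, mul_zero] at e1
    exact e1.symm
  refine one_ne_zero (α := Cl (UU V m)) ?_
  rw [← sum_pJ]
  exact Finset.sum_eq_zero fun I _ => by rw [← mJ_mul_star, ← mJ_mul_pJ, e, mul_zero, zero_mul]

theorem clMap_neg_mJ {k : UU V m →ₗᵢ[ℝ] UU V m} (hk : ∀ x, k x = -x) (J : Finset m) :
    clMap k (mJ V J) = ((-1 : ℂ) ^ J.card) • mJ V J := by
  have e : ∀ l : List m, clMap k (kmL V l) = ((-1 : ℂ) ^ l.length) • kmL V l := fun l => by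
    induction l with
    | nil => rw [kmL_nil, List.length_nil, pow_zero, one_smul]; exact clMap_neg_pp hk _ _
    | cons j l ih =>
      rw [kmL_cons, map_mul, ih, clMap_neg_cre hk, List.length_cons, pow_succ, mul_neg_one,
        mul_smul_comm, neg_mul, smul_neg, neg_smul]
  simpa only [Finset.length_toList, kmL_toList] using e J.toList

theorem cl_inl_mJ (v : V) (J : Finset m) :
    cl (UU.inl m v) * mJ V J = ((-1 : ℂ) ^ J.card) • (mJ V J * cl (UU.inl m v)) := by
  have e : ∀ l : List m, cl (UU.inl m v) * kmL V l =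
      ((-1 : ℂ) ^ l.length) • (kmL V l * cl (UU.inl m v)) := fun l => by
    induction l with
    | nil => rw [kmL_nil, List.length_nil, pow_zero, one_smul]; exact (commute_pp_inl _ _ v).eq.symm
    | cons j l ih =>
      rw [kmL_cons, ← mul_assoc, cl_inl_cre, neg_mul, mul_assoc, ih, List.length_cons, pow_succ,
        mul_neg_one, mul_smul_comm, neg_smul, mul_assoc]
  simpa only [Finset.length_toList, kmL_toList] using e J.toList

theorem km_unit {u : m → ℂ} (hu : (Matrix.diagonal u)ᴴ * Matrix.diagonal u = 1) (j : m) :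
    conj (u j) * u j = 1 := by
  have e := congrFun₂ hu j j
  rwa [Matrix.diagonal_conjTranspose, Matrix.diagonal_mul_diagonal, Matrix.diagonal_apply_eq,
    Matrix.one_apply_eq] at e

theorem clMap_kk_pJ (φ : V →ₗᵢ[ℝ] V') (u : m → ℂ)
    (hu : (Matrix.diagonal u)ᴴ * Matrix.diagonal u = 1) (J : Finset m) :
    clMap (kk φ (Matrix.diagonal u) hu) (pJ V J) = pJ V' J := by
  have e : ∀ Z : Finset m, Matrix.diagonal u * dgm Z * (Matrix.diagonal u)ᴴ = dgm Z := fun Z => by
    rw [dgm, Matrix.diagonal_conjTranspose, Matrix.diagonal_mul_diagonal,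
      Matrix.diagonal_mul_diagonal]
    congr 1
    ext j
    rw [mul_right_comm, mul_comm (u j)]
    exact (congrArg (· * _) (km_unit hu j)).trans (one_mul _)
  rw [pJ, clMap_kk_pp _ _ _ (isStarProjection_dgm _) (isStarProjection_dgm _), e, e, pJ]

theorem clMap_kk_mJ (φ : V →ₗᵢ[ℝ] V') (u : m → ℂ)
    (hu : (Matrix.diagonal u)ᴴ * Matrix.diagonal u = 1) (J : Finset m) :
    clMap (kk φ (Matrix.diagonal u) hu) (mJ V J) = (∏ j ∈ J, u j) • mJ V' J := by
  have e : ∀ l : List m, clMap (kk φ (Matrix.diagonal u) hu) (kmL V l) =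
      (l.map u).prod • kmL V' l := fun l => by
    induction l with
    | nil => rw [kmL_nil, kmL_nil, List.map_nil, List.prod_nil, one_smul, clMap_kk_pJ]
    | cons j l ih =>
      rw [kmL_cons, kmL_cons, map_mul, ih, clMap_kk_cre, km_mv_diag, cre_smul, List.map_cons,
        List.prod_cons, smul_mul_smul_comm]
  simpa only [Finset.prod_map_toList, kmL_toList] using e J.toList

theorem clMap_kk_one_pJ (φ : V →ₗᵢ[ℝ] V') (h : (1 : Matrix m m ℂ)ᴴ * 1 = 1) (J : Finset m) :
    clMap (kk φ 1 h) (pJ V J) = pJ V' J :=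
  clMap_kk_pJ φ (fun _ => 1) h J

theorem clMap_kk_one_mJ (φ : V →ₗᵢ[ℝ] V') (h : (1 : Matrix m m ℂ)ᴴ * 1 = 1) (J : Finset m) :
    clMap (kk φ 1 h) (mJ V J) = mJ V' J :=
  (clMap_kk_mJ φ (fun _ => 1) h J).trans (by rw [Finset.prod_const_one, one_smul])

theorem commute_pJ_clMap_inl (J : Finset m) (c : Cl V) :
    Commute (clMap (UU.inl m) c) (pJ V J) :=
  commute_clMap (fun v => (commute_pp_inl _ _ v).symm) c

theorem km_fix {k : UU V m →ₗᵢ[ℝ] UU V m} (hk : ∀ w, k (UU.inr V w) = UU.inr V w)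
    (p q : Matrix m m ℂ) : clMap k (pp V p q) = pp V p q := by
  have h1 : ∀ w, clMap k (cre V w) = cre V w := fun w => by
    simp only [cre, map_smul, map_sub, clMap_cl, hk]
  have h2 : ∀ w, clMap k (ann V w) = ann V w := fun w => by
    simp only [ann, map_smul, map_add, clMap_cl, hk]
  simp only [pp, map_mul, ← Polynomial.aeval_algHom_apply, num, hol, map_sum, map_smul, h1, h2]

theorem tr_clMap_inl_mul_pJ [FiniteDimensional ℝ V] (J : Finset m) (c : Cl V) :
    tr (clMap (UU.inl m) c * pJ V J) = tr c * tr (pJ V J) :=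
  tr_clMap_mul (fun a => km_fix (fun w => refl_of_inner (UU.inner_inl_inr a w)) _ _) c

/-- All matrix entries come from the first summand. -/
def KmCor (x : Cl (UU V m)) : Prop :=
  ∀ I J : Finset m, ∃ c : Cl V, star (mJ V I) * x * mJ V J = clMap (UU.inl m) c * pJ V ∅

theorem KmCor.add {x y : Cl (UU V m)} (hx : KmCor x) (hy : KmCor y) : KmCor (x + y) := fun I J => by
  obtain ⟨c, hc⟩ := hx I J
  obtain ⟨d, hd⟩ := hy I J
  exact ⟨c + d, by rw [mul_add, add_mul, hc, hd, map_add, add_mul]⟩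

theorem KmCor.smul {x : Cl (UU V m)} (r : ℂ) (hx : KmCor x) : KmCor (r • x) := fun I J => by
  obtain ⟨c, hc⟩ := hx I J
  exact ⟨r • c, by rw [mul_smul_comm, smul_mul_assoc, hc, map_smul, smul_mul_assoc]⟩

theorem KmCor.sum {κ : Type} (s : Finset κ) {x : κ → Cl (UU V m)} (hx : ∀ i, KmCor (x i)) :
    KmCor (∑ i ∈ s, x i) :=
  Finset.sum_induction _ KmCor (fun _ _ => KmCor.add) (fun _ _ => ⟨0, by simp⟩) fun i _ => hx i

theorem KmCor.one : KmCor (1 : Cl (UU V m)) := fun I J => by
  rw [mul_one, star_mJ_mul]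
  split_ifs
  · exact ⟨1, by simp⟩
  · exact ⟨0, by simp⟩

theorem KmCor.star {x : Cl (UU V m)} (hx : KmCor x) : KmCor (star x) := fun I J => by
  obtain ⟨c, hc⟩ := hx J I
  have e := congrArg Star.star hc
  rw [star_mul, star_mul, star_star, star_mul, (isStarProjection_pJ _).isSelfAdjoint.star_eq,
    ← clMap_star, ← (commute_pJ_clMap_inl _ _).eq, ← mul_assoc] at e
  exact ⟨_, e⟩

theorem KmCor.mul {x y : Cl (UU V m)} (hx : KmCor x) (hy : KmCor y) : KmCor (x * y) := fun I J => by
  choose c hc using hx I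
  choose d hd using fun K => hy K J
  refine ⟨∑ K, c K * d K, ?_⟩
  rw [← mul_one x, ← sum_pJ, map_sum]
  simp only [Finset.mul_sum, Finset.sum_mul]
  refine Finset.sum_congr rfl fun K _ => ?_
  calc _ = (Star.star (mJ V I) * x * mJ V K) * (Star.star (mJ V K) * y * mJ V J) := by
        rw [← mJ_mul_star]; simp only [mul_assoc]
    _ = _ := by
      rw [hc, hd, map_mul, mul_assoc, ← mul_assoc (pJ V ∅), ← (commute_pJ_clMap_inl _ _).eq,
        mul_assoc, (isStarProjection_pJ _).isIdempotentElem.eq, mul_assoc]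

theorem km_perm {l l' : List m} (h : l.Perm l') : ∃ s : ℂ, kmL V l = s • kmL V l' := by
  induction h with
  | nil => exact ⟨1, (one_smul _ _).symm⟩
  | cons j _ ih =>
    obtain ⟨s, hs⟩ := ih
    exact ⟨s, by rw [kmL_cons, kmL_cons, hs, mul_smul_comm]⟩
  | swap i j l =>
    exact ⟨-1, by simp only [kmL_cons, ← mul_assoc]; rw [cre_cre, neg_mul, neg_one_smul]⟩
  | trans _ _ ih ih' =>
    obtain ⟨s, hs⟩ := ih
    obtain ⟨t, ht⟩ := ih'
    exact ⟨s * t, by rw [hs, ht, mul_smul]⟩

theorem km_cor_C (j : m) : KmCor (kmC V j) := fun I J => by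
  by_cases h : j ∈ J
  · exact ⟨0, by rw [← pJ_mul_mJ J, mul_assoc, ← mul_assoc (kmC V j), km_C_pJ h]; simp⟩
  · obtain ⟨s, hs⟩ := km_perm (V := V) (Finset.toList_insert h).symm
    have e : kmC V j * mJ V J = s • mJ V (insert j J) := (kmL_cons j _).symm.trans hs
    obtain ⟨c, hc⟩ := KmCor.one.smul (V := V) s I (insert j J)
    exact ⟨c, by rw [← hc, mul_assoc, e, mul_assoc, smul_mul_assoc, one_mul]⟩

theorem km_basis (w : EuclideanSpace ℂ m) : w = ∑ j, w j • EuclideanSpace.single j (1 : ℂ) := by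
  ext a
  simp [Pi.single_apply]

theorem km_cre (w : EuclideanSpace ℂ m) : cre V w = ∑ j, w j • kmC V j := by
  conv_lhs => rw [km_basis w]
  simp only [cre_sum, cre_smul]

theorem km_ann (w : EuclideanSpace ℂ m) : ann V w = ∑ j, conj (w j) • kmA V j := by
  conv_lhs => rw [km_basis w]
  simp only [ann_sum, ann_smul]

theorem km_cor (x : Cl (UU V m)) : KmCor x := by
  induction x using cl_induction with
  | h1 => exact KmCor.one
  | hadd x y hx hy => exact hx.add hy
  | hsmul r x hx => exact hx.smul r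
  | hcl v x hx =>
    refine KmCor.mul ?_ hx
    have hc : KmCor (cre V v.snd) := km_cre (V := V) v.snd ▸ KmCor.sum _ fun j => (km_cor_C j).smul _
    rw [← UU.inl_add_inr v, cl_add, ← cre_add_ann, ← star_cre]
    refine KmCor.add (fun I J => ?_) (hc.add hc.star)
    obtain ⟨c, hc⟩ := KmCor.one (V := V) I J
    refine ⟨((-1 : ℂ) ^ J.card) • (c * cl v.fst), ?_⟩
    rw [mul_one] at hc
    rw [mul_assoc, cl_inl_mJ, mul_smul_comm, ← mul_assoc, hc, map_smul, smul_mul_assoc, map_mul,
      clMap_cl, mul_assoc, mul_assoc, pJ, (commute_pp_inl _ _ _).eq]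

theorem km_move (J : Finset m) (c : Cl V) :
    ∃ c' : Cl V, mJ V J * clMap (UU.inl m) c = clMap (UU.inl m) c' * mJ V J := by
  induction c using cl_induction with
  | h1 => exact ⟨1, by simp⟩
  | hadd x y hx hy =>
    obtain ⟨c, hc⟩ := hx
    obtain ⟨d, hd⟩ := hy
    exact ⟨c + d, by rw [map_add, map_add, mul_add, add_mul, hc, hd]⟩
  | hsmul r x hx =>
    obtain ⟨c, hc⟩ := hx
    exact ⟨r • c, by rw [map_smul, map_smul, mul_smul_comm, smul_mul_assoc, hc]⟩
  | hcl v x hx =>
    obtain ⟨c, hc⟩ := hx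
    refine ⟨((-1 : ℂ) ^ J.card) • (cl v * c), ?_⟩
    rw [map_smul, map_mul, map_mul, clMap_cl, smul_mul_assoc, mul_assoc, ← hc, ← mul_assoc,
      ← mul_assoc, cl_inl_mJ, smul_mul_assoc, smul_smul, ← mul_pow, neg_one_mul, neg_neg, one_pow,
      one_smul]

/-- The corner of a state projection is the Clifford algebra of the first summand. -/
theorem exists_corner (J : Finset m) (x : Cl (UU V m)) :
    ∃ c : Cl V, pJ V J * x * pJ V J = clMap (UU.inl m) c * pJ V J := by
  obtain ⟨c, hc⟩ := km_cor x J J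
  obtain ⟨c', hc'⟩ := km_move J c
  refine ⟨c', ?_⟩
  calc pJ V J * x * pJ V J = mJ V J * (star (mJ V J) * x * mJ V J) * star (mJ V J) := by
        rw [← mJ_mul_star]; simp only [mul_assoc]
    _ = _ := by rw [hc, ← mul_assoc, hc', mul_assoc _ (mJ V J), mJ_mul_pJ, mul_assoc, mJ_mul_star]

theorem km_pJ_gamD (u : m → ℂ) (J : Finset m) :
    pJ V J * gamD V u = (∏ j ∈ J, u j) • pJ V J := by
  rw [gamD, Finset.mul_sum, Finset.sum_eq_single J]
  · rw [mul_smul_comm, pJ_mul_pJ, if_pos rfl]
  · intro I _ h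
    rw [mul_smul_comm, pJ_mul_pJ, if_neg h.symm, smul_zero]
  · simp

theorem star_gamD_mul {u : m → ℂ} (hu : ∀ j, conj (u j) * u j = 1) :
    star (gamD V u) * gamD V u = 1 := by
  rw [← sum_pJ]
  nth_rw 1 [gamD]
  rw [star_sum, Finset.sum_mul]
  refine Finset.sum_congr rfl fun J _ => ?_
  rw [star_smul, (isStarProjection_pJ _).isSelfAdjoint.star_eq, smul_mul_assoc, km_pJ_gamD,
    smul_smul, star_prod, ← Finset.prod_mul_distrib,
    Finset.prod_eq_one (f := fun j => star (u j) * u j) fun j _ => hu j, one_smul]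

theorem gamD_mul_pJ (u : m → ℂ) (J : Finset m) :
    gamD V u * pJ V J = (∏ j ∈ J, u j) • pJ V J := by
  rw [gamD, Finset.sum_mul, Finset.sum_eq_single J]
  · rw [smul_mul_assoc, pJ_mul_pJ, if_pos rfl]
  · intro I _ h
    rw [smul_mul_assoc, pJ_mul_pJ, if_neg h, smul_zero]
  · simp

theorem pJ_mul_gamD (u : m → ℂ) (J : Finset m) :
    pJ V J * gamD V u = (∏ j ∈ J, u j) • pJ V J :=
  km_pJ_gamD u J

theorem cl_kk_mul_gamD (u : m → ℂ) (hu : (Matrix.diagonal u)ᴴ * Matrix.diagonal u = 1)
    (x : UU V m) :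
    cl (kk LinearIsometry.id (Matrix.diagonal u) hu x) * gamD V u = gamD V u * cl x := by
  have ext : ∀ y z : Cl (UU V m), (∀ J, y * pJ V J = z * pJ V J) → y = z := fun y z h => by
    rw [← mul_one y, ← mul_one z, ← sum_pJ, Finset.mul_sum, Finset.mul_sum]
    exact Finset.sum_congr rfl fun J _ => h J
  have hC : ∀ j, u j • (kmC V j * gamD V u) = gamD V u * kmC V j := fun j => ext _ _ fun J => by
    rw [smul_mul_assoc, mul_assoc, mul_assoc, gamD_mul_pJ, mul_smul_comm, smul_smul]
    by_cases h : j ∈ J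
    · rw [km_C_pJ h, smul_zero, mul_zero]
    · rw [km_C_ins h, ← mul_assoc, gamD_mul_pJ, Finset.prod_insert h, smul_mul_assoc]
  have hA : ∀ j, conj (u j) • (kmA V j * gamD V u) = gamD V u * kmA V j := fun j =>
    ext _ _ fun J => by
      rw [smul_mul_assoc, mul_assoc, mul_assoc, gamD_mul_pJ, mul_smul_comm, smul_smul]
      by_cases h : j ∈ J
      · rw [← Finset.insert_erase h, km_A_ins (J.notMem_erase j), ← mul_assoc (gamD V u),
          gamD_mul_pJ, Finset.prod_insert (J.notMem_erase j), ← mul_assoc, km_unit hu, one_mul,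
          smul_mul_assoc]
      · rw [km_A_pJ h, smul_zero, mul_zero]
  have hI : cl (UU.inl m x.fst) * gamD V u = gamD V u * cl (UU.inl m x.fst) :=
    (Commute.sum_left _ _ _ fun J _ => (commute_pp_inl _ _ _).smul_left _).eq.symm
  have hw : ∀ j, mv (Matrix.diagonal u) x.snd j = x.snd j * u j := fun j => by
    simp [mv, Matrix.mulVec_diagonal, mul_comm]
  rw [← UU.inl_add_inr x, map_add, kk_inl, kk_inr, cl_add, cl_add, ← cre_add_ann, ← cre_add_ann,
    km_cre, km_cre, km_ann, km_ann]
  simp only [add_mul, mul_add, Finset.sum_mul, Finset.mul_sum, hw, map_mul, mul_smul,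
    smul_mul_assoc, mul_smul_comm, hC, hA, LinearIsometry.coe_id, id, hI]

end Pool.Agent.Lib.E2
end
end

-- part Pool.Agent.Lib.MP_10be03_gt.KMu
section

/-!
Matrix units between states, parity, and weights.
-/

noncomputable section
open scoped Matrix ComplexConjugate

namespace Pool.Agent.Lib.E2

variable {V V' m : Type} [NormedAddCommGroup V] [InnerProductSpace ℝ V]
  [NormedAddCommGroup V'] [InnerProductSpace ℝ V'] [Fintype m] [DecidableEq m]

variable (V) in
/-- The matrix unit from the state `J` to the state `I`. -/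
def muJ (I J : Finset m) : Cl (UU V m) := mJ V I * star (mJ V J)

theorem star_pJ (J : Finset m) : star (pJ V J) = pJ V J :=
  (isStarProjection_pJ J).isSelfAdjoint.star_eq

theorem pJ_mul_self (J : Finset m) : pJ V J * pJ V J = pJ V J :=
  (isStarProjection_pJ J).isIdempotentElem.eq

theorem pJ_mul_of_ne {I J : Finset m} (h : I ≠ J) : pJ V I * pJ V J = 0 := by
  rw [pJ_mul_pJ, if_neg h]

theorem star_mJ_mul_pJ (J : Finset m) : star (mJ V J) * pJ V J = star (mJ V J) := by
  rw [← star_pJ J, ← star_mul, pJ_mul_mJ]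

theorem pJ_mul_star_mJ (J : Finset m) : pJ V ∅ * star (mJ V J) = star (mJ V J) := by
  rw [← star_pJ ∅, ← star_mul, mJ_mul_pJ]

theorem pJ_mul_muJ (I J : Finset m) : pJ V I * muJ V I J = muJ V I J := by
  rw [muJ, ← mul_assoc, pJ_mul_mJ]

theorem muJ_mul_pJ (I J : Finset m) : muJ V I J * pJ V J = muJ V I J := by
  rw [muJ, mul_assoc, star_mJ_mul_pJ]

theorem star_muJ (I J : Finset m) : star (muJ V I J) = muJ V J I := by
  rw [muJ, star_mul, star_star, muJ]

theorem muJ_self (I : Finset m) : muJ V I I = pJ V I := mJ_mul_star I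

theorem muJ_mul_muJ (I J K : Finset m) : muJ V I J * muJ V J K = muJ V I K := by
  rw [muJ, muJ, mul_assoc, ← mul_assoc (star (mJ V J)), star_mJ_mul, if_pos rfl, pJ_mul_star_mJ, muJ]

theorem muJ_mul_of_ne (I : Finset m) {J J' : Finset m} (h : J ≠ J') (K : Finset m) :
    muJ V I J * muJ V J' K = 0 := by
  rw [muJ, muJ, mul_assoc, ← mul_assoc (star (mJ V J)), star_mJ_mul, if_neg h, zero_mul, mul_zero]

theorem star_muJ_mul (I J : Finset m) : star (muJ V I J) * muJ V I J = pJ V J := by
  rw [star_muJ, muJ_mul_muJ, muJ_self]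

theorem muJ_mul_star (I J : Finset m) : muJ V I J * star (muJ V I J) = pJ V I := by
  rw [star_muJ, muJ_mul_muJ, muJ_self]

theorem hat_pp (p q : Matrix m m ℂ) : hat (pp V p q) = pp V p q :=
  clMap_neg_pp (fun _ => rfl) p q

theorem hat_pJ (J : Finset m) : hat (pJ V J) = pJ V J := hat_pp _ _

theorem hat_mJ (J : Finset m) : hat (mJ V J) = ((-1 : ℂ) ^ J.card) • mJ V J :=
  clMap_neg_mJ (fun _ => rfl) J

theorem hat_star {U : Type} [NormedAddCommGroup U] [InnerProductSpace ℝ U] (c : Cl U) :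
    hat (star c) = star (hat c) := clMap_star _ c

theorem hat_muJ (I J : Finset m) :
    hat (muJ V I J) = ((-1 : ℂ) ^ (I.card + J.card)) • muJ V I J := by
  rw [muJ, hat_mul, hat_star, hat_mJ, hat_mJ, star_smul, smul_mul_smul_comm, pow_add]
  simp

omit [DecidableEq m] in
theorem perp_inl_inr (w : EuclideanSpace ℂ m) : Perp (UU.inl m) (UU.inr V w) :=
  fun a => UU.inner_inl_inr a w

section
variable {U U' : Type} [NormedAddCommGroup U] [InnerProductSpace ℝ U] [NormedAddCommGroup U']
  [InnerProductSpace ℝ U'] {k : U →ₗᵢ[ℝ] U'} {d d' : Cl U'}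

theorem PerpC.add' (h : PerpC k d) (h' : PerpC k d') : PerpC k (d + d') :=
  fun a => by rw [map_add, h, h']

theorem PerpC.sub' (h : PerpC k d) (h' : PerpC k d') : PerpC k (d - d') :=
  fun a => by rw [map_sub, h, h']

theorem PerpC.smul' (r : ℂ) (h : PerpC k d) : PerpC k (r • d) :=
  fun a => by rw [map_smul, h]

theorem PerpC.sum' {κ : Type} (s : Finset κ) {f : κ → Cl U'} (h : ∀ i ∈ s, PerpC k (f i)) :
    PerpC k (∑ i ∈ s, f i) := fun a => by
  rw [map_sum]
  exact Finset.sum_congr rfl fun i hi => h i hi a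

theorem PerpC.aeval' (h : PerpC k d) (P : Polynomial ℂ) : PerpC k (Polynomial.aeval d P) :=
  fun a => by rw [← Polynomial.aeval_algHom_apply, h]

theorem PerpC.prod' {l : List (Cl U')} (h : ∀ x ∈ l, PerpC k x) : PerpC k l.prod := by
  induction l with
  | nil => exact PerpC.one k
  | cons a l ih =>
    rw [List.prod_cons]
    exact (h a List.mem_cons_self).mul (ih fun x hx => h x (List.mem_cons_of_mem _ hx))

end

theorem perpC_cre (w : EuclideanSpace ℂ m) : PerpC (UU.inl m) (cre V w) :=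
  ((PerpC.cl (perp_inl_inr w)).sub' ((PerpC.cl (perp_inl_inr _)).smul' _)).smul' _

theorem perpC_ann (w : EuclideanSpace ℂ m) : PerpC (UU.inl m) (ann V w) :=
  ((PerpC.cl (perp_inl_inr w)).add' ((PerpC.cl (perp_inl_inr _)).smul' _)).smul' _

theorem perpC_pp (p q : Matrix m m ℂ) : PerpC (UU.inl m) (pp V p q) :=
  ((PerpC.sum' _ fun _ _ => PerpC.sum' _ fun _ _ =>
      ((perpC_cre _).mul (perpC_ann _)).smul' _).aeval' _).mul
    ((PerpC.sum' _ fun _ _ => PerpC.sum' _ fun _ _ =>
      ((perpC_ann _).mul (perpC_cre _)).smul' _).aeval' _)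

theorem perpC_pJ (J : Finset m) : PerpC (UU.inl m) (pJ V J) := perpC_pp _ _

theorem perpC_mJ (J : Finset m) : PerpC (UU.inl m) (mJ V J) :=
  (PerpC.prod' fun x hx => by
    obtain ⟨j, -, rfl⟩ := List.mem_map.1 hx
    exact perpC_cre _).mul (perpC_pJ ∅)

theorem perpC_muJ (I J : Finset m) : PerpC (UU.inl m) (muJ V I J) :=
  (perpC_mJ I).mul (perpC_mJ J).star

theorem clMap_kk_one_muJ (φ : V →ₗᵢ[ℝ] V') (h : (1 : Matrix m m ℂ)ᴴ * 1 = 1) (I J : Finset m) :
    clMap (kk φ 1 h) (muJ V I J) = muJ V' I J := by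
  rw [muJ, map_mul, clMap_star, clMap_kk_one_mJ, clMap_kk_one_mJ, muJ]

theorem clMap_kk_muJ (φ : V →ₗᵢ[ℝ] V') (u : m → ℂ)
    (hu : (Matrix.diagonal u)ᴴ * Matrix.diagonal u = 1) (I J : Finset m) :
    clMap (kk φ (Matrix.diagonal u) hu) (muJ V I J) =
      ((∏ j ∈ I, u j) * conj (∏ j ∈ J, u j)) • muJ V' I J := by
  rw [muJ, map_mul, clMap_star, clMap_kk_mJ, clMap_kk_mJ, star_smul, smul_mul_smul_comm, muJ]
  rfl

theorem conj_mul_of_diag {u : m → ℂ} (hu : (Matrix.diagonal u)ᴴ * Matrix.diagonal u = 1) (j : m) :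
    conj (u j) * u j = 1 := by
  have h := congrFun (congrFun hu j) j
  simpa [Matrix.diagonal_conjTranspose, Matrix.diagonal_mul_diagonal] using h

theorem clMap_kk_mul_gamD (u : m → ℂ) (hu : (Matrix.diagonal u)ᴴ * Matrix.diagonal u = 1)
    (c : Cl (UU V m)) :
    clMap (kk LinearIsometry.id (Matrix.diagonal u) hu) c * gamD V u = gamD V u * c := by
  induction c using cl_induction with
  | h1 => simp
  | hcl v x hx => rw [map_mul, clMap_cl, mul_assoc, hx, ← mul_assoc, cl_kk_mul_gamD, mul_assoc]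
  | hadd x y hx hy => rw [map_add, add_mul, mul_add, hx, hy]
  | hsmul r x hx => rw [map_smul, smul_mul_assoc, mul_smul_comm, hx]

/-- The weight of the corner between two states. -/
theorem pJ_clMap_kk_pJ (u : m → ℂ) (hu : (Matrix.diagonal u)ᴴ * Matrix.diagonal u = 1)
    (I J : Finset m) (c : Cl (UU V m)) :
    pJ V I * clMap (kk LinearIsometry.id (Matrix.diagonal u) hu) c * pJ V J =
      ((∏ j ∈ I, u j) * conj (∏ j ∈ J, u j)) • (pJ V I * c * pJ V J) := by
  have h1 : conj (∏ j ∈ J, u j) * ∏ j ∈ J, u j = 1 := by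
    rw [map_prod, ← Finset.prod_mul_distrib]
    exact Finset.prod_eq_one fun j _ => conj_mul_of_diag hu j
  have h2 : pJ V J = conj (∏ j ∈ J, u j) • (gamD V u * pJ V J) := by
    rw [gamD_mul_pJ, smul_smul, h1, one_smul]
  conv_lhs => rw [h2]
  rw [mul_smul_comm, mul_assoc, ← mul_assoc _ (gamD V u), clMap_kk_mul_gamD, ← mul_assoc,
    ← mul_assoc, pJ_mul_gamD, smul_mul_assoc, smul_mul_assoc, smul_smul, mul_comm (conj _)]

end Pool.Agent.Lib.E2
end
end
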