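import Mathlib

/-! Positive semidefinite scalar kernels: closure properties; bounded operators with prescribed
values on a total family of vectors. -/

noncomputable section

attribute [instance 2000] InnerProductSpace.toInner

namespace Pool.Agent.Lib.E2

open scoped InnerProductSpace TensorProduct

/-- `k` is a Hermitian positive semidefinite kernel on `S`. -/
def IsPD {S : Type} (k : S → S → ℂ) : Prop :=
  (∀ s t, k t s = (starRingEnd ℂ) (k s t)) ∧
    ∀ f : S →₀ ℂ, 0 ≤ (f.sum fun s a => f.sum fun t b => (starRingEnd ℂ) a * b * k s t).re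

/-- The complex vector space with basis `S`, to be given the form `k`. -/
def Pre {S : Type} (_k : S → S → ℂ) : Type := S →₀ ℂ

instance {S : Type} (k : S → S → ℂ) : AddCommGroup (Pre k) :=
  inferInstanceAs (AddCommGroup (S →₀ ℂ))

instance {S : Type} (k : S → S → ℂ) : Module ℂ (Pre k) :=
  inferInstanceAs (Module ℂ (S →₀ ℂ))

/-- The sesquilinear form on `S →₀ ℂ` defined by `k`. -/
def form {S : Type} (k : S → S → ℂ) (f g : S →₀ ℂ) : ℂ :=
  f.sum fun s a => g.sum fun t b => (starRingEnd ℂ) a * b * k s t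

theorem form_conj {S : Type} {k : S → S → ℂ} (hk : IsPD k) (f g : S →₀ ℂ) :
    (starRingEnd ℂ) (form k g f) = form k f g := by
  unfold form
  rw [Finsupp.sum_comm]
  simp only [map_finsuppSum, map_mul, Complex.conj_conj]
  refine Finsupp.sum_congr fun s _ => Finsupp.sum_congr fun t _ => ?_
  rw [hk.1 s t, Complex.conj_conj]; ring

theorem form_add {S : Type} (k : S → S → ℂ) (f f' g : S →₀ ℂ) :
    form k (f + f') g = form k f g + form k f' g := by
  unfold form
  rw [Finsupp.sum_add_index'] <;> simp [← Finsupp.sum_add, add_mul]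

theorem form_smul {S : Type} (k : S → S → ℂ) (f g : S →₀ ℂ) (c : ℂ) :
    form k (c • f) g = (starRingEnd ℂ) c * form k f g := by
  unfold form
  rw [Finsupp.sum_smul_index] <;> simp [Finsupp.mul_sum, ← mul_assoc]

instance preCore {S : Type} (k : S → S → ℂ) [hk : Fact (IsPD k)] :
    PreInnerProductSpace.Core ℂ (Pre k) where
  inner f g := form k f g
  conj_inner_symm f g := form_conj hk.out f g
  add_left f f' g := form_add k f f' g
  smul_left f g c := form_smul k f g c
  re_inner_nonneg f := hk.out.2 f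

instance preSeminormed {S : Type} (k : S → S → ℂ) [Fact (IsPD k)] :
    SeminormedAddCommGroup (Pre k) :=
  InnerProductSpace.Core.toSeminormedAddCommGroup (𝕜 := ℂ)

instance preInner {S : Type} (k : S → S → ℂ) [Fact (IsPD k)] : InnerProductSpace ℂ (Pre k) :=
  .ofCore _

/-- The Hilbert space generated by vectors `gen k s` with inner products `k s t`. -/
abbrev KH {S : Type} (k : S → S → ℂ) [Fact (IsPD k)] : Type := UniformSpace.Completion (Pre k)

/-- The generating vector attached to `s`. -/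
def gen {S : Type} (k : S → S → ℂ) [Fact (IsPD k)] (s : S) : KH k :=
  UniformSpace.Completion.coe' (show Pre k from Finsupp.single s (1 : ℂ))

variable {S : Type}

theorem form_single (k : S → S → ℂ) (s t : S) :
    form k (Finsupp.single s 1) (Finsupp.single t 1) = k s t := by
  simp [form]

theorem inner_gen (k : S → S → ℂ) [Fact (IsPD k)] (s t : S) : ⟪gen k s, gen k t⟫_ℂ = k s t := by
  unfold gen
  exact (UniformSpace.Completion.inner_coe (𝕜 := ℂ) (E := Pre k) _ _).trans (form_single k s t)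

theorem IsPD.of_inner {H : Type} [NormedAddCommGroup H] [InnerProductSpace ℂ H] (φ : S → H) :
    IsPD fun s t => ⟪φ s, φ t⟫_ℂ := by
  refine ⟨fun s t => (inner_conj_symm _ _).symm, fun f => ?_⟩
  have h : (f.sum fun s a => f.sum fun t b => (starRingEnd ℂ) a * b * ⟪φ s, φ t⟫_ℂ) =
      ⟪f.sum fun s a => a • φ s, f.sum fun s a => a • φ s⟫_ℂ := by
    simp only [Finsupp.sum, sum_inner, inner_sum, inner_smul_left, inner_smul_right,
      Finset.mul_sum]
    rw [Finset.sum_comm]
    refine Finset.sum_congr rfl fun s _ => Finset.sum_congr rfl fun t _ => by ring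
  rw [h]
  exact inner_self_nonneg (𝕜 := ℂ)

theorem IsPD.congr {k k' : S → S → ℂ} (hk : IsPD k) (h : ∀ s t, k s t = k' s t) : IsPD k' :=
  (funext fun s => funext (h s) : k = k') ▸ hk

theorem IsPD.mul {k k' : S → S → ℂ} (hk : IsPD k) (hk' : IsPD k') :
    IsPD fun s t => k s t * k' s t := by
  have := Fact.mk hk
  have := Fact.mk hk'
  refine (IsPD.of_inner fun s => gen k s ⊗ₜ[ℂ] gen k' s).congr fun s t => ?_
  rw [TensorProduct.inner_tmul, inner_gen, inner_gen]

theorem IsPD.comap {S' : Type} {k : S → S → ℂ} (hk : IsPD k) (φ : S' → S) :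
    IsPD fun s t => k (φ s) (φ t) := by
  have := Fact.mk hk
  exact (IsPD.of_inner fun s => gen k (φ s)).congr fun s t => inner_gen k _ _

theorem IsPD.one : IsPD fun _ _ : S => (1 : ℂ) :=
  (IsPD.of_inner fun _ => (1 : ℂ)).congr fun _ _ => by simp

theorem IsPD.zero : IsPD fun _ _ : S => (0 : ℂ) :=
  (IsPD.of_inner fun _ => (0 : ℂ)).congr fun _ _ => by simp

theorem IsPD.add {k k' : S → S → ℂ} (hk : IsPD k) (hk' : IsPD k') :
    IsPD fun s t => k s t + k' s t := by
  refine ⟨fun s t => by simp only [hk.1 s t, hk'.1 s t, map_add], fun f => ?_⟩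
  have := add_nonneg (hk.2 f) (hk'.2 f)
  simpa [Finsupp.sum, mul_add, Finset.sum_add_distrib] using this

theorem IsPD.smul {k : S → S → ℂ} (hk : IsPD k) {c : ℝ} (hc : 0 ≤ c) :
    IsPD fun s t => (c : ℂ) * k s t :=
  ((IsPD.of_inner fun _ : S => ((Real.sqrt c : ℝ) : ℂ)).mul hk).congr fun s t => by
    rw [RCLike.inner_apply, Complex.conj_ofReal, ← Complex.ofReal_mul, Real.mul_self_sqrt hc]

theorem IsPD.sum {ι : Type} (I : Finset ι) {k : ι → S → S → ℂ} (hk : ∀ i, IsPD (k i)) :
    IsPD fun s t => ∑ i ∈ I, k i s t := by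
  classical
  induction I using Finset.induction_on with
  | empty => simpa using IsPD.zero
  | insert a I ha ih => exact ((hk a).add ih).congr fun s t => by rw [Finset.sum_insert ha]

theorem IsPD.prod {ι : Type} (I : Finset ι) {k : ι → S → S → ℂ} (hk : ∀ i, IsPD (k i)) :
    IsPD fun s t => ∏ i ∈ I, k i s t := by
  classical
  induction I using Finset.induction_on with
  | empty => simpa using IsPD.one
  | insert a I ha ih => exact ((hk a).mul ih).congr fun s t => by rw [Finset.prod_insert ha]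

theorem IsPD.lim {k : ℕ → S → S → ℂ} {k' : S → S → ℂ} (hk : ∀ n, IsPD (k n))
    (h : ∀ s t, Filter.Tendsto (fun n => k n s t) Filter.atTop (nhds (k' s t))) : IsPD k' := by
  refine ⟨fun s t => ?_, fun f => ?_⟩
  · refine tendsto_nhds_unique (h t s) ?_
    exact ((Complex.continuous_conj.tendsto _).comp (h s t)).congr fun n => ((hk n).1 s t).symm
  · refine ge_of_tendsto' (x := Filter.atTop) ((Complex.continuous_re.tendsto _).comp ?_)
      fun n => (hk n).2 f
    exact tendsto_finsetSum _ fun s _ => tendsto_finsetSum _ fun t _ => (h s t).const_mul _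

theorem IsPD.exp {k : S → S → ℂ} (hk : IsPD k) : IsPD fun s t => Complex.exp (k s t) := by
  refine IsPD.lim (k := fun n s t => ∑ i ∈ Finset.range n, k s t ^ i / (i.factorial : ℂ))
    (fun n => IsPD.sum _ fun i => ?_) fun s t => ?_
  · refine ((IsPD.prod (Finset.range i) fun _ => hk).smul
      (c := ((i.factorial : ℝ))⁻¹) (by positivity)).congr fun s t => ?_
    simp [div_eq_inv_mul]
  · rw [Complex.exp_eq_exp_ℂ]
    exact (NormedSpace.expSeries_div_hasSum_exp (k s t)).tendsto_sum_nat

theorem IsPD.of_inner_real {V : Type} [NormedAddCommGroup V] [InnerProductSpace ℝ V]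
    (φ : S → V) : IsPD fun s t => ((inner ℝ (φ s) (φ t) : ℝ) : ℂ) := by
  refine ⟨fun s t => by simp only [Complex.conj_ofReal, real_inner_comm], fun f => ?_⟩
  have h : (f.sum fun s a => f.sum fun t b =>
      (starRingEnd ℂ) a * b * ((inner ℝ (φ s) (φ t) : ℝ) : ℂ)).re =
      inner ℝ (f.sum fun s a => a.re • φ s) (f.sum fun s a => a.re • φ s) +
      inner ℝ (f.sum fun s a => a.im • φ s) (f.sum fun s a => a.im • φ s) := by
    simp only [Finsupp.sum, sum_inner, inner_sum, real_inner_smul_left, real_inner_smul_right,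
      Complex.re_sum, ← Finset.sum_add_distrib]
    rw [Finset.sum_comm]
    refine Finset.sum_congr rfl fun s _ => Finset.sum_congr rfl fun t _ => ?_
    simp only [Complex.mul_re, Complex.mul_im, Complex.conj_re, Complex.conj_im,
      Complex.ofReal_re, Complex.ofReal_im]
    ring
  rw [h]
  exact add_nonneg real_inner_self_nonneg real_inner_self_nonneg

section Op

variable {H H' : Type} [NormedAddCommGroup H] [InnerProductSpace ℂ H]
  [NormedAddCommGroup H'] [InnerProductSpace ℂ H']

theorem norm_sq_comb (p : S → H) (f : S →₀ ℂ) :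
    ‖Finsupp.linearCombination ℂ p f‖ ^ 2 =
      (f.sum fun s a => f.sum fun t b => (starRingEnd ℂ) a * b * ⟪p s, p t⟫_ℂ).re := by
  rw [@norm_sq_eq_re_inner ℂ, Finsupp.linearCombination_apply]
  simp only [Finsupp.sum, sum_inner, inner_sum, inner_smul_left, inner_smul_right,
    Finset.mul_sum]
  rw [Finset.sum_comm]
  refine congrArg Complex.re
    (Finset.sum_congr rfl fun s _ => Finset.sum_congr rfl fun t _ => by ring)

/-- Existence of a bounded operator with prescribed values on a total family. -/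
theorem exists_op [CompleteSpace H'] {p : S → H} {q : S → H'}
    (hp : Dense (Submodule.span ℂ (Set.range p) : Set H)) {C : ℝ} (hC : 0 ≤ C)
    (h : IsPD fun s t => ((C ^ 2 : ℝ) : ℂ) * ⟪p s, p t⟫_ℂ - ⟪q s, q t⟫_ℂ) :
    ∃ T : H →L[ℂ] H', (∀ s, T (p s) = q s) ∧ ‖T‖ ≤ C := by
  have hd : DenseRange (Finsupp.linearCombination ℂ p) := by
    rwa [DenseRange, ← LinearMap.coe_range, Finsupp.range_linearCombination]
  have hb : ∀ f, ‖Finsupp.linearCombination ℂ q f‖ ≤ C * ‖Finsupp.linearCombination ℂ p f‖ := by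
    intro f
    refine (pow_le_pow_iff_left₀ (norm_nonneg _) (by positivity) two_ne_zero).1 ?_
    rw [mul_pow, norm_sq_comb, norm_sq_comb]
    have h1 := h.2 f
    have h2 : (f.sum fun s a => f.sum fun t b => (starRingEnd ℂ) a * b *
        (((C ^ 2 : ℝ) : ℂ) * ⟪p s, p t⟫_ℂ - ⟪q s, q t⟫_ℂ)) = ((C ^ 2 : ℝ) : ℂ) *
        (f.sum fun s a => f.sum fun t b => (starRingEnd ℂ) a * b * ⟪p s, p t⟫_ℂ) -
        (f.sum fun s a => f.sum fun t b => (starRingEnd ℂ) a * b * ⟪q s, q t⟫_ℂ) := by
      simp only [Finsupp.sum, Finset.mul_sum, ← Finset.sum_sub_distrib]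
      refine Finset.sum_congr rfl fun s _ => Finset.sum_congr rfl fun t _ => by ring
    rw [h2, Complex.sub_re, Complex.re_ofReal_mul] at h1
    linarith
  refine ⟨(Finsupp.linearCombination ℂ q).extendOfNorm (Finsupp.linearCombination ℂ p),
    fun s => ?_, LinearMap.opNorm_extendOfNorm_le hd hC hb⟩
  simpa using LinearMap.extendOfNorm_eq hd ⟨C, hb⟩ (Finsupp.single s 1)

theorem op_ext {p : S → H} (hp : Dense (Submodule.span ℂ (Set.range p) : Set H))
    {T T' : H →L[ℂ] H'} (h : ∀ s, T (p s) = T' (p s)) : T = T' :=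
  ContinuousLinearMap.ext_on hp (by rintro _ ⟨s, rfl⟩; exact h s)

theorem vec_ext {p : S → H} (hp : Dense (Submodule.span ℂ (Set.range p) : Set H))
    {x y : H} (h : ∀ s, ⟪p s, x⟫_ℂ = ⟪p s, y⟫_ℂ) : x = y := by
  have h1 : innerSL ℂ x = innerSL ℂ y := op_ext hp fun s => by
    simp only [innerSL_apply_apply]
    rw [← inner_conj_symm, h, inner_conj_symm]
  exact ext_inner_right ℂ fun z => congrArg (fun T : H →L[ℂ] ℂ => T z) h1

/-- Existence of an isometry with prescribed values on a total family. -/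
theorem exists_isom [CompleteSpace H'] {p : S → H} {q : S → H'}
    (hp : Dense (Submodule.span ℂ (Set.range p) : Set H))
    (h : ∀ s t, ⟪q s, q t⟫_ℂ = ⟪p s, p t⟫_ℂ) :
    ∃ T : H →L[ℂ] H', (∀ s, T (p s) = q s) ∧ ∀ x y, ⟪T x, T y⟫_ℂ = ⟪x, y⟫_ℂ := by
  obtain ⟨T, hT, -⟩ := exists_op (q := q) hp zero_le_one (IsPD.zero.congr fun s t => by simp [h])
  refine ⟨T, hT, fun x y => ?_⟩
  have h1 : ∀ s, (innerSL ℂ (q s)).comp T = innerSL ℂ (p s) := fun s =>
    op_ext hp fun t => by simp [hT, h]
  have h2 : (innerSL ℂ (T y)).comp T = innerSL ℂ y := op_ext hp fun s => by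
    have := congrArg (fun A : H →L[ℂ] ℂ => (starRingEnd ℂ) (A y)) (h1 s)
    simpa [hT] using this
  have := congrArg (fun A : H →L[ℂ] ℂ => (starRingEnd ℂ) (A x)) h2
  simpa using this

end Op

end Pool.Agent.Lib.E2
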