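import Pool.Agent.Lib.MP_10be03_gt.KUDef

/-!
Star homomorphisms out of `C₀(ℝ)` are given by their values on the two generators `e1`, `e2`.
-/

noncomputable section
open scoped ZeroAtInfty ComplexStarModule
open Complex (I)

namespace Pool.Agent.Lib.E2

/-- The closed curve `{exp (-t²) (1 + i t)} ∪ {0}`. -/
def Gam : Set ℂ := {z | 0 ≤ z.re ∧ z.re ≤ 1 ∧ z.im ^ 2 = -(z.re ^ 2 * Real.log z.re)}

theorem continuous_sq_log : Continuous fun s : ℝ => -(s ^ 2 * Real.log s) :=
  (continuous_id.mul Real.continuous_mul_log).neg.congr fun s => by simp; ring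

theorem isClosed_Gam : IsClosed Gam :=
  (isClosed_le continuous_const Complex.continuous_re).inter
    ((isClosed_le Complex.continuous_re continuous_const).inter
      (isClosed_eq (by fun_prop) (continuous_sq_log.comp Complex.continuous_re)))

theorem Gam.im_sq_le {z : ℂ} (h : z ∈ Gam) : z.im ^ 2 ≤ z.re := by
  obtain ⟨h0, h1, h2⟩ := h
  have h3 := Real.negMulLog_le_one_sub_self h0
  rw [Real.negMulLog] at h3
  nlinarith

theorem isCompact_Gam : IsCompact Gam := by
  refine Metric.isCompact_of_isClosed_isBounded isClosed_Gam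
    ((Metric.isBounded_closedBall (x := (0 : ℂ)) (r := 2)).subset fun z hz => ?_)
  have h := Gam.im_sq_le hz
  rw [mem_closedBall_zero_iff]
  refine (Complex.norm_le_abs_re_add_abs_im z).trans ?_
  have h1 : |z.re| ≤ 1 := abs_le.2 ⟨by linarith [hz.1], hz.2.1⟩
  have h2 : |z.im| ≤ 1 := (sq_le_one_iff_abs_le_one _).1 (h.trans hz.2.1)
  linarith

theorem zero_mem_Gam : (0 : ℂ) ∈ Gam := by simp [Gam]

theorem e1_apply (t : ℝ) : e1 t = ((Real.exp (-t ^ 2) : ℝ) : ℂ) := rfl

theorem e2_apply (t : ℝ) : e2 t = ((t * Real.exp (-t ^ 2) : ℝ) : ℂ) := rfl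

/-- The normal generator of `C₀(ℝ)`. -/
def e0 : C₀(ℝ, ℂ) := e1 + I • e2

theorem e0_re (t : ℝ) : (e0 t).re = Real.exp (-t ^ 2) := by
  simp only [e0, ZeroAtInftyContinuousMap.add_apply, ZeroAtInftyContinuousMap.smul_apply,
    e1_apply, e2_apply, smul_eq_mul, Complex.add_re, Complex.ofReal_re, Complex.mul_re,
    Complex.I_re, Complex.I_im, Complex.ofReal_im]
  ring

theorem e0_im (t : ℝ) : (e0 t).im = t * Real.exp (-t ^ 2) := by
  simp only [e0, ZeroAtInftyContinuousMap.add_apply, ZeroAtInftyContinuousMap.smul_apply,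
    e1_apply, e2_apply, smul_eq_mul, Complex.add_im, Complex.ofReal_re, Complex.mul_im,
    Complex.I_re, Complex.I_im, Complex.ofReal_im]
  ring

theorem e0_mem (t : ℝ) : e0 t ∈ Gam := by
  refine ⟨?_, ?_, ?_⟩
  · rw [e0_re]; positivity
  · rw [e0_re]; exact Real.exp_le_one_iff.2 (by nlinarith [sq_nonneg t])
  · rw [e0_re, e0_im, Real.log_exp]; ring

theorem Gam.exp_eq {z : ℂ} (h : z ∈ Gam) (h0 : z.re ≠ 0) :
    Real.exp (-(z.im / z.re) ^ 2) = z.re := by
  rw [div_pow, h.2.2, neg_div, neg_neg, mul_div_cancel_left₀ _ (pow_ne_zero 2 h0),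
    Real.exp_log (lt_of_le_of_ne h.1 h0.symm)]

theorem Gam.im_eq_zero {z : ℂ} (h : z ∈ Gam) (h0 : z.re = 0) : z.im = 0 := by
  simpa [h0] using h.2.2

open Classical in
/-- A function on the line as a function on the curve. -/
def lft (f : C₀(ℝ, ℂ)) (z : ℂ) : ℂ := if z.re = 0 then 0 else f (z.im / z.re)

theorem lft_zero (f : C₀(ℝ, ℂ)) : lft f 0 = 0 := by simp [lft]

theorem lft_e0 (f : C₀(ℝ, ℂ)) (t : ℝ) : lft f (e0 t) = f t := by
  rw [lft, e0_re, e0_im, if_neg (Real.exp_pos _).ne', mul_div_cancel_right₀ _ (Real.exp_pos _).ne']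

theorem lft_e1 {z : ℂ} (h : z ∈ Gam) : lft e1 z = z.re := by
  unfold lft
  split_ifs with h0
  · simp [h0]
  · rw [e1_apply, Gam.exp_eq h h0]

theorem lft_e2 {z : ℂ} (h : z ∈ Gam) : lft e2 z = z.im := by
  unfold lft
  split_ifs with h0
  · simp [Gam.im_eq_zero h h0]
  · rw [e2_apply, Gam.exp_eq h h0, div_mul_cancel₀ _ h0]

theorem continuousOn_lft (f : C₀(ℝ, ℂ)) : ContinuousOn (lft f) Gam := by
  intro z hz
  by_cases h0 : z.re = 0
  · rw [ContinuousWithinAt, lft, if_pos h0, Metric.tendsto_nhds]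
    intro ε hε
    obtain ⟨K, hK, hf⟩ := Filter.mem_cocompact.1 (Metric.tendsto_nhds.1 f.zero_at_infty' ε hε)
    obtain ⟨R, hR⟩ := hK.isBounded.exists_norm_le
    have h1 : ∀ᶠ w in nhds z, w.re < Real.exp (-R ^ 2) :=
      Complex.continuous_re.continuousAt.eventually (gt_mem_nhds (h0 ▸ Real.exp_pos _))
    filter_upwards [self_mem_nhdsWithin, mem_nhdsWithin_of_mem_nhds h1] with w hw hw1
    unfold lft
    split_ifs with h2
    · simpa using hε
    · refine hf fun hmem => ?_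
      rw [← Gam.exp_eq hw h2, Real.exp_lt_exp, neg_lt_neg_iff] at hw1
      have h3 := hR _ hmem
      rw [Real.norm_eq_abs] at h3
      nlinarith [sq_abs (w.im / w.re), abs_nonneg (w.im / w.re)]
  · have h1 : ContinuousAt (fun w : ℂ => f (w.im / w.re)) z :=
      (map_continuous f).continuousAt.comp (f := fun w : ℂ => w.im / w.re)
        (Complex.continuous_im.continuousAt.div Complex.continuous_re.continuousAt h0)
    refine (h1.congr ?_).continuousWithinAt
    filter_upwards [Complex.continuous_re.continuousAt.eventually_ne h0] with w hw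
    exact (if_neg hw).symm

/-- Evaluation at a point. -/
def evC (t : ℝ) : C₀(ℝ, ℂ) →⋆ₙₐ[ℂ] ℂ where
  toFun f := f t
  map_smul' _ _ := rfl
  map_zero' := rfl
  map_add' _ _ := rfl
  map_mul' _ _ := rfl
  map_star' _ := rfl

theorem continuous_starHom {A B : Type} [NonUnitalCStarAlgebra A] [NonUnitalCStarAlgebra B]
    (φ : A →⋆ₙₐ[ℂ] B) : Continuous φ :=
  AddMonoidHomClass.continuous_of_bound φ 1 fun a => by
    simpa using NonUnitalStarAlgHom.norm_apply_le φ a

instance instNormalC0 (f : C₀(ℝ, ℂ)) : IsStarNormal f := ⟨mul_comm _ _⟩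

theorem cfcn_scalar (F : ℂ → ℂ) (h0 : F 0 = 0) (z : ℂ) : cfcₙ F z = F z := by
  have h : ContinuousOn F (quasispectrum ℂ z) := by
    rw [quasispectrum_eq_spectrum_union_zero]
    refine Set.Finite.continuousOn (Set.Finite.union ?_ (Set.finite_singleton _)) _
    rw [show z = algebraMap ℂ ℂ z from rfl, spectrum.scalar_eq]
    exact Set.finite_singleton _
  rw [cfcₙ_eq_cfc h h0]
  exact cfc_algebraMap (A := ℂ) z F

theorem cfcn_apply_C0 (F : ℂ → ℂ) (g : C₀(ℝ, ℂ)) (hF : ContinuousOn F (quasispectrum ℂ g))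
    (h0 : F 0 = 0) (t : ℝ) : cfcₙ F g t = F (g t) :=
  ((evC t).map_cfcₙ F g hF h0 (continuous_starHom (evC t))).trans (cfcn_scalar F h0 _)

theorem qspec_e0 : quasispectrum ℂ e0 ⊆ Gam := by
  intro z hz
  have h0 : ((Metric.infDist (0 : ℂ) Gam : ℝ) : ℂ) = 0 := by
    rw [Metric.infDist_zero_of_mem zero_mem_Gam]; rfl
  have hc : Continuous fun w : ℂ => ((Metric.infDist w Gam : ℝ) : ℂ) :=
    Complex.continuous_ofReal.comp (Metric.continuous_infDist_pt Gam)
  have h : cfcₙ (fun w : ℂ => ((Metric.infDist w Gam : ℝ) : ℂ)) e0 = cfcₙ (fun _ : ℂ => 0) e0 := by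
    ext t
    rw [cfcn_apply_C0 _ _ hc.continuousOn h0, cfcn_apply_C0 _ _ continuousOn_const rfl,
      Metric.infDist_zero_of_mem (e0_mem t)]
    rfl
  have h1 := eqOn_of_cfcₙ_eq_cfcₙ h (instNormalC0 _) hc.continuousOn h0 continuousOn_const rfl hz
  exact (isClosed_Gam.mem_iff_infDist_zero ⟨0, zero_mem_Gam⟩).2 (Complex.ofReal_eq_zero.1 h1)

theorem cfcn_lft_e0 (f : C₀(ℝ, ℂ)) : cfcₙ (lft f) e0 = f := by
  ext t
  rw [cfcn_apply_C0 _ _ ((continuousOn_lft f).mono qspec_e0) (lft_zero f), lft_e0]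

variable {A B : Type} [CStarAlgebra A] [CStarAlgebra B]

namespace SHom

/-- The underlying bundled homomorphism. -/
def hom (x : SHom C₀(ℝ, ℂ) A) : C₀(ℝ, ℂ) →⋆ₙₐ[ℂ] A := x

theorem app_eq (x : SHom C₀(ℝ, ℂ) A) (f : C₀(ℝ, ℂ)) : x.app f = x.hom f := rfl

theorem ext' {x y : SHom C₀(ℝ, ℂ) A} (h : ∀ f, x.app f = y.app f) : x = y :=
  NonUnitalStarAlgHom.ext h

theorem app_zero (f : C₀(ℝ, ℂ)) : (SHom.zero C₀(ℝ, ℂ) A).app f = 0 := rfl

theorem app_mul (x : SHom C₀(ℝ, ℂ) A) (f g : C₀(ℝ, ℂ)) : x.app (f * g) = x.app f * x.app g :=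
  map_mul x.hom f g

theorem app_add (x : SHom C₀(ℝ, ℂ) A) (f g : C₀(ℝ, ℂ)) : x.app (f + g) = x.app f + x.app g :=
  map_add x.hom f g

theorem app_smul (x : SHom C₀(ℝ, ℂ) A) (c : ℂ) (f : C₀(ℝ, ℂ)) : x.app (c • f) = c • x.app f :=
  map_smul x.hom c f

theorem app_neg (x : SHom C₀(ℝ, ℂ) A) (f : C₀(ℝ, ℂ)) : x.app (-f) = -x.app f :=
  map_neg x.hom f

theorem app_star (x : SHom C₀(ℝ, ℂ) A) (f : C₀(ℝ, ℂ)) : x.app (star f) = star (x.app f) :=
  map_star x.hom f

theorem norm_app_le (x : SHom C₀(ℝ, ℂ) A) (f : C₀(ℝ, ℂ)) : ‖x.app f‖ ≤ ‖f‖ :=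
  NonUnitalStarAlgHom.norm_apply_le x.hom f

theorem app_e0 (x : SHom C₀(ℝ, ℂ) A) : x.app e0 = x.app e1 + I • x.app e2 := by
  rw [e0, app_add, app_smul]

theorem app_eq_cfc (x : SHom C₀(ℝ, ℂ) A) (f : C₀(ℝ, ℂ)) :
    x.app f = cfcₙ (lft f) (x.app e1 + I • x.app e2) := by
  rw [← app_e0]
  conv_lhs => rw [← cfcn_lft_e0 f]
  exact x.hom.map_cfcₙ (lft f) e0 ((continuousOn_lft f).mono qspec_e0) (lft_zero f)
    (continuous_starHom x.hom)

/-- A star homomorphism is determined by its values on the generators. -/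
theorem ext_e {x y : SHom C₀(ℝ, ℂ) A} (h1 : x.app e1 = y.app e1) (h2 : x.app e2 = y.app e2) :
    x = y :=
  ext' fun f => by rw [app_eq_cfc x, app_eq_cfc y, h1, h2]

/-- Composition with a star homomorphism. -/
def post (φ : A →⋆ₙₐ[ℂ] B) (x : SHom C₀(ℝ, ℂ) A) : SHom C₀(ℝ, ℂ) B := φ.comp x.hom

theorem post_app (φ : A →⋆ₙₐ[ℂ] B) (x : SHom C₀(ℝ, ℂ) A) (f : C₀(ℝ, ℂ)) :
    (x.post φ).app f = φ (x.app f) := rfl

end SHom

theorem star_e1 : star e1 = e1 := by
  ext t; simp only [ZeroAtInftyContinuousMap.star_apply, e1_apply, RCLike.star_def,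
    Complex.conj_ofReal]

theorem star_e2 : star e2 = e2 := by
  ext t; simp only [ZeroAtInftyContinuousMap.star_apply, e2_apply, RCLike.star_def,
    Complex.conj_ofReal]

/-- `(a, b)` is the pair of values of a star homomorphism on the generators. -/
structure IsGP (a b : A) : Prop where
  sa1 : IsSelfAdjoint a
  sa2 : IsSelfAdjoint b
  comm : Commute a b
  spec : quasispectrum ℂ (a + I • b) ⊆ Gam

theorem normal_pair {a b : A} (ha : IsSelfAdjoint a) (hb : IsSelfAdjoint b) (h : Commute a b) :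
    IsStarNormal (a + I • b) := ⟨by
  rw [star_add, star_smul, ha.star_eq, hb.star_eq]
  exact ((Commute.refl a).add_right (h.smul_right _)).add_left
    ((h.symm.smul_left _).add_right (((Commute.refl b).smul_left _).smul_right _))⟩

theorem re_pair {a b : A} (ha : IsSelfAdjoint a) (hb : IsSelfAdjoint b) :
    (ℜ (a + I • b) : A) = a := by
  rw [map_add, realPart_I_smul, AddSubgroup.coe_add, ha.coe_realPart, hb.imaginaryPart]
  simp

theorem im_pair {a b : A} (ha : IsSelfAdjoint a) (hb : IsSelfAdjoint b) :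
    (ℑ (a + I • b) : A) = b := by
  rw [map_add, imaginaryPart_I_smul, AddSubgroup.coe_add, hb.coe_realPart, ha.imaginaryPart]
  simp

theorem SHom.isGP (x : SHom C₀(ℝ, ℂ) A) : IsGP (x.app e1) (x.app e2) where
  sa1 := by rw [IsSelfAdjoint, ← x.app_star, star_e1]
  sa2 := by rw [IsSelfAdjoint, ← x.app_star, star_e2]
  comm := by rw [Commute, SemiconjBy, ← x.app_mul, ← x.app_mul, mul_comm]
  spec := by
    rw [← x.app_e0]
    exact (NonUnitalAlgHom.quasispectrum_apply_subset x.hom e0).trans qspec_e0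

/-- The star homomorphism with given values on the generators. -/
def IsGP.shom {a b : A} (h : IsGP a b) : SHom C₀(ℝ, ℂ) A :=
  show C₀(ℝ, ℂ) →⋆ₙₐ[ℂ] A from
  { toFun := fun f => cfcₙ (lft f) (a + I • b)
    map_smul' := fun c f => by
      rw [MonoidHom.id_apply, ← cfcₙ_smul c (lft f) _ ((continuousOn_lft f).mono h.spec)
        (lft_zero f)]
      exact cfcₙ_congr fun z _ => by unfold lft; split_ifs <;> simp
    map_zero' := by
      rw [← cfcₙ_zero ℂ (a + I • b)]
      exact cfcₙ_congr fun z _ => by unfold lft; split_ifs <;> simp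
    map_add' := fun f g => by
      rw [← cfcₙ_add (lft f) (lft g) _ ((continuousOn_lft f).mono h.spec) (lft_zero f)
        ((continuousOn_lft g).mono h.spec) (lft_zero g)]
      exact cfcₙ_congr fun z _ => by unfold lft; split_ifs <;> simp
    map_mul' := fun f g => by
      rw [← cfcₙ_mul (lft f) (lft g) _ ((continuousOn_lft f).mono h.spec) (lft_zero f)
        ((continuousOn_lft g).mono h.spec) (lft_zero g)]
      exact cfcₙ_congr fun z _ => by unfold lft; split_ifs <;> simp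
    map_star' := fun f => by
      rw [← cfcₙ_star]
      exact cfcₙ_congr fun z _ => by unfold lft; split_ifs <;> simp }

theorem IsGP.shom_e1 {a b : A} (h : IsGP a b) : h.shom.app e1 = a := by
  have := normal_pair h.sa1 h.sa2 h.comm
  change cfcₙ (lft e1) (a + I • b) = a
  rw [cfcₙ_congr (g := fun z => (z.re : ℂ)) fun z hz => lft_e1 (h.spec hz), cfcₙ_re_id _,
    re_pair h.sa1 h.sa2]

theorem IsGP.shom_e2 {a b : A} (h : IsGP a b) : h.shom.app e2 = b := by
  have := normal_pair h.sa1 h.sa2 h.comm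
  change cfcₙ (lft e2) (a + I • b) = b
  rw [cfcₙ_congr (g := fun z => (z.im : ℂ)) fun z hz => lft_e2 (h.spec hz), cfcₙ_im_id _,
    im_pair h.sa1 h.sa2]

/-- The function `s ↦ - s² log s`. -/
def gl (z : ℂ) : ℂ := ((-(z.re ^ 2 * Real.log z.re) : ℝ) : ℂ)

theorem continuous_gl : Continuous gl :=
  Complex.continuous_ofReal.comp (continuous_sq_log.comp Complex.continuous_re)

theorem gl_zero : gl 0 = 0 := by simp [gl]

theorem cfcn_re_pair {a b : A} (ha : IsSelfAdjoint a) (hb : IsSelfAdjoint b) (h : Commute a b)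
    {F : ℂ → ℂ} (hF : Continuous F) (h0 : F 0 = 0) :
    cfcₙ (fun z : ℂ => F z.re) (a + I • b) = cfcₙ F a := by
  have := normal_pair ha hb h
  rw [← cfcₙ_realPart F _ hF.continuousOn h0, re_pair ha hb]

theorem cfcn_im_pair {a b : A} (ha : IsSelfAdjoint a) (hb : IsSelfAdjoint b) (h : Commute a b)
    {F : ℂ → ℂ} (hF : Continuous F) (h0 : F 0 = 0) :
    cfcₙ (fun z : ℂ => F z.im) (a + I • b) = cfcₙ F b := by
  have := normal_pair ha hb h
  rw [← cfcₙ_imaginaryPart F _ hF.continuousOn h0, im_pair ha hb]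

theorem re_mem_pair {a b : A} (ha : IsSelfAdjoint a) (hb : IsSelfAdjoint b) (h : Commute a b)
    {z : ℂ} (hz : z ∈ quasispectrum ℂ (a + I • b)) : (z.re : ℂ) ∈ quasispectrum ℂ a := by
  have := normal_pair ha hb h
  have h1 := quasispectrum_realPart (a + I • b)
  rw [re_pair ha hb] at h1
  exact h1 ▸ Set.mem_image_of_mem _ hz

theorem im_mem_pair {a b : A} (ha : IsSelfAdjoint a) (hb : IsSelfAdjoint b) (h : Commute a b)
    {z : ℂ} (hz : z ∈ quasispectrum ℂ (a + I • b)) : (z.im : ℂ) ∈ quasispectrum ℂ b := by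
  have := normal_pair ha hb h
  have h1 := quasispectrum_imaginaryPart (a + I • b)
  rw [im_pair ha hb] at h1
  exact h1 ▸ Set.mem_image_of_mem _ hz

theorem cfcn_im_sq {a b : A} (ha : IsSelfAdjoint a) (hb : IsSelfAdjoint b) (h : Commute a b) :
    cfcₙ (fun z : ℂ => (z.im : ℂ) * (z.im : ℂ)) (a + I • b) = b * b := by
  have := normal_pair ha hb h
  rw [cfcₙ_mul _ _ _, cfcₙ_im_id _, im_pair ha hb]

theorem isGP_iff {a b : A} (ha : IsSelfAdjoint a) (hb : IsSelfAdjoint b) (h : Commute a b) :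
    IsGP a b ↔ (∀ z ∈ quasispectrum ℂ a, 0 ≤ z.re ∧ z.re ≤ 1) ∧ b * b = cfcₙ gl a := by
  have hn := normal_pair ha hb h
  rw [← cfcn_im_sq ha hb h, ← cfcn_re_pair ha hb h continuous_gl gl_zero]
  constructor
  · intro H
    refine ⟨fun z hz => ?_, cfcₙ_congr fun z hz => ?_⟩
    · have h1 := quasispectrum_realPart (a + I • b)
      rw [re_pair ha hb] at h1
      obtain ⟨w, hw, rfl⟩ := h1 ▸ hz
      exact ⟨(H.spec hw).1, (H.spec hw).2.1⟩
    · simp only [gl, Complex.ofReal_re, ← (H.spec hz).2.2]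
      push_cast; ring
  · rintro ⟨h1, h2⟩
    refine ⟨ha, hb, h, fun z hz => ?_⟩
    have h3 := eqOn_of_cfcₙ_eq_cfcₙ h2 hn (by fun_prop) (by simp)
      (continuous_gl.comp (by fun_prop)).continuousOn (by simp [gl_zero]) hz
    have h4 := h1 _ (re_mem_pair ha hb h hz)
    refine ⟨h4.1, h4.2, ?_⟩
    simp only [gl, Complex.ofReal_re] at h3
    rw [sq]
    exact_mod_cast h3

/-- The product of two graded commuting pairs. -/
theorem IsGP.mul {a b a' b' : A} (h : IsGP a b) (h' : IsGP a' b') (h1 : Commute a a')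
    (h2 : Commute a b') (h3 : Commute b a') (h4 : b * b' = -(b' * b)) :
    IsGP (a * a') (b * a' + a * b') := by
  have hs1 : IsSelfAdjoint (a * a') := (h.sa1.commute_iff h'.sa1).1 h1
  have hs2 : IsSelfAdjoint (b * a' + a * b') :=
    ((h.sa2.commute_iff h'.sa1).1 h3).add ((h.sa1.commute_iff h'.sa2).1 h2)
  have hc : Commute (a * a') (b * a' + a * b') :=
    ((h.comm.mul_right h1).mul_left (h3.symm.mul_right (Commute.refl a'))).add_right
      (((Commute.refl a).mul_right h2).mul_left (h1.symm.mul_right h'.comm))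
  obtain ⟨k1, k2⟩ := (isGP_iff h.sa1 h.sa2 h.comm).1 h
  obtain ⟨k3, k4⟩ := (isGP_iff h'.sa1 h'.sa2 h'.comm).1 h'
  have hn := normal_pair h.sa1 h'.sa1 h1
  have e1 : cfcₙ (fun z : ℂ => (z.re : ℂ)) (a + I • a') = a := by
    rw [cfcₙ_re_id _, re_pair h.sa1 h'.sa1]
  have e2 : cfcₙ (fun z : ℂ => (z.im : ℂ)) (a + I • a') = a' := by
    rw [cfcₙ_im_id _, im_pair h.sa1 h'.sa1]
  have e3 : cfcₙ (fun z : ℂ => (z.re : ℂ) * (z.im : ℂ)) (a + I • a') = a * a' := by
    rw [cfcₙ_mul _ _ _, e1, e2]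
  refine (isGP_iff hs1 hs2 hc).2 ⟨fun z hz => ?_, ?_⟩
  · rw [← e3, cfcₙ_map_quasispectrum _ _] at hz
    obtain ⟨w, hw, rfl⟩ := hz
    have p1 := k1 _ (re_mem_pair h.sa1 h'.sa1 h1 hw)
    have p2 := k3 _ (im_mem_pair h.sa1 h'.sa1 h1 hw)
    simp only [Complex.ofReal_re, ← Complex.ofReal_mul] at p1 p2 ⊢
    exact ⟨mul_nonneg p1.1 p2.1, mul_le_one₀ p1.2 p2.1 p2.2⟩
  · have c1 : Continuous fun z : ℂ => gl z.re := continuous_gl.comp (by fun_prop)
    have c2 : Continuous fun z : ℂ => gl z.im := continuous_gl.comp (by fun_prop)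
    have e4 : cfcₙ gl (a * a') = cfcₙ gl a * (a' * a') + (a * a) * cfcₙ gl a' := by
      rw [← e3, ← cfcₙ_comp' gl _ _ continuous_gl.continuousOn gl_zero,
        ← cfcn_re_pair h.sa1 h'.sa1 h1 continuous_gl gl_zero,
        ← cfcn_im_pair h.sa1 h'.sa1 h1 continuous_gl gl_zero, ← cfcn_im_sq h.sa1 h'.sa1 h1]
      have e5 : a * a = cfcₙ (fun z : ℂ => (z.re : ℂ) * (z.re : ℂ)) (a + I • a') := by
        rw [cfcₙ_mul _ _ _, e1]
      rw [e5, ← cfcₙ_mul _ _ _ c1.continuousOn (by simp [gl_zero]),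
        ← cfcₙ_mul _ _ _ (by fun_prop) (by simp) c2.continuousOn (by simp [gl_zero]),
        ← cfcₙ_add (fun x : ℂ => gl x.re * ((x.im : ℂ) * (x.im : ℂ)))
          (fun x : ℂ => (x.re : ℂ) * (x.re : ℂ) * gl x.im) _
          (c1.mul (by fun_prop)).continuousOn (by simp)
          (Continuous.mul (by fun_prop) c2).continuousOn (by simp)]
      refine cfcₙ_congr fun z _ => ?_
      simp only [gl, Complex.ofReal_re, ← Complex.ofReal_mul, ← Complex.ofReal_add]
      congr 1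
      by_cases p1 : z.re = 0
      · simp [p1]
      by_cases p2 : z.im = 0
      · simp [p2]
      rw [Real.log_mul p1 p2]; ring
    rw [e4, ← k2, ← k4]
    have q1 : b * a' * (b * a') = b * b * (a' * a') := by
      rw [mul_assoc, ← mul_assoc a', ← h3.eq]; simp only [mul_assoc]
    have q2 : a * b' * (a * b') = a * a * (b' * b') := by
      rw [mul_assoc, ← mul_assoc b', ← h2.eq]; simp only [mul_assoc]
    have q3 : b * a' * (a * b') = a * a' * (b * b') := by
      rw [h3.eq, mul_assoc, ← mul_assoc b, ← h.comm.eq, mul_assoc, ← mul_assoc, ← h1.eq]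
    have q4 : a * b' * (b * a') = a * a' * (b' * b) := by
      rw [mul_assoc, h3.eq, ← mul_assoc b', ← h'.comm.eq]; simp only [mul_assoc]
    rw [add_mul, mul_add, mul_add, q1, q2, q3, q4, h4, mul_neg]
    abel

/-- The pair of a self-adjoint element with scalar square. -/
theorem isGP_clifford {D : A} (hD : IsSelfAdjoint D) {r : ℝ} (hr : 0 ≤ r)
    (h : D * D = (r : ℂ) • (1 : A)) :
    IsGP ((Real.exp (-r) : ℂ) • (1 : A)) ((Real.exp (-r) : ℂ) • D) := by
  have hs : IsSelfAdjoint ((Real.exp (-r) : ℝ) : ℂ) := Complex.conj_ofReal _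
  refine (isGP_iff (hs.smul (IsSelfAdjoint.one A)) (hs.smul hD)
    (((Commute.one_left D).smul_left _).smul_right _)).2 ?_
  rw [← Algebra.algebraMap_eq_smul_one]
  refine ⟨fun z hz => ?_, ?_⟩
  · rw [quasispectrum_eq_spectrum_union_zero] at hz
    rcases hz with hz | rfl
    · obtain rfl := CFC.spectrum_algebraMap_subset _ hz
      rw [Complex.ofReal_re]
      exact ⟨(Real.exp_pos _).le, Real.exp_le_one_iff.2 (by linarith)⟩
    · simp
  · rw [cfcₙ_eq_cfc continuous_gl.continuousOn gl_zero, cfc_algebraMap, smul_mul_smul_comm, h,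
      smul_smul, Algebra.algebraMap_eq_smul_one, gl, Complex.ofReal_re, Real.log_exp]
    congr 1
    push_cast; ring

/-- Continuity of a family of star homomorphisms is tested on the generators. -/
theorem continuous_shom_app {X : Type} [TopologicalSpace X] {x : X → SHom C₀(ℝ, ℂ) A}
    (h1 : Continuous fun p => (x p).app e1) (h2 : Continuous fun p => (x p).app e2)
    (f : C₀(ℝ, ℂ)) : Continuous fun p => (x p).app f := by
  simp only [fun p => (x p).app_eq_cfc f]
  exact Continuous.cfcₙ' isCompact_Gam (lft f) (h1.add (h2.const_smul I))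
    (fun p => (x p).isGP.spec) (continuousOn_lft f) (lft_zero f)
    fun p => normal_pair (x p).isGP.sa1 (x p).isGP.sa2 (x p).isGP.comm

theorem tendsto_shom_app {X : Type} {l : Filter X} {x : X → SHom C₀(ℝ, ℂ) A}
    {y : SHom C₀(ℝ, ℂ) A} (h1 : Filter.Tendsto (fun p => (x p).app e1) l (nhds (y.app e1)))
    (h2 : Filter.Tendsto (fun p => (x p).app e2) l (nhds (y.app e2))) (f : C₀(ℝ, ℂ)) :
    Filter.Tendsto (fun p => (x p).app f) l (nhds (y.app f)) := by
  simp only [fun p => (x p).app_eq_cfc f, y.app_eq_cfc f]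
  exact Filter.Tendsto.cfcₙ isCompact_Gam (lft f) (h1.add (h2.const_smul I))
    (Filter.Eventually.of_forall fun p => (x p).isGP.spec)
    (Filter.Eventually.of_forall fun p =>
      normal_pair (x p).isGP.sa1 (x p).isGP.sa2 (x p).isGP.comm)
    y.isGP.spec (normal_pair y.isGP.sa1 y.isGP.sa2 y.isGP.comm) (continuousOn_lft f) (lft_zero f)

/-- Values in a closed star subalgebra are tested on the generators. -/
theorem SHom.app_mem (x : SHom C₀(ℝ, ℂ) A) (K : NonUnitalStarSubalgebra ℂ A)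
    (hK : IsClosed (K : Set A)) (h1 : x.app e1 ∈ K) (h2 : x.app e2 ∈ K) (f : C₀(ℝ, ℂ)) :
    x.app f ∈ K := by
  rw [x.app_eq_cfc]
  exact cfcₙ_mem (𝕜' := ℂ) (lft f) (add_mem h1 (SMulMemClass.smul_mem I h2))

theorem norm_e1_le : ‖e1‖ ≤ 1 := by
  rw [← ZeroAtInftyContinuousMap.norm_toBCF_eq_norm]
  refine (BoundedContinuousFunction.norm_le zero_le_one).2 fun t => ?_
  change ‖((Real.exp (-t ^ 2) : ℝ) : ℂ)‖ ≤ 1
  rw [Complex.norm_real, Real.norm_eq_abs, abs_of_pos (Real.exp_pos _)]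
  exact Real.exp_le_one_iff.2 (by nlinarith [sq_nonneg t])

theorem norm_e2_le : ‖e2‖ ≤ 1 := by
  rw [← ZeroAtInftyContinuousMap.norm_toBCF_eq_norm]
  refine (BoundedContinuousFunction.norm_le zero_le_one).2 fun t => ?_
  change ‖((t * Real.exp (-t ^ 2) : ℝ) : ℂ)‖ ≤ 1
  rw [Complex.norm_real, Real.norm_eq_abs, ← e0_im, ← sq_le_one_iff_abs_le_one]
  exact (Gam.im_sq_le (e0_mem t)).trans (e0_mem t).2.1

end Pool.Agent.Lib.E2
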