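import Pool.Agent.Lib.MP_10be03_gt.KPD

/-!
The exponential kernel is positive semidefinite; two functions vanishing at infinity.
-/

noncomputable section

namespace Pool.Agent.Lib.E2

theorem isPD_exp_inner (V : Type) [NormedAddCommGroup V] [InnerProductSpace ℝ V] :
    IsPD fun v w : V => ((Real.exp (inner ℝ v w) : ℝ) : ℂ) :=
  (IsPD.of_inner_real fun v : V => v).exp.congr fun _ _ => (Complex.ofReal_exp _).symm

theorem expKer_posSemidef (V H : Type) [NormedAddCommGroup V] [InnerProductSpace ℝ V]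
    [NormedAddCommGroup H] [InnerProductSpace ℂ H] [CompleteSpace H] :
    (Matrix.of fun v w : V => ((Real.exp (inner ℝ v w) : ℝ) : ℂ) • (1 : H →L[ℂ] H)).PosSemidef := by
  have h10 := (RKHS.posSemidef_tfae (𝕜 := ℂ) (K := Matrix.of fun v w : V =>
    ((Real.exp (inner ℝ v w) : ℝ) : ℂ) • (1 : H →L[ℂ] H))).out 1 0
  refine h10.1 ⟨?_, fun f => ?_⟩
  · ext v w : 2
    simp only [Matrix.conjTranspose_apply, Matrix.of_apply, star_smul, star_one, real_inner_comm,
      RCLike.star_def, Complex.conj_ofReal]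
  · have h := (((isPD_exp_inner V).comap fun p : V × H => p.1).mul
      (IsPD.of_inner fun p : V × H => p.2)).2 f
    refine h.trans_eq (congrArg Complex.re ?_)
    refine Finsupp.sum_congr fun s _ => Finsupp.sum_congr fun t _ => ?_
    simp only [Matrix.of_apply, smul_apply, one_apply_eq_self, inner_smul_left,
      Complex.conj_ofReal, real_inner_comm]

theorem tendsto_sq_cocompact :
    Filter.Tendsto (fun t : ℝ => t ^ 2) (Filter.cocompact ℝ) Filter.atTop := by
  have h := (Filter.tendsto_pow_atTop (α := ℝ) two_ne_zero).comp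
    (tendsto_norm_cocompact_atTop (E := ℝ))
  exact h.congr fun t => by simp

theorem tendsto_gauss : Filter.Tendsto (fun t : ℝ => ((Real.exp (-t ^ 2) : ℝ) : ℂ))
    (Filter.cocompact ℝ) (nhds 0) := by
  have h := (Complex.continuous_ofReal.tendsto 0).comp
    (Real.tendsto_exp_neg_atTop_nhds_zero.comp tendsto_sq_cocompact)
  exact h

theorem tendsto_mul_gauss : Filter.Tendsto (fun t : ℝ => ((t * Real.exp (-t ^ 2) : ℝ) : ℂ))
    (Filter.cocompact ℝ) (nhds 0) := by
  have h0 := Real.tendsto_exp_neg_atTop_nhds_zero.comp tendsto_sq_cocompact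
  have h1 := (Real.tendsto_pow_mul_exp_neg_atTop_nhds_zero 1).comp tendsto_sq_cocompact
  have h2 : Filter.Tendsto (fun t : ℝ => t * Real.exp (-t ^ 2)) (Filter.cocompact ℝ) (nhds 0) := by
    refine squeeze_zero_norm (fun t => ?_) (by simpa using h0.add h1)
    rw [norm_mul, Real.norm_eq_abs, Real.norm_eq_abs, abs_of_pos (Real.exp_pos _)]
    have : |t| ≤ 1 + t ^ 2 := by nlinarith [sq_abs t, abs_nonneg t, sq_nonneg (|t| - 1)]
    nlinarith [Real.exp_pos (-t ^ 2)]
  exact (Complex.continuous_ofReal.tendsto 0).comp h2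

end Pool.Agent.Lib.E2
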