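import Pool.Agent.Lib.MP_10be03_gt.Orth
import Pool.Agent.Lib.MP_10be03_gt.ClPos
import Pool.Agent.Lib.MP_10be03_gt.KerPos

/-!
Periodic complex K-theory as an orthogonal spectrum (Joachim; Schwede, Global homotopy theory,
Construction 6.4.9): the value at `V` is the space of graded star homomorphisms from `C₀(ℝ)` to
the tensor product of the complex Clifford algebra of `V` with the compact operators on the
symmetric Fock space of the complexification of `V`.
-/

noncomputable section
open scoped ZeroAtInfty OnePoint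

namespace Pool.Agent.Lib.E2

section Fock

variable (F : Type) [NormedAddCommGroup F] [InnerProductSpace ℂ F] [CompleteSpace F]

/-- The kernel `exp ⟪v, w⟫` with values in the scalar operators on `F`. -/
def ker (V : Type) [NormedAddCommGroup V] [InnerProductSpace ℝ V] : Matrix V V (F →L[ℂ] F) :=
  Matrix.of fun v w : V => ((Real.exp (inner ℝ v w) : ℝ) : ℂ) • (1 : F →L[ℂ] F)

variable (V : Type) [NormedAddCommGroup V] [InnerProductSpace ℝ V]

instance instFactKer : Fact (ker F V).PosSemidef := ⟨expKer_posSemidef V F⟩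

/-- The Hilbert space tensor product of `F` with the symmetric Fock space of the
complexification of `V` (the Hilbert space with reproducing kernel `exp ⟪v, w⟫`). -/
def Fock : Type := RKHS.OfKernel (ker F V)

instance instNormedFock : NormedAddCommGroup (Fock F V) :=
  (inferInstance : NormedAddCommGroup (RKHS.OfKernel (ker F V)))

instance instInnerFock : InnerProductSpace ℂ (Fock F V) :=
  (inferInstance : InnerProductSpace ℂ (RKHS.OfKernel (ker F V)))

instance instCompleteFock : CompleteSpace (Fock F V) :=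
  (inferInstance : CompleteSpace (RKHS.OfKernel (ker F V)))

instance instRKHSFock : RKHS ℂ (Fock F V) V F :=
  (inferInstance : RKHS ℂ (RKHS.OfKernel (ker F V)) V F)

/-- The bounded operators on a Hilbert space. -/
def BOp (F : Type) [NormedAddCommGroup F] [InnerProductSpace ℂ F] : Type := F →L[ℂ] F

set_option warn.classDefReducibility false in
/-- The C⋆-algebra structure of the bounded operators. -/
def cstarBOp : CStarAlgebra (BOp F) := (inferInstance : CStarAlgebra (F →L[ℂ] F))

instance instCStarBOp : CStarAlgebra (BOp F) := cstarBOp F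

variable {F}

/-- The operator `|k_v⟩ L ⟨k_w|` on a reproducing kernel Hilbert space `H`. -/
def ketBra (H : Type) [NormedAddCommGroup H] [InnerProductSpace ℂ H] [CompleteSpace H]
    {X : Type} [RKHS ℂ H X F] [FiniteDimensional ℂ F] (v w : X) (L : F →ₗ[ℂ] F) : BOp H :=
  RKHS.kerFun H v ∘L LinearMap.toContinuousLinearMap L ∘L
    ContinuousLinearMap.adjoint (RKHS.kerFun H w)

end Fock

section Generic

variable {A B C : Type} [CStarAlgebra A] [CStarAlgebra B] [CStarAlgebra C]

/-- The closed linear span of a set. -/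
def clSpan (s : Set A) : Set A := closure (Submodule.span ℂ s : Set A)

/-- `ν` is continuous and linear. -/
def IsCL (ν : A → B) : Prop := Continuous ν ∧ IsLinearMap ℂ ν

/-- `β` is continuous and bilinear. -/
def IsCB (β : A → B → C) : Prop :=
  Continuous (fun p : A × B => β p.1 p.2) ∧ (∀ a, IsLinearMap ℂ (β a)) ∧
    ∀ b, IsLinearMap ℂ fun a => β a b

/-- Star homomorphisms from `D` to `A`. -/
def SHom (D : Type) [NonUnitalCStarAlgebra D] (A : Type) [CStarAlgebra A] : Type := D →⋆ₙₐ[ℂ] A

/-- Evaluation. -/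
def SHom.app {D : Type} [NonUnitalCStarAlgebra D] (x : SHom D A) (f : D) : A :=
  (show D →⋆ₙₐ[ℂ] A from x) f

/-- The zero homomorphism. -/
def SHom.zero (D : Type) [NonUnitalCStarAlgebra D] (A : Type) [CStarAlgebra A] : SHom D A :=
  (0 : D →⋆ₙₐ[ℂ] A)

/-- Star homomorphisms `C₀(ℝ) → A` with values in `K` that intertwine the reflection of `ℝ` with
`α`, or are zero. -/
def GHom (K : Set A) (α : A → A) : Type :=
  {x : SHom C₀(ℝ, ℂ) A // x = SHom.zero _ _ ∨ ((∀ f, x.app f ∈ K) ∧
    ∀ f g : C₀(ℝ, ℂ), (∀ t, g t = f (-t)) → x.app g = α (x.app f))}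

/-- Evaluation. -/
def GHom.app {K : Set A} {α : A → A} (x : GHom K α) (f : C₀(ℝ, ℂ)) : A := x.1.app f

/-- The topology of pointwise norm convergence. -/
instance instTopGHom (K : Set A) (α : A → A) : TopologicalSpace (GHom K α) :=
  TopologicalSpace.induced GHom.app inferInstance

/-- The zero homomorphism. -/
def GHom.zero (K : Set A) (α : A → A) : GHom K α := ⟨SHom.zero _ _, Or.inl rfl⟩

/-- `S = r • (T + T')`. -/
def IsSum (S : A) (r : ℂ) (T T' : A) : Prop := S = r • (T + T')

/-- `S = r • T`. -/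
def IsSmul (S : A) (r : ℂ) (T : A) : Prop := S = r • T

end Generic

section Hilbert

variable (U : Type) [NormedAddCommGroup U] [InnerProductSpace ℝ U] [FiniteDimensional ℝ U]

/-- The inner product `tr (x* y)` on the Clifford algebra. -/
@[instance_reducible] def clCore : InnerProductSpace.Core ℂ (Cl U) where
  inner x y := tr (star x * y)
  conj_inner_symm x y := by rw [← tr_star, star_mul, star_star]
  re_inner_nonneg := tr_star_mul_nonneg
  add_left x y z := by rw [star_add, add_mul, tr_add]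
  smul_left x y r := by rw [cl_star_smul, smul_mul_assoc, tr_smul]; rfl
  definite := tr_star_mul_eq_zero

instance instNormedCl : NormedAddCommGroup (Cl U) :=
  InnerProductSpace.Core.toNormedAddCommGroup (cd := clCore U)

instance instInnerCl : InnerProductSpace ℂ (Cl U) :=
  InnerProductSpace.ofCore (clCore U).toCore

instance instFiniteCl : FiniteDimensional ℂ (Cl U) := cl_finite

instance instCompleteCl : CompleteSpace (Cl U) := FiniteDimensional.complete ℂ (Cl U)

variable (V : Type) [NormedAddCommGroup V] [InnerProductSpace ℝ V]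

/-- The bounded operators on `Cl U ⊗ Fock V`. -/
def Op : Type := BOp (Fock (Cl U) V)

instance instCStarOp : CStarAlgebra (Op U V) := cstarBOp (Fock (Cl U) V)

variable {U V}

/-- The operator `(left multiplication by c) ⊗ |exp v⟩⟨exp w|`. -/
def th (v w : V) (c : Cl U) : Op U V :=
  ketBra (Fock (Cl U) V) v w (LinearMap.mulLeft ℂ c)

variable (U V)

/-- The algebra `Cl U ⊗ K(Fock V)`: the closed linear span of the operators `th v w c`. -/
def KA : Set (Op U V) := clSpan {T | ∃ v w c, T = th v w c}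

variable {U V}
variable {U' V' : Type} [NormedAddCommGroup U'] [InnerProductSpace ℝ U'] [FiniteDimensional ℝ U']
  [NormedAddCommGroup V'] [InnerProductSpace ℝ V']

/-- `ν` is continuous linear, extends operators along the isometries `k`, `j` (by the vacuum
projection on the complement of `j`) and multiplies on the right by the Clifford element `d`. -/
def IsNu (k : Isom U U') (j : Isom V V') (d : Cl U') (ν : Op U V → Op U' V') : Prop :=
  IsCL ν ∧ ∀ v w c, ν (th v w c) = th (j.ap v) (j.ap w) (clMul k c d)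

/-- A map with the property `IsNu` (it is unique on `KA`). -/
def nu (k : Isom U U') (j : Isom V V') (d : Cl U') : Op U V → Op U' V' :=
  @Classical.epsilon _ ⟨fun _ => th 0 0 d⟩ (IsNu k j d)

variable (U V) in
/-- The grading automorphism, induced by `-1` on the Clifford generators. -/
def gradG : Op U V → Op U V :=
  nu (LinearIsometryEquiv.neg ℝ).toLinearIsometry LinearIsometry.id 1

end Hilbert

/-- The operators at level `n`. -/
abbrev OpE (n : ℕ) : Type := Op (E n) (E n)

/-- The `n`-th space of `KU`: graded star homomorphisms `C₀(ℝ) → Cl(ℝ^n) ⊗ K(Fock ℝ^n)`. -/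
def KUX (n : ℕ) : Type := GHom (KA (E n) (E n)) (gradG (E n) (E n))

instance instTopKUX (n : ℕ) : TopologicalSpace (KUX n) := instTopGHom _ _

/-- The base point. -/
def kuZero (n : ℕ) : KUX n := GHom.zero _ _

/-- The function `exp (-t²)`. -/
def e1 : C₀(ℝ, ℂ) := ⟨⟨fun t => ((Real.exp (-t ^ 2) : ℝ) : ℂ), by fun_prop⟩, tendsto_gauss⟩

/-- The function `t exp (-t²)`. -/
def e2 : C₀(ℝ, ℂ) :=
  ⟨⟨fun t => ((t * Real.exp (-t ^ 2) : ℝ) : ℂ), by fun_prop⟩, tendsto_mul_gauss⟩

/-- `z` is the image of `x` under the morphism `t = (φ, w)`: the product of `x` with the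
functional calculus of the Clifford element `w` (written on the generators `e1`, `e2` of
`C₀(ℝ)`), and zero if `w = ∞`. -/
def IsAct {n N : ℕ} (t : Thom n N) (x : KUX n) (z : KUX N) : Prop :=
  (t.pt = ∞ → z = kuZero N) ∧ ∀ w : E N, t.pt = w →
    IsSmul (z.app e1) (Real.exp (-‖w‖ ^ 2) : ℝ) (nu t.iso t.iso 1 (x.app e1)) ∧
    IsSum (z.app e2) (Real.exp (-‖w‖ ^ 2) : ℝ) (nu t.iso t.iso 1 (x.app e2))
      (nu t.iso t.iso (cl w) (x.app e1))

/-- The data of the orthogonal spectrum `KU`. -/
def KUpre : PreO where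
  X := KUX
  pt := kuZero
  act t x := @Classical.epsilon _ ⟨kuZero _⟩ (IsAct t x)

/-- `β` is the graded tensor product map
`Cl V ⊗ K(V) × Cl W ⊗ K(W) → Cl (V ⊕ W) ⊗ K(V ⊕ W)` of a decomposition. -/
def IsTens {n : Bool → ℕ} {N : ℕ} (φ : Dec n N)
    (β : OpE (n true) → OpE (n false) → OpE N) : Prop :=
  IsCB β ∧ ∀ v w c v' w' c', β (th v w c) (th v' w' c') =
    th (φ.map true v + φ.map false v') (φ.map true w + φ.map false w')
      (clMul (φ.iso true) c (clMul (φ.iso false) c' 1))

/-- A map with the property `IsTens` (it is unique on `KA × KA`). -/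
def tens {n : Bool → ℕ} {N : ℕ} (φ : Dec n N) : OpE (n true) → OpE (n false) → OpE N :=
  @Classical.epsilon _ ⟨fun _ _ => th 0 0 1⟩ (IsTens φ)

/-- `z` is the product of `x` and `y`, through the coproduct `e1 ↦ e1 ⊗ e1`,
`e2 ↦ e2 ⊗ e1 + e1 ⊗ e2` of `C₀(ℝ)`. -/
def IsMul {n : Bool → ℕ} {N : ℕ} (φ : Dec n N) (x : KUX (n true)) (y : KUX (n false))
    (z : KUX N) : Prop :=
  z.app e1 = tens φ (x.app e1) (y.app e1) ∧
    IsSum (z.app e2) 1 (tens φ (x.app e2) (y.app e1)) (tens φ (x.app e1) (y.app e2))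

/-- The multiplication of `KU`. -/
def kuMul {n : Bool → ℕ} {N : ℕ} (φ : Dec n N) (x : KUX (n true)) (y : KUX (n false)) : KUX N :=
  @Classical.epsilon _ ⟨kuZero _⟩ (IsMul φ x y)

/-- `z` is the unit: evaluation at `0` times the vacuum projection. -/
def IsOne (z : KUX 0) : Prop := ∀ f : C₀(ℝ, ℂ), IsSmul (z.app f) (f 0) (th 0 0 1)

/-- The unit of `KU`. -/
def kuOne : KUX 0 := @Classical.epsilon _ ⟨kuZero _⟩ IsOne

/-- All the operations chosen above do have their defining properties. -/
def KUSpec : Prop :=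
  (∀ {n N : ℕ} (k j : Isom (E n) (E N)) (d : Cl (E N)), IsNu k j d (nu k j d)) ∧
  (∀ {n N : ℕ} (t : Thom n N) (x : KUX n), IsAct t x (KUpre.act t x)) ∧
  (∀ {n : Bool → ℕ} {N : ℕ} (φ : Dec n N), IsTens φ (tens φ)) ∧
  (∀ {n : Bool → ℕ} {N : ℕ} (φ : Dec n N) (x : KUX (n true)) (y : KUX (n false)),
    IsMul φ x y (kuMul φ x y)) ∧
  IsOne kuOne

/-- The statement: an `E₂`-ring spectrum whose underlying homotopy ring spectrum is `KU[ζ_p]`. -/
def Final (p : ℕ) : Prop :=
  KUSpec ∧ ∃ (hKU : IsO KUpre) (O : Operad) (π : ∀ (S : Type) [Finite S], O.O S → D2 S)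
    (R : OSp) (μ : MulData O R.toPreO) (φ : OMap ⟨KUpre, hKU⟩ R) (c : O.O Bool) (z : R.X 0)
    (T : SMap R.toS R.toS),
    IsE2 O π ∧ IsAlg O R.toPreO μ ∧
    (∀ (c₀ : O.O Empty) (d : Dec (fun s : Empty => s.elim) 0) (x : ∀ s : Empty, R.X s.elim),
      φ.f 0 kuOne = μ.ap c₀ d x) ∧
    (∀ (c' : O.O Bool) {n : Bool → ℕ} {N : ℕ} (d : Dec n N) (x : ∀ b, KUX (n b)),
      φ.f N (kuMul d (x true) (x false)) = μ.ap c' d fun b => φ.f (n b) (x b)) ∧
    (∀ (N : ℕ) (d : Dec (fun b : Bool => cond b 0 N) N) (x : ∀ b : Bool, R.X (cond b 0 N)),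
      (∀ v, d.map false v = v) → x true = z → T.f N (x false) = μ.ap c d x) ∧
    ∀ a b : ℕ,
      (∀ y, ∑ i ∈ Finset.range p, (T.pi a b)^[i] y = 0) ∧
      Function.Bijective fun y : Fin (p - 1) → (OSp.toS ⟨KUpre, hKU⟩).Pi a b =>
        ∑ i : Fin (p - 1), (T.pi a b)^[i] (φ.toS.pi a b (y i))

end Pool.Agent.Lib.E2
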