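import Pool.Agent.Lib.MP_10be03_gt.SAlg
import Pool.Agent.Lib.MP_10be03_gt.NTyp

import Pool.Agent.Lib.MP_10be03_gt.NSig

/-!
The simplicial algebra of chains of divisors with coefficients.
-/

noncomputable section
open scoped Topology OnePoint

namespace Pool.Agent.Lib.E2.N

open KData

variable {O : Operad} {ι σ : Type} [Fintype ι] [DecidableEq ι] [Fintype σ] {pos : σ → Finset ι}
  {hKU : IsO KUpre} (D : DData O pos) (K : KData (wtOf pos) hKU) (ta tb : σ → Ty)

/-- Chains with a coefficient at the first object. -/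
def X (n m : ℕ) : Type := {p : D.Ch m × K.W n // p.2.1 = nuOf pos (D.deg p.1 0)}

instance instTopX (n m : ℕ) : TopologicalSpace (X D K n m) := instTopologicalSpaceSubtype

variable {D K}

theorem cont1 {n m : ℕ} : Continuous fun p : X D K n m => p.1.1 :=
  continuous_fst.comp continuous_subtype_val

theorem cont2 {n m : ℕ} : Continuous fun p : X D K n m => p.1.2 :=
  continuous_snd.comp continuous_subtype_val

theorem cont_mk {P : Type} [TopologicalSpace P] {n m : ℕ} {f : P → X D K n m}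
    (h1 : Continuous fun p => (f p).1.1) (h2 : Continuous fun p => (f p).1.2) : Continuous f :=
  continuous_induced_rng.2 (h1.prodMk h2)

theorem ext {n m : ℕ} {p p' : X D K n m} (h1 : p.1.1 = p'.1.1) (h2 : p.1.2 = p'.1.2) : p = p' :=
  Subtype.ext (Prod.ext h1 h2)

omit [Fintype σ] in
theorem lc_nu {P : Type} [TopologicalSpace P] {m : ℕ} {x : P → D.Ch m} (hx : Continuous x)
    (j : Fin (m + 1)) : IsLocallyConstant fun p => nuOf pos (D.deg (x p) j) :=
  ((D.lc_deg m j).comp_continuous hx).comp (nuOf pos)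

/-- The simplicial operators. -/
def pull (n : ℕ) {m m' : ℕ} (ψ : Fin (m + 1) →o Fin (m' + 1)) (p : X D K n m') : X D K n m :=
  ⟨(D.pull ψ p.1.1, K.pushS p.1.2 (nuOf pos (D.deg p.1.1 (ψ 0)))
    (typed ta tb (D.mor p.1.1 0 (ψ 0)))), congrArg (nuOf pos) (D.deg_pull ψ _ 0).symm⟩

theorem cont_pull (n : ℕ) {m m' : ℕ} (ψ : Fin (m + 1) →o Fin (m' + 1)) :
    Continuous (pull (D := D) (K := K) ta tb n ψ) :=
  cont_mk ((D.cont_pull ψ).comp cont1) (continuous_pushS cont2 (lc_nu cont1 _)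
    (continuous_typed.comp ((D.cont_mor _ _ _ (Fin.zero_le _)).comp cont1))
    fun p => p.2 ▸ (D.valid_mor _ _ _ (Fin.zero_le _)).typed)

theorem pull_id (n : ℕ) {m : ℕ} (ψ : Fin (m + 1) →o Fin (m + 1)) (p : X D K n m)
    (h : ∀ i, ψ i = i) : pull ta tb n ψ p = p :=
  ext (D.pull_id ψ _ h) (by
    change K.pushS _ _ _ = _
    rw [h]
    exact pushS_id p.2 (D.mor_self _ _).typed)

theorem pull_comp (n : ℕ) {m m' m'' : ℕ} (ψ : Fin (m + 1) →o Fin (m' + 1))
    (χ : Fin (m' + 1) →o Fin (m'' + 1)) (p : X D K n m'') :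
    pull ta tb n ψ (pull ta tb n χ p) = pull ta tb n (χ.comp ψ) p :=
  ext (D.pull_comp _ _ _) (by
    change K.pushS (K.pushS _ _ _) (nuOf pos (D.deg (D.pull _ _) _)) (typed _ _ (D.mor (D.pull _ _) _ _)) = _
    rw [D.deg_pull, D.mor_pull _ _ _ _ (Fin.zero_le _)]
    have h := χ.monotone (Fin.zero_le (ψ 0))
    exact pushS_comp p.2 (D.valid_mor _ _ _ (Fin.zero_le _)).typed (D.valid_mor _ _ _ h).typed
      (D.mor_comp _ _ _ _ (Fin.zero_le _) h).typed)

/-- The structure maps. -/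
def act (m : ℕ) {n N : ℕ} (t : Thom n N) (p : X D K n m) : X D K N m :=
  ⟨(p.1.1, K.actS t p.1.2), p.2⟩

/-- The operad action. -/
def mu (m : ℕ) {S : Type} [Finite S] {n : S → ℕ} {N : ℕ} (c : O.O S) (φ : Dec n N)
    (p : ∀ s, X D K (n s) m) : X D K N m :=
  ⟨(D.mul m c fun s => (p s).1.1, K.muS (fun s => (p s).1.2)
    (nuOf pos (D.deg (D.mul m c fun s => (p s).1.1) 0)) (D.blk c (fun s => (p s).1.1) 0) φ), rfl⟩

theorem isBlk {m : ℕ} {S : Type} [Finite S] {n : S → ℕ} (c : O.O S) (p : ∀ s, X D K (n s) m) :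
    IsBlk (fun s => (p s).1.2.1) (nuOf pos (D.deg (D.mul m c fun s => (p s).1.1) 0))
      (D.blk c (fun s => (p s).1.1) 0) := by
  rw [funext fun s => (p s).2]
  exact D.isBlk c _ 0

variable (D K)

/-- The standard point over an index. -/
def sec (m : ℕ) (δ : Idx ι m) (n : ℕ) (x : (K.Y (nuOf pos δ.1)).X n) : X D K n m :=
  ⟨(D.std m δ, ⟨nuOf pos δ.1, x⟩), congrArg (nuOf pos) (D.deg_std m δ).symm⟩

/-- The levels. -/
def space (n : ℕ) : SSpace where
  X := X D K n
  t2 m := have := D.t2 m; inferInstanceAs (T2Space (Subtype _))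
  Z _ := {p | p.1.2 ∈ K.Zs n}
  closed_Z _ := (K.isClosed_Zs n).preimage cont2
  pt := sec D K 0 0 n ((K.Y _).pt n)
  pt_mem := rfl
  face ψ := pull ta tb n ψ.toOrderHom
  cont_face _ := cont_pull ta tb n _
  face_id ψ := pull_id ta tb n ψ.toOrderHom
  face_comp _ _ := pull_comp ta tb n _ _
  face_Z _ _ := pushS_Z

/-- The simplicial algebra. -/
def alg : SAlg O where
  A := space D K ta tb
  fc n m := have := D.fc m
    (Topology.IsInducing.subtypeVal (t := {p : D.Ch m × K.W n |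
      p.2.1 = nuOf pos (D.deg p.1 0)})).firstCountableTopology
  pull := pull ta tb
  cont_pull := cont_pull ta tb
  pull_comp := pull_comp ta tb
  pull_Z _ _ _ _ _ := pushS_Z
  face_eq _ _ _ _ _ := rfl
  act := act
  cont_act m n _ := cont_mk ((cont1 (n := n)).comp continuous_snd)
    (continuous_actS continuous_fst (cont2.comp continuous_snd))
  act_pull _ t p := ext rfl (pushS_act p.2 (D.valid_mor _ _ _ (Fin.zero_le _)).typed t)
  act_Z _ _ _ t _ := actS_Z t
  act_inf _ _ _ t p h := (K.Y p.1.2.1).isO.act_inf t _ h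
  act_id _ _ t p h h' := ext rfl (congrArg (Sigma.mk p.1.2.1) ((K.Y p.1.2.1).isO.act_id t _ h h'))
  act_comp _ _ _ _ t t' t'' w w' p h1 h2 h3 h4 := ext rfl (congrArg (Sigma.mk p.1.2.1)
    ((K.Y p.1.2.1).isO.act_comp t t' t'' w w' _ h1 h2 h3 h4))
  μ := mu
  kcont m S _ n N φ C _ _ _ g hg := by
    have h0 : Continuous fun k => ((g k).1, fun s => ((g k).2 s).1.1) :=
      hg.fst.prodMk (continuous_pi fun s => cont1.comp ((continuous_apply s).comp hg.snd))
    have h1 := D.kcont_mul m C _ h0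
    exact cont_mk h1 (continuous_muS φ (fun s => cont2.comp ((continuous_apply s).comp hg.snd))
      (lc_nu h1 0) (D.kcont_blk m 0 C _ h0) fun k => isBlk _ _)
  μ_pull ψ S _ n N c φ p := ext (D.mul_pull _ _ _) (by
    change K.muS (fun s => K.pushS _ _ _) (nuOf pos (D.deg (D.mul _ c fun s => D.pull _ _) 0))
      (D.blk c (fun s => D.pull _ _) 0) φ = _
    rw [D.mul_pull, D.deg_pull, D.blk_pull]
    exact pushS_muS (fun s => (p s).2) (D.isBlk c _ 0) (D.isBlk c _ _)
      (fun s => (D.valid_mor _ _ _ (Fin.zero_le _)).typed) (D.valid_mor _ _ _ (Fin.zero_le _)).typed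
      (D.compat c _ _ _ (Fin.zero_le _)).typed φ)
  μ_Z m S _ n N c φ p s h := K.mu_base _ _ _ φ _ s h
  μ_lin m S _ n n' N N' c φ φ' t w T p h1 h2 h3 := ext rfl (congrArg (Sigma.mk _)
    (K.mu_lin _ _ _ (isBlk c p) φ φ' t w T _ h1 h2 h3))
  μ_one m N φ p h := ext (D.mul_one _ _) (by
    change K.muS (fun _ => p.1.2) (nuOf pos (D.deg (D.mul m O.one fun _ => p.1.1) 0)) _ φ = _
    have h1 := D.blk_one p.1.1 0
    rw [D.mul_one, ← p.2] at *
    exact congrArg (Sigma.mk _) (K.mu_one _ _ h1 φ _ h))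
  μ_assoc m S _ T _ n k N c d φ ψ χ p h := ext (D.mul_assoc _ _ _ _) (by
    have h1 := D.blk_assoc c d (fun s => (p s).1.1) 0
    change K.muS _ (nuOf pos (D.deg (D.mul m (O.comp c d) _) 0)) _ χ = _
    rw [D.mul_assoc] at *
    refine congrArg (Sigma.mk _) (K.mu_assoc _ _ _ _ _ _
      (isBlk c fun s => mu m (d s) (ψ s) fun t => p ⟨s, t⟩)
      (fun s => isBlk (d s) fun t => p ⟨s, t⟩) (fun s t a => ?_) φ ψ χ _ h)
    rw [(p ⟨s, t⟩).2]
    exact h1 s t a)
  μ_rel m S T _ _ e n N c φ φ' p h := ext (D.mul_rel _ _ _ _) (by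
    have h1 := K.mu_rel e _ _ _ (isBlk (O.rel e c) p) φ φ' (fun t => (p t).1.2.2) h
    simp only [D.blk_rel] at h1
    change K.muS _ (nuOf pos (D.deg (D.mul m (O.rel e c) _) 0)) _ φ' = K.muS _
      (nuOf pos (D.deg (D.mul m c fun s => (p (e s)).1.1) 0)) _ _
    rw [← D.mul_rel m e c fun t => (p t).1.1]
    exact congrArg (Sigma.mk _) h1)

end Pool.Agent.Lib.E2.N
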