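import Pool.Agent.Lib.MP_10be03_gt.NAlg

/-!
The cell structure of the simplicial algebra.
-/

noncomputable section
open scoped Topology OnePoint

namespace Pool.Agent.Lib.E2.N

open KData

variable {O : Operad} {ι σ : Type} [Fintype ι] [DecidableEq ι] [Fintype σ] {pos : σ → Finset ι}
  {hKU : IsO KUpre} (D : DData O pos) (K : KData (wtOf pos) hKU) (ta tb : σ → Ty)

/-- Functoriality as a map of sequential spectra. -/
def pushMap {ν ν' : σ → ℕ} {q : Raw σ} (h : Valid ν ν' q) : SMap (K.Y ν).toS (K.Y ν').toS where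
  f := K.push ν ν' q
  cont n := (K.cont_push ν ν' n).comp_continuous (continuous_const.prodMk continuous_id) fun _ => h
  f_pt := K.push_pt ν ν' q
  f_sg n x u := K.push_act ν ν' q h (sThom n u) x

/-- The index of a chain. -/
def idx {m : ℕ} (x : D.Ch m) : Idx ι m := (D.deg x 0, fun k => D.dg x k.castSucc k.succ)

section
omit [Fintype σ]

theorem lc_idx (m : ℕ) : IsLocallyConstant (idx D (m := m)) :=
  (D.lc_deg m 0).prodMk ((IsLocallyConstant.iff_eventually_eq _).2 fun x =>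
    (Filter.eventually_all.2 fun k : Fin m =>
      (D.lc_dg m _ _ k.castSucc_lt_succ.le).eventually_eq x).mono fun _ => funext)

theorem idx_std {m : ℕ} (δ : Idx ι m) : idx D (D.std m δ) = δ :=
  Prod.ext (D.deg_std m δ) (funext (D.dg_std m δ))

theorem dg_std' {m : ℕ} (δ : Idx ι m) (k : Fin m) {i j : Fin (m + 1)} (hi : (i : ℕ) = k)
    (hj : (j : ℕ) = k + 1) : D.dg (D.std m δ) i j = δ.2 k := by
  rw [show i = k.castSucc from Fin.ext hi, show j = k.succ from Fin.ext hj, D.dg_std]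

theorem dg_act {m : ℕ} (i : Fin (m + 2)) (δ : Idx ι (m + 1)) :
    D.dg (D.std _ δ) 0 (i.succAbove 0) = δ.act i := by
  induction i using Fin.cases with
  | zero => exact dg_std' D δ 0 rfl rfl
  | succ j => rw [Fin.succ_succAbove_zero, D.dg_self]; rfl

theorem deg_act {m : ℕ} (i : Fin (m + 2)) (δ : Idx ι (m + 1)) :
    D.deg (D.std _ δ) (i.succAbove 0) = (δ.pull i).1 := by
  rw [D.deg_add _ 0 _ (Fin.zero_le _), dg_act, D.deg_std]
  rfl

theorem val_succAbove {m : ℕ} (i : Fin (m + 1)) (k : Fin m) :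
    (i.succAbove k : ℕ) = if (k : ℕ) < i then (k : ℕ) else k + 1 := by
  unfold Fin.succAbove
  split_ifs with h h' h' <;> first | rfl | exact absurd h h' | exact absurd h' h

theorem idx_face {m : ℕ} (i : Fin (m + 2)) (δ : Idx ι (m + 1)) :
    idx D (D.pull (Fin.succAboveOrderEmb i).toOrderHom (D.std _ δ)) = δ.pull i := by
  refine Prod.ext ((D.deg_pull _ _ _).trans (deg_act D i δ)) (funext fun k => ?_)
  refine (D.dg_pull _ _ _ _ k.castSucc_lt_succ.le).trans ?_
  change D.dg _ (i.succAbove k.castSucc) (i.succAbove k.succ) = _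
  have h1 := val_succAbove i k.castSucc
  have h2 := val_succAbove i k.succ
  simp only [Fin.val_castSucc, Fin.val_succ] at h1 h2
  induction i using Fin.cases with
  | zero => exact dg_std' D δ k.succ h1 h2
  | succ j =>
    change _ = Fin.contractNth j _ δ.2 k
    rw [Fin.val_succ] at h1 h2
    rcases lt_trichotomy (k : ℕ) j with h | h | h
    · rw [Fin.contractNth_apply_of_lt _ _ _ _ h]
      exact dg_std' D δ _ (h1.trans (if_pos (by omega))) (h2.trans (if_pos (by omega)))
    · rw [if_pos (by omega)] at h1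
      rw [if_neg (by omega)] at h2
      rw [Fin.contractNth_apply_of_eq _ _ _ _ h, D.dg_add _ _ k.castSucc.succ _
        (by rw [Fin.le_def, h1]; simp) (by rw [Fin.le_def, h2]; simp),
        dg_std' D δ k.castSucc h1 rfl, dg_std' D δ k.succ rfl h2]
    · rw [Fin.contractNth_apply_of_gt _ _ _ _ h]
      exact dg_std' D δ _ (h1.trans (if_neg (by omega))) (h2.trans (if_neg (by omega)))

theorem valid_face {m : ℕ} (i : Fin (m + 2)) (δ : Idx ι (m + 1)) : Valid (nuOf pos δ.1)
    (nuOf pos (δ.pull i).1) (typed ta tb (D.mor (D.std _ δ) 0 (i.succAbove 0))) := by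
  rw [← deg_act D, ← D.deg_std _ δ]
  exact (D.valid_mor _ _ _ (Fin.zero_le _)).typed

end

variable {D K}

/-- The coefficient of a chain. -/
def coef {n m : ℕ} (p : X D K n m) : (K.Y (nuOf pos (D.deg p.1.1 0))).X n := p.2 ▸ p.1.2.2

theorem mk_coef {n m : ℕ} (p : X D K n m) : (⟨_, coef p⟩ : K.W n) = p.1.2 := by
  obtain ⟨⟨x, ν, y⟩, h⟩ := p
  dsimp only at h
  subst h
  rfl

theorem cell_ext {m n : ℕ} {u v : Σ δ : Idx ι m, (K.Y (nuOf pos δ.1)).X n} (h1 : u.1 = v.1)
    (h2 : (⟨_, u.2⟩ : K.W n) = ⟨_, v.2⟩) : u = v := by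
  obtain ⟨δ, x⟩ := u
  obtain ⟨δ', x'⟩ := v
  dsimp only at h1
  subst h1
  exact congrArg _ (eq_of_heq (Sigma.mk.inj h2).2)

variable (D K)

/-- The deformation of the chain. -/
def hom (m n : ℕ) (p : X D K n m) (u : unitInterval) : X D K n m :=
  ⟨(D.hom m p.1.1 u, p.1.2), p.2.trans (congrArg (nuOf pos) (D.deg_hom m _ u).symm)⟩

theorem cont_hom (m n : ℕ) : Continuous fun p : X D K n m × unitInterval => hom D K m n p.1 p.2 :=
  cont_mk ((D.cont_hom m).comp ((cont1.comp continuous_fst).prodMk continuous_snd))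
    ((cont2 (D := D) (K := K) (n := n) (m := m)).comp (continuous_fst (Y := unitInterval)) :)

/-- The cell structure. -/
def cells : Cells (alg D K ta tb).simp where
  idx := Idx ι
  Y _ δ := (K.Y (nuOf pos δ.1)).toS
  pullD _ i δ := δ.pull i
  g _ i δ := pushMap K (valid_face D ta tb i δ)
  s := sec D K
  cont_s _ _ n := cont_mk continuous_const (K.cont_mk n _)
  s_pt _ _ _ := rfl
  s_sg _ _ _ _ _ := rfl
  r _ _ p := ⟨idx D p.1.1, coef p⟩
  cont_r m n := continuous_iff_continuousAt.2 fun p => by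
    obtain ⟨y, h1, h2⟩ := nSigma_local (cont2 (D := D) (K := K)).continuousAt (mk_coef p).symm
    exact (((continuous_sigmaMk (σ := fun δ : Idx ι m => (K.Y (nuOf pos δ.1)).X n)
      (i := idx D p.1.1)).tendsto _).comp h1).congr' ((h2.and (((lc_idx D m).comp_continuous
        (cont1 (K := K) (n := n))).eventually_eq p)).mono fun p' hp =>
          cell_ext hp.2.symm (hp.1.symm.trans (mk_coef p').symm))
  r_Z _ n p h := (mk_coef p ▸ h : (⟨_, coef p⟩ : K.W n) ∈ K.Zs n)
  r_sg _ n p u := cell_ext rfl ((mk_coef _).trans (congrArg (K.actS (sThom n u)) (mk_coef p).symm))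
  r_s _ δ _ _ := cell_ext (idx_std D δ) (mk_coef _)
  hom := hom D K
  cont_hom := cont_hom D K
  hom_zero _ _ _ := ext (D.hom_zero _ _) rfl
  hom_one _ _ p := ext (D.hom_one _ _) (mk_coef p).symm
  hom_Z _ _ _ _ h := h
  hom_sg _ _ _ _ _ := rfl
  r_face_s m i δ n x := cell_ext (idx_face D i δ) ((mk_coef _).trans (by
    change K.pushS _ (nuOf pos (D.deg (D.std _ δ) (i.succAbove 0))) _ = _
    rw [deg_act]
    rfl))

theorem chi_typed {ν ν' : σ → ℕ} {q : Raw σ} (h : Valid ν ν' q) {A B : ι → ℕ}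
    (hv : ∀ a, (mat (q.2.1 a) (ν' a) (ν' a)).trace =
      (nCnt ta .vac (nuOf pos A) a + nCnt tb .vac (nuOf pos B) a : ℕ))
    (ht : ∀ a, (mat (q.2.2 a) (ν' a) (ν' a)).trace =
      (nCnt ta .top (nuOf pos A) a + nCnt tb .top (nuOf pos B) a : ℕ))
    (hν : ∀ a, ν' a = ν a + nuOf pos A a + nuOf pos B a) (a b : ℕ) (x : (K.Y ν).toS.Pi a b) :
    K.χ ν' a b ((pushMap K h).pi a b x) = (chOf pos ta A * chOf pos tb B) • K.χ ν a b x := by
  rw [K.χ_push ν ν' _ h _ _ (fun s => nCnt ta .free (nuOf pos A) s + nCnt tb .free (nuOf pos B) s)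
    hv ht (fun s => by have := nCnt_sum ta (nuOf pos A) s; have := nCnt_sum tb (nuOf pos B) s
                       have := hν s; omega) (pushMap K h) (fun _ _ => rfl),
    ← prod_nCnt, ← prod_nCnt, ← Finset.prod_mul_distrib]
  congr 1
  exact Finset.prod_congr rfl fun s _ => by ring

theorem chi_face {m : ℕ} (i : Fin (m + 2)) (δ : Idx ι (m + 1)) (a b : ℕ)
    (x : (K.Y (nuOf pos δ.1)).toS.Pi a b) :
    K.χ _ a b (((cells D K ta tb).g m i δ).pi a b x) =
      (chOf pos ta (δ.act i).1 * chOf pos tb (δ.act i).2) • K.χ _ a b x := by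
  have hA := D.tr_a (D.std _ δ) 0 (i.succAbove 0) (Fin.zero_le _)
  have hB := D.tr_b (D.std _ δ) 0 (i.succAbove 0) (Fin.zero_le _)
  rw [deg_act, dg_act] at hA hB
  refine chi_typed K ta tb (valid_face D ta tb i δ) (fun s => trace_nPr .vac (hA s) (hB s))
    (fun s => trace_nPr .top (hA s) (hB s)) (fun s => ?_) a b x
  rw [← nuOf_add, ← nuOf_add]
  rfl

end Pool.Agent.Lib.E2.N
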