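import Pool.Agent.Lib.MP_10be03_gt.SAlg
import Pool.Agent.Lib.MP_10be03_gt.KCont
import Pool.Agent.Lib.MP_10be03_gt.NSig

/-!
Left multiplication by a point of level zero.
-/

noncomputable section
open scoped Topology OnePoint

namespace Pool.Agent.Lib.E2.N

instance instSubE0 : Subsingleton (E 0) := ⟨fun _ _ => by ext i; exact i.elim0⟩

theorem isom_zero {N : ℕ} (φ : Isom (E 0) (E N)) (v : E 0) : φ.ap v = 0 := by
  rw [Subsingleton.elim v 0]
  exact map_zero φ

/-- The decomposition of `ℝ^N` into `ℝ^0` and itself. -/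
def dec (N : ℕ) : Dec (fun b : Bool => cond b 0 N) N :=
  ⟨fun b => Bool.rec LinearIsometry.id ⟨0, fun v : E 0 => by simp [Subsingleton.elim v 0]⟩ b,
    fun
      | true, _, _, _, _ => by rw [isom_zero, inner_zero_left]
      | false, true, _, _, _ => by rw [isom_zero (N := N), inner_zero_right]
      | false, false, h, _, _ => absurd rfl h,
    fun w h => inner_self_eq_zero.1 (h false w)⟩

theorem dec_eq {N : ℕ} (d : Dec (fun b : Bool => cond b 0 N) N) (h : ∀ v, d.map false v = v) :
    d = dec N := Subtype.ext (funext fun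
  | true => LinearIsometry.ext fun v => (isom_zero _ v).trans (isom_zero _ v).symm
  | false => LinearIsometry.ext h)

/-- A pair of points of levels `0` and `N`. -/
def pair {F : ℕ → Type} {N : ℕ} (z : F 0) (x : F N) (b : Bool) : F (cond b 0 N) := Bool.rec x z b

/-- The identity morphism of level zero. -/
def idT : Thom 0 0 := ⟨(ContinuousLinearMap.id ℝ _, ((0 : E 0) : OnePoint (E 0))),
  fun _ => rfl, fun w _ v => by rw [Subsingleton.elim w 0, inner_zero_left]⟩

theorem exists_left {O : Operad} (R : OSp) [∀ n, CompactlyGeneratedSpace (R.X n)]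
    {μ : MulData O R.toPreO} (h : IsAlg O R.toPreO μ) (c : O.O Bool) (z : R.X 0) :
    ∃ T : SMap R.toS R.toS, ∀ N x, T.f N x = μ.ap c (dec N) (pair (F := R.X) z x) := by
  refine ⟨⟨fun N x => μ.ap c (dec N) (pair (F := R.X) z x), fun N => KCont.continuous (Y := R.X N)
    ((h.kcont (dec N)).comp_continuous (g := fun x : R.X N => (c, pair (F := R.X) z x))
      (continuous_const.prodMk (continuous_pi fun | true => continuous_const
                                                  | false => continuous_id))),
    fun N => h.base c _ _ false rfl, fun N x u => ?_⟩, fun _ _ => rfl⟩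
  change μ.ap c _ (pair (F := R.X) z (R.act (sThom N u) x)) = R.act (sThom N u) _
  rcases hw : (sThom N u).pt with _ | w
  · exact (h.base c _ _ false (R.isO.act_inf _ _ hw)).trans (R.isO.act_inf _ _ hw).symm
  refine Eq.trans (congrArg _ (funext ?_)) (h.lin c (dec N) (dec (N + 1))
    (fun b => Bool.rec (sThom N u) idT b) (pair (F := E) 0 w) (sThom N u) (pair (F := R.X) z x)
    (fun | true => rfl | false => hw) (fun
      | true, v => by
        rw [Dec.map, Dec.map, isom_zero, isom_zero (N := N + 1)]
        exact map_zero (sThom N u).1.1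
      | false, v => rfl) ?_)
  · rintro (_ | _)
    exacts [rfl, (R.isO.act_id idT z (fun _ => rfl) rfl).symm]
  · rw [finsum_eq_sum_of_fintype, Fintype.sum_bool, Dec.map, isom_zero (N := N + 1), zero_add]
    exact hw

theorem cg_Re {O : Operad} (B : SAlg O) (n : ℕ) : CompactlyGeneratedSpace (B.A n).Re := by
  have := B.fc n
  have : SequentialSpace (B.A n).Re := (isQuotientMap_quot_mk (r := (B.A n).Rel)).sequentialSpace
  infer_instance

theorem nonempty_two {O : Operad} {π : ∀ (S : Type) [Finite S], O.O S → D2 S} (h : IsE2 O π) :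
    Nonempty (O.O Bool) := by
  obtain ⟨e, -⟩ := h.equiv Bool
  refine ⟨e.invFun ⟨fun b => (cond b (1 / 2) (-(1 / 2)), 1 / 2), ?_, ?_⟩⟩
  · rintro (_ | _) <;> norm_num
  · rintro (_ | _) (_ | _) h <;> first | exact absurd rfl h | norm_num

end Pool.Agent.Lib.E2.N
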