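import Pool.Agent.Lib.MP_10be03_gt.NCell
import Pool.Agent.Lib.MP_10be03_gt.NLeft
import Pool.Agent.Lib.MP_10be03_gt.HBase

/-!
The unit map and the left multiplication on vertices.
-/

noncomputable section
open scoped Topology OnePoint TensorProduct

namespace Pool.Agent.Lib.E2.N

open KData

variable {O : Operad} {ι σ : Type} [Fintype ι] [DecidableEq ι] [Fintype σ] {pos : σ → Finset ι}
  {hKU : IsO KUpre} (D : DData O pos) (K : KData (wtOf pos) hKU) (ta tb tz : σ → Ty) (nz : ι → ℕ)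

/-- The vertex of a chain of length zero. -/
def vt {n : ℕ} (p : X D K n 0) : (alg D K ta tb).pre.X n :=
  (space D K ta tb n).mk' 0 p (stdSimplex.vertex 0)

theorem cont_vt (n : ℕ) : Continuous (vt D K ta tb (n := n)) :=
  ((space D K ta tb n).continuous_mk' 0).comp (continuous_id.prodMk continuous_const)

/-- The unit map on chains. -/
def unit0 (n : ℕ) (x : KUX n) : X D K n 0 :=
  ⟨(D.std 0 0, ⟨0, K.iota.f n x⟩),
    ((congrArg (nuOf pos) (D.deg_std 0 0)).trans (nuOf_zero pos)).symm⟩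

/-- The unit map. -/
def unit (h : IsO (alg D K ta tb).pre) : OMap ⟨KUpre, hKU⟩ ⟨_, h⟩ where
  f n x := vt D K ta tb (unit0 D K n x)
  cont n := (cont_vt D K ta tb n).comp
    (cont_mk continuous_const ((K.cont_mk n 0).comp (K.iota.cont n)))
  f_pt n := (space D K ta tb n).mk'_of_mem (K.iota.f_pt n) _
  f_act t x := congrArg (vt D K ta tb) (ext rfl (congrArg (Sigma.mk 0) (K.iota.f_act t x)))

theorem unit0_eq {S : Type} [Finite S] {n : S → ℕ} {N : ℕ} (c : O.O S) (φ : Dec n N)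
    (p : ∀ s, X D K (n s) 0) (hp : ∀ s, D.deg (p s).1.1 0 = 0) (x : KUX N)
    (h : ∀ β, (⟨0, K.iota.f N x⟩ : K.W N) = K.muS (fun s => (p s).1.2) 0 β φ) :
    unit0 D K N x = mu 0 c φ p := by
  have h0 : D.deg (D.mul 0 c fun s => (p s).1.1) 0 = 0 := by simp [D.deg_mul, hp]
  refine ext (D.eq_of_deg_zero _ _ (D.deg_std 0 0) h0) ?_
  change _ = K.muS _ (nuOf pos (D.deg (D.mul 0 c fun s => (p s).1.1) 0)) _ φ
  rw [h0, nuOf_zero]
  exact h _

theorem exists_base (h : IsO (alg D K ta tb).pre) (δ : Idx ι 0) (hδ : δ.1 = 0) (a b : ℕ)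
    (y : (OSp.toS ⟨KUpre, hKU⟩).Pi a b) : ∃ x, K.χ (nuOf pos δ.1) a b x = 1 ⊗ₜ[ℤ] y ∧
      (unit D K ta tb h).toS.pi a b y = ((cells D K ta tb).vtx δ).pi a b x := by
  obtain ⟨g, h1, h2⟩ : ∃ g : SMap (OSp.toS ⟨KUpre, hKU⟩) (K.Y (nuOf pos δ.1)).toS,
      (∀ n x, (⟨0, K.iota.f n x⟩ : K.W n) = ⟨_, g.f n x⟩) ∧
        K.χ _ a b (g.pi a b y) = 1 ⊗ₜ[ℤ] y := by
    rw [hδ, nuOf_zero]
    exact ⟨K.iota.toS, fun _ _ => rfl, K.χ_iota a b y⟩
  refine ⟨_, h2, Eq.trans ?_ (SMap.pi_comp ((cells D K ta tb).vtx δ) g a b y)⟩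
  refine DFunLike.congr_fun (SMap.pi_congr (fun n x => ?_) a b) y
  exact congrArg (vt D K ta tb) (ext (congrArg (D.std 0)
    (Prod.ext hδ.symm (Subsingleton.elim _ _))) (h1 n x))

/-- The chain that represents the root of unity. -/
def root : X D K 0 0 :=
  ⟨(D.std 0 (nz, 0), K.pushS ⟨0, K.iota.f 0 kuOne⟩ (nuOf pos nz) (typed tz tz (0, nOne σ, 0))),
    congrArg (nuOf pos) (D.deg_std 0 (nz, 0)).symm⟩

theorem exists_step0 (c : O.O Bool) (δ δ' : Idx ι 0) (hδ : δ'.1 = nz + δ.1) :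
    ∃ (g : SMap (K.Y (nuOf pos δ.1)).toS (K.Y (nuOf pos δ'.1)).toS) (x₁ : D.Ch 0),
      D.deg x₁ 0 = δ'.1 ∧ (∀ a b x, K.χ _ a b (g.pi a b x) = chOf pos tz nz • K.χ _ a b x) ∧
      ∀ n x, (mu 0 c (dec n) (pair (F := fun n => X D K n 0) (root D K tz nz) (sec D K 0 δ n x))).1 =
        (x₁, ⟨_, g.f n x⟩) := by
  let u : Bool → D.Ch 0 := fun b => cond b (D.std 0 (nz, 0)) (D.std 0 δ)
  have h1 : D.deg (D.mul 0 c u) 0 = δ'.1 := by
    rw [D.deg_mul, finsum_eq_sum_of_fintype, Fintype.sum_bool, hδ]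
    exact congrArg₂ _ (D.deg_std 0 _) (D.deg_std 0 _)
  have h2 := D.isBlk c u 0
  rw [h1, show (fun b => nuOf pos (D.deg (u b) 0)) = fun b => cond b (nuOf pos nz) (nuOf pos δ.1)
    from funext fun | true => congrArg _ (D.deg_std 0 _) | false => congrArg _ (D.deg_std 0 _)] at h2
  have hz := (valid_fill (nuOf pos nz)).typed (ta := tz) (tb := tz)
  obtain ⟨q, hq, hc, hv, ht⟩ := exists_addBlk (wtOf pos) h2 hz
  have e1 : ∀ a, (mat (nOne σ a) (nuOf pos nz a) (nuOf pos nz a)).trace = nuOf pos nz a :=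
    fun a => by simp [mat_nOne]
  have e2 : ∀ a, (mat 0 (nuOf pos nz a) (nuOf pos nz a)).trace = nuOf pos 0 a :=
    fun a => by simp [mat_zero, nuOf_zero]
  refine ⟨pushMap K hq, D.mul 0 c u, h1, fun a b x => ?_, fun n x => ?_⟩
  · rw [chi_typed K tz tz hq (A := nz) (B := 0)
      (fun s => (hv s).trans (trace_nPr .vac (e1 s) (e2 s)))
      (fun s => (ht s).trans (trace_nPr .top (e1 s) (e2 s)))
      (fun s => by rw [hδ, nuOf_add, nuOf_zero, add_comm]; rfl)]
    simp [chOf, nuOf_zero]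
  · have e3 : (fun b => (pair (F := fun n => X D K n 0) (root D K tz nz) (sec D K 0 δ n x) b).1.1) =
        u := funext fun | true => rfl | false => rfl
    let y : ∀ b : Bool, (K.Y (cond b 0 (nuOf pos δ.1))).X (cond b 0 n) :=
      fun b => Bool.rec x (K.iota.f 0 kuOne) b
    have e4 := pushS_muS (K := K) (y := fun b => ⟨_, y b⟩)
      (qs := fun b => cond b (typed tz tz (0, nOne σ, 0)) (nOne σ, 0, 0)) (fun _ => rfl)
      (isBlk_unit _) h2
      (fun | true => hz | false => (isId_one _).valid) hq hc (dec n)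
    refine Prod.ext (congrArg (D.mul 0 c) e3) ?_
    change K.muS _ (nuOf pos (D.deg (D.mul 0 c _) 0)) (D.blk c _ 0) _ = _
    rw [e3, h1]
    refine Eq.trans (congrArg (fun y => K.muS y _ _ _) (funext ?_)) (e4.trans ?_)
    · rintro (_ | _)
      exacts [(pushS_id rfl (isId_one _)).symm, rfl]
    · exact congrArg (fun y => K.pushS ⟨_, y⟩ _ q)
        (K.mu_unit _ _ (fun a => mat_nOne a _) (dec n) y (fun _ => rfl) rfl)

theorem exists_step (c : O.O Bool) (T : SMap (alg D K ta tb).simp.Real (alg D K ta tb).simp.Real)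
    (hT : ∀ n p, T.f n (vt D K ta tb p) =
      vt D K ta tb (mu 0 c (dec n) (pair (F := fun n => X D K n 0) (root D K tz nz) p)))
    (δ δ' : Idx ι 0) (hδ : δ'.1 = nz + δ.1) (a b : ℕ) (x : (K.Y (nuOf pos δ.1)).toS.Pi a b) :
    ∃ x', K.χ (nuOf pos δ'.1) a b x' = chOf pos tz nz • K.χ _ a b x ∧
      T.pi a b (((cells D K ta tb).vtx δ).pi a b x) = ((cells D K ta tb).vtx δ').pi a b x' := by
  obtain ⟨g, x₁, h1, h2, h3⟩ := exists_step0 D K tz nz c δ δ' hδ
  refine ⟨_, h2 a b x, (SMap.pi_comp T ((cells D K ta tb).vtx δ) a b x).symm.trans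
    (Eq.trans ?_ (SMap.pi_comp ((cells D K ta tb).vtx δ') g a b x))⟩
  let w : ∀ n, (K.Y (nuOf pos δ.1)).X n → X D K n 0 := fun n y =>
    ⟨(x₁, ⟨_, g.f n y⟩), congrArg (nuOf pos) h1.symm⟩
  have hw : ∀ n, Continuous (w n) := fun n =>
    cont_mk continuous_const ((K.cont_mk n _).comp (g.cont n))
  refine DFunLike.congr_fun (SMap.pi_homotopy (fun n y u => vt D K ta tb (hom D K 0 n (w n y) u))
    (fun n => (cont_vt D K ta tb n).comp ((cont_hom D K 0 n).comp
      (((hw n).comp continuous_fst).prodMk continuous_snd))) (fun n y => ?_) (fun n y => ?_)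
    (fun n s => (space D K ta tb n).mk'_of_mem (g.f_pt n) _) a b) x
  · exact (congrArg (vt D K ta tb) ((ext (p := hom D K 0 n (w n y) 0) (p' := w n y)
      (D.hom_zero _ _) rfl).trans
      (Subtype.ext (h3 n y).symm))).trans (hT n _).symm
  · exact congrArg (vt D K ta tb) (ext ((D.hom_one _ _).trans (congrArg (D.std 0)
      (Prod.ext h1 (Subsingleton.elim _ _)))) rfl)

end Pool.Agent.Lib.E2.N
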