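import Pool.Agent.Lib.MP_10be03_gt.SAlg
import Pool.Agent.Lib.MP_10be03_gt.NSig
import Pool.Agent.Lib.MP_10be03_gt.NTyp

import Pool.Agent.Lib.MP_10be03_gt.NStep

/-!
The final assembly (layers N and Z).
-/

namespace Pool.Agent.Lib.E2

open scoped TensorProduct

open Classical in
theorem zD_single {B : SimpSp} (C : Cells B) (a b m : ℕ) (δ : C.idx (m + 1))
    (x : (C.Y (m + 1) δ).Pi a b) : C.d a b m (DFinsupp.single δ x) = ∑ i : Fin (m + 2),
      (-1 : ℤ) ^ (i : ℕ) • DFinsupp.single (C.pullD m i δ) ((C.g m i δ).pi a b x) := by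
  simp [Cells.d, AddMonoidHom.finsetSum_apply]

open Classical in
theorem zAug_single {B : SimpSp} (C : Cells B) (a b : ℕ) (δ : C.idx 0) (x : (C.Y 0 δ).Pi a b) :
    C.aug a b (DFinsupp.single δ x) = (C.vtx δ).pi a b x := by
  simp [Cells.aug]

theorem zAlg {Q P C C' : Type} [AddCommGroup Q] [AddCommGroup P] [AddCommGroup C] [AddCommGroup C']
    {d : C' →+ C} {v : C →+ P} (hv : Function.Surjective v) (he : Function.Exact d v) (T : P →+ P)
    (η : Q →+ P) (s : ℕ → Q → C) (hs : ∀ i y, v (s i y) = T^[i] (η y)) {p k : ℕ}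
    (h1 : ∀ y, ∑ i ∈ Finset.range p, s i y ∈ d.range)
    (h2 : ∀ c, ∃ y : Fin k → Q, c - ∑ i : Fin k, s i (y i) ∈ d.range)
    (h3 : ∀ y : Fin k → Q, ∑ i : Fin k, s i (y i) ∈ d.range → y = 0) :
    (∀ y, ∑ i ∈ Finset.range p, T^[i] y = 0) ∧
      Function.Bijective fun y : Fin k → Q => ∑ i : Fin k, T^[i] (η (y i)) := by
  have hsur : Function.Surjective fun y : Fin k → Q => ∑ i : Fin k, T^[i] (η (y i)) := fun x => by
    obtain ⟨c, rfl⟩ := hv x
    obtain ⟨y, hy⟩ := h2 c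
    have := (he _).2 hy
    rw [map_sub, map_sum, sub_eq_zero] at this
    exact ⟨y, by simp only [this, hs]⟩
  have hp : ∀ (i : ℕ) x, T^[i] x = ((show AddMonoid.End P from T) ^ i) x := fun i x => by
    rw [AddMonoid.End.coe_pow]; rfl
  refine ⟨fun x => ?_, fun y y' h => sub_eq_zero.1 (h3 _ ((he _).1 ?_)), hsur⟩
  · obtain ⟨y, rfl⟩ := hsur x
    simp only [hp, map_sum]
    rw [Finset.sum_comm]
    refine Finset.sum_eq_zero fun j _ => ?_
    have := (he _).2 (h1 (y j))
    simp only [map_sum, hs] at this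
    have e : ∀ i : ℕ, T^[i] (T^[j] (η (y j))) = T^[j] (T^[i] (η (y j))) := fun i =>
      Function.Commute.iterate_iterate_self T i j _
    simp only [hp] at e this
    simp only [e]
    rw [← map_sum, this, map_zero]
  · simp only [hp] at h
    simp only [map_sum, hs, hp, Pi.sub_apply, map_sub, Finset.sum_sub_distrib, h, sub_self]

theorem final_of (hH : CellMain) (hG : GStmt) (hKU : KUStmt) (hK : KStmt) (hD : DStmt)
    (hA : AStmt) (p : ℕ) (hp : p.Prime) (h2 : p ≠ 2) : Final p := by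
  obtain ⟨O, π, hE, hD⟩ := hD
  obtain ⟨r, k, pos, ta, tb, tz, nz, hS⟩ := hA p hp h2
  obtain ⟨D⟩ := hD pos
  obtain ⟨K⟩ := hK (wtOf pos) hKU.2
  obtain ⟨hO, μ, hμ, hv⟩ := hG O (N.alg D K ta tb)
  replace hv : ∀ {S : Type} [Finite S] {n : S → ℕ} {M : ℕ} (c : O.O S) (φ : Dec n M)
      (x : ∀ s, N.X D K (n s) 0), μ.ap c φ (fun s => N.vt D K ta tb (x s)) =
        N.vt D K ta tb (N.mu 0 c φ x) := hv
  obtain ⟨c⟩ := N.nonempty_two hE
  obtain ⟨T, hT⟩ := @N.exists_left O ⟨_, hO⟩ (N.cg_Re (N.alg D K ta tb)) μ hμ c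
    (N.vt D K ta tb (N.root D K tz nz))
  refine ⟨hKU.1, hKU.2, O, π, ⟨_, hO⟩, μ, N.unit D K ta tb hO, c,
    N.vt D K ta tb (N.root D K tz nz), T, hE, hμ,
    fun c₀ d x => ?_, fun c' n M d x => ?_, fun M d x hd hx => ?_, fun a b => ?_⟩
  · rw [show x = fun s => N.vt D K ta tb (s.elim) from funext fun s => s.elim, hv]
    exact congrArg (N.vt D K ta tb) (N.unit0_eq D K c₀ d _ (fun s => s.elim) _ fun β => by
      rw [show (fun s : Empty => (s.elim : N.X D K s.elim 0).1.2) = fun s => ⟨s.elim, s.elim⟩ from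
        funext fun s => s.elim]
      exact congrArg (Sigma.mk 0) (K.iota_one β d _))
  · exact (congrArg (N.vt D K ta tb) (N.unit0_eq D K c' d (fun b => N.unit0 D K _ (x b)) (fun _ => D.deg_std 0 0)
      _ fun β => congrArg (Sigma.mk 0) (K.iota_mul β d x))).trans (hv _ _ _).symm
  · refine (hT _ _).trans ?_
    rw [N.dec_eq d hd]
    exact congrArg _ (funext fun | true => hx.symm | false => rfl)
  let C := N.cells D K ta tb
  have hs := fun a b => @hS _ _ (fun n => (K.Y (nuOf pos n)).toS.Pi a b) _ (fun n => K.χ _ a b)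
    (fun n => K.χ_inj _ a b) (fun n => K.χ_range _ a b) (fun m i δ => (C.g m i δ).pi a b)
    (fun m i δ => N.chi_face D K ta tb i δ a b) (fun _ _ _ => Classical.propDecidable _)
    (C.d a b) (zD_single C a b)
  obtain ⟨h3, h4⟩ := hH _ C (fun a b => (hs a b).1) a b
  have key : ∀ (i : ℕ) y, ∃ x, K.χ (nuOf pos (i • nz)) a b x = (chOf pos tz nz ^ i) ⊗ₜ[ℤ] y ∧
      (C.vtx (i • nz, 0)).pi a b x = (T.pi a b)^[i] ((N.unit D K ta tb hO).toS.pi a b y) :=
    fun i y => by
      induction i with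
      | zero =>
        obtain ⟨x, h5, h6⟩ := N.exists_base D K ta tb hO (0 • nz, 0) (zero_smul _ _) a b y
        exact ⟨x, by rw [pow_zero]; exact h5, h6.symm⟩
      | succ i ih =>
        obtain ⟨x, h5, h6⟩ := ih
        obtain ⟨x', h7, h8⟩ := N.exists_step D K ta tb tz nz c T (fun n q => (hT n _).trans (by
          rw [← hv c (N.dec n) (N.pair (F := fun n => N.X D K n 0) (N.root D K tz nz) q)]
          exact congrArg _ (funext fun | true => rfl | false => rfl)))
          (i • nz, 0) ((i + 1) • nz, 0) (succ_nsmul' _ _) a b x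
        refine ⟨x', ?_, ?_⟩
        · rw [h7, h5, TensorProduct.smul_tmul', smul_eq_mul, pow_succ']
        · rw [Function.iterate_succ_apply', ← h6]
          exact h8.symm
  choose j hj1 hj2 using key
  obtain ⟨h5, h6, h7⟩ := (hs a b).2 (fun i => (i • nz, 0)) j (fun _ => rfl) hj1
  exact zAlg h3 h4 (T.pi a b) _ _ (fun i y => (zAug_single C a b _ _).trans (hj2 i y)) h5 h6 h7

end Pool.Agent.Lib.E2
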